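import Mathlib

set_option autoImplicit false

open Filter Topology

namespace Pool.Agent.Helper787.Fejer

/-- floor of log2 (i+4) -/
def m (i : ℕ) : ℕ := Nat.log 2 (i + 4)
def X (i : ℕ) : ℕ := 64 ^ i
def q (i : ℕ) : ℕ := m i * X i
def N (i : ℕ) : ℕ := 2 * ((m i + 1) * 2 ^ (m i) * q i)
def p (i : ℕ) : ℕ := 6 * X i
noncomputable def R (i : ℕ) : ℝ := (m i : ℝ) - 1 + ((i : ℝ) + 4) / 2 ^ (m i)

lemma two_le_m (i : ℕ) : 2 ≤ m i := by
  unfold m
  apply Nat.le_log_of_pow_le (by norm_num)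
  omega

lemma pow_m_le (i : ℕ) : 2 ^ (m i) ≤ i + 4 := by
  unfold m
  exact Nat.pow_log_le_self 2 (by omega)

lemma lt_pow_m (i : ℕ) : i + 4 < 2 ^ (m i + 1) := by
  unfold m
  exact Nat.lt_pow_succ_log_self (by norm_num) _

lemma m_mono {i j : ℕ} (h : i ≤ j) : m i ≤ m j := by
  unfold m
  exact Nat.log_mono_right (by omega)

lemma X_pos (i : ℕ) : 0 < X i := by unfold X; positivity

lemma R_lb (i : ℕ) : (m i : ℝ) ≤ R i := by
  unfold R
  have h : (2 : ℝ) ^ (m i) ≤ (i : ℝ) + 4 := by exact_mod_cast pow_m_le i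
  have h2 : (1 : ℝ) ≤ ((i : ℝ) + 4) / 2 ^ (m i) := by
    rw [le_div_iff₀ (by positivity)]
    linarith
  linarith

lemma R_ub (i : ℕ) : R i ≤ (m i : ℝ) + 1 := by
  unfold R
  have h : (i : ℝ) + 4 < (2 : ℝ) ^ (m i + 1) := by exact_mod_cast lt_pow_m i
  have h2 : ((i : ℝ) + 4) / 2 ^ (m i) ≤ 2 := by
    rw [div_le_iff₀ (by positivity)]
    rw [pow_succ] at h
    linarith
  linarith

lemma R_ge_two (i : ℕ) : (2 : ℝ) ≤ R i := by
  have h := two_le_m i
  have h' : (2 : ℝ) ≤ (m i : ℝ) := by exact_mod_cast h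
  linarith [R_lb i]

lemma m_succ (i : ℕ) : m (i + 1) = m i ∨ (m (i + 1) = m i + 1 ∧ i + 5 = 2 ^ (m i + 1)) := by
  have h1 := lt_pow_m i
  have h2 := pow_m_le (i + 1)
  have h3 := m_mono (Nat.le_succ i)
  have h3' : m i ≤ m (i + 1) := h3
  by_cases h : m (i + 1) = m i
  · left; exact h
  · right
    have h4 : m i + 1 ≤ m (i + 1) := by omega
    have h5 : 2 ^ (m i + 1) ≤ 2 ^ (m (i + 1)) := Nat.pow_le_pow_right (by norm_num) h4
    have h6 : i + 5 = 2 ^ (m i + 1) := by omega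
    refine ⟨?_, h6⟩
    have h7 : m (i + 1) < m i + 2 := by
      by_contra hcon
      push Not at hcon
      have h8 : 2 ^ (m i + 2) ≤ 2 ^ (m (i + 1)) := Nat.pow_le_pow_right (by norm_num) hcon
      have h9 : 2 ^ (m i + 2) = 2 * 2 ^ (m i + 1) := by ring
      have h10 : 0 < 2 ^ (m i + 1) := by positivity
      omega
    omega

lemma R_succ (i : ℕ) : R (i + 1) = R i + 1 / 2 ^ (m i) := by
  unfold R
  rcases m_succ i with h | ⟨h, h2⟩
  · rw [h]
    push_cast
    ring
  · rw [h]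
    have h3 : (i : ℝ) + 5 = 2 ^ (m i + 1) := by exact_mod_cast h2
    have h4 : (0 : ℝ) < 2 ^ (m i) := by positivity
    push_cast
    rw [show (i : ℝ) + 1 + 4 = i + 5 by ring, h3, show (i : ℝ) + 4 = (i + 5) - 1 by ring, h3]
    rw [div_self (by positivity), pow_succ]
    field_simp
    ring

lemma m_pred_ge (i : ℕ) : m (i + 1) ≤ m i + 1 := by
  rcases m_succ i with h | ⟨h, _⟩ <;> omega

lemma R_mono {i j : ℕ} (h : i ≤ j) : R i ≤ R j := by
  apply monotone_nat_of_le_succ _ h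
  intro n
  rw [R_succ]
  have : (0 : ℝ) < 1 / 2 ^ (m n) := by positivity
  linarith

lemma R_diff (i d : ℕ) : R (i + d) - R i ≤ (d : ℝ) * (1 / 2 ^ (m i)) := by
  induction d with
  | zero => simp
  | succ d ih =>
    rw [show i + (d + 1) = (i + d) + 1 by ring, R_succ]
    have h : (1 : ℝ) / 2 ^ (m (i + d)) ≤ 1 / 2 ^ (m i) := by
      apply one_div_le_one_div_of_le (by positivity)
      exact pow_le_pow_right₀ (by norm_num) (m_mono (by omega))
    push_cast
    linarith

/-- the size of the block on the positive ray -/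
noncomputable def T (i : ℕ) (r : ℝ) : ℝ :=
  Real.exp (q i) * (r / R i) ^ (N i) * |1 - r / R i| ^ (p i)

lemma T_nonneg (i : ℕ) {r : ℝ} (hr : 0 ≤ r) : 0 ≤ T i r := by
  unfold T
  have := R_ge_two i
  positivity

lemma qp (i : ℕ) : (q i : ℝ) = m i * X i := by unfold q; push_cast; ring

lemma half_pow_exp (n : ℕ) : ((1 : ℝ) / 2) ^ n ≤ Real.exp (-(2 / 3) * n) := by
  have h : (1 : ℝ) / 2 ≤ Real.exp (-(2 / 3)) := by
    have h1 : Real.exp (2 / 3) ≤ 2 := by
      have h2 : Real.exp 2 ≤ 2 ^ 3 := by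
        have h3 : Real.exp 1 < 2.7182818286 := Real.exp_one_lt_d9
        have h4 : Real.exp 2 = Real.exp 1 * Real.exp 1 := by rw [← Real.exp_add]; norm_num
        rw [h4]
        nlinarith [Real.exp_pos 1]
      have h3 : Real.exp (2 / 3) ^ 3 = Real.exp 2 := by
        rw [← Real.exp_nat_mul]; norm_num
      by_contra hcon
      push Not at hcon
      have h4 : (2 : ℝ) ^ 3 < Real.exp (2 / 3) ^ 3 := by
        apply pow_lt_pow_left₀ hcon (by norm_num) (by norm_num)
      linarith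
    rw [Real.exp_neg, ← one_div]
    exact one_div_le_one_div_of_le (Real.exp_pos _) h1
  calc ((1 : ℝ) / 2) ^ n ≤ (Real.exp (-(2 / 3))) ^ n := pow_le_pow_left₀ (by norm_num) h n
    _ = Real.exp (-(2 / 3) * n) := by rw [← Real.exp_nat_mul]; ring_nf

/-- valley: if |1 - r/R i| ≤ 2^{-m i} then the factor is at most exp (-4 q i) -/
lemma valley {i : ℕ} {r : ℝ} (h : |1 - r / R i| ≤ 1 / 2 ^ (m i)) :
    |1 - r / R i| ^ (p i) ≤ Real.exp (-(4 * q i)) := by
  calc |1 - r / R i| ^ (p i) ≤ (1 / 2 ^ (m i)) ^ (p i) := pow_le_pow_left₀ (abs_nonneg _) h _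
    _ = ((1 : ℝ) / 2) ^ (m i * p i) := by rw [pow_mul]; congr 1; rw [one_div_pow]
    _ ≤ Real.exp (-(2 / 3) * ((m i * p i : ℕ) : ℝ)) := half_pow_exp _
    _ = Real.exp (-(4 * q i)) := by
      congr 1
      rw [qp]
      unfold p
      push_cast
      ring

/-- growth bound to the right of `R i` -/
lemma grow {i d : ℕ} {r : ℝ} (h2 : r ≤ R (i + d)) :
    r / R i ≤ Real.exp ((d : ℝ) / (2 ^ (m i) * m i)) := by
  have hR := R_ge_two i
  have hRm := R_lb i
  have hm : (2 : ℝ) ≤ m i := by exact_mod_cast two_le_m i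
  have h3 := R_diff i d
  have h4 : r / R i = 1 + (r - R i) / R i := by field_simp; ring
  have h5 : (r - R i) / R i ≤ (d : ℝ) / (2 ^ (m i) * m i) := by
    calc (r - R i) / R i ≤ ((d : ℝ) * (1 / 2 ^ (m i))) / R i := by
          apply div_le_div_of_nonneg_right _ (by linarith)
          linarith
      _ ≤ ((d : ℝ) * (1 / 2 ^ (m i))) / m i := by
          apply div_le_div_of_nonneg_left (by positivity) (by linarith) hRm
      _ = (d : ℝ) / (2 ^ (m i) * m i) := by field_simp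
  rw [h4]
  have := Real.add_one_le_exp ((d : ℝ) / (2 ^ (m i) * m i))
  linarith

lemma NR (i : ℕ) : (N i : ℝ) = 2 * ((m i + 1) * 2 ^ (m i) * q i) := by unfold N; push_cast; ring

lemma grow_N {i d : ℕ} {r : ℝ} (h1 : R i ≤ r) (h2 : r ≤ R (i + d)) :
    (r / R i) ^ (N i) ≤ Real.exp (3 * q i * d) := by
  have hR := R_ge_two i
  have hm : (2 : ℝ) ≤ m i := by exact_mod_cast two_le_m i
  have h3 := grow h2
  calc (r / R i) ^ (N i) ≤ (Real.exp ((d : ℝ) / (2 ^ (m i) * m i))) ^ (N i) :=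
        pow_le_pow_left₀ (div_nonneg (by linarith) (by linarith)) h3 _
    _ = Real.exp ((N i : ℝ) * ((d : ℝ) / (2 ^ (m i) * m i))) := by rw [← Real.exp_nat_mul]
    _ ≤ Real.exp (3 * q i * d) := by
      apply Real.exp_le_exp.mpr
      rw [NR]
      have h4 : 2 * (((m i : ℝ) + 1) * 2 ^ (m i) * q i) * ((d : ℝ) / (2 ^ (m i) * m i))
          = (2 * ((m i : ℝ) + 1) / m i) * (q i * d) := by
        field_simp
      rw [h4]
      have h5 : (2 * ((m i : ℝ) + 1) / m i) ≤ 3 := by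
        rw [div_le_iff₀ (by linarith)]
        linarith
      have h6 : (0 : ℝ) ≤ q i * d := by positivity
      nlinarith

/-- (a) far blocks to the right -/
lemma T_right {i : ℕ} {r : ℝ} (h0 : 0 ≤ r) (h : r ≤ R i) : T (i + 1) r ≤ Real.exp (-(q (i + 1))) := by
  have hR := R_ge_two (i + 1)
  have hRub := R_ub (i + 1)
  have hm : (2 : ℝ) ≤ m (i + 1) := by exact_mod_cast two_le_m (i + 1)
  have h1 : r / R (i + 1) ≤ Real.exp (-(1 / (2 ^ (m (i + 1)) * ((m (i + 1) : ℝ) + 1)))) := by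
    have h2 : r / R (i + 1) ≤ R i / R (i + 1) := div_le_div_of_nonneg_right h (by linarith)
    have h3 : R i / R (i + 1) = 1 - (1 / 2 ^ (m i)) / R (i + 1) := by
      have h30 : R (i + 1) ≠ 0 := by linarith
      rw [eq_sub_iff_add_eq, ← add_div, ← R_succ, div_self h30]
    have h4 : 1 / (2 ^ (m (i + 1)) * ((m (i + 1) : ℝ) + 1)) ≤ (1 / 2 ^ (m i)) / R (i + 1) := by
      rw [div_div]
      apply one_div_le_one_div_of_le (by positivity)
      apply mul_le_mul _ hRub (by linarith) (by positivity)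
      exact pow_le_pow_right₀ (by norm_num) (m_mono (by omega))
    have h5 := Real.add_one_le_exp (-(1 / (2 ^ (m (i + 1)) * ((m (i + 1) : ℝ) + 1))))
    linarith
  have h6 : (r / R (i + 1)) ^ (N (i + 1)) ≤ Real.exp (-(2 * q (i + 1))) := by
    calc (r / R (i + 1)) ^ (N (i + 1))
        ≤ (Real.exp (-(1 / (2 ^ (m (i + 1)) * ((m (i + 1) : ℝ) + 1))))) ^ (N (i + 1)) :=
          pow_le_pow_left₀ (by positivity) h1 _
      _ = Real.exp (-(2 * q (i + 1))) := by
        rw [← Real.exp_nat_mul, NR]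
        congr 1
        field_simp
  have h7 : |1 - r / R (i + 1)| ≤ 1 := by
    have h8 : r / R (i + 1) ≤ 1 := by
      rw [div_le_one (by linarith)]
      exact h.trans (R_mono (by omega))
    have h9 : 0 ≤ r / R (i + 1) := by positivity
    rw [abs_le]; constructor <;> linarith
  unfold T
  calc Real.exp (q (i + 1)) * (r / R (i + 1)) ^ (N (i + 1)) * |1 - r / R (i + 1)| ^ (p (i + 1))
      ≤ Real.exp (q (i + 1)) * Real.exp (-(2 * q (i + 1))) * 1 := by
        apply mul_le_mul _ (pow_le_one₀ (abs_nonneg _) h7) (by positivity) (by positivity)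
        exact mul_le_mul_of_nonneg_left h6 (Real.exp_pos _).le
    _ = Real.exp (-(q (i + 1))) := by
      rw [mul_one, ← Real.exp_add]; congr 1; ring

/-- (b) the next block -/
lemma T_next {i : ℕ} {r : ℝ} (h1 : R i ≤ r) (h2 : r ≤ R (i + 1)) : T (i + 1) r ≤ 1 := by
  have hR := R_ge_two (i + 1)
  have hRi := R_ge_two i
  have h8 : r / R (i + 1) ≤ 1 := by
    rw [div_le_one (by linarith)]
    exact h2
  have h9 : 0 ≤ r / R (i + 1) := div_nonneg (by linarith) (by linarith)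
  have h3 : |1 - r / R (i + 1)| ≤ 1 / 2 ^ (m (i + 1)) := by
    rw [abs_of_nonneg (by linarith)]
    have h4 : 1 - r / R (i + 1) = (R (i + 1) - r) / R (i + 1) := by field_simp
    rw [h4]
    have h5 : (R (i + 1) - r) ≤ 1 / 2 ^ (m i) := by rw [R_succ]; linarith
    have h6 : (1 : ℝ) / 2 ^ (m i) ≤ 2 / 2 ^ (m (i + 1)) := by
      rw [div_le_div_iff₀ (by positivity) (by positivity)]
      have : (2 : ℝ) ^ (m (i + 1)) ≤ 2 ^ (m i + 1) := pow_le_pow_right₀ (by norm_num) (m_pred_ge i)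
      rw [pow_succ] at this
      linarith
    rw [div_le_iff₀ (by linarith)]
    calc R (i + 1) - r ≤ 2 / 2 ^ (m (i + 1)) := h5.trans h6
      _ = 1 / 2 ^ (m (i + 1)) * 2 := by ring
      _ ≤ 1 / 2 ^ (m (i + 1)) * R (i + 1) := by
        apply mul_le_mul_of_nonneg_left hR (by positivity)
  have h4 := valley h3
  unfold T
  calc Real.exp (q (i + 1)) * (r / R (i + 1)) ^ (N (i + 1)) * |1 - r / R (i + 1)| ^ (p (i + 1))
      ≤ Real.exp (q (i + 1)) * 1 * Real.exp (-(4 * q (i + 1))) := by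
        apply mul_le_mul _ h4 (by positivity) (by positivity)
        exact mul_le_mul_of_nonneg_left (pow_le_one₀ h9 h8) (Real.exp_pos _).le
    _ = Real.exp (-(3 * q (i + 1))) := by
      rw [mul_one, ← Real.exp_add]; congr 1; ring
    _ ≤ 1 := by
      apply Real.exp_le_one_iff.mpr
      have : (0 : ℝ) ≤ q (i + 1) := by positivity
      linarith

/-- (c) the present block -/
lemma T_self {i : ℕ} {r : ℝ} (h1 : R i ≤ r) (h2 : r ≤ R (i + 1)) : T i r ≤ 1 := by
  have hRi := R_ge_two i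
  have h3 : |1 - r / R i| ≤ 1 / 2 ^ (m i) := by
    have h8 : 1 ≤ r / R i := by rw [le_div_iff₀ (by linarith)]; linarith
    rw [abs_of_nonpos (by linarith)]
    have h4 : -(1 - r / R i) = (r - R i) / R i := by field_simp; ring
    rw [h4]
    have h5 : r - R i ≤ 1 / 2 ^ (m i) := by rw [R_succ] at h2; linarith
    rw [div_le_iff₀ (by linarith)]
    calc r - R i ≤ 1 / 2 ^ (m i) * 1 := by linarith
      _ ≤ 1 / 2 ^ (m i) * R i := by
        apply mul_le_mul_of_nonneg_left (by linarith) (by positivity)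
  have h4 := valley h3
  have h5 := grow_N h1 (d := 1) h2
  unfold T
  calc Real.exp (q i) * (r / R i) ^ (N i) * |1 - r / R i| ^ (p i)
      ≤ Real.exp (q i) * Real.exp (3 * q i * (1 : ℕ)) * Real.exp (-(4 * q i)) := by
        apply mul_le_mul _ h4 (by positivity) (by positivity)
        exact mul_le_mul_of_nonneg_left h5 (Real.exp_pos _).le
    _ = 1 := by
      rw [← Real.exp_add, ← Real.exp_add]
      rw [← Real.exp_zero]; congr 1; push_cast; ring

/-- (d) blocks to the left -/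
lemma T_left {i d : ℕ} {r : ℝ} (h1 : R i ≤ r) (h2 : r ≤ R (i + d)) :
    T i r ≤ Real.exp (q i * (1 + 4 * d)) := by
  have hR := R_ge_two i
  have hm : (2 : ℝ) ≤ m i := by exact_mod_cast two_le_m i
  have h3 := grow_N h1 h2
  have h4 : |1 - r / R i| ≤ r / R i := by
    have h8 : 1 ≤ r / R i := by rw [le_div_iff₀ (by linarith)]; linarith
    rw [abs_of_nonpos (by linarith)]; linarith
  have h5 : |1 - r / R i| ^ (p i) ≤ Real.exp (q i * d) := by
    calc |1 - r / R i| ^ (p i) ≤ (r / R i) ^ (p i) := pow_le_pow_left₀ (abs_nonneg _) h4 _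
      _ ≤ (Real.exp ((d : ℝ) / (2 ^ (m i) * m i))) ^ (p i) :=
        pow_le_pow_left₀ (div_nonneg (by linarith) (by linarith)) (grow h2) _
      _ = Real.exp ((p i : ℝ) * ((d : ℝ) / (2 ^ (m i) * m i))) := by rw [← Real.exp_nat_mul]
      _ ≤ Real.exp (q i * d) := by
        apply Real.exp_le_exp.mpr
        rw [qp]
        unfold p
        push_cast
        have h6 : (4 : ℝ) ≤ 2 ^ (m i) := by
          calc (4 : ℝ) = 2 ^ 2 := by norm_num
            _ ≤ 2 ^ (m i) := pow_le_pow_right₀ (by norm_num) (two_le_m i)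
        have h7 : (6 : ℝ) * X i * ((d : ℝ) / (2 ^ (m i) * m i)) = (6 / (2 ^ (m i) * m i)) * (X i * d) := by
          field_simp
        rw [h7]
        have h8 : (6 : ℝ) / (2 ^ (m i) * m i) ≤ m i := by
          rw [div_le_iff₀ (by positivity)]
          calc (6 : ℝ) ≤ 2 * (4 * 2) := by norm_num
            _ ≤ (m i : ℝ) * (2 ^ (m i) * m i) := by gcongr
        have h9 : (0 : ℝ) ≤ X i * d := by positivity
        nlinarith
  unfold T
  calc Real.exp (q i) * (r / R i) ^ (N i) * |1 - r / R i| ^ (p i)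
      ≤ Real.exp (q i) * Real.exp (3 * q i * d) * Real.exp (q i * d) := by
        apply mul_le_mul _ h5 (by positivity) (by positivity)
        exact mul_le_mul_of_nonneg_left h3 (Real.exp_pos _).le
    _ = Real.exp (q i * (1 + 4 * d)) := by
      rw [← Real.exp_add, ← Real.exp_add]; congr 1; ring

lemma q_shift (i d : ℕ) : q i * 64 ^ d ≤ q (i + d) := by
  unfold q X
  calc m i * 64 ^ i * 64 ^ d = m i * 64 ^ (i + d) := by rw [pow_add]; ring
    _ ≤ m (i + d) * 64 ^ (i + d) := Nat.mul_le_mul_right _ (m_mono (by omega))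

lemma nat_aux (d : ℕ) : 4 * (1 + 4 * (d + 2)) ≤ 64 ^ (d + 1) := by
  induction d with
  | zero => norm_num
  | succ d ih => rw [pow_succ]; omega

/-- (d') blocks to the left, final form -/
lemma T_left' {i d : ℕ} {r : ℝ} (h1 : R i ≤ r) (h2 : r ≤ R (i + (d + 1) + 1)) :
    T i r ≤ Real.exp (q (i + (d + 1)) / 4) := by
  have h3 : r ≤ R (i + (d + 2)) := h2
  refine (T_left h1 h3).trans ?_
  apply Real.exp_le_exp.mpr
  have h4 : (q i : ℝ) * 64 ^ (d + 1) ≤ q (i + (d + 1)) := by exact_mod_cast q_shift i (d + 1)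
  have h5 : (4 : ℝ) * (1 + 4 * ((d : ℝ) + 2)) ≤ 64 ^ (d + 1) := by exact_mod_cast nat_aux d
  have h6 : (0 : ℝ) ≤ q i := by positivity
  push_cast
  nlinarith

end Pool.Agent.Helper787.Fejer
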