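import Mathlib
import Pool.Agent.Helper787.FejA

set_option autoImplicit false

open Filter Topology

namespace Pool.Agent.Helper787.Fejer

lemma coeff_lemma (a : ℕ → ℂ) (f : ℂ → ℂ) (h : ∀ z, HasSum (fun k => a k * z ^ k) (f z))
    (h' : ∀ r : NNReal, Summable (fun k => ‖a k‖ * (r : ℝ) ^ k)) :
    ∀ k, iteratedDeriv k f 0 = (k.factorial : ℂ) * a k := by
  set P : FormalMultilinearSeries ℂ ℂ ℂ := FormalMultilinearSeries.ofScalars ℂ a with hP
  have hPn : ∀ (n : ℕ) (z : ℂ), P n (fun _ => z) = a n * z ^ n := by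
    intro n z
    simp [hP, FormalMultilinearSeries.ofScalars]
  have hnorm : ∀ n, ‖P n‖ = ‖a n‖ := by
    intro n
    simp [hP]
  have hrad : P.radius = ⊤ := by
    apply FormalMultilinearSeries.radius_eq_top_of_summable_norm
    intro r
    simp only [hnorm]
    exact h' r
  have hball : HasFPowerSeriesOnBall P.sum P 0 P.radius :=
    P.hasFPowerSeriesOnBall (by rw [hrad]; exact ENNReal.zero_lt_top)
  have hsum : P.sum = f := by
    funext z
    unfold FormalMultilinearSeries.sum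
    simp only [hPn]
    exact (h z).tsum_eq
  rw [hsum] at hball
  intro k
  have h1 := hball.factorial_smul (1 : ℂ) k
  rw [hPn] at h1
  rw [iteratedDeriv_eq_iteratedFDeriv, ← h1]
  simp

/-- majorant of the block -/
noncomputable def U (i : ℕ) (ρ : ℝ) : ℝ :=
  Real.exp (q i) * (ρ / R i) ^ (N i) * (1 + ρ / R i) ^ (p i)

/-- the block -/
noncomputable def F (i : ℕ) (z : ℂ) : ℂ :=
  (Real.exp (q i) : ℂ) * (z / (R i : ℂ)) ^ (N i) * (1 - z / (R i : ℂ)) ^ (p i)

lemma U_nonneg (i : ℕ) {ρ : ℝ} (h : 0 ≤ ρ) : 0 ≤ U i ρ := by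
  unfold U
  have := R_ge_two i
  positivity

lemma norm_R (i : ℕ) : ‖(R i : ℂ)‖ = R i := by
  have := R_ge_two i
  rw [Complex.norm_real, Real.norm_of_nonneg (by linarith)]

lemma F_le (i : ℕ) (z : ℂ) : ‖F i z‖ ≤ U i ‖z‖ := by
  unfold F U
  have hR := R_ge_two i
  rw [norm_mul, norm_mul, norm_pow, norm_pow, norm_div, norm_R, Complex.norm_real,
    Real.norm_of_nonneg (Real.exp_pos _).le]
  apply mul_le_mul_of_nonneg_left _ (by positivity)
  apply pow_le_pow_left₀ (norm_nonneg _)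
  calc ‖1 - z / (R i : ℂ)‖ ≤ ‖(1 : ℂ)‖ + ‖z / (R i : ℂ)‖ := norm_sub_le _ _
    _ = 1 + ‖z‖ / R i := by rw [norm_one, norm_div, norm_R]

lemma U_mono (i : ℕ) {s t : ℝ} (h0 : 0 ≤ s) (h : s ≤ t) : U i s ≤ U i t := by
  unfold U
  have hR := R_ge_two i
  have h1 : 0 ≤ t / R i := div_nonneg (by linarith) (by linarith)
  gcongr

lemma i_le_q (i : ℕ) : i + 1 ≤ q i := by
  have h1 := two_le_m i
  have h2 : i < 64 ^ i := Nat.lt_pow_self (by norm_num)
  unfold q X
  nlinarith

lemma q_exp (i : ℕ) : Real.exp (-(q i : ℝ)) ≤ (1 / 2) ^ (i + 1) := by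
  have h1 : (1 : ℝ) / 2 ≥ Real.exp (-1) := by
    rw [Real.exp_neg, ← one_div]
    apply one_div_le_one_div_of_le (by norm_num)
    have := Real.add_one_le_exp (1 : ℝ)
    linarith
  calc Real.exp (-(q i : ℝ)) ≤ Real.exp (-((i + 1 : ℕ) : ℝ)) := by
        apply Real.exp_le_exp.mpr
        have : ((i + 1 : ℕ) : ℝ) ≤ q i := by exact_mod_cast i_le_q i
        linarith
    _ = (Real.exp (-1)) ^ (i + 1) := by rw [← Real.exp_nat_mul]; congr 1; push_cast; ring
    _ ≤ (1 / 2) ^ (i + 1) := pow_le_pow_left₀ (Real.exp_pos _).le h1 _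

lemma N_big (i : ℕ) : 24 * q i ≤ N i := by
  unfold N
  have h1 := two_le_m i
  have h2 : 2 ^ 2 ≤ 2 ^ (m i) := Nat.pow_le_pow_right (by norm_num) h1
  have h3 : 3 * 4 ≤ (m i + 1) * 2 ^ (m i) := Nat.mul_le_mul (by omega) (by simpa using h2)
  have h4 : 3 * 4 * q i ≤ (m i + 1) * 2 ^ (m i) * q i := Nat.mul_le_mul_right _ h3
  omega

lemma p_le (i : ℕ) : p i ≤ 3 * q i := by
  unfold p q
  have h1 := two_le_m i
  nlinarith [X_pos i]

lemma U_small {i : ℕ} {ρ : ℝ} (h0 : 0 ≤ ρ) (h : 2 * ρ ≤ R i) : U i ρ ≤ (1 / 2) ^ (i + 1) := by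
  have hR := R_ge_two i
  have h1 : ρ / R i ≤ 1 / 2 := by
    rw [div_le_iff₀ (by linarith)]; linarith
  have h1' : 0 ≤ ρ / R i := by positivity
  have h2 : (1 + ρ / R i) ^ (p i) ≤ Real.exp ((p i : ℝ) / 2) := by
    calc (1 + ρ / R i) ^ (p i) ≤ (Real.exp (1 / 2)) ^ (p i) := by
          apply pow_le_pow_left₀ (by positivity)
          have := Real.add_one_le_exp (1 / 2 : ℝ)
          linarith
      _ = Real.exp ((p i : ℝ) / 2) := by rw [← Real.exp_nat_mul]; congr 1; ring
  have h3 : (ρ / R i) ^ (N i) ≤ Real.exp (-(2 / 3) * (N i : ℝ)) :=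
    (pow_le_pow_left₀ h1' h1 _).trans (half_pow_exp _)
  refine le_trans ?_ (q_exp i)
  unfold U
  calc Real.exp (q i) * (ρ / R i) ^ (N i) * (1 + ρ / R i) ^ (p i)
      ≤ Real.exp (q i) * Real.exp (-(2 / 3) * (N i : ℝ)) * Real.exp ((p i : ℝ) / 2) := by
        gcongr
    _ = Real.exp (q i - (2 / 3) * (N i : ℝ) + (p i : ℝ) / 2) := by
      rw [← Real.exp_add, ← Real.exp_add]; congr 1; ring
    _ ≤ Real.exp (-(q i : ℝ)) := by
      apply Real.exp_le_exp.mpr
      have h4 : (24 : ℝ) * q i ≤ N i := by exact_mod_cast N_big i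
      have h5 : (p i : ℝ) ≤ 3 * q i := by exact_mod_cast p_le i
      have h6 : (0 : ℝ) ≤ q i := by positivity
      linarith

lemma R_large (B : ℕ) {i : ℕ} (hi : 2 ^ B ≤ i) : (B : ℝ) ≤ R i := by
  have h : B ≤ m i := by
    unfold m
    apply Nat.le_log_of_pow_le (by norm_num)
    omega
  have h' : (B : ℝ) ≤ m i := by exact_mod_cast h
  linarith [R_lb i]

lemma U_summable {ρ : ℝ} (h0 : 0 ≤ ρ) : Summable (fun i => U i ρ) := by
  obtain ⟨B, hB⟩ := exists_nat_ge (2 * ρ)
  have hs : Summable (fun i : ℕ => ((1 : ℝ) / 2) ^ (i + 1)) := by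
    have := (summable_geometric_of_lt_one (r := (1 : ℝ) / 2) (by norm_num) (by norm_num))
    exact (summable_nat_add_iff 1).mpr this
  apply Summable.of_norm_bounded_eventually_nat hs
  filter_upwards [eventually_ge_atTop (2 ^ B)] with i hi
  rw [Real.norm_of_nonneg (U_nonneg i h0)]
  exact U_small h0 (hB.trans (R_large B hi))

/-- the entire function -/
noncomputable def f (z : ℂ) : ℂ := ∑' i, F i z

lemma F_diff (i : ℕ) : Differentiable ℂ (F i) := by
  unfold F
  fun_prop

lemma f_diff : Differentiable ℂ f := by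
  intro z
  have hU := U_summable (ρ := ‖z‖ + 1) (by positivity)
  have h1 : DifferentiableOn ℂ (fun w => ∑' i, F i w) (Metric.ball 0 (‖z‖ + 1)) := by
    apply Complex.differentiableOn_tsum_of_summable_norm hU
    · intro i; exact (F_diff i).differentiableOn
    · exact Metric.isOpen_ball
    · intro i w hw
      rw [mem_ball_zero_iff] at hw
      exact (F_le i w).trans (U_mono i (norm_nonneg _) hw.le)
  exact (h1 z (by rw [mem_ball_zero_iff]; linarith)).differentiableAt
    (Metric.isOpen_ball.mem_nhds (by rw [mem_ball_zero_iff]; linarith))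

lemma F_summable (z : ℂ) : Summable (fun i => F i z) :=
  Summable.of_norm_bounded (U_summable (norm_nonneg z)) (fun i => F_le i z)

lemma F_ray (i : ℕ) {r : ℝ} (hr : 0 ≤ r) : ‖F i (r : ℂ)‖ = T i r := by
  unfold F T
  have hR := R_ge_two i
  rw [norm_mul, norm_mul, norm_pow, norm_pow, norm_div, norm_R, Complex.norm_real,
    Real.norm_of_nonneg (Real.exp_pos _).le, Complex.norm_real, Real.norm_of_nonneg hr]
  congr 2
  have : (1 : ℂ) - (r : ℂ) / (R i : ℂ) = ((1 - r / R i : ℝ) : ℂ) := by push_cast; ring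
  rw [this, Complex.norm_real, Real.norm_eq_abs]

lemma T_le_U (i : ℕ) {r : ℝ} (hr : 0 ≤ r) : T i r ≤ U i r := by
  have h := F_le i (r : ℂ)
  rw [F_ray i hr, Complex.norm_real, Real.norm_of_nonneg hr] at h
  exact h

lemma T_summable {r : ℝ} (hr : 0 ≤ r) : Summable (fun i => T i r) :=
  Summable.of_nonneg_of_le (fun i => T_nonneg i hr) (fun i => T_le_U i hr) (U_summable hr)

/-- upper bound on the positive ray -/
lemma f_ray {j : ℕ} (hj : 1 ≤ j) {r : ℝ} (h1 : R j ≤ r) (h2 : r ≤ R (j + 1)) :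
    ‖f (r : ℂ)‖ ≤ Real.exp (q j / 2) := by
  have hRj := R_ge_two j
  have hr : 0 ≤ r := by linarith
  have hq0 : (0 : ℝ) ≤ q j := by positivity
  have hf : ‖f (r : ℂ)‖ ≤ ∑' i, T i r := by
    unfold f
    have hs : Summable (fun i => ‖F i (r : ℂ)‖) := by
      simp only [F_ray _ hr]; exact T_summable hr
    calc ‖∑' i, F i (r : ℂ)‖ ≤ ∑' i, ‖F i (r : ℂ)‖ := norm_tsum_le_tsum_norm hs
      _ = ∑' i, T i r := by simp only [F_ray _ hr]
  have hsplit := (T_summable hr).sum_add_tsum_nat_add (j + 2)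
  have hfin : ∑ i ∈ Finset.range (j + 2), T i r ≤ (j + 2) * Real.exp (q j / 4) := by
    have : ∀ i ∈ Finset.range (j + 2), T i r ≤ Real.exp (q j / 4) := by
      intro i hi
      rw [Finset.mem_range] at hi
      have hone : (1 : ℝ) ≤ Real.exp (q j / 4) := Real.one_le_exp (by positivity)
      rcases lt_trichotomy i j with h | h | h
      · obtain ⟨d, rfl⟩ := Nat.exists_eq_add_of_lt h
        have h3 : R i ≤ r := (R_mono (by omega)).trans h1
        exact T_left' (i := i) (d := d) (r := r) h3 h2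
      · subst h
        exact (T_self h1 h2).trans hone
      · have h3 : i = j + 1 := by omega
        subst h3
        exact (T_next h1 h2).trans hone
    calc ∑ i ∈ Finset.range (j + 2), T i r ≤ ∑ i ∈ Finset.range (j + 2), Real.exp (q j / 4) :=
          Finset.sum_le_sum this
      _ = (j + 2) * Real.exp (q j / 4) := by
        rw [Finset.sum_const, Finset.card_range, nsmul_eq_mul]; push_cast; ring
  have htail : ∑' i, T (i + (j + 2)) r ≤ 1 := by
    have hgeo : HasSum (fun i : ℕ => ((1 : ℝ) / 2) ^ (i + 1)) 1 := by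
      have h := (hasSum_geometric_of_lt_one (r := (1 : ℝ) / 2) (by norm_num) (by norm_num)).mul_right
        ((1 : ℝ) / 2)
      have h3 : (1 - (1 : ℝ) / 2)⁻¹ * (1 / 2) = 1 := by norm_num
      rw [h3] at h
      simpa only [pow_succ] using h
    rw [← hgeo.tsum_eq]
    apply Summable.tsum_le_tsum _ ((summable_nat_add_iff (j + 2)).mpr (T_summable hr)) hgeo.summable
    intro i
    have h3 : r ≤ R (i + j + 1) := h2.trans (R_mono (by omega))
    have h4 := T_right hr h3
    have h5 : i + (j + 2) = i + j + 1 + 1 := by ring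
    rw [h5]
    refine h4.trans ((q_exp _).trans ?_)
    apply pow_le_pow_of_le_one (by norm_num) (by norm_num)
    omega
  have hlast : ((j : ℝ) + 3) ≤ Real.exp (q j / 4) := by
    have h3 : 4 * (j + 2) ≤ q j := by
      have h4 := two_le_m j
      have h5 : 2 * (j + 2) ≤ 64 ^ j := by
        clear * - hj
        induction j, hj using Nat.le_induction with
        | base => norm_num
        | succ n hn ih => rw [pow_succ]; omega
      unfold q X
      nlinarith
    have h6 : (4 : ℝ) * (j + 2) ≤ q j := by exact_mod_cast h3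
    have := Real.add_one_le_exp ((q j : ℝ) / 4)
    linarith
  have hone : (1 : ℝ) ≤ Real.exp (q j / 4) := Real.one_le_exp (by positivity)
  calc ‖f (r : ℂ)‖ ≤ ∑' i, T i r := hf
    _ = ∑ i ∈ Finset.range (j + 2), T i r + ∑' i, T (i + (j + 2)) r := hsplit.symm
    _ ≤ (j + 2) * Real.exp (q j / 4) + 1 := add_le_add hfin htail
    _ ≤ (j + 2) * Real.exp (q j / 4) + Real.exp (q j / 4) := by linarith
    _ = (j + 3) * Real.exp (q j / 4) := by ring
    _ ≤ Real.exp (q j / 4) * Real.exp (q j / 4) := by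
      apply mul_le_mul_of_nonneg_right hlast (Real.exp_pos _).le
    _ = Real.exp (q j / 2) := by rw [← Real.exp_add]; congr 1; ring

/-- lower bound on the negative ray -/
lemma f_neg {j : ℕ} {r : ℝ} (h1 : R j ≤ r) : Real.exp (q j) ≤ ‖f (-(r : ℂ))‖ := by
  have hRj := R_ge_two j
  have hr : 0 ≤ r := by linarith
  have h2 : ∀ i, F i (-(r : ℂ)) = ((U i r : ℝ) : ℂ) := by
    intro i
    unfold F U
    have heven : Even (N i) := by unfold N; exact even_two_mul _
    rw [neg_div, heven.neg_pow]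
    push_cast
    ring
  have h3 : f (-(r : ℂ)) = ((∑' i, U i r : ℝ) : ℂ) := by
    unfold f
    simp only [h2]
    rw [Complex.ofReal_tsum]
  rw [h3, Complex.norm_real, Real.norm_of_nonneg (tsum_nonneg (fun i => U_nonneg i hr))]
  refine le_trans ?_ ((U_summable hr).le_tsum j (fun i _ => U_nonneg i hr))
  unfold U
  have h4 : 1 ≤ r / R j := by rw [le_div_iff₀ (by linarith)]; linarith
  have h5 : (1 : ℝ) ≤ (r / R j) ^ (N j) := one_le_pow₀ h4
  have h6 : (1 : ℝ) ≤ (1 + r / R j) ^ (p j) := one_le_pow₀ (by linarith)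
  calc Real.exp (q j) = Real.exp (q j) * 1 * 1 := by ring
    _ ≤ Real.exp (q j) * (r / R j) ^ (N j) * (1 + r / R j) ^ (p j) := by gcongr

end Pool.Agent.Helper787.Fejer
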