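import Mathlib
import Pool.Agent.Helper787.FejB

set_option autoImplicit false

open Filter Topology

namespace Pool.Agent.Helper787.Fejer

abbrev S := Σ i : ℕ, Fin (p i + 1)

def g (x : S) : ℕ := N x.1 + (x.2 : ℕ)

noncomputable def A (x : S) : ℂ :=
  (Real.exp (q x.1) : ℂ) * (1 / (R x.1 : ℂ)) ^ (N x.1) *
    ((-(1 / (R x.1 : ℂ))) ^ (x.2 : ℕ) * ((p x.1).choose (x.2 : ℕ) : ℂ))

lemma A_ne (x : S) : A x ≠ 0 := by
  have hR := R_ge_two x.1
  have hR' : (R x.1 : ℂ) ≠ 0 := by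
    rw [Ne, Complex.ofReal_eq_zero]; linarith
  unfold A
  have h1 : ((p x.1).choose (x.2 : ℕ) : ℂ) ≠ 0 := by
    rw [Ne, Nat.cast_eq_zero]
    exact (Nat.choose_pos (by have := x.2.2; omega)).ne'
  have h2 : (Real.exp (q x.1) : ℂ) ≠ 0 := by
    rw [Ne, Complex.ofReal_eq_zero]; exact (Real.exp_pos _).ne'
  have h3 : (1 / (R x.1 : ℂ)) ≠ 0 := one_div_ne_zero hR'
  exact mul_ne_zero (mul_ne_zero h2 (pow_ne_zero _ h3))
    (mul_ne_zero (pow_ne_zero _ (neg_ne_zero.mpr h3)) h1)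

lemma N_gap (i : ℕ) : N i + p i < N (i + 1) := by
  have h1 : 2 * N i ≤ N (i + 1) := by
    unfold N
    have h2 : m i ≤ m (i + 1) := m_mono (by omega)
    have h3 : 2 ^ (m i) ≤ 2 ^ (m (i + 1)) := Nat.pow_le_pow_right (by norm_num) h2
    have h4 := q_shift i 1
    have h5 : 2 * q i ≤ q (i + 1) := by omega
    have h6 : (m i + 1) * 2 ^ (m i) * (2 * q i) ≤ (m (i + 1) + 1) * 2 ^ (m (i + 1)) * q (i + 1) :=
      Nat.mul_le_mul (Nat.mul_le_mul (by omega) h3) h5
    calc 2 * (2 * ((m i + 1) * 2 ^ (m i) * q i)) = 2 * ((m i + 1) * 2 ^ (m i) * (2 * q i)) := by ring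
      _ ≤ _ := Nat.mul_le_mul_left _ h6
  have h2 := N_big i
  have h3 := p_le i
  have h4 := i_le_q i
  omega

lemma N_gap' {i j : ℕ} (h : i < j) : N i + p i < N j := by
  induction j, h using Nat.le_induction with
  | base => exact N_gap i
  | succ n hn ih => have := N_gap n; omega

lemma g_inj : Function.Injective g := by
  rintro ⟨i, t⟩ ⟨j, s⟩ h
  simp only [g] at h
  have ht := t.2
  have hs := s.2
  rcases lt_trichotomy i j with h1 | h1 | h1
  · have := N_gap' h1; omega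
  · subst h1
    have : t = s := Fin.ext (by omega)
    rw [this]
  · have := N_gap' h1; omega

lemma fiber_sum (i : ℕ) (z : ℂ) : ∑ t : Fin (p i + 1), A ⟨i, t⟩ * z ^ (g ⟨i, t⟩) = F i z := by
  have h1 : ∀ t : Fin (p i + 1), A ⟨i, t⟩ * z ^ (g ⟨i, t⟩)
      = (fun t : ℕ => (Real.exp (q i) : ℂ) * (z / (R i : ℂ)) ^ (N i) *
        ((-(z / (R i : ℂ))) ^ t * 1 ^ (p i - t) * ((p i).choose t : ℂ))) (t : ℕ) := by
    intro t
    simp only [A, g]
    rw [pow_add, div_eq_mul_one_div z, mul_pow, ← mul_neg, mul_pow]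
    ring
  rw [Finset.sum_congr rfl (fun t _ => h1 t), Fin.sum_univ_eq_sum_range (fun t : ℕ =>
    (Real.exp (q i) : ℂ) * (z / (R i : ℂ)) ^ (N i) *
        ((-(z / (R i : ℂ))) ^ t * 1 ^ (p i - t) * ((p i).choose t : ℂ))) (p i + 1),
    ← Finset.mul_sum, ← add_pow]
  unfold F
  congr 2
  ring

lemma fiber_norm (i : ℕ) {ρ : ℝ} : ∑ t : Fin (p i + 1), ‖A ⟨i, t⟩‖ * ρ ^ (g ⟨i, t⟩) = U i ρ := by
  have hR := R_ge_two i
  have h1 : ∀ t : Fin (p i + 1), ‖A ⟨i, t⟩‖ * ρ ^ (g ⟨i, t⟩)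
      = (fun t : ℕ => Real.exp (q i) * (ρ / R i) ^ (N i) *
        ((ρ / R i) ^ t * 1 ^ (p i - t) * ((p i).choose t : ℝ))) (t : ℕ) := by
    intro t
    simp only [A, g]
    rw [norm_mul, norm_mul, norm_mul, norm_pow, norm_pow, norm_neg, norm_div, norm_one, norm_R,
      Complex.norm_real, Real.norm_of_nonneg (Real.exp_pos _).le, Complex.norm_natCast]
    rw [pow_add, div_eq_mul_one_div ρ, mul_pow, mul_pow]
    ring
  rw [Finset.sum_congr rfl (fun t _ => h1 t), Fin.sum_univ_eq_sum_range (fun t : ℕ =>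
    Real.exp (q i) * (ρ / R i) ^ (N i) *
        ((ρ / R i) ^ t * 1 ^ (p i - t) * ((p i).choose t : ℝ))) (p i + 1),
    ← Finset.mul_sum, ← add_pow]
  unfold U
  congr 2
  ring

lemma S_summable_norm {ρ : ℝ} (h0 : 0 ≤ ρ) : Summable (fun x : S => ‖A x‖ * ρ ^ (g x)) := by
  rw [summable_sigma_of_nonneg (fun x => by positivity)]
  refine ⟨fun i => Summable.of_finite, ?_⟩
  have h : (fun i => ∑' t : Fin (p i + 1), ‖A ⟨i, t⟩‖ * ρ ^ (g ⟨i, t⟩)) = fun i => U i ρ := by
    funext i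
    rw [tsum_fintype, fiber_norm]
  rw [h]
  exact U_summable h0

lemma S_hasSum (z : ℂ) : HasSum (fun x : S => A x * z ^ (g x)) (f z) := by
  have hs : Summable (fun x : S => A x * z ^ (g x)) := by
    apply Summable.of_norm
    have := S_summable_norm (norm_nonneg z)
    convert this using 2 with x
    rw [norm_mul, norm_pow]
  have h1 := hs.tsum_sigma' (fun i => Summable.of_finite)
  have h2 : ∑' x : S, A x * z ^ (g x) = f z := by
    rw [h1]
    unfold f
    congr 1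
    funext i
    rw [tsum_fintype, fiber_sum]
  rw [← h2]
  exact hs.hasSum

noncomputable def a : ℕ → ℂ := Function.extend g A 0

lemma a_g (x : S) : a (g x) = A x := g_inj.extend_apply A 0 x

lemma a_notin {k : ℕ} (h : k ∉ Set.range g) : a k = 0 := by
  unfold a
  rw [Function.extend_apply' _ _ _ (by simpa using h)]
  rfl

lemma a_hasSum (z : ℂ) : HasSum (fun k => a k * z ^ k) (f z) := by
  have h := S_hasSum z
  have h2 : (fun x : S => A x * z ^ (g x)) = (fun k => a k * z ^ k) ∘ g := by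
    funext x
    simp only [Function.comp, a_g]
  rw [h2, g_inj.hasSum_iff] at h
  · exact h
  · intro k hk
    rw [a_notin hk, zero_mul]

lemma a_summable {ρ : ℝ} (h0 : 0 ≤ ρ) : Summable (fun k => ‖a k‖ * ρ ^ k) := by
  have h := S_summable_norm h0
  have h2 : (fun x : S => ‖A x‖ * ρ ^ (g x)) = (fun k => ‖a k‖ * ρ ^ k) ∘ g := by
    funext x
    simp only [Function.comp, a_g]
  rw [h2, g_inj.summable_iff] at h
  · exact h
  · intro k hk
    rw [a_notin hk, norm_zero, zero_mul]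

lemma f_coeff (k : ℕ) : iteratedDeriv k f 0 = (k.factorial : ℂ) * a k :=
  coeff_lemma a f a_hasSum (fun r => a_summable r.2) k

lemma supp_mem {k : ℕ} (h : iteratedDeriv k f 0 ≠ 0) : k ∈ Set.range g := by
  by_contra hk
  apply h
  rw [f_coeff, a_notin hk, mul_zero]

lemma N_strict : StrictMono N := by
  apply strictMono_nat_of_lt_succ
  intro n
  have := N_gap n
  omega

lemma supp_inf : Set.Infinite {k : ℕ | iteratedDeriv k f 0 ≠ 0} := by
  apply Set.infinite_of_injective_forall_mem (f := N) N_strict.injective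
  intro i
  simp only [Set.mem_ofPred_eq]
  rw [f_coeff]
  have h1 : N i = g ⟨i, 0⟩ := by simp [g]
  have h2 : a (N i) = A ⟨i, 0⟩ := by rw [h1, a_g]
  rw [h2]
  exact mul_ne_zero (by exact_mod_cast (Nat.factorial_pos _).ne') (A_ne _)

lemma cond_summable : Summable (fun i : ℕ => 1 / ((Nat.log 2 i + 1 : ℝ) ^ 2 * 2 ^ (Nat.log 2 i))) := by
  rw [← summable_condensed_iff_of_nonneg]
  · have h : (fun k : ℕ => (2 : ℝ) ^ k * (1 / ((Nat.log 2 (2 ^ k) + 1 : ℝ) ^ 2 * 2 ^ (Nat.log 2 (2 ^ k)))))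
        = fun k : ℕ => 1 / ((k : ℝ) + 1) ^ 2 := by
      funext k
      rw [Nat.log_pow (by norm_num)]
      field_simp
    rw [h]
    have h2 : Summable (fun k : ℕ => 1 / (k : ℝ) ^ 2) := by
      rw [Real.summable_one_div_nat_pow]; norm_num
    have h3 := (summable_nat_add_iff 1).mpr h2
    simpa using h3
  · intro n; positivity
  · intro k l hk hkl
    apply one_div_le_one_div_of_le (by positivity)
    have h1 : Nat.log 2 k ≤ Nat.log 2 l := Nat.log_mono_right hkl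
    have h2 : (Nat.log 2 k : ℝ) ≤ Nat.log 2 l := by exact_mod_cast h1
    have h3 : (2 : ℝ) ^ (Nat.log 2 k) ≤ 2 ^ (Nat.log 2 l) := pow_le_pow_right₀ (by norm_num) h1
    gcongr

lemma recip_fiber (i : ℕ) : ∑ t : Fin (p i + 1), 1 / ((g ⟨i, t⟩ : ℕ) : ℝ)
    ≤ 8 * (1 / ((Nat.log 2 (i + 4) + 1 : ℝ) ^ 2 * 2 ^ (Nat.log 2 (i + 4)))) := by
  have hm := two_le_m i
  have hX := X_pos i
  have hN : 0 < N i := by
    have := N_big i; have := i_le_q i; omega
  have h1 : ∀ t : Fin (p i + 1), 1 / ((g ⟨i, t⟩ : ℕ) : ℝ) ≤ 1 / (N i : ℝ) := by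
    intro t
    apply one_div_le_one_div_of_le (by exact_mod_cast hN)
    simp only [g]
    push_cast
    linarith [(Nat.cast_nonneg (t : ℕ) : (0 : ℝ) ≤ ((t : ℕ) : ℝ))]
  calc ∑ t : Fin (p i + 1), 1 / ((g ⟨i, t⟩ : ℕ) : ℝ) ≤ ∑ t : Fin (p i + 1), 1 / (N i : ℝ) :=
        Finset.sum_le_sum (fun t _ => h1 t)
    _ = (p i + 1) * (1 / (N i : ℝ)) := by
      rw [Finset.sum_const, Finset.card_univ, Fintype.card_fin, nsmul_eq_mul]; push_cast; ring
    _ ≤ (7 * X i) * (1 / (N i : ℝ)) := by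
      apply mul_le_mul_of_nonneg_right _ (by positivity)
      have h2 : p i + 1 ≤ 7 * X i := by unfold p; omega
      exact_mod_cast h2
    _ ≤ 8 * (1 / ((Nat.log 2 (i + 4) + 1 : ℝ) ^ 2 * 2 ^ (Nat.log 2 (i + 4)))) := by
      have h3 : (Nat.log 2 (i + 4)) = m i := rfl
      rw [h3, NR, qp]
      have hm' : (2 : ℝ) ≤ m i := by exact_mod_cast hm
      have hX' : (0 : ℝ) < X i := by exact_mod_cast hX
      have hp : (0 : ℝ) < 2 ^ (m i) := by positivity
      rw [mul_one_div, mul_one_div, div_le_div_iff₀ (by positivity) (by positivity)]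
      have h4 : (7 : ℝ) * ((m i : ℝ) + 1) ≤ 16 * m i := by linarith
      have h5 : (0 : ℝ) ≤ X i * ((m i + 1) * 2 ^ (m i)) := by positivity
      calc (7 : ℝ) * X i * (((m i : ℝ) + 1) ^ 2 * 2 ^ (m i))
          = (7 * ((m i : ℝ) + 1)) * (X i * ((m i + 1) * 2 ^ (m i))) := by ring
        _ ≤ (16 * m i) * (X i * ((m i + 1) * 2 ^ (m i))) := mul_le_mul_of_nonneg_right h4 h5
        _ = 8 * (2 * (((m i : ℝ) + 1) * 2 ^ (m i) * (m i * X i))) := by ring

lemma S_recip : Summable (fun x : S => 1 / ((g x : ℕ) : ℝ)) := by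
  rw [summable_sigma_of_nonneg (fun x => by positivity)]
  refine ⟨fun i => Summable.of_finite, ?_⟩
  have h1 := ((summable_nat_add_iff 4).mpr cond_summable).mul_left 8
  apply Summable.of_nonneg_of_le _ _ h1
  · intro i; exact tsum_nonneg (fun t => by positivity)
  · intro i
    rw [tsum_fintype]
    exact recip_fiber i

lemma range_recip : Summable (fun k : Set.range g => (1 : ℝ) / ((k : ℕ) : ℝ)) := by
  have h := S_recip
  have e := Equiv.ofInjective g g_inj
  have h2 : (fun x : S => 1 / ((g x : ℕ) : ℝ))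
      = (fun k : Set.range g => (1 : ℝ) / ((k : ℕ) : ℝ)) ∘ (Equiv.ofInjective g g_inj) := by
    funext x
    simp
  rw [h2, Equiv.summable_iff] at h
  exact h

lemma exists_window {r : ℝ} (h : R 1 ≤ r) : ∃ j, 1 ≤ j ∧ R j ≤ r ∧ r ≤ R (j + 1) := by
  obtain ⟨B, hB⟩ := exists_nat_gt r
  have hex : ∃ j, r < R (j + 1) := ⟨2 ^ B, hB.trans_le (R_large B (by omega))⟩
  classical
  set j := Nat.find hex with hj
  have h1 : r < R (j + 1) := Nat.find_spec hex
  have h2 : 1 ≤ j := by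
    by_contra hcon
    have : j = 0 := by omega
    rw [this] at h1
    simp at h1
    linarith
  refine ⟨j, h2, ?_, h1.le⟩
  have h3 := Nat.find_min hex (m := j - 1) (by omega)
  rw [show j - 1 + 1 = j by omega] at h3
  exact not_lt.mp h3

theorem main : ¬ (∀ (f : ℂ → ℂ) (Λ : Set ℕ),
      Differentiable ℂ f →
      (∀ k : ℕ, iteratedDeriv k f 0 ≠ 0 → k ∈ Λ) →
      Summable (fun k : Λ => (1 : ℝ) / ((k : ℕ) : ℝ)) →
      Set.Infinite {k : ℕ | iteratedDeriv k f 0 ≠ 0} →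
      ∀ ε : ℝ, 0 < ε → ∀ R : ℝ, ∃ r : ℝ, R < r ∧
        (1 - ε) * Real.log (sSup ((fun z => ‖f z‖) '' Metric.sphere (0 : ℂ) r))
          ≤ Real.log (sInf ((fun z => ‖f z‖) '' Metric.sphere (0 : ℂ) r))) := by
  intro H
  obtain ⟨r, hr, hle⟩ := H f (Set.range g) f_diff (fun k hk => supp_mem hk) range_recip supp_inf
    (1 / 4) (by norm_num) (R 1)
  obtain ⟨j, hj, h1, h2⟩ := exists_window hr.le
  have hRj := R_ge_two j
  have hr0 : 0 ≤ r := by linarith
  set s := (fun z => ‖f z‖) '' Metric.sphere (0 : ℂ) r with hs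
  have hbdd : BddAbove s := by
    have : IsCompact s := (isCompact_sphere (0 : ℂ) r).image (f_diff.continuous.norm)
    exact this.bddAbove
  have hneg : ‖f (-(r : ℂ))‖ ∈ s := by
    refine ⟨-(r : ℂ), ?_, rfl⟩
    rw [mem_sphere_zero_iff_norm, norm_neg, Complex.norm_real, Real.norm_of_nonneg hr0]
  have hpos : ‖f (r : ℂ)‖ ∈ s := by
    refine ⟨(r : ℂ), ?_, rfl⟩
    rw [mem_sphere_zero_iff_norm, Complex.norm_real, Real.norm_of_nonneg hr0]
  have hsup : Real.exp (q j) ≤ sSup s := (f_neg h1).trans (le_csSup hbdd hneg)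
  have hbb : BddBelow s := ⟨0, by rintro x ⟨z, _, rfl⟩; exact norm_nonneg _⟩
  have hinf0 : 0 ≤ sInf s := Real.sInf_nonneg (by rintro x ⟨z, _, rfl⟩; exact norm_nonneg _)
  have hinf : sInf s ≤ Real.exp (q j / 2) := (csInf_le hbb hpos).trans (f_ray hj h1 h2)
  have hq : (0 : ℝ) < q j := by
    have := i_le_q j
    exact_mod_cast (by omega : 0 < q j)
  have hlogsup : (q j : ℝ) ≤ Real.log (sSup s) := by
    rw [Real.le_log_iff_exp_le ((Real.exp_pos _).trans_le hsup)]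
    exact hsup
  have hloginf : Real.log (sInf s) ≤ q j / 2 := by
    rcases hinf0.eq_or_lt with h | h
    · rw [← h, Real.log_zero]; positivity
    · rw [Real.log_le_iff_le_exp h]; exact hinf
  have : (1 - 1 / 4) * Real.log (sSup s) ≤ q j / 2 := hle.trans hloginf
  nlinarith

end Pool.Agent.Helper787.Fejer
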