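import Mathlib

/-!
# A gap inequality for trigonometric sums (elementary version)

Exponents with small local density, values on an arc control the coefficients.
-/

set_option autoImplicit false
open Finset


namespace Helper787.Gap

theorem one_add_le_exp_sqrt {y : ℝ} (hy : 0 ≤ y) : 1 + y ≤ Real.exp (Real.sqrt y) := by
  set s := Real.sqrt y with hs
  have hs0 : 0 ≤ s := Real.sqrt_nonneg y
  have hy2 : y = s ^ 2 := (Real.sq_sqrt hy).symm
  have h1 : 1 + s / 2 + (s / 2) ^ 2 / 2 ≤ Real.exp (s / 2) :=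
    Real.quadratic_le_exp_of_nonneg (by positivity)
  have h2 : Real.exp s = Real.exp (s / 2) ^ 2 := by
    rw [← Real.exp_nat_mul]; congr 1; push_cast; ring
  have h3 : (1 + s / 2 + (s / 2) ^ 2 / 2) ^ 2 ≤ Real.exp (s / 2) ^ 2 :=
    pow_le_pow_left₀ (by positivity) h1 2
  rw [h2, hy2]
  have h4 : 0 ≤ s * ((s - 2) ^ 2 + 4) := by positivity
  have h5 : 0 ≤ s ^ 4 := by positivity
  nlinarith

theorem sum_inv_sqrt_le (N : ℕ) :
    ∑ j ∈ Finset.Icc 1 N, 1 / Real.sqrt (j : ℝ) ≤ 2 * Real.sqrt N := by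
  induction N with
  | zero => simp
  | succ n ih =>
    rw [Finset.sum_Icc_succ_top (by omega)]
    have h0 : 0 ≤ Real.sqrt (n : ℝ) := Real.sqrt_nonneg _
    have h1 : 0 < Real.sqrt ((n + 1 : ℕ) : ℝ) := Real.sqrt_pos.mpr (by positivity)
    have h2 : Real.sqrt ((n + 1 : ℕ) : ℝ) ^ 2 = (n : ℝ) + 1 := by
      rw [Real.sq_sqrt (by positivity)]; push_cast; ring
    have h3 : Real.sqrt (n : ℝ) ^ 2 = (n : ℝ) := Real.sq_sqrt (by positivity)
    have h4 : Real.sqrt (n : ℝ) ≤ Real.sqrt ((n + 1 : ℕ) : ℝ) :=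
      Real.sqrt_le_sqrt (by push_cast; linarith)
    have h5 : 1 / Real.sqrt ((n + 1 : ℕ) : ℝ) ≤
        2 * (Real.sqrt ((n + 1 : ℕ) : ℝ) - Real.sqrt (n : ℝ)) := by
      rw [div_le_iff₀ h1]
      nlinarith
    linarith

theorem sum_sqrt_le {ι : Type*} (S : Finset ι) (l : ι → ℤ) (hl : Set.InjOn l S)
    (N : ℕ) (h0 : ∀ i ∈ S, l i ≠ 0) (hN : ∀ i ∈ S, |l i| ≤ N) :
    ∑ i ∈ S, 1 / Real.sqrt (|(l i : ℝ)|) ≤ 4 * Real.sqrt N := by
  classical
  have e1 : ∑ i ∈ S, 1 / Real.sqrt (|(l i : ℝ)|) =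
      ∑ z ∈ S.image l, 1 / Real.sqrt (|(z : ℝ)|) := by
    rw [Finset.sum_image hl]
  rw [e1]
  set P : Finset ℤ := (Finset.Icc 1 N).image (fun j : ℕ => (j : ℤ)) with hP
  set Q : Finset ℤ := (Finset.Icc 1 N).image (fun j : ℕ => -(j : ℤ)) with hQ
  have hsub : S.image l ⊆ P ∪ Q := by
    intro z hz
    rw [Finset.mem_image] at hz
    obtain ⟨i, hi, rfl⟩ := hz
    have a0 := h0 i hi
    have a1 := hN i hi
    rw [Finset.mem_union, hP, hQ, Finset.mem_image, Finset.mem_image]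
    rcases lt_or_gt_of_ne a0 with h | h
    · right
      refine ⟨(-(l i)).toNat, ?_, ?_⟩
      · rw [Finset.mem_Icc]
        have : |l i| = -(l i) := abs_of_neg h
        omega
      · omega
    · left
      refine ⟨(l i).toNat, ?_, ?_⟩
      · rw [Finset.mem_Icc]
        have : |l i| = (l i) := abs_of_pos h
        omega
      · omega
  have hnn : ∀ z : ℤ, 0 ≤ 1 / Real.sqrt (|(z : ℝ)|) := fun z => by positivity
  calc ∑ z ∈ S.image l, 1 / Real.sqrt (|(z : ℝ)|)
      ≤ ∑ z ∈ P ∪ Q, 1 / Real.sqrt (|(z : ℝ)|) :=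
        Finset.sum_le_sum_of_subset_of_nonneg hsub (fun z _ _ => hnn z)
    _ ≤ ∑ z ∈ P, 1 / Real.sqrt (|(z : ℝ)|) + ∑ z ∈ Q, 1 / Real.sqrt (|(z : ℝ)|) := by
        rw [← Finset.sum_union_inter]
        have := Finset.sum_nonneg (s := P ∩ Q) (fun z _ => hnn z)
        linarith
    _ = ∑ j ∈ Finset.Icc 1 N, 1 / Real.sqrt (j : ℝ) +
        ∑ j ∈ Finset.Icc 1 N, 1 / Real.sqrt (j : ℝ) := by
        rw [hP, hQ, Finset.sum_image (by intro a _ b _ h; simpa using h),
          Finset.sum_image (by intro a _ b _ h; simpa using h)]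
        congr 1
        · apply Finset.sum_congr rfl
          intro j _
          simp
        · apply Finset.sum_congr rfl
          intro j _
          simp
    _ ≤ 4 * Real.sqrt N := by
        have := sum_inv_sqrt_le N
        linarith

theorem prod_bound {ι : Type*} (S : Finset ι) (l : ι → ℤ) (hl : Set.InjOn l S)
    (N : ℕ) (h0 : ∀ i ∈ S, l i ≠ 0) (hN : ∀ i ∈ S, |l i| ≤ N) {d : ℝ} (hd : 0 ≤ d)
    (x : ι → ℝ) (hx : ∀ i ∈ S, |(l i : ℝ)| ≤ |x i|) :
    ∏ i ∈ S, (1 + d / |x i|) ≤ Real.exp (4 * Real.sqrt (d * N)) := by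
  have h1 : ∀ i ∈ S, 1 + d / |x i| ≤ Real.exp (Real.sqrt d * (1 / Real.sqrt (|(l i : ℝ)|))) := by
    intro i hi
    have hlp : 0 < |(l i : ℝ)| := abs_pos.mpr (by exact_mod_cast h0 i hi)
    have hxp : 0 < |x i| := lt_of_lt_of_le hlp (hx i hi)
    have : d / |x i| ≤ d / |(l i : ℝ)| := div_le_div_of_nonneg_left hd hlp (hx i hi)
    calc 1 + d / |x i| ≤ 1 + d / |(l i : ℝ)| := by linarith
      _ ≤ Real.exp (Real.sqrt (d / |(l i : ℝ)|)) := one_add_le_exp_sqrt (by positivity)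
      _ = Real.exp (Real.sqrt d * (1 / Real.sqrt (|(l i : ℝ)|))) := by
        rw [Real.sqrt_div hd]; congr 1; ring
  calc ∏ i ∈ S, (1 + d / |x i|)
      ≤ ∏ i ∈ S, Real.exp (Real.sqrt d * (1 / Real.sqrt (|(l i : ℝ)|))) :=
        Finset.prod_le_prod (fun i _ => by positivity) h1
    _ = Real.exp (Real.sqrt d * ∑ i ∈ S, (1 / Real.sqrt (|(l i : ℝ)|))) := by
        rw [← Real.exp_sum, Finset.mul_sum]
    _ ≤ Real.exp (4 * Real.sqrt (d * N)) := by
        apply Real.exp_le_exp.mpr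
        rw [Real.sqrt_mul hd]
        have := sum_sqrt_le S l hl N h0 hN
        have h2 := Real.sqrt_nonneg d
        nlinarith

/-- nodes -/
noncomputable def kap (u v : ℕ) (k : ℕ) : ℝ := (2 * k * v + 1) / (2 * u)

/-- the constant -/
noncomputable def sv (u v : ℕ) (n : ℕ) : ℝ := Real.sin (Real.pi * (2 * u * n - 1) / (2 * v))

theorem kap_sub {u v : ℕ} (hu : 0 < u) (a b : ℕ) :
    kap u v a - kap u v b = ((a : ℝ) - b) * (v / u) := by
  unfold kap
  have : (u : ℝ) ≠ 0 := by positivity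
  field_simp
  ring

theorem kap_ne {u v : ℕ} (hu : 0 < u) (n k : ℕ) : (n : ℝ) ≠ kap u v k := by
  unfold kap
  intro h
  have hu' : (u : ℝ) ≠ 0 := by positivity
  have h2 : (n : ℝ) * (2 * u) = 2 * k * v + 1 := by
    rw [h]; field_simp
  have h3 : n * (2 * u) = 2 * k * v + 1 := by exact_mod_cast h2
  have h4 : 2 * (n * u) = 2 * (k * v) + 1 := by linarith
  omega

theorem sin_node {u v : ℕ} (hu : 0 < u) (hv : 0 < v) (n k : ℕ) :
    Real.sin (((n : ℝ) - kap u v k) * (Real.pi * u / v)) = (-1) ^ k * sv u v n := by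
  have hu' : (u : ℝ) ≠ 0 := by positivity
  have hv' : (v : ℝ) ≠ 0 := by positivity
  have e : ((n : ℝ) - kap u v k) * (Real.pi * u / v) =
      Real.pi * (2 * u * n - 1) / (2 * v) - k * Real.pi := by
    unfold kap
    field_simp
    ring
  rw [e, Real.sin_sub_nat_mul_pi]
  rfl

theorem integral_node {u v : ℕ} (hu : 0 < u) (hv : 0 < v) (n k : ℕ) :
    ∫ θ in (-(Real.pi * u / v))..(Real.pi * u / v),
      Complex.exp (-(kap u v k : ℂ) * θ * Complex.I) * Complex.exp ((n : ℂ) * θ * Complex.I) =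
      2 * ((-1) ^ k * (sv u v n : ℂ)) / ((n : ℂ) - kap u v k) := by
  have hne : (n : ℝ) - kap u v k ≠ 0 := sub_ne_zero.mpr (kap_ne hu n k)
  set w : ℝ := (n : ℝ) - kap u v k with hw
  have hc : (w : ℂ) * Complex.I ≠ 0 := mul_ne_zero (by exact_mod_cast hne) Complex.I_ne_zero
  have e1 : (fun θ : ℝ => Complex.exp (-(kap u v k : ℂ) * θ * Complex.I) *
      Complex.exp ((n : ℂ) * θ * Complex.I)) = fun θ : ℝ => Complex.exp (((w : ℂ) * Complex.I) * θ) := by
    funext θ
    rw [← Complex.exp_add]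
    congr 1
    rw [hw]; push_cast; ring
  rw [e1, integral_exp_mul_complex hc]
  set A : ℝ := Real.pi * u / v with hA
  have hs : (Complex.sin ((w : ℂ) * A)) = ((-1) ^ k * (sv u v n : ℂ)) := by
    have := sin_node hu hv n k
    rw [← hw, ← hA] at this
    rw [← Complex.ofReal_mul, ← Complex.ofReal_sin, this]
    push_cast
    rfl
  have hw2 : ((n : ℂ) - kap u v k) = (w : ℂ) := by rw [hw]; push_cast; rfl
  rw [hw2, ← hs, Complex.sin]
  have hwc : (w : ℂ) ≠ 0 := by exact_mod_cast hne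
  have hI : Complex.I ≠ 0 := Complex.I_ne_zero
  have e2 : (w : ℂ) * Complex.I * ((A : ℝ) : ℂ) = (w : ℂ) * A * Complex.I := by ring
  have e3 : (w : ℂ) * Complex.I * ((-A : ℝ) : ℂ) = -((w : ℂ) * A) * Complex.I := by push_cast; ring
  rw [e2, e3]
  field_simp
  have : Complex.I ^ 2 = -1 := Complex.I_sq
  rw [this]
  ring

/-- partial fractions -/
theorem partial_frac (S : Finset ℕ) (κ : ℕ → ℝ) (hκ : Set.InjOn κ S) (lam : ℕ) (hl : lam ∈ S)
    (x : ℝ) (hx : ∀ i ∈ S, x ≠ κ i) :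
    ∑ i ∈ S, ((∏ m ∈ S.erase lam, (κ i - m)) * ∏ j ∈ S.erase i, (κ i - κ j)⁻¹) / (x - κ i) =
      (∏ m ∈ S.erase lam, (x - m)) / ∏ i ∈ S, (x - κ i) := by
  classical
  set W : Polynomial ℝ := ∏ m ∈ S.erase lam, (Polynomial.X - Polynomial.C (m : ℝ)) with hW
  have hdeg : W.degree < (S.card : WithBot ℕ) := by
    rw [hW, Polynomial.degree_prod]
    simp only [Polynomial.degree_X_sub_C]
    rw [Finset.sum_const, Finset.card_erase_of_mem hl]
    have : 0 < S.card := Finset.card_pos.mpr ⟨lam, hl⟩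
    simp only [nsmul_eq_mul, mul_one]
    exact_mod_cast Nat.sub_lt this one_pos
  have h1 := Lagrange.eq_interpolate (s := S) (v := κ) (f := W) hκ hdeg
  have h2 : W.eval x = Polynomial.eval x (Lagrange.interpolate S κ fun i => W.eval (κ i)) := by
    rw [← h1]
  rw [Lagrange.eval_interpolate_not_at_node _ hx] at h2
  have hWe : ∀ y : ℝ, W.eval y = ∏ m ∈ S.erase lam, (y - m) := by
    intro y
    rw [hW, Polynomial.eval_prod]
    simp
  have hnod : Polynomial.eval x (Lagrange.nodal S κ) = ∏ i ∈ S, (x - κ i) :=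
    Lagrange.eval_nodal
  have hne : ∏ i ∈ S, (x - κ i) ≠ 0 :=
    Finset.prod_ne_zero_iff.mpr fun i hi => sub_ne_zero.mpr (hx i hi)
  rw [hWe, hnod] at h2
  rw [eq_div_iff hne, h2, mul_comm]
  congr 1
  apply Finset.sum_congr rfl
  intro i hi
  rw [hWe, Lagrange.nodalWeight]
  ring

theorem coef_bound {S : Finset ℕ} {κ : ℕ → ℝ} {k : ℕ → ℕ} (hk : Set.InjOn k S) {N : ℕ}
    (hkN : ∀ i ∈ S, k i ≤ N) (hsp : ∀ i j, |((k i : ℤ) - (k j : ℤ) : ℤ)| ≤ |κ i - κ j|)
    {d : ℝ} (hd : 1 ≤ d) (hm : ∀ i ∈ S, |κ i - i| ≤ d) {lam : ℕ} (hl : lam ∈ S)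
    {i : ℕ} (hi : i ∈ S) :
    |(∏ m ∈ S.erase lam, (κ i - m)) * ∏ j ∈ S.erase i, (κ i - κ j)⁻¹| ≤
      d * Real.exp (4 * Real.sqrt (d * N)) := by
  classical
  have hne : ∀ j ∈ S.erase i, 0 < |κ i - κ j| := by
    intro j hj
    rw [Finset.mem_erase] at hj
    refine lt_of_lt_of_le ?_ (hsp i j)
    have : (k i : ℤ) - (k j : ℤ) ≠ 0 := by
      intro h
      apply hj.1
      exact hk hj.2 hi (by omega)
    have h2 : 0 < |(k i : ℤ) - (k j : ℤ)| := abs_pos.mpr this
    exact_mod_cast h2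
  have h1 : |∏ m ∈ S.erase lam, (κ i - m)| ≤ d * ∏ j ∈ S.erase i, (|κ i - κ j| + d) := by
    rw [Finset.abs_prod]
    have a1 : ∏ m ∈ S.erase lam, |κ i - m| ≤ ∏ m ∈ S.erase lam, (|κ i - κ m| + d) := by
      apply Finset.prod_le_prod (fun _ _ => abs_nonneg _)
      intro m hmm
      have := hm m (Finset.mem_of_mem_erase hmm)
      calc |κ i - m| = |(κ i - κ m) + (κ m - m)| := by congr 1; ring
        _ ≤ |κ i - κ m| + |κ m - m| := abs_add_le _ _
        _ ≤ |κ i - κ m| + d := by linarith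
    have a2 : ∏ m ∈ S.erase lam, (|κ i - κ m| + d) ≤ ∏ m ∈ S, (|κ i - κ m| + d) := by
      rw [← Finset.mul_prod_erase S _ hl]
      have b1 : 1 ≤ |κ i - κ lam| + d := by have := abs_nonneg (κ i - κ lam); linarith
      have b2 : 0 ≤ ∏ m ∈ S.erase lam, (|κ i - κ m| + d) :=
        Finset.prod_nonneg fun m _ => by have := abs_nonneg (κ i - κ m); linarith
      nlinarith
    have a3 : ∏ m ∈ S, (|κ i - κ m| + d) = d * ∏ j ∈ S.erase i, (|κ i - κ j| + d) := by
      rw [← Finset.mul_prod_erase S _ hi]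
      simp
    linarith
  have h2 : |∏ j ∈ S.erase i, (κ i - κ j)⁻¹| = ∏ j ∈ S.erase i, |κ i - κ j|⁻¹ := by
    rw [Finset.abs_prod]
    apply Finset.prod_congr rfl
    intro j _
    rw [abs_inv]
  rw [abs_mul, h2]
  calc |∏ m ∈ S.erase lam, (κ i - m)| * ∏ j ∈ S.erase i, |κ i - κ j|⁻¹
      ≤ (d * ∏ j ∈ S.erase i, (|κ i - κ j| + d)) * ∏ j ∈ S.erase i, |κ i - κ j|⁻¹ := by
        apply mul_le_mul_of_nonneg_right h1
        exact Finset.prod_nonneg fun j _ => by positivity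
    _ = d * ∏ j ∈ S.erase i, (1 + d / |κ i - κ j|) := by
        rw [mul_assoc, ← Finset.prod_mul_distrib]
        congr 1
        apply Finset.prod_congr rfl
        intro j hj
        have := hne j hj
        field_simp
    _ ≤ d * Real.exp (4 * Real.sqrt (d * N)) := by
        apply mul_le_mul_of_nonneg_left _ (by linarith)
        apply prod_bound (S.erase i) (fun j => (k i : ℤ) - (k j : ℤ)) _ N _ _ (by linarith)
          (fun j => κ i - κ j)
        · intro j _
          exact_mod_cast hsp i j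
        · intro a ha b hb hab
          simp only at hab
          have ha' := Finset.mem_of_mem_erase ha
          have hb' := Finset.mem_of_mem_erase hb
          exact hk ha' hb' (by omega)
        · intro j hj h
          rw [Finset.mem_erase] at hj
          exact hj.1 (hk hj.2 hi (by omega))
        · intro j hj
          have b1 := hkN i hi
          have b2 := hkN j (Finset.mem_of_mem_erase hj)
          rw [abs_le]
          constructor <;> omega

theorem Q_bound {S : Finset ℕ} {κ : ℕ → ℝ} {N : ℕ} (hSN : ∀ i ∈ S, i ≤ N)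
    {d : ℝ} (hd : 1 ≤ d) (hm : ∀ i ∈ S, |κ i - i| ≤ d) {lam : ℕ} (hl : lam ∈ S)
    (hne : ∀ i ∈ S, (lam : ℝ) ≠ κ i) :
    1 ≤ |(∏ m ∈ S.erase lam, ((lam : ℝ) - m)) / ∏ i ∈ S, ((lam : ℝ) - κ i)| *
      (d * Real.exp (4 * Real.sqrt (d * N))) := by
  classical
  have hpos : ∀ m ∈ S.erase lam, 0 < |(lam : ℝ) - m| := by
    intro m hmm
    rw [Finset.mem_erase] at hmm
    apply abs_pos.mpr
    intro h
    apply hmm.1
    have : (lam : ℝ) = m := by linarith
    exact_mod_cast this.symm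
  have hden : 0 < ∏ i ∈ S, |(lam : ℝ) - κ i| :=
    Finset.prod_pos fun i hi => abs_pos.mpr (sub_ne_zero.mpr (hne i hi))
  have hnum : 0 < ∏ m ∈ S.erase lam, |(lam : ℝ) - m| := Finset.prod_pos hpos
  have h1 : ∏ i ∈ S, |(lam : ℝ) - κ i| ≤ d * ∏ m ∈ S.erase lam, (|(lam : ℝ) - m| + d) := by
    calc ∏ i ∈ S, |(lam : ℝ) - κ i| ≤ ∏ i ∈ S, (|(lam : ℝ) - i| + d) := by
          apply Finset.prod_le_prod (fun _ _ => abs_nonneg _)
          intro i hi
          have := hm i hi
          calc |(lam : ℝ) - κ i| = |((lam : ℝ) - i) - (κ i - i)| := by congr 1; ring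
            _ ≤ |(lam : ℝ) - i| + |κ i - i| := abs_sub _ _
            _ ≤ |(lam : ℝ) - i| + d := by linarith
      _ = d * ∏ m ∈ S.erase lam, (|(lam : ℝ) - m| + d) := by
          rw [← Finset.mul_prod_erase S _ hl]
          simp
  have h2 : ∏ m ∈ S.erase lam, (|(lam : ℝ) - m| + d) =
      (∏ m ∈ S.erase lam, |(lam : ℝ) - m|) * ∏ m ∈ S.erase lam, (1 + d / |(lam : ℝ) - m|) := by
    rw [← Finset.prod_mul_distrib]
    apply Finset.prod_congr rfl
    intro m hmm
    have := hpos m hmm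
    field_simp
  have h3 : ∏ m ∈ S.erase lam, (1 + d / |(lam : ℝ) - m|) ≤ Real.exp (4 * Real.sqrt (d * N)) := by
    apply prod_bound (S.erase lam) (fun j => (lam : ℤ) - (j : ℤ)) _ N _ _ (by linarith)
      (fun j => (lam : ℝ) - j)
    · intro j _
      push_cast
      exact le_rfl
    · intro a ha b hb hab
      simp only at hab
      omega
    · intro j hj h
      rw [Finset.mem_erase] at hj
      omega
    · intro j hj
      have b1 := hSN lam hl
      have b2 := hSN j (Finset.mem_of_mem_erase hj)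
      rw [abs_le]
      constructor <;> omega
  rw [abs_div, Finset.abs_prod, Finset.abs_prod]
  rw [div_mul_eq_mul_div, le_div_iff₀ hden, one_mul]
  calc ∏ i ∈ S, |(lam : ℝ) - κ i| ≤ d * ∏ m ∈ S.erase lam, (|(lam : ℝ) - m| + d) := h1
    _ = d * ((∏ m ∈ S.erase lam, |(lam : ℝ) - m|) *
        ∏ m ∈ S.erase lam, (1 + d / |(lam : ℝ) - m|)) := by rw [h2]
    _ ≤ d * ((∏ m ∈ S.erase lam, |(lam : ℝ) - m|) * Real.exp (4 * Real.sqrt (d * N))) := by
        gcongr
    _ = _ := by ring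

/-- **Gap inequality**: coefficients are controlled by the values on an arc. -/
theorem gap_ineq {u v : ℕ} (hu : 0 < u) (hv : 0 < v) (huv : u ≤ v) (S : Finset ℕ) {N : ℕ}
    (hSN : ∀ i ∈ S, i ≤ N) {k : ℕ → ℕ} (hk : Set.InjOn k S) (hkN : ∀ i ∈ S, k i ≤ N)
    {d : ℝ} (hd : 1 ≤ d) (hm : ∀ i ∈ S, |kap u v (k i) - i| ≤ d) {s0 : ℝ} (hs0 : 0 < s0)
    (hs : ∀ n : ℕ, s0 ≤ |sv u v n|) (b : ℕ → ℂ) {B : ℝ}
    (hB : ∀ θ ∈ Set.Icc (-(Real.pi * u / v)) (Real.pi * u / v),
      ‖∑ n ∈ S, b n * Complex.exp ((n : ℂ) * θ * Complex.I)‖ ≤ B)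
    {lam : ℕ} (hl : lam ∈ S) :
    ‖b lam‖ ≤ (Real.pi * (N + 1) * d ^ 2 / s0) * Real.exp (8 * Real.sqrt (d * N)) * B := by
  classical
  set A : ℝ := Real.pi * u / v with hA
  have hv' : (0 : ℝ) < v := by positivity
  have hu' : (0 : ℝ) < u := by positivity
  have hA0 : 0 ≤ A := by positivity
  have hApi : A ≤ Real.pi := by
    rw [hA, div_le_iff₀ hv']
    have : (u : ℝ) ≤ v := by exact_mod_cast huv
    have := Real.pi_pos
    nlinarith
  set κ : ℕ → ℝ := fun i => kap u v (k i) with hκ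
  have hsp : ∀ i j, |((k i : ℤ) - (k j : ℤ) : ℤ)| ≤ |κ i - κ j| := by
    intro i j
    have e : κ i - κ j = ((k i : ℝ) - k j) * (v / u) := kap_sub hu _ _
    rw [e, abs_mul, abs_of_pos (div_pos hv' hu')]
    have h1 : (1 : ℝ) ≤ v / u := by
      rw [le_div_iff₀ hu', one_mul]; exact_mod_cast huv
    have h2 := abs_nonneg ((k i : ℝ) - k j)
    push_cast
    nlinarith
  have hκinj : Set.InjOn κ S := by
    intro a ha c hc hac
    apply hk ha hc
    have := hsp a c
    rw [hac, sub_self, abs_zero] at this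
    have h3 : |(k a : ℤ) - (k c : ℤ)| ≤ 0 := by exact_mod_cast this
    have h4 := abs_nonneg ((k a : ℤ) - (k c : ℤ))
    have h5 : |(k a : ℤ) - (k c : ℤ)| = 0 := le_antisymm h3 h4
    rw [abs_eq_zero] at h5
    omega
  set c : ℕ → ℝ := fun i => (∏ m ∈ S.erase lam, (κ i - m)) * ∏ j ∈ S.erase i, (κ i - κ j)⁻¹ with hc
  set E : ℝ := Real.exp (4 * Real.sqrt (d * N)) with hE
  have hE0 : 0 < E := Real.exp_pos _
  have hcb : ∀ i ∈ S, |c i| ≤ d * E := fun i hi => coef_bound hk hkN hsp hd hm hl hi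
  -- the kernel
  set h : ℝ → ℂ := fun θ => ∑ i ∈ S, ((-1) ^ (k i) * (c i : ℂ)) *
    Complex.exp (-(κ i : ℂ) * θ * Complex.I) with hh
  set p : ℝ → ℂ := fun θ => ∑ n ∈ S, b n * Complex.exp ((n : ℂ) * θ * Complex.I) with hp
  have hint : ∫ θ in (-A)..A, h θ * p θ = b lam * (2 * (sv u v lam : ℂ) *
      (((∏ m ∈ S.erase lam, ((lam : ℝ) - m)) / ∏ i ∈ S, ((lam : ℝ) - κ i) : ℝ) : ℂ)) := by
    have e1 : (fun θ => h θ * p θ) = fun θ : ℝ => ∑ n ∈ S, ∑ i ∈ S,
        (((-1) ^ (k i) * (c i : ℂ)) * b n) * (Complex.exp (-(κ i : ℂ) * θ * Complex.I) *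
          Complex.exp ((n : ℂ) * θ * Complex.I)) := by
      funext θ
      simp only [hh, hp]
      rw [Finset.mul_sum]
      apply Finset.sum_congr rfl
      intro n _
      rw [Finset.sum_mul]
      apply Finset.sum_congr rfl
      intro i _
      ring
    rw [e1]
    have hcont : ∀ n i : ℕ, Continuous fun θ : ℝ => (((-1) ^ (k i) * (c i : ℂ)) * b n) *
        (Complex.exp (-(κ i : ℂ) * θ * Complex.I) * Complex.exp ((n : ℂ) * θ * Complex.I)) := by
      intro n i
      fun_prop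
    rw [intervalIntegral.integral_finsetSum (fun n _ =>
      (continuous_finsetSum _ fun i _ => hcont n i).intervalIntegrable _ _)]
    have e2 : ∀ n ∈ S, ∫ θ in (-A)..A, ∑ i ∈ S, (((-1) ^ (k i) * (c i : ℂ)) * b n) *
        (Complex.exp (-(κ i : ℂ) * θ * Complex.I) * Complex.exp ((n : ℂ) * θ * Complex.I)) =
        b n * (2 * (sv u v n : ℂ) *
      (((∏ m ∈ S.erase lam, ((n : ℝ) - m)) / ∏ i ∈ S, ((n : ℝ) - κ i) : ℝ) : ℂ)) := by
      intro n hn
      rw [intervalIntegral.integral_finsetSum (fun i _ => (hcont n i).intervalIntegrable _ _)]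
      have hx : ∀ i ∈ S, (n : ℝ) ≠ κ i := fun i _ => kap_ne hu n (k i)
      rw [← partial_frac S κ hκinj lam hl (n : ℝ) hx]
      push_cast
      rw [Finset.mul_sum, Finset.mul_sum]
      apply Finset.sum_congr rfl
      intro i hi
      rw [intervalIntegral.integral_const_mul, integral_node hu hv n (k i)]
      have hne : ((n : ℂ) - (kap u v (k i) : ℂ)) ≠ 0 := by
        have := sub_ne_zero.mpr (hx i hi)
        exact_mod_cast this
      have hsq : ((-1 : ℂ) ^ (k i)) * (-1) ^ (k i) = 1 := by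
        rw [← mul_pow]; norm_num
      have hci : (c i : ℂ) = (∏ m ∈ S.erase lam, ((κ i : ℂ) - m)) *
          ∏ j ∈ S.erase i, ((κ i : ℂ) - κ j)⁻¹ := by
        simp only [hc]
        push_cast
        rfl
      rw [← hci]
      calc (-1 : ℂ) ^ (k i) * (c i : ℂ) * b n *
            (2 * ((-1) ^ (k i) * (sv u v n : ℂ)) / ((n : ℂ) - (kap u v (k i) : ℂ)))
          = (((-1 : ℂ) ^ (k i)) * (-1) ^ (k i)) * (b n * (2 * (sv u v n : ℂ) *
            ((c i : ℂ) / ((n : ℂ) - (kap u v (k i) : ℂ))))) := by ring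
        _ = b n * (2 * (sv u v n : ℂ) * ((c i : ℂ) / ((n : ℂ) - (κ i : ℂ)))) := by
            rw [hsq, one_mul]
    rw [Finset.sum_congr rfl e2]
    rw [Finset.sum_eq_single lam]
    · intro n hn hne
      have : ∏ m ∈ S.erase lam, ((n : ℝ) - m) = 0 :=
        Finset.prod_eq_zero (Finset.mem_erase.mpr ⟨hne, hn⟩) (sub_self _)
      rw [this]
      simp
    · intro hn
      exact absurd hl hn
  -- upper bound of the integral
  have hhb : ∀ θ : ℝ, ‖h θ‖ ≤ (N + 1) * (d * E) := by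
    intro θ
    simp only [hh]
    calc ‖∑ i ∈ S, ((-1) ^ (k i) * (c i : ℂ)) * Complex.exp (-(κ i : ℂ) * θ * Complex.I)‖
        ≤ ∑ i ∈ S, ‖((-1) ^ (k i) * (c i : ℂ)) * Complex.exp (-(κ i : ℂ) * θ * Complex.I)‖ :=
          norm_sum_le _ _
      _ ≤ ∑ _i ∈ S, d * E := by
          apply Finset.sum_le_sum
          intro i hi
          rw [norm_mul, norm_mul, norm_pow, norm_neg, norm_one, one_pow, one_mul]
          have : ‖Complex.exp (-(κ i : ℂ) * θ * Complex.I)‖ = 1 := by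
            rw [show -(κ i : ℂ) * θ * Complex.I = ((-(κ i) * θ : ℝ) : ℂ) * Complex.I by push_cast; ring]
            exact Complex.norm_exp_ofReal_mul_I _
          rw [this, mul_one, Complex.norm_real]
          exact hcb i hi
      _ = S.card * (d * E) := by rw [Finset.sum_const, nsmul_eq_mul]
      _ ≤ (N + 1) * (d * E) := by
          apply mul_le_mul_of_nonneg_right _ (by positivity)
          have : S ⊆ Finset.range (N + 1) := fun i hi => Finset.mem_range.mpr (by have := hSN i hi; omega)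
          have := Finset.card_le_card this
          rw [Finset.card_range] at this
          exact_mod_cast this
  have hB0 : 0 ≤ B := le_trans (norm_nonneg _) (hB 0 ⟨by linarith, hA0⟩)
  have hup : ‖∫ θ in (-A)..A, h θ * p θ‖ ≤ ((N + 1) * (d * E) * B) * (2 * Real.pi) := by
    have h1 : ‖∫ θ in (-A)..A, h θ * p θ‖ ≤ ((N + 1) * (d * E) * B) * |A - (-A)| := by
      apply intervalIntegral.norm_integral_le_of_norm_le_const
      intro θ hθ
      rw [Set.uIoc_of_le (by linarith)] at hθ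
      rw [norm_mul]
      exact mul_le_mul (hhb θ) (hB θ ⟨hθ.1.le, hθ.2⟩) (norm_nonneg _) (by positivity)
    refine h1.trans ?_
    apply mul_le_mul_of_nonneg_left _ (by positivity)
    rw [abs_of_nonneg (by linarith)]
    linarith
  rw [hint, norm_mul, norm_mul, norm_mul, Complex.norm_real, Complex.norm_real, Real.norm_eq_abs,
    Real.norm_eq_abs, Complex.norm_ofNat] at hup
  have hQ := Q_bound hSN hd hm hl (fun i _ => kap_ne hu lam (k i))
  rw [← hE] at hQ
  set Q : ℝ := |(∏ m ∈ S.erase lam, ((lam : ℝ) - m)) / ∏ i ∈ S, ((lam : ℝ) - κ i)| with hQd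
  have hsl := hs lam
  have hQ0 : 0 ≤ Q := abs_nonneg _
  have hE2 : Real.exp (8 * Real.sqrt (d * N)) = E * E := by
    rw [hE, ← Real.exp_add]; congr 1; ring
  rw [hE2]
  have hb0 : 0 ≤ ‖b lam‖ := norm_nonneg _
  -- ‖b‖ * s0 ≤ ‖b‖ * |sv| * (Q * d E) ≤ pi (N+1) d E B * d E
  have k1 : ‖b lam‖ * (s0 * Q) ≤ (N + 1) * (d * E) * B * Real.pi := by
    have : ‖b lam‖ * (2 * s0 * Q) ≤ ‖b lam‖ * (2 * |sv u v lam| * Q) := by gcongr
    nlinarith
  have k2 : ‖b lam‖ * s0 ≤ ((N + 1) * (d * E) * B * Real.pi) * (d * E) := by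
    calc ‖b lam‖ * s0 = ‖b lam‖ * s0 * 1 := by ring
      _ ≤ ‖b lam‖ * s0 * (Q * (d * E)) := by gcongr
      _ = (‖b lam‖ * (s0 * Q)) * (d * E) := by ring
      _ ≤ _ := by
        apply mul_le_mul_of_nonneg_right k1
        have : 0 ≤ d := by linarith
        positivity
  calc ‖b lam‖ = ‖b lam‖ * s0 / s0 := by field_simp
    _ ≤ ((N + 1) * (d * E) * B * Real.pi) * (d * E) / s0 := by gcongr
    _ = _ := by ring

theorem exists_s0 {u v : ℕ} (hv : 0 < v) :
    ∃ s0 : ℝ, 0 < s0 ∧ ∀ n : ℕ, s0 ≤ |sv u v n| := by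
  have hper : ∀ n q : ℕ, |sv u v (n + v * q)| = |sv u v n| := by
    intro n q
    have hv' : (v : ℝ) ≠ 0 := by positivity
    have e : sv u v (n + v * q) = (-1) ^ (u * q) * sv u v n := by
      unfold sv
      rw [← Real.sin_add_nat_mul_pi]
      congr 1
      push_cast
      field_simp
      ring
    rw [e, abs_mul, abs_pow, abs_neg, abs_one, one_pow, one_mul]
  have hne : ∀ n : ℕ, 0 < |sv u v n| := by
    intro n
    apply abs_pos.mpr
    intro h
    unfold sv at h
    rw [Real.sin_eq_zero_iff] at h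
    obtain ⟨k, hk⟩ := h
    have hv' : (v : ℝ) ≠ 0 := by positivity
    have hpi : Real.pi ≠ 0 := Real.pi_ne_zero
    have h2 : (k : ℝ) * (2 * v) = 2 * u * n - 1 := by
      field_simp at hk
      linarith
    have h3 : (k : ℤ) * (2 * v) = 2 * u * n - 1 := by exact_mod_cast h2
    have h4 : 2 * (k * (v : ℤ)) = 2 * ((u : ℤ) * n) - 1 := by linarith
    omega
  obtain ⟨m, _, hm2⟩ := Finset.exists_min_image (Finset.range v) (fun n => |sv u v n|)
    ⟨0, Finset.mem_range.mpr hv⟩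
  refine ⟨|sv u v m|, hne m, ?_⟩
  intro n
  have h1 := hper (n % v) (n / v)
  rw [Nat.mod_add_div] at h1
  rw [h1]
  exact hm2 _ (Finset.mem_range.mpr (Nat.mod_lt _ hv))

theorem exists_block {ξ : ℝ} (h0 : 0 < ξ) (h1 : ξ < 1) {n N : ℕ} (hn : 1 ≤ n) (hN : n ≤ N) :
    ∃ i : ℕ, ξ ^ (i + 1) * N < n ∧ (n : ℝ) ≤ ξ ^ i * N := by
  have hex : ∃ i : ℕ, ξ ^ (i + 1) * N < n := by
    have hN' : (0 : ℝ) < N := by exact_mod_cast lt_of_lt_of_le hn hN
    obtain ⟨i, hi⟩ := exists_pow_lt_of_lt_one (show (0 : ℝ) < 1 / N by positivity) h1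
    refine ⟨i, ?_⟩
    have h2 : ξ ^ (i + 1) ≤ ξ ^ i := pow_le_pow_of_le_one h0.le h1.le (by omega)
    have h3 : ξ ^ (i + 1) * N < 1 := by
      calc ξ ^ (i + 1) * N ≤ ξ ^ i * N := by gcongr
        _ < 1 / N * N := by gcongr
        _ = 1 := by field_simp
    have : (1 : ℝ) ≤ n := by exact_mod_cast hn
    linarith
  classical
  refine ⟨Nat.find hex, Nat.find_spec hex, ?_⟩
  rcases Nat.eq_zero_or_pos (Nat.find hex) with h | h
  · rw [h]
    simp only [pow_zero, one_mul]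
    exact_mod_cast hN
  · have := Nat.find_min hex (m := Nat.find hex - 1) (by omega)
    push Not at this
    rwa [Nat.sub_add_cancel h] at this

/-- matching of a set with small local density into the lattice -/
theorem matching {u v : ℕ} (hu : 0 < u) (hv : 0 < v) (huv : u ≤ v) {D ξ : ℝ}
    (hD : D * v ≤ u) (hξ0 : 0 < ξ) (hξ1 : ξ < 1) (L : Set ℕ) {R0 : ℝ} (hR0 : 1 ≤ ξ * R0)
    (hdens : ∀ r : ℝ, R0 ≤ r →
      ((Set.ncard {k : ℕ | ξ * r < (k : ℝ) ∧ (k : ℝ) ≤ r ∧ k ∈ L} : ℕ) : ℝ) ≤ D * (1 - ξ) * r)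
    (S : Finset ℕ) {N : ℕ} (hS : ∀ n ∈ S, n ∈ L ∧ R0 ≤ (n : ℝ) ∧ n ≤ N) :
    ∃ k : ℕ → ℕ, Set.InjOn k S ∧ (∀ n ∈ S, k n ≤ N) ∧
      ∀ n ∈ S, |kap u v (k n) - n| ≤ (1 - ξ) * N := by
  classical
  have hR0' : 0 < R0 := by
    by_contra h
    push Not at h
    have : ξ * R0 ≤ 0 := mul_nonpos_of_nonneg_of_nonpos hξ0.le h
    linarith
  have hu' : (0 : ℝ) < u := by positivity
  have hv' : (0 : ℝ) < v := by positivity
  have hex : ∀ n : ℕ, ∃ i : ℕ, n ∈ S → ξ ^ (i + 1) * N < n ∧ (n : ℝ) ≤ ξ ^ i * N := by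
    intro n
    by_cases hn : n ∈ S
    · have h1 : 1 ≤ n := by
        have := (hS n hn).2.1
        have h2 : (0 : ℝ) < n := lt_of_lt_of_le hR0' this
        exact_mod_cast h2
      obtain ⟨i, hi⟩ := exists_block hξ0 hξ1 h1 (hS n hn).2.2
      exact ⟨i, fun _ => hi⟩
    · exact ⟨0, fun h => absurd h hn⟩
  choose bi hbi using hex
  set top : ℕ → ℝ := fun i => ξ ^ i * N with htop
  have htop_succ : ∀ i, top (i + 1) = ξ * top i := fun i => by simp only [htop]; ring
  have htopN : ∀ i, top i ≤ N := by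
    intro i
    have : ξ ^ i ≤ 1 := pow_le_one₀ hξ0.le hξ1.le
    simp only [htop]
    have hN : (0 : ℝ) ≤ N := by positivity
    nlinarith
  set st : ℕ → ℕ := fun i => ⌊((u : ℝ) * (ξ * top i) - 1 / 2) / v⌋₊ + 1 with hst
  set rk : ℕ → ℕ := fun n => (S.filter (fun m => bi m = bi n ∧ m < n)).card with hrk
  -- rank bound
  have hrkb : ∀ n ∈ S, ((rk n : ℝ) + 1) ≤ D * (1 - ξ) * top (bi n) := by
    intro n hn
    obtain ⟨b1, b2⟩ := hbi n hn
    have hr : R0 ≤ top (bi n) := (hS n hn).2.1.trans b2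
    refine le_trans ?_ (hdens _ hr)
    have hfin : {k : ℕ | ξ * top (bi n) < (k : ℝ) ∧ (k : ℝ) ≤ top (bi n) ∧ k ∈ L}.Finite := by
      apply (Set.finite_Iic N).subset
      rintro k ⟨_, hk2, _⟩
      have := hk2.trans (htopN (bi n))
      exact_mod_cast this
    have hsub : ((S.filter (fun m => bi m = bi n ∧ m < n)) ∪ {n} : Finset ℕ) ⊆ hfin.toFinset := by
      intro m hm
      rw [Finset.mem_union, Finset.mem_filter, Finset.mem_singleton] at hm
      rw [Set.Finite.mem_toFinset]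
      have key : m ∈ S ∧ bi m = bi n := by
        rcases hm with hm | rfl
        · exact ⟨hm.1, hm.2.1⟩
        · exact ⟨hn, rfl⟩
      obtain ⟨c1, c2⟩ := hbi m key.1
      refine ⟨?_, ?_, (hS m key.1).1⟩
      · rw [← htop_succ]
        rw [key.2] at c1
        exact c1
      · rw [key.2] at c2
        exact c2
    have hcard := Finset.card_le_card hsub
    rw [← Set.ncard_eq_toFinset_card _ hfin] at hcard
    rw [Finset.card_union_of_disjoint (by
      rw [Finset.disjoint_singleton_right, Finset.mem_filter]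
      intro h
      exact absurd h.2.2 (lt_irrefl _)), Finset.card_singleton] at hcard
    exact_mod_cast hcard
  -- start bounds
  have hstb : ∀ n ∈ S, ξ * top (bi n) < kap u v (st (bi n)) ∧
      kap u v (st (bi n)) ≤ ξ * top (bi n) + v / u := by
    intro n hn
    have hr : R0 ≤ top (bi n) := (hS n hn).2.1.trans (hbi n hn).2
    have hy : 1 ≤ ξ * top (bi n) := hR0.trans (by gcongr)
    set y := ((u : ℝ) * (ξ * top (bi n)) - 1 / 2) / v with hyd
    have hu1 : (1 : ℝ) ≤ u := by exact_mod_cast hu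
    have hy0 : 0 ≤ y := by
      rw [hyd]
      apply div_nonneg _ hv'.le
      nlinarith
    have f1 := Nat.floor_le hy0
    have f2 := Nat.lt_floor_add_one y
    have hyv : y * v = (u : ℝ) * (ξ * top (bi n)) - 1 / 2 := by rw [hyd]; field_simp
    have hsc : ((st (bi n) : ℕ) : ℝ) = (⌊y⌋₊ : ℝ) + 1 := by simp only [hst]; push_cast; rfl
    unfold kap
    rw [hsc]
    constructor
    · rw [lt_div_iff₀ (by positivity)]
      nlinarith
    · rw [div_le_iff₀ (by positivity)]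
      have : (ξ * top (bi n) + v / u) * (2 * u) = 2 * (u * (ξ * top (bi n))) + 2 * v := by
        field_simp
      rw [this]
      nlinarith
  have hkap : ∀ n ∈ S, ξ * top (bi n) < kap u v (st (bi n) + rk n) ∧
      kap u v (st (bi n) + rk n) ≤ top (bi n) := by
    intro n hn
    obtain ⟨a1, a2⟩ := hstb n hn
    have a3 := hrkb n hn
    have e : kap u v (st (bi n) + rk n) = kap u v (st (bi n)) + rk n * (v / u) := by
      have := kap_sub hu (st (bi n) + rk n) (st (bi n)) (v := v)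
      push_cast at this
      linarith
    have hvu : (0 : ℝ) < v / u := div_pos hv' hu'
    have htop0 : 0 ≤ top (bi n) := by
      have : (0 : ℝ) ≤ n := by positivity
      exact this.trans (hbi n hn).2
    rw [e]
    constructor
    · have : 0 ≤ (rk n : ℝ) * (v / u) := by positivity
      linarith
    · have h1 : ((rk n : ℝ) + 1) * (v / u) ≤ D * (1 - ξ) * top (bi n) * (v / u) := by gcongr
      have h2 : D * (v / u) ≤ 1 := by
        rw [mul_div_assoc', div_le_one hu']; exact hD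
      have h3 : D * (1 - ξ) * top (bi n) * (v / u) ≤ (1 - ξ) * top (bi n) := by
        have : D * (1 - ξ) * top (bi n) * (v / u) = (D * (v / u)) * ((1 - ξ) * top (bi n)) := by ring
        rw [this]
        have h4 : 0 ≤ (1 - ξ) * top (bi n) := mul_nonneg (by linarith) htop0
        nlinarith
      nlinarith
  refine ⟨fun n => st (bi n) + rk n, ?_, ?_, ?_⟩
  · intro n hn m hm hnm
    simp only at hnm
    have hn' : n ∈ S := hn
    have hm' : m ∈ S := hm
    obtain ⟨n1, n2⟩ := hkap n hn'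
    obtain ⟨m1, m2⟩ := hkap m hm'
    rw [← hnm] at m1 m2
    have hle : ∀ i j : ℕ, i < j → top j ≤ ξ * top i := by
      intro i j hij
      rw [← htop_succ]
      simp only [htop]
      have : ξ ^ j ≤ ξ ^ (i + 1) := pow_le_pow_of_le_one hξ0.le hξ1.le (by omega)
      gcongr
    have hbb : bi n = bi m := by
      rcases lt_trichotomy (bi n) (bi m) with h | h | h
      · exact absurd (m2.trans (hle _ _ h)) (not_le.mpr n1)
      · exact h
      · exact absurd (n2.trans (hle _ _ h)) (not_le.mpr m1)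
    rw [hbb] at hnm
    have hr : rk n = rk m := by omega
    by_contra hne
    have key : ∀ a ∈ S, ∀ b ∈ S, bi a = bi b → a < b → rk a < rk b := by
      intro a ha b _ hab hlt
      apply Finset.card_lt_card
      rw [Finset.ssubset_iff_of_subset]
      · refine ⟨a, ?_, ?_⟩
        · rw [Finset.mem_filter]; exact ⟨ha, hab, hlt⟩
        · rw [Finset.mem_filter]; intro h; exact absurd h.2.2 (lt_irrefl _)
      · intro c hc
        rw [Finset.mem_filter] at hc ⊢
        exact ⟨hc.1, hc.2.1.trans hab, hc.2.2.trans hlt⟩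
    rcases lt_or_gt_of_ne hne with h | h
    · exact absurd hr (key n hn' m hm' hbb h).ne
    · exact absurd hr.symm (key m hm' n hn' hbb.symm h).ne
  · intro n hn
    obtain ⟨_, n2⟩ := hkap n hn
    have h1 := n2.trans (htopN _)
    unfold kap at h1
    rw [div_le_iff₀ (by positivity)] at h1
    have h2 : 2 * (st (bi n) + rk n) * v + 1 ≤ N * (2 * u) := by exact_mod_cast h1
    have h3 : (st (bi n) + rk n) * v ≤ N * u := by nlinarith
    have h4 : (st (bi n) + rk n) * v ≤ N * v := h3.trans (Nat.mul_le_mul_left _ huv)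
    exact Nat.le_of_mul_le_mul_right h4 hv
  · intro n hn
    obtain ⟨n1, n2⟩ := hkap n hn
    obtain ⟨b1, b2⟩ := hbi n hn
    have b1' : ξ * top (bi n) < n := by rw [← htop_succ]; exact b1
    have h3 := htopN (bi n)
    have h4 : (1 - ξ) * top (bi n) ≤ (1 - ξ) * N := by gcongr
    have b2' : (n : ℝ) ≤ top (bi n) := b2
    rw [abs_le]
    constructor <;> nlinarith

end Helper787.Gap
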