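import Mathlib

set_option autoImplicit false
open Finset Metric Real

namespace Helper787.Gap

/-- division of an entire function by a linear factor at a zero -/
theorem exists_div {h : ℂ → ℂ} (hh : Differentiable ℂ h) {a : ℂ} (ha : h a = 0) :
    ∃ h₁ : ℂ → ℂ, Differentiable ℂ h₁ ∧ ∀ z, h z = (z - a) * h₁ z := by
  refine ⟨dslope h a, ?_, ?_⟩
  · have := (Complex.differentiableOn_dslope (s := Set.univ) (c := a) (f := h)
      Filter.univ_mem).mpr hh.differentiableOn
    exact differentiableOn_univ.mp this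
  · intro z
    have := sub_smul_dslope h a z
    rw [smul_eq_mul, ha, sub_zero] at this
    exact this.symm

theorem exists_bound_ball {F : ℂ → ℂ} (hF : Differentiable ℂ F) (R : ℝ) :
    ∃ M : ℝ, 0 ≤ M ∧ ∀ z : ℂ, ‖z‖ ≤ R → ‖F z‖ ≤ M := by
  obtain ⟨M, hM⟩ := (isCompact_closedBall (0 : ℂ) R).exists_bound_of_continuousOn
    hF.continuous.continuousOn
  refine ⟨max M 0, le_max_right _ _, fun z hz => (hM z ?_).trans (le_max_left _ _)⟩
  simpa using hz

/-- factorization of zeros in a closed ball -/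
theorem exists_factor {F : ℂ → ℂ} (hF : Differentiable ℂ F) {z0 : ℂ} (hz0 : F z0 ≠ 0) {R : ℝ}
    (hR : 0 ≤ R) :
    ∃ (L : List ℂ) (h : ℂ → ℂ), (∀ a ∈ L, ‖a‖ ≤ R) ∧ Differentiable ℂ h ∧
      (∀ z, F z = (L.map (fun a => z - a)).prod * h z) ∧ ∀ z, ‖z‖ ≤ R → h z ≠ 0 := by
  classical
  set P : ℕ → Prop := fun n => ∃ (L : List ℂ) (h : ℂ → ℂ), L.length = n ∧ (∀ a ∈ L, ‖a‖ ≤ R) ∧
    Differentiable ℂ h ∧ (∀ z, F z = (L.map (fun a => z - a)).prod * h z) with hP
  have hP0 : P 0 := ⟨[], F, rfl, by simp, hF, by simp⟩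
  by_cases hall : ∀ n, P n
  · exfalso
    set R2 : ℝ := 3 * R + 2 * ‖z0‖ + 1 with hR2
    have hz0n := norm_nonneg z0
    obtain ⟨M, hM0, hM⟩ := exists_bound_ball hF R2
    have key : ∀ n : ℕ, ‖F z0‖ ≤ M * (1 / 2) ^ n := by
      intro n
      obtain ⟨L, h, hn, hL, hh, hfac⟩ := hall n
      have hprod_low : ∀ z : ℂ, ‖z‖ = R2 → (R2 - R) ^ n ≤ ‖(L.map (fun a => z - a)).prod‖ := by
        intro z hz
        rw [← hn]
        clear hfac hn
        induction L with
        | nil => simp
        | cons a L ih =>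
          rw [List.map_cons, List.prod_cons, List.length_cons, pow_succ, norm_mul, mul_comm]
          apply mul_le_mul
          · have := norm_sub_norm_le z a
            have h2 := hL a (by simp)
            linarith
          · exact ih (fun b hb => hL b (by simp [hb]))
          · have : 0 ≤ R2 - R := by linarith
            positivity
          · positivity
      have hprod_up : ‖(L.map (fun a => z0 - a)).prod‖ ≤ (‖z0‖ + R) ^ n := by
        rw [← hn]
        clear hfac hn hprod_low
        induction L with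
        | nil => simp
        | cons a L ih =>
          rw [List.map_cons, List.prod_cons, List.length_cons, pow_succ, norm_mul, mul_comm]
          apply mul_le_mul
          · exact ih (fun b hb => hL b (by simp [hb]))
          · have := norm_sub_le z0 a
            have h2 := hL a (by simp)
            linarith
          · positivity
          · positivity
      have hpos : 0 < (R2 - R) ^ n := by
        have : 0 < R2 - R := by linarith
        positivity
      have hh0 : ‖h z0‖ ≤ M / (R2 - R) ^ n := by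
        have hb : Bornology.IsBounded (ball (0 : ℂ) R2) := isBounded_ball
        apply Complex.norm_le_of_forall_mem_frontier_norm_le hb hh.diffContOnCl
        · intro z hz
          have hR2ne : R2 ≠ 0 := by
            have : 0 < R2 := by linarith
            exact this.ne'
          rw [frontier_ball _ hR2ne, mem_sphere_zero_iff_norm] at hz
          rw [le_div_iff₀ hpos]
          calc ‖h z‖ * (R2 - R) ^ n ≤ ‖h z‖ * ‖(L.map (fun a => z - a)).prod‖ := by
                gcongr
                exact hprod_low z hz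
            _ = ‖F z‖ := by rw [hfac, norm_mul, mul_comm]
            _ ≤ M := hM z hz.le
        · apply subset_closure
          rw [mem_ball_zero_iff]
          linarith
      calc ‖F z0‖ = ‖(L.map (fun a => z0 - a)).prod‖ * ‖h z0‖ := by rw [hfac, norm_mul]
        _ ≤ (‖z0‖ + R) ^ n * (M / (R2 - R) ^ n) := by gcongr
        _ = M * ((‖z0‖ + R) / (R2 - R)) ^ n := by rw [div_pow]; field_simp
        _ ≤ M * (1 / 2) ^ n := by
          have e1 : 0 ≤ (‖z0‖ + R) / (R2 - R) := div_nonneg (by linarith) (by linarith)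
          have e2 : (‖z0‖ + R) / (R2 - R) ≤ 1 / 2 := by
            rw [div_le_div_iff₀ (by linarith) (by norm_num)]
            linarith
          gcongr
    have hlim : Filter.Tendsto (fun n : ℕ => M * (1 / 2 : ℝ) ^ n) Filter.atTop (nhds (M * 0)) :=
      (tendsto_pow_atTop_nhds_zero_of_lt_one (by norm_num) (by norm_num)).const_mul M
    have := ge_of_tendsto' hlim key
    rw [mul_zero] at this
    exact hz0 (norm_le_zero_iff.mp this)
  · push Not at hall
    have hex : ∃ n, ¬ P n := hall
    have hs := Nat.find_spec hex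
    have hpos : 0 < Nat.find hex := by
      rcases Nat.eq_zero_or_pos (Nat.find hex) with h | h
      · rw [h] at hs; exact absurd hP0 hs
      · exact h
    have hm := Nat.find_min hex (m := Nat.find hex - 1) (by omega)
    rw [not_not] at hm
    obtain ⟨L, h, hn, hL, hh, hfac⟩ := hm
    refine ⟨L, h, hL, hh, hfac, ?_⟩
    intro a ha ha0
    obtain ⟨h₁, hh₁, hfac₁⟩ := exists_div hh ha0
    apply hs
    refine ⟨L ++ [a], h₁, ?_, ?_, hh₁, ?_⟩
    · rw [List.length_append, hn, List.length_singleton]; omega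
    · intro b hb
      rw [List.mem_append, List.mem_singleton] at hb
      rcases hb with hb | rfl
      · exact hL b hb
      · exact ha
    · intro z
      rw [hfac z, hfac₁ z, List.map_append, List.prod_append]
      simp
      ring

/-- logarithm on a ball -/
theorem exists_log {h : ℂ → ℂ} (hh : Differentiable ℂ h) {R : ℝ} (hR : 0 < R)
    (hne : ∀ z, ‖z‖ ≤ R → h z ≠ 0) :
    ∃ (g : ℂ → ℂ) (R1 : ℝ), R < R1 ∧ DifferentiableOn ℂ g (ball 0 R1) ∧
      ∀ z ∈ ball (0 : ℂ) R1, h z = Complex.exp (g z) := by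
  have hopen : IsOpen {z : ℂ | h z ≠ 0} := isOpen_ne_fun hh.continuous continuous_const
  have hsub : closedBall (0 : ℂ) R ⊆ {z : ℂ | h z ≠ 0} := by
    intro z hz
    exact hne z (by simpa using hz)
  obtain ⟨δ, hδ, hth⟩ := (isCompact_closedBall (0 : ℂ) R).exists_thickening_subset_open hopen hsub
  rw [thickening_closedBall hδ hR.le] at hth
  set R1 := δ + R with hR1
  have hRR1 : R < R1 := by linarith
  have hd : DifferentiableOn ℂ (fun z => deriv h z / h z) (ball 0 R1) := by
    apply DifferentiableOn.div _ hh.differentiableOn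
    · intro z hz; exact hth hz
    · have : Differentiable ℂ (deriv h) := by
        intro z
        exact (hh.analyticAt z).deriv.differentiableAt
      exact this.differentiableOn
  obtain ⟨g0, hg0⟩ := hd.isExactOn_ball
  have h0 : h 0 ≠ 0 := hne 0 (by simpa using hR.le)
  set g : ℂ → ℂ := fun z => g0 z - g0 0 + Complex.log (h 0) with hg
  have hg' : ∀ z ∈ ball (0 : ℂ) R1, HasDerivAt g (deriv h z / h z) z := by
    intro z hz
    exact ((hg0 z hz).sub_const _).add_const _
  refine ⟨g, R1, hRR1, fun z hz => (hg' z hz).differentiableAt.differentiableWithinAt, ?_⟩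
  -- constant quotient
  set q : ℂ → ℂ := fun z => h z * Complex.exp (-g z) with hq
  have hq' : ∀ z ∈ ball (0 : ℂ) R1, HasDerivAt q 0 z := by
    intro z hz
    have h1 : HasDerivAt h (deriv h z) z := (hh z).hasDerivAt
    have h2 := ((hg' z hz).neg).cexp
    have h3 : HasDerivAt q _ z := h1.mul h2
    refine h3.congr_deriv ?_
    have hne' : h z ≠ 0 := hth hz
    have e : h z * (Complex.exp (-g z) * -(deriv h z / h z)) =
        -(deriv h z * Complex.exp (-g z)) * (h z / h z) := by ring
    rw [div_self hne', mul_one] at e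
    have e2 : deriv h z * Complex.exp (-g z) + h z * (Complex.exp (-g z) * -(deriv h z / h z)) = 0 := by
      rw [e]; ring
    exact e2
  have hconst : ∀ z ∈ ball (0 : ℂ) R1, q z = q 0 := by
    intro z hz
    apply IsOpen.is_const_of_deriv_eq_zero (s := ball (0 : ℂ) R1) isOpen_ball
      (convex_ball _ _).isPreconnected
    · intro w hw
      exact (hq' w hw).differentiableAt.differentiableWithinAt
    · intro w hw
      exact (hq' w hw).deriv
    · exact hz
    · rw [mem_ball_zero_iff, norm_zero]; linarith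
  intro z hz
  have h1 := hconst z hz
  simp only [hq, hg, sub_self, zero_add] at h1
  rw [Complex.exp_neg (Complex.log (h 0)), Complex.exp_log h0, mul_inv_cancel₀ h0] at h1
  have h2 : h z * Complex.exp (-g z) = 1 := h1
  rw [Complex.exp_neg] at h2
  have h3 := Complex.exp_ne_zero (g z)
  field_simp at h2
  exact h2

theorem norm_circleAverage_le {f : ℂ → ℂ} {t : ℝ} {g : ℂ → ℝ}
    (hg : CircleIntegrable g 0 t) (h : ∀ z ∈ sphere (0 : ℂ) |t|, ‖f z‖ ≤ g z) :
    ‖circleAverage f 0 t‖ ≤ circleAverage g 0 t := by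
  rw [circleAverage, circleAverage, norm_smul, smul_eq_mul]
  rw [Real.norm_of_nonneg (by positivity)]
  apply mul_le_mul_of_nonneg_left _ (by positivity)
  apply intervalIntegral.norm_integral_le_of_norm_le (by positivity)
  · filter_upwards with θ _
    exact h _ (circleMap_mem_sphere' 0 t θ)
  · exact hg

theorem coef_integral {g : ℂ → ℂ} {R1 t : ℝ} (ht : 0 < t) (htR : t < R1)
    (hg : DifferentiableOn ℂ g (ball 0 R1)) (m : ℕ) :
    circleAverage (fun z => ((t : ℂ) / z) ^ m * g z) 0 t =
      (t : ℂ) ^ m * ((m.factorial : ℂ)⁻¹ * iteratedDeriv m g 0) := by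
  rw [circleAverage_eq_circleIntegral ht.ne']
  have hd : DiffContOnCl ℂ g (ball 0 t) := by
    apply DifferentiableOn.diffContOnCl
    rw [closure_ball _ ht.ne']
    exact hg.mono (closedBall_subset_ball htR)
  have h1 := hd.circleIntegral_one_div_sub_center_pow_smul ht m
  have h2 : (∮ z in C(0, t), (z - 0)⁻¹ • (((t : ℂ) / z) ^ m * g z)) =
      (t : ℂ) ^ m * ∮ z in C(0, t), (1 / (z - 0) ^ (m + 1)) • g z := by
    rw [← smul_eq_mul ((t : ℂ) ^ m), ← circleIntegral.integral_smul]
    apply circleIntegral.integral_congr ht.le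
    intro z hz
    rw [mem_sphere_zero_iff_norm] at hz
    have hz0 : z ≠ 0 := by
      intro h; rw [h, norm_zero] at hz; exact ht.ne hz
    simp only [sub_zero, smul_eq_mul, div_pow]
    field_simp
    ring
  rw [h2, h1]
  have hpi : (2 * (π : ℂ) * Complex.I) ≠ 0 := Complex.two_pi_I_ne_zero
  simp only [smul_eq_mul]
  field_simp

theorem coef_integral_conj {g : ℂ → ℂ} {R1 t : ℝ} (ht : 0 < t) (htR : t < R1)
    (hg : DifferentiableOn ℂ g (ball 0 R1)) {m : ℕ} (hm : 1 ≤ m) :
    circleAverage (fun z => ((t : ℂ) / z) ^ m * (starRingEnd ℂ) (g z)) 0 t = 0 := by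
  have hsub : closedBall (0 : ℂ) t ⊆ ball 0 R1 := closedBall_subset_ball htR
  have h1 : circleAverage (fun z => (z / (t : ℂ)) ^ m * g z) 0 t = 0 := by
    have hd : DiffContOnCl ℂ (fun z => (z / (t : ℂ)) ^ m * g z) (ball 0 |t|) := by
      rw [abs_of_pos ht]
      apply DifferentiableOn.diffContOnCl
      rw [closure_ball _ ht.ne']
      apply DifferentiableOn.mul _ (hg.mono hsub)
      fun_prop
    rw [hd.circleAverage]
    simp [show m ≠ 0 by omega]
  have hcont : ContinuousOn (fun z => (z / (t : ℂ)) ^ m * g z) (sphere (0 : ℂ) |t|) := by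
    apply ContinuousOn.mul (by fun_prop)
    apply hg.continuousOn.mono
    rw [abs_of_pos ht]
    exact sphere_subset_closedBall.trans hsub
  have hi : CircleIntegrable (fun z => (z / (t : ℂ)) ^ m * g z) 0 t := hcont.circleIntegrable'
  have h2 := (Complex.conjCLE.toContinuousLinearMap).circleAverage_comp_comm hi
  rw [h1, map_zero] at h2
  refine Eq.trans ?_ h2
  apply circleAverage_congr_sphere
  intro z hz
  rw [abs_of_pos ht, mem_sphere_zero_iff_norm] at hz
  have hz0 : z ≠ 0 := by
    intro h; rw [h, norm_zero] at hz; exact ht.ne hz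
  have e : (starRingEnd ℂ) (z / (t : ℂ)) = (t : ℂ) / z := by
    rw [map_div₀, Complex.conj_ofReal]
    have ht0 : (t : ℂ) ≠ 0 := by exact_mod_cast ht.ne'
    rw [div_eq_div_iff ht0 hz0, ← Complex.normSq_eq_conj_mul_self, Complex.normSq_eq_norm_sq, hz]
    push_cast
    ring
  change ((t : ℂ) / z) ^ m * (starRingEnd ℂ) (g z) = (starRingEnd ℂ) ((z / (t : ℂ)) ^ m * g z)
  rw [map_mul, map_pow, e]

/-- Taylor coefficients are controlled by the mean of the absolute value of the real part -/
theorem coef_le {g : ℂ → ℂ} {R1 t : ℝ} (ht : 0 < t) (htR : t < R1)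
    (hg : DifferentiableOn ℂ g (ball 0 R1)) {m : ℕ} (hm : 1 ≤ m) (C : ℝ) :
    ‖(m.factorial : ℂ)⁻¹ * iteratedDeriv m g 0‖ * t ^ m ≤
      2 * circleAverage (fun z => |(g z).re + C|) 0 t := by
  have hg2 : DifferentiableOn ℂ (fun z => g z + (C : ℂ)) (ball 0 R1) := hg.add_const _
  have h1 := coef_integral ht htR hg m
  have h2 := coef_integral_conj ht htR hg hm
  have hone : DifferentiableOn ℂ (fun _ : ℂ => (1 : ℂ)) (ball 0 R1) := differentiableOn_const _
  have h3 := coef_integral_conj ht htR hone hm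
  have hsub : closedBall (0 : ℂ) t ⊆ ball 0 R1 := closedBall_subset_ball htR
  have hne : ∀ z ∈ sphere (0 : ℂ) |t|, z ≠ 0 := by
    intro z hz h
    rw [abs_of_pos ht, mem_sphere_zero_iff_norm, h, norm_zero] at hz
    exact ht.ne hz
  have hgc : ContinuousOn g (sphere (0 : ℂ) |t|) := by
    apply hg.continuousOn.mono
    rw [abs_of_pos ht]
    exact sphere_subset_closedBall.trans hsub
  have hec : ContinuousOn (fun z : ℂ => ((t : ℂ) / z) ^ m) (sphere (0 : ℂ) |t|) := by
    apply ContinuousOn.pow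
    exact continuousOn_const.div continuousOn_id hne
  have hcc : ContinuousOn (fun z : ℂ => (starRingEnd ℂ) (g z)) (sphere (0 : ℂ) |t|) :=
    Complex.continuous_conj.comp_continuousOn hgc
  have i1 : CircleIntegrable (fun z => ((t : ℂ) / z) ^ m * g z) 0 t :=
    (hec.mul hgc).circleIntegrable'
  have i2 : CircleIntegrable (fun z => ((t : ℂ) / z) ^ m * (starRingEnd ℂ) (g z)) 0 t :=
    (hec.mul hcc).circleIntegrable'
  have i3 : CircleIntegrable (fun z => ((t : ℂ) / z) ^ m * (starRingEnd ℂ) ((1 : ℂ))) 0 t :=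
    (hec.mul continuousOn_const).circleIntegrable'
  have h4 : circleAverage (fun z => ((t : ℂ) / z) ^ m * (2 * ((((g z).re + C : ℝ)) : ℂ))) 0 t =
      (t : ℂ) ^ m * ((m.factorial : ℂ)⁻¹ * iteratedDeriv m g 0) := by
    have e : (fun z => ((t : ℂ) / z) ^ m * (2 * ((((g z).re + C : ℝ)) : ℂ))) =
        fun z => (((t : ℂ) / z) ^ m * g z + ((t : ℂ) / z) ^ m * (starRingEnd ℂ) (g z)) +
          (2 * (C : ℂ)) • (((t : ℂ) / z) ^ m * (starRingEnd ℂ) ((1 : ℂ))) := by
      funext z
      have : (2 * ((g z).re : ℂ)) = g z + (starRingEnd ℂ) (g z) := by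
        rw [Complex.add_conj]; push_cast; ring
      rw [map_one, smul_eq_mul]
      push_cast
      rw [mul_add, this]
      ring
    have i12 : CircleIntegrable (fun z => ((t : ℂ) / z) ^ m * g z +
        ((t : ℂ) / z) ^ m * (starRingEnd ℂ) (g z)) 0 t := i1.add i2
    have i4 : CircleIntegrable (fun z => (2 * (C : ℂ)) •
        (((t : ℂ) / z) ^ m * (starRingEnd ℂ) ((1 : ℂ)))) 0 t := by
      have := CircleIntegrable.const_smul (a := (2 * (C : ℂ))) i3
      exact this
    rw [e, circleAverage_fun_add i12 i4, circleAverage_fun_add i1 i2,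
      circleAverage_fun_smul, h1, h2, h3]
    simp
  have h5 := norm_circleAverage_le (f := fun z => ((t : ℂ) / z) ^ m * (2 * ((((g z).re + C : ℝ)) : ℂ)))
    (g := fun z => 2 * |(g z).re + C|) (t := t) ?_ ?_
  · rw [h4, norm_mul, norm_pow, Complex.norm_real, Real.norm_of_nonneg ht.le] at h5
    have e6 : circleAverage (fun z => 2 * |(g z).re + C|) 0 t =
        2 * circleAverage (fun z => |(g z).re + C|) 0 t := by
      have := circleAverage_fun_smul (a := (2 : ℝ)) (f := fun z : ℂ => |(g z).re + C|) (c := 0) (R := t)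
      simpa [smul_eq_mul] using this
    rw [e6] at h5
    linarith [h5, mul_comm (t ^ m) ‖(m.factorial : ℂ)⁻¹ * iteratedDeriv m g 0‖]
  · apply ContinuousOn.circleIntegrable'
    apply ContinuousOn.mul continuousOn_const
    apply ContinuousOn.abs
    apply ContinuousOn.add _ continuousOn_const
    exact Complex.continuous_re.comp_continuousOn hgc
  · intro z hz
    rw [norm_mul, norm_pow, norm_div, Complex.norm_real, Real.norm_of_nonneg ht.le]
    rw [abs_of_pos ht, mem_sphere_zero_iff_norm] at hz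
    rw [hz, div_self ht.ne', one_pow, one_mul, norm_mul, Complex.norm_real, Complex.norm_ofNat,
      Real.norm_eq_abs]

theorem exists_factor' {F : ℂ → ℂ} (hF : Differentiable ℂ F) {z0 : ℂ} (hz0 : F z0 ≠ 0) {R : ℝ}
    (hR : 0 ≤ R) :
    ∃ (n : ℕ) (a : Fin n → ℂ) (h : ℂ → ℂ), (∀ i, ‖a i‖ ≤ R) ∧ Differentiable ℂ h ∧
      (∀ z, F z = (∏ i, (z - a i)) * h z) ∧ ∀ z, ‖z‖ ≤ R → h z ≠ 0 := by
  obtain ⟨L, h, h1, h2, h3, h4⟩ := exists_factor hF hz0 hR
  refine ⟨L.length, fun i => L[i.1], h, ?_, h2, ?_, h4⟩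
  · intro i
    exact h1 _ (List.getElem_mem _)
  · intro z
    rw [h3 z, Fin.prod_univ_fun_getElem L (fun a => z - a)]

theorem codisc {ι : Type*} (S : Finset ι) (a : ι → ℂ) (t : ℝ) :
    {z : ℂ | ∀ i ∈ S, z ≠ a i} ∈ Filter.codiscreteWithin (sphere (0 : ℂ) |t|) := by
  classical
  apply codiscreteWithin_iff_locallyFiniteComplementWithin.2
  intro z _
  refine ⟨Set.univ, Filter.univ_mem, ?_⟩
  apply (S.image a).finite_toSet.subset
  rintro w ⟨_, _, hw⟩
  simp only [Set.mem_ofPred_eq, not_forall, not_not] at hw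
  obtain ⟨i, hi, hwi⟩ := hw
  rw [Finset.mem_coe, Finset.mem_image]
  exact ⟨i, hi, hwi.symm⟩

noncomputable def ca (t : ℝ) (a : ℂ) : ℝ := Real.log t + Real.posLog (t⁻¹ * ‖a‖)

theorem circleAverage_ca {t : ℝ} (ht : 0 < t) (a : ℂ) :
    circleAverage (fun z => Real.log ‖z - a‖) 0 t = ca t a := by
  have := circleAverage_log_norm_sub_const_eq_log_radius_add_posLog (a := a) (c := 0) ht.ne'
  rw [this]
  unfold ca
  rw [zero_sub, norm_neg]

theorem log_sub_le {t : ℝ} (ht : 1 ≤ t) (a : ℂ) {z : ℂ} (hz : ‖z‖ = t) :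
    Real.log ‖z - a‖ - ca t a ≤ Real.log 2 := by
  have ht0 : 0 < t := by linarith
  have hp : 0 ≤ Real.posLog (t⁻¹ * ‖a‖) := Real.posLog_nonneg
  have hlt : 0 ≤ Real.log t := Real.log_nonneg ht
  have hl2 : 0 ≤ Real.log 2 := Real.log_nonneg (by norm_num)
  unfold ca
  rcases eq_or_ne (z - a) 0 with h | h
  · rw [h, norm_zero, Real.log_zero]; linarith
  · have h1 : ‖z - a‖ ≤ 2 * (t * max 1 (t⁻¹ * ‖a‖)) := by
      have b1 : ‖z - a‖ ≤ t + ‖a‖ := by rw [← hz]; exact norm_sub_le z a
      have b2 : t ≤ t * max 1 (t⁻¹ * ‖a‖) := by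
        have := le_max_left 1 (t⁻¹ * ‖a‖)
        nlinarith
      have b3 : ‖a‖ ≤ t * max 1 (t⁻¹ * ‖a‖) := by
        have := le_max_right 1 (t⁻¹ * ‖a‖)
        calc ‖a‖ = t * (t⁻¹ * ‖a‖) := by field_simp
          _ ≤ _ := by gcongr
      linarith
    have hm : 0 < max 1 (t⁻¹ * ‖a‖) := lt_of_lt_of_le one_pos (le_max_left _ _)
    have h2 : Real.log ‖z - a‖ ≤ Real.log (2 * (t * max 1 (t⁻¹ * ‖a‖))) :=
      Real.log_le_log (norm_pos_iff.mpr h) h1
    rw [Real.log_mul (by norm_num) (by positivity), Real.log_mul ht0.ne' hm.ne',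
      ← Real.posLog_eq_log_max_one (by positivity)] at h2
    linarith

theorem circleAverage_abs_log_sub {t : ℝ} (ht : 1 ≤ t) (a : ℂ) :
    circleAverage (fun z => |Real.log ‖z - a‖ - ca t a|) 0 t ≤ 2 * Real.log 2 := by
  have ht0 : 0 < t := by linarith
  have hi : CircleIntegrable (fun z => Real.log ‖z - a‖) 0 t := circleIntegrable_log_norm_sub_const t
  have hi2 : CircleIntegrable (fun z => Real.log ‖z - a‖ - ca t a) 0 t :=
    hi.sub (circleIntegrable_const _ _ _)
  have hi3 : CircleIntegrable (fun z => 2 * Real.log 2 - (Real.log ‖z - a‖ - ca t a)) 0 t :=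
    (circleIntegrable_const _ _ _).sub hi2
  have h1 : circleAverage (fun z => |Real.log ‖z - a‖ - ca t a|) 0 t ≤
      circleAverage (fun z => 2 * Real.log 2 - (Real.log ‖z - a‖ - ca t a)) 0 t := by
    apply circleAverage_mono hi2.abs hi3
    intro z hz
    rw [abs_of_pos ht0, mem_sphere_zero_iff_norm] at hz
    have := log_sub_le ht a hz
    have hl2 : 0 ≤ Real.log 2 := Real.log_nonneg (by norm_num)
    change |Real.log ‖z - a‖ - ca t a| ≤ _
    rw [abs_le]
    constructor <;> linarith
  refine h1.trans (le_of_eq ?_)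
  rw [circleAverage_fun_sub (circleIntegrable_const _ _ _) hi2,
    circleAverage_fun_sub hi (circleIntegrable_const _ _ _), circleAverage_ca ht0,
    circleAverage_const, circleAverage_const]
  ring

section fac

variable {ι : Type*} {S : Finset ι} {a : ι → ℂ} {F g : ℂ → ℂ} {R1 : ℝ}

theorem log_norm_fac (hfac : ∀ z ∈ ball (0 : ℂ) R1, F z = (∏ i ∈ S, (z - a i)) * Complex.exp (g z))
    {z : ℂ} (hz : z ∈ ball (0 : ℂ) R1) (hne : ∀ i ∈ S, z ≠ a i) :
    Real.log ‖F z‖ = ∑ i ∈ S, Real.log ‖z - a i‖ + (g z).re := by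
  rw [hfac z hz, norm_mul, Real.log_mul, Complex.norm_exp, Real.log_exp, norm_prod,
    Real.log_prod]
  · intro i hi
    exact norm_ne_zero_iff.mpr (sub_ne_zero.mpr (hne i hi))
  · rw [norm_prod]
    exact Finset.prod_ne_zero_iff.mpr fun i hi =>
      norm_ne_zero_iff.mpr (sub_ne_zero.mpr (hne i hi))
  · exact norm_ne_zero_iff.mpr (Complex.exp_ne_zero _)

theorem mean_log (hg : DifferentiableOn ℂ g (ball 0 R1))
    (hfac : ∀ z ∈ ball (0 : ℂ) R1, F z = (∏ i ∈ S, (z - a i)) * Complex.exp (g z))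
    {t : ℝ} (ht : 0 < t) (htR : t < R1) :
    circleAverage (fun z => Real.log ‖F z‖) 0 t = ∑ i ∈ S, ca t (a i) + (g 0).re := by
  have hsub : closedBall (0 : ℂ) t ⊆ ball 0 R1 := closedBall_subset_ball htR
  have hgc : ContinuousOn g (sphere (0 : ℂ) |t|) := by
    apply hg.continuousOn.mono
    rw [abs_of_pos ht]
    exact sphere_subset_closedBall.trans hsub
  have e1 : circleAverage (fun z => Real.log ‖F z‖) 0 t =
      circleAverage (fun z => ∑ i ∈ S, Real.log ‖z - a i‖ + (g z).re) 0 t := by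
    apply circleAverage_congr_codiscreteWithin _ ht.ne'
    filter_upwards [codisc S a t, Filter.self_mem_codiscreteWithin (sphere (0 : ℂ) |t|)] with z hz hz2
    rw [abs_of_pos ht] at hz2
    exact log_norm_fac hfac (hsub (sphere_subset_closedBall hz2)) hz
  have hi : ∀ i ∈ S, CircleIntegrable (fun z => Real.log ‖z - a i‖) 0 t := fun i _ =>
    circleIntegrable_log_norm_sub_const t
  have hs : CircleIntegrable (fun z => ∑ i ∈ S, Real.log ‖z - a i‖) 0 t := by
    have := CircleIntegrable.sum S hi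
    convert this using 1
    funext z
    simp
  have hr : CircleIntegrable (fun z => (g z).re) 0 t :=
    (Complex.continuous_re.comp_continuousOn hgc).circleIntegrable'
  rw [e1, circleAverage_fun_add hs hr, circleAverage_fun_sum hi]
  congr 1
  · exact Finset.sum_congr rfl fun i _ => circleAverage_ca ht (a i)
  · have hd : DiffContOnCl ℂ g (ball 0 |t|) := by
      rw [abs_of_pos ht]
      apply DifferentiableOn.diffContOnCl
      rw [closure_ball _ ht.ne']
      exact hg.mono hsub
    have h2 := Complex.reCLM.circleAverage_comp_comm (f := g) (c := 0) (R := t) hgc.circleIntegrable'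
    rw [hd.circleAverage] at h2
    exact h2

theorem mean_abs_le (hF : Differentiable ℂ F)
    (hfac : ∀ z ∈ ball (0 : ℂ) R1, F z = (∏ i ∈ S, (z - a i)) * Complex.exp (g z))
    {t : ℝ} (ht : 1 ≤ t) (htR : t < R1) :
    circleAverage (fun z => |(g z).re + ∑ i ∈ S, ca t (a i)|) 0 t ≤
      circleAverage (fun z => |Real.log ‖F z‖|) 0 t + S.card * (2 * Real.log 2) := by
  have ht0 : 0 < t := by linarith
  have hsub : closedBall (0 : ℂ) t ⊆ ball 0 R1 := closedBall_subset_ball htR
  have e1 : circleAverage (fun z => |(g z).re + ∑ i ∈ S, ca t (a i)|) 0 t =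
      circleAverage (fun z => |Real.log ‖F z‖ - ∑ i ∈ S, (Real.log ‖z - a i‖ - ca t (a i))|) 0 t := by
    apply circleAverage_congr_codiscreteWithin _ ht0.ne'
    filter_upwards [codisc S a t, Filter.self_mem_codiscreteWithin (sphere (0 : ℂ) |t|)] with z hz hz2
    rw [abs_of_pos ht0] at hz2
    rw [log_norm_fac hfac (hsub (sphere_subset_closedBall hz2)) hz, Finset.sum_sub_distrib]
    congr 1
    ring
  have hFi : CircleIntegrable (fun z => Real.log ‖F z‖) 0 t := by
    apply MeromorphicOn.circleIntegrable_log_norm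
    intro z _
    exact (hF.analyticAt z).meromorphicAt
  have hi : ∀ i ∈ S, CircleIntegrable (fun z => Real.log ‖z - a i‖ - ca t (a i)) 0 t := fun i _ =>
    (circleIntegrable_log_norm_sub_const t).sub (circleIntegrable_const _ _ _)
  have hia : ∀ i ∈ S, CircleIntegrable (fun z => |Real.log ‖z - a i‖ - ca t (a i)|) 0 t :=
    fun i hi' => (hi i hi').abs
  have hs : CircleIntegrable (fun z => ∑ i ∈ S, (Real.log ‖z - a i‖ - ca t (a i))) 0 t := by
    have := CircleIntegrable.sum S hi
    convert this using 1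
    funext z
    simp
  have hsa : CircleIntegrable (fun z => ∑ i ∈ S, |Real.log ‖z - a i‖ - ca t (a i)|) 0 t := by
    have := CircleIntegrable.sum S hia
    convert this using 1
    funext z
    simp
  have h2 : circleAverage (fun z => |Real.log ‖F z‖ -
      ∑ i ∈ S, (Real.log ‖z - a i‖ - ca t (a i))|) 0 t ≤
      circleAverage (fun z => |Real.log ‖F z‖| + ∑ i ∈ S, |Real.log ‖z - a i‖ - ca t (a i)|) 0 t := by
    apply circleAverage_mono (hFi.sub hs).abs (hFi.abs.add hsa)
    intro z _
    calc |Real.log ‖F z‖ - ∑ i ∈ S, (Real.log ‖z - a i‖ - ca t (a i))|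
        ≤ |Real.log ‖F z‖| + |∑ i ∈ S, (Real.log ‖z - a i‖ - ca t (a i))| := abs_sub _ _
      _ ≤ |Real.log ‖F z‖| + ∑ i ∈ S, |Real.log ‖z - a i‖ - ca t (a i)| := by
          gcongr
          exact Finset.abs_sum_le_sum_abs _ _
  rw [e1]
  refine h2.trans ?_
  have hFa : CircleIntegrable (fun z => |Real.log ‖F z‖|) 0 t := hFi.abs
  rw [circleAverage_fun_add hFa hsa, circleAverage_fun_sum hia]
  gcongr
  calc ∑ i ∈ S, circleAverage (fun z => |Real.log ‖z - a i‖ - ca t (a i)|) 0 t
      ≤ ∑ _i ∈ S, 2 * Real.log 2 := Finset.sum_le_sum fun i _ => circleAverage_abs_log_sub ht (a i)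
    _ = S.card * (2 * Real.log 2) := by rw [Finset.sum_const, nsmul_eq_mul]

end fac

theorem ca_eq {t : ℝ} (ht : 0 < t) (a : ℂ) : ca t a = Real.log (max t ‖a‖) := by
  unfold ca
  rw [Real.posLog_eq_log_max_one (by positivity), ← Real.log_mul ht.ne'
    (lt_of_lt_of_le one_pos (le_max_left _ _)).ne', mul_max_of_nonneg _ _ ht.le, mul_one]
  congr 2
  field_simp

/-- **Local representation** of an entire function on a disc, with all the quantitative data. -/
theorem local_rep {F : ℂ → ℂ} (hF : Differentiable ℂ F) {z0 : ℂ} (hz0 : F z0 ≠ 0) {R R' : ℝ}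
    (hR : 1 ≤ R) (hRR' : R < R') :
    ∃ (n : ℕ) (c : ℕ → ℂ),
      (n : ℝ) * Real.log (R' / R) ≤ circleAverage (fun z => Real.log ‖F z‖) 0 R' -
        circleAverage (fun z => Real.log ‖F z‖) 0 R ∧
      (∀ t, 1 ≤ t → t ≤ R → ∀ m, 1 ≤ m → ‖c m‖ * t ^ m ≤
        2 * circleAverage (fun z => |Real.log ‖F z‖|) 0 t + n * (4 * Real.log 2)) ∧
      ∀ z : ℂ, ‖z‖ ≤ R → ∃ w : ℂ, HasSum (fun m => c (m + 1) * z ^ (m + 1)) w ∧
        ‖F z‖ ≤ Real.exp (n * Real.log 2 + circleAverage (fun z => Real.log ‖F z‖) 0 R + w.re) := by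
  classical
  have hR0 : 0 < R := by linarith
  have hR'0 : 0 < R' := by linarith
  obtain ⟨n', a, h, ha, hh, hfac, hne⟩ := exists_factor' hF hz0 hR'0.le
  obtain ⟨g', R1', hR1', hg', hexp'⟩ := exists_log hh hR'0 hne
  have hfac' : ∀ z ∈ ball (0 : ℂ) R1', F z = (∏ i ∈ Finset.univ, (z - a i)) * Complex.exp (g' z) := by
    intro z hz
    rw [hfac z, hexp' z hz]
  set S : Finset (Fin n') := Finset.univ.filter (fun i => ‖a i‖ ≤ R) with hS
  set h2 : ℂ → ℂ := fun z => (∏ i ∈ Sᶜ, (z - a i)) * h z with hh2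
  have hh2d : Differentiable ℂ h2 := by
    apply Differentiable.mul _ hh
    apply Differentiable.fun_finsetProd
    intro i _
    exact differentiable_id.sub_const _
  have hh2ne : ∀ z, ‖z‖ ≤ R → h2 z ≠ 0 := by
    intro z hz
    apply mul_ne_zero
    · apply Finset.prod_ne_zero_iff.mpr
      intro i hi h0
      rw [Finset.mem_compl, hS, Finset.mem_filter, not_and] at hi
      apply hi (Finset.mem_univ _)
      rw [← sub_eq_zero.mp h0]
      exact hz
    · exact hne z (by linarith)
  obtain ⟨g, R1, hR1, hg, hexp⟩ := exists_log hh2d hR0 hh2ne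
  have hfac2 : ∀ z ∈ ball (0 : ℂ) R1, F z = (∏ i ∈ S, (z - a i)) * Complex.exp (g z) := by
    intro z hz
    rw [hfac z, ← hexp z hz, hh2, ← Finset.prod_mul_prod_compl S]
    ring
  have hmR : circleAverage (fun z => Real.log ‖F z‖) 0 R = S.card * Real.log R + (g 0).re := by
    rw [mean_log hg hfac2 hR0 hR1]
    congr 1
    rw [← nsmul_eq_mul, ← Finset.sum_const]
    apply Finset.sum_congr rfl
    intro i hi
    rw [hS, Finset.mem_filter] at hi
    rw [ca_eq hR0, max_eq_left hi.2]
  refine ⟨S.card, fun m => (m.factorial : ℂ)⁻¹ * iteratedDeriv m g 0, ?_, ?_, ?_⟩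
  · rw [mean_log hg' hfac' hR'0 hR1', mean_log hg' hfac' hR0 (hRR'.trans hR1')]
    have e : (∑ i, ca R' (a i) + (g' 0).re) - (∑ i, ca R (a i) + (g' 0).re) =
        ∑ i, (ca R' (a i) - ca R (a i)) := by
      rw [Finset.sum_sub_distrib]; ring
    rw [e]
    calc (S.card : ℝ) * Real.log (R' / R) = ∑ _i ∈ S, Real.log (R' / R) := by
          rw [Finset.sum_const, nsmul_eq_mul]
      _ = ∑ i ∈ S, (ca R' (a i) - ca R (a i)) := by
          apply Finset.sum_congr rfl
          intro i hi
          rw [hS, Finset.mem_filter] at hi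
          rw [ca_eq hR0, ca_eq hR'0, max_eq_left hi.2, max_eq_left (hi.2.trans hRR'.le),
            Real.log_div hR'0.ne' hR0.ne']
      _ ≤ ∑ i, (ca R' (a i) - ca R (a i)) := by
          apply Finset.sum_le_sum_of_subset_of_nonneg (Finset.subset_univ _)
          intro i _ _
          rw [ca_eq hR0, ca_eq hR'0, sub_nonneg]
          apply Real.log_le_log (lt_of_lt_of_le hR0 (le_max_left _ _))
          exact max_le_max hRR'.le le_rfl
  · intro t ht htR m hm
    have ht0 : 0 < t := by linarith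
    have h1 := coef_le ht0 (lt_of_le_of_lt htR hR1) hg hm (∑ i ∈ S, ca t (a i))
    have h3 := mean_abs_le hF hfac2 ht (lt_of_le_of_lt htR hR1)
    linarith
  · intro z hz
    have hzb : z ∈ ball (0 : ℂ) R1 := by
      rw [mem_ball_zero_iff]; linarith
    have h1 := Complex.hasSum_taylorSeries_on_ball hg hzb
    rw [← hasSum_nat_add_iff' 1] at h1
    simp only [Finset.range_one, Finset.sum_singleton, sub_zero, Nat.factorial_zero, Nat.cast_one,
      inv_one, pow_zero, iteratedDeriv_zero, one_smul] at h1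
    refine ⟨g z - g 0, ?_, ?_⟩
    · have e : (fun m : ℕ => (((m + 1).factorial : ℂ)⁻¹ * iteratedDeriv (m + 1) g 0) * z ^ (m + 1)) =
          fun n : ℕ => (((n + 1).factorial : ℂ)⁻¹) • z ^ (n + 1) • iteratedDeriv (n + 1) g 0 := by
        funext m
        simp only [smul_eq_mul]
        ring
      rw [e]
      exact h1
    · rw [hfac2 z hzb, norm_mul, Complex.norm_exp, norm_prod, hmR, Complex.sub_re]
      have h4 : ∏ i ∈ S, ‖z - a i‖ ≤ (2 * R) ^ S.card := by
        rw [← Finset.prod_const]
        apply Finset.prod_le_prod (fun _ _ => norm_nonneg _)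
        intro i hi
        rw [hS, Finset.mem_filter] at hi
        have := norm_sub_le z (a i)
        linarith [hi.2]
      calc (∏ i ∈ S, ‖z - a i‖) * Real.exp (g z).re ≤ (2 * R) ^ S.card * Real.exp (g z).re := by
            gcongr
        _ = Real.exp (S.card * Real.log (2 * R)) * Real.exp (g z).re := by
            rw [Real.exp_nat_mul, Real.exp_log (by positivity)]
        _ = _ := by
            rw [← Real.exp_add, Real.log_mul (by norm_num) hR0.ne']
            congr 1
            ring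

end Helper787.Gap
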