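import Mathlib
import Pool.Agent.Helper787.GapA
import Pool.Agent.Helper787.GapB

set_option autoImplicit false
open Finset Metric Real

namespace Helper787.Gap

/-- maximum modulus -/
noncomputable def Mx (F : ℂ → ℂ) (r : ℝ) : ℝ := sSup ((fun z => ‖F z‖) '' closedBall 0 r)

theorem bddAbove_Mx {F : ℂ → ℂ} (hF : Continuous F) (r : ℝ) :
    BddAbove ((fun z => ‖F z‖) '' closedBall 0 r) :=
  (isCompact_closedBall (0 : ℂ) r).bddAbove_image hF.norm.continuousOn

theorem le_Mx {F : ℂ → ℂ} (hF : Continuous F) {r : ℝ} {z : ℂ} (hz : ‖z‖ ≤ r) :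
    ‖F z‖ ≤ Mx F r :=
  le_csSup (bddAbove_Mx hF r) ⟨z, by simpa using hz, rfl⟩

theorem Mx_le {F : ℂ → ℂ} {r C : ℝ} (hr : 0 ≤ r) (h : ∀ z : ℂ, ‖z‖ ≤ r → ‖F z‖ ≤ C) :
    Mx F r ≤ C := by
  apply csSup_le
  · exact ⟨_, 0, by simpa using hr, rfl⟩
  · rintro _ ⟨z, hz, rfl⟩
    exact h z (by simpa using hz)

theorem Mx_mono {F : ℂ → ℂ} (hF : Continuous F) {r s : ℝ} (hr : 0 ≤ r) (hrs : r ≤ s) :
    Mx F r ≤ Mx F s :=
  Mx_le hr fun _ hz => le_Mx hF (hz.trans hrs)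

theorem Mx_tendsto {F : ℂ → ℂ} (hF : Differentiable ℂ F) {z w : ℂ} (hzw : F z ≠ F w) :
    Filter.Tendsto (Mx F) Filter.atTop Filter.atTop := by
  rw [Filter.tendsto_atTop_atTop]
  by_contra hcon
  push Not at hcon
  obtain ⟨C, hC⟩ := hcon
  apply hzw
  apply hF.apply_eq_apply_of_bounded
  rw [isBounded_iff_forall_norm_le]
  refine ⟨C, ?_⟩
  rintro _ ⟨x, rfl⟩
  obtain ⟨a, ha, haC⟩ := hC ‖x‖
  exact (le_Mx hF.continuous ha).trans haC.le

/-- discrete Polya peaks -/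
theorem peaks {x : ℕ → ℝ} {j1 : ℕ} (hx : ∀ j, j1 ≤ j → 0 < x j) {A1 A2 : ℝ} (hA1 : 0 < A1)
    (hA : A1 ≤ A2) (h2 : Filter.Tendsto (fun j => x j / A2 ^ j) Filter.atTop (nhds 0))
    (h1 : ∀ (C : ℝ) (j0 : ℕ), ∃ j, j0 ≤ j ∧ C < x j / A1 ^ j) (j0 : ℕ) :
    ∃ j, j0 ≤ j ∧ (∀ i, j ≤ i → x i ≤ x j * A2 ^ (i - j)) ∧
      ∀ i, i ≤ j → x i * A1 ^ (j - i) ≤ x j := by
  classical
  have hA2 : 0 < A2 := lt_of_lt_of_le hA1 hA
  wlog hj : j1 ≤ j0 generalizing j0 with H
  · obtain ⟨j, hj, hj2⟩ := H j1 le_rfl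
    exact ⟨j, by omega, hj2⟩
  obtain ⟨i0, hi0m, hi0⟩ := Finset.exists_max_image (Finset.range (j0 + 1)) (fun i => x i / A1 ^ i)
    ⟨0, by simp⟩
  set C := x i0 / A1 ^ i0 with hC
  have hex : ∃ i, j0 ≤ i ∧ C < x i / A1 ^ i := h1 C j0
  set i1 := Nat.find hex with hi1
  obtain ⟨s1, s2⟩ := Nat.find_spec hex
  rw [← hi1] at s1 s2
  have hrec : ∀ i, i < i1 → x i / A1 ^ i ≤ x i1 / A1 ^ i1 := by
    intro i hi
    have hm := Nat.find_min hex hi
    by_cases hij : j0 ≤ i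
    · have : ¬ C < x i / A1 ^ i := fun h => hm ⟨hij, h⟩
      push Not at this
      exact this.trans s2.le
    · have := hi0 i (by rw [Finset.mem_range]; omega)
      exact this.trans s2.le
  have hxi1 : 0 < x i1 / A2 ^ i1 := div_pos (hx i1 (by omega)) (by positivity)
  obtain ⟨J, hJ⟩ := (Filter.eventually_atTop.mp (h2.eventually_lt_const hxi1))
  obtain ⟨j, hjm, hjmax⟩ := Finset.exists_max_image (Finset.Icc i1 (max i1 J))
    (fun i => x i / A2 ^ i) ⟨i1, by rw [Finset.mem_Icc]; exact ⟨le_rfl, le_max_left _ _⟩⟩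
  rw [Finset.mem_Icc] at hjm
  have hjall : ∀ i, i1 ≤ i → x i / A2 ^ i ≤ x j / A2 ^ j := by
    intro i hi
    by_cases hiJ : i ≤ max i1 J
    · exact hjmax i (by rw [Finset.mem_Icc]; exact ⟨hi, hiJ⟩)
    · push Not at hiJ
      have a1 := hJ i (by have := le_max_right i1 J; omega)
      have a2 := hjmax i1 (by rw [Finset.mem_Icc]; exact ⟨le_rfl, le_max_left _ _⟩)
      exact a1.le.trans a2
  have hxj : 0 < x j := hx j (by omega)
  have hmid : ∀ i, i1 ≤ i → i ≤ j → x i * A1 ^ (j - i) ≤ x j := by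
    intro i hi hij
    have a1 := hjall i hi
    rw [div_le_div_iff₀ (by positivity) (by positivity)] at a1
    have e : A2 ^ j = A2 ^ i * A2 ^ (j - i) := by rw [← pow_add]; congr 1; omega
    rw [e] at a1
    have a2 : x i * A2 ^ (j - i) ≤ x j := by
      have hp : 0 < A2 ^ i := by positivity
      have : (x i * A2 ^ (j - i)) * A2 ^ i ≤ x j * A2 ^ i := by nlinarith
      exact le_of_mul_le_mul_right this hp
    have hxi : 0 < x i := hx i (by omega)
    have a3 : A1 ^ (j - i) ≤ A2 ^ (j - i) := pow_le_pow_left₀ hA1.le hA _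
    exact (mul_le_mul_of_nonneg_left a3 hxi.le).trans a2
  refine ⟨j, by omega, ?_, ?_⟩
  · intro i hi
    have a1 := hjall i (by omega)
    rw [div_le_div_iff₀ (by positivity) (by positivity)] at a1
    have e : A2 ^ i = A2 ^ j * A2 ^ (i - j) := by rw [← pow_add]; congr 1; omega
    rw [e] at a1
    have hp : 0 < A2 ^ j := by positivity
    have : x i * A2 ^ j ≤ (x j * A2 ^ (i - j)) * A2 ^ j := by nlinarith
    exact le_of_mul_le_mul_right this hp
  · intro i hi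
    by_cases hi1' : i1 ≤ i
    · exact hmid i hi1' hi
    · push Not at hi1'
      have a1 := hrec i hi1'
      rw [div_le_div_iff₀ (by positivity) (by positivity)] at a1
      have e : A1 ^ i1 = A1 ^ i * A1 ^ (i1 - i) := by rw [← pow_add]; congr 1; omega
      rw [e] at a1
      have hp : 0 < A1 ^ i := by positivity
      have a2 : x i * A1 ^ (i1 - i) ≤ x i1 := by
        have : (x i * A1 ^ (i1 - i)) * A1 ^ i ≤ x i1 * A1 ^ i := by nlinarith
        exact le_of_mul_le_mul_right this hp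
      have a3 := hmid i1 le_rfl (by omega)
      have e2 : A1 ^ (j - i) = A1 ^ (i1 - i) * A1 ^ (j - i1) := by
        rw [← pow_add]; congr 1; omega
      rw [e2, ← mul_assoc]
      exact (mul_le_mul_of_nonneg_right a2 (by positivity)).trans a3


theorem hasSum_bound {q0 : ℕ} {Z W : ℝ} :
    HasSum (fun m : ℕ => (if m < q0 then Z else 0) + W * (1 / 2 : ℝ) ^ m) (q0 * Z + 2 * W) := by
  have h1 : HasSum (fun m : ℕ => if m < q0 then Z else 0) (∑ m ∈ Finset.range q0,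
      if m < q0 then Z else 0) := by
    apply hasSum_sum_of_ne_finset_zero
    intro m hm
    rw [Finset.mem_range] at hm
    simp [hm]
  have h2 : ∑ m ∈ Finset.range q0, (if m < q0 then Z else 0) = q0 * Z := by
    rw [Finset.sum_congr rfl (g := fun _ => Z) (fun m hm => by
      rw [Finset.mem_range] at hm; simp [hm])]
    simp
  rw [h2] at h1
  have h3 : HasSum (fun m : ℕ => W * (1 / 2 : ℝ) ^ m) (W * 2) := by
    have := hasSum_geometric_two.mul_left W
    simpa using this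
  have := h1.add h3
  convert this using 1
  ring

/-- the estimate at a peak -/
theorem peak_est {F : ℂ → ℂ} (hF : Differentiable ℂ F) {z0 : ℂ} (hz0 : F z0 ≠ 0) {B : ℝ → ℝ}
    (hH1 : ∀ ε : ℝ, 0 < ε → ∃ T0 : ℝ, ∀ t, T0 ≤ t →
      |circleAverage (fun z => Real.log ‖F z‖) 0 t| ≤ ε * B t)
    (hH2 : ∃ T0 : ℝ, ∀ t, T0 ≤ t → circleAverage (fun z => |Real.log ‖F z‖|) 0 t ≤ 4 * B t)
    {ρ η ρ1 : ℝ} (hη : 0 < η) (hρ : 0 ≤ ρ) (hq1 : ρ + 2 * η ≤ (⌊ρ⌋₊ : ℝ) + 1)
    (hlow : ∀ m : ℕ, 1 ≤ m → m ≤ ⌊ρ⌋₊ → (m : ℝ) ≠ ρ → (m : ℝ) ≤ ρ - 2 * η)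
    (hρ1 : ρ - η ≤ ρ1) {ε : ℝ} (hε : 0 < ε) :
    ∃ K0 : ℝ, ∀ K, K0 ≤ K → ∃ J : ℕ, ∀ j, J ≤ j →
      B (K ^ (j + 1)) ≤ K ^ (ρ + η) * B (K ^ j) →
      B (K ^ (j + 2)) ≤ (K ^ (ρ + η)) ^ 2 * B (K ^ j) →
      B (K ^ (j - 1)) * K ^ ρ1 ≤ B (K ^ j) → 0 < B (K ^ j) →
      ∃ A : ℂ, (A ≠ 0 → (⌊ρ⌋₊ : ℝ) = ρ ∧ 1 ≤ ⌊ρ⌋₊) ∧ ∀ z : ℂ, ‖z‖ ≤ K ^ j →
        ‖F z‖ ≤ Real.exp ((A * z ^ ⌊ρ⌋₊).re + ε * B (K ^ j)) := by
  set q0 : ℕ := ⌊ρ⌋₊ with hq0
  -- choice of K
  set c1 : ℝ := 8 * q0 + 16 * 2 ^ q0 with hc1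
  have hc1pos : 0 < c1 := by positivity
  have hlim : Filter.Tendsto (fun K : ℝ => c1 * K ^ (-η)) Filter.atTop (nhds (c1 * 0)) :=
    (tendsto_rpow_neg_atTop hη).const_mul c1
  rw [mul_zero] at hlim
  obtain ⟨K1, hK1⟩ := Filter.eventually_atTop.mp (hlim.eventually_lt_const (half_pos hε))
  refine ⟨max K1 3, ?_⟩
  intro K hK
  have hK3 : 3 ≤ K := (le_max_right _ _).trans hK
  have hKη := hK1 K ((le_max_left _ _).trans hK)
  have hK0 : 0 < K := by linarith
  have hK1' : 1 ≤ K := by linarith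
  have hlogK : 1 ≤ Real.log K := by
    rw [Real.le_log_iff_exp_le hK0]
    linarith [Real.exp_one_lt_d9]
  set P : ℝ := K ^ (ρ + η) with hP
  have hP0 : 0 < P := Real.rpow_pos_of_pos hK0 _
  have hP1 : 1 ≤ P := Real.one_le_rpow hK1' (by linarith)
  -- total constant for the small errors
  set c2 : ℝ := 2 * P ^ 2 * (1 + 3 * q0 * K ^ q0 + 6 * 2 ^ q0) + P with hc2
  have hc2pos : 0 < c2 := by positivity
  obtain ⟨T1, hT1⟩ := hH1 (ε / 2 / c2) (by positivity)
  obtain ⟨T2, hT2⟩ := hH2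
  -- choice of J
  obtain ⟨J0, hJ0⟩ := pow_unbounded_of_one_lt (max T1 T2) (show 1 < K by linarith)
  refine ⟨J0 + 1, ?_⟩
  intro j hj hp1 hp2 hp3 hpos
  have hpowmono : ∀ a b : ℕ, a ≤ b → K ^ a ≤ K ^ b := fun a b h => pow_le_pow_right₀ hK1' h
  have hT : ∀ i, J0 ≤ i → max T1 T2 ≤ K ^ i := fun i hi => hJ0.le.trans (hpowmono _ _ hi)
  have hone : ∀ i : ℕ, 1 ≤ K ^ i := fun i => one_le_pow₀ hK1'
  have hR : 1 ≤ K ^ (j + 1) := hone _
  have hRR' : K ^ (j + 1) < K ^ (j + 2) := pow_lt_pow_right₀ (by linarith) (by omega)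
  obtain ⟨n, c, hn, hc, hrep⟩ := local_rep hF hz0 hR hRR'
  set x : ℝ := B (K ^ j) with hx
  set ε' : ℝ := ε / 2 / c2 with hε'
  have hε'0 : 0 < ε' := by positivity
  have hn0 : (0 : ℝ) ≤ n := Nat.cast_nonneg n
  -- bound on n
  have hKq : K ^ (j + 2) / K ^ (j + 1) = K := by
    rw [pow_succ K (j + 1)]
    field_simp
  have hnb : (n : ℝ) ≤ ε' * (2 * P ^ 2) * x := by
    rw [hKq] at hn
    have a1 := hT1 (K ^ (j + 2)) ((le_max_left _ _).trans (hT _ (by omega)))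
    have a2 := hT1 (K ^ (j + 1)) ((le_max_left _ _).trans (hT _ (by omega)))
    rw [abs_le] at a1 a2
    have a3 : (n : ℝ) ≤ n * Real.log K := by nlinarith
    have a4 : ε' * B (K ^ (j + 2)) ≤ ε' * (P ^ 2 * x) := by gcongr
    have a5 : ε' * B (K ^ (j + 1)) ≤ ε' * (P * x) := by gcongr
    have a6 : P * x ≤ P ^ 2 * x := by
      have : P ≤ P ^ 2 := by nlinarith
      gcongr
    nlinarith
  have hmean : |circleAverage (fun z => Real.log ‖F z‖) 0 (K ^ (j + 1))| ≤ ε' * (P * x) := by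
    have a2 := hT1 (K ^ (j + 1)) ((le_max_left _ _).trans (hT _ (by omega)))
    refine a2.trans ?_
    gcongr
  have hl2 : Real.log 2 ≤ 3 / 4 := by linarith [Real.log_two_lt_d9]
  have hl2' : 0 ≤ Real.log 2 := Real.log_nonneg (by norm_num)
  -- coefficient bounds
  have hcR : ∀ m, 1 ≤ m → ‖c m‖ * (K ^ (j + 1)) ^ m ≤ 8 * (P * x) + 3 * n := by
    intro m hm
    have a1 := hc (K ^ (j + 1)) hR le_rfl m hm
    have a2 := hT2 (K ^ (j + 1)) ((le_max_right _ _).trans (hT _ (by omega)))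
    nlinarith
  have hcr : ∀ m, 1 ≤ m → ‖c m‖ * (K ^ (j - 1)) ^ m ≤ 8 * B (K ^ (j - 1)) + 3 * n := by
    intro m hm
    have a1 := hc (K ^ (j - 1)) (hone _) (hpowmono _ _ (by omega)) m hm
    have a2 := hT2 (K ^ (j - 1)) ((le_max_right _ _).trans (hT _ (by omega)))
    nlinarith
  -- Z and W
  set κ : ℝ := K ^ (-η) with hκ
  have hκ0 : 0 < κ := Real.rpow_pos_of_pos hK0 _
  set Z : ℝ := 8 * κ * x + 3 * K ^ q0 * n with hZ
  set W : ℝ := (8 * κ * x + 3 * n) * 2 ^ q0 with hW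
  have hZ0 : 0 ≤ Z := by positivity
  have hW0 : 0 ≤ W := by positivity
  have hr0 : 0 ≤ K ^ j := by positivity
  -- low terms
  have hlowt : ∀ m : ℕ, 1 ≤ m → m ≤ q0 → (m : ℝ) ≠ ρ → ‖c m‖ * (K ^ j) ^ m ≤ Z := by
    intro m hm hmq hmρ
    have a1 := hcr m hm
    have e1 : (K ^ j) ^ m = K ^ m * (K ^ (j - 1)) ^ m := by
      rw [← mul_pow, ← pow_succ']
      congr 2
      omega
    have a2 : K ^ m ≤ K ^ q0 := hpowmono _ _ hmq
    have a3 : (K : ℝ) ^ m * B (K ^ (j - 1)) ≤ κ * x := by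
      have b1 := hlow m hm hmq hmρ
      have b2 : (K : ℝ) ^ m ≤ κ * K ^ ρ1 := by
        rw [hκ, ← Real.rpow_add hK0, ← Real.rpow_natCast]
        apply Real.rpow_le_rpow_of_exponent_le hK1'
        linarith
      rcases le_or_gt 0 (B (K ^ (j - 1))) with hb | hb
      · calc (K : ℝ) ^ m * B (K ^ (j - 1)) ≤ (κ * K ^ ρ1) * B (K ^ (j - 1)) := by gcongr
          _ = κ * (B (K ^ (j - 1)) * K ^ ρ1) := by ring
          _ ≤ κ * x := by gcongr
      · have : (K : ℝ) ^ m * B (K ^ (j - 1)) ≤ 0 :=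
          mul_nonpos_of_nonneg_of_nonpos (by positivity) hb.le
        have h2 : 0 ≤ κ * x := by positivity
        linarith
    calc ‖c m‖ * (K ^ j) ^ m = K ^ m * (‖c m‖ * (K ^ (j - 1)) ^ m) := by rw [e1]; ring
      _ ≤ K ^ m * (8 * B (K ^ (j - 1)) + 3 * n) := by gcongr
      _ = 8 * (K ^ m * B (K ^ (j - 1))) + 3 * K ^ m * n := by ring
      _ ≤ 8 * (κ * x) + 3 * K ^ q0 * n := by gcongr
      _ = Z := by rw [hZ]; ring
  -- high terms
  have hhigh : ∀ m : ℕ, q0 ≤ m → ‖c (m + 1)‖ * (K ^ j) ^ (m + 1) ≤ W * (1 / 2) ^ m := by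
    intro m hm
    have a1 := hcR (m + 1) (by omega)
    have e1 : (K ^ (j + 1)) ^ (m + 1) = K ^ (m + 1) * (K ^ j) ^ (m + 1) := by
      rw [← mul_pow, ← pow_succ']
    rw [e1] at a1
    have hKm : 0 < K ^ (m + 1) := by positivity
    have a2 : ‖c (m + 1)‖ * (K ^ j) ^ (m + 1) ≤ (8 * (P * x) + 3 * n) / K ^ (m + 1) := by
      rw [le_div_iff₀ hKm]
      linarith
    refine a2.trans ?_
    rw [div_le_iff₀ hKm]
    -- (8 P x + 3 n) ≤ W (1/2)^m K^(m+1)
    have a3 : (2 : ℝ) ^ m * K ^ (q0 + 1) ≤ 2 ^ q0 * K ^ (m + 1) := by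
      obtain ⟨d, rfl⟩ := Nat.exists_eq_add_of_le hm
      have b1 : (2 : ℝ) ^ d ≤ K ^ d := pow_le_pow_left₀ (by norm_num) (by linarith) _
      calc (2 : ℝ) ^ (q0 + d) * K ^ (q0 + 1) = 2 ^ q0 * K ^ (q0 + 1) * 2 ^ d := by ring
        _ ≤ 2 ^ q0 * K ^ (q0 + 1) * K ^ d := by gcongr
        _ = 2 ^ q0 * K ^ (q0 + d + 1) := by ring
    have a4 : P ≤ κ * K ^ (q0 + 1) := by
      rw [hP, hκ, ← Real.rpow_natCast, ← Real.rpow_add hK0]
      apply Real.rpow_le_rpow_of_exponent_le hK1'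
      push_cast
      linarith
    have a5 : 1 ≤ K ^ (q0 + 1) := one_le_pow₀ hK1'
    have a6 : 8 * (P * x) + 3 * n ≤ (8 * κ * x + 3 * n) * K ^ (q0 + 1) := by
      have b1 : 8 * (P * x) ≤ 8 * ((κ * K ^ (q0 + 1)) * x) := by gcongr
      have b2 : 3 * (n : ℝ) ≤ 3 * n * K ^ (q0 + 1) := by
        nlinarith
      nlinarith
    have hx0 : 0 ≤ 8 * κ * x + 3 * n := by positivity
    calc 8 * (P * x) + 3 * n ≤ (8 * κ * x + 3 * n) * K ^ (q0 + 1) := a6
      _ = (8 * κ * x + 3 * n) * ((2 ^ m * K ^ (q0 + 1)) * (1 / 2) ^ m) := by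
          rw [one_div, inv_pow]; field_simp
      _ ≤ (8 * κ * x + 3 * n) * ((2 ^ q0 * K ^ (m + 1)) * (1 / 2) ^ m) := by gcongr
      _ = W * (1 / 2) ^ m * K ^ (m + 1) := by rw [hW]; ring
  -- final bound of the error
  have htot : (n : ℝ) * Real.log 2 + ε' * (P * x) + (q0 * Z + 2 * W) ≤ ε * x := by
    have e1 : (n : ℝ) * Real.log 2 ≤ n := by nlinarith
    have e2 : (n : ℝ) + ε' * (P * x) + (q0 * Z + 2 * W) =
        (c1 * κ) * x + (n * (1 + 3 * q0 * K ^ q0 + 6 * 2 ^ q0) + ε' * P * x) := by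
      rw [hZ, hW, hc1]; ring
    have e3 : (n : ℝ) * (1 + 3 * q0 * K ^ q0 + 6 * 2 ^ q0) ≤
        (ε' * (2 * P ^ 2) * x) * (1 + 3 * q0 * K ^ q0 + 6 * 2 ^ q0) := by
      apply mul_le_mul_of_nonneg_right hnb
      positivity
    have e4 : (ε' * (2 * P ^ 2) * x) * (1 + 3 * q0 * K ^ q0 + 6 * 2 ^ q0) + ε' * P * x =
        (ε' * c2) * x := by rw [hc2]; ring
    have e5 : ε' * c2 = ε / 2 := by rw [hε']; field_simp
    have e6 : (c1 * κ) * x ≤ ε / 2 * x := by gcongr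
    rw [e5] at e4
    linarith
  -- conclusion
  by_cases hint : (q0 : ℝ) = ρ ∧ 1 ≤ q0
  · refine ⟨c q0, fun _ => hint, ?_⟩
    intro z hz
    obtain ⟨w, hw, hFw⟩ := hrep z (hz.trans (hpowmono _ _ (by omega)))
    refine hFw.trans (Real.exp_le_exp.mpr ?_)
    set m0 : ℕ := q0 - 1 with hm0
    have hm0' : m0 + 1 = q0 := by omega
    have hs1 : HasSum (fun m : ℕ => if m = m0 then c (m0 + 1) * z ^ (m0 + 1) else 0)
        (c (m0 + 1) * z ^ (m0 + 1)) := hasSum_ite_eq m0 _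
    have hs2 := hw.sub hs1
    have hb := hs2.norm_le_of_bounded (hasSum_bound (q0 := q0) (Z := Z) (W := W)) (by
      intro m
      by_cases hmm : m = m0
      · subst hmm
        simp only [if_true, sub_self, norm_zero]
        positivity
      · simp only [hmm, if_false, sub_zero]
        rw [norm_mul, norm_pow]
        have hzp : ‖c (m + 1)‖ * ‖z‖ ^ (m + 1) ≤ ‖c (m + 1)‖ * (K ^ j) ^ (m + 1) := by gcongr
        by_cases hmq : m < q0
        · rw [if_pos hmq]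
          have := hlowt (m + 1) (by omega) (by omega) (by
            intro h
            rw [← hint.1] at h
            have : m + 1 = q0 := by exact_mod_cast h
            omega)
          have h2 : 0 ≤ W * (1 / 2) ^ m := by positivity
          linarith
        · rw [if_neg hmq]
          have := hhigh m (by omega)
          linarith)
    rw [hm0'] at hb
    have h3 : w.re ≤ (c q0 * z ^ q0).re + (q0 * Z + 2 * W) := by
      have := (Complex.abs_re_le_norm (w - c q0 * z ^ q0)).trans hb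
      rw [Complex.sub_re] at this
      linarith [le_abs_self (w.re - (c q0 * z ^ q0).re)]
    have h4 := le_abs_self (circleAverage (fun z => Real.log ‖F z‖) 0 (K ^ (j + 1)))
    linarith
  · refine ⟨0, fun h => absurd rfl h, ?_⟩
    intro z hz
    obtain ⟨w, hw, hFw⟩ := hrep z (hz.trans (hpowmono _ _ (by omega)))
    refine hFw.trans (Real.exp_le_exp.mpr ?_)
    have hb := hw.norm_le_of_bounded (hasSum_bound (q0 := q0) (Z := Z) (W := W)) (by
      intro m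
      rw [norm_mul, norm_pow]
      have hzp : ‖c (m + 1)‖ * ‖z‖ ^ (m + 1) ≤ ‖c (m + 1)‖ * (K ^ j) ^ (m + 1) := by gcongr
      by_cases hmq : m < q0
      · rw [if_pos hmq]
        have := hlowt (m + 1) (by omega) (by omega) (by
          intro h
          apply hint
          -- m + 1 = ρ integer
          have h1 : ((m + 1 : ℕ) : ℝ) = ρ := h
          have h2 : q0 = m + 1 := by rw [hq0, ← h1, Nat.floor_natCast]
          exact ⟨by rw [h2]; exact h1, by omega⟩)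
        have h2 : 0 ≤ W * (1 / 2) ^ m := by positivity
        linarith
      · rw [if_neg hmq]
        have := hhigh m (by omega)
        linarith)
    have h3 : w.re ≤ (q0 * Z + 2 * W) := (Complex.re_le_norm w).trans hb
    have h4 := le_abs_self (circleAverage (fun z => Real.log ‖F z‖) 0 (K ^ (j + 1)))
    simp only [zero_mul, Complex.zero_re, zero_add]
    linarith

theorem ev_poly (C : ℝ) : ∃ X : ℝ, ∀ x, X ≤ x → C * (x + 1) ^ 5 < Real.exp (x / 2) := by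
  have h1 := (tendsto_pow_mul_exp_neg_atTop_nhds_zero 5).const_mul (|C| * 32 * Real.exp (1 / 2))
  rw [mul_zero] at h1
  obtain ⟨Y, hY⟩ := Filter.eventually_atTop.mp (h1.eventually_lt_const one_pos)
  refine ⟨max 1 (2 * Y), ?_⟩
  intro x hx
  have hx1 : 1 ≤ x := (le_max_left _ _).trans hx
  have hx2 : 2 * Y ≤ x := (le_max_right _ _).trans hx
  have h2 := hY ((x + 1) / 2) (by linarith)
  have h3 : Real.exp (x / 2) = Real.exp (1 / 2)⁻¹ * Real.exp (x / 2) / Real.exp (1 / 2)⁻¹ := by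
    field_simp
  have e1 : Real.exp ((x + 1) / 2) = Real.exp (x / 2) * Real.exp (1 / 2) := by
    rw [← Real.exp_add]; congr 1; ring
  have hp : 0 < Real.exp ((x + 1) / 2) := Real.exp_pos _
  have e2 : Real.exp (-((x + 1) / 2)) = (Real.exp ((x + 1) / 2))⁻¹ := Real.exp_neg _
  rw [e2] at h2
  have h4 : |C| * 32 * Real.exp (1 / 2) * ((x + 1) / 2) ^ 5 < Real.exp ((x + 1) / 2) := by
    have h5 := mul_lt_mul_of_pos_right h2 hp
    rw [one_mul] at h5
    calc |C| * 32 * Real.exp (1 / 2) * ((x + 1) / 2) ^ 5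
        = |C| * 32 * Real.exp (1 / 2) * (((x + 1) / 2) ^ 5 * (Real.exp ((x + 1) / 2))⁻¹) *
          Real.exp ((x + 1) / 2) := by field_simp
      _ < _ := h5
  rw [e1] at h4
  have h6 : (|C| * (x + 1) ^ 5) * Real.exp (1 / 2) < Real.exp (x / 2) * Real.exp (1 / 2) := by
    calc (|C| * (x + 1) ^ 5) * Real.exp (1 / 2)
        = |C| * 32 * Real.exp (1 / 2) * ((x + 1) / 2) ^ 5 := by ring
      _ < _ := h4
  have h7 : |C| * (x + 1) ^ 5 < Real.exp (x / 2) := lt_of_mul_lt_mul_right h6 (Real.exp_pos _).le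
  have h8 : C * (x + 1) ^ 5 ≤ |C| * (x + 1) ^ 5 := by
    gcongr
    exact le_abs_self C
  linarith

/-- Taylor coefficients -/
noncomputable def tc (F : ℂ → ℂ) (n : ℕ) : ℂ := (n.factorial : ℂ)⁻¹ * iteratedDeriv n F 0

theorem hasSum_tc {F : ℂ → ℂ} (hF : Differentiable ℂ F) (z : ℂ) :
    HasSum (fun n => tc F n * z ^ n) (F z) := by
  have := Complex.hasSum_taylorSeries_of_entire hF 0 z
  have e : (fun n : ℕ => tc F n * z ^ n) =
      fun n : ℕ => (n.factorial : ℂ)⁻¹ • (z - 0) ^ n • iteratedDeriv n F 0 := by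
    funext n
    simp only [smul_eq_mul, sub_zero, tc]
    ring
  rw [e]
  exact this

theorem tc_le {F : ℂ → ℂ} (hF : Differentiable ℂ F) {t : ℝ} (ht : 0 < t) (n : ℕ) :
    ‖tc F n‖ * t ^ n ≤ Mx F t := by
  have h1 := Complex.norm_iteratedDeriv_le_of_forall_mem_sphere_norm_le (C := Mx F t) n ht
    (hF.diffContOnCl (s := ball (0 : ℂ) t)) (fun z hz => le_Mx hF.continuous (by
      rw [mem_sphere_zero_iff_norm] at hz; exact hz.le))
  unfold tc
  rw [norm_mul, norm_inv, Complex.norm_natCast]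
  have hf : (0 : ℝ) < n.factorial := by exact_mod_cast Nat.factorial_pos n
  have htn : 0 < t ^ n := by positivity
  calc (n.factorial : ℝ)⁻¹ * ‖iteratedDeriv n F 0‖ * t ^ n
      ≤ (n.factorial : ℝ)⁻¹ * (n.factorial * Mx F t / t ^ n) * t ^ n := by gcongr
    _ = Mx F t := by field_simp

/-- the gap argument at one peak -/
theorem gap_step {F : ℂ → ℂ} (hF : Differentiable ℂ F) {L : Set ℕ}
    (hL : ∀ n, 1 ≤ n → n ∉ L → iteratedDeriv n F 0 = 0)
    {u v : ℕ} (hu : 0 < u) (hv : 0 < v) (huv : u ≤ v) {D : ℝ} (hD : D * v ≤ u)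
    (hdens : ∃ ξ₀ : ℝ, ξ₀ < 1 ∧ ∀ ξ : ℝ, ξ₀ < ξ → ξ < 1 → ∃ R : ℝ, ∀ r : ℝ, R ≤ r →
      ((Set.ncard {k : ℕ | ξ * r < (k : ℝ) ∧ (k : ℝ) ≤ r ∧ k ∈ L} : ℕ) : ℝ) ≤ D * (1 - ξ) * r)
    {K P A1 : ℝ} (hK : 3 ≤ K) (hP : 1 ≤ P) (hA1 : 0 < A1) {s : ℕ} (hs1 : 1 ≤ s)
    (hs : 16 ≤ A1 ^ s) :
    ∃ X : ℝ, ∀ j, s ≤ j → X ≤ Real.log (Mx F (K ^ j)) →
      Real.log (Mx F (K ^ (j + 1))) ≤ P * Real.log (Mx F (K ^ j)) →
      Real.log (Mx F (K ^ (j - s))) * A1 ^ s ≤ Real.log (Mx F (K ^ j)) →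
      0 < Mx F (K ^ (j - s)) →
      ∀ zc : ℂ, ‖zc‖ = K ^ j →
      (∀ θ ∈ Set.Icc (-(Real.pi * u / v)) (Real.pi * u / v),
        ‖F (zc * Complex.exp (θ * Complex.I))‖ ≤ 1) → False := by
  classical
  obtain ⟨s0, hs0, hsv⟩ := exists_s0 (u := u) hv
  obtain ⟨ξ₀, hξ₀, hden⟩ := hdens
  have hK0 : 0 < K := by linarith
  have hK1 : 1 ≤ K := by linarith
  have hlogK : 1 ≤ Real.log K := by
    rw [Real.le_log_iff_exp_le hK0]
    linarith [Real.exp_one_lt_d9]
  -- choice of ξ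
  set ξ : ℝ := max ((ξ₀ + 1) / 2) (1 - 1 / (4096 * P ^ 2)) with hξ
  have hPP : 0 < 1 / (4096 * P ^ 2) := by positivity
  have hPP2 : 1 / (4096 * P ^ 2) ≤ 1 / 2 := by
    rw [div_le_div_iff₀ (by positivity) (by norm_num)]
    nlinarith
  have hξ1 : ξ < 1 := max_lt (by linarith) (by linarith)
  have hξ0' : ξ₀ < ξ := lt_of_lt_of_le (by linarith) (le_max_left _ _)
  have hξh : 1 - 1 / (4096 * P ^ 2) ≤ ξ := le_max_right _ _
  have hξ0 : 1 / 2 ≤ ξ := by linarith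
  obtain ⟨R, hR⟩ := hden ξ hξ0' hξ1
  set R0 : ℝ := max R 2 with hR0
  have hR02 : 2 ≤ R0 := le_max_right _ _
  have hsqrt : Real.sqrt (1 - ξ) ≤ 1 / (64 * P) := by
    rw [Real.sqrt_le_left (by positivity)]
    calc 1 - ξ ≤ 1 / (4096 * P ^ 2) := by linarith
      _ = (1 / (64 * P)) ^ 2 := by field_simp; norm_num
  set Cs : ℝ := s * Real.log K with hCs
  have hs1' : (1 : ℝ) ≤ s := by exact_mod_cast hs1
  have hCs1 : 1 ≤ Cs := by nlinarith
  -- the polynomial constant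
  set Q : ℝ := P + 3 with hQ
  set Cp : ℝ := Real.exp Cs + 1 + (Real.pi / s0) * Q ^ 4 * Real.exp 1 * (3 * Real.exp Cs) with hCp
  obtain ⟨X1, hX1⟩ := ev_poly Cp
  refine ⟨max (max X1 1) (max (16 * Cs * R0) (1 / (1 - ξ))), ?_⟩
  intro j hsj hX hup hlo hposlo zc hzc harc
  set x : ℝ := Real.log (Mx F (K ^ j)) with hx
  have hx1 : 1 ≤ x := (le_max_right _ _).trans ((le_max_left _ _).trans hX)
  have hxX1 : X1 ≤ x := (le_max_left _ _).trans ((le_max_left _ _).trans hX)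
  have hxR : 16 * Cs * R0 ≤ x := (le_max_left _ _).trans ((le_max_right _ _).trans hX)
  have hxξ : 1 / (1 - ξ) ≤ x := (le_max_right _ _).trans ((le_max_right _ _).trans hX)
  have hMpos : 0 < Mx F (K ^ j) := by
    by_contra h
    push Not at h
    have h0 : 0 ≤ Mx F (K ^ j) := (norm_nonneg (F 0)).trans (le_Mx hF.continuous (by
      rw [norm_zero]; positivity))
    have : Mx F (K ^ j) = 0 := le_antisymm h h0
    rw [hx, this, Real.log_zero] at hx1
    linarith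
  have hMx : Mx F (K ^ j) = Real.exp x := by rw [hx, Real.exp_log hMpos]
  set r : ℝ := K ^ j with hr
  have hr0 : 0 < r := by positivity
  -- n1 and N
  set n1 : ℕ := ⌈x / (16 * Cs)⌉₊ with hn1
  set N : ℕ := ⌈P * x⌉₊ with hN
  have hn1a : x / (16 * Cs) ≤ n1 := Nat.le_ceil _
  have hn1b : (n1 : ℝ) < x / (16 * Cs) + 1 := Nat.ceil_lt_add_one (by positivity)
  have hNa : P * x ≤ N := Nat.le_ceil _
  have hNb : (N : ℝ) < P * x + 1 := Nat.ceil_lt_add_one (by positivity)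
  have hn1R : R0 ≤ n1 := by
    refine le_trans ?_ hn1a
    rw [le_div_iff₀ (by positivity)]
    linarith
  have hn11 : 1 ≤ n1 := by
    have : (1 : ℝ) ≤ n1 := by linarith
    exact_mod_cast this
  have hxC : x / (16 * Cs) ≤ x / 16 := by
    apply div_le_div_of_nonneg_left (by linarith) (by norm_num)
    nlinarith
  have hn1x : (n1 : ℝ) ≤ x + 1 := by linarith
  have hn1N : n1 ≤ N + 1 := by
    have h1 : (n1 : ℝ) < N + 1 := by nlinarith
    have h2 : n1 < N + 1 := by exact_mod_cast h1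
    omega
  -- coefficients
  set β : ℕ → ℝ := fun n => ‖tc F n‖ * r ^ n with hβ
  have hβ0 : ∀ n, 0 ≤ β n := fun n => by positivity
  -- low coefficients
  have hlowc : ∀ n, n < n1 → β n ≤ Real.exp (x / 8 + Cs) := by
    intro n hn
    have h1 := tc_le hF (t := K ^ (j - s)) (by positivity) n
    have e1 : r ^ n = (K ^ (j - s)) ^ n * (K ^ s) ^ n := by
      rw [hr, ← mul_pow, ← pow_add, Nat.sub_add_cancel hsj]
    have h2 : β n ≤ Mx F (K ^ (j - s)) * (K ^ s) ^ n := by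
      simp only [hβ]
      rw [e1, ← mul_assoc]
      gcongr
    have h3 : Mx F (K ^ (j - s)) ≤ Real.exp (x / 16) := by
      rw [← Real.log_le_iff_le_exp hposlo]
      have hAs : 0 < A1 ^ s := by positivity
      rcases le_or_gt 0 (Real.log (Mx F (K ^ (j - s)))) with hb | hb
      · have : Real.log (Mx F (K ^ (j - s))) * 16 ≤ Real.log (Mx F (K ^ (j - s))) * A1 ^ s := by
          gcongr
        linarith
      · have : 0 ≤ x / 16 := by linarith
        linarith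
    have h4 : (K ^ s) ^ n = Real.exp (n * Cs) := by
      rw [hCs, Real.exp_nat_mul, Real.exp_nat_mul, Real.exp_log hK0]
    have h5 : (n : ℝ) * Cs ≤ x / 16 + Cs := by
      have : (n : ℝ) ≤ x / (16 * Cs) + 1 := by
        have : (n : ℝ) < n1 := by exact_mod_cast hn
        linarith
      calc (n : ℝ) * Cs ≤ (x / (16 * Cs) + 1) * Cs := by gcongr
        _ = x / 16 + Cs := by field_simp
    calc β n ≤ Real.exp (x / 16) * Real.exp (n * Cs) := by rw [← h4]; exact h2.trans (by gcongr)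
      _ = Real.exp (x / 16 + n * Cs) := (Real.exp_add _ _).symm
      _ ≤ Real.exp (x / 8 + Cs) := Real.exp_le_exp.mpr (by linarith)
  set Lo : ℝ := n1 * Real.exp (x / 8 + Cs) with hLo
  have hLo0 : 0 ≤ Lo := by positivity
  have hlows : ∑ n ∈ Finset.range n1, β n ≤ Lo := by
    calc ∑ n ∈ Finset.range n1, β n ≤ ∑ _n ∈ Finset.range n1, Real.exp (x / 8 + Cs) :=
          Finset.sum_le_sum fun n hn => hlowc n (Finset.mem_range.mp hn)
      _ = Lo := by rw [Finset.sum_const, Finset.card_range, nsmul_eq_mul]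
  -- high coefficients
  have hMpos1 : 0 < Mx F (K ^ (j + 1)) :=
    lt_of_lt_of_le hMpos (Mx_mono hF.continuous hr0.le (pow_le_pow_right₀ hK1 (by omega)))
  have hhighc : ∀ n, β (n + (N + 1)) ≤ 1 / 2 * (1 / 3 : ℝ) ^ n := by
    intro n
    have h1 := tc_le hF (t := K ^ (j + 1)) (by positivity) (n + (N + 1))
    have h2 : Mx F (K ^ (j + 1)) ≤ Real.exp (P * x) := by
      rw [← Real.log_le_iff_le_exp hMpos1]; exact hup
    have e1 : (K ^ (j + 1)) ^ (n + (N + 1)) = K ^ (n + (N + 1)) * r ^ (n + (N + 1)) := by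
      rw [← mul_pow, hr, ← pow_succ']
    rw [e1] at h1
    have h3 : β (n + (N + 1)) * K ^ (n + (N + 1)) ≤ Real.exp (P * x) := by
      simp only [hβ]
      linarith
    have h4 : 2 * Real.exp (P * x) ≤ K ^ (N + 1) := by
      have h5 : Real.exp (P * x) ≤ K ^ N := by
        calc Real.exp (P * x) ≤ Real.exp (N * Real.log K) := by
              apply Real.exp_le_exp.mpr
              nlinarith
          _ = K ^ N := by rw [Real.exp_nat_mul, Real.exp_log hK0]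
      have h6 : 0 < K ^ N := by positivity
      rw [pow_succ]
      nlinarith
    have h7 : (3 : ℝ) ^ n ≤ K ^ n := pow_le_pow_left₀ (by norm_num) hK n
    have h8 : β (n + (N + 1)) * (3 ^ n * (2 * Real.exp (P * x))) ≤ Real.exp (P * x) := by
      calc β (n + (N + 1)) * (3 ^ n * (2 * Real.exp (P * x)))
          ≤ β (n + (N + 1)) * (K ^ n * K ^ (N + 1)) := by
            have := hβ0 (n + (N + 1))
            gcongr
        _ = β (n + (N + 1)) * K ^ (n + (N + 1)) := by rw [← pow_add]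
        _ ≤ _ := h3
    have hE : 0 < Real.exp (P * x) := Real.exp_pos _
    have h9 : β (n + (N + 1)) * (2 * 3 ^ n) ≤ 1 := by
      have : (β (n + (N + 1)) * (2 * 3 ^ n)) * Real.exp (P * x) ≤ 1 * Real.exp (P * x) := by
        linarith
      exact le_of_mul_le_mul_right this hE
    have h10 : (0 : ℝ) < 2 * 3 ^ n := by positivity
    calc β (n + (N + 1)) ≤ 1 / (2 * 3 ^ n) := by rw [le_div_iff₀ h10]; exact h9
      _ = 1 / 2 * (1 / 3 : ℝ) ^ n := by rw [one_div_pow]; field_simp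
  have hgeo : HasSum (fun n : ℕ => 1 / 2 * (1 / 3 : ℝ) ^ n) (1 / 2 * (1 - 1 / 3 : ℝ)⁻¹) :=
    (hasSum_geometric_of_lt_one (by norm_num) (by norm_num)).mul_left _
  -- splitting of F
  have hsplit : ∀ z : ℂ, ‖z‖ ≤ r → ‖F z - ∑ n ∈ Finset.range (N + 1), tc F n * z ^ n‖ ≤ 1 := by
    intro z hz
    have h1 := hasSum_tc hF z
    rw [← hasSum_nat_add_iff' (N + 1)] at h1
    have h2 := h1.norm_le_of_bounded hgeo (by
      intro n
      rw [norm_mul, norm_pow]
      refine le_trans ?_ (hhighc n)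
      simp only [hβ]
      gcongr)
    refine h2.trans ?_
    norm_num
  -- middle exponents
  set S : Finset ℕ := (Finset.Ico n1 (N + 1)).filter (fun n => n ∈ L) with hS
  have hzero : ∀ n ∈ Finset.Ico n1 (N + 1), n ∉ S → tc F n = 0 := by
    intro n hn hnS
    have h1 : n ∉ L := by
      intro h
      exact hnS (Finset.mem_filter.mpr ⟨hn, h⟩)
    rw [Finset.mem_Ico] at hn
    unfold tc
    rw [hL n (by omega) h1, mul_zero]
  have hmid : ∀ z : ℂ, ∑ n ∈ Finset.range (N + 1), tc F n * z ^ n =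
      ∑ n ∈ Finset.range n1, tc F n * z ^ n + ∑ n ∈ S, tc F n * z ^ n := by
    intro z
    rw [← Finset.sum_range_add_sum_Ico _ hn1N]
    congr 1
    symm
    apply Finset.sum_subset (Finset.filter_subset _ _)
    intro n hn hnS
    rw [hzero n hn hnS, zero_mul]
  have hlowz : ∀ z : ℂ, ‖z‖ ≤ r → ‖∑ n ∈ Finset.range n1, tc F n * z ^ n‖ ≤ Lo := by
    intro z hz
    refine (norm_sum_le _ _).trans (le_trans (Finset.sum_le_sum ?_) hlows)
    intro n _
    rw [norm_mul, norm_pow]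
    simp only [hβ]
    gcongr
  -- values on the arc
  set b : ℕ → ℂ := fun n => tc F n * zc ^ n with hb
  have hbn : ∀ n, ‖b n‖ = β n := by
    intro n
    simp only [hb, hβ]
    rw [norm_mul, norm_pow, hzc]
  have harc2 : ∀ θ ∈ Set.Icc (-(Real.pi * u / v)) (Real.pi * u / v),
      ‖∑ n ∈ S, b n * Complex.exp ((n : ℂ) * θ * Complex.I)‖ ≤ 2 + Lo := by
    intro θ hθ
    set z : ℂ := zc * Complex.exp (θ * Complex.I) with hz
    have hzn : ‖z‖ = r := by
      rw [hz, norm_mul, hzc, Complex.norm_exp_ofReal_mul_I, mul_one]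
    have e1 : ∑ n ∈ S, b n * Complex.exp ((n : ℂ) * θ * Complex.I) = ∑ n ∈ S, tc F n * z ^ n := by
      apply Finset.sum_congr rfl
      intro n _
      simp only [hb]
      rw [hz, mul_pow, ← Complex.exp_nat_mul, mul_assoc, mul_assoc (n : ℂ)]
    rw [e1]
    have h1 := hsplit z hzn.le
    rw [hmid z] at h1
    have h2 := hlowz z hzn.le
    have h3 : ‖F z‖ ≤ 1 := harc θ hθ
    calc ‖∑ n ∈ S, tc F n * z ^ n‖
        = ‖F z - (F z - (∑ n ∈ Finset.range n1, tc F n * z ^ n + ∑ n ∈ S, tc F n * z ^ n)) -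
          ∑ n ∈ Finset.range n1, tc F n * z ^ n‖ := by congr 1; ring
      _ ≤ ‖F z - (F z - (∑ n ∈ Finset.range n1, tc F n * z ^ n + ∑ n ∈ S, tc F n * z ^ n))‖ +
          ‖∑ n ∈ Finset.range n1, tc F n * z ^ n‖ := norm_sub_le _ _
      _ ≤ (‖F z‖ + ‖F z - (∑ n ∈ Finset.range n1, tc F n * z ^ n + ∑ n ∈ S, tc F n * z ^ n)‖) +
          ‖∑ n ∈ Finset.range n1, tc F n * z ^ n‖ := by
          gcongr
          exact norm_sub_le _ _
      _ ≤ 2 + Lo := by linarith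
  -- matching
  have hSprop : ∀ n ∈ S, n ∈ L ∧ R0 ≤ (n : ℝ) ∧ n ≤ N := by
    intro n hn
    rw [hS, Finset.mem_filter, Finset.mem_Ico] at hn
    refine ⟨hn.2, ?_, by omega⟩
    have : (n1 : ℝ) ≤ n := by exact_mod_cast hn.1.1
    linarith
  obtain ⟨k, hk1, hk2, hk3⟩ := matching hu hv huv hD (by linarith : 0 < ξ) hξ1 L (R0 := R0)
    (by nlinarith) (fun r' hr' => hR r' ((le_max_left _ _).trans hr')) S hSprop
  set d : ℝ := (1 - ξ) * N with hd
  have hd1 : 1 ≤ d := by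
    have h1 : 0 < 1 - ξ := by linarith
    have h2 : 1 / (1 - ξ) ≤ N := by
      have : x ≤ P * x := by nlinarith
      linarith
    rw [div_le_iff₀ h1] at h2
    rw [hd]
    linarith
  have hgap : ∀ n ∈ S, ‖b n‖ ≤ (Real.pi * (N + 1) * d ^ 2 / s0) *
      Real.exp (8 * Real.sqrt (d * N)) * (2 + Lo) := fun n hn =>
    gap_ineq hu hv huv S (fun i hi => (hSprop i hi).2.2) hk1 hk2 hd1 hk3 hs0 hsv b harc2 hn
  -- final estimate
  set G : ℝ := (Real.pi * (N + 1) * d ^ 2 / s0) * Real.exp (8 * Real.sqrt (d * N)) * (2 + Lo) with hG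
  have hG0 : 0 ≤ G := by positivity
  have hfin : Real.exp x ≤ Lo + (N + 1) * G + 1 := by
    rw [← hMx]
    apply Mx_le hr0.le
    intro z hz
    have h1 := hsplit z hz
    rw [hmid z] at h1
    have h2 := hlowz z hz
    have h3 : ‖∑ n ∈ S, tc F n * z ^ n‖ ≤ (N + 1) * G := by
      calc ‖∑ n ∈ S, tc F n * z ^ n‖ ≤ ∑ n ∈ S, ‖tc F n * z ^ n‖ := norm_sum_le _ _
        _ ≤ ∑ _n ∈ S, G := by
            apply Finset.sum_le_sum
            intro n hn
            refine le_trans ?_ (hgap n hn)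
            rw [hbn, norm_mul, norm_pow]
            simp only [hβ]
            gcongr
        _ = S.card * G := by rw [Finset.sum_const, nsmul_eq_mul]
        _ ≤ (N + 1) * G := by
            apply mul_le_mul_of_nonneg_right _ hG0
            have hsub : S ⊆ Finset.range (N + 1) := by
              intro n hn
              have := (hSprop n hn).2.2
              rw [Finset.mem_range]; omega
            have := Finset.card_le_card hsub
            rw [Finset.card_range] at this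
            exact_mod_cast this
    calc ‖F z‖ = ‖(F z - (∑ n ∈ Finset.range n1, tc F n * z ^ n + ∑ n ∈ S, tc F n * z ^ n)) +
          (∑ n ∈ Finset.range n1, tc F n * z ^ n + ∑ n ∈ S, tc F n * z ^ n)‖ := by congr 1; ring
      _ ≤ ‖F z - (∑ n ∈ Finset.range n1, tc F n * z ^ n + ∑ n ∈ S, tc F n * z ^ n)‖ +
          ‖∑ n ∈ Finset.range n1, tc F n * z ^ n + ∑ n ∈ S, tc F n * z ^ n‖ := norm_add_le _ _
      _ ≤ 1 + (‖∑ n ∈ Finset.range n1, tc F n * z ^ n‖ + ‖∑ n ∈ S, tc F n * z ^ n‖) := by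
          gcongr
          exact norm_add_le _ _
      _ ≤ Lo + (N + 1) * G + 1 := by linarith
  -- exponent bound
  have hsq : 8 * Real.sqrt (d * N) ≤ x / 8 + 1 := by
    have e1 : d * N = (1 - ξ) * (N : ℝ) ^ 2 := by rw [hd]; ring
    rw [e1, Real.sqrt_mul (by linarith), Real.sqrt_sq (Nat.cast_nonneg N)]
    have h1 : Real.sqrt (1 - ξ) * N ≤ 1 / (64 * P) * (P * x + 1) := by gcongr
    have h2 : 1 / (64 * P) * (P * x + 1) = x / 64 + 1 / (64 * P) := by field_simp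
    have h3 : 1 / (64 * P) ≤ 1 / 64 := by
      apply div_le_div_of_nonneg_left (by norm_num) (by norm_num)
      linarith
    linarith
  have hN1 : (N : ℝ) + 1 ≤ Q * (x + 1) := by
    rw [hQ]; nlinarith
  have hN0 : (0 : ℝ) ≤ N := Nat.cast_nonneg N
  have hdN : d ≤ N + 1 := by
    rw [hd]; nlinarith
  have hLoB : Lo ≤ (x + 1) * Real.exp (x / 8 + Cs) := by rw [hLo]; gcongr
  have hE1 : 1 ≤ Real.exp (x / 8 + Cs) := Real.one_le_exp (by linarith)
  have h2Lo : 2 + Lo ≤ 3 * ((x + 1) * Real.exp (x / 8 + Cs)) := by nlinarith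
  have hQ0 : 0 ≤ Q := by linarith
  have hGB : (N + 1) * G ≤ (Real.pi / s0) * Q ^ 4 * Real.exp 1 * (3 * Real.exp Cs) *
      (x + 1) ^ 5 * Real.exp (x / 4) := by
    calc (N + 1) * G = (Real.pi / s0) * ((N + 1) ^ 2 * d ^ 2) *
          Real.exp (8 * Real.sqrt (d * N)) * (2 + Lo) := by rw [hG]; ring
      _ ≤ (Real.pi / s0) * ((Q * (x + 1)) ^ 2 * (Q * (x + 1)) ^ 2) *
          Real.exp (x / 8 + 1) * (3 * ((x + 1) * Real.exp (x / 8 + Cs))) := by
          have : d ≤ Q * (x + 1) := hdN.trans hN1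
          gcongr
      _ = (Real.pi / s0) * Q ^ 4 * Real.exp 1 * (3 * Real.exp Cs) *
          (x + 1) ^ 5 * Real.exp (x / 4) := by
          have e1 : Real.exp (x / 8 + 1) = Real.exp (x / 8) * Real.exp 1 := Real.exp_add _ _
          have e2 : Real.exp (x / 8 + Cs) = Real.exp (x / 8) * Real.exp Cs := Real.exp_add _ _
          have e3 : Real.exp (x / 4) = Real.exp (x / 8) * Real.exp (x / 8) := by
            rw [← Real.exp_add]; congr 1; ring
          rw [e1, e2, e3]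
          ring
  have hpow5 : 1 ≤ (x + 1) ^ 5 := one_le_pow₀ (by linarith)
  have hex4 : 1 ≤ Real.exp (x / 4) := Real.one_le_exp (by linarith)
  have hLoB2 : Lo ≤ Real.exp Cs * (x + 1) ^ 5 * Real.exp (x / 4) := by
    refine hLoB.trans ?_
    have e2 : Real.exp (x / 8 + Cs) = Real.exp (x / 8) * Real.exp Cs := Real.exp_add _ _
    rw [e2]
    have h1 : x + 1 ≤ (x + 1) ^ 5 := by
      calc x + 1 = (x + 1) ^ 1 := (pow_one _).symm
        _ ≤ (x + 1) ^ 5 := pow_le_pow_right₀ (by linarith) (by norm_num)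
    have h2 : Real.exp (x / 8) ≤ Real.exp (x / 4) := Real.exp_le_exp.mpr (by linarith)
    calc (x + 1) * (Real.exp (x / 8) * Real.exp Cs)
        ≤ (x + 1) ^ 5 * (Real.exp (x / 4) * Real.exp Cs) := by gcongr
      _ = _ := by ring
  have htot : Real.exp x ≤ (Cp * (x + 1) ^ 5) * Real.exp (x / 4) := by
    have h1 : (1 : ℝ) ≤ 1 * (x + 1) ^ 5 * Real.exp (x / 4) := by nlinarith
    calc Real.exp x ≤ Lo + (N + 1) * G + 1 := hfin
      _ ≤ Real.exp Cs * (x + 1) ^ 5 * Real.exp (x / 4) +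
          (Real.pi / s0) * Q ^ 4 * Real.exp 1 * (3 * Real.exp Cs) *
          (x + 1) ^ 5 * Real.exp (x / 4) + 1 * (x + 1) ^ 5 * Real.exp (x / 4) := by
          linarith
      _ = (Cp * (x + 1) ^ 5) * Real.exp (x / 4) := by rw [hCp]; ring
  have hlast := hX1 x hxX1
  have h1 : (Cp * (x + 1) ^ 5) * Real.exp (x / 4) < Real.exp (x / 2) * Real.exp (x / 4) := by
    gcongr
  have h2 : Real.exp (x / 2) * Real.exp (x / 4) ≤ Real.exp x := by
    rw [← Real.exp_add]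
    exact Real.exp_le_exp.mpr (by linarith)
  linarith

theorem exists_order {B : ℝ → ℝ} {σ : ℝ} (hσ : 0 ≤ σ) (hB : ∃ C : ℝ, ∀ r, 1 ≤ r → B r ≤ C * r ^ σ) :
    ∃ ρ : ℝ, 0 ≤ ρ ∧ ρ ≤ σ ∧ (∀ s, ρ < s → ∃ C : ℝ, ∀ r, 1 ≤ r → B r ≤ C * r ^ s) ∧
      ∀ s, 0 ≤ s → s < ρ → ∀ C : ℝ, ∃ r, 1 ≤ r ∧ C * r ^ s < B r := by
  set T : Set ℝ := {s | 0 ≤ s ∧ ∃ C : ℝ, ∀ r, 1 ≤ r → B r ≤ C * r ^ s} with hT
  have hbdd : BddBelow T := ⟨0, fun s hs => hs.1⟩
  have hne : T.Nonempty := ⟨σ, hσ, hB⟩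
  refine ⟨sInf T, ?_, csInf_le hbdd ⟨hσ, hB⟩, ?_, ?_⟩
  · exact le_csInf hne fun s hs => hs.1
  · intro s hs
    obtain ⟨s', hs', hlt⟩ := exists_lt_of_csInf_lt hne hs
    obtain ⟨_, C, hC⟩ := hs'
    refine ⟨|C|, fun r hr => (hC r hr).trans ?_⟩
    have h1 : r ^ s' ≤ r ^ s := Real.rpow_le_rpow_of_exponent_le hr hlt.le
    have h0 : 0 ≤ r ^ s' := Real.rpow_nonneg (by linarith) _
    calc C * r ^ s' ≤ |C| * r ^ s' := by gcongr; exact le_abs_self C
      _ ≤ |C| * r ^ s := by gcongr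
  · intro s hs0 hs C
    by_contra hcon
    push Not at hcon
    have : s ∈ T := ⟨hs0, C, hcon⟩
    exact absurd (csInf_le hbdd this) (not_le.mpr hs)

theorem exists_eta {ρ : ℝ} (hρ : 0 ≤ ρ) : ∃ η : ℝ, 0 < η ∧ η ≤ 1 / 2 ∧
    ρ + 2 * η ≤ (⌊ρ⌋₊ : ℝ) + 1 ∧
    ∀ m : ℕ, 1 ≤ m → m ≤ ⌊ρ⌋₊ → (m : ℝ) ≠ ρ → (m : ℝ) ≤ ρ - 2 * η := by
  have h1 := Nat.floor_le hρ
  have h2 := Nat.lt_floor_add_one ρ
  by_cases h : (⌊ρ⌋₊ : ℝ) = ρ
  · refine ⟨1 / 2, by norm_num, le_rfl, by linarith, ?_⟩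
    intro m _ hm hmρ
    have hne : m ≠ ⌊ρ⌋₊ := by
      intro h3; apply hmρ; rw [h3, h]
    have h3 : m + 1 ≤ ⌊ρ⌋₊ := by omega
    have h4 : (m : ℝ) + 1 ≤ (⌊ρ⌋₊ : ℝ) := by exact_mod_cast h3
    linarith
  · have h3 : (⌊ρ⌋₊ : ℝ) < ρ := lt_of_le_of_ne h1 h
    refine ⟨min (1 / 2) (min (((⌊ρ⌋₊ : ℝ) + 1 - ρ) / 2) ((ρ - ⌊ρ⌋₊) / 2)), ?_, min_le_left _ _, ?_, ?_⟩
    · apply lt_min (by norm_num) (lt_min (by linarith) (by linarith))
    · have := (min_le_right (1 / 2) (min (((⌊ρ⌋₊ : ℝ) + 1 - ρ) / 2) ((ρ - ⌊ρ⌋₊) / 2))).trans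
        (min_le_left _ _)
      linarith
    · intro m _ hm _
      have := (min_le_right (1 / 2) (min (((⌊ρ⌋₊ : ℝ) + 1 - ρ) / 2) ((ρ - ⌊ρ⌋₊) / 2))).trans
        (min_le_right _ _)
      have h4 : (m : ℝ) ≤ (⌊ρ⌋₊ : ℝ) := by exact_mod_cast hm
      linarith

/-- discrete growth conditions along powers of `K` -/
theorem growth_disc {B : ℝ → ℝ} (hBm : ∀ r s, 1 ≤ r → r ≤ s → B r ≤ B s)
    (hBt : Filter.Tendsto B Filter.atTop Filter.atTop) {ρ η ρ1 : ℝ} (hη : 0 < η)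
    (hup : ∀ s, ρ < s → ∃ C : ℝ, ∀ r, 1 ≤ r → B r ≤ C * r ^ s)
    (hlo : ∀ s, 0 ≤ s → s < ρ → ∀ C : ℝ, ∃ r, 1 ≤ r ∧ C * r ^ s < B r)
    (hρ1 : ρ1 = 0 ∨ (0 < ρ1 ∧ ρ1 < ρ)) {K : ℝ} (hK : 3 ≤ K) :
    Filter.Tendsto (fun j : ℕ => B (K ^ j) / (K ^ (ρ + η)) ^ j) Filter.atTop (nhds 0) ∧
      ∀ (C : ℝ) (j0 : ℕ), ∃ j, j0 ≤ j ∧ C < B (K ^ j) / (K ^ ρ1) ^ j := by
  have hK0 : 0 < K := by linarith
  have hK1 : 1 ≤ K := by linarith
  have hKt : Filter.Tendsto (fun j : ℕ => K ^ j) Filter.atTop Filter.atTop :=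
    tendsto_pow_atTop_atTop_of_one_lt (by linarith)
  have hBK : Filter.Tendsto (fun j : ℕ => B (K ^ j)) Filter.atTop Filter.atTop := hBt.comp hKt
  constructor
  · obtain ⟨C, hC⟩ := hup (ρ + η / 2) (by linarith)
    have hlt : K ^ (-(η / 2)) < 1 := Real.rpow_lt_one_of_one_lt_of_neg (by linarith) (by linarith)
    have hpos : 0 < K ^ (-(η / 2)) := Real.rpow_pos_of_pos hK0 _
    have hlim : Filter.Tendsto (fun j : ℕ => C * (K ^ (-(η / 2))) ^ j) Filter.atTop (nhds (C * 0)) :=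
      (tendsto_pow_atTop_nhds_zero_of_lt_one hpos.le hlt).const_mul C
    rw [mul_zero] at hlim
    refine tendsto_of_tendsto_of_tendsto_of_le_of_le' tendsto_const_nhds hlim ?_ ?_
    · filter_upwards [hBK.eventually_ge_atTop 0] with j hj
      positivity
    · filter_upwards with j
      have h1 := hC (K ^ j) (one_le_pow₀ hK1)
      have hP : 0 < (K ^ (ρ + η)) ^ j := by positivity
      rw [div_le_iff₀ hP]
      have e1 : (K ^ j) ^ (ρ + η / 2) = (K ^ (-(η / 2))) ^ j * (K ^ (ρ + η)) ^ j := by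
        rw [← mul_pow, ← Real.rpow_add hK0, ← Real.rpow_natCast, ← Real.rpow_natCast,
          ← Real.rpow_mul hK0.le, ← Real.rpow_mul hK0.le]
        congr 1
        ring
      rw [e1] at h1
      linarith
  · intro C j0
    rcases hρ1 with h0 | ⟨h1, h2⟩
    · rw [h0]
      have := (hBK.eventually_gt_atTop C).and (Filter.eventually_ge_atTop j0)
      obtain ⟨j, hj1, hj2⟩ := this.exists
      refine ⟨j, hj2, ?_⟩
      simpa using hj1
    · have hA : 0 < K ^ ρ1 := Real.rpow_pos_of_pos hK0 _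
      obtain ⟨M, hM⟩ : ∃ M : ℝ, ∀ i, i < j0 → B (K ^ i) / (K ^ ρ1) ^ i ≤ M := by
        refine ⟨∑ i ∈ Finset.range j0, |B (K ^ i) / (K ^ ρ1) ^ i|, fun i hi => ?_⟩
        exact (le_abs_self _).trans (Finset.single_le_sum
          (f := fun i => |B (K ^ i) / (K ^ ρ1) ^ i|) (fun i _ => abs_nonneg _)
          (Finset.mem_range.mpr hi))
      set C' : ℝ := max 0 (max C M) with hC'
      obtain ⟨r, hr1, hr2⟩ := hlo ρ1 h1.le h2 (C' * K ^ ρ1)
      obtain ⟨n, hn1, hn2⟩ := exists_nat_pow_near hr1 (show 1 < K by linarith)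
      have h3 : C' < B (K ^ (n + 1)) / (K ^ ρ1) ^ (n + 1) := by
        rw [lt_div_iff₀ (by positivity)]
        have e1 : (K ^ ρ1) ^ (n + 1) = K ^ ρ1 * (K ^ n) ^ ρ1 := by
          rw [pow_succ', ← Real.rpow_natCast, ← Real.rpow_natCast, ← Real.rpow_mul hK0.le,
            ← Real.rpow_mul hK0.le]
          congr 2
          ring
        rw [e1]
        have h4 : (K ^ n) ^ ρ1 ≤ r ^ ρ1 := Real.rpow_le_rpow (by positivity) hn1 h1.le
        have h5 : 0 ≤ C' := le_max_left _ _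
        calc C' * (K ^ ρ1 * (K ^ n) ^ ρ1) ≤ C' * (K ^ ρ1 * r ^ ρ1) := by gcongr
          _ = C' * K ^ ρ1 * r ^ ρ1 := by ring
          _ < B r := hr2
          _ ≤ B (K ^ (n + 1)) := hBm _ _ hr1 hn2.le
      refine ⟨n + 1, ?_, ?_⟩
      · by_contra hlt
        push Not at hlt
        have h6 := hM (n + 1) hlt
        have h7 : M ≤ C' := (le_max_right _ _).trans (le_max_right _ _)
        linarith
      · have h7 : C ≤ C' := (le_max_left _ _).trans (le_max_right _ _)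
        linarith

/-- choice of a rotated point -/
theorem exists_zc (A : ℂ) {r : ℝ} (hr : 0 < r) {q : ℕ} (hq : 1 ≤ q) :
    ∃ zc : ℂ, ‖zc‖ = r ∧ A * zc ^ q = -((‖A‖ * r ^ q : ℝ) : ℂ) := by
  have hq0 : (q : ℂ) ≠ 0 := by
    have : q ≠ 0 := by omega
    exact_mod_cast this
  refine ⟨r * Complex.exp (((Real.pi - Complex.arg A) / q : ℝ) * Complex.I), ?_, ?_⟩
  · rw [norm_mul, Complex.norm_exp_ofReal_mul_I, mul_one, Complex.norm_real,
      Real.norm_of_nonneg hr.le]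
  · rw [mul_pow, ← Complex.exp_nat_mul]
    have e1 : (q : ℂ) * ((((Real.pi - Complex.arg A) / q : ℝ) : ℂ) * Complex.I) =
        Real.pi * Complex.I - Complex.arg A * Complex.I := by
      push_cast
      field_simp
    rw [e1, Complex.exp_sub, Complex.exp_pi_mul_I]
    have h1 := Complex.norm_mul_exp_arg_mul_I A
    have h2 : Complex.exp (Complex.arg A * Complex.I) ≠ 0 := Complex.exp_ne_zero _
    nth_rewrite 1 [← h1]
    push_cast
    field_simp

theorem means {f : ℂ → ℂ} (hf : Differentiable ℂ f) (hnc : ∃ z w : ℂ, f z ≠ f w) (a : ℂ)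
    (hT : Filter.Tendsto
      (fun r : ℝ =>
        (∫ θ in (0 : ℝ)..(2 * Real.pi),
            max (0 : ℝ) (Real.log (‖f (circleMap 0 r θ) - a‖⁻¹))) /
        (∫ θ in (0 : ℝ)..(2 * Real.pi),
            max (0 : ℝ) (Real.log ‖f (circleMap 0 r θ)‖)))
      Filter.atTop (nhds (1 : ℝ))) :
    (∀ ε : ℝ, 0 < ε → ∃ T0 : ℝ, ∀ t, T0 ≤ t →
      |circleAverage (fun z => Real.log ‖f z - a‖) 0 t| ≤
        ε * Real.log (Mx (fun z => f z - a) t)) ∧
    ∃ T0 : ℝ, ∀ t, T0 ≤ t → circleAverage (fun z => |Real.log ‖f z - a‖|) 0 t ≤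
      4 * Real.log (Mx (fun z => f z - a) t) := by
  set F : ℂ → ℂ := fun z => f z - a with hF
  have hFd : Differentiable ℂ F := hf.sub_const a
  have hnc' : ∃ z w : ℂ, F z ≠ F w := by
    obtain ⟨z, w, h⟩ := hnc
    exact ⟨z, w, fun h2 => h (by simpa [hF] using h2)⟩
  obtain ⟨z1, w1, hzw⟩ := hnc'
  have hMt := Mx_tendsto hFd hzw
  have hBt : Filter.Tendsto (fun r => Real.log (Mx F r)) Filter.atTop Filter.atTop :=
    Real.tendsto_log_atTop.comp hMt
  -- the three means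
  set m1 : ℝ → ℝ := fun t => circleAverage (fun z => Real.posLog (‖F z‖⁻¹)) 0 t with hm1
  set m2 : ℝ → ℝ := fun t => circleAverage (fun z => Real.posLog ‖f z‖) 0 t with hm2
  set m3 : ℝ → ℝ := fun t => circleAverage (fun z => Real.posLog ‖F z‖) 0 t with hm3
  have hT2 : Filter.Tendsto (fun t => m1 t / m2 t) Filter.atTop (nhds 1) := by
    refine hT.congr fun t => ?_
    simp only [hm1, hm2, circleAverage, smul_eq_mul]
    rw [mul_div_mul_left _ _ (by positivity)]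
    rfl
  set Ca : ℝ := Real.posLog ‖a‖ + Real.log 2 with hCa
  have hCa0 : 0 ≤ Ca := add_nonneg Real.posLog_nonneg (Real.log_nonneg (by norm_num))
  have i1 : ∀ t, CircleIntegrable (fun z => Real.posLog ‖F z‖) 0 t := by
    intro t
    apply MeromorphicOn.circleIntegrable_posLog_norm
    intro z _
    exact (hFd.analyticAt z).meromorphicAt
  have i2 : ∀ t, CircleIntegrable (fun z => Real.posLog ‖f z‖) 0 t := by
    intro t
    apply MeromorphicOn.circleIntegrable_posLog_norm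
    intro z _
    exact (hf.analyticAt z).meromorphicAt
  have i4 : ∀ t, CircleIntegrable (fun z => Real.log ‖F z‖) 0 t := by
    intro t
    apply MeromorphicOn.circleIntegrable_log_norm
    intro z _
    exact (hFd.analyticAt z).meromorphicAt
  have e3 : ∀ z, Real.posLog (‖F z‖⁻¹) = Real.posLog ‖F z‖ - Real.log ‖F z‖ := by
    intro z
    have := Real.posLog_sub_posLog_inv (x := ‖F z‖)
    linarith
  have i3 : ∀ t, CircleIntegrable (fun z => Real.posLog (‖F z‖⁻¹)) 0 t := by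
    intro t
    have : (fun z => Real.posLog (‖F z‖⁻¹)) = fun z => Real.posLog ‖F z‖ - Real.log ‖F z‖ :=
      funext e3
    rw [this]
    exact (i1 t).sub (i4 t)
  have hmean : ∀ t, circleAverage (fun z => Real.log ‖F z‖) 0 t = m3 t - m1 t := by
    intro t
    rw [hm1, hm3]
    simp only
    rw [← circleAverage_fun_sub (i1 t) (i3 t)]
    congr 1
    funext z
    rw [e3]; ring
  have hmabs : ∀ t, circleAverage (fun z => |Real.log ‖F z‖|) 0 t = m3 t + m1 t := by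
    intro t
    rw [hm1, hm3]
    simp only
    rw [← circleAverage_fun_add (i1 t) (i3 t)]
    congr 1
    funext z
    rw [Real.posLog_apply, Real.posLog_apply, Real.log_inv]
    rcases le_or_gt 0 (Real.log ‖F z‖) with h | h
    · rw [abs_of_nonneg h, max_eq_right h, max_eq_left (by linarith)]; ring
    · rw [abs_of_neg h, max_eq_left h.le, max_eq_right (by linarith)]; ring
  have hm2nn : ∀ t, 0 ≤ m2 t := fun t =>
    circleAverage_nonneg_of_nonneg fun z _ => Real.posLog_nonneg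
  have hm23 : ∀ t, m2 t ≤ m3 t + Ca := by
    intro t
    have h1 : m2 t ≤ circleAverage (fun z => Real.posLog ‖F z‖ + Ca) 0 t := by
      apply circleAverage_mono (i2 t) ((i1 t).add (circleIntegrable_const _ _ _))
      intro z _
      have e : ‖f z‖ ≤ ‖F z‖ + ‖a‖ := by
        have := norm_add_le (F z) a
        simpa [hF] using this
      have h2 : Real.posLog ‖f z‖ ≤ Real.posLog (‖F z‖ + ‖a‖) :=
        Real.monotoneOn_posLog (norm_nonneg _) (by positivity : (0:ℝ) ≤ ‖F z‖ + ‖a‖) e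
      have h3 := Real.posLog_add (x := ‖F z‖) (y := ‖a‖)
      change _ ≤ Real.posLog ‖F z‖ + (Real.posLog ‖a‖ + Real.log 2)
      linarith
    rw [circleAverage_fun_add (i1 t) (circleIntegrable_const _ _ _), circleAverage_const] at h1
    exact h1
  have hm32 : ∀ t, m3 t ≤ m2 t + Ca := by
    intro t
    have h1 : m3 t ≤ circleAverage (fun z => Real.posLog ‖f z‖ + Ca) 0 t := by
      apply circleAverage_mono (i1 t) ((i2 t).add (circleIntegrable_const _ _ _))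
      intro z _
      have e : ‖F z‖ ≤ ‖f z‖ + ‖a‖ := norm_sub_le (f z) a
      have h2 : Real.posLog ‖F z‖ ≤ Real.posLog (‖f z‖ + ‖a‖) :=
        Real.monotoneOn_posLog (norm_nonneg _) (by positivity : (0:ℝ) ≤ ‖f z‖ + ‖a‖) e
      have h3 := Real.posLog_add (x := ‖f z‖) (y := ‖a‖)
      change _ ≤ Real.posLog ‖f z‖ + (Real.posLog ‖a‖ + Real.log 2)
      linarith
    rw [circleAverage_fun_add (i2 t) (circleIntegrable_const _ _ _), circleAverage_const] at h1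
    exact h1
  have hm3B : ∀ t, 0 < t → 1 ≤ Mx F t → m3 t ≤ Real.log (Mx F t) := by
    intro t ht hM
    apply circleAverage_mono_on_of_le_circle (i1 t)
    intro z hz
    rw [abs_of_pos ht, mem_sphere_zero_iff_norm] at hz
    have h1 : ‖F z‖ ≤ Mx F t := le_Mx hFd.continuous hz.le
    rw [Real.posLog_apply]
    apply max_le (Real.log_nonneg hM)
    rcases eq_or_lt_of_le (norm_nonneg (F z)) with h | h
    · rw [← h, Real.log_zero]; exact Real.log_nonneg hM
    · exact Real.log_le_log h h1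
  -- key eventual estimate
  have key : ∀ ε : ℝ, 0 < ε → ε ≤ 1 / 2 → ∀ᶠ t in Filter.atTop, |m1 t - m2 t| ≤ ε * m2 t := by
    intro ε hε hε2
    have h1 := (Metric.tendsto_nhds.mp hT2) ε hε
    filter_upwards [h1] with t ht
    rw [Real.dist_eq] at ht
    have hne : m2 t ≠ 0 := by
      intro h0
      rw [h0, div_zero, zero_sub, abs_neg, abs_one] at ht
      linarith
    have hp : 0 < m2 t := lt_of_le_of_ne (hm2nn t) (Ne.symm hne)
    have e : m1 t - m2 t = (m1 t / m2 t - 1) * m2 t := by field_simp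
    rw [e, abs_mul, abs_of_pos hp]
    gcongr
  constructor
  · intro ε hε
    have hε' : 0 < min (ε / 2) (1 / 2) := lt_min (by linarith) (by norm_num)
    have h1 := key _ hε' (min_le_right _ _)
    have h2 := hBt.eventually_ge_atTop (max 0 ((2 * Ca + Ca) * 2 / ε))
    have h3 := hMt.eventually_ge_atTop 1
    have h4 := Filter.eventually_gt_atTop (0 : ℝ)
    obtain ⟨T0, hT0⟩ := Filter.eventually_atTop.mp (((h1.and h2).and h3).and h4)
    refine ⟨T0, fun t ht => ?_⟩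
    obtain ⟨⟨⟨k1, k2⟩, k3⟩, k4⟩ := hT0 t ht
    have k5 := hm3B t k4 k3
    have k6 := hm23 t
    have k7 := hm32 t
    have k8 : min (ε / 2) (1 / 2) * m2 t ≤ ε / 2 * (Real.log (Mx F t)) + 1 / 2 * Ca := by
      have a1 : min (ε / 2) (1 / 2) * m2 t ≤ min (ε / 2) (1 / 2) * (Real.log (Mx F t) + Ca) := by
        gcongr; linarith
      have a2 : min (ε / 2) (1 / 2) * Real.log (Mx F t) ≤ ε / 2 * Real.log (Mx F t) := by
        have : 0 ≤ Real.log (Mx F t) := (le_max_left _ _).trans k2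
        gcongr; exact min_le_left _ _
      have a3 : min (ε / 2) (1 / 2) * Ca ≤ 1 / 2 * Ca := by
        gcongr; exact min_le_right _ _
      linarith
    have k9 : (2 * Ca + Ca) * 2 / ε ≤ Real.log (Mx F t) := (le_max_right _ _).trans k2
    rw [div_le_iff₀ hε] at k9
    have e : circleAverage (fun z => Real.log ‖f z - a‖) 0 t = m3 t - m1 t := hmean t
    rw [e]
    rw [abs_le] at k1 ⊢
    constructor <;> nlinarith
  · have h1 := key (1 / 2) (by norm_num) le_rfl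
    have h2 := hBt.eventually_ge_atTop (max 0 (4 * Ca))
    have h3 := hMt.eventually_ge_atTop 1
    have h4 := Filter.eventually_gt_atTop (0 : ℝ)
    obtain ⟨T0, hT0⟩ := Filter.eventually_atTop.mp (((h1.and h2).and h3).and h4)
    refine ⟨T0, fun t ht => ?_⟩
    obtain ⟨⟨⟨k1, k2⟩, k3⟩, k4⟩ := hT0 t ht
    have k5 := hm3B t k4 k3
    have k6 := hm23 t
    have k9 : 4 * Ca ≤ Real.log (Mx F t) := (le_max_right _ _).trans k2
    have e : circleAverage (fun z => |Real.log ‖f z - a‖|) 0 t = m3 t + m1 t := hmabs t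
    rw [e]
    rw [abs_le] at k1
    nlinarith

end Helper787.Gap
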