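import Mathlib
import Pool.Agent.Helper787.GapA
import Pool.Agent.Helper787.GapB
import Pool.Agent.Helper787.GapC

/-!
# Entire functions with a value of deficiency one and sparse Taylor coefficients
-/

set_option autoImplicit false
open Finset Metric Real

namespace Helper787.Gap

theorem growth_bound {f : ℂ → ℂ} (hf : Differentiable ℂ f) (a : ℂ) {σ : ℝ} (hσ : 0 ≤ σ)
    (hR : ∃ R : ℝ, ∀ z : ℂ, R ≤ ‖z‖ → ‖f z‖ ≤ Real.exp (‖z‖ ^ σ)) :
    ∃ C : ℝ, ∀ r, 1 ≤ r → Real.log (Mx (fun z => f z - a) r) ≤ C * r ^ σ := by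
  obtain ⟨R, hR⟩ := hR
  obtain ⟨M, hM0, hM⟩ := exists_bound_ball hf R
  set C : ℝ := 1 + ‖a‖ + M with hC
  have hC1 : 1 ≤ C := by have := norm_nonneg a; linarith
  refine ⟨Real.log C + 1, ?_⟩
  intro r hr
  have hr0 : 0 ≤ r := by linarith
  have hrσ : 1 ≤ r ^ σ := Real.one_le_rpow hr hσ
  have hlC : 0 ≤ Real.log C := Real.log_nonneg hC1
  have hb : Mx (fun z => f z - a) r ≤ C * Real.exp (r ^ σ) := by
    apply Mx_le hr0
    intro z hz
    have he : 1 ≤ Real.exp (r ^ σ) := Real.one_le_exp (by linarith)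
    have h1 : ‖f z - a‖ ≤ ‖f z‖ + ‖a‖ := norm_sub_le _ _
    have h2 : ‖f z‖ ≤ M + Real.exp (r ^ σ) := by
      rcases le_or_gt R ‖z‖ with h | h
      · have h3 := hR z h
        have h4 : Real.exp (‖z‖ ^ σ) ≤ Real.exp (r ^ σ) :=
          Real.exp_le_exp.mpr (Real.rpow_le_rpow (norm_nonneg _) hz hσ)
        linarith
      · have h3 := hM z h.le
        linarith
    have := norm_nonneg a
    nlinarith
  rcases le_or_gt (Mx (fun z => f z - a) r) 0 with h | h
  · have h0 : 0 ≤ Mx (fun z => f z - a) r := by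
      refine (norm_nonneg (f 0 - a)).trans ?_
      exact le_Mx (F := fun z => f z - a) (hf.continuous.sub continuous_const) (by rw [norm_zero]; exact hr0)
    have : Mx (fun z => f z - a) r = 0 := le_antisymm h h0
    rw [this, Real.log_zero]
    positivity
  · have h1 := Real.log_le_log h hb
    rw [Real.log_mul (by linarith) (Real.exp_ne_zero _), Real.log_exp] at h1
    nlinarith

theorem mainGap {f : ℂ → ℂ} (hf : Differentiable ℂ f) (hnc : ∃ z w : ℂ, f z ≠ f w)
    {σ D : ℝ} (hσ : 0 ≤ σ) (hD : 0 ≤ D) (hσD : σ * D < 1 / 2)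
    (hR : ∃ R : ℝ, ∀ z : ℂ, R ≤ ‖z‖ → ‖f z‖ ≤ Real.exp (‖z‖ ^ σ))
    (hdens : ∃ ξ₀ : ℝ, ξ₀ < 1 ∧ ∀ ξ : ℝ, ξ₀ < ξ → ξ < 1 → ∃ R : ℝ, ∀ r : ℝ, R ≤ r →
      ((Set.ncard {k : ℕ | ξ * r < (k : ℝ) ∧ (k : ℝ) ≤ r ∧ iteratedDeriv k f 0 ≠ 0} : ℕ) : ℝ)
        ≤ D * (1 - ξ) * r)
    (a : ℂ)
    (hT : Filter.Tendsto
      (fun r : ℝ =>
        (∫ θ in (0 : ℝ)..(2 * Real.pi),
            max (0 : ℝ) (Real.log (‖f (circleMap 0 r θ) - a‖⁻¹))) /
        (∫ θ in (0 : ℝ)..(2 * Real.pi),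
            max (0 : ℝ) (Real.log ‖f (circleMap 0 r θ)‖)))
      Filter.atTop (nhds (1 : ℝ))) : False := by
  obtain ⟨hH1, hH2⟩ := means hf hnc a hT
  set F : ℂ → ℂ := fun z => f z - a with hF
  have hFd : Differentiable ℂ F := hf.sub_const a
  have hnc' : ∃ z w : ℂ, F z ≠ F w := by
    obtain ⟨z, w, h⟩ := hnc
    exact ⟨z, w, fun h2 => h (by simpa [hF] using h2)⟩
  obtain ⟨z1, w1, hzw⟩ := hnc'
  obtain ⟨z0, hz0⟩ : ∃ z0, F z0 ≠ 0 := by
    by_contra h
    push Not at h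
    exact hzw (by rw [h, h])
  have hMt := Mx_tendsto hFd hzw
  set B : ℝ → ℝ := fun r => Real.log (Mx F r) with hB
  have hBt : Filter.Tendsto B Filter.atTop Filter.atTop := Real.tendsto_log_atTop.comp hMt
  have hMpos : ∀ r, 0 < r → 0 < Mx F r := by
    intro r hr
    by_contra hcon
    push Not at hcon
    -- F vanishes on a ball, hence everywhere
    have hz : ∀ z, ‖z‖ ≤ r → F z = 0 := fun z hz =>
      norm_le_zero_iff.mp ((le_Mx hFd.continuous hz).trans hcon)
    have hev : F =ᶠ[nhds 0] 0 := by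
      filter_upwards [Metric.ball_mem_nhds (0 : ℂ) hr] with z hz'
      exact hz z (by rw [mem_ball_zero_iff] at hz'; exact hz'.le)
    have han : AnalyticOnNhd ℂ F Set.univ := fun z _ => hFd.analyticAt z
    have := han.eqOn_zero_of_preconnected_of_eventuallyEq_zero isPreconnected_univ
      (Set.mem_univ 0) hev
    exact hz0 (this (Set.mem_univ z0))
  have hBm : ∀ r s, 1 ≤ r → r ≤ s → B r ≤ B s := by
    intro r s hr hrs
    exact Real.log_le_log (hMpos r (by linarith)) (Mx_mono hFd.continuous (by linarith) hrs)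
  obtain ⟨ρ, hρ0, hρσ, hup, hlo⟩ := exists_order hσ (growth_bound hf a hσ hR)
  obtain ⟨η, hη0, hη1, hη2, hη3⟩ := exists_eta hρ0
  -- the arc data
  have harcdata : ∃ (u v : ℕ) (ε : ℝ), 0 < u ∧ 0 < v ∧ u ≤ v ∧ 0 < ε ∧ ε ≤ 1 / 2 ∧
      ((⌊ρ⌋₊ : ℝ) = ρ ∧ 1 ≤ ⌊ρ⌋₊ → D * v ≤ u ∧
        ∀ θ ∈ Set.Icc (-(Real.pi * u / v)) (Real.pi * u / v),
          2 * ε ≤ Real.cos (⌊ρ⌋₊ * θ)) := by
    by_cases hc : (⌊ρ⌋₊ : ℝ) = ρ ∧ 1 ≤ ⌊ρ⌋₊
    · set q := ⌊ρ⌋₊ with hq
      have hq1 : (1 : ℝ) ≤ q := by exact_mod_cast hc.2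
      have hDq : D < 1 / (2 * q) := by
        rw [lt_div_iff₀ (by positivity)]
        have : (q : ℝ) ≤ σ := by rw [hc.1]; exact hρσ
        nlinarith
      obtain ⟨p, hp1, hp2⟩ := exists_rat_btwn hDq
      have hp0 : 0 < p := by
        have : (0 : ℝ) < p := lt_of_le_of_lt hD hp1
        exact_mod_cast this
      have hnum : 0 < p.num := Rat.num_pos.mpr hp0
      have hden : 0 < p.den := p.den_pos
      have hpe : (p : ℝ) = (p.num.toNat : ℝ) / (p.den : ℝ) := by
        have h1 : (p : ℝ) = (p.num : ℝ) / (p.den : ℝ) := Rat.cast_def p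
        rw [h1]
        congr 1
        have : ((p.num.toNat : ℤ) : ℝ) = (p.num : ℝ) := by
          rw [Int.toNat_of_nonneg hnum.le]
        exact_mod_cast this.symm
      set u := p.num.toNat with hu
      set v := p.den with hv
      have hu0 : 0 < u := by omega
      have hv0 : (0 : ℝ) < v := by exact_mod_cast hden
      have hu0' : (0 : ℝ) < u := by exact_mod_cast hu0
      rw [hpe] at hp1 hp2
      rw [lt_div_iff₀ hv0] at hp1
      rw [div_lt_div_iff₀ hv0 (by positivity)] at hp2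
      have huv : u ≤ v := by
        have : (u : ℝ) ≤ v := by nlinarith
        exact_mod_cast this
      -- angle
      set φ : ℝ := Real.pi * q * u / v with hφ
      have hφ2 : φ < Real.pi / 2 := by
        rw [hφ, div_lt_iff₀ hv0]
        have := Real.pi_pos
        nlinarith
      have hφ0 : 0 ≤ φ := by positivity
      have hcos : 0 < Real.cos φ := Real.cos_pos_of_mem_Ioo ⟨by linarith, hφ2⟩
      refine ⟨u, v, Real.cos φ / 2, hu0, hden, huv, by linarith, ?_, fun _ => ⟨hp1.le, ?_⟩⟩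
      · have := Real.cos_le_one φ
        linarith
      · intro θ hθ
        have e1 : |(q : ℝ) * θ| ≤ φ := by
          rw [abs_mul, abs_of_pos (by linarith : (0 : ℝ) < q)]
          have h1 : |θ| ≤ Real.pi * u / v := abs_le.mpr hθ
          calc (q : ℝ) * |θ| ≤ q * (Real.pi * u / v) := by gcongr
            _ = φ := by rw [hφ]; ring
        rw [← Real.cos_abs ((q : ℝ) * θ)]
        have := Real.cos_le_cos_of_nonneg_of_le_pi (abs_nonneg ((q : ℝ) * θ))
          (by linarith [Real.pi_pos]) e1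
        linarith
    · exact ⟨1, 1, 1 / 2, one_pos, one_pos, le_rfl, by norm_num, le_rfl, fun h => absurd h hc⟩
  obtain ⟨u, v, ε, hu, hv, huv, hε0, hε1, harc⟩ := harcdata
  -- exponent below
  obtain ⟨ρ1, hρ1a, hρ1b⟩ : ∃ ρ1 : ℝ, ρ - η ≤ ρ1 ∧ (ρ1 = 0 ∨ (0 < ρ1 ∧ ρ1 < ρ)) := by
    rcases le_or_gt (ρ - η) 0 with h | h
    · exact ⟨0, h, Or.inl rfl⟩
    · exact ⟨ρ - η, le_rfl, Or.inr ⟨h, by linarith⟩⟩
  obtain ⟨K0, hK0⟩ := peak_est hFd hz0 (B := B) hH1 hH2 hη0 hρ0 hη2 hη3 hρ1a hε0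
  set K : ℝ := max K0 3 with hK
  have hK3 : 3 ≤ K := le_max_right _ _
  have hKpos : 0 < K := by linarith
  obtain ⟨J, hJ⟩ := hK0 K (le_max_left _ _)
  obtain ⟨g1, g2⟩ := growth_disc hBm hBt hη0 hup hlo hρ1b hK3
  have hA1 : 0 < K ^ ρ1 := Real.rpow_pos_of_pos hKpos _
  have hA12 : K ^ ρ1 ≤ K ^ (ρ + η) := by
    apply Real.rpow_le_rpow_of_exponent_le (by linarith)
    rcases hρ1b with h | h <;> linarith
  have hP1 : 1 ≤ K ^ (ρ + η) := Real.one_le_rpow (by linarith) (by linarith)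
  have hKt : Filter.Tendsto (fun j : ℕ => K ^ j) Filter.atTop Filter.atTop :=
    tendsto_pow_atTop_atTop_of_one_lt (by linarith)
  have hBK : Filter.Tendsto (fun j : ℕ => B (K ^ j)) Filter.atTop Filter.atTop := hBt.comp hKt
  obtain ⟨j1, hj1⟩ := Filter.eventually_atTop.mp (hBK.eventually_gt_atTop 0)
  have hpk := peaks hj1 hA1 hA12 g1 g2
  by_cases hc : (⌊ρ⌋₊ : ℝ) = ρ ∧ 1 ≤ ⌊ρ⌋₊
  · -- integral order
    obtain ⟨hDv, hcos⟩ := harc hc
    set q := ⌊ρ⌋₊ with hq
    have hq1 : (1 : ℝ) ≤ q := by exact_mod_cast hc.2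
    have hρ1pos : 0 < ρ1 := by
      have : (1 : ℝ) ≤ ρ := by rw [← hc.1]; exact hq1
      linarith
    have hA1gt : 1 < K ^ ρ1 := Real.one_lt_rpow (by linarith) hρ1pos
    obtain ⟨s', hs'⟩ := pow_unbounded_of_one_lt 16 hA1gt
    have hs16 : 16 ≤ (K ^ ρ1) ^ (s' + 1) := by
      have : (K ^ ρ1) ^ s' ≤ (K ^ ρ1) ^ (s' + 1) := pow_le_pow_right₀ hA1gt.le (by omega)
      linarith
    have hLprop : ∀ n, 1 ≤ n → n ∉ {k : ℕ | iteratedDeriv k f 0 ≠ 0} → iteratedDeriv n F 0 = 0 := by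
      intro n hn hnL
      have h1 : iteratedDeriv n f 0 = 0 := by
        by_contra h
        exact hnL h
      have h2 : iteratedDeriv n F 0 = iteratedDeriv n f 0 := by
        rw [hF]
        obtain ⟨m, rfl⟩ := Nat.exists_eq_add_of_le' hn
        rw [iteratedDeriv_succ', iteratedDeriv_succ']
        congr 1
        funext z
        simp
      rw [h2, h1]
    obtain ⟨X, hX⟩ := gap_step hFd (L := {k : ℕ | iteratedDeriv k f 0 ≠ 0}) hLprop hu hv huv hDv
      hdens hK3 hP1 hA1 (s := s' + 1) (by omega) hs16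
    obtain ⟨j2, hj2⟩ := Filter.eventually_atTop.mp (hBK.eventually_ge_atTop (max X 1))
    obtain ⟨j, hj, pk1, pk2⟩ := hpk (max (max j1 j2) (max (max J 1) (s' + 1)))
    have hjj1 : j1 ≤ j := (le_max_left _ _).trans ((le_max_left _ _).trans hj)
    have hjj2 : j2 ≤ j := (le_max_right _ _).trans ((le_max_left _ _).trans hj)
    have hjJ : J ≤ j := (le_max_left _ _).trans ((le_max_left _ _).trans ((le_max_right _ _).trans hj))
    have hj1' : 1 ≤ j := (le_max_right _ _).trans ((le_max_left _ _).trans ((le_max_right _ _).trans hj))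
    have hjs : s' + 1 ≤ j := (le_max_right _ _).trans ((le_max_right _ _).trans hj)
    have hxpos : 0 < B (K ^ j) := hj1 j hjj1
    have up1 : B (K ^ (j + 1)) ≤ K ^ (ρ + η) * B (K ^ j) := by
      have := pk1 (j + 1) (by omega)
      rw [Nat.add_sub_cancel_left, pow_one] at this
      linarith
    have up2 : B (K ^ (j + 2)) ≤ (K ^ (ρ + η)) ^ 2 * B (K ^ j) := by
      have := pk1 (j + 2) (by omega)
      rw [Nat.add_sub_cancel_left] at this
      linarith
    have lo1 : B (K ^ (j - 1)) * K ^ ρ1 ≤ B (K ^ j) := by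
      have := pk2 (j - 1) (by omega)
      rw [Nat.sub_sub_self hj1', pow_one] at this
      exact this
    have los : B (K ^ (j - (s' + 1))) * (K ^ ρ1) ^ (s' + 1) ≤ B (K ^ j) := by
      have := pk2 (j - (s' + 1)) (by omega)
      rw [Nat.sub_sub_self hjs] at this
      exact this
    obtain ⟨A, hA, hFA⟩ := hJ j hjJ up1 up2 lo1 hxpos
    have hr0 : 0 < K ^ j := by positivity
    -- size of A
    have hAbig : (1 - ε) * B (K ^ j) ≤ ‖A‖ * (K ^ j) ^ q := by
      have h1 : Mx F (K ^ j) ≤ Real.exp (‖A‖ * (K ^ j) ^ q + ε * B (K ^ j)) := by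
        apply Mx_le hr0.le
        intro z hz
        refine (hFA z hz).trans (Real.exp_le_exp.mpr ?_)
        have h2 : (A * z ^ q).re ≤ ‖A‖ * (K ^ j) ^ q := by
          refine (Complex.re_le_norm _).trans ?_
          rw [norm_mul, norm_pow]
          gcongr
        linarith
      have h2 := Real.log_le_log (hMpos _ hr0) h1
      rw [Real.log_exp] at h2
      have h3 : B (K ^ j) = Real.log (Mx F (K ^ j)) := rfl
      linarith
    obtain ⟨zc, hzc1, hzc2⟩ := exists_zc A hr0 hc.2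
    refine hX j hjs ((le_max_left _ _).trans (hj2 j hjj2)) up1 los (hMpos _ (by positivity)) zc hzc1 ?_
    intro θ hθ
    have hz : ‖zc * Complex.exp (θ * Complex.I)‖ ≤ K ^ j := by
      rw [norm_mul, hzc1, Complex.norm_exp_ofReal_mul_I, mul_one]
    refine (hFA _ hz).trans ?_
    rw [← Real.exp_zero]
    apply Real.exp_le_exp.mpr
    have e1 : (A * (zc * Complex.exp (θ * Complex.I)) ^ q).re =
        -(‖A‖ * (K ^ j) ^ q) * Real.cos (q * θ) := by
      rw [mul_pow, ← Complex.exp_nat_mul, ← mul_assoc, hzc2]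
      have e2 : (q : ℂ) * (θ * Complex.I) = ((q * θ : ℝ) : ℂ) * Complex.I := by push_cast; ring
      rw [e2, ← Complex.ofReal_neg, Complex.re_ofReal_mul, Complex.exp_ofReal_mul_I_re]
    rw [e1]
    have hcosθ := hcos θ hθ
    have hAp : 0 ≤ ‖A‖ * (K ^ j) ^ q := by positivity
    have h5 : (1 - ε) * B (K ^ j) * (2 * ε) ≤ (‖A‖ * (K ^ j) ^ q) * Real.cos (q * θ) := by
      apply mul_le_mul hAbig hcosθ (by positivity) hAp
    have h6 : 0 ≤ (1 - 2 * ε) * (ε * B (K ^ j)) := by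
      apply mul_nonneg (by linarith)
      positivity
    nlinarith
  · -- no integral exponent: immediate contradiction
    obtain ⟨j, hj, pk1, pk2⟩ := hpk (max (max j1 J) 1)
    have hjj1 : j1 ≤ j := (le_max_left _ _).trans ((le_max_left _ _).trans hj)
    have hjJ : J ≤ j := (le_max_right _ _).trans ((le_max_left _ _).trans hj)
    have hj1' : 1 ≤ j := (le_max_right _ _).trans hj
    have hxpos : 0 < B (K ^ j) := hj1 j hjj1
    have up1 : B (K ^ (j + 1)) ≤ K ^ (ρ + η) * B (K ^ j) := by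
      have := pk1 (j + 1) (by omega)
      rw [Nat.add_sub_cancel_left, pow_one] at this
      linarith
    have up2 : B (K ^ (j + 2)) ≤ (K ^ (ρ + η)) ^ 2 * B (K ^ j) := by
      have := pk1 (j + 2) (by omega)
      rw [Nat.add_sub_cancel_left] at this
      linarith
    have lo1 : B (K ^ (j - 1)) * K ^ ρ1 ≤ B (K ^ j) := by
      have := pk2 (j - 1) (by omega)
      rw [Nat.sub_sub_self hj1', pow_one] at this
      exact this
    obtain ⟨A, hA, hFA⟩ := hJ j hjJ up1 up2 lo1 hxpos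
    have hA0 : A = 0 := by
      by_contra h
      exact hc (hA h)
    have hr0 : 0 < K ^ j := by positivity
    have h1 : Mx F (K ^ j) ≤ Real.exp (ε * B (K ^ j)) := by
      apply Mx_le hr0.le
      intro z hz
      have := hFA z hz
      rw [hA0, zero_mul, Complex.zero_re, zero_add] at this
      exact this
    have h2 := Real.log_le_log (hMpos _ hr0) h1
    rw [Real.log_exp] at h2
    have h3 : B (K ^ j) = Real.log (Mx F (K ^ j)) := rfl
    nlinarith

end Helper787.Gap
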