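import Mathlib

set_option autoImplicit false

namespace Pool.Agent.Helper787.PathGrowth

section Wirtinger

open Set MeasureTheory intervalIntegral Filter Topology


/-- Wirtinger inequality with Dirichlet conditions at the two ends of an interval of length 2 pi,
with a constant slightly below the optimal one. -/
theorem wirtinger_aux {f f' : ℝ → ℝ} (hf : ∀ x, HasDerivAt f (f' x) x) (hf' : Continuous f')
    (h0 : f 0 = 0) (h1 : f (2 * Real.pi) = 0) {l : ℝ} (hl0 : 0 < l) (hl : l < 1 / 2) :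
    l ^ 2 * ∫ x in (0 : ℝ)..(2 * Real.pi), f x ^ 2 ≤ ∫ x in (0 : ℝ)..(2 * Real.pi), f' x ^ 2 := by
  have hpi := Real.pi_pos
  have hcf : Continuous f := continuous_iff_continuousAt.2 fun x => (hf x).continuousAt
  have hcos : ∀ x ∈ Icc (0 : ℝ) (2 * Real.pi), 0 < Real.cos (l * (x - Real.pi)) := by
    intro x hx
    apply Real.cos_pos_of_mem_Ioo
    constructor
    · nlinarith [hx.1, hx.2]
    · nlinarith [hx.1, hx.2]
  -- q = - l tan (l (x - pi))
  let q : ℝ → ℝ := fun x => -l * Real.tan (l * (x - Real.pi))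
  have hq : ∀ x ∈ Icc (0 : ℝ) (2 * Real.pi), HasDerivAt q (-l ^ 2 - q x ^ 2) x := by
    intro x hx
    have hc := (hcos x hx).ne'
    have h1 : HasDerivAt (fun x => l * (x - Real.pi)) l x := by
      simpa using ((hasDerivAt_id x).sub_const Real.pi).const_mul l
    have h2 := ((Real.hasDerivAt_tan hc).comp x h1).const_mul (-l)
    refine h2.congr_deriv ?_
    change _ = -l ^ 2 - (-l * Real.tan (l * (x - Real.pi))) ^ 2
    rw [Real.tan_eq_sin_div_cos]
    have := Real.sin_sq_add_cos_sq (l * (x - Real.pi))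
    field_simp
    linear_combination this
  have hqc : ContinuousOn q (Icc (0 : ℝ) (2 * Real.pi)) := fun x hx =>
    (hq x hx).continuousAt.continuousWithinAt
  have hle : (0 : ℝ) ≤ 2 * Real.pi := by positivity
  have huI : uIcc (0 : ℝ) (2 * Real.pi) = Icc 0 (2 * Real.pi) := uIcc_of_le hle
  -- derivative of q f^2
  have hd : ∀ x ∈ uIcc (0 : ℝ) (2 * Real.pi),
      HasDerivAt (fun x => q x * f x ^ 2)
        ((f' x ^ 2 - l ^ 2 * f x ^ 2) - (f' x - q x * f x) ^ 2) x := by
    intro x hx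
    rw [huI] at hx
    have h := (hq x hx).mul ((hf x).pow 2)
    refine h.congr_deriv ?_
    simp only [Nat.cast_ofNat, Pi.pow_apply]
    ring
  have hci1 : ContinuousOn (fun x => (f' x ^ 2 - l ^ 2 * f x ^ 2)) (uIcc (0 : ℝ) (2 * Real.pi)) := by
    fun_prop
  have hci2 : ContinuousOn (fun x => (f' x - q x * f x) ^ 2) (uIcc (0 : ℝ) (2 * Real.pi)) := by
    rw [huI]; exact (hf'.continuousOn.sub (hqc.mul hcf.continuousOn)).pow 2
  have hint := integral_eq_sub_of_hasDerivAt hd
    ((hci1.sub hci2).intervalIntegrable)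
  rw [h0, h1] at hint
  rw [intervalIntegral.integral_sub hci1.intervalIntegrable hci2.intervalIntegrable] at hint
  rw [intervalIntegral.integral_sub (by exact (hf'.pow 2).intervalIntegrable _ _)
    (by exact ((hcf.pow 2).const_mul _).intervalIntegrable _ _)] at hint
  have hnn : 0 ≤ ∫ x in (0 : ℝ)..(2 * Real.pi), (f' x - q x * f x) ^ 2 :=
    intervalIntegral.integral_nonneg hle (fun x _ => sq_nonneg _)
  rw [intervalIntegral.integral_const_mul] at hint
  linarith

theorem wirtinger_zero {f f' : ℝ → ℝ} (hf : ∀ x, HasDerivAt f (f' x) x) (hf' : Continuous f')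
    (h0 : f 0 = 0) (h1 : f (2 * Real.pi) = 0) :
    (1 / 4) * ∫ x in (0 : ℝ)..(2 * Real.pi), f x ^ 2 ≤ ∫ x in (0 : ℝ)..(2 * Real.pi), f' x ^ 2 := by
  have hcont : Tendsto (fun l : ℝ => l ^ 2 * ∫ x in (0 : ℝ)..(2 * Real.pi), f x ^ 2)
      (𝓝[<] (1 / 2)) (𝓝 ((1 / 2 : ℝ) ^ 2 * ∫ x in (0 : ℝ)..(2 * Real.pi), f x ^ 2)) := by
    apply tendsto_nhdsWithin_of_tendsto_nhds
    exact ((continuous_pow 2).mul continuous_const).tendsto _
  have h := le_of_tendsto hcont (by
    have : ∀ᶠ l : ℝ in 𝓝[<] (1 / 2), l ∈ Ioo (0 : ℝ) (1 / 2) :=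
      Ioo_mem_nhdsLT (by norm_num)
    filter_upwards [this] with l hl
    exact wirtinger_aux hf hf' h0 h1 hl.1 hl.2)
  have e : (1 / 2 : ℝ) ^ 2 = 1 / 4 := by norm_num
  rwa [e] at h

/-- Wirtinger inequality for 2 pi periodic functions with a zero. -/
theorem wirtinger {f f' : ℝ → ℝ} (hf : ∀ x, HasDerivAt f (f' x) x) (hf' : Continuous f')
    (hp : Function.Periodic f (2 * Real.pi)) {a : ℝ} (ha : f a = 0) :
    (1 / 4) * ∫ x in (0 : ℝ)..(2 * Real.pi), f x ^ 2 ≤ ∫ x in (0 : ℝ)..(2 * Real.pi), f' x ^ 2 := by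
  have hp' : Function.Periodic f' (2 * Real.pi) := by
    intro x
    have h1 : HasDerivAt (fun y => f (y + 2 * Real.pi)) (f' (x + 2 * Real.pi)) x := by
      simpa using (hf (x + 2 * Real.pi)).comp_add_const x (2 * Real.pi)
    have h2 : (fun y => f (y + 2 * Real.pi)) = f := funext hp
    rw [h2] at h1
    exact h1.unique (hf x)
  have e1 : ∫ x in (0 : ℝ)..(2 * Real.pi), f x ^ 2 = ∫ x in (0 : ℝ)..(2 * Real.pi), f (x + a) ^ 2 := by
    rw [intervalIntegral.integral_comp_add_right (fun x => f x ^ 2) a]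
    have hpp : Function.Periodic (fun x => f x ^ 2) (2 * Real.pi) := fun x => by simp [hp x]
    have := hpp.intervalIntegral_add_eq 0 a
    simpa [add_comm] using this
  have e2 : ∫ x in (0 : ℝ)..(2 * Real.pi), f' x ^ 2 =
      ∫ x in (0 : ℝ)..(2 * Real.pi), f' (x + a) ^ 2 := by
    rw [intervalIntegral.integral_comp_add_right (fun x => f' x ^ 2) a]
    have hpp : Function.Periodic (fun x => f' x ^ 2) (2 * Real.pi) := fun x => by simp [hp' x]
    have := hpp.intervalIntegral_add_eq 0 a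
    simpa [add_comm] using this
  rw [e1, e2]
  apply wirtinger_zero (f := fun x => f (x + a)) (f' := fun x => f' (x + a))
  · intro x
    simpa using (hf (x + a)).comp_add_const x a
  · exact hf'.comp (continuous_id.add continuous_const)
  · simpa using ha
  · have := hp a
    simpa [add_comm] using this.trans ha


end Wirtinger

section Carleman

open Set MeasureTheory Filter Topology


/-- joint continuity on the half space -/
def JC (F : ℝ → ℝ → ℝ) : Prop := ContinuousOn (fun p : ℝ × ℝ => F p.1 p.2) (Ioi 0 ×ˢ univ)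

theorem JC.slice {F : ℝ → ℝ → ℝ} (hF : JC F) {s : ℝ} (hs : 0 < s) : Continuous (F s) := by
  rw [← continuousOn_univ]
  exact ContinuousOn.comp (g := fun p : ℝ × ℝ => F p.1 p.2) (f := fun t => (s, t)) hF
    (by fun_prop) (fun t _ => ⟨hs, mem_univ _⟩)

theorem JC.mul {F G : ℝ → ℝ → ℝ} (hF : JC F) (hG : JC G) : JC (fun s t => F s t * G s t) :=
  ContinuousOn.mul hF hG

theorem JC.add {F G : ℝ → ℝ → ℝ} (hF : JC F) (hG : JC G) : JC (fun s t => F s t + G s t) :=
  ContinuousOn.add hF hG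

theorem JC.const_mul {F : ℝ → ℝ → ℝ} (hF : JC F) (c : ℝ) : JC (fun s t => c * F s t) :=
  ContinuousOn.mul continuousOn_const hF

theorem hasDerivAt_param {F F' : ℝ → ℝ → ℝ} (hF : JC F) (hF' : JC F')
    (hd : ∀ s, 0 < s → ∀ t, HasDerivAt (fun x => F x t) (F' s t) s) {s : ℝ} (hs : 0 < s) :
    HasDerivAt (fun x => ∫ t in (0 : ℝ)..(2 * Real.pi), F x t)
      (∫ t in (0 : ℝ)..(2 * Real.pi), F' s t) s := by
  have hK : IsCompact (Icc (s / 2) (2 * s) ×ˢ Icc (0 : ℝ) (2 * Real.pi)) :=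
    isCompact_Icc.prod isCompact_Icc
  have hsub : Icc (s / 2) (2 * s) ×ˢ Icc (0 : ℝ) (2 * Real.pi) ⊆ Ioi (0 : ℝ) ×ˢ univ := by
    rintro ⟨x, t⟩ ⟨hx, _⟩
    exact ⟨lt_of_lt_of_le (by positivity) hx.1, mem_univ _⟩
  obtain ⟨C, hC⟩ := hK.exists_bound_of_continuousOn (hF'.mono hsub)
  have hle : (0 : ℝ) ≤ 2 * Real.pi := by positivity
  refine (intervalIntegral.hasDerivAt_integral_of_dominated_loc_of_deriv_le
    (s := Ioo (s / 2) (2 * s)) (bound := fun _ => C) (Ioo_mem_nhds (by linarith) (by linarith))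
    ?_ ?_ ?_ ?_ ?_ ?_).2
  · filter_upwards [Ioi_mem_nhds hs] with x hx
    exact (hF.slice hx).aestronglyMeasurable
  · exact (hF.slice hs).intervalIntegrable _ _
  · exact (hF'.slice hs).aestronglyMeasurable
  · refine Eventually.of_forall fun t ht x hx => ?_
    rw [uIoc_of_le hle] at ht
    exact hC (x, t) ⟨⟨hx.1.le, hx.2.le⟩, ⟨ht.1.le, ht.2⟩⟩
  · exact intervalIntegrable_const
  · refine Eventually.of_forall fun t _ x hx => ?_
    exact hd x (lt_trans (by positivity) hx.1) t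

/-- Cauchy-Schwarz for interval integrals of continuous functions -/
theorem cs_integral {f g : ℝ → ℝ} (hf : Continuous f) (hg : Continuous g) {a b : ℝ} (hab : a ≤ b) :
    (∫ x in a..b, f x * g x) ^ 2 ≤ (∫ x in a..b, f x ^ 2) * ∫ x in a..b, g x ^ 2 := by
  set A := ∫ x in a..b, f x ^ 2
  set B := ∫ x in a..b, f x * g x
  set C := ∫ x in a..b, g x ^ 2
  have h : ∀ y : ℝ, 0 ≤ A * (y * y) + (2 * B) * y + C := by
    intro y
    have h1 : 0 ≤ ∫ x in a..b, (y * f x + g x) ^ 2 :=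
      intervalIntegral.integral_nonneg hab fun x _ => sq_nonneg _
    have h2 : ∫ x in a..b, (y * f x + g x) ^ 2 = A * (y * y) + (2 * B) * y + C := by
      have e : ∀ x, (y * f x + g x) ^ 2 = (y * y) * f x ^ 2 + (2 * y) * (f x * g x) + g x ^ 2 := by
        intro x; ring
      simp_rw [e]
      rw [intervalIntegral.integral_add, intervalIntegral.integral_add,
        intervalIntegral.integral_const_mul, intervalIntegral.integral_const_mul]
      · ring
      all_goals exact Continuous.intervalIntegrable (by fun_prop) _ _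
    rwa [h2] at h1
  have := discrim_le_zero h
  unfold discrim at this
  nlinarith

structure Data (k : ℝ) (w ws wt wss wtt : ℝ → ℝ → ℝ) : Prop where
  hs : ∀ s, 0 < s → ∀ t, HasDerivAt (fun x => w x t) (ws s t) s
  hss : ∀ s, 0 < s → ∀ t, HasDerivAt (fun x => ws x t) (wss s t) s
  ht : ∀ s, 0 < s → ∀ t, HasDerivAt (fun y => w s y) (wt s t) t
  htt : ∀ s, 0 < s → ∀ t, HasDerivAt (fun y => wt s y) (wtt s t) t
  cw : JC w
  cws : JC ws
  cwt : JC wt
  cwss : JC wss
  cwtt : JC wtt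
  per : ∀ s, 0 < s → Function.Periodic (w s) (2 * Real.pi)
  nn : ∀ s, 0 < s → ∀ t, 0 ≤ w s t
  lap : ∀ s, 0 < s → ∀ t, -(k ^ 2 * Real.exp (k * s)) ≤ wss s t + wtt s t

noncomputable section

def I0 (w : ℝ → ℝ → ℝ) (s : ℝ) : ℝ := ∫ t in (0 : ℝ)..(2 * Real.pi), w s t ^ 2

def M0 (w : ℝ → ℝ → ℝ) (s : ℝ) : ℝ := 1 + I0 w s / (2 * Real.pi)

def J0 (w : ℝ → ℝ → ℝ) (s : ℝ) : ℝ := Real.sqrt (M0 w s)

def M1 (w ws : ℝ → ℝ → ℝ) (s : ℝ) : ℝ :=
  (∫ t in (0 : ℝ)..(2 * Real.pi), 2 * (w s t * ws s t)) / (2 * Real.pi)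

def M2 (w ws wss : ℝ → ℝ → ℝ) (s : ℝ) : ℝ :=
  (∫ t in (0 : ℝ)..(2 * Real.pi), 2 * (ws s t * ws s t + w s t * wss s t)) / (2 * Real.pi)

def J1 (w ws : ℝ → ℝ → ℝ) (s : ℝ) : ℝ := M1 w ws s / (2 * J0 w s)

def J2 (w ws wss : ℝ → ℝ → ℝ) (s : ℝ) : ℝ :=
  M2 w ws wss s / (2 * J0 w s) - M1 w ws s ^ 2 / (4 * J0 w s ^ 3)

variable {k : ℝ} {w ws wt wss wtt : ℝ → ℝ → ℝ}

theorem I0_nonneg (w : ℝ → ℝ → ℝ) (s : ℝ) : 0 ≤ I0 w s :=
  intervalIntegral.integral_nonneg (by positivity) fun x _ => sq_nonneg _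

theorem M0_ge (w : ℝ → ℝ → ℝ) (s : ℝ) : 1 ≤ M0 w s := by
  have := I0_nonneg w s
  unfold M0
  have h : 0 ≤ I0 w s / (2 * Real.pi) := by positivity
  linarith

theorem J0_ge (w : ℝ → ℝ → ℝ) (s : ℝ) : 1 ≤ J0 w s := by
  unfold J0
  rw [show (1 : ℝ) = Real.sqrt 1 by simp]
  exact Real.sqrt_le_sqrt (M0_ge w s)

theorem J0_sq (w : ℝ → ℝ → ℝ) (s : ℝ) : J0 w s ^ 2 = M0 w s :=
  Real.sq_sqrt (by linarith [M0_ge w s])

theorem hasDerivAt_M0 (D : Data k w ws wt wss wtt) {s : ℝ} (hs : 0 < s) :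
    HasDerivAt (M0 w) (M1 w ws s) s := by
  have h := hasDerivAt_param (F := fun s t => w s t ^ 2) (F' := fun s t => 2 * (w s t * ws s t))
    (by have h := D.cw.mul D.cw; simpa only [sq] using h)
    ((D.cw.mul D.cws).const_mul 2) (fun s hs t => by
      have := (D.hs s hs t).pow 2
      refine this.congr_deriv ?_
      simp only [Nat.cast_ofNat]
      ring) hs
  exact (h.div_const (2 * Real.pi)).const_add 1

theorem hasDerivAt_M1 (D : Data k w ws wt wss wtt) {s : ℝ} (hs : 0 < s) :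
    HasDerivAt (M1 w ws) (M2 w ws wss s) s := by
  have h := hasDerivAt_param (F := fun s t => 2 * (w s t * ws s t))
    (F' := fun s t => 2 * (ws s t * ws s t + w s t * wss s t))
    ((D.cw.mul D.cws).const_mul 2) (((D.cws.mul D.cws).add (D.cw.mul D.cwss)).const_mul 2)
    (fun s hs t => by
      exact ((D.hs s hs t).mul (D.hss s hs t)).const_mul 2) hs
  exact (h.div_const (2 * Real.pi))

theorem hasDerivAt_J0 (D : Data k w ws wt wss wtt) {s : ℝ} (hs : 0 < s) :
    HasDerivAt (J0 w) (J1 w ws s) s := by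
  have h := (hasDerivAt_M0 D hs).sqrt (by linarith [M0_ge w s])
  exact h

theorem hasDerivAt_J1 (D : Data k w ws wt wss wtt) {s : ℝ} (hs : 0 < s) :
    HasDerivAt (J1 w ws) (J2 w ws wss s) s := by
  have hJ := J0_ge w s
  have h := (hasDerivAt_M1 D hs).div ((hasDerivAt_J0 D hs).const_mul 2) (by positivity)
  refine h.congr_deriv ?_
  unfold J2 J1
  field_simp
  ring

/-- mean of the square of the s derivative -/
def P0 (ws : ℝ → ℝ → ℝ) (s : ℝ) : ℝ := I0 ws s / (2 * Real.pi)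

theorem M1_sq_le (D : Data k w ws wt wss wtt) {s : ℝ} (hs : 0 < s) :
    M1 w ws s ^ 2 ≤ 4 * (I0 w s / (2 * Real.pi)) * P0 ws s := by
  have h := cs_integral (D.cw.slice hs) (D.cws.slice hs) (a := 0) (b := 2 * Real.pi) (by positivity)
  unfold M1 P0 I0
  rw [intervalIntegral.integral_const_mul]
  have hpi := Real.pi_pos
  rw [div_pow, mul_pow]
  have e : 4 * ((∫ t in (0 : ℝ)..(2 * Real.pi), w s t ^ 2) / (2 * Real.pi)) *
      ((∫ t in (0 : ℝ)..(2 * Real.pi), ws s t ^ 2) / (2 * Real.pi)) =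
      2 ^ 2 * ((∫ t in (0 : ℝ)..(2 * Real.pi), w s t ^ 2) *
      (∫ t in (0 : ℝ)..(2 * Real.pi), ws s t ^ 2)) / (2 * Real.pi) ^ 2 := by
    field_simp
    ring
  rw [e]
  gcongr

theorem mean_le_J0 (D : Data k w ws wt wss wtt) {s : ℝ} (hs : 0 < s) :
    (∫ t in (0 : ℝ)..(2 * Real.pi), w s t) / (2 * Real.pi) ≤ J0 w s := by
  have h := cs_integral (D.cw.slice hs) (continuous_const (y := (1 : ℝ)))
    (a := 0) (b := 2 * Real.pi) (by positivity)
  simp only [mul_one, one_pow, intervalIntegral.integral_const, sub_zero, smul_eq_mul] at h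
  apply Real.le_sqrt_of_sq_le
  unfold M0 I0
  have hpi := Real.pi_pos
  rw [div_pow]
  have e : (∫ t in (0 : ℝ)..(2 * Real.pi), w s t) ^ 2 / (2 * Real.pi) ^ 2 ≤
      ((∫ t in (0 : ℝ)..(2 * Real.pi), w s t ^ 2) * (2 * Real.pi)) / (2 * Real.pi) ^ 2 := by
    gcongr
  have e2 : ((∫ t in (0 : ℝ)..(2 * Real.pi), w s t ^ 2) * (2 * Real.pi)) / (2 * Real.pi) ^ 2 =
      (∫ t in (0 : ℝ)..(2 * Real.pi), w s t ^ 2) / (2 * Real.pi) := by
    field_simp
  linarith

theorem parts (D : Data k w ws wt wss wtt) {s : ℝ} (hs : 0 < s) :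
    ∫ t in (0 : ℝ)..(2 * Real.pi), w s t * wtt s t = - I0 wt s := by
  have hd : ∀ t ∈ uIcc (0 : ℝ) (2 * Real.pi),
      HasDerivAt (fun y => w s y * wt s y) (wt s t * wt s t + w s t * wtt s t) t := by
    intro t _
    exact (D.ht s hs t).mul (D.htt s hs t)
  have c1 := D.cw.slice hs
  have c2 := D.cwt.slice hs
  have c3 := D.cwtt.slice hs
  have h := intervalIntegral.integral_eq_sub_of_hasDerivAt hd
    (Continuous.intervalIntegrable (by fun_prop) _ _)
  have hper := D.per s hs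
  have hper' : Function.Periodic (wt s) (2 * Real.pi) := by
    intro x
    have h1 : HasDerivAt (fun y => w s (y + 2 * Real.pi)) (wt s (x + 2 * Real.pi)) x := by
      simpa using (D.ht s hs (x + 2 * Real.pi)).comp_add_const x (2 * Real.pi)
    have h2 : (fun y => w s (y + 2 * Real.pi)) = w s := funext hper
    rw [h2] at h1
    exact h1.unique (D.ht s hs x)
  have e1 : w s (2 * Real.pi) = w s 0 := by simpa using hper 0
  have e2 : wt s (2 * Real.pi) = wt s 0 := by simpa using hper' 0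
  rw [e1, e2, sub_self, intervalIntegral.integral_add
    (Continuous.intervalIntegrable (by fun_prop) _ _)
    (Continuous.intervalIntegrable (by fun_prop) _ _)] at h
  unfold I0
  have e3 : ∀ t, wt s t ^ 2 = wt s t * wt s t := fun t => sq _
  simp_rw [e3]
  linarith

/-- lower bound for the second derivative of the mean square -/
theorem M2_ge (D : Data k w ws wt wss wtt) {s : ℝ} (hs : 0 < s) :
    2 * P0 ws s + 2 * P0 wt s - 2 * (k ^ 2 * Real.exp (k * s)) * J0 w s ≤ M2 w ws wss s := by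
  have c1 := D.cw.slice hs
  have c2 := D.cws.slice hs
  have c3 := D.cwss.slice hs
  have c4 := D.cwtt.slice hs
  have hpi := Real.pi_pos
  have h1 : ∫ t in (0 : ℝ)..(2 * Real.pi), -(k ^ 2 * Real.exp (k * s)) * w s t ≤
      ∫ t in (0 : ℝ)..(2 * Real.pi), (w s t * wss s t + w s t * wtt s t) := by
    apply intervalIntegral.integral_mono_on (by positivity)
      (Continuous.intervalIntegrable (by fun_prop) _ _)
      (Continuous.intervalIntegrable (by fun_prop) _ _)
    intro t _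
    nlinarith [D.lap s hs t, D.nn s hs t]
  rw [intervalIntegral.integral_add (Continuous.intervalIntegrable (by fun_prop) _ _)
    (Continuous.intervalIntegrable (by fun_prop) _ _), parts D hs,
    intervalIntegral.integral_const_mul] at h1
  have h2 : M2 w ws wss s = 2 * (I0 ws s + ∫ t in (0 : ℝ)..(2 * Real.pi), w s t * wss s t) /
      (2 * Real.pi) := by
    unfold M2 I0
    rw [intervalIntegral.integral_const_mul, intervalIntegral.integral_add
      (Continuous.intervalIntegrable (by fun_prop) _ _)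
      (Continuous.intervalIntegrable (by fun_prop) _ _)]
    simp_rw [sq]
  have h3 := mean_le_J0 D hs
  rw [h2]
  have hk : 0 ≤ k ^ 2 * Real.exp (k * s) := by positivity
  unfold P0
  rw [div_le_iff₀ (by positivity)] at h3
  rw [le_div_iff₀ (by positivity)]
  have e : (2 * (I0 ws s / (2 * Real.pi)) + 2 * (I0 wt s / (2 * Real.pi)) -
      2 * (k ^ 2 * Real.exp (k * s)) * J0 w s) * (2 * Real.pi) =
      2 * I0 ws s + 2 * I0 wt s - 2 * (k ^ 2 * Real.exp (k * s)) * (J0 w s * (2 * Real.pi)) := by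
    field_simp
  rw [e]
  nlinarith [mul_le_mul_of_nonneg_left h3 hk]

theorem J2_ge_aux (D : Data k w ws wt wss wtt) {s : ℝ} (hs : 0 < s) :
    P0 wt s / J0 w s - k ^ 2 * Real.exp (k * s) ≤ J2 w ws wss s := by
  have h1 := M2_ge D hs
  have h2 := M1_sq_le D hs
  have hJ := J0_ge w s
  have hJ2 := J0_sq w s
  have hI := I0_nonneg w s
  have hP : 0 ≤ P0 ws s := by
    have := I0_nonneg ws s
    unfold P0; positivity
  have hI' : I0 w s / (2 * Real.pi) = J0 w s ^ 2 - 1 := by
    rw [hJ2]; unfold M0; ring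
  rw [hI'] at h2
  unfold J2
  have h3 : (2 * P0 ws s + 2 * P0 wt s - 2 * (k ^ 2 * Real.exp (k * s)) * J0 w s) /
      (2 * J0 w s) ≤ M2 w ws wss s / (2 * J0 w s) := by gcongr
  have h4 : M1 w ws s ^ 2 / (4 * J0 w s ^ 3) ≤
      4 * (J0 w s ^ 2 - 1) * P0 ws s / (4 * J0 w s ^ 3) := by gcongr
  have h5 : 4 * (J0 w s ^ 2 - 1) * P0 ws s / (4 * J0 w s ^ 3) ≤ P0 ws s / J0 w s := by
    rw [div_le_div_iff₀ (by positivity) (by positivity)]
    nlinarith [mul_nonneg hP (by positivity : 0 ≤ J0 w s)]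
  have h6 : (2 * P0 ws s + 2 * P0 wt s - 2 * (k ^ 2 * Real.exp (k * s)) * J0 w s) /
      (2 * J0 w s) = P0 ws s / J0 w s + P0 wt s / J0 w s - k ^ 2 * Real.exp (k * s) := by
    field_simp
  linarith

theorem J2_ge_weak (D : Data k w ws wt wss wtt) {s : ℝ} (hs : 0 < s) :
    - (k ^ 2 * Real.exp (k * s)) ≤ J2 w ws wss s := by
  have h := J2_ge_aux D hs
  have hJ := J0_ge w s
  have : 0 ≤ P0 wt s / J0 w s := by
    have := I0_nonneg wt s
    unfold P0; positivity
  linarith

theorem J2_ge_strong (D : Data k w ws wt wss wtt) {s : ℝ} (hs : 0 < s) {t : ℝ} (ht : w s t = 0) :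
    J0 w s / 4 - 1 / 4 - k ^ 2 * Real.exp (k * s) ≤ J2 w ws wss s := by
  have h := J2_ge_aux D hs
  have hJ := J0_ge w s
  have hw := wirtinger (fun x => D.ht s hs x) (D.cwt.slice hs) (D.per s hs) ht
  have hpi := Real.pi_pos
  have h1 : (1 / 4) * (J0 w s ^ 2 - 1) ≤ P0 wt s := by
    have hI' : J0 w s ^ 2 - 1 = I0 w s / (2 * Real.pi) := by
      rw [J0_sq]; unfold M0; ring
    rw [hI']
    unfold P0 I0
    rw [← mul_div_assoc]
    gcongr
  have h2 : J0 w s / 4 - 1 / 4 ≤ P0 wt s / J0 w s := by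
    rw [le_div_iff₀ (by positivity)]
    nlinarith
  linarith

/-- The key estimate. -/
theorem key (D : Data k w ws wt wss wtt) (hk0 : 0 < k) (hk : k < 1 / 2) {s0 s1 S : ℝ}
    (hs0 : 0 < s0) (hs1 : s0 < s1) (hz : ∀ s, s1 < s → ∃ t, w s t = 0)
    (hS : ∀ s, S ≤ s → ∀ t, w s t = 0) :
    J0 w s1 ≤ J0 w s0 + Real.exp (k * s0) +
      (1 + (2 * k ^ 2 / (1 / 2 - k) + 2 * k) * Real.exp (k * s1)) := by
  have hs1' : 0 < s1 := hs0.trans hs1
  have hpos : 0 < 1 / 2 - k := by linarith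
  by_cases hcase : J0 w s1 + Real.exp (k * s1) ≤ J0 w s0 + Real.exp (k * s0)
  · have e1 : 0 ≤ (2 * k ^ 2 / (1 / 2 - k) + 2 * k) * Real.exp (k * s1) := by positivity
    have e2 := Real.exp_pos (k * s1)
    linarith
  push Not at hcase
  -- Y1 = J1 + k exp(k s) is monotone
  have hexp : ∀ s : ℝ, HasDerivAt (fun x => Real.exp (k * x)) (k * Real.exp (k * s)) s := by
    intro s
    have := ((hasDerivAt_id s).const_mul k).exp
    refine this.congr_deriv ?_
    simp [mul_comm]
  have hY : ∀ s, 0 < s → HasDerivAt (fun x => J0 w x + Real.exp (k * x))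
      (J1 w ws s + k * Real.exp (k * s)) s := fun s hs => (hasDerivAt_J0 D hs).add (hexp s)
  have hY1 : ∀ s, 0 < s → HasDerivAt (fun x => J1 w ws x + k * Real.exp (k * x))
      (J2 w ws wss s + k * (k * Real.exp (k * s))) s := fun s hs =>
    (hasDerivAt_J1 D hs).add ((hexp s).const_mul k)
  have hmono : MonotoneOn (fun x => J1 w ws x + k * Real.exp (k * x)) (Ioi 0) := by
    apply monotoneOn_of_hasDerivWithinAt_nonneg (f' := fun s => J2 w ws wss s +
      k * (k * Real.exp (k * s))) (convex_Ioi 0)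
    · exact fun s hs => (hY1 s hs).continuousAt.continuousWithinAt
    · intro s hs
      rw [interior_Ioi] at hs ⊢
      exact (hY1 s hs).hasDerivWithinAt
    · intro s hs
      rw [interior_Ioi] at hs
      have := J2_ge_weak D hs
      nlinarith
  obtain ⟨c, hc, hc2⟩ := exists_hasDerivAt_eq_slope (fun x => J0 w x + Real.exp (k * x))
    (fun s => J1 w ws s + k * Real.exp (k * s)) hs1
    (fun s hs => (hY s (lt_of_lt_of_le hs0 hs.1)).continuousAt.continuousWithinAt)
    (fun s hs => hY s (hs0.trans hs.1))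
  have hc3 : 0 < J1 w ws c + k * Real.exp (k * c) := by
    rw [hc2]
    apply div_pos <;> linarith
  have hJ1 : 0 < J1 w ws s1 + k * Real.exp (k * s1) :=
    lt_of_lt_of_le hc3 (hmono (hs0.trans hc.1) hs1' hc.2.le)
  -- the function R
  let R : ℝ → ℝ := fun s => Real.exp (-(1 / 2) * s) * (J1 w ws s + J0 w s / 2) -
    (1 / 2) * Real.exp (-(1 / 2) * s) - (k ^ 2 / (1 / 2 - k)) * Real.exp ((k - 1 / 2) * s)
  have hexp2 : ∀ c s : ℝ, HasDerivAt (fun x => Real.exp (c * x)) (c * Real.exp (c * s)) s := by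
    intro c s
    have := ((hasDerivAt_id s).const_mul c).exp
    refine this.congr_deriv ?_
    simp [mul_comm]
  have hR : ∀ s, 0 < s → HasDerivAt R (Real.exp (-(1 / 2) * s) *
      (J2 w ws wss s - J0 w s / 4 + 1 / 4 + k ^ 2 * Real.exp (k * s))) s := by
    intro s hs
    have h1 := (hexp2 (-(1 / 2)) s).mul ((hasDerivAt_J1 D hs).add ((hasDerivAt_J0 D hs).div_const 2))
    have h2 := (hexp2 (-(1 / 2)) s).const_mul (1 / 2)
    have h3 := (hexp2 (k - 1 / 2) s).const_mul (k ^ 2 / (1 / 2 - k))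
    refine ((h1.sub h2).sub h3).congr_deriv ?_
    have e : Real.exp ((k - 1 / 2) * s) = Real.exp (-(1 / 2) * s) * Real.exp (k * s) := by
      rw [← Real.exp_add]; ring_nf
    rw [e]
    have e2 : k ^ 2 / (1 / 2 - k) * ((k - 1 / 2) * (Real.exp (-(1 / 2) * s) * Real.exp (k * s))) =
        - k ^ 2 * (Real.exp (-(1 / 2) * s) * Real.exp (k * s)) := by
      have hne : (1 / 2 - k) ≠ 0 := hpos.ne'
      have e3 : k ^ 2 / (1 / 2 - k) * (k - 1 / 2) = - k ^ 2 := by
        rw [show k - 1 / 2 = -(1 / 2 - k) by ring, mul_neg, div_mul_cancel₀ _ hne]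
      rw [← mul_assoc, e3]
    rw [e2]
    simp only [Pi.add_apply]
    ring
  have hRmono : MonotoneOn R (Ici s1) := by
    apply monotoneOn_of_hasDerivWithinAt_nonneg (f' := fun s => Real.exp (-(1 / 2) * s) *
      (J2 w ws wss s - J0 w s / 4 + 1 / 4 + k ^ 2 * Real.exp (k * s))) (convex_Ici s1)
    · exact fun s hs => (hR s (lt_of_lt_of_le hs1' hs)).continuousAt.continuousWithinAt
    · intro s hs
      rw [interior_Ici] at hs ⊢
      exact (hR s (hs1'.trans hs)).hasDerivWithinAt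
    · intro s hs
      rw [interior_Ici] at hs
      obtain ⟨t, ht⟩ := hz s hs
      have := J2_ge_strong D (hs1'.trans hs) ht
      apply mul_nonneg (Real.exp_pos _).le
      linarith
  have hRzero : ∀ s, max S s1 < s → R s = - (k ^ 2 / (1 / 2 - k)) * Real.exp ((k - 1 / 2) * s) := by
    intro s hs
    have hsS : S < s := lt_of_le_of_lt (le_max_left _ _) hs
    have hI : I0 w s = 0 := by
      unfold I0
      simp [hS s hsS.le]
    have hJ : J0 w s = 1 := by
      unfold J0 M0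
      simp [hI]
    have hM : M1 w ws s = 0 := by
      unfold M1
      simp [hS s hsS.le]
    have hJ' : J1 w ws s = 0 := by
      unfold J1
      simp [hM]
    simp only [R, hJ, hJ']
    ring
  have hR1 : R s1 ≤ 0 := by
    have hsx : max S s1 < max S s1 + 1 := by linarith
    have h1 := hRmono (mem_Ici.2 le_rfl) (mem_Ici.2 ((le_max_right S s1).trans hsx.le))
      ((le_max_right S s1).trans hsx.le)
    rw [hRzero _ hsx] at h1
    refine h1.trans ?_
    have : 0 ≤ (k ^ 2 / (1 / 2 - k)) * Real.exp ((k - 1 / 2) * (max S s1 + 1)) := by positivity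
    linarith
  have hfin : J1 w ws s1 + J0 w s1 / 2 - 1 / 2 - (k ^ 2 / (1 / 2 - k)) * Real.exp (k * s1) ≤ 0 := by
    have e : Real.exp ((k - 1 / 2) * s1) = Real.exp (-(1 / 2) * s1) * Real.exp (k * s1) := by
      rw [← Real.exp_add]; ring_nf
    have e2 : R s1 = Real.exp (-(1 / 2) * s1) * (J1 w ws s1 + J0 w s1 / 2 - 1 / 2 -
        (k ^ 2 / (1 / 2 - k)) * Real.exp (k * s1)) := by
      simp only [R]
      rw [e]; ring
    rw [e2] at hR1
    exact nonpos_of_mul_nonpos_right hR1 (Real.exp_pos _)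
  have hJ0 := J0_ge w s0
  have e2 := Real.exp_pos (k * s0)
  have e3 : (2 * k ^ 2 / (1 / 2 - k) + 2 * k) * Real.exp (k * s1) =
    2 * ((k ^ 2 / (1 / 2 - k)) * Real.exp (k * s1)) + 2 * (k * Real.exp (k * s1)) := by ring
  rw [e3]
  linarith

end


end Carleman

section Cutting

open Set MeasureTheory Filter Topology Complex


noncomputable section

theorem deriv_glue {F F' : ℝ → ℝ} (h : ∀ x, 0 ≤ x → HasDerivAt F (F' x) x) (h0 : F 0 = 0)
    (h0' : F' 0 = 0) (x : ℝ) :
    HasDerivAt (fun x => if x ≤ 0 then 0 else F x) (if x ≤ 0 then 0 else F' x) x := by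
  rcases lt_trichotomy x 0 with hx | hx | hx
  · rw [if_pos hx.le]
    apply (hasDerivAt_const x (0 : ℝ)).congr_of_eventuallyEq
    filter_upwards [Iio_mem_nhds hx] with y hy
    rw [if_pos (le_of_lt hy)]
  · subst hx
    rw [if_pos le_rfl]
    have h1 : HasDerivWithinAt (fun x => if x ≤ 0 then 0 else F x) 0 (Iic (0 : ℝ)) 0 := by
      apply (hasDerivWithinAt_const (0 : ℝ) (Iic (0 : ℝ)) (0 : ℝ)).congr
      · intro y hy; exact if_pos (mem_Iic.1 hy)
      · rw [if_pos le_rfl]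
    have h2 : HasDerivWithinAt (fun x => if x ≤ 0 then 0 else F x) 0 (Ici (0 : ℝ)) 0 := by
      have := (h 0 le_rfl).hasDerivWithinAt (s := Ici (0 : ℝ))
      rw [h0'] at this
      apply this.congr
      · intro y hy
        rcases eq_or_lt_of_le (mem_Ici.1 hy) with h | h
        · rw [← h, if_pos le_rfl, h0]
        · rw [if_neg (not_le.2 h)]
      · rw [if_pos le_rfl, h0]
    have h3 := h1.union h2
    rwa [Iic_union_Ici, hasDerivWithinAt_univ] at h3
  · rw [if_neg (not_le.2 hx)]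
    apply (h x hx.le).congr_of_eventuallyEq
    filter_upwards [Ioi_mem_nhds hx] with y hy
    rw [if_neg (not_le.2 hy)]

def psi (x : ℝ) : ℝ := if x ≤ 0 then 0 else x ^ 3 / (x + 1) ^ 2
def psi1 (x : ℝ) : ℝ := if x ≤ 0 then 0 else (x ^ 3 + 3 * x ^ 2) / (x + 1) ^ 3
def psi2 (x : ℝ) : ℝ := if x ≤ 0 then 0 else 6 * x / (x + 1) ^ 4

theorem hasDerivAt_psi (x : ℝ) : HasDerivAt psi (psi1 x) x := by
  apply deriv_glue (F := fun x => x ^ 3 / (x + 1) ^ 2)
    (F' := fun x => (x ^ 3 + 3 * x ^ 2) / (x + 1) ^ 3)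
  · intro x hx
    have h1 : HasDerivAt (fun x : ℝ => x ^ 3) (3 * x ^ 2) x := by
      simpa using hasDerivAt_pow 3 x
    have h2 : HasDerivAt (fun x : ℝ => (x + 1) ^ 2) (2 * (x + 1)) x := by
      have := (((hasDerivAt_id x).add_const 1).fun_pow 2)
      simpa using this
    have hne : (x + 1) ≠ 0 := by positivity
    refine (h1.div h2 (by positivity)).congr_deriv ?_
    field_simp
    ring
  · simp
  · simp

theorem hasDerivAt_psi1 (x : ℝ) : HasDerivAt psi1 (psi2 x) x := by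
  apply deriv_glue (F := fun x => (x ^ 3 + 3 * x ^ 2) / (x + 1) ^ 3)
    (F' := fun x => 6 * x / (x + 1) ^ 4)
  · intro x hx
    have h1 : HasDerivAt (fun x : ℝ => x ^ 3 + 3 * x ^ 2) (3 * x ^ 2 + 3 * (2 * x)) x := by
      have a := hasDerivAt_pow 3 x
      have b := (hasDerivAt_pow 2 x).const_mul 3
      simpa using a.fun_add b
    have h2 : HasDerivAt (fun x : ℝ => (x + 1) ^ 3) (3 * (x + 1) ^ 2) x := by
      have := (((hasDerivAt_id x).add_const 1).fun_pow 3)
      simpa using this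
    have hne : (x + 1) ≠ 0 := by positivity
    refine (h1.div h2 (by positivity)).congr_deriv ?_
    field_simp
    ring
  · simp
  · simp

theorem continuous_psi : Continuous psi :=
  continuous_iff_continuousAt.2 fun x => (hasDerivAt_psi x).continuousAt

theorem continuous_psi1 : Continuous psi1 :=
  continuous_iff_continuousAt.2 fun x => (hasDerivAt_psi1 x).continuousAt

theorem continuous_psi2 : Continuous psi2 := by
  have e : psi2 = fun x => 6 * (max x 0) / (max x 0 + 1) ^ 4 := by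
    funext x
    unfold psi2
    split_ifs with h
    · rw [max_eq_right h]; simp
    · rw [max_eq_left (not_le.1 h).le]
  rw [e]
  apply Continuous.div (by fun_prop) (by fun_prop)
  intro x
  have : 0 ≤ max x 0 := le_max_right _ _
  positivity

theorem psi_of_nonpos {x : ℝ} (h : x ≤ 0) : psi x = 0 := if_pos h
theorem psi1_of_nonpos {x : ℝ} (h : x ≤ 0) : psi1 x = 0 := if_pos h
theorem psi2_of_nonpos {x : ℝ} (h : x ≤ 0) : psi2 x = 0 := if_pos h

theorem psi_nonneg (x : ℝ) : 0 ≤ psi x := by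
  unfold psi
  split_ifs with h
  · exact le_rfl
  · push Not at h; positivity

theorem psi1_nonneg (x : ℝ) : 0 ≤ psi1 x := by
  unfold psi1
  split_ifs with h
  · exact le_rfl
  · push Not at h; positivity

theorem psi2_nonneg (x : ℝ) : 0 ≤ psi2 x := by
  unfold psi2
  split_ifs with h
  · exact le_rfl
  · push Not at h; positivity

theorem psi1_le_one (x : ℝ) : psi1 x ≤ 1 := by
  unfold psi1
  split_ifs with h
  · norm_num
  · push Not at h
    rw [div_le_one (by positivity)]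
    nlinarith

theorem sub_two_le_psi (x : ℝ) : x - 2 ≤ psi x := by
  unfold psi
  split_ifs with h
  · linarith
  · push Not at h
    rw [le_div_iff₀ (by positivity)]
    nlinarith [sq_nonneg x]

/-- derivative of log of the norm of a complex valued function of one real variable -/
theorem hasDerivAt_log_norm {h : ℝ → ℂ} {h' : ℂ} {x : ℝ} (hh : HasDerivAt h h' x) (h0 : h x ≠ 0) :
    HasDerivAt (fun x => Real.log ‖h x‖) (h' / h x).re x := by
  have h1 : HasDerivAt (fun x => ‖h x‖ ^ 2) (2 * inner ℝ (h x) h') x := hh.norm_sq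
  have hn : ‖h x‖ ≠ 0 := norm_ne_zero_iff.2 h0
  have h2 := (h1.log (by positivity)).const_mul (1 / 2)
  have e : (fun x => Real.log ‖h x‖) = fun x => 1 / 2 * Real.log (‖h x‖ ^ 2) := by
    funext y
    rw [Real.log_pow]; push_cast; ring
  rw [e]
  refine h2.congr_deriv ?_
  rw [Complex.inner, Complex.div_re, ← Complex.normSq_eq_norm_sq]
  simp only [Complex.mul_re, Complex.conj_re, Complex.conj_im]
  have : Complex.normSq (h x) ≠ 0 := by
    simpa using h0
  field_simp
  ring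

/-- the point with logarithmic coordinates (s, t) -/
def zt (s t : ℝ) : ℂ := (s : ℂ) + t * I

theorem hasDerivAt_zt_s (s t : ℝ) : HasDerivAt (fun x : ℝ => zt x t) 1 s := by
  unfold zt
  exact (hasDerivAt_id s).ofReal_comp.add_const _

theorem hasDerivAt_zt_t (s t : ℝ) : HasDerivAt (fun y : ℝ => zt s y) I t := by
  unfold zt
  have := ((hasDerivAt_id t).ofReal_comp.mul_const I).const_add (s : ℂ)
  simpa using this

theorem continuous_zt : Continuous (fun p : ℝ × ℝ => zt p.1 p.2) := by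
  unfold zt; fun_prop

theorem norm_exp_zt (s t : ℝ) : ‖Complex.exp (zt s t)‖ = Real.exp s := by
  rw [Complex.norm_exp]
  simp [zt]

theorem exp_zt_periodic (s t : ℝ) :
    Complex.exp (zt s (t + 2 * Real.pi)) = Complex.exp (zt s t) := by
  have : zt s (t + 2 * Real.pi) = zt s t + 2 * Real.pi * I := by
    unfold zt; push_cast; ring
  rw [this, Complex.exp_periodic (zt s t)]

section

variable (g : ℂ → ℂ) (k : ℝ) (Q : Set ℂ)

def GG (z : ℂ) : ℂ := g (Complex.exp z)
def LL (z : ℂ) : ℂ := deriv (GG g) z / GG g z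
def L1 (z : ℂ) : ℂ := deriv (LL g) z

def vv (s t : ℝ) : ℝ := Real.log ‖GG g (zt s t)‖ - Real.exp (k * s) - 1
def vs (s t : ℝ) : ℝ := (LL g (zt s t)).re - k * Real.exp (k * s)
def vt (s t : ℝ) : ℝ := (LL g (zt s t) * I).re
def vss (s t : ℝ) : ℝ := (L1 g (zt s t)).re - k * (k * Real.exp (k * s))
def vtt (s t : ℝ) : ℝ := (L1 g (zt s t) * I * I).re

open Classical in
def cut (Y : ℝ → ℝ → ℝ) (s t : ℝ) : ℝ := if Complex.exp (zt s t) ∈ Q then Y s t else 0

/-- the closed set where log |g| is at least |z|^k + 1 -/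
def FF : Set ℂ := {z | 1 ≤ ‖z‖ ∧ Real.exp (1 + ‖z‖ ^ k) ≤ ‖g z‖}

variable {g k Q}

/-- good points for local representation -/
theorem local_rep (hg : Differentiable ℂ g) (hQc : IsClosed Q) (hQF : Q ⊆ FF g k)
    (hFQ : IsClosed (FF g k \ Q)) {s t : ℝ} (hs : 0 < s) :
    (Complex.exp (zt s t) ∈ Q ∧ GG g (zt s t) ≠ 0 ∧
      ∀ᶠ p : ℝ × ℝ in 𝓝 (s, t), Complex.exp (zt p.1 p.2) ∈ Q ∨ vv g k p.1 p.2 ≤ 0) ∨
    (Complex.exp (zt s t) ∉ Q ∧ ∀ᶠ p : ℝ × ℝ in 𝓝 (s, t), Complex.exp (zt p.1 p.2) ∉ Q) := by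
  have hc : Continuous (fun p : ℝ × ℝ => Complex.exp (zt p.1 p.2)) :=
    Complex.continuous_exp.comp continuous_zt
  by_cases h : Complex.exp (zt s t) ∈ Q
  · left
    have hF := hQF h
    have hpos : 0 < ‖GG g (zt s t)‖ := lt_of_lt_of_le (Real.exp_pos _) hF.2
    refine ⟨h, norm_pos_iff.1 hpos, ?_⟩
    have h1 : ∀ᶠ p : ℝ × ℝ in 𝓝 (s, t), Complex.exp (zt p.1 p.2) ∈ (FF g k \ Q)ᶜ :=
      hc.continuousAt (hFQ.isOpen_compl.mem_nhds (fun hh => hh.2 h))
    have h2 : ∀ᶠ p : ℝ × ℝ in 𝓝 (s, t), 0 < p.1 :=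
      continuous_fst.continuousAt (Ioi_mem_nhds hs)
    have h3 : ∀ᶠ p : ℝ × ℝ in 𝓝 (s, t), 0 < ‖GG g (zt p.1 p.2)‖ := by
      have : Continuous (fun p : ℝ × ℝ => ‖GG g (zt p.1 p.2)‖) :=
        (hg.continuous.comp hc).norm
      exact this.continuousAt (Ioi_mem_nhds hpos)
    filter_upwards [h1, h2, h3] with p hp1 hp2 hp3
    by_cases hq : Complex.exp (zt p.1 p.2) ∈ Q
    · exact Or.inl hq
    · right
      have hnF : Complex.exp (zt p.1 p.2) ∉ FF g k := fun hh => hp1 ⟨hh, hq⟩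
      have hn : ‖g (Complex.exp (zt p.1 p.2))‖ < Real.exp (1 + ‖Complex.exp (zt p.1 p.2)‖ ^ k) := by
        by_contra hcon
        push Not at hcon
        apply hnF
        refine ⟨?_, hcon⟩
        rw [norm_exp_zt]
        exact Real.one_le_exp hp2.le
      rw [norm_exp_zt, ← Real.exp_mul] at hn
      have := Real.log_lt_log hp3 hn
      rw [Real.log_exp] at this
      unfold vv
      have e : p.1 * k = k * p.1 := mul_comm _ _
      rw [e] at this
      linarith
  · right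
    refine ⟨h, ?_⟩
    exact (hc.continuousAt (x := (s, t))) (hQc.isOpen_compl.mem_nhds h)

theorem re_deriv {h : ℝ → ℂ} {h' : ℂ} {x : ℝ} (hh : HasDerivAt h h' x) :
    HasDerivAt (fun x => (h x).re) h'.re x :=
  (Complex.reCLM.hasFDerivAt.comp_hasDerivAt x hh)

theorem diff_GG (hg : Differentiable ℂ g) : Differentiable ℂ (GG g) :=
  hg.comp Complex.differentiable_exp

theorem analyticAt_LL (hg : Differentiable ℂ g) {z : ℂ} (hz : GG g z ≠ 0) :
    AnalyticAt ℂ (LL g) z := by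
  have h1 : AnalyticAt ℂ (GG g) z := (diff_GG hg).analyticAt z
  exact h1.deriv.div h1 hz

theorem hasDerivAt_LL (hg : Differentiable ℂ g) {z : ℂ} (hz : GG g z ≠ 0) :
    HasDerivAt (LL g) (L1 g z) z :=
  (analyticAt_LL hg hz).differentiableAt.hasDerivAt

theorem hasDerivAt_exp_k (s : ℝ) :
    HasDerivAt (fun x => Real.exp (k * x)) (k * Real.exp (k * s)) s := by
  have := ((hasDerivAt_id s).const_mul k).exp
  refine this.congr_deriv ?_
  simp [mul_comm]

theorem hasDerivAt_vv_s (hg : Differentiable ℂ g) {s t : ℝ} (h0 : GG g (zt s t) ≠ 0) :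
    HasDerivAt (fun x => vv g k x t) (vs g k s t) s := by
  have h1 : HasDerivAt (fun x : ℝ => GG g (zt x t)) (deriv (GG g) (zt s t) * 1) s :=
    HasDerivAt.comp (h₂ := GG g) (h := fun x : ℝ => zt x t) s
      ((diff_GG hg) (zt s t)).hasDerivAt (hasDerivAt_zt_s s t)
  have h2 := hasDerivAt_log_norm h1 h0
  rw [mul_one] at h2
  exact (h2.sub (hasDerivAt_exp_k s)).sub_const 1

theorem hasDerivAt_vv_t (hg : Differentiable ℂ g) {s t : ℝ} (h0 : GG g (zt s t) ≠ 0) :
    HasDerivAt (fun y => vv g k s y) (vt g s t) t := by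
  have h1 : HasDerivAt (fun y : ℝ => GG g (zt s y)) (deriv (GG g) (zt s t) * I) t :=
    HasDerivAt.comp (h₂ := GG g) (h := fun y : ℝ => zt s y) t
      ((diff_GG hg) (zt s t)).hasDerivAt (hasDerivAt_zt_t s t)
  have h2 := hasDerivAt_log_norm h1 h0
  have h3 := (h2.sub_const (Real.exp (k * s))).sub_const 1
  refine h3.congr_deriv ?_
  unfold vt LL
  congr 1
  ring

theorem hasDerivAt_vs (hg : Differentiable ℂ g) {s t : ℝ} (h0 : GG g (zt s t) ≠ 0) :
    HasDerivAt (fun x => vs g k x t) (vss g k s t) s := by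
  have h1 : HasDerivAt (fun x : ℝ => LL g (zt x t)) (L1 g (zt s t) * 1) s :=
    HasDerivAt.comp (h₂ := LL g) (h := fun x : ℝ => zt x t) s
      (hasDerivAt_LL hg h0) (hasDerivAt_zt_s s t)
  have h2 := re_deriv h1
  rw [mul_one] at h2
  exact h2.sub ((hasDerivAt_exp_k s).const_mul k)

theorem hasDerivAt_vt (hg : Differentiable ℂ g) {s t : ℝ} (h0 : GG g (zt s t) ≠ 0) :
    HasDerivAt (fun y => vt g s y) (vtt g s t) t := by
  have h1 : HasDerivAt (fun y : ℝ => LL g (zt s y)) (L1 g (zt s t) * I) t :=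
    HasDerivAt.comp (h₂ := LL g) (h := fun y : ℝ => zt s y) t
      (hasDerivAt_LL hg h0) (hasDerivAt_zt_t s t)
  exact re_deriv (h1.mul_const I)

theorem cont_vv (hg : Differentiable ℂ g) {s t : ℝ} (h0 : GG g (zt s t) ≠ 0) :
    ContinuousAt (fun p : ℝ × ℝ => vv g k p.1 p.2) (s, t) := by
  unfold vv
  have h1 : ContinuousAt (fun p : ℝ × ℝ => ‖GG g (zt p.1 p.2)‖) (s, t) :=
    ((diff_GG hg).continuous.comp continuous_zt).norm.continuousAt
  have h2 := h1.log (norm_ne_zero_iff.2 h0)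
  have h3 : Continuous (fun p : ℝ × ℝ => Real.exp (k * p.1)) := by fun_prop
  exact (h2.sub h3.continuousAt).sub continuousAt_const

theorem cont_LL (hg : Differentiable ℂ g) {s t : ℝ} (h0 : GG g (zt s t) ≠ 0) :
    ContinuousAt (fun p : ℝ × ℝ => LL g (zt p.1 p.2)) (s, t) :=
  ContinuousAt.comp (g := LL g) (f := fun p : ℝ × ℝ => zt p.1 p.2)
    (analyticAt_LL hg h0).continuousAt continuous_zt.continuousAt

theorem cont_L1 (hg : Differentiable ℂ g) {s t : ℝ} (h0 : GG g (zt s t) ≠ 0) :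
    ContinuousAt (fun p : ℝ × ℝ => L1 g (zt p.1 p.2)) (s, t) :=
  ContinuousAt.comp (g := L1 g) (f := fun p : ℝ × ℝ => zt p.1 p.2)
    (analyticAt_LL hg h0).deriv.continuousAt continuous_zt.continuousAt

theorem cont_vs (hg : Differentiable ℂ g) {s t : ℝ} (h0 : GG g (zt s t) ≠ 0) :
    ContinuousAt (fun p : ℝ × ℝ => vs g k p.1 p.2) (s, t) := by
  have h3 : Continuous (fun p : ℝ × ℝ => k * Real.exp (k * p.1)) := by fun_prop
  exact (Complex.continuous_re.continuousAt.comp (cont_LL hg h0)).sub h3.continuousAt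

theorem cont_vss (hg : Differentiable ℂ g) {s t : ℝ} (h0 : GG g (zt s t) ≠ 0) :
    ContinuousAt (fun p : ℝ × ℝ => vss g k p.1 p.2) (s, t) := by
  have h3 : Continuous (fun p : ℝ × ℝ => k * (k * Real.exp (k * p.1))) := by fun_prop
  exact (Complex.continuous_re.continuousAt.comp (cont_L1 hg h0)).sub h3.continuousAt

theorem cont_vt (hg : Differentiable ℂ g) {s t : ℝ} (h0 : GG g (zt s t) ≠ 0) :
    ContinuousAt (fun p : ℝ × ℝ => vt g p.1 p.2) (s, t) :=
  Complex.continuous_re.continuousAt.comp ((cont_LL hg h0).mul continuousAt_const)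

theorem cont_vtt (hg : Differentiable ℂ g) {s t : ℝ} (h0 : GG g (zt s t) ≠ 0) :
    ContinuousAt (fun p : ℝ × ℝ => vtt g p.1 p.2) (s, t) :=
  Complex.continuous_re.continuousAt.comp
    (((cont_L1 hg h0).mul continuousAt_const).mul continuousAt_const)

section cutlemmas

variable (hg : Differentiable ℂ g) (hQc : IsClosed Q) (hQF : Q ⊆ FF g k)
    (hFQ : IsClosed (FF g k \ Q))

include hg hQc hQF hFQ

theorem JC_cut {Y : ℝ → ℝ → ℝ} (hY0 : ∀ s t, vv g k s t ≤ 0 → Y s t = 0)
    (hYc : ∀ s t, GG g (zt s t) ≠ 0 → ContinuousAt (fun p : ℝ × ℝ => Y p.1 p.2) (s, t)) :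
    JC (cut Q Y) := by
  rintro ⟨s, t⟩ ⟨hs, _⟩
  apply ContinuousAt.continuousWithinAt
  rcases local_rep hg hQc hQF hFQ (s := s) (t := t) hs with ⟨h1, h2, h3⟩ | ⟨h1, h2⟩
  · apply (hYc s t h2).congr
    filter_upwards [h3] with p hp
    unfold cut
    split_ifs with hq
    · rfl
    · exact hY0 _ _ (hp.resolve_left hq)
  · apply (continuousAt_const (y := (0 : ℝ))).congr
    filter_upwards [h2] with p hp
    unfold cut
    rw [if_neg hp]

theorem cut_deriv_s {Y Y' : ℝ → ℝ → ℝ} (hY0 : ∀ s t, vv g k s t ≤ 0 → Y s t = 0)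
    (hYd : ∀ s t, GG g (zt s t) ≠ 0 → HasDerivAt (fun x => Y x t) (Y' s t) s)
    {s : ℝ} (hs : 0 < s) (t : ℝ) : HasDerivAt (fun x => cut Q Y x t) (cut Q Y' s t) s := by
  have hc : Tendsto (fun x : ℝ => (x, t)) (𝓝 s) (𝓝 (s, t)) :=
    (Continuous.tendsto (by fun_prop) s)
  rcases local_rep hg hQc hQF hFQ (s := s) (t := t) hs with ⟨h1, h2, h3⟩ | ⟨h1, h2⟩
  · have e : cut Q Y' s t = Y' s t := if_pos h1
    rw [e]
    apply (hYd s t h2).congr_of_eventuallyEq
    filter_upwards [hc.eventually h3] with x hx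
    unfold cut
    split_ifs with hq
    · rfl
    · exact (hY0 _ _ (hx.resolve_left hq)).symm
  · have e : cut Q Y' s t = 0 := if_neg h1
    rw [e]
    apply (hasDerivAt_const s (0 : ℝ)).congr_of_eventuallyEq
    filter_upwards [hc.eventually h2] with x hx
    exact if_neg hx

theorem cut_deriv_t {Y Y' : ℝ → ℝ → ℝ} (hY0 : ∀ s t, vv g k s t ≤ 0 → Y s t = 0)
    (hYd : ∀ s t, GG g (zt s t) ≠ 0 → HasDerivAt (fun y => Y s y) (Y' s t) t)
    {s : ℝ} (hs : 0 < s) (t : ℝ) : HasDerivAt (fun y => cut Q Y s y) (cut Q Y' s t) t := by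
  have hc : Tendsto (fun y : ℝ => (s, y)) (𝓝 t) (𝓝 (s, t)) :=
    (Continuous.tendsto (by fun_prop) t)
  rcases local_rep hg hQc hQF hFQ (s := s) (t := t) hs with ⟨h1, h2, h3⟩ | ⟨h1, h2⟩
  · have e : cut Q Y' s t = Y' s t := if_pos h1
    rw [e]
    apply (hYd s t h2).congr_of_eventuallyEq
    filter_upwards [hc.eventually h3] with x hx
    unfold cut
    split_ifs with hq
    · rfl
    · exact (hY0 _ _ (hx.resolve_left hq)).symm
  · have e : cut Q Y' s t = 0 := if_neg h1
    rw [e]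
    apply (hasDerivAt_const t (0 : ℝ)).congr_of_eventuallyEq
    filter_upwards [hc.eventually h2] with x hx
    exact if_neg hx

theorem data_cut : Data k (cut Q (fun s t => psi (vv g k s t)))
    (cut Q (fun s t => psi1 (vv g k s t) * vs g k s t))
    (cut Q (fun s t => psi1 (vv g k s t) * vt g s t))
    (cut Q (fun s t => psi2 (vv g k s t) * vs g k s t * vs g k s t +
      psi1 (vv g k s t) * vss g k s t))
    (cut Q (fun s t => psi2 (vv g k s t) * vt g s t * vt g s t +
      psi1 (vv g k s t) * vtt g s t)) where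
  hs := fun s hs t => cut_deriv_s hg hQc hQF hFQ (fun s t h => psi_of_nonpos h)
    (fun s t h0 => (hasDerivAt_psi _).comp s (hasDerivAt_vv_s hg h0)) hs t
  hss := fun s hs t => cut_deriv_s (Y := fun s t => psi1 (vv g k s t) * vs g k s t) hg hQc hQF hFQ
    (fun s t h => by rw [psi1_of_nonpos h, zero_mul])
    (fun s t h0 => ((hasDerivAt_psi1 _).comp s (hasDerivAt_vv_s hg h0)).mul
      (hasDerivAt_vs hg h0)) hs t
  ht := fun s hs t => cut_deriv_t hg hQc hQF hFQ (fun s t h => psi_of_nonpos h)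
    (fun s t h0 => (hasDerivAt_psi _).comp t (hasDerivAt_vv_t hg h0)) hs t
  htt := fun s hs t => cut_deriv_t (Y := fun s t => psi1 (vv g k s t) * vt g s t) hg hQc hQF hFQ
    (fun s t h => by rw [psi1_of_nonpos h, zero_mul])
    (fun s t h0 => ((hasDerivAt_psi1 _).comp t (hasDerivAt_vv_t hg h0)).mul
      (hasDerivAt_vt hg h0)) hs t
  cw := JC_cut hg hQc hQF hFQ (fun s t h => psi_of_nonpos h)
    (fun s t h0 => continuous_psi.continuousAt.comp (cont_vv hg h0))
  cws := JC_cut hg hQc hQF hFQ (fun s t h => by rw [psi1_of_nonpos h, zero_mul])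
    (fun s t h0 => (continuous_psi1.continuousAt.comp (cont_vv hg h0)).mul (cont_vs hg h0))
  cwt := JC_cut hg hQc hQF hFQ (fun s t h => by rw [psi1_of_nonpos h, zero_mul])
    (fun s t h0 => (continuous_psi1.continuousAt.comp (cont_vv hg h0)).mul (cont_vt hg h0))
  cwss := JC_cut hg hQc hQF hFQ
    (fun s t h => by rw [psi1_of_nonpos h, psi2_of_nonpos h]; ring)
    (fun s t h0 => (((continuous_psi2.continuousAt.comp (cont_vv hg h0)).mul (cont_vs hg h0)).mul
      (cont_vs hg h0)).add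
      ((continuous_psi1.continuousAt.comp (cont_vv hg h0)).mul (cont_vss hg h0)))
  cwtt := JC_cut hg hQc hQF hFQ
    (fun s t h => by rw [psi1_of_nonpos h, psi2_of_nonpos h]; ring)
    (fun s t h0 => (((continuous_psi2.continuousAt.comp (cont_vv hg h0)).mul (cont_vt hg h0)).mul
      (cont_vt hg h0)).add
      ((continuous_psi1.continuousAt.comp (cont_vv hg h0)).mul (cont_vtt hg h0)))
  per := by
    intro s hs t
    have e1 : vv g k s (t + 2 * Real.pi) = vv g k s t := by
      unfold vv GG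
      rw [exp_zt_periodic]
    have e2 := exp_zt_periodic s t
    unfold cut
    by_cases h : Complex.exp (zt s t) ∈ Q
    · rw [if_pos (by rw [e2]; exact h), if_pos h]
      exact congrArg psi e1
    · rw [if_neg (by rw [e2]; exact h), if_neg h]
  nn := by
    intro s hs t
    unfold cut
    split_ifs
    · exact psi_nonneg _
    · exact le_rfl
  lap := by
    intro s hs t
    have hk : 0 ≤ k ^ 2 * Real.exp (k * s) := by positivity
    unfold cut
    split_ifs
    · have h1 := psi1_nonneg (vv g k s t)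
      have h2 := psi1_le_one (vv g k s t)
      have h3 := psi2_nonneg (vv g k s t)
      have e : psi2 (vv g k s t) * vs g k s t * vs g k s t +
          psi1 (vv g k s t) * vss g k s t + (psi2 (vv g k s t) * vt g s t * vt g s t +
          psi1 (vv g k s t) * vtt g s t) = psi2 (vv g k s t) * (vs g k s t ^ 2 + vt g s t ^ 2) -
          psi1 (vv g k s t) * (k ^ 2 * Real.exp (k * s)) := by
        have e2 : vtt g s t = - (L1 g (zt s t)).re := by
          unfold vtt
          rw [mul_assoc, Complex.I_mul_I]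
          simp
        rw [e2]
        unfold vss
        ring
      rw [e]
      have h4 : 0 ≤ psi2 (vv g k s t) * (vs g k s t ^ 2 + vt g s t ^ 2) := by positivity
      nlinarith
    · linarith

end cutlemmas

end

end


end Cutting

end Pool.Agent.Helper787.PathGrowth
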