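import Mathlib
import Pool.Agent.Helper787.PathA

set_option autoImplicit false

namespace Pool.Agent.Helper787.PathGrowth

section Pieces

open Set MeasureTheory Filter Topology Complex Metric


theorem J0_le_of_bound {w : ℝ → ℝ → ℝ} {s B : ℝ} (hB : 0 ≤ B) (hc : Continuous (w s))
    (h0 : ∀ t, 0 ≤ w s t) (h : ∀ t, w s t ≤ B) : J0 w s ≤ 1 + B := by
  have h1 : I0 w s ≤ B ^ 2 * (2 * Real.pi) := by
    unfold I0
    have : ∫ t in (0 : ℝ)..(2 * Real.pi), w s t ^ 2 ≤ ∫ t in (0 : ℝ)..(2 * Real.pi), B ^ 2 := by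
      apply intervalIntegral.integral_mono_on (by positivity)
        (Continuous.intervalIntegrable (by fun_prop) _ _)
        (Continuous.intervalIntegrable (by fun_prop) _ _)
      intro t _
      exact pow_le_pow_left₀ (h0 t) (h t) 2
    rw [intervalIntegral.integral_const] at this
    simpa [mul_comm] using this
  have h2 : M0 w s ≤ 1 + B ^ 2 := by
    unfold M0
    have : I0 w s / (2 * Real.pi) ≤ B ^ 2 := by
      rw [div_le_iff₀ (by positivity)]; exact h1
    linarith
  unfold J0
  rw [Real.sqrt_le_left (by positivity)]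
  nlinarith

theorem circleMap_eq_exp {r : ℝ} (hr : 0 < r) (t : ℝ) :
    circleMap 0 r t = Complex.exp (zt (Real.log r) t) := by
  unfold circleMap zt
  rw [Complex.exp_add, ← Complex.ofReal_exp, Real.exp_log hr]
  simp

/-- lower bound of the mean -/
theorem mean_ge {w : ℝ → ℝ → ℝ} {g : ℂ → ℂ} (hg : Differentiable ℂ g) {r c : ℝ} (hr : 0 < r)
    (hc : Continuous (w (Real.log r)))
    (h : ∀ t, Real.posLog ‖g (Complex.exp (zt (Real.log r) t))‖ - c ≤ w (Real.log r) t) :
    Real.circleAverage (fun z => Real.posLog ‖g z‖) 0 r - c ≤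
      (∫ t in (0 : ℝ)..(2 * Real.pi), w (Real.log r) t) / (2 * Real.pi) := by
  have hcont : Continuous (fun t : ℝ => Real.posLog ‖g (circleMap 0 r t)‖) := by
    have h1 : Continuous (fun t : ℝ => ‖g (circleMap 0 r t)‖) :=
      (hg.continuous.comp (continuous_circleMap 0 r)).norm
    exact Real.continuous_posLog.comp h1
  have h1 : ∫ t in (0 : ℝ)..(2 * Real.pi), (Real.posLog ‖g (circleMap 0 r t)‖ - c) ≤
      ∫ t in (0 : ℝ)..(2 * Real.pi), w (Real.log r) t := by
    apply intervalIntegral.integral_mono_on (by positivity)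
      (Continuous.intervalIntegrable (by fun_prop) _ _)
      (Continuous.intervalIntegrable (by fun_prop) _ _)
    intro t _
    rw [circleMap_eq_exp hr]
    exact h t
  rw [intervalIntegral.integral_sub (hcont.intervalIntegrable _ _)
    intervalIntegrable_const, intervalIntegral.integral_const] at h1
  unfold Real.circleAverage
  rw [le_div_iff₀ (by positivity), sub_mul, smul_eq_mul]
  have hpi : (2 * Real.pi) ≠ 0 := by positivity
  have e : (2 * Real.pi)⁻¹ * (∫ t in (0 : ℝ)..(2 * Real.pi), Real.posLog ‖g (circleMap 0 r t)‖) *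
      (2 * Real.pi) = ∫ t in (0 : ℝ)..(2 * Real.pi), Real.posLog ‖g (circleMap 0 r t)‖ := by
    field_simp
  rw [e]
  simp only [sub_zero, smul_eq_mul] at h1
  linarith

theorem not_all_bounded {g : ℂ → ℂ} (hg : Differentiable ℂ g) {k : ℝ} (hk0 : 0 < k)
    (hk : k < 1 / 2)
    (hT : ∀ C : ℝ, ∀ᶠ r in atTop, C * r ^ k + C <
      Real.circleAverage (fun z => Real.posLog ‖g z‖) 0 r) :
    ¬ (∀ R : ℝ, ∃ Q : Set ℂ, IsCompact Q ∧ Q ⊆ FF g k ∧ IsClosed (FF g k \ Q) ∧
      FF g k ∩ closedBall 0 R ⊆ Q) := by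
  intro hall
  -- bound on the circle of radius e
  obtain ⟨B, hB⟩ := (isCompact_closedBall (0 : ℂ) (Real.exp 1)).exists_bound_of_continuousOn
    hg.continuous.continuousOn
  set B' := max B 1 with hB'
  have hB1 : 1 ≤ B' := le_max_right _ _
  have hlogB : 0 ≤ Real.log B' := Real.log_nonneg hB1
  set C0 : ℝ := 2 * k ^ 2 / (1 / 2 - k) + 2 * k with hC0
  have hC0' : 0 ≤ C0 := by
    have : 0 < 1 / 2 - k := by linarith
    positivity
  set CC : ℝ := (C0 + 1) + (3 + (1 + Real.log B') + Real.exp (k * 1) + 1) with hCC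
  have hev := (hT CC).and (eventually_gt_atTop (Real.exp 1))
  obtain ⟨R, hR⟩ := (eventually_atTop.1 hev)
  -- R works for all larger radii
  have hRpos : Real.exp 1 < R := (hR R le_rfl).2
  have hR1 : 1 < R := lt_trans (Real.one_lt_exp_iff.2 one_pos) hRpos
  obtain ⟨Q, hQ, hQF, hFQ, hRQ⟩ := hall R
  obtain ⟨M, hM⟩ := hQ.isBounded.subset_closedBall (0 : ℂ)
  -- the set of radii
  let A : Set ℝ := {t | R ≤ t ∧ t ≤ max M R ∧ (t = R ∨ sphere (0 : ℂ) t ⊆ Q)}
  have hAne : A.Nonempty := ⟨R, le_rfl, le_max_right _ _, Or.inl rfl⟩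
  have hAclosed : IsClosed A := by
    have h1 : IsClosed {t : ℝ | R ≤ t} := isClosed_Ici
    have h2 : IsClosed {t : ℝ | t ≤ max M R} := isClosed_Iic
    have h3 : IsClosed {t : ℝ | t = R} := isClosed_singleton
    have h4 : IsClosed {t : ℝ | R ≤ t ∧ sphere (0 : ℂ) t ⊆ Q} := by
      have e : {t : ℝ | R ≤ t ∧ sphere (0 : ℂ) t ⊆ Q} =
          {t : ℝ | R ≤ t} ∩ ⋂ y : ℝ, (fun t : ℝ => Complex.exp (zt (Real.log t) y)) ⁻¹' Q := by
        ext t
        simp only [mem_ofPred_eq, mem_inter_iff, mem_iInter, mem_preimage]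
        constructor
        · rintro ⟨h, h'⟩
          refine ⟨h, fun y => h' ?_⟩
          rw [mem_sphere_zero_iff_norm, norm_exp_zt, Real.exp_log (by linarith)]
        · rintro ⟨h, h'⟩
          refine ⟨h, fun z hz => ?_⟩
          rw [mem_sphere_zero_iff_norm] at hz
          have hz0 : z ≠ 0 := by
            rw [← norm_pos_iff, hz]; linarith
          have := h' z.arg
          have e : Complex.exp (zt (Real.log t) z.arg) = z := by
            unfold zt
            rw [← hz, ← Complex.log]
            exact Complex.exp_log hz0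
          rwa [e] at this
      rw [e]
      have hcl : IsClosed (⋂ y : ℝ, {t : ℝ | R ≤ t} ∩
          (fun t : ℝ => Complex.exp (zt (Real.log t) y)) ⁻¹' Q) := by
        apply isClosed_iInter
        intro y
        have hcont : ContinuousOn (fun t : ℝ => Complex.exp (zt (Real.log t) y)) {t : ℝ | R ≤ t} := by
          apply Complex.continuous_exp.comp_continuousOn
          unfold zt
          apply ContinuousOn.add _ continuousOn_const
          apply Complex.continuous_ofReal.comp_continuousOn
          apply Real.continuousOn_log.mono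
          intro t ht
          have : R ≤ t := ht
          simp only [mem_compl_iff, mem_singleton_iff]
          linarith
        exact hcont.preimage_isClosed_of_isClosed h1 hQ.isClosed
      rwa [← inter_iInter] at hcl
    have e : A = ({t : ℝ | R ≤ t} ∩ {t : ℝ | t ≤ max M R}) ∩ ({t : ℝ | t = R} ∪
        {t : ℝ | R ≤ t ∧ sphere (0 : ℂ) t ⊆ Q}) := by
      ext t
      simp only [A, mem_ofPred_eq, mem_inter_iff, mem_union]
      tauto
    rw [e]
    exact (h1.inter h2).inter (h3.union h4)
  have hAbdd : BddAbove A := ⟨max M R, fun t ht => ht.2.1⟩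
  set T := sSup A with hTdef
  have hTA : T ∈ A := hAclosed.csSup_mem hAne hAbdd
  have hTmax : ∀ t ∈ A, t ≤ T := fun t ht => le_csSup hAbdd ht
  have hRT : R ≤ T := hTA.1
  have hTpos : 0 < T := by linarith
  -- data
  have D := data_cut hg hQ.isClosed hQF hFQ
  have hs1 : 1 < Real.log T := by
    rw [Real.lt_log_iff_exp_lt hTpos]
    linarith
  have hkey := key D hk0 hk (s0 := 1) (s1 := Real.log T) (S := Real.log (max M 1) + 1)
    one_pos hs1 ?_ ?_
  · -- final contradiction
    have hJ1 : J0 (cut Q (fun s t => psi (vv g k s t))) 1 ≤ 1 + Real.log B' := by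
      apply J0_le_of_bound hlogB (D.cw.slice one_pos) (D.nn 1 one_pos)
      intro t
      unfold cut
      split_ifs with hq
      · have h1 : vv g k 1 t ≤ Real.log B' := by
          unfold vv GG
          have h2 : ‖g (Complex.exp (zt 1 t))‖ ≤ B' := by
            refine le_trans (hB _ ?_) (le_max_left _ _)
            rw [mem_closedBall_zero_iff, norm_exp_zt]
          have h3 : Real.log ‖g (Complex.exp (zt 1 t))‖ ≤ Real.log B' := by
            rcases eq_or_lt_of_le (norm_nonneg (g (Complex.exp (zt 1 t)))) with h | h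
            · rw [← h, Real.log_zero]; exact hlogB
            · exact Real.log_le_log h h2
          have := Real.exp_pos (k * 1)
          linarith
        show psi (vv g k 1 t) ≤ Real.log B'
        unfold psi
        split_ifs with h
        · exact hlogB
        · push Not at h
          refine le_trans ?_ h1
          rw [div_le_iff₀ (by positivity)]
          nlinarith [sq_nonneg (vv g k 1 t)]
      · exact hlogB
    have hmean := mean_ge (w := cut Q (fun s t => psi (vv g k s t))) hg (r := T) (c := T ^ k + 3) hTpos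
      (D.cw.slice (by linarith : 0 < Real.log T)) ?_
    · have hmJ := mean_le_J0 D (s := Real.log T) (by linarith)
      have hav := (hR T hRT).1
      have hTk : Real.exp (k * Real.log T) = T ^ k := by
        rw [Real.rpow_def_of_pos hTpos, mul_comm]
      rw [hTk, ← hC0] at hkey
      have hTk0 : 0 ≤ T ^ k := by positivity
      have e1 := Real.exp_pos (k * 1)
      have e2 : 0 ≤ C0 * T ^ k := by positivity
      have e3 : 0 ≤ (3 + (1 + Real.log B') + Real.exp (k * 1) + 1) * T ^ k := by positivity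
      have e4 : CC * T ^ k = C0 * T ^ k + T ^ k +
        (3 + (1 + Real.log B') + Real.exp (k * 1) + 1) * T ^ k := by rw [hCC]; ring
      rw [e4] at hav
      rw [hCC] at hav
      linarith
    · intro t
      unfold cut
      have hnorm : ‖Complex.exp (zt (Real.log T) t)‖ = T := by
        rw [norm_exp_zt, Real.exp_log hTpos]
      have hTk : Real.exp (k * Real.log T) = T ^ k := by
        rw [Real.rpow_def_of_pos hTpos, mul_comm]
      split_ifs with hq
      · have h1 := sub_two_le_psi (vv g k (Real.log T) t)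
        have h2 : Real.posLog ‖g (Complex.exp (zt (Real.log T) t))‖ =
            Real.log ‖g (Complex.exp (zt (Real.log T) t))‖ := by
          rw [Real.posLog_eq_log]
          rw [abs_of_nonneg (norm_nonneg _)]
          have h3 := (hQF hq).2
          refine le_trans ?_ h3
          apply Real.one_le_exp
          positivity
        show _ ≤ psi (vv g k (Real.log T) t)
        rw [h2]
        refine le_trans ?_ h1
        unfold vv GG
        rw [hTk]
        linarith
      · have hTR : T = R := by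
          rcases hTA.2.2 with h | h
          · exact h
          · exact absurd (h (by rw [mem_sphere_zero_iff_norm, hnorm])) hq
        have hnF : Complex.exp (zt (Real.log T) t) ∉ FF g k := by
          intro hF
          apply hq
          apply hRQ
          refine ⟨hF, ?_⟩
          rw [mem_closedBall_zero_iff, hnorm, hTR]
        have hlt : ‖g (Complex.exp (zt (Real.log T) t))‖ < Real.exp (1 + T ^ k) := by
          by_contra hcon
          push Not at hcon
          apply hnF
          refine ⟨?_, ?_⟩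
          · rw [hnorm]; linarith
          · rw [hnorm]; exact hcon
        have hTk0 : 0 ≤ T ^ k := by positivity
        have : Real.posLog ‖g (Complex.exp (zt (Real.log T) t))‖ ≤ 1 + T ^ k := by
          unfold Real.posLog
          apply max_le (by positivity)
          rcases eq_or_lt_of_le (norm_nonneg (g (Complex.exp (zt (Real.log T) t)))) with h | h
          · rw [← h, Real.log_zero]; positivity
          · have := Real.log_lt_log h hlt
            rw [Real.log_exp] at this
            exact this.le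
        linarith
  · -- zeros beyond T
    intro s hs
    have hes : T < Real.exp s := by
      rwa [Real.log_lt_iff_lt_exp hTpos] at hs
    by_contra hcon
    push Not at hcon
    have hsub : sphere (0 : ℂ) (Real.exp s) ⊆ Q := by
      intro z hz
      rw [mem_sphere_zero_iff_norm] at hz
      have hz0 : z ≠ 0 := by
        rw [← norm_pos_iff, hz]; exact Real.exp_pos s
      have h1 := hcon z.arg
      have e : Complex.exp (zt s z.arg) = z := by
        unfold zt
        rw [show (s : ℂ) = ((Real.log ‖z‖ : ℝ) : ℂ) by rw [hz, Real.log_exp], ← Complex.log]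
        exact Complex.exp_log hz0
      by_contra hzQ
      apply h1
      unfold cut
      rw [if_neg (by rw [e]; exact hzQ)]
    have hmem : Real.exp s ∈ A := by
      refine ⟨by linarith, ?_, Or.inr hsub⟩
      have : (Real.exp s : ℂ) ∈ Q := hsub (by
        rw [mem_sphere_zero_iff_norm, Complex.norm_real, Real.norm_of_nonneg (Real.exp_pos s).le])
      have h2 := hM this
      rw [mem_closedBall_zero_iff, Complex.norm_real, Real.norm_of_nonneg (Real.exp_pos s).le] at h2
      exact le_trans h2 (le_max_left _ _)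
    linarith [hTmax _ hmem]
  · intro s hs t
    unfold cut
    rw [if_neg]
    intro hq
    have h2 := hM hq
    rw [mem_closedBall_zero_iff, norm_exp_zt] at h2
    have h3 : s ≤ Real.log (max M 1) := by
      rw [Real.le_log_iff_exp_le (lt_of_lt_of_le one_pos (le_max_right _ _))]
      exact le_trans h2 (le_max_left _ _)
    linarith


end Pieces

section Topo

open Set Filter Topology Metric


theorem exists_piece_at {X : Set ℂ} (hX : IsClosed X) {x : ℂ} (hx : x ∈ X)
    (hb : Bornology.IsBounded (connectedComponentIn X x)) :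
    ∃ Q : Set ℂ, IsCompact Q ∧ x ∈ Q ∧ Q ⊆ X ∧ IsClosed (X \ Q) := by
  obtain ⟨r, hr⟩ := hb.subset_ball (0 : ℂ)
  have hxr : x ∈ ball (0 : ℂ) r := hr (mem_connectedComponentIn hx)
  let Y : Set ℂ := X ∩ closedBall 0 r
  have hYc : IsCompact Y := (isCompact_closedBall (0 : ℂ) r).inter_left hX
  have : CompactSpace Y := isCompact_iff_compactSpace.1 hYc
  let x' : Y := ⟨x, hx, ball_subset_closedBall hxr⟩
  have hcc : connectedComponent x' ⊆ {y : Y | ‖(y : ℂ)‖ < r} := by
    intro y hy
    have h1 : IsPreconnected (((↑) : Y → ℂ) '' connectedComponent x') :=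
      isPreconnected_connectedComponent.image _ continuous_subtype_val.continuousOn
    have h2 : (((↑) : Y → ℂ) '' connectedComponent x') ⊆ connectedComponentIn X x := by
      apply h1.subset_connectedComponentIn
      · exact ⟨x', mem_connectedComponent, rfl⟩
      · rintro _ ⟨y, _, rfl⟩
        exact y.2.1
    have h3 := hr (h2 ⟨y, hy, rfl⟩)
    simpa using h3
  have hopen : IsOpen {y : Y | ‖(y : ℂ)‖ < r} :=
    isOpen_lt (continuous_subtype_val.norm) continuous_const
  obtain ⟨⟨Z, hZ, hxZ⟩, hZU⟩ : ∃ i : {s : Set Y // IsClopen s ∧ x' ∈ s},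
      (i : Set Y) ⊆ {y : Y | ‖(y : ℂ)‖ < r} := by
    have : Nonempty {s : Set Y // IsClopen s ∧ x' ∈ s} := ⟨⟨univ, isClopen_univ, mem_univ _⟩⟩
    apply exists_subset_nhds_of_isCompact'
    · rintro ⟨a, ha, hxa⟩ ⟨b, hb, hxb⟩
      exact ⟨⟨a ∩ b, ha.inter hb, hxa, hxb⟩, inter_subset_left, inter_subset_right⟩
    · rintro ⟨a, ha, hxa⟩
      exact ha.1.isCompact
    · rintro ⟨a, ha, hxa⟩
      exact ha.1
    · intro y hy
      rw [← connectedComponent_eq_iInter_isClopen] at hy
      exact hopen.mem_nhds (hcc hy)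
  refine ⟨((↑) : Y → ℂ) '' Z, hZ.1.isCompact.image continuous_subtype_val, ⟨x', hxZ, rfl⟩, ?_, ?_⟩
  · rintro _ ⟨y, _, rfl⟩
    exact y.2.1
  · have e : X \ (((↑) : Y → ℂ) '' Z) = (((↑) : Y → ℂ) '' Zᶜ) ∪ (X ∩ {z | r ≤ ‖z‖}) := by
      ext z
      constructor
      · rintro ⟨hzX, hzQ⟩
        by_cases hz : r ≤ ‖z‖
        · exact Or.inr ⟨hzX, hz⟩
        · left
          push Not at hz
          refine ⟨⟨z, hzX, by simpa using hz.le⟩, ?_, rfl⟩
          intro h
          exact hzQ ⟨_, h, rfl⟩
      · rintro (⟨y, hy, rfl⟩ | ⟨hzX, hz⟩)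
        · refine ⟨y.2.1, ?_⟩
          rintro ⟨y', hy', he⟩
          exact hy (Subtype.ext he ▸ hy')
        · refine ⟨hzX, ?_⟩
          rintro ⟨y', hy', rfl⟩
          have := hZU hy'
          exact absurd (show r ≤ ‖(y' : ℂ)‖ from hz) (not_le.2 this)
    rw [e]
    apply IsClosed.union
    · exact ((hZ.compl.1.isCompact).image continuous_subtype_val).isClosed
    · exact hX.inter (isClosed_le continuous_const continuous_norm)

theorem exists_compact_piece {X : Set ℂ} (hX : IsClosed X)
    (hb : ∀ x ∈ X, Bornology.IsBounded (connectedComponentIn X x)) (R : ℝ) :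
    ∃ Q : Set ℂ, IsCompact Q ∧ Q ⊆ X ∧ IsClosed (X \ Q) ∧ X ∩ closedBall 0 R ⊆ Q := by
  choose! q hq1 hq2 hq3 hq4 using fun x hx => exists_piece_at hX hx (hb x hx)
  have hK : IsCompact (X ∩ closedBall (0 : ℂ) R) := (isCompact_closedBall (0 : ℂ) R).inter_left hX
  obtain ⟨t, ht, hcov⟩ := hK.elim_nhds_subcover (fun x => (X \ q x)ᶜ) (by
    intro x hx
    exact (hq4 x hx.1).isOpen_compl.mem_nhds (fun h => h.2 (hq2 x hx.1)))
  refine ⟨⋃ x ∈ t, q x, ?_, ?_, ?_, ?_⟩
  · exact t.isCompact_biUnion fun x hx => hq1 x (ht x hx).1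
  · exact iUnion₂_subset fun x hx => hq3 x (ht x hx).1
  · have e : X \ (⋃ x ∈ t, q x) = X ∩ ⋂ x ∈ t, (X \ q x) := by
      ext z
      simp only [Set.mem_sdiff, mem_iUnion, mem_inter_iff, mem_iInter, not_exists]
      constructor
      · rintro ⟨h1, h2⟩
        exact ⟨h1, fun x hx => ⟨h1, h2 x hx⟩⟩
      · rintro ⟨h1, h2⟩
        exact ⟨h1, fun x hx => (h2 x hx).2⟩
    rw [e]
    exact hX.inter (isClosed_biInter fun x hx => hq4 x (ht x hx).1)
  · intro z hz
    have := hcov hz
    simp only [mem_iUnion, mem_compl_iff, Set.mem_sdiff, not_and, not_not] at this ⊢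
    obtain ⟨x, hx, h⟩ := this
    exact ⟨x, hx, h hz.1⟩

/-- closed, connected, unbounded -/
def CCU (E : Set ℂ) : Prop := IsClosed E ∧ IsPreconnected E ∧ ¬ Bornology.IsBounded E

theorem isClosed_component {X : Set ℂ} (hX : IsClosed X) {x : ℂ} (hx : x ∈ X) :
    IsClosed (connectedComponentIn X x) := by
  have h1 : IsPreconnected (closure (connectedComponentIn X x)) :=
    isPreconnected_connectedComponentIn.closure
  have h2 : closure (connectedComponentIn X x) ⊆ X :=
    closure_minimal (connectedComponentIn_subset X x) hX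
  have h3 := h1.subset_connectedComponentIn (subset_closure (mem_connectedComponentIn hx)) h2
  exact isClosed_of_closure_subset h3

/-- boundary bumping -/
theorem CCU.bump {C : Set ℂ} (hC : CCU C) (R : ℝ) : ∃ E ⊆ C, CCU E ∧ ∀ z ∈ E, R ≤ ‖z‖ := by
  obtain ⟨hcl, hconn, hunb⟩ := hC
  let X : Set ℂ := C ∩ {z | R ≤ ‖z‖}
  have hX : IsClosed X := hcl.inter (isClosed_le continuous_const continuous_norm)
  by_cases hcase : ∃ x ∈ X, ¬ Bornology.IsBounded (connectedComponentIn X x)
  · obtain ⟨x, hx, hun⟩ := hcase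
    refine ⟨connectedComponentIn X x, (connectedComponentIn_subset X x).trans inter_subset_left,
      ⟨isClosed_component hX hx, isPreconnected_connectedComponentIn, hun⟩, ?_⟩
    intro z hz
    exact ((connectedComponentIn_subset X x) hz).2
  · push Not at hcase
    exfalso
    obtain ⟨Q, hQ, hQX, hXQ, hRQ⟩ := exists_compact_piece hX hcase R
    have hA : IsClosed ((C ∩ closedBall 0 R) ∪ Q) :=
      (hcl.inter isClosed_closedBall).union hQ.isClosed
    have hcover : C ⊆ ((C ∩ closedBall 0 R) ∪ Q) ∪ (X \ Q) := by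
      intro z hz
      by_cases h1 : ‖z‖ ≤ R
      · exact Or.inl (Or.inl ⟨hz, by simpa using h1⟩)
      · push Not at h1
        by_cases h2 : z ∈ Q
        · exact Or.inl (Or.inr h2)
        · exact Or.inr ⟨⟨hz, h1.le⟩, h2⟩
    have hdisj : C ∩ (((C ∩ closedBall 0 R) ∪ Q) ∩ (X \ Q)) = ∅ := by
      rw [eq_empty_iff_forall_notMem]
      rintro z ⟨_, h1 | h1, h2⟩
      · exact h2.2 (hRQ ⟨h2.1, h1.2⟩)
      · exact h2.2 h1
    rcases isPreconnected_iff_subset_of_disjoint_closed.1 hconn _ _ hA hXQ hcover hdisj with h | h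
    · apply hunb
      refine Bornology.IsBounded.subset ?_ h
      exact ((isBounded_closedBall).subset inter_subset_right).union hQ.isBounded
    · have hCX : C = X := by
        apply Subset.antisymm
        · exact h.trans sdiff_subset
        · exact inter_subset_left
      have hne : C.Nonempty := by
        rw [nonempty_iff_ne_empty]
        rintro rfl
        exact hunb Bornology.isBounded_empty
      obtain ⟨x, hx⟩ := hne
      have hxX : x ∈ X := hCX ▸ hx
      apply hunb
      refine (hcase x hxX).subset ?_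
      apply hconn.subset_connectedComponentIn hx
      exact hCX.le

theorem exists_seq {C : Set ℂ} (hC : CCU C) : ∃ E : ℕ → Set ℂ, (∀ n, CCU (E n)) ∧
    (∀ n, E (n + 1) ⊆ E n) ∧ (∀ n, E n ⊆ C) ∧ (∀ n, ∀ z ∈ E n, (n : ℝ) ≤ ‖z‖) := by
  choose! f hf1 hf2 hf3 using fun (p : {E : Set ℂ // CCU E}) (R : ℝ) => p.2.bump R
  let F : ℕ → {E : Set ℂ // CCU E} := fun n => Nat.rec ⟨C, hC⟩
    (fun n p => ⟨f p (n + 1), hf2 p (n + 1)⟩) n
  have hFs : ∀ n, (F (n + 1) : Set ℂ) = f (F n) (n + 1) := fun n => rfl
  have hmono : ∀ n, (F (n + 1)).1 ⊆ (F n).1 := by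
    intro n
    rw [hFs]
    exact hf1 (F n) (n + 1)
  refine ⟨fun n => (F n).1, ?_, hmono, ?_, ?_⟩
  · intro n
    exact (F n).2
  · intro n
    induction n with
    | zero => exact Subset.rfl
    | succ n ih => exact Subset.trans (hmono n) ih
  · intro n
    cases n with
    | zero => intro z _; simp
    | succ n =>
      intro z hz
      have : z ∈ f (F n) (n + 1) := hz
      simpa using hf3 (F n) (n + 1) z this

/-- an open connected set minus a countable set is path connected -/
theorem joinedIn_diff_countable {D : Set ℂ} (hD : IsOpen D) (hc : IsPreconnected D) {B : Set ℂ}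
    (hB : B.Countable) {x y : ℂ} (hx : x ∈ D \ B) (hy : y ∈ D \ B) : JoinedIn (D \ B) x y := by
  have hrank : 1 < Module.rank ℝ ℂ := by
    rw [Complex.rank_real_complex]; norm_num
  -- local statement
  have hloc : ∀ z ∈ D, ∃ r > 0, ball z r ⊆ D ∧ ∀ a ∈ ball z r \ B, ∀ b ∈ ball z r \ B,
      JoinedIn (D \ B) a b := by
    intro z hz
    obtain ⟨r, hr, hrD⟩ := Metric.isOpen_iff.1 hD z hz
    refine ⟨r, hr, hrD, ?_⟩
    intro a ha b hb
    let e := OpenPartialHomeomorph.univBall z r
    have hinj : InjOn e univ := by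
      have := e.injOn
      rwa [OpenPartialHomeomorph.univBall_source] at this
    have hcount : (e ⁻¹' B).Countable := by
      apply hB.preimage_of_injOn
      exact hinj.mono (subset_univ _)
    have hpc := hcount.isPathConnected_compl_of_one_lt_rank hrank
    have htarget : e.target = ball z r := OpenPartialHomeomorph.univBall_target z hr
    have hpre : ∀ c ∈ ball z r \ B, ∃ u ∈ (e ⁻¹' B)ᶜ, e u = c := by
      intro c hc
      have hct : c ∈ e.target := by rw [htarget]; exact hc.1
      refine ⟨e.symm c, ?_, e.right_inv hct⟩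
      intro h
      apply hc.2
      have : e (e.symm c) ∈ B := h
      rwa [e.right_inv hct] at this
    obtain ⟨u, hu, rfl⟩ := hpre a ha
    obtain ⟨v, hv, rfl⟩ := hpre b hb
    have hj : JoinedIn (e ⁻¹' B)ᶜ u v := hpc.joinedIn u hu v hv
    have hcont : Continuous e := OpenPartialHomeomorph.continuous_univBall z r
    have hj2 := hj.map hcont
    apply hj2.mono
    rintro _ ⟨w, hw, rfl⟩
    refine ⟨hrD ?_, hw⟩
    rw [← htarget]
    exact e.map_source (by rw [OpenPartialHomeomorph.univBall_source]; exact mem_univ _)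
  -- the set of points all whose nearby points are joined to x
  let A : Set ℂ := {z | ∃ r > 0, ball z r ⊆ D ∧ ∀ a ∈ ball z r \ B, JoinedIn (D \ B) x a}
  let A' : Set ℂ := {z | ∃ r > 0, ball z r ⊆ D ∧ ∀ a ∈ ball z r \ B, ¬ JoinedIn (D \ B) x a}
  have hopenA : IsOpen A := by
    rw [Metric.isOpen_iff]
    rintro z ⟨r, hr, hrD, h⟩
    refine ⟨r / 2, by positivity, ?_⟩
    intro w hw
    have hsub : ball w (r / 2) ⊆ ball z r := by
      apply ball_subset_ball'
      have := mem_ball.1 hw
      linarith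
    exact ⟨r / 2, by positivity, hsub.trans hrD, fun a ha => h a ⟨hsub ha.1, ha.2⟩⟩
  have hopenA' : IsOpen A' := by
    rw [Metric.isOpen_iff]
    rintro z ⟨r, hr, hrD, h⟩
    refine ⟨r / 2, by positivity, ?_⟩
    intro w hw
    have hsub : ball w (r / 2) ⊆ ball z r := by
      apply ball_subset_ball'
      have := mem_ball.1 hw
      linarith
    exact ⟨r / 2, by positivity, hsub.trans hrD, fun a ha => h a ⟨hsub ha.1, ha.2⟩⟩
  have hcov : D ⊆ A ∪ A' := by
    intro z hz
    obtain ⟨r, hr, hrD, h⟩ := hloc z hz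
    by_cases hex : ∃ a ∈ ball z r \ B, JoinedIn (D \ B) x a
    · obtain ⟨a, ha, hja⟩ := hex
      exact Or.inl ⟨r, hr, hrD, fun b hb => hja.trans (h a ha b hb)⟩
    · push Not at hex
      exact Or.inr ⟨r, hr, hrD, hex⟩
  have hxA : x ∈ A := by
    obtain ⟨r, hr, hrD, h⟩ := hloc x hx.1
    exact ⟨r, hr, hrD, fun b hb => h x ⟨mem_ball_self hr, hx.2⟩ b hb⟩
  have hdisj : D ∩ (A ∩ A') = ∅ := by
    rw [eq_empty_iff_forall_notMem]
    rintro z ⟨_, ⟨r, hr, hrD, h⟩, ⟨r', hr', hrD', h'⟩⟩
    -- the ball contains a point outside B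
    have hne : (ball z (min r r') \ B).Nonempty := by
      by_contra hcon
      rw [not_nonempty_iff_eq_empty, sdiff_eq_empty] at hcon
      have hd := hB.dense_compl ℝ
      obtain ⟨a, ha, hab⟩ := hd.exists_mem_open (isOpen_ball (x := z) (ε := min r r'))
        ⟨z, mem_ball_self (lt_min hr hr')⟩
      exact ha (hcon hab)
    obtain ⟨a, ha, haB⟩ := hne
    exact h' a ⟨ball_subset_ball (min_le_right _ _) ha, haB⟩
      (h a ⟨ball_subset_ball (min_le_left _ _) ha, haB⟩)
  rcases isPreconnected_iff_subset_of_disjoint.1 hc A A' hopenA hopenA' hcov hdisj with h | h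
  · obtain ⟨r, hr, _, h'⟩ := h hy.1
    exact h' y ⟨mem_ball_self hr, hy.2⟩
  · exfalso
    have : x ∈ D ∩ (A ∩ A') := ⟨hx.1, hxA, h hx.1⟩
    rw [hdisj] at this
    exact this



theorem glue_path {q : ℤ → ℂ} {S : ℤ → Set ℂ}
    (h : ∀ n : ℤ, ∃ c : ℝ → ℂ, Continuous c ∧ c 0 = q n ∧ c 1 = q (n + 1) ∧ ∀ t, c t ∈ S n) :
    ∃ γ : ℝ → ℂ, Continuous γ ∧ ∀ t : ℝ, γ t ∈ S ⌊t⌋ := by
  choose c hc h0 h1 hS using h
  refine ⟨fun t => c ⌊t⌋ (t - ⌊t⌋), ?_, fun t => hS _ _⟩
  have hlf : LocallyFinite (fun n : ℤ => Icc (n : ℝ) (n + 1)) := by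
    intro x
    refine ⟨Ioo (x - 1) (x + 1), Ioo_mem_nhds (by linarith) (by linarith), ?_⟩
    apply (finite_Icc (⌊x⌋ - 3) (⌊x⌋ + 3)).subset
    rintro n ⟨y, ⟨hy1, hy2⟩, hy3, hy4⟩
    have f1 := Int.floor_le x
    have f2 := Int.lt_floor_add_one x
    constructor
    · have : ((⌊x⌋ - 3 : ℤ) : ℝ) < n := by push_cast; linarith
      exact le_of_lt (by exact_mod_cast this)
    · have : (n : ℝ) < ((⌊x⌋ + 3 : ℤ) : ℝ) := by push_cast; linarith
      exact le_of_lt (by exact_mod_cast this)
  apply hlf.continuous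
  · rw [eq_univ_iff_forall]
    intro x
    rw [mem_iUnion]
    exact ⟨⌊x⌋, Int.floor_le x, (Int.lt_floor_add_one x).le⟩
  · intro n; exact isClosed_Icc
  · intro n
    have hcont : ContinuousOn (fun t : ℝ => c n (t - n)) (Icc (n : ℝ) (n + 1)) :=
      ((hc n).comp (continuous_id.sub continuous_const)).continuousOn
    apply hcont.congr
    intro t ht
    rcases eq_or_lt_of_le ht.2 with h | h
    · have hf : ⌊t⌋ = n + 1 := by
        rw [h]
        have : ((n : ℝ) + 1) = ((n + 1 : ℤ) : ℝ) := by push_cast; ring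
        rw [this, Int.floor_intCast]
      show c ⌊t⌋ (t - ⌊t⌋) = c n (t - n)
      rw [hf, h]
      push_cast
      have e1 : (n : ℝ) + 1 - (n + 1) = 0 := by ring
      have e2 : (n : ℝ) + 1 - n = 1 := by ring
      rw [e1, e2, h0, h1]
    · have hf : ⌊t⌋ = n := by
        rw [Int.floor_eq_iff]
        exact ⟨ht.1, h⟩
      show c ⌊t⌋ (t - ⌊t⌋) = c n (t - n)
      rw [hf]

theorem exists_path_to_infty {Ω B : Set ℂ} (hΩ : IsOpen Ω) (hB : B.Countable) {C : Set ℂ}
    (hC : CCU C) (hCΩ : C ⊆ Ω) : ∃ γ : ℝ → ℂ, Continuous γ ∧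
      Tendsto (fun t => ‖γ t‖) atTop atTop ∧ ∀ t, γ t ∈ Ω \ B := by
  obtain ⟨E, hE, hEs, hEC, hEn⟩ := exists_seq hC
  have hne : ∀ n, (E n).Nonempty := by
    intro n
    rw [nonempty_iff_ne_empty]
    intro h
    have := (hE n).2.2
    rw [h] at this
    exact this Bornology.isBounded_empty
  choose e he using hne
  let O : ℕ → Set ℂ := fun n => Ω ∩ {z | (n : ℝ) - 1 < ‖z‖}
  have hO : ∀ n, IsOpen (O n) := fun n => hΩ.inter (isOpen_lt continuous_const continuous_norm)
  have hOs : ∀ n, O (n + 1) ⊆ O n := by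
    rintro n z ⟨h1, h2⟩
    refine ⟨h1, ?_⟩
    have h3 : ((n + 1 : ℕ) : ℝ) - 1 < ‖z‖ := h2
    push_cast at h3
    show (n : ℝ) - 1 < ‖z‖
    linarith
  have hEO : ∀ n, E n ⊆ O n := by
    intro n z hz
    refine ⟨hCΩ (hEC n hz), ?_⟩
    have := hEn n z hz
    show (n : ℝ) - 1 < ‖z‖
    linarith
  let D : ℕ → Set ℂ := fun n => connectedComponentIn (O n) (e n)
  have hDO : ∀ n, D n ⊆ O n := fun n => connectedComponentIn_subset _ _
  have hDopen : ∀ n, IsOpen (D n) := fun n => (hO n).connectedComponentIn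
  have hED : ∀ n, E n ⊆ D n := fun n => (hE n).2.1.subset_connectedComponentIn (he n) (hEO n)
  have hDs : ∀ n, D (n + 1) ⊆ D n := by
    intro n
    have h1 : e (n + 1) ∈ D n := hED n (hEs n (he (n + 1)))
    have h2 : D (n + 1) ⊆ connectedComponentIn (O n) (e (n + 1)) :=
      isPreconnected_connectedComponentIn.subset_connectedComponentIn
        (mem_connectedComponentIn (hEO (n + 1) (he (n + 1)))) ((hDO (n + 1)).trans (hOs n))
    have h3 : connectedComponentIn (O n) (e n) = connectedComponentIn (O n) (e (n + 1)) :=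
      connectedComponentIn_eq h1
    show D (n + 1) ⊆ connectedComponentIn (O n) (e n)
    rw [h3]
    exact h2
  have hz : ∀ n, ∃ z, z ∈ D n \ B := by
    intro n
    obtain ⟨z, hz1, hz2⟩ := (hB.dense_compl ℝ).exists_mem_open (hDopen n) ⟨e n, hED n (he n)⟩
    exact ⟨z, hz2, hz1⟩
  choose z hz using hz
  have hj : ∀ n, JoinedIn (D n \ B) (z n) (z (n + 1)) := fun n =>
    joinedIn_diff_countable (hDopen n) isPreconnected_connectedComponentIn hB (hz n)
      ⟨hDs n (hz (n + 1)).1, (hz (n + 1)).2⟩
  obtain ⟨γ, hγ, hγS⟩ := glue_path (q := fun n : ℤ => z n.toNat)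
    (S := fun n : ℤ => D n.toNat \ B) (by
      intro n
      rcases lt_or_ge n 0 with hn | hn
      · refine ⟨fun _ => z 0, continuous_const, ?_, ?_, ?_⟩
        · simp [Int.toNat_of_nonpos hn.le]
        · have : (n + 1).toNat = 0 := Int.toNat_of_nonpos (by omega)
          simp [this]
        · intro t
          have : n.toNat = 0 := Int.toNat_of_nonpos hn.le
          simp only [this]
          exact hz 0
      · have e1 : (n + 1).toNat = n.toNat + 1 := by omega
        let p := (hj n.toNat).somePath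
        refine ⟨p.extend, p.continuous_extend, by simp, ?_, ?_⟩
        · simp [e1]
        · intro t
          have hr : p.extend t ∈ range p.extend := mem_range_self t
          rw [Path.extend_range] at hr
          obtain ⟨s, hs⟩ := hr
          rw [← hs]
          exact (hj n.toNat).somePath_mem s)
  refine ⟨γ, hγ, ?_, ?_⟩
  · apply tendsto_atTop_mono (f := fun t : ℝ => t - 2)
    · intro t
      have h1 := (hDO _ (hγS t).1).2
      have h2 : ((⌊t⌋.toNat : ℕ) : ℝ) - 1 < ‖γ t‖ := h1
      have h3 : (⌊t⌋ : ℝ) ≤ ((⌊t⌋.toNat : ℕ) : ℝ) := by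
        have := Int.self_le_toNat ⌊t⌋
        exact_mod_cast this
      have h4 := Int.lt_floor_add_one t
      linarith
    · exact tendsto_atTop_add_const_right _ _ tendsto_id
  · intro t
    exact ⟨(hDO _ (hγS t).1).1, (hγS t).2⟩


theorem isClosed_FF {g : ℂ → ℂ} (hg : Differentiable ℂ g) {k : ℝ} (hk0 : 0 < k) :
    IsClosed (FF g k) := by
  have h1 : Continuous (fun z : ℂ => Real.exp (1 + ‖z‖ ^ k)) :=
    Real.continuous_exp.comp (continuous_const.add (continuous_norm.rpow_const
      (fun _ => Or.inr hk0.le)))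
  exact (isClosed_le continuous_const continuous_norm).inter
    (isClosed_le h1 hg.continuous.norm)

/-- An entire function whose proximity function is eventually larger than every multiple of
`r ^ k` with `k < 1 / 2` satisfies `|g| > exp (|z| ^ k)` on a path to infinity. -/
theorem path_of_entire {g : ℂ → ℂ} (hg : Differentiable ℂ g) {k : ℝ} (hk0 : 0 < k)
    (hk : k < 1 / 2)
    (hT : ∀ C : ℝ, ∀ᶠ r in atTop, C * r ^ k + C <
      Real.circleAverage (fun z => Real.posLog ‖g z‖) 0 r) {B : Set ℂ} (hB : B.Countable) :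
    ∃ γ : ℝ → ℂ, Continuous γ ∧ Tendsto (fun t => ‖γ t‖) atTop atTop ∧
      ∀ t, γ t ∉ B ∧ Real.exp (‖γ t‖ ^ k) < ‖g (γ t)‖ := by
  have hF := isClosed_FF hg hk0
  have h1 : ∃ x ∈ FF g k, ¬ Bornology.IsBounded (connectedComponentIn (FF g k) x) := by
    by_contra hcon
    push Not at hcon
    apply not_all_bounded hg hk0 hk hT
    intro R
    exact exists_compact_piece hF hcon R
  obtain ⟨x, hx, hun⟩ := h1
  have hC : CCU (connectedComponentIn (FF g k) x) :=
    ⟨isClosed_component hF hx, isPreconnected_connectedComponentIn, hun⟩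
  have h2 : Continuous (fun z : ℂ => Real.exp (‖z‖ ^ k)) :=
    Real.continuous_exp.comp (continuous_norm.rpow_const (fun _ => Or.inr hk0.le))
  obtain ⟨γ, hγ, hγt, hγm⟩ := exists_path_to_infty (Ω := {z | Real.exp (‖z‖ ^ k) < ‖g z‖})
    (isOpen_lt h2 hg.continuous.norm) hB hC (by
      refine (connectedComponentIn_subset _ _).trans ?_
      rintro z ⟨_, hz⟩
      refine lt_of_lt_of_le ?_ hz
      apply Real.exp_lt_exp.2
      linarith)
  exact ⟨γ, hγ, hγt, fun t => ⟨(hγm t).2, (hγm t).1⟩⟩

end Topo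

end Pool.Agent.Helper787.PathGrowth
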