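import Mathlib

set_option autoImplicit false

open Set Filter Topology Metric

namespace Pool.Agent.Helper787.PathGrowth


section Product

variable {ι : Type*}

/-- the genus zero canonical product -/
noncomputable def cprod (b : ι → ℂ) (z : ℂ) : ℂ := ∏' i, (1 + -z / b i)

theorem summable_inv {b : ι → ℂ} {k : ℝ} (hk0 : 0 < k) (hk1 : k < 1)
    (hs : Summable (fun i => ‖b i‖ ^ (-k))) : Summable (fun i => ‖b i‖⁻¹) := by
  apply Summable.of_norm_bounded_eventually hs
  have h1 : ∀ᶠ i in cofinite, ‖b i‖ ^ (-k) < 1 :=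
    hs.tendsto_cofinite_zero.eventually (gt_mem_nhds one_pos)
  filter_upwards [h1] with i hi
  rw [Real.norm_of_nonneg (by positivity)]
  rcases eq_or_lt_of_le (norm_nonneg (b i)) with h | h
  · rw [← h]; simp
    positivity
  · have h2 : 1 ≤ ‖b i‖ := by
      by_contra hcon
      push Not at hcon
      have := Real.one_le_rpow_of_pos_of_le_one_of_nonpos h hcon.le (by linarith : -k ≤ 0)
      linarith
    rw [← Real.rpow_neg_one]
    exact Real.rpow_le_rpow_of_exponent_le h2 (by linarith)

theorem hasProd_cprod {b : ι → ℂ} {k : ℝ} (hk0 : 0 < k) (hk1 : k < 1)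
    (hs : Summable (fun i => ‖b i‖ ^ (-k))) (z : ℂ) :
    HasProd (fun i => 1 + -z / b i) (cprod b z) := by
  apply Multipliable.hasProd
  apply multipliable_one_add_of_summable
  have := (summable_inv hk0 hk1 hs).mul_left ‖z‖
  refine this.congr fun i => ?_
  rw [norm_div, norm_neg]
  rfl

theorem differentiable_cprod {b : ι → ℂ} {k : ℝ} (hk0 : 0 < k) (hk1 : k < 1)
    (hs : Summable (fun i => ‖b i‖ ^ (-k))) : Differentiable ℂ (cprod b) := by
  have h1 : HasProdLocallyUniformlyOn (fun i z => 1 + -z / b i) (cprod b) univ := by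
    apply hasProdLocallyUniformlyOn_of_forall_compact isOpen_univ
    intro K _ hK
    obtain ⟨R, hR⟩ := hK.isBounded.exists_norm_le
    apply Summable.hasProdUniformlyOn_one_add hK ((summable_inv hk0 hk1 hs).mul_left R)
    · refine Eventually.of_forall fun i z hz => ?_
      rw [norm_div, norm_neg, div_eq_mul_inv]
      exact mul_le_mul_of_nonneg_right (hR z hz) (by positivity)
    · intro i
      fun_prop
  have h2 := h1.differentiableOn (Eventually.of_forall fun s => by
    apply Differentiable.differentiableOn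
    apply Differentiable.fun_finsetProd
    intro i _
    fun_prop) isOpen_univ
  rwa [differentiableOn_univ] at h2

theorem one_add_le_exp_rpow {x k : ℝ} (hx : 0 ≤ x) (hk0 : 0 < k) (hk1 : k ≤ 1) :
    1 + x ≤ Real.exp (x ^ k / k) := by
  have h1 : (1 + x) ^ k ≤ 1 + x ^ k := by
    lift x to NNReal using hx
    have h := NNReal.coe_le_coe.2 (NNReal.rpow_add_le_add_rpow 1 x hk0.le hk1)
    simpa using h
  have h2 : 1 + x ^ k ≤ Real.exp (x ^ k) := by
    have := Real.add_one_le_exp (x ^ k)
    linarith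
  have h3 : 1 + x = ((1 + x) ^ k) ^ (1 / k) := by
    rw [← Real.rpow_mul (by positivity), mul_one_div_cancel hk0.ne', Real.rpow_one]
  rw [h3]
  have h4 : ((1 + x) ^ k) ^ (1 / k) ≤ (Real.exp (x ^ k)) ^ (1 / k) :=
    Real.rpow_le_rpow (by positivity) (h1.trans h2) (by positivity)
  refine h4.trans (le_of_eq ?_)
  rw [← Real.exp_mul]
  congr 1
  ring

theorem norm_cprod_le {b : ι → ℂ} {k : ℝ} (hk0 : 0 < k) (hk1 : k < 1)
    (hs : Summable (fun i => ‖b i‖ ^ (-k))) (z : ℂ) :
    ‖cprod b z‖ ≤ Real.exp (((∑' i, ‖b i‖ ^ (-k)) / k) * ‖z‖ ^ k) := by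
  have h1 := (hasProd_cprod hk0 hk1 hs z).norm
  apply le_of_tendsto h1
  refine Eventually.of_forall fun s => ?_
  calc ∏ i ∈ s, ‖1 + -z / b i‖ ≤ ∏ i ∈ s, Real.exp ((‖b i‖ ^ (-k) / k) * ‖z‖ ^ k) := by
        apply Finset.prod_le_prod (fun i _ => norm_nonneg _)
        intro i _
        calc ‖1 + -z / b i‖ ≤ 1 + ‖z‖ / ‖b i‖ := by
              refine (norm_add_le _ _).trans ?_
              rw [norm_one, norm_div, norm_neg]
          _ ≤ Real.exp ((‖z‖ / ‖b i‖) ^ k / k) :=
              one_add_le_exp_rpow (by positivity) hk0 hk1.le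
          _ = Real.exp ((‖b i‖ ^ (-k) / k) * ‖z‖ ^ k) := by
              congr 1
              rw [Real.div_rpow (norm_nonneg _) (norm_nonneg _), Real.rpow_neg (norm_nonneg _)]
              ring
    _ = Real.exp (∑ i ∈ s, (‖b i‖ ^ (-k) / k) * ‖z‖ ^ k) := (Real.exp_sum _ _).symm
    _ ≤ Real.exp (((∑' i, ‖b i‖ ^ (-k)) / k) * ‖z‖ ^ k) := by
        apply Real.exp_le_exp.2
        rw [← Finset.sum_mul, ← Finset.sum_div]
        gcongr
        exact hs.sum_le_tsum s (fun i _ => by positivity)

theorem cprod_zero (b : ι → ℂ) : cprod b 0 = 1 := by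
  unfold cprod
  simp

theorem cprod_factor {b : ι → ℂ} {k : ℝ} (hk0 : 0 < k) (hk1 : k < 1)
    (hs : Summable (fun i => ‖b i‖ ^ (-k))) {a : ℂ} (ha : a ≠ 0) (T : Finset ι)
    (hT : ∀ i ∈ T, b i = a) :
    ∃ h1 : ℂ → ℂ, Differentiable ℂ h1 ∧ ∀ z, cprod b z = (z - a) ^ T.card * h1 z := by
  let b' : ↥((T : Set ι)ᶜ : Set ι) → ℂ := fun i => b i.1
  have hs' : Summable (fun i => ‖b' i‖ ^ (-k)) := hs.subtype _
  refine ⟨fun z => (-1 / a) ^ T.card * cprod b' z, ?_, ?_⟩
  · exact (differentiable_cprod hk0 hk1 hs').const_mul _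
  · intro z
    have h1 := hasProd_cprod hk0 hk1 hs z
    have h2 : HasProd ((fun i => 1 + -z / b i) ∘ (Subtype.val : ↥((T : Set ι)ᶜ : Set ι) → ι))
        (cprod b' z) := hasProd_cprod hk0 hk1 hs' z
    have h3 : HasProd ((fun i => 1 + -z / b i) ∘ (Subtype.val : ↥(T : Set ι) → ι))
        (∏ i ∈ T, (1 + -z / b i)) := by
      exact T.hasProd (fun i => 1 + -z / b i)
    have h4 := h3.mul_compl h2
    have h5 := h1.unique h4
    rw [h5]
    have h6 : ∏ i ∈ T, (1 + -z / b i) = (z - a) ^ T.card * (-1 / a) ^ T.card := by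
      rw [← mul_pow, ← Finset.prod_const]
      apply Finset.prod_congr rfl
      intro i hi
      rw [hT i hi]
      field_simp
      ring
    rw [h6]
    ring

end Product



theorem summable_of_count {ι : Type*} {b : ι → ℂ} {k q C : ℝ} (hkq : k < q) (hq : 0 < q)
    (hfin : ∀ r : ℝ, {i | ‖b i‖ < r}.Finite)
    (hcount : ∀ r : ℝ, 1 ≤ r → (({i | ‖b i‖ < r}.ncard : ℕ) : ℝ) ≤ C * r ^ k) :
    Summable (fun i => ‖b i‖ ^ (-q)) := by
  let N : ι → ℕ := fun i => ⌊Real.logb 2 ‖b i‖⌋₊
  have hlt : ∀ i, ‖b i‖ < 2 ^ (N i + 1) := by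
    intro i
    rcases eq_or_lt_of_le (norm_nonneg (b i)) with h | h
    · rw [← h]; positivity
    · have h1 : Real.logb 2 ‖b i‖ < (N i : ℝ) + 1 := Nat.lt_floor_add_one _
      rw [Real.logb_lt_iff_lt_rpow (by norm_num) h] at h1
      have e : ((N i : ℝ) + 1) = ((N i + 1 : ℕ) : ℝ) := by push_cast; ring
      rw [e, Real.rpow_natCast] at h1
      exact h1
  have hge : ∀ i, 1 ≤ N i → (2 : ℝ) ^ (N i) ≤ ‖b i‖ := by
    intro i hi
    have h0 : 0 ≤ Real.logb 2 ‖b i‖ := by
      by_contra hcon
      push Not at hcon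
      have : N i = 0 := Nat.floor_of_nonpos hcon.le
      omega
    have h1 : (N i : ℝ) ≤ Real.logb 2 ‖b i‖ := Nat.floor_le h0
    have hpos : 0 < ‖b i‖ := by
      rcases eq_or_lt_of_le (norm_nonneg (b i)) with h | h
      · exfalso
        have : N i = 0 := by simp [N, ← h]
        omega
      · exact h
    rw [Real.le_logb_iff_rpow_le (by norm_num) hpos, Real.rpow_natCast] at h1
    exact h1
  let s : ℕ → Set ι := fun n => {i | N i = n}
  have hsfin : ∀ n, (s n).Finite := by
    intro n
    apply (hfin (2 ^ (n + 1))).subset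
    intro i hi
    have : N i = n := hi
    rw [mem_ofPred_eq, ← this]
    exact hlt i
  have hC : 0 ≤ C := by
    have := hcount 1 le_rfl
    rw [Real.one_rpow, mul_one] at this
    exact le_trans (by positivity) this
  rw [summable_partition (s := s) (fun i => by positivity) (fun i => ⟨N i, rfl, fun n hn => hn.symm⟩)]
  refine ⟨fun n => ?_, ?_⟩
  · have := (hsfin n).to_subtype
    exact Summable.of_finite
  · rw [← summable_nat_add_iff 1]
    have hgeo : Summable (fun n : ℕ => C * 2 ^ k * ((2 : ℝ) ^ (k - q)) ^ (n + 1)) := by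
      apply Summable.mul_left
      rw [summable_nat_add_iff 1]
      apply summable_geometric_of_lt_one (by positivity)
      apply Real.rpow_lt_one_of_one_lt_of_neg (by norm_num)
      linarith
    apply Summable.of_nonneg_of_le _ _ hgeo
    · intro n
      exact tsum_nonneg fun i => by positivity
    · intro n
      have := (hsfin (n + 1)).fintype
      rw [tsum_fintype]
      have h1 : ∀ i ∈ (Finset.univ : Finset (s (n + 1))), ‖b i‖ ^ (-q) ≤
          ((2 : ℝ) ^ (-q)) ^ (n + 1) := by
        intro i _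
        have hi : N i = n + 1 := i.2
        have h2 := hge i (by omega)
        rw [hi] at h2
        have h3 : ((2 : ℝ) ^ (-q)) ^ (n + 1) = ((2 : ℝ) ^ (n + 1)) ^ (-q) := by
          rw [← Real.rpow_natCast, ← Real.rpow_mul (by norm_num), ← Real.rpow_natCast,
            ← Real.rpow_mul (by norm_num), mul_comm]
        rw [h3]
        exact Real.rpow_le_rpow_of_nonpos (by positivity) h2 (by linarith)
      refine (Finset.sum_le_card_nsmul _ _ _ h1).trans ?_
      rw [nsmul_eq_mul]
      have hcard : ((Finset.univ : Finset (s (n + 1))).card : ℝ) ≤ C * (2 ^ (n + 2)) ^ k := by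
        have h4 : (Finset.univ : Finset (s (n + 1))).card = (s (n + 1)).ncard := by
          rw [Finset.card_univ, ← Nat.card_eq_fintype_card]
          rfl
        rw [h4]
        have h5 : (s (n + 1)).ncard ≤ {i | ‖b i‖ < 2 ^ (n + 2)}.ncard := by
          apply ncard_le_ncard _ (hfin _)
          intro i hi
          have : N i = n + 1 := hi
          have h6 := hlt i
          rw [this] at h6
          exact h6
        have h7 := hcount (2 ^ (n + 2)) (one_le_pow₀ (by norm_num))
        exact le_trans (by exact_mod_cast h5) h7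
      have h8 : 0 ≤ ((2 : ℝ) ^ (-q)) ^ (n + 1) := by positivity
      refine (mul_le_mul_of_nonneg_right hcard h8).trans (le_of_eq ?_)
      have e1 : ((2 : ℝ) ^ (n + 2)) ^ k = 2 ^ k * ((2 : ℝ) ^ k) ^ (n + 1) := by
        rw [← Real.rpow_natCast, ← Real.rpow_mul (by norm_num), ← Real.rpow_natCast,
          ← Real.rpow_mul (by norm_num), ← Real.rpow_add (by norm_num)]
        congr 1
        push_cast
        ring
      have e2 : ((2 : ℝ) ^ (k - q)) ^ (n + 1) = ((2 : ℝ) ^ k) ^ (n + 1) *
          ((2 : ℝ) ^ (-q)) ^ (n + 1) := by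
        rw [← mul_pow, ← Real.rpow_add (by norm_num), sub_eq_add_neg]
      rw [e1, e2]
      ring

/-- the multiplicity index -/
abbrev Idx (m : ℂ → ℕ) : Type := Σ z : ℂ, Fin (m z)

theorem idx_finite {m : ℂ → ℕ} (hm : ∀ r : ℝ, (ball (0 : ℂ) r ∩ Function.support m).Finite) (r : ℝ) :
    {i : Idx m | ‖i.1‖ < r}.Finite ∧
    (({i : Idx m | ‖i.1‖ < r}.ncard : ℕ) : ℝ) = ∑ᶠ (z : ℂ) (_ : z ∈ ball (0 : ℂ) r), (m z : ℝ) := by
  let Z : Finset ℂ := (hm r).toFinset
  have e : {i : Idx m | ‖i.1‖ < r} = ↑(Z.sigma (fun z => (Finset.univ : Finset (Fin (m z))))) := by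
    ext ⟨z, j⟩
    simp only [mem_ofPred_eq, Finset.coe_sigma, Set.mem_sigma_iff, Finset.mem_coe,
      Finset.mem_univ, and_true, Z, Set.Finite.mem_toFinset, mem_inter_iff, mem_ball_zero_iff,
      Function.mem_support, ne_eq]
    constructor
    · intro h
      refine ⟨h, fun h0 => ?_⟩
      have := j.2
      omega
    · exact fun h => h.1
  constructor
  · rw [e]; exact Finset.finite_toSet _
  · rw [e, Set.ncard_coe_finset, Finset.card_sigma]
    rw [finsum_mem_eq_sum_of_inter_support_eq (fun z => (m z : ℝ)) (t := Z)]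
    · simp
    · ext z
      simp only [mem_inter_iff, mem_ball_zero_iff, Function.mem_support, ne_eq, Nat.cast_eq_zero,
        Finset.mem_coe, Z, Set.Finite.mem_toFinset]
      tauto




theorem exists_H {f : ℂ → ℂ} (hf : MeromorphicOn f Set.univ) {k C : ℝ}
    (hcount : ∀ r : ℝ, 1 ≤ r →
        (∑ᶠ (z : ℂ) (_ : z ∈ Metric.ball (0 : ℂ) r),
          (((-(MeromorphicOn.divisor f Set.univ z)) ⊔ 0 : ℤ) : ℝ)) ≤ C * r ^ k)
    {q : ℝ} (hkq : k < q) (hq0 : 0 < q) (hq1 : q < 1) :
    ∃ (H : ℂ → ℂ) (n : ℕ) (A : ℝ), 0 ≤ A ∧ Differentiable ℂ H ∧ (∃ z, H z ≠ 0) ∧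
      (∀ z, ‖H z‖ ≤ ‖z‖ ^ n * Real.exp (A * ‖z‖ ^ q)) ∧
      ∀ z, 0 ≤ meromorphicOrderAt (f * H) z := by
  set D := MeromorphicOn.divisor f Set.univ with hD
  let mult : ℂ → ℕ := fun z => ((-(D z)) ⊔ 0).toNat
  let m : ℂ → ℕ := fun z => if z = 0 then 0 else mult z
  have hmle : ∀ z, m z ≤ mult z := by
    intro z
    simp only [m]
    split_ifs
    · exact Nat.zero_le _
    · exact le_rfl
  have hmsupp : ∀ r : ℝ, (ball (0 : ℂ) r ∩ Function.support mult).Finite := by
    intro r
    have h1 := (Function.locallyFinsupp.locallyFiniteSupport D).finite_inter_support_of_isCompact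
      (isCompact_closedBall (0 : ℂ) r)
    apply h1.subset
    rintro z ⟨hz1, hz2⟩
    refine ⟨ball_subset_closedBall hz1, ?_⟩
    rw [Function.mem_support] at hz2 ⊢
    intro h0
    apply hz2
    have h0' : D z = 0 := h0
    simp [mult, h0']
  have hmsupp' : ∀ r : ℝ, (ball (0 : ℂ) r ∩ Function.support m).Finite := by
    intro r
    apply (hmsupp r).subset
    rintro z ⟨hz1, hz2⟩
    refine ⟨hz1, ?_⟩
    rw [Function.mem_support] at hz2 ⊢
    intro h0
    have := hmle z
    omega
  have hcast : ∀ z, (((-(D z)) ⊔ 0 : ℤ) : ℝ) = (mult z : ℝ) := by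
    intro z
    have : (((-(D z)) ⊔ 0).toNat : ℤ) = (-(D z)) ⊔ 0 := Int.toNat_of_nonneg le_sup_right
    show ((max (-(D z)) 0 : ℤ) : ℝ) = (((max (-(D z)) 0).toNat : ℕ) : ℝ)
    rw [← Int.cast_natCast, this]
  let b : Idx m → ℂ := fun i => i.1
  have hsum : Summable (fun i => ‖b i‖ ^ (-q)) := by
    apply summable_of_count hkq hq0 (C := C)
    · intro r; exact (idx_finite hmsupp' r).1
    · intro r hr
      rw [(idx_finite hmsupp' r).2]
      refine le_trans ?_ (hcount r hr)
      simp_rw [hcast]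
      rw [finsum_mem_eq_sum_of_inter_support_eq (fun z => (m z : ℝ)) (t := (hmsupp r).toFinset),
        finsum_mem_eq_sum_of_inter_support_eq (fun z => (mult z : ℝ)) (t := (hmsupp r).toFinset)]
      · apply Finset.sum_le_sum
        intro z _
        exact_mod_cast hmle z
      · ext z
        simp only [mem_inter_iff, mem_ball_zero_iff, Function.mem_support, ne_eq, Nat.cast_eq_zero,
          Finset.mem_coe, Set.Finite.mem_toFinset]
        tauto
      · ext z
        simp only [mem_inter_iff, mem_ball_zero_iff, Function.mem_support, ne_eq, Nat.cast_eq_zero,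
          Finset.mem_coe, Set.Finite.mem_toFinset]
        have := hmle z
        constructor
        · rintro ⟨h1, h2⟩
          exact ⟨⟨h1, by omega⟩, h2⟩
        · rintro ⟨⟨h1, _⟩, h2⟩
          exact ⟨h1, h2⟩
  have hdc := differentiable_cprod hq0 hq1 hsum
  refine ⟨fun z => z ^ (mult 0) * cprod b z, mult 0, (∑' i, ‖b i‖ ^ (-q)) / q, ?_, ?_, ?_, ?_, ?_⟩
  · have : 0 ≤ ∑' i, ‖b i‖ ^ (-q) := tsum_nonneg (fun i => by positivity)
    positivity
  · exact (differentiable_id.pow _).mul hdc
  · -- nonzero somewhere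
    have h1 : ∀ᶠ z in 𝓝 (0 : ℂ), cprod b z ≠ 0 := by
      apply hdc.continuous.continuousAt.eventually_ne
      rw [cprod_zero]; exact one_ne_zero
    have h2 : ∀ᶠ z in 𝓝[≠] (0 : ℂ), cprod b z ≠ 0 := h1.filter_mono nhdsWithin_le_nhds
    obtain ⟨z, hz1, hz2⟩ := (h2.and self_mem_nhdsWithin).exists
    exact ⟨z, mul_ne_zero (pow_ne_zero _ hz2) hz1⟩
  · intro z
    rw [norm_mul, norm_pow]
    exact mul_le_mul_of_nonneg_left (norm_cprod_le hq0 hq1 hsum z) (by positivity)
  · intro z
    have hfz : MeromorphicAt f z := hf z (mem_univ z)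
    have hHd : Differentiable ℂ (fun z => z ^ (mult 0) * cprod b z) :=
      (differentiable_id.pow _).mul hdc
    have hHa : AnalyticAt ℂ (fun z => z ^ (mult 0) * cprod b z) z := hHd.analyticAt z
    rw [meromorphicOrderAt_mul hfz hHa.meromorphicAt]
    -- order of H
    have hHo : ((mult z : ℕ) : WithTop ℤ) ≤
        meromorphicOrderAt (fun z => z ^ (mult 0) * cprod b z) z := by
      rw [hHa.meromorphicOrderAt_eq]
      have hle : ((mult z : ℕ) : ℕ∞) ≤ analyticOrderAt (fun z => z ^ (mult 0) * cprod b z) z := by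
        rw [natCast_le_analyticOrderAt hHa]
        by_cases hz : z = 0
        · subst hz
          refine ⟨cprod b, hdc.analyticAt 0, Eventually.of_forall fun w => ?_⟩
          simp
        · have hm : m z = mult z := by simp [m, hz]
          obtain ⟨h1, hh1, hh2⟩ := cprod_factor hq0 hq1 hsum hz
            (Finset.univ.map ⟨fun j : Fin (m z) => (⟨z, j⟩ : Idx m), fun a b h => by
              simpa using h⟩) (by
                intro i hi
                rw [Finset.mem_map] at hi
                obtain ⟨j, _, rfl⟩ := hi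
                rfl)
          rw [Finset.card_map, Finset.card_univ, Fintype.card_fin, hm] at hh2
          refine ⟨fun w => w ^ (mult 0) * h1 w, ((differentiable_id.pow _).mul hh1).analyticAt z,
            Eventually.of_forall fun w => ?_⟩
          rw [hh2 w, smul_eq_mul]
          ring
      revert hle
      cases hord : analyticOrderAt (fun z => z ^ (mult 0) * cprod b z) z with
      | top => intro _; simp
      | coe a =>
        intro hle
        have : mult z ≤ a := by exact_mod_cast hle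
        simp only [ENat.map_natCast]
        exact_mod_cast this
    by_cases htop : meromorphicOrderAt f z = ⊤
    · rw [htop, WithTop.top_add]
      exact le_top
    · have hDz : meromorphicOrderAt f z = (D z : WithTop ℤ) := by
        rw [hD, MeromorphicOn.divisor_apply hf (mem_univ z), WithTop.coe_untop₀_of_ne_top htop]
      rw [hDz]
      have h1 : (0 : ℤ) ≤ D z + mult z := by
        have : ((mult z : ℕ) : ℤ) = (-(D z)) ⊔ 0 := Int.toNat_of_nonneg le_sup_right
        rw [this]
        have := le_sup_left (a := -(D z)) (b := (0 : ℤ))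
        omega
      calc (0 : WithTop ℤ) = ((0 : ℤ) : WithTop ℤ) := rfl
        _ ≤ ((D z + mult z : ℤ) : WithTop ℤ) := by exact_mod_cast h1
        _ = (D z : WithTop ℤ) + ((mult z : ℕ) : WithTop ℤ) := by push_cast; rfl
        _ ≤ _ := by gcongr


end Pool.Agent.Helper787.PathGrowth
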