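import Mathlib
import Pool.Agent.Helper787.PathB
import Pool.Agent.Helper787.PathC

set_option autoImplicit false

open Set Filter Topology Metric

namespace Pool.Agent.Helper787.PathGrowth

theorem lo_rpow {a b : ℝ} (h : a < b) :
    (fun x : ℝ => x ^ a) =o[atTop] (fun x : ℝ => x ^ b) := by
  apply Asymptotics.isLittleO_of_tendsto'
  · filter_upwards [eventually_gt_atTop 0] with x hx h0
    exact absurd h0 (by positivity)
  · have h1 := tendsto_rpow_neg_atTop (sub_pos.2 h)
    apply h1.congr'
    filter_upwards [eventually_gt_atTop 0] with x hx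
    rw [← Real.rpow_sub hx]
    congr 1
    ring

theorem countable_compl_of_codiscrete {S : Set ℂ} (hS : S ∈ codiscrete ℂ) : Sᶜ.Countable := by
  obtain ⟨h1, h2⟩ := mem_codiscrete'.1 hS
  have h3 : IsLindelof Sᶜ := h1.isClosed_compl.isLindelof
  exact h3.countable_of_isDiscrete h2

theorem logCounting_top_of_entire {g : ℂ → ℂ} (hg : Differentiable ℂ g) (r : ℝ) :
    ValueDistribution.logCounting g ⊤ r = 0 := by
  rw [ValueDistribution.logCounting_top]
  have h1 : (MeromorphicOn.divisor g univ)⁻ = 0 := by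
    apply negPart_eq_zero.2
    have ha : AnalyticOnNhd ℂ g univ := fun z _ => hg.analyticAt z
    exact MeromorphicOn.AnalyticOnNhd.divisor_nonneg ha
  rw [h1]
  simp

theorem characteristic_entire {g : ℂ → ℂ} (hg : Differentiable ℂ g) (r : ℝ) :
    ValueDistribution.characteristic g ⊤ r =
      Real.circleAverage (fun z => Real.posLog ‖g z‖) 0 r := by
  unfold ValueDistribution.characteristic
  rw [Pi.add_apply, logCounting_top_of_entire hg, add_zero, ValueDistribution.proximity_top]

theorem order_ne_top {g : ℂ → ℂ} (hg : Differentiable ℂ g) (hne : ∃ z, g z ≠ 0) (z : ℂ) :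
    meromorphicOrderAt g z ≠ ⊤ := by
  rw [(hg.analyticAt z).meromorphicOrderAt_eq]
  have h := AnalyticOnNhd.analyticOrderAt_eq_top_iff_eq_zero z (fun z => hg.analyticAt z)
  intro htop
  have h1 : analyticOrderAt g z = ⊤ := by
    revert htop
    cases analyticOrderAt g z with
    | top => intro _; rfl
    | coe a =>
      intro h
      simp only [ENat.map_natCast] at h
      exact absurd h (WithTop.coe_ne_top)
  rw [h1] at h
  obtain ⟨w, hw⟩ := hne
  apply hw
  rw [h.1 rfl]
  rfl

theorem mainThm {f : ℂ → ℂ} (hf : MeromorphicOn f Set.univ) {k C : ℝ} (hk : k < 1 / 2)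
    (hcount : ∀ r : ℝ, 1 ≤ r →
        (∑ᶠ (z : ℂ) (_ : z ∈ Metric.ball (0 : ℂ) r),
          (((-(MeromorphicOn.divisor f Set.univ z)) ⊔ 0 : ℤ) : ℝ)) ≤ C * r ^ k)
    {μ : ℝ} (hμ : 1 / 2 < μ)
    (hT : ∀ᶠ r in Filter.atTop, r ^ μ ≤ ValueDistribution.characteristic f ⊤ r) :
    ∃ γ : ℝ → ℂ, Continuous γ ∧
        Filter.Tendsto (fun t => ‖γ t‖) Filter.atTop Filter.atTop ∧
        ∀ n : ℕ, Filter.Tendsto (fun t => ‖f (γ t)‖ / ‖γ t‖ ^ n) Filter.atTop Filter.atTop := by
  -- exponents
  obtain ⟨q, hq1, hq2⟩ : ∃ q, max k 0 < q ∧ q < 1 / 2 :=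
    exists_between (max_lt hk (by norm_num))
  obtain ⟨p, hp1, hp2⟩ : ∃ p, q < p ∧ p < 1 / 2 := exists_between hq2
  have hkq : k < q := lt_of_le_of_lt (le_max_left _ _) hq1
  have hq0 : 0 < q := lt_of_le_of_lt (le_max_right _ _) hq1
  have hp0 : 0 < p := hq0.trans hp1
  obtain ⟨H, m, A, hA, hH, hHne, hHb, hord⟩ := exists_H hf hcount hkq hq0 (by linarith)
  have hfM : Meromorphic f := meromorphicOn_univ.1 hf
  have hHa : ∀ z, AnalyticAt ℂ H z := fun z => hH.analyticAt z
  have hHM : Meromorphic H := fun z => (hHa z).meromorphicAt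
  have hfH : MeromorphicOn (f * H) univ := fun z _ => (hfM z).mul (hHM z)
  -- the entire function g
  set g := toMeromorphicNFOn (f * H) univ with hgdef
  have hNF : MeromorphicNFOn g univ := meromorphicNFOn_toMeromorphicNFOn _ _
  have hga : ∀ z, AnalyticAt ℂ g z := by
    intro z
    rw [← (hNF (mem_univ z)).meromorphicOrderAt_nonneg_iff_analyticAt, hgdef,
      meromorphicOrderAt_toMeromorphicNFOn hfH (mem_univ z)]
    exact hord z
  have hg : Differentiable ℂ g := fun z => (hga z).differentiableAt
  have heq : (f * H) =ᶠ[codiscrete ℂ] g := toMeromorphicNFOn_eqOn_codiscrete hfH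
  have hHcod : H ⁻¹' {0}ᶜ ∈ codiscrete ℂ := by
    obtain ⟨w, hw⟩ := hHne
    exact AnalyticOnNhd.preimage_zero_mem_codiscrete (fun z _ => hHa z) hw
  have heq2 : f =ᶠ[codiscrete ℂ] g * H⁻¹ := by
    filter_upwards [heq, hHcod] with z hz1 hz2
    have hz3 : H z ≠ 0 := hz2
    simp only [Pi.mul_apply, Pi.inv_apply] at hz1 ⊢
    rw [← hz1]
    field_simp
  -- g is not identically zero
  have hgne : ∃ z, g z ≠ 0 := by
    by_contra hcon
    push Not at hcon
    have h0 : f =ᶠ[codiscrete ℂ] (fun _ => (0 : ℂ)) := by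
      filter_upwards [heq2] with z hz
      rw [hz]
      simp [hcon z]
    obtain ⟨r, hr1, hr2⟩ := (hT.and (eventually_gt_atTop 0)).exists
    rw [ValueDistribution.characteristic_congr_codiscrete h0 hr2.ne'] at hr1
    rw [characteristic_entire (differentiable_const 0)] at hr1
    have h2 : Real.circleAverage (fun z : ℂ => Real.posLog ‖(0 : ℂ)‖) 0 r = 0 := by
      simp [Real.circleAverage_const]
    rw [h2] at hr1
    have : 0 < r ^ μ := by positivity
    linarith
  -- bound for the characteristic
  set c0 : ℝ := max |Real.log ‖H 0‖| |Real.log ‖meromorphicTrailingCoeffAt H 0‖| with hc0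
  have hchar : ∀ r : ℝ, 1 ≤ r → ValueDistribution.characteristic f ⊤ r ≤
      Real.circleAverage (fun z => Real.posLog ‖g z‖) 0 r + (m * Real.log r + A * r ^ q + c0) := by
    intro r hr
    have hr0 : 0 < r := by linarith
    rw [ValueDistribution.characteristic_congr_codiscrete heq2 hr0.ne']
    have h1 := ValueDistribution.characteristic_mul_top_le hr (f₁ := g) (f₂ := H⁻¹)
      (fun z => (hga z).meromorphicAt) (order_ne_top hg hgne)
      (fun z => (hHM z).inv) (by
        intro z
        rw [meromorphicOrderAt_inv]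
        have := order_ne_top hH hHne z
        intro h
        apply this
        rw [← neg_neg (meromorphicOrderAt H z), h]
        rfl)
    refine h1.trans ?_
    rw [Pi.add_apply, characteristic_entire hg]
    have h2 := ValueDistribution.characteristic_sub_characteristic_inv_le hHM (R := r)
    have h3 := (abs_le.1 h2).1
    have h4 : ValueDistribution.characteristic H ⊤ r ≤ m * Real.log r + A * r ^ q := by
      rw [characteristic_entire hH]
      apply Real.circleAverage_mono_on_of_le_circle
      · apply ContinuousOn.circleIntegrable'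
        apply Continuous.continuousOn
        exact Real.continuous_posLog.comp hH.continuous.norm
      · intro z hz
        rw [abs_of_pos hr0, mem_sphere_zero_iff_norm] at hz
        have h5 := hHb z
        rw [hz] at h5
        have hlog : 0 ≤ Real.log r := Real.log_nonneg hr
        have hpos : 0 ≤ (m : ℝ) * Real.log r + A * r ^ q := by positivity
        show max 0 (Real.log ‖H z‖) ≤ _
        apply max_le hpos
        rcases eq_or_lt_of_le (norm_nonneg (H z)) with h | h
        · rw [← h, Real.log_zero]; exact hpos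
        · have h6 := Real.log_le_log h h5
          rw [Real.log_mul (by positivity) (Real.exp_pos _).ne', Real.log_pow, Real.log_exp] at h6
          exact h6
    linarith
  -- growth of g
  have hgT : ∀ C : ℝ, ∀ᶠ r in atTop, C * r ^ p + C <
      Real.circleAverage (fun z => Real.posLog ‖g z‖) 0 r := by
    intro C
    have hlo : (fun r : ℝ => C * r ^ p + C + (m * Real.log r + A * r ^ q + c0)) =o[atTop]
        (fun r : ℝ => r ^ μ) := by
      have hμ0 : 0 < μ := by linarith
      have a1 : (fun r : ℝ => r ^ p) =o[atTop] (fun r : ℝ => r ^ μ) :=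
        lo_rpow (by linarith)
      have a2 : (fun r : ℝ => r ^ q) =o[atTop] (fun r : ℝ => r ^ μ) :=
        lo_rpow (by linarith)
      have a3 : (fun r : ℝ => Real.log r) =o[atTop] (fun r : ℝ => r ^ μ) :=
        isLittleO_log_rpow_atTop hμ0
      have a4 : ∀ c : ℝ, (fun _ : ℝ => c) =o[atTop] (fun r : ℝ => r ^ μ) := by
        intro c
        rw [Asymptotics.isLittleO_const_left]
        right
        exact tendsto_norm_atTop_atTop.comp (tendsto_rpow_atTop hμ0)
      exact ((a1.const_mul_left C).add (a4 C)).add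
        (((a3.const_mul_left _).add (a2.const_mul_left A)).add (a4 c0))
    filter_upwards [hT, eventually_ge_atTop 1, hlo.def (by norm_num : (0 : ℝ) < 1 / 2)]
      with r h1 h2 h3
    have h4 := hchar r h2
    have hr : 0 < r ^ μ := by positivity
    rw [Real.norm_of_nonneg hr.le] at h3
    have h5 := le_abs_self (C * r ^ p + C + (m * Real.log r + A * r ^ q + c0))
    rw [Real.norm_eq_abs] at h3
    linarith
  -- exceptional set
  have hBc : ({z | f z * H z = g z ∧ H z ≠ 0}ᶜ : Set ℂ).Countable := by
    apply countable_compl_of_codiscrete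
    filter_upwards [heq, hHcod] with z hz1 hz2
    exact ⟨hz1, hz2⟩
  obtain ⟨γ, hγc, hγt, hγ⟩ := path_of_entire hg hp0 hp2 hgT hBc
  refine ⟨γ, hγc, hγt, fun n => ?_⟩
  -- lower bound
  have hlo : Tendsto (fun x : ℝ => Real.exp (x ^ p - A * x ^ q - (m + n) * Real.log x)) atTop atTop := by
    apply Real.tendsto_exp_atTop.comp
    have a1 : (fun x : ℝ => A * x ^ q + (m + n) * Real.log x) =o[atTop] (fun x : ℝ => x ^ p) :=
      ((lo_rpow hp1).const_mul_left A).add
        ((isLittleO_log_rpow_atTop hp0).const_mul_left _)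
    apply tendsto_atTop_mono' atTop (f₁ := fun x : ℝ => (1 / 2) * x ^ p)
    · filter_upwards [eventually_gt_atTop 0, a1.def (by norm_num : (0 : ℝ) < 1 / 2)] with x hx h
      have hxp : 0 < x ^ p := by positivity
      rw [Real.norm_of_nonneg hxp.le, Real.norm_eq_abs] at h
      have := le_abs_self (A * x ^ q + (m + n) * Real.log x)
      linarith
    · exact (tendsto_rpow_atTop hp0).const_mul_atTop (by norm_num)
  apply tendsto_atTop_mono' atTop _ (hlo.comp hγt)
  filter_upwards [hγt.eventually (eventually_gt_atTop 0)] with t ht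
  obtain ⟨h1, h2⟩ := hγ t
  rw [mem_compl_iff, not_not] at h1
  obtain ⟨h3, h4⟩ := h1
  set x := ‖γ t‖ with hx
  have hHpos : 0 < ‖H (γ t)‖ := norm_pos_iff.2 h4
  have h5 : ‖f (γ t)‖ = ‖g (γ t)‖ / ‖H (γ t)‖ := by
    rw [← h3, norm_mul]
    field_simp
  have h6 := hHb (γ t)
  rw [← hx] at h6
  show Real.exp (x ^ p - A * x ^ q - (m + n) * Real.log x) ≤ ‖f (γ t)‖ / x ^ n
  rw [h5, div_div, le_div_iff₀ (by positivity)]
  have h7 : ‖H (γ t)‖ * x ^ n ≤ x ^ m * Real.exp (A * x ^ q) * x ^ n :=
    mul_le_mul_of_nonneg_right h6 (by positivity)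
  refine le_trans (mul_le_mul_of_nonneg_left h7 (Real.exp_pos _).le) ?_
  refine le_trans (le_of_eq ?_) h2.le
  have e1 : x ^ m * Real.exp (A * x ^ q) * x ^ n = Real.exp ((m + n) * Real.log x + A * x ^ q) := by
    have em : ∀ j : ℕ, x ^ j = Real.exp (j * Real.log x) := by
      intro j
      rw [Real.exp_nat_mul, Real.exp_log ht]
    rw [em m, em n, ← Real.exp_add, ← Real.exp_add]
    congr 1
    ring
  rw [e1, ← Real.exp_add]
  congr 1
  ring

end Pool.Agent.Helper787.PathGrowth
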