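import Pool.Agent.Helper787.RMDefs
set_option autoImplicit false
open Metric Complex Filter Topology
namespace RM

theorem nodes_quadratic_key (Q : Fin 7 → Fin 7 → ℂ) (hs : ∀ i j, Q i j = Q j i)
    (hd : ∀ i, Q i i = 0)
    (h : ∀ p : E7, Node p → ∑ i, ∑ j, p i * Q i j * p j = 0) (s0 s1 s2 s3 s4 s5 s6 : ℂ)
    (hn : Node ![s0, s1, s2, s3, s4, s5, s6]) :
    Q 0 1 * (s0 * s1) + Q 0 2 * (s0 * s2) + Q 0 3 * (s0 * s3) + Q 0 4 * (s0 * s4) + Q 0 5 * (s0 * s5) + Q 0 6 * (s0 * s6) + Q 1 2 * (s1 * s2) + Q 1 3 * (s1 * s3) + Q 1 4 * (s1 * s4) + Q 1 5 * (s1 * s5) + Q 1 6 * (s1 * s6) + Q 2 3 * (s2 * s3) + Q 2 4 * (s2 * s4) + Q 2 5 * (s2 * s5) + Q 2 6 * (s2 * s6) + Q 3 4 * (s3 * s4) + Q 3 5 * (s3 * s5) + Q 3 6 * (s3 * s6) + Q 4 5 * (s4 * s5) + Q 4 6 * (s4 * s6) + Q 5 6 * (s5 * s6) = 0 := by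
  have h1 := h _ hn
  simp only [Fin.sum_univ_succ, Finset.univ_eq_empty, Finset.sum_empty, Fin.sum_univ_zero] at h1
  have e1 : (Fin.succ 0 : Fin 7) = 1 := rfl
  have e2 : ((Fin.succ 0 : Fin 6).succ : Fin 7) = 2 := rfl
  have e3 : (((Fin.succ 0 : Fin 5).succ : Fin 6).succ : Fin 7) = 3 := rfl
  have e4 : ((((Fin.succ 0 : Fin 4).succ : Fin 5).succ : Fin 6).succ : Fin 7) = 4 := rfl
  have e5 : (((((Fin.succ 0 : Fin 3).succ : Fin 4).succ : Fin 5).succ : Fin 6).succ : Fin 7) = 5 := rfl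
  have e6 : ((((((Fin.succ 0 : Fin 2).succ : Fin 3).succ : Fin 4).succ : Fin 5).succ : Fin 6).succ : Fin 7) = 6 := rfl
  simp only [e1, e2, e3, e4, e5, e6] at h1
  have v0 : (![s0, s1, s2, s3, s4, s5, s6] : E7) 0 = s0 := rfl
  have v1 : (![s0, s1, s2, s3, s4, s5, s6] : E7) 1 = s1 := rfl
  have v2 : (![s0, s1, s2, s3, s4, s5, s6] : E7) 2 = s2 := rfl
  have v3 : (![s0, s1, s2, s3, s4, s5, s6] : E7) 3 = s3 := rfl
  have v4 : (![s0, s1, s2, s3, s4, s5, s6] : E7) 4 = s4 := rfl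
  have v5 : (![s0, s1, s2, s3, s4, s5, s6] : E7) 5 = s5 := rfl
  have v6 : (![s0, s1, s2, s3, s4, s5, s6] : E7) 6 = s6 := rfl
  rw [v0, v1, v2, v3, v4, v5, v6] at h1
  simp only [hd] at h1
  rw [hs 1 0] at h1
  rw [hs 2 0] at h1
  rw [hs 3 0] at h1
  rw [hs 4 0] at h1
  rw [hs 5 0] at h1
  rw [hs 6 0] at h1
  rw [hs 2 1] at h1
  rw [hs 3 1] at h1
  rw [hs 4 1] at h1
  rw [hs 5 1] at h1
  rw [hs 6 1] at h1
  rw [hs 3 2] at h1
  rw [hs 4 2] at h1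
  rw [hs 5 2] at h1
  rw [hs 6 2] at h1
  rw [hs 4 3] at h1
  rw [hs 5 3] at h1
  rw [hs 6 3] at h1
  rw [hs 5 4] at h1
  rw [hs 6 4] at h1
  rw [hs 6 5] at h1
  linear_combination (1 / 2 : ℂ) * h1

/-- J1a -/
theorem nodes_quadratic (Q : Fin 7 → Fin 7 → ℂ) (hs : ∀ i j, Q i j = Q j i) (hd : ∀ i, Q i i = 0)
    (h : ∀ p : E7, Node p → ∑ i, ∑ j, p i * Q i j * p j = 0) : Q = 0 := by
  have key := nodes_quadratic_key Q hs hd h
  have a0 := key 1 1 1 (-1) 1 (-1) (-1)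
    ⟨fun i => by fin_cases i <;> simp, by simp [Fin.sum_univ_succ]; try norm_num,
      ⟨2, by simp [sg]⟩⟩
  have a1 := key 1 1 1 (-1) (-1) 1 (-1)
    ⟨fun i => by fin_cases i <;> simp, by simp [Fin.sum_univ_succ]; try norm_num,
      ⟨2, by simp [sg]⟩⟩
  have a2 := key 1 1 1 (-1) (-1) (-1) 1
    ⟨fun i => by fin_cases i <;> simp, by simp [Fin.sum_univ_succ]; try norm_num,
      ⟨2, by simp [sg]⟩⟩
  have a3 := key 1 1 (-1) 1 1 (-1) (-1)
    ⟨fun i => by fin_cases i <;> simp, by simp [Fin.sum_univ_succ]; try norm_num,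
      ⟨2, by simp [sg]⟩⟩
  have a4 := key 1 1 (-1) 1 (-1) 1 (-1)
    ⟨fun i => by fin_cases i <;> simp, by simp [Fin.sum_univ_succ]; try norm_num,
      ⟨2, by simp [sg]⟩⟩
  have a5 := key 1 1 (-1) 1 (-1) (-1) 1
    ⟨fun i => by fin_cases i <;> simp, by simp [Fin.sum_univ_succ]; try norm_num,
      ⟨2, by simp [sg]⟩⟩
  have a6 := key 1 1 (-1) (-1) 1 (-1) 1
    ⟨fun i => by fin_cases i <;> simp, by simp [Fin.sum_univ_succ]; try norm_num,
      ⟨4, by simp [sg]⟩⟩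
  have a7 := key 1 1 (-1) (-1) (-1) 1 1
    ⟨fun i => by fin_cases i <;> simp, by simp [Fin.sum_univ_succ]; try norm_num,
      ⟨4, by simp [sg]⟩⟩
  have a8 := key 1 (-1) 1 1 1 (-1) (-1)
    ⟨fun i => by fin_cases i <;> simp, by simp [Fin.sum_univ_succ]; try norm_num,
      ⟨0, by simp [sg]⟩⟩
  have a9 := key 1 (-1) 1 1 (-1) 1 (-1)
    ⟨fun i => by fin_cases i <;> simp, by simp [Fin.sum_univ_succ]; try norm_num,
      ⟨0, by simp [sg]⟩⟩
  have a10 := key 1 (-1) 1 1 (-1) (-1) 1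
    ⟨fun i => by fin_cases i <;> simp, by simp [Fin.sum_univ_succ]; try norm_num,
      ⟨0, by simp [sg]⟩⟩
  have a11 := key 1 (-1) 1 (-1) 1 1 (-1)
    ⟨fun i => by fin_cases i <;> simp, by simp [Fin.sum_univ_succ]; try norm_num,
      ⟨0, by simp [sg]⟩⟩
  have a12 := key 1 (-1) 1 (-1) 1 (-1) 1
    ⟨fun i => by fin_cases i <;> simp, by simp [Fin.sum_univ_succ]; try norm_num,
      ⟨0, by simp [sg]⟩⟩
  have a13 := key 1 (-1) (-1) 1 1 1 (-1)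
    ⟨fun i => by fin_cases i <;> simp, by simp [Fin.sum_univ_succ]; try norm_num,
      ⟨0, by simp [sg]⟩⟩
  have a14 := key 1 (-1) (-1) (-1) 1 1 1
    ⟨fun i => by fin_cases i <;> simp, by simp [Fin.sum_univ_succ]; try norm_num,
      ⟨0, by simp [sg]⟩⟩
  have a15 := key (-1) 1 1 1 1 (-1) (-1)
    ⟨fun i => by fin_cases i <;> simp, by simp [Fin.sum_univ_succ]; try norm_num,
      ⟨0, by simp [sg]⟩⟩
  have a16 := key (-1) 1 1 1 (-1) 1 (-1)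
    ⟨fun i => by fin_cases i <;> simp, by simp [Fin.sum_univ_succ]; try norm_num,
      ⟨0, by simp [sg]⟩⟩
  have a17 := key (-1) 1 1 1 (-1) (-1) 1
    ⟨fun i => by fin_cases i <;> simp, by simp [Fin.sum_univ_succ]; try norm_num,
      ⟨0, by simp [sg]⟩⟩
  have a18 := key (-1) 1 1 (-1) 1 1 (-1)
    ⟨fun i => by fin_cases i <;> simp, by simp [Fin.sum_univ_succ]; try norm_num,
      ⟨0, by simp [sg]⟩⟩
  have a19 := key (-1) 1 (-1) 1 1 1 (-1)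
    ⟨fun i => by fin_cases i <;> simp, by simp [Fin.sum_univ_succ]; try norm_num,
      ⟨0, by simp [sg]⟩⟩
  have a20 := key (-1) (-1) 1 1 1 (-1) 1
    ⟨fun i => by fin_cases i <;> simp, by simp [Fin.sum_univ_succ]; try norm_num,
      ⟨4, by simp [sg]⟩⟩
  have q01 : Q 0 1 = 0 := by
    linear_combination (-1 / 12 : ℂ) * a0 + (1 / 12 : ℂ) * a1 + (1 / 6 : ℂ) * a2 + (-1 / 12 : ℂ) * a3 + (5 / 12 : ℂ) * a4 + (-1 / 6 : ℂ) * a5 + (1 / 3 : ℂ) * a6 + (-1 / 6 : ℂ) * a7 + (1 / 12 : ℂ) * a8 + (-5 / 12 : ℂ) * a9 + (1 / 4 : ℂ) * a10 + (1 / 4 : ℂ) * a11 + (-1 / 3 : ℂ) * a12 + (-1 / 12 : ℂ) * a13 + (-1 / 12 : ℂ) * a14 + (1 / 6 : ℂ) * a15 + (-1 / 6 : ℂ) * a17 + (-1 / 6 : ℂ) * a18 + (-1 / 6 : ℂ) * a19 + (-1 / 6 : ℂ) * a20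
  have q02 : Q 0 2 = 0 := by
    linear_combination (-1 / 12 : ℂ) * a0 + (1 / 12 : ℂ) * a1 + (1 / 6 : ℂ) * a2 + (-1 / 12 : ℂ) * a3 + (1 / 6 : ℂ) * a4 + (-1 / 6 : ℂ) * a5 + (1 / 12 : ℂ) * a6 + (-1 / 6 : ℂ) * a7 + (1 / 12 : ℂ) * a8 + (-1 / 6 : ℂ) * a9 + (1 / 4 : ℂ) * a10 + (1 / 4 : ℂ) * a11 + (-1 / 12 : ℂ) * a12 + (-1 / 12 : ℂ) * a13 + (-1 / 12 : ℂ) * a14 + (1 / 6 : ℂ) * a15 + (-1 / 6 : ℂ) * a17 + (-1 / 6 : ℂ) * a18 + (-1 / 6 : ℂ) * a19 + (-1 / 6 : ℂ) * a20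
  have q03 : Q 0 3 = 0 := by
    linear_combination (-1 / 12 : ℂ) * a0 + (1 / 12 : ℂ) * a1 + (-1 / 12 : ℂ) * a2 + (-1 / 12 : ℂ) * a3 + (1 / 6 : ℂ) * a4 + (1 / 12 : ℂ) * a5 + (1 / 12 : ℂ) * a6 + (-1 / 6 : ℂ) * a7 + (1 / 12 : ℂ) * a8 + (-1 / 6 : ℂ) * a9 + (1 / 4 : ℂ) * a10 + (-1 / 12 : ℂ) * a12 + (1 / 6 : ℂ) * a13 + (-1 / 12 : ℂ) * a14 + (1 / 6 : ℂ) * a15 + (-1 / 6 : ℂ) * a17 + (-1 / 6 : ℂ) * a18 + (-1 / 6 : ℂ) * a19 + (-1 / 6 : ℂ) * a20
  have q04 : Q 0 4 = 0 := by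
    linear_combination (-1 / 12 : ℂ) * a0 + (1 / 12 : ℂ) * a1 + (-1 / 12 : ℂ) * a2 + (-1 / 12 : ℂ) * a3 + (1 / 6 : ℂ) * a4 + (-1 / 6 : ℂ) * a5 + (1 / 3 : ℂ) * a6 + (-1 / 6 : ℂ) * a7 + (1 / 12 : ℂ) * a8 + (-5 / 12 : ℂ) * a9 + (1 / 4 : ℂ) * a10 + (1 / 4 : ℂ) * a11 + (-1 / 12 : ℂ) * a12 + (1 / 6 : ℂ) * a13 + (-1 / 12 : ℂ) * a14 + (1 / 6 : ℂ) * a15 + (-1 / 6 : ℂ) * a17 + (-1 / 6 : ℂ) * a18 + (-1 / 6 : ℂ) * a19 + (-1 / 6 : ℂ) * a20
  have q05 : Q 0 5 = 0 := by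
    linear_combination (-1 / 12 : ℂ) * a0 + (1 / 12 : ℂ) * a1 + (-1 / 12 : ℂ) * a2 + (-1 / 12 : ℂ) * a3 + (1 / 6 : ℂ) * a4 + (-1 / 6 : ℂ) * a5 + (1 / 12 : ℂ) * a6 + (1 / 12 : ℂ) * a7 + (-1 / 6 : ℂ) * a8 + (-1 / 6 : ℂ) * a9 + (1 / 4 : ℂ) * a10 + (1 / 4 : ℂ) * a11 + (-1 / 12 : ℂ) * a12 + (1 / 6 : ℂ) * a13 + (-1 / 12 : ℂ) * a14 + (1 / 6 : ℂ) * a15 + (-1 / 6 : ℂ) * a17 + (-1 / 6 : ℂ) * a18 + (-1 / 6 : ℂ) * a19 + (-1 / 6 : ℂ) * a20
  have q06 : Q 0 6 = 0 := by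
    linear_combination (-1 / 12 : ℂ) * a0 + (1 / 12 : ℂ) * a1 + (-1 / 12 : ℂ) * a2 + (-1 / 12 : ℂ) * a3 + (-1 / 12 : ℂ) * a4 + (1 / 12 : ℂ) * a5 + (1 / 12 : ℂ) * a6 + (1 / 12 : ℂ) * a7 + (-1 / 6 : ℂ) * a8 + (-1 / 6 : ℂ) * a9 + (1 / 4 : ℂ) * a10 + (1 / 6 : ℂ) * a12 + (1 / 6 : ℂ) * a13 + (-1 / 12 : ℂ) * a14 + (1 / 6 : ℂ) * a15 + (-1 / 6 : ℂ) * a17 + (-1 / 6 : ℂ) * a18 + (-1 / 6 : ℂ) * a19 + (-1 / 6 : ℂ) * a20
  have q12 : Q 1 2 = 0 := by
    linear_combination (-1 / 12 : ℂ) * a0 + (1 / 12 : ℂ) * a1 + (1 / 6 : ℂ) * a2 + (-1 / 12 : ℂ) * a3 + (1 / 6 : ℂ) * a4 + (-1 / 6 : ℂ) * a5 + (1 / 12 : ℂ) * a6 + (-1 / 6 : ℂ) * a7 + (1 / 12 : ℂ) * a8 + (-1 / 6 : ℂ) * a9 + (-1 / 12 : ℂ) * a12 + (-1 / 12 : ℂ) * a13 + (-1 / 12 : ℂ) * a14 + (1 / 6 : ℂ) * a15 + (1 / 12 : ℂ) * a17 + (1 / 12 : ℂ) * a18 + (-1 / 6 : ℂ) * a19 + (-1 / 6 : ℂ) * a20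
  have q13 : Q 1 3 = 0 := by
    linear_combination (-1 / 12 : ℂ) * a0 + (1 / 12 : ℂ) * a1 + (-1 / 12 : ℂ) * a2 + (-1 / 12 : ℂ) * a3 + (1 / 6 : ℂ) * a4 + (1 / 12 : ℂ) * a5 + (1 / 12 : ℂ) * a6 + (-1 / 6 : ℂ) * a7 + (1 / 12 : ℂ) * a8 + (-1 / 6 : ℂ) * a9 + (-1 / 12 : ℂ) * a12 + (-1 / 12 : ℂ) * a13 + (-1 / 12 : ℂ) * a14 + (1 / 6 : ℂ) * a15 + (1 / 12 : ℂ) * a17 + (-1 / 6 : ℂ) * a18 + (1 / 12 : ℂ) * a19 + (-1 / 6 : ℂ) * a20
  have q14 : Q 1 4 = 0 := by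
    linear_combination (-1 / 12 : ℂ) * a0 + (1 / 12 : ℂ) * a1 + (-1 / 12 : ℂ) * a2 + (-1 / 12 : ℂ) * a3 + (1 / 6 : ℂ) * a4 + (-1 / 6 : ℂ) * a5 + (1 / 3 : ℂ) * a6 + (-1 / 6 : ℂ) * a7 + (1 / 12 : ℂ) * a8 + (-1 / 6 : ℂ) * a9 + (-1 / 12 : ℂ) * a12 + (-1 / 12 : ℂ) * a13 + (-1 / 12 : ℂ) * a14 + (1 / 6 : ℂ) * a15 + (-1 / 4 : ℂ) * a16 + (1 / 12 : ℂ) * a17 + (1 / 12 : ℂ) * a18 + (1 / 12 : ℂ) * a19 + (-1 / 6 : ℂ) * a20
  have q15 : Q 1 5 = 0 := by
    linear_combination (-1 / 12 : ℂ) * a0 + (1 / 12 : ℂ) * a1 + (-1 / 12 : ℂ) * a2 + (-1 / 12 : ℂ) * a3 + (1 / 6 : ℂ) * a4 + (-1 / 6 : ℂ) * a5 + (1 / 12 : ℂ) * a6 + (1 / 12 : ℂ) * a7 + (1 / 12 : ℂ) * a8 + (-1 / 6 : ℂ) * a9 + (-1 / 12 : ℂ) * a12 + (-1 / 12 : ℂ) * a13 + (-1 / 12 : ℂ) * a14 + (-1 / 12 : ℂ) * a15 + (1 / 12 : ℂ) * a17 + (1 / 12 : ℂ) * a18 + (1 / 12 : ℂ) * a19 + (-1 / 6 : ℂ) * a20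
  have q16 : Q 1 6 = 0 := by
    linear_combination (-1 / 12 : ℂ) * a0 + (1 / 12 : ℂ) * a1 + (-1 / 12 : ℂ) * a2 + (-1 / 12 : ℂ) * a3 + (-1 / 12 : ℂ) * a4 + (1 / 12 : ℂ) * a5 + (1 / 12 : ℂ) * a6 + (1 / 12 : ℂ) * a7 + (1 / 12 : ℂ) * a8 + (1 / 12 : ℂ) * a9 + (-1 / 4 : ℂ) * a10 + (-1 / 4 : ℂ) * a11 + (1 / 6 : ℂ) * a12 + (-1 / 12 : ℂ) * a13 + (-1 / 12 : ℂ) * a14 + (-1 / 12 : ℂ) * a15 + (-1 / 4 : ℂ) * a16 + (1 / 3 : ℂ) * a17 + (1 / 12 : ℂ) * a18 + (1 / 12 : ℂ) * a19 + (-1 / 6 : ℂ) * a20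
  have q23 : Q 2 3 = 0 := by
    linear_combination (-1 / 12 : ℂ) * a0 + (-1 / 6 : ℂ) * a1 + (1 / 6 : ℂ) * a2 + (-1 / 12 : ℂ) * a3 + (1 / 6 : ℂ) * a4 + (-1 / 6 : ℂ) * a5 + (1 / 12 : ℂ) * a6 + (-1 / 6 : ℂ) * a7 + (1 / 12 : ℂ) * a8 + (-1 / 6 : ℂ) * a9 + (1 / 4 : ℂ) * a10 + (1 / 4 : ℂ) * a11 + (-1 / 3 : ℂ) * a12 + (-1 / 12 : ℂ) * a13 + (-1 / 12 : ℂ) * a14 + (1 / 6 : ℂ) * a15 + (1 / 4 : ℂ) * a16 + (-1 / 6 : ℂ) * a17 + (-1 / 6 : ℂ) * a18 + (-1 / 6 : ℂ) * a19 + (1 / 12 : ℂ) * a20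
  have q24 : Q 2 4 = 0 := by
    linear_combination (-1 / 12 : ℂ) * a0 + (-1 / 6 : ℂ) * a1 + (1 / 6 : ℂ) * a2 + (-1 / 12 : ℂ) * a3 + (1 / 6 : ℂ) * a4 + (-1 / 6 : ℂ) * a5 + (1 / 12 : ℂ) * a6 + (-1 / 6 : ℂ) * a7 + (1 / 12 : ℂ) * a8 + (-1 / 6 : ℂ) * a9 + (1 / 4 : ℂ) * a11 + (-1 / 12 : ℂ) * a12 + (-1 / 12 : ℂ) * a13 + (-1 / 12 : ℂ) * a14 + (1 / 6 : ℂ) * a15 + (-1 / 6 : ℂ) * a17 + (1 / 12 : ℂ) * a18 + (-1 / 6 : ℂ) * a19 + (1 / 12 : ℂ) * a20
  have q25 : Q 2 5 = 0 := by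
    linear_combination (-1 / 12 : ℂ) * a0 + (-1 / 6 : ℂ) * a1 + (1 / 6 : ℂ) * a2 + (1 / 6 : ℂ) * a3 + (-1 / 12 : ℂ) * a4 + (-1 / 6 : ℂ) * a5 + (-1 / 6 : ℂ) * a6 + (1 / 12 : ℂ) * a7 + (-1 / 6 : ℂ) * a8 + (1 / 12 : ℂ) * a9 + (1 / 4 : ℂ) * a11 + (-1 / 12 : ℂ) * a12 + (-1 / 12 : ℂ) * a13 + (-1 / 12 : ℂ) * a14 + (-1 / 12 : ℂ) * a15 + (1 / 4 : ℂ) * a16 + (-1 / 6 : ℂ) * a17 + (1 / 12 : ℂ) * a18 + (-1 / 6 : ℂ) * a19 + (1 / 12 : ℂ) * a20
  have q26 : Q 2 6 = 0 := by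
    linear_combination (-1 / 12 : ℂ) * a0 + (-1 / 6 : ℂ) * a1 + (1 / 6 : ℂ) * a2 + (1 / 6 : ℂ) * a3 + (-1 / 12 : ℂ) * a4 + (-1 / 6 : ℂ) * a5 + (-1 / 6 : ℂ) * a6 + (1 / 12 : ℂ) * a7 + (-1 / 6 : ℂ) * a8 + (1 / 12 : ℂ) * a9 + (1 / 6 : ℂ) * a12 + (-1 / 12 : ℂ) * a13 + (-1 / 12 : ℂ) * a14 + (-1 / 12 : ℂ) * a15 + (1 / 12 : ℂ) * a17 + (1 / 12 : ℂ) * a18 + (-1 / 6 : ℂ) * a19 + (1 / 12 : ℂ) * a20
  have q34 : Q 3 4 = 0 := by
    linear_combination (-1 / 12 : ℂ) * a0 + (1 / 12 : ℂ) * a1 + (-1 / 12 : ℂ) * a2 + (-1 / 12 : ℂ) * a3 + (-1 / 12 : ℂ) * a4 + (1 / 12 : ℂ) * a5 + (1 / 12 : ℂ) * a6 + (-1 / 6 : ℂ) * a7 + (1 / 12 : ℂ) * a8 + (-1 / 6 : ℂ) * a9 + (-1 / 12 : ℂ) * a12 + (1 / 6 : ℂ) * a13 + (-1 / 12 : ℂ) * a14 + (1 / 6 : ℂ) * a15 + (-1 / 6 : ℂ) * a17 + (-1 / 6 : ℂ) * a18 + (1 / 12 : ℂ) * a19 + (1 / 12 : ℂ) * a20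
  have q35 : Q 3 5 = 0 := by
    linear_combination (1 / 6 : ℂ) * a0 + (-1 / 6 : ℂ) * a1 + (-1 / 12 : ℂ) * a2 + (-1 / 12 : ℂ) * a3 + (-1 / 12 : ℂ) * a4 + (1 / 12 : ℂ) * a5 + (-1 / 6 : ℂ) * a6 + (1 / 12 : ℂ) * a7 + (-1 / 6 : ℂ) * a8 + (1 / 12 : ℂ) * a9 + (-1 / 12 : ℂ) * a12 + (1 / 6 : ℂ) * a13 + (-1 / 12 : ℂ) * a14 + (-1 / 12 : ℂ) * a15 + (1 / 4 : ℂ) * a16 + (-1 / 6 : ℂ) * a17 + (-1 / 6 : ℂ) * a18 + (1 / 12 : ℂ) * a19 + (1 / 12 : ℂ) * a20
  have q36 : Q 3 6 = 0 := by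
    linear_combination (1 / 6 : ℂ) * a0 + (1 / 12 : ℂ) * a1 + (-1 / 3 : ℂ) * a2 + (-1 / 12 : ℂ) * a3 + (-1 / 3 : ℂ) * a4 + (1 / 3 : ℂ) * a5 + (-1 / 6 : ℂ) * a6 + (1 / 12 : ℂ) * a7 + (-1 / 6 : ℂ) * a8 + (1 / 12 : ℂ) * a9 + (-1 / 4 : ℂ) * a11 + (1 / 6 : ℂ) * a12 + (1 / 6 : ℂ) * a13 + (-1 / 12 : ℂ) * a14 + (-1 / 12 : ℂ) * a15 + (1 / 12 : ℂ) * a17 + (-1 / 6 : ℂ) * a18 + (1 / 12 : ℂ) * a19 + (1 / 12 : ℂ) * a20
  have q45 : Q 4 5 = 0 := by
    linear_combination (-1 / 12 : ℂ) * a0 + (-1 / 6 : ℂ) * a1 + (1 / 6 : ℂ) * a2 + (-1 / 12 : ℂ) * a3 + (1 / 6 : ℂ) * a4 + (-1 / 6 : ℂ) * a5 + (1 / 12 : ℂ) * a6 + (-1 / 6 : ℂ) * a7 + (1 / 12 : ℂ) * a8 + (-1 / 6 : ℂ) * a9 + (1 / 4 : ℂ) * a11 + (-1 / 3 : ℂ) * a12 + (-1 / 12 : ℂ) * a13 + (1 / 6 : ℂ) * a14 + (-1 / 12 : ℂ) * a15 + (-1 / 6 : ℂ) * a17 + (1 / 12 : ℂ) * a18 + (1 / 12 : ℂ) * a19 + (1 / 12 : ℂ) * a20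
  have q46 : Q 4 6 = 0 := by
    linear_combination (-1 / 12 : ℂ) * a0 + (1 / 12 : ℂ) * a1 + (-1 / 12 : ℂ) * a2 + (-1 / 12 : ℂ) * a3 + (-1 / 12 : ℂ) * a4 + (1 / 12 : ℂ) * a5 + (1 / 12 : ℂ) * a6 + (-1 / 6 : ℂ) * a7 + (1 / 12 : ℂ) * a8 + (1 / 12 : ℂ) * a9 + (-1 / 4 : ℂ) * a10 + (-1 / 4 : ℂ) * a11 + (1 / 6 : ℂ) * a12 + (-1 / 12 : ℂ) * a13 + (1 / 6 : ℂ) * a14 + (-1 / 12 : ℂ) * a15 + (-1 / 4 : ℂ) * a16 + (1 / 12 : ℂ) * a17 + (1 / 12 : ℂ) * a18 + (1 / 12 : ℂ) * a19 + (1 / 12 : ℂ) * a20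
  have q56 : Q 5 6 = 0 := by
    linear_combination (1 / 6 : ℂ) * a0 + (-1 / 6 : ℂ) * a1 + (-1 / 12 : ℂ) * a2 + (1 / 6 : ℂ) * a3 + (-1 / 3 : ℂ) * a4 + (1 / 12 : ℂ) * a5 + (-5 / 12 : ℂ) * a6 + (1 / 3 : ℂ) * a7 + (-1 / 6 : ℂ) * a8 + (1 / 3 : ℂ) * a9 + (-1 / 4 : ℂ) * a10 + (-1 / 4 : ℂ) * a11 + (1 / 6 : ℂ) * a12 + (-1 / 12 : ℂ) * a13 + (1 / 6 : ℂ) * a14 + (-1 / 3 : ℂ) * a15 + (1 / 12 : ℂ) * a17 + (1 / 12 : ℂ) * a18 + (1 / 12 : ℂ) * a19 + (1 / 12 : ℂ) * a20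
  funext i j
  fin_cases i <;> fin_cases j
  · exact hd 0
  · exact q01
  · exact q02
  · exact q03
  · exact q04
  · exact q05
  · exact q06
  · exact (hs 1 0).trans q01
  · exact hd 1
  · exact q12
  · exact q13
  · exact q14
  · exact q15
  · exact q16
  · exact (hs 2 0).trans q02
  · exact (hs 2 1).trans q12
  · exact hd 2
  · exact q23
  · exact q24
  · exact q25
  · exact q26
  · exact (hs 3 0).trans q03
  · exact (hs 3 1).trans q13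
  · exact (hs 3 2).trans q23
  · exact hd 3
  · exact q34
  · exact q35
  · exact q36
  · exact (hs 4 0).trans q04
  · exact (hs 4 1).trans q14
  · exact (hs 4 2).trans q24
  · exact (hs 4 3).trans q34
  · exact hd 4
  · exact q45
  · exact q46
  · exact (hs 5 0).trans q05
  · exact (hs 5 1).trans q15
  · exact (hs 5 2).trans q25
  · exact (hs 5 3).trans q35
  · exact (hs 5 4).trans q45
  · exact hd 5
  · exact q56
  · exact (hs 6 0).trans q06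
  · exact (hs 6 1).trans q16
  · exact (hs 6 2).trans q26
  · exact (hs 6 3).trans q36
  · exact (hs 6 4).trans q46
  · exact (hs 6 5).trans q56
  · exact hd 6

/-- J1b -/
theorem nodes_linear (l : E7) (h : ∀ p : E7, Node p → ∑ i, p i * l i = 0) : l = 0 := by
  have key : ∀ a b c d e f g : ℂ, (a = 1 ∨ a = -1) → (b = 1 ∨ b = -1) → (c = 1 ∨ c = -1) →
      (d = 1 ∨ d = -1) → (e = 1 ∨ e = -1) → (f = 1 ∨ f = -1) → (g = 1 ∨ g = -1) →
      a + b + c + d + e + f + g = 1 → (b = -a ∨ f = -e) →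
      a * l 0 + b * l 1 + c * l 2 + d * l 3 + e * l 4 + f * l 5 + g * l 6 = 0 := by
    intro a b c d e f g ha hb hc hd he hf hg hs hx
    have := h ![a, b, c, d, e, f, g] (by
      refine ⟨?_, ?_, ?_⟩
      · intro i
        fin_cases i
        · exact ha
        · exact hb
        · exact hc
        · exact hd
        · exact he
        · exact hf
        · exact hg
      · rw [Fin.sum_univ_seven]
        exact hs
      · rcases hx with hx | hx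
        · exact ⟨0, hx⟩
        · exact ⟨4, hx⟩)
    rw [Fin.sum_univ_seven] at this
    exact this
  have p1 : (1 : ℂ) = 1 ∨ (1 : ℂ) = -1 := Or.inl rfl
  have m1 : (-1 : ℂ) = 1 ∨ (-1 : ℂ) = -1 := Or.inr rfl
  have e1 := key (-1) 1 (-1) 1 (-1) 1 1 m1 p1 m1 p1 m1 p1 p1 (by norm_num) (Or.inl (by norm_num))
  have e2 := key 1 (-1) (-1) 1 (-1) 1 1 p1 m1 m1 p1 m1 p1 p1 (by norm_num) (Or.inl (by norm_num))
  have e3 := key (-1) 1 1 (-1) (-1) 1 1 m1 p1 p1 m1 m1 p1 p1 (by norm_num) (Or.inl (by norm_num))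
  have e4 := key (-1) 1 (-1) 1 1 (-1) 1 m1 p1 m1 p1 p1 m1 p1 (by norm_num) (Or.inl (by norm_num))
  have e5 := key 1 1 (-1) (-1) (-1) 1 1 p1 p1 m1 m1 m1 p1 p1 (by norm_num) (Or.inr (by norm_num))
  have e6 := key (-1) 1 1 1 (-1) (-1) 1 m1 p1 p1 p1 m1 m1 p1 (by norm_num) (Or.inl (by norm_num))
  have e7 := key (-1) 1 (-1) 1 1 1 (-1) m1 p1 m1 p1 p1 p1 m1 (by norm_num) (Or.inl (by norm_num))
  have q1 : l 0 = l 1 := by linear_combination (-1 / 2) * e1 + (1 / 2) * e2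
  have q2 : l 2 = l 3 := by linear_combination (-1 / 2) * e1 + (1 / 2) * e3
  have q3 : l 4 = l 5 := by linear_combination (-1 / 2) * e1 + (1 / 2) * e4
  have q4 : l 0 = l 3 := by linear_combination (-1 / 2) * e1 + (1 / 2) * e5
  have q5 : l 2 = l 5 := by linear_combination (-1 / 2) * e1 + (1 / 2) * e6
  have q6 : l 4 = l 6 := by linear_combination (-1 / 2) * e1 + (1 / 2) * e7
  have q0 : l 6 = 0 := by linear_combination e1 + q1 + q2 + q3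
  have z6 := q0
  have z4 : l 4 = 0 := q6.trans z6
  have z5 : l 5 = 0 := q3.symm.trans z4
  have z2 : l 2 = 0 := q5.trans z5
  have z3 : l 3 = 0 := q2.symm.trans z2
  have z0 : l 0 = 0 := q4.trans z3
  have z1 : l 1 = 0 := q1.symm.trans z0
  funext i
  fin_cases i
  · exact z0
  · exact z1
  · exact z2
  · exact z3
  · exact z4
  · exact z5
  · exact z6

theorem node_finite : {p : E7 | Node p}.Finite := by
  refine (Set.finite_range (fun b : Fin 7 → Bool => fun i => if b i then (1 : ℂ) else -1)).subset ?_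
  intro p hp
  classical
  refine ⟨fun i => decide (p i = 1), ?_⟩
  funext i
  rcases hp.1 i with h | h
  · simp [h]
  · have : ¬ ((-1 : ℂ) = 1) := by norm_num
    simp [h, this]

theorem node_exists : Node (![1, -1, 1, 1, -1, -1, 1] : E7) := by
  refine ⟨?_, ?_, 0, ?_⟩
  · intro i
    fin_cases i <;> simp
  · simp [Fin.sum_univ_succ]
  · simp [sg]

/-- J2a -/
theorem nodes_quadratic_bound
    (h1 : ∀ (Q : Fin 7 → Fin 7 → ℂ), (∀ i j, Q i j = Q j i) → (∀ i, Q i i = 0) →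
      (∀ p : E7, Node p → ∑ i, ∑ j, p i * Q i j * p j = 0) → Q = 0) :
    ∃ α : ℝ, 0 < α ∧ ∀ (Q : Fin 7 → Fin 7 → ℂ), (∀ i j, Q i j = Q j i) → (∀ i, Q i i = 0) →
      ∃ p : E7, Node p ∧ α * ‖Q‖ ≤ ‖∑ i, ∑ j, p i * Q i j * p j‖ := by
  classical
  let V : Submodule ℂ (Fin 7 → Fin 7 → ℂ) :=
    { carrier := {Q | (∀ i j, Q i j = Q j i) ∧ ∀ i, Q i i = 0}
      add_mem' := by
        rintro a b ⟨ha, ha'⟩ ⟨hb, hb'⟩
        exact ⟨fun i j => by simp [ha i j, hb i j], fun i => by simp [ha' i, hb' i]⟩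
      zero_mem' := ⟨fun i j => rfl, fun i => rfl⟩
      smul_mem' := by
        rintro c a ⟨ha, ha'⟩
        exact ⟨fun i j => by simp [ha i j], fun i => by simp [ha' i]⟩ }
  have hfin : Finite {p : E7 | Node p} := node_finite
  let _ : Fintype {p : E7 | Node p} := Fintype.ofFinite _
  have hne : Nonempty {p : E7 | Node p} := ⟨⟨_, node_exists⟩⟩
  let L : V →ₗ[ℂ] ({p : E7 | Node p} → ℂ) :=
    { toFun := fun Q p => ∑ i, ∑ j, (p : E7) i * (Q : Fin 7 → Fin 7 → ℂ) i j * (p : E7) j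
      map_add' := by
        intro Q R
        funext p
        simp only [Submodule.coe_add, Pi.add_apply]
        rw [← Finset.sum_add_distrib]
        refine Finset.sum_congr rfl fun i _ => ?_
        rw [← Finset.sum_add_distrib]
        refine Finset.sum_congr rfl fun j _ => ?_
        ring
      map_smul' := by
        intro c Q
        funext p
        simp only [Submodule.coe_smul, Pi.smul_apply, smul_eq_mul, RingHom.id_apply]
        rw [Finset.mul_sum]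
        refine Finset.sum_congr rfl fun i _ => ?_
        rw [Finset.mul_sum]
        refine Finset.sum_congr rfl fun j _ => ?_
        ring }
  have hker : LinearMap.ker L = ⊥ := by
    rw [LinearMap.ker_eq_bot']
    intro Q hQ
    apply Subtype.ext
    refine h1 Q Q.2.1 Q.2.2 fun p hp => ?_
    have := congrFun hQ ⟨p, hp⟩
    exact this
  obtain ⟨K, hK, hanti⟩ := L.exists_antilipschitzWith hker
  have hK' : (0 : ℝ) < K := by exact_mod_cast hK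
  refine ⟨(K : ℝ)⁻¹, inv_pos.2 hK', fun Q hQ hQ' => ?_⟩
  obtain ⟨p, hp⟩ := Finite.exists_max (fun p : {p : E7 | Node p} => ‖L ⟨Q, hQ, hQ'⟩ p‖)
  refine ⟨p, p.2, ?_⟩
  have h2 : ‖L ⟨Q, hQ, hQ'⟩‖ ≤ ‖L ⟨Q, hQ, hQ'⟩ p‖ :=
    (pi_norm_le_iff_of_nonneg (norm_nonneg _)).2 hp
  have h3 := hanti.le_mul_dist ⟨Q, hQ, hQ'⟩ 0
  rw [map_zero, dist_zero_right, dist_zero_right] at h3
  have h4 : ‖(⟨Q, hQ, hQ'⟩ : V)‖ = ‖Q‖ := rfl
  rw [h4] at h3
  have h5 : (K : ℝ)⁻¹ * ‖Q‖ ≤ ‖L ⟨Q, hQ, hQ'⟩‖ := by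
    rw [inv_mul_le_iff₀ hK']
    exact h3
  exact h5.trans h2

theorem node_ex : ∃ p : E7, Node p := by
  refine ⟨![1, -1, 1, -1, 1, -1, 1], ?_, ?_, 0, ?_⟩
  · intro i
    fin_cases i <;> simp
  · simp [Fin.sum_univ_succ]
  · simp [sg]

/-- J2b -/
theorem nodes_linear_bound
    (h1 : ∀ (l : E7), (∀ p : E7, Node p → ∑ i, p i * l i = 0) → l = 0) :
    ∃ β : ℝ, 0 < β ∧ ∀ (l : E7), ∃ p : E7, Node p ∧ β * ‖l‖ ≤ ‖∑ i, p i * l i‖ := by
  classical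
  haveI : Finite {p : E7 // Node p} := node_finite.to_subtype
  haveI : Fintype {p : E7 // Node p} := Fintype.ofFinite _
  haveI : Nonempty {p : E7 // Node p} := by
    obtain ⟨p, hp⟩ := node_ex
    exact ⟨⟨p, hp⟩⟩
  let T : E7 →ₗ[ℂ] ({p : E7 // Node p} → ℂ) :=
    { toFun := fun l p => ∑ i, p.1 i * l i
      map_add' := by
        intro a b; funext p
        simp [mul_add, Finset.sum_add_distrib]
      map_smul' := by
        intro c a; funext p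
        simp only [Pi.smul_apply, smul_eq_mul, RingHom.id_apply, Finset.mul_sum]
        refine Finset.sum_congr rfl fun i _ => by ring }
  have hT : LinearMap.ker T = ⊥ := by
    rw [LinearMap.ker_eq_bot']
    intro l hl
    exact h1 l fun p hp => congrFun hl ⟨p, hp⟩
  obtain ⟨K, hK, hA⟩ := T.exists_antilipschitzWith hT
  refine ⟨(K : ℝ)⁻¹, by positivity, fun l => ?_⟩
  obtain ⟨p, hp⟩ := Finite.exists_max (fun p : {p : E7 // Node p} => ‖T l p‖)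
  refine ⟨p.1, p.2, ?_⟩
  have h2 : ‖T l‖ ≤ ‖T l p‖ := (pi_norm_le_iff_of_nonneg (norm_nonneg _)).2 hp
  have h3 : ‖l‖ ≤ K * ‖T l‖ := by
    have := hA.le_mul_dist l 0
    simpa using this
  have h4 : ‖l‖ ≤ K * ‖T l p‖ := h3.trans (mul_le_mul_of_nonneg_left h2 K.2)
  have hK' : (0 : ℝ) < K := hK
  rw [inv_mul_le_iff₀ hK']
  exact h4

/-- J3 : contraction with a holomorphic parameter -/
theorem exists_fixed_holo {F : Type*} [NormedAddCommGroup F] [NormedSpace ℂ F] [CompleteSpace F]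
    (z0 : ℂ) (r : ℝ) (hr : 0 < r) (Y : ℝ) (hY : 0 ≤ Y) (T : ℂ → F → F)
    (hmap : ∀ z ∈ closedBall z0 r, ∀ y ∈ closedBall (0 : F) Y, T z y ∈ closedBall (0 : F) Y)
    (hlip : ∀ z ∈ closedBall z0 r, ∀ y ∈ closedBall (0 : F) Y, ∀ y' ∈ closedBall (0 : F) Y,
      ‖T z y - T z y'‖ ≤ (1/2) * ‖y - y'‖)
    (hol : ∀ y : ℂ → F, DiffContOnCl ℂ y (ball z0 r) →
      (∀ z ∈ closedBall z0 r, y z ∈ closedBall (0 : F) Y) →
      DiffContOnCl ℂ (fun z => T z (y z)) (ball z0 r)) :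
    ∃ y : ℂ → F, DiffContOnCl ℂ y (ball z0 r) ∧
      ∀ z ∈ closedBall z0 r, y z ∈ closedBall (0 : F) Y ∧ T z (y z) = y z := by
  classical
  let yn : ℕ → ℂ → F := fun n => Nat.rec (fun _ => (0 : F)) (fun _ y => fun z => T z (y z)) n
  have h0 : yn 0 = fun _ => (0 : F) := rfl
  have hs : ∀ n, yn (n + 1) = fun z => T z (yn n z) := fun n => rfl
  have hcl : closure (ball z0 r) = closedBall z0 r := closure_ball z0 hr.ne'
  have hval : ∀ n, ∀ z ∈ closedBall z0 r, yn n z ∈ closedBall (0 : F) Y := by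
    intro n
    induction n with
    | zero => intro z _; rw [h0]; exact mem_closedBall_self hY
    | succ n ih => intro z hz; rw [hs n]; exact hmap z hz _ (ih z hz)
  have hdc : ∀ n, DiffContOnCl ℂ (yn n) (ball z0 r) := by
    intro n
    induction n with
    | zero => rw [h0]; exact diffContOnCl_const
    | succ n ih => rw [hs n]; exact hol _ ih (hval n)
  have hstep : ∀ n, ∀ z ∈ closedBall z0 r, dist (yn n z) (yn (n + 1) z) ≤ Y * (1/2) ^ n := by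
    intro n
    induction n with
    | zero =>
      intro z hz
      have h1 := hval 1 z hz
      rw [mem_closedBall, dist_comm] at h1
      have h2 : yn 0 z = 0 := rfl
      rw [h2]
      simpa using h1
    | succ n ih =>
      intro z hz
      have h1 := hlip z hz _ (hval n z hz) _ (hval (n + 1) z hz)
      have h2 := ih z hz
      rw [dist_eq_norm] at h2 ⊢
      have h3 : yn (n + 1) z = T z (yn n z) := rfl
      have h4 : yn (n + 1 + 1) z = T z (yn (n + 1) z) := rfl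
      rw [h4]
      nth_rewrite 1 [h3]
      calc ‖T z (yn n z) - T z (yn (n + 1) z)‖ ≤ (1/2) * ‖yn n z - yn (n + 1) z‖ := h1
        _ ≤ (1/2) * (Y * (1/2) ^ n) := by gcongr
        _ = Y * (1/2) ^ (n + 1) := by ring
  have hex : ∀ z, ∃ a, z ∈ closedBall z0 r → Tendsto (fun n => yn n z) atTop (𝓝 a) := by
    intro z
    by_cases hz : z ∈ closedBall z0 r
    · obtain ⟨a, ha⟩ := cauchySeq_tendsto_of_complete
        (cauchySeq_of_le_geometric (1/2) Y (by norm_num) (fun n => hstep n z hz))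
      exact ⟨a, fun _ => ha⟩
    · exact ⟨0, fun h => absurd h hz⟩
  choose y hy using hex
  have hdist : ∀ n, ∀ z ∈ closedBall z0 r, dist (yn n z) (y z) ≤ Y * (1/2) ^ n / (1 - 1/2) := by
    intro n z hz
    exact dist_le_of_le_geometric_of_tendsto (1/2) Y (by norm_num) (fun n => hstep n z hz) (hy z hz) n
  have hunif : TendstoUniformlyOn yn y atTop (closedBall z0 r) := by
    rw [Metric.tendstoUniformlyOn_iff]
    intro ε hε
    have hlim : Tendsto (fun n : ℕ => Y * (1/2 : ℝ) ^ n / (1 - 1/2)) atTop (𝓝 (Y * 0 / (1 - 1/2))) :=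
      ((tendsto_pow_atTop_nhds_zero_of_lt_one (by norm_num) (by norm_num)).const_mul Y).div_const _
    rw [mul_zero, zero_div] at hlim
    filter_upwards [hlim.eventually (gt_mem_nhds hε)] with n hn z hz
    rw [dist_comm]
    exact (hdist n z hz).trans_lt hn
  refine ⟨y, ⟨?_, ?_⟩, ?_⟩
  · have h1 : TendstoLocallyUniformlyOn yn y atTop (ball z0 r) :=
      (hunif.mono ball_subset_closedBall).tendstoLocallyUniformlyOn
    exact h1.differentiableOn (Eventually.of_forall fun n => (hdc n).differentiableOn) isOpen_ball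
  · rw [hcl]
    refine hunif.continuousOn (Eventually.of_forall fun n => ?_).frequently
    have := (hdc n).continuousOn
    rwa [hcl] at this
  · intro z hz
    have hb : y z ∈ closedBall (0 : F) Y :=
      isClosed_closedBall.mem_of_tendsto (hy z hz) (Eventually.of_forall fun n => hval n z hz)
    refine ⟨hb, ?_⟩
    have h1 : Tendsto (fun n => yn (n + 1) z) atTop (𝓝 (y z)) := (hy z hz).comp (tendsto_add_atTop_nat 1)
    have h2 : Tendsto (fun n => yn (n + 1) z) atTop (𝓝 (T z (y z))) := by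
      rw [tendsto_iff_norm_sub_tendsto_zero]
      have h3 : Tendsto (fun n => (1/2 : ℝ) * ‖yn n z - y z‖) atTop (𝓝 ((1/2) * 0)) :=
        ((tendsto_iff_norm_sub_tendsto_zero.1 (hy z hz))).const_mul _
      rw [mul_zero] at h3
      exact squeeze_zero (fun n => norm_nonneg _)
        (fun n => hlip z hz _ (hval n z hz) _ hb) h3
    exact tendsto_nhds_unique h2 h1

/-- J5 : a fixed point of `TT` with `z * ww = κ` gives a solution of the system -/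
theorem key_identity (p : E7) (hp : Node p) (Q : Fin 7 → Fin 7 → ℂ) (l : E7) (e : ℂ → E7 → E7)
    (z κ : ℂ) (y : E7) (hz : z ≠ 0) (hT : TT p Q l e z y = y) (hw : z * ww p Q l e z y = κ) (i : Fin 7) :
    g (1 + κ) (fun i => p i / z + y i) i + ∑ j, Q i j * (p j / z + y j) + l i + e z y i = 0 := by
  obtain ⟨hp1, hp2, _⟩ := hp
  set S : ℂ := ∑ j, p j * rr p Q l e z y j with hS
  have hy : ∀ i, y i = p i * (S - rr p Q l e z y i) := fun i => (congrFun hT i).symm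
  have hpp : ∀ i, p i * p i = 1 := by
    intro i
    rcases hp1 i with h | h <;> rw [h] <;> norm_num
  have hsum : ∑ j, y j = 0 := by
    have : ∑ j, y j = ∑ j, (S * p j - p j * rr p Q l e z y j) := by
      apply Finset.sum_congr rfl
      intro j _
      rw [hy j]
      have : rr p Q l e z y j = rr p Q l e z y j := rfl
      ring
    rw [this, Finset.sum_sub_distrib, ← Finset.mul_sum, hp2, ← hS]
    ring
  have hpy : p i * y i = S - rr p Q l e z y i := by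
    have h1 := hy i
    calc p i * y i = p i * (p i * (S - rr p Q l e z y i)) := by rw [← h1]
      _ = (p i * p i) * (S - rr p Q l e z y i) := by ring
      _ = S - rr p Q l e z y i := by rw [hpp i, one_mul]
  have hx : ∑ j, (p j / z + y j) = 1 / z := by
    rw [Finset.sum_add_distrib, hsum, ← Finset.sum_div, hp2, add_zero]
  have hQ : ∑ j, Q i j * (p j / z + y j) = (∑ j, Q i j * p j) / z + ∑ j, Q i j * y j := by
    rw [Finset.sum_div, ← Finset.sum_add_distrib]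
    apply Finset.sum_congr rfl
    intro j _
    ring
  have hr : 6 * rr p Q l e z y i = 3 * z * y i ^ 2 + (∑ j, Q i j * p j + z * ∑ j, Q i j * y j + z * l i + z * e z y i) := by
    unfold rr
    ring
  have hw' : z * (2 * S) = κ := hw
  unfold g
  simp only [hx, hQ]
  rw [← hw']
  have hp2' : p i ^ 2 = 1 := by rw [sq]; exact hpp i
  have e1 : z * z * (3 * (p i / z + y i) ^ 2 - 3 * (1 + z * (2 * S)) * (1 / z) ^ 2 +
      ((∑ j, Q i j * p j) / z + ∑ j, Q i j * y j) + l i + e z y i) = 0 := by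
    have e2 : z * z * (3 * (p i / z + y i) ^ 2 - 3 * (1 + z * (2 * S)) * (1 / z) ^ 2 +
      ((∑ j, Q i j * p j) / z + ∑ j, Q i j * y j) + l i + e z y i) =
      3 * (p i ^ 2 - 1) + 6 * z * (p i * y i) - 6 * z * S + z * (3 * z * y i ^ 2 +
        (∑ j, Q i j * p j + z * ∑ j, Q i j * y j + z * l i + z * e z y i)) := by
      field_simp
      ring
    rw [e2, ← hr, hpy, hp2']
    ring
  exact (mul_eq_zero.mp e1).resolve_left (mul_ne_zero hz hz)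

/-- J5b : the point is not real -/
theorem not_sreal (p : E7) (hp : Node p) (z : ℂ) (y : E7) (hz : z ≠ 0) (hz' : ‖z‖ ≤ 1/1000)
    (hy : ‖y‖ ≤ 10) : ¬ SReal (fun i => p i / z + y i) := by
  intro hS
  obtain ⟨hpm, -, i, hi⟩ := hp
  have hyi : ∀ i, ‖y i‖ ≤ 10 := fun i => (norm_le_pi_norm y i).trans hy
  have hyc : ∀ i, ‖(starRingEnd ℂ) (y i)‖ ≤ 10 := fun i => by
    rw [RCLike.norm_conj]; exact hyi i
  have hconj : ∀ i, (starRingEnd ℂ) (p i) = p i := by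
    intro i
    rcases hpm i with h | h <;> rw [h] <;> simp
  have hnp : ∀ i, ‖p i‖ = 1 := by
    intro i
    rcases hpm i with h | h <;> rw [h] <;> simp
  have h6 := hS 6
  have hI := hS i
  have hsg6 : sg 6 = 6 := rfl
  simp only [hsg6, map_add, map_div₀, hconj] at h6
  simp only [hi, map_add, map_div₀, hconj] at hI
  have e1 : p 6 * (z⁻¹ - ((starRingEnd ℂ) z)⁻¹) = (starRingEnd ℂ) (y 6) - y 6 := by
    rw [div_eq_mul_inv, div_eq_mul_inv] at h6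
    linear_combination h6
  have e2 : -(p i) * (z⁻¹ + ((starRingEnd ℂ) z)⁻¹) = (starRingEnd ℂ) (y i) - y (sg i) := by
    rw [div_eq_mul_inv, div_eq_mul_inv] at hI
    linear_combination hI
  have n1 : ‖z⁻¹ - ((starRingEnd ℂ) z)⁻¹‖ ≤ 20 := by
    have h1 := congrArg norm e1
    rw [norm_mul, hnp, one_mul] at h1
    rw [h1]
    refine (norm_sub_le _ _).trans ?_
    linarith [hyc 6, hyi 6]
  have n2 : ‖z⁻¹ + ((starRingEnd ℂ) z)⁻¹‖ ≤ 20 := by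
    have h1 := congrArg norm e2
    rw [norm_mul, norm_neg, hnp, one_mul] at h1
    rw [h1]
    refine (norm_sub_le _ _).trans ?_
    linarith [hyc i, hyi (sg i)]
  have n3 : ‖(2 : ℂ) * z⁻¹‖ ≤ 40 := by
    have h1 : (2 : ℂ) * z⁻¹ = (z⁻¹ - ((starRingEnd ℂ) z)⁻¹) + (z⁻¹ + ((starRingEnd ℂ) z)⁻¹) := by
      ring
    rw [h1]
    refine (norm_add_le _ _).trans ?_
    linarith
  rw [norm_mul, norm_inv] at n3
  have h2 : ‖(2 : ℂ)‖ = 2 := by norm_num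
  rw [h2] at n3
  have hz0 : 0 < ‖z‖ := norm_pos_iff.2 hz
  have h3 : (1000 : ℝ) ≤ ‖z‖⁻¹ := by
    rw [le_inv_comm₀ (by norm_num) hz0]
    linarith
  linarith

theorem aux23383_sum (a b : Fin 7 → ℂ) (A B : ℝ) (hA : 0 ≤ A) (ha : ∀ j, ‖a j‖ ≤ A)
    (hb : ∀ j, ‖b j‖ ≤ B) : ‖∑ j, a j * b j‖ ≤ 7 * (A * B) := by
  have h1 : ∀ j ∈ (Finset.univ : Finset (Fin 7)), ‖a j * b j‖ ≤ A * B := by
    intro j _
    rw [norm_mul]
    exact mul_le_mul (ha j) (hb j) (norm_nonneg _) hA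
  refine le_trans (norm_sum_le_of_le _ h1) ?_
  simp

theorem aux23383_rr (p : E7) (hp : ∀ i, ‖p i‖ ≤ 1) (Q : Fin 7 → Fin 7 → ℂ) (hQ : ‖Q‖ ≤ 1)
    (l : E7) (hl : ‖l‖ ≤ 1) (e : ℂ → E7 → E7) (z : ℂ) (hz : ‖z‖ ≤ 1/1000) (y : E7)
    (hy : ‖y‖ ≤ 10) (he : ‖e z y‖ ≤ 1) (i : Fin 7) : ‖rr p Q l e z y i‖ ≤ 5 / 4 := by
  have hQi : ∀ j, ‖Q i j‖ ≤ 1 := fun j =>
    le_trans (le_trans (norm_le_pi_norm (Q i) j) (norm_le_pi_norm Q i)) hQ
  have hyi : ∀ j, ‖y j‖ ≤ 10 := fun j => le_trans (norm_le_pi_norm y j) hy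
  have hli : ‖l i‖ ≤ 1 := le_trans (norm_le_pi_norm l i) hl
  have hei : ‖e z y i‖ ≤ 1 := le_trans (norm_le_pi_norm (e z y) i) he
  have h1 : ‖∑ j, Q i j * p j‖ ≤ 7 * (1 * 1) := aux23383_sum (Q i) p 1 1 (by norm_num) hQi hp
  have h2 : ‖∑ j, Q i j * y j‖ ≤ 7 * (1 * 10) := aux23383_sum (Q i) y 1 10 (by norm_num) hQi hyi
  have hz0 := norm_nonneg z
  have e1 : ‖(1/2) * z * (y i) ^ 2‖ ≤ 1/2 * (1/1000) * 10 ^ 2 := by
    rw [norm_mul, norm_mul, norm_pow]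
    have : ‖(1/2 : ℂ)‖ = 1/2 := by norm_num
    rw [this]
    apply mul_le_mul _ (pow_le_pow_left₀ (norm_nonneg _) (hyi i) 2) (by positivity) (by norm_num)
    exact mul_le_mul_of_nonneg_left hz (by norm_num)
  have e2 : ‖z * ∑ j, Q i j * y j‖ ≤ 1/1000 * 70 := by
    rw [norm_mul]
    exact mul_le_mul hz (by linarith) (norm_nonneg _) (by norm_num)
  have e3 : ‖z * l i‖ ≤ 1/1000 * 1 := by
    rw [norm_mul]
    exact mul_le_mul hz hli (norm_nonneg _) (by norm_num)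
  have e4 : ‖z * e z y i‖ ≤ 1/1000 * 1 := by
    rw [norm_mul]
    exact mul_le_mul hz hei (norm_nonneg _) (by norm_num)
  have e5 : ‖(1/6 : ℂ) * (∑ j, Q i j * p j + z * ∑ j, Q i j * y j + z * l i + z * e z y i)‖ ≤
      1/6 * (7 + 70/1000 + 1/1000 + 1/1000) := by
    rw [norm_mul]
    have : ‖(1/6 : ℂ)‖ = 1/6 := by norm_num
    rw [this]
    apply mul_le_mul_of_nonneg_left _ (by norm_num)
    refine le_trans (norm_add_le _ _) ?_
    have f1 := norm_add_le (∑ j, Q i j * p j + z * ∑ j, Q i j * y j) (z * l i)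
    have f2 := norm_add_le (∑ j, Q i j * p j) (z * ∑ j, Q i j * y j)
    linarith
  have e6 : rr p Q l e z y i = (1/2) * z * (y i) ^ 2 +
      (1/6) * (∑ j, Q i j * p j + z * ∑ j, Q i j * y j + z * l i + z * e z y i) := rfl
  rw [e6]
  refine le_trans (norm_add_le _ _) ?_
  linarith

/-- J6a -/
theorem TT_maps (p : E7) (hp : Node p) (Q : Fin 7 → Fin 7 → ℂ) (hQ : ‖Q‖ ≤ 1) (l : E7) (hl : ‖l‖ ≤ 1)
    (e : ℂ → E7 → E7) (z : ℂ) (hz : ‖z‖ ≤ 1/1000) (y : E7) (hy : ‖y‖ ≤ 10) (he : ‖e z y‖ ≤ 1) :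
    ‖TT p Q l e z y‖ ≤ 10 := by
  have hp1 : ∀ i, ‖p i‖ ≤ 1 := by
    intro i
    rcases hp.1 i with h | h <;> rw [h] <;> simp
  have hrr := aux23383_rr p hp1 Q hQ l hl e z hz y hy he
  rw [pi_norm_le_iff_of_nonneg (by norm_num)]
  intro i
  have e6 : TT p Q l e z y i = p i * (∑ j, p j * rr p Q l e z y j - rr p Q l e z y i) := rfl
  rw [e6, norm_mul]
  have h1 : ‖∑ j, p j * rr p Q l e z y j‖ ≤ 7 * (1 * (5 / 4)) :=
    aux23383_sum p (rr p Q l e z y) 1 (5 / 4) (by norm_num) hp1 hrr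
  have h2 := norm_sub_le (∑ j, p j * rr p Q l e z y j) (rr p Q l e z y i)
  have h3 := hrr i
  calc ‖p i‖ * ‖∑ j, p j * rr p Q l e z y j - rr p Q l e z y i‖
      ≤ 1 * ‖∑ j, p j * rr p Q l e z y j - rr p Q l e z y i‖ :=
        mul_le_mul_of_nonneg_right (hp1 i) (norm_nonneg _)
    _ ≤ 10 := by linarith

/-- J6b -/
theorem TT_lip (p : E7) (hp : Node p) (Q : Fin 7 → Fin 7 → ℂ) (hQ : ‖Q‖ ≤ 1) (l : E7)
    (e : ℂ → E7 → E7) (z : ℂ) (hz : ‖z‖ ≤ 1/1000) (y y' : E7) (hy : ‖y‖ ≤ 10) (hy' : ‖y'‖ ≤ 10)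
    (he : ‖e z y - e z y'‖ ≤ ‖y - y'‖) :
    ‖TT p Q l e z y - TT p Q l e z y'‖ ≤ (1/2) * ‖y - y'‖ := by
  set D := ‖y - y'‖ with hD
  have hD0 : 0 ≤ D := norm_nonneg _
  have hp1 : ∀ i, ‖p i‖ = 1 := by
    intro i
    rcases hp.1 i with h | h <;> rw [h] <;> simp
  have hr : ∀ i, ‖rr p Q l e z y i - rr p Q l e z y' i‖ ≤ (12/1000) * D := by
    intro i
    have e1 : rr p Q l e z y i - rr p Q l e z y' i
        = z * ((1/2) * ((y i - y' i) * (y i + y' i)) + (1/6) * (∑ j, Q i j * (y j - y' j))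
          + (1/6) * (e z y i - e z y' i)) := by
      unfold rr
      have : ∑ j, Q i j * (y j - y' j) = ∑ j, Q i j * y j - ∑ j, Q i j * y' j := by
        rw [← Finset.sum_sub_distrib]
        exact Finset.sum_congr rfl fun j _ => by ring
      rw [this]
      ring
    have b0 : ∀ j, ‖y j - y' j‖ ≤ D := fun j => by
      have := norm_le_pi_norm (y - y') j
      simpa using this
    have b1 : ‖y i + y' i‖ ≤ 20 := by
      refine (norm_add_le _ _).trans ?_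
      have h1 := (norm_le_pi_norm y i).trans hy
      have h2 := (norm_le_pi_norm y' i).trans hy'
      linarith
    have b2 : ‖∑ j, Q i j * (y j - y' j)‖ ≤ 7 * D := by
      refine (norm_sum_le _ _).trans ?_
      have hq : ∀ j ∈ (Finset.univ : Finset (Fin 7)), ‖Q i j * (y j - y' j)‖ ≤ D := by
        intro j _
        rw [norm_mul]
        have h1 : ‖Q i j‖ ≤ 1 := ((norm_le_pi_norm (Q i) j).trans (norm_le_pi_norm Q i)).trans hQ
        have h2 := b0 j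
        have h3 := norm_nonneg (y j - y' j)
        nlinarith
      refine (Finset.sum_le_card_nsmul _ _ _ hq).trans ?_
      simp
    have b3 : ‖e z y i - e z y' i‖ ≤ D := by
      have := norm_le_pi_norm (e z y - e z y') i
      exact (by simpa using this : ‖e z y i - e z y' i‖ ≤ ‖e z y - e z y'‖).trans he
    rw [e1, norm_mul]
    have b4 : ‖(1/2 : ℂ) * ((y i - y' i) * (y i + y' i)) + (1/6) * (∑ j, Q i j * (y j - y' j))
          + (1/6) * (e z y i - e z y' i)‖ ≤ (1/2) * (D * 20) + (1/6) * (7 * D) + (1/6) * D := by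
      refine (norm_add_le _ _).trans (add_le_add ((norm_add_le _ _).trans (add_le_add ?_ ?_)) ?_)
      · rw [norm_mul, norm_mul]
        have h2 : ‖(1/2 : ℂ)‖ = 1/2 := by norm_num
        rw [h2]
        apply mul_le_mul_of_nonneg_left _ (by norm_num)
        exact mul_le_mul (b0 i) b1 (norm_nonneg _) hD0
      · rw [norm_mul]
        have h2 : ‖(1/6 : ℂ)‖ = 1/6 := by norm_num
        rw [h2]
        exact mul_le_mul_of_nonneg_left b2 (by norm_num)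
      · rw [norm_mul]
        have h2 : ‖(1/6 : ℂ)‖ = 1/6 := by norm_num
        rw [h2]
        exact mul_le_mul_of_nonneg_left b3 (by norm_num)
    refine (mul_le_mul hz b4 (norm_nonneg _) (by norm_num)).trans ?_
    nlinarith
  rw [pi_norm_le_iff_of_nonneg (by positivity)]
  intro i
  have e2 : (TT p Q l e z y - TT p Q l e z y') i
      = p i * (∑ j, p j * (rr p Q l e z y j - rr p Q l e z y' j)
        - (rr p Q l e z y i - rr p Q l e z y' i)) := by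
    have : ∑ j, p j * (rr p Q l e z y j - rr p Q l e z y' j)
        = ∑ j, p j * rr p Q l e z y j - ∑ j, p j * rr p Q l e z y' j := by
      rw [← Finset.sum_sub_distrib]
      exact Finset.sum_congr rfl fun j _ => by ring
    rw [this]
    simp only [Pi.sub_apply, TT]
    ring
  rw [e2, norm_mul, hp1 i, one_mul]
  have b5 : ‖∑ j, p j * (rr p Q l e z y j - rr p Q l e z y' j)‖ ≤ 7 * ((12/1000) * D) := by
    refine (norm_sum_le _ _).trans ?_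
    have hq : ∀ j ∈ (Finset.univ : Finset (Fin 7)),
        ‖p j * (rr p Q l e z y j - rr p Q l e z y' j)‖ ≤ (12/1000) * D := by
      intro j _
      rw [norm_mul, hp1 j, one_mul]
      exact hr j
    refine (Finset.sum_le_card_nsmul _ _ _ hq).trans ?_
    simp
  refine (norm_sub_le _ _).trans ?_
  have := hr i
  linarith

/-- J6c : change of the perturbation `e` -/
theorem TT_close (p : E7) (hp : Node p) (Q : Fin 7 → Fin 7 → ℂ) (l : E7)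
    (e e' : ℂ → E7 → E7) (z : ℂ) (hz : ‖z‖ ≤ 1/1000) (y : E7) (δ : ℝ) (hδ : ‖e z y - e' z y‖ ≤ δ) :
    ‖TT p Q l e z y - TT p Q l e' z y‖ ≤ δ := by
  have hδ0 : 0 ≤ δ := (norm_nonneg _).trans hδ
  have hd : ∀ i, ‖rr p Q l e z y i - rr p Q l e' z y i‖ ≤ δ / 6000 := by
    intro i
    have h1 : rr p Q l e z y i - rr p Q l e' z y i = (1 / 6 : ℂ) * (z * (e z y - e' z y) i) := by
      unfold rr
      rw [Pi.sub_apply]
      ring
    have h2 : ‖(e z y - e' z y) i‖ ≤ δ := (norm_le_pi_norm _ i).trans hδ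
    rw [h1, norm_mul, norm_mul]
    have h3 : ‖(1 / 6 : ℂ)‖ = 1 / 6 := by norm_num
    rw [h3]
    have h4 : ‖z‖ * ‖(e z y - e' z y) i‖ ≤ 1 / 1000 * δ :=
      mul_le_mul hz h2 (norm_nonneg _) (by norm_num)
    linarith
  have hpn : ∀ i, ‖p i‖ = 1 := by
    intro i
    rcases hp.1 i with h | h
    · rw [h, norm_one]
    · rw [h, norm_neg, norm_one]
  rw [pi_norm_le_iff_of_nonneg hδ0]
  intro i
  have h5 : (TT p Q l e z y - TT p Q l e' z y) i =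
      p i * (∑ j, p j * (rr p Q l e z y j - rr p Q l e' z y j) -
        (rr p Q l e z y i - rr p Q l e' z y i)) := by
    rw [Pi.sub_apply]
    unfold TT
    simp only [mul_sub, Finset.sum_sub_distrib]
    ring
  rw [h5, norm_mul, hpn, one_mul]
  have h6 : ‖∑ j, p j * (rr p Q l e z y j - rr p Q l e' z y j)‖ ≤ 7 * (δ / 6000) := by
    refine (norm_sum_le _ _).trans ?_
    calc ∑ j, ‖p j * (rr p Q l e z y j - rr p Q l e' z y j)‖ ≤ ∑ _j : Fin 7, δ / 6000 := by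
          apply Finset.sum_le_sum
          intro j _
          rw [norm_mul, hpn, one_mul]
          exact hd j
      _ = 7 * (δ / 6000) := by
          rw [Finset.sum_const, Finset.card_univ, Fintype.card_fin, nsmul_eq_mul]
          norm_num
  refine (norm_sub_le _ _).trans ?_
  have h7 := hd i
  linarith

/-- J6d : continuity of `ww` -/
theorem ww_close (p : E7) (hp : Node p) (Q : Fin 7 → Fin 7 → ℂ) (hQ : ‖Q‖ ≤ 1) (l : E7)
    (e e' : ℂ → E7 → E7) (z : ℂ) (hz : ‖z‖ ≤ 1/1000) (y y' : E7) (hy : ‖y‖ ≤ 10) (hy' : ‖y'‖ ≤ 10)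
    (δ δ' : ℝ) (hδ : ‖e z y - e' z y'‖ ≤ δ) (hδ' : ‖y - y'‖ ≤ δ') :
    ‖ww p Q l e z y - ww p Q l e' z y'‖ ≤ δ + 2 * δ' := by
  have hp1 : ∀ j, ‖p j‖ = 1 := by
    intro j
    rcases hp.1 j with h | h <;> rw [h] <;> simp
  have hyj : ∀ j, ‖y j‖ ≤ 10 := fun j => (norm_le_pi_norm y j).trans hy
  have hyj' : ∀ j, ‖y' j‖ ≤ 10 := fun j => (norm_le_pi_norm y' j).trans hy'
  have hdj : ∀ j, ‖y j - y' j‖ ≤ δ' := fun j => (norm_le_pi_norm (y - y') j).trans hδ'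
  have hej : ∀ j, ‖e z y j - e' z y' j‖ ≤ δ := fun j =>
    (norm_le_pi_norm (e z y - e' z y') j).trans hδ
  have hQj : ∀ i j, ‖Q i j‖ ≤ 1 := fun i j =>
    (norm_le_pi_norm (Q i) j).trans ((norm_le_pi_norm Q i).trans hQ)
  have hδ0 : 0 ≤ δ := (norm_nonneg _).trans hδ
  have hδ0' : 0 ≤ δ' := (norm_nonneg _).trans hδ'
  have hr : ∀ j, ‖rr p Q l e z y j - rr p Q l e' z y' j‖ ≤
      1 / 1000 * ((10 + 7 / 6) * δ' + δ / 6) := by
    intro j
    have e1 : rr p Q l e z y j - rr p Q l e' z y' j =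
        z * ((1 / 2) * ((y j - y' j) * (y j + y' j)) +
          (1 / 6) * (∑ k, Q j k * (y k - y' k) + (e z y j - e' z y' j))) := by
      unfold rr
      simp only [mul_sub, Finset.sum_sub_distrib]
      ring
    rw [e1, norm_mul]
    refine mul_le_mul hz ?_ (norm_nonneg _) (by norm_num)
    have h1 : ‖(1 / 2 : ℂ) * ((y j - y' j) * (y j + y' j))‖ ≤ 10 * δ' := by
      rw [norm_mul, norm_mul]
      have h2 : ‖y j + y' j‖ ≤ 20 := (norm_add_le _ _).trans (by linarith [hyj j, hyj' j])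
      have h3 : ‖y j - y' j‖ * ‖y j + y' j‖ ≤ δ' * 20 :=
        mul_le_mul (hdj j) h2 (norm_nonneg _) hδ0'
      have h4 : ‖(1 / 2 : ℂ)‖ = 1 / 2 := by norm_num
      rw [h4]
      linarith
    have h2 : ‖∑ k, Q j k * (y k - y' k)‖ ≤ 7 * δ' := by
      refine (norm_sum_le _ _).trans ?_
      have : ∀ k ∈ (Finset.univ : Finset (Fin 7)), ‖Q j k * (y k - y' k)‖ ≤ δ' := by
        intro k _
        rw [norm_mul]
        have := mul_le_mul (hQj j k) (hdj k) (norm_nonneg _) zero_le_one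
        rwa [one_mul] at this
      refine (Finset.sum_le_card_nsmul _ _ _ this).trans ?_
      simp
    have h3 : ‖(1 / 6 : ℂ) * (∑ k, Q j k * (y k - y' k) + (e z y j - e' z y' j))‖ ≤
        7 / 6 * δ' + δ / 6 := by
      rw [norm_mul]
      have h4 : ‖(1 / 6 : ℂ)‖ = 1 / 6 := by norm_num
      have h5 := (norm_add_le (∑ k, Q j k * (y k - y' k)) (e z y j - e' z y' j)).trans
        (add_le_add h2 (hej j))
      rw [h4]
      linarith
    refine (norm_add_le _ _).trans ?_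
    linarith
  have e2 : ww p Q l e z y - ww p Q l e' z y' =
      2 * ∑ j, p j * (rr p Q l e z y j - rr p Q l e' z y' j) := by
    unfold ww
    simp only [mul_sub, Finset.sum_sub_distrib]
  rw [e2, norm_mul]
  have h6 : ‖∑ j, p j * (rr p Q l e z y j - rr p Q l e' z y' j)‖ ≤
      7 * (1 / 1000 * ((10 + 7 / 6) * δ' + δ / 6)) := by
    refine (norm_sum_le _ _).trans ?_
    have : ∀ k ∈ (Finset.univ : Finset (Fin 7)),
        ‖p k * (rr p Q l e z y k - rr p Q l e' z y' k)‖ ≤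
          1 / 1000 * ((10 + 7 / 6) * δ' + δ / 6) := by
      intro k _
      rw [norm_mul, hp1, one_mul]
      exact hr k
    refine (Finset.sum_le_card_nsmul _ _ _ this).trans ?_
    simp
  have h7 : ‖(2 : ℂ)‖ = 2 := by norm_num
  rw [h7]
  linarith

/-- J8a : estimate of `ww` in the quadratic case -/
theorem ww_case_A (p : E7) (hp : Node p) (Q : Fin 7 → Fin 7 → ℂ) (hQ : ‖Q‖ ≤ 1) (l : E7) (hl : ‖l‖ ≤ 1)
    (z : ℂ) (hz : ‖z‖ ≤ 1/1000) (y : E7) (hy : ‖y‖ ≤ 10) :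
    ‖ww p Q l (fun _ _ => 0) z y - (1/3) * ∑ i, ∑ j, p i * Q i j * p j‖ ≤ 1000 * ‖z‖ := by
  have hp1 : ∀ i, ‖p i‖ = 1 := by
    intro i
    rcases hp.1 i with h | h <;> rw [h] <;> simp
  have hQ1 : ∀ i j, ‖Q i j‖ ≤ 1 := fun i j =>
    (norm_le_pi_norm (Q i) j).trans ((norm_le_pi_norm Q i).trans hQ)
  have hl1 : ∀ i, ‖l i‖ ≤ 1 := fun i => (norm_le_pi_norm l i).trans hl
  have hy1 : ∀ i, ‖y i‖ ≤ 10 := fun i => (norm_le_pi_norm y i).trans hy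
  have e1 : ww p Q l (fun _ _ => 0) z y - (1/3) * ∑ i, ∑ j, p i * Q i j * p j =
      2 * ∑ j, p j * ((1/2) * z * (y j) ^ 2 + (1/6) * (z * ∑ k, Q j k * y k + z * l j)) := by
    unfold ww rr
    rw [Finset.mul_sum, Finset.mul_sum, Finset.mul_sum, ← Finset.sum_sub_distrib]
    apply Finset.sum_congr rfl
    intro j _
    have e2 : ∑ k, p j * Q j k * p k = p j * ∑ k, Q j k * p k := by
      rw [Finset.mul_sum]
      exact Finset.sum_congr rfl (fun k _ => by ring)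
    rw [e2]
    simp only [Pi.zero_apply]
    ring
  rw [e1]
  have hterm : ∀ j, ‖p j * ((1/2) * z * (y j) ^ 2 + (1/6) * (z * ∑ k, Q j k * y k + z * l j))‖ ≤
      62 * ‖z‖ := by
    intro j
    have h1 : ‖∑ k, Q j k * y k‖ ≤ 70 := by
      refine (norm_sum_le _ _).trans ?_
      have h2 : ∀ k ∈ (Finset.univ : Finset (Fin 7)), ‖Q j k * y k‖ ≤ 10 := by
        intro k _
        rw [norm_mul]
        have := mul_le_mul (hQ1 j k) (hy1 k) (norm_nonneg _) zero_le_one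
        linarith
      refine (Finset.sum_le_sum h2).trans ?_
      simp
      norm_num
    have hz0 := norm_nonneg z
    rw [norm_mul, hp1, one_mul]
    have h3 : ‖(1/2) * z * (y j) ^ 2‖ ≤ 50 * ‖z‖ := by
      rw [norm_mul, norm_mul, norm_pow]
      have h4 : ‖(1/2 : ℂ)‖ = 1/2 := by simp
      rw [h4]
      have h5 : ‖y j‖ ^ 2 ≤ 10 ^ 2 := pow_le_pow_left₀ (norm_nonneg _) (hy1 j) 2
      nlinarith
    have h6 : ‖(1/6) * (z * ∑ k, Q j k * y k + z * l j)‖ ≤ (71/6) * ‖z‖ := by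
      rw [norm_mul]
      have h4 : ‖(1/6 : ℂ)‖ = 1/6 := by simp
      rw [h4]
      have h7 : ‖z * ∑ k, Q j k * y k + z * l j‖ ≤ 70 * ‖z‖ + 1 * ‖z‖ := by
        refine (norm_add_le _ _).trans ?_
        rw [norm_mul, norm_mul]
        have h8 := mul_le_mul_of_nonneg_left h1 hz0
        have h9 := mul_le_mul_of_nonneg_left (hl1 j) hz0
        linarith
      linarith
    refine (norm_add_le _ _).trans ?_
    linarith
  rw [norm_mul]
  have h2 : ‖(2 : ℂ)‖ = 2 := by simp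
  rw [h2]
  have h3 : ‖∑ j, p j * ((1/2) * z * (y j) ^ 2 + (1/6) * (z * ∑ k, Q j k * y k + z * l j))‖ ≤
      7 * (62 * ‖z‖) := by
    refine (norm_sum_le _ _).trans ?_
    refine (Finset.sum_le_sum (fun j _ => hterm j)).trans ?_
    simp
  have hz0 := norm_nonneg z
  linarith

/-- J8b : estimate of the fixed point -/
theorem y_small (p : E7) (hp : Node p) (Q : Fin 7 → Fin 7 → ℂ) (hQ : ‖Q‖ ≤ 1) (l : E7) (hl : ‖l‖ ≤ 1)
    (z : ℂ) (hz : ‖z‖ ≤ 1/1000) (y : E7) (hy : ‖y‖ ≤ 10) (hT : TT p Q l (fun _ _ => 0) z y = y) :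
    ‖y‖ ≤ 500 * ‖z‖ + 10 * ‖Q‖ := by
  have hp1 : ∀ i, ‖p i‖ = 1 := fun i => by rcases hp.1 i with h | h <;> simp [h]
  have hQij : ∀ i j, ‖Q i j‖ ≤ ‖Q‖ := fun i j =>
    (norm_le_pi_norm (Q i) j).trans (norm_le_pi_norm Q i)
  have hyj : ∀ j, ‖y j‖ ≤ 10 := fun j => (norm_le_pi_norm y j).trans hy
  have hlj : ∀ j, ‖l j‖ ≤ 1 := fun j => (norm_le_pi_norm l j).trans hl
  have hz0 : 0 ≤ ‖z‖ := norm_nonneg z
  have hQ0 : 0 ≤ ‖Q‖ := norm_nonneg Q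
  have h1 : ∀ i, ‖∑ j, Q i j * p j‖ ≤ 7 * ‖Q‖ := by
    intro i
    calc ‖∑ j, Q i j * p j‖ ≤ ∑ j, ‖Q i j * p j‖ := norm_sum_le _ _
      _ ≤ ∑ _j : Fin 7, ‖Q‖ := Finset.sum_le_sum fun j _ => by
          rw [norm_mul, hp1, mul_one]
          exact hQij i j
      _ = 7 * ‖Q‖ := by simp
  have h2 : ∀ i, ‖∑ j, Q i j * y j‖ ≤ 70 := by
    intro i
    calc ‖∑ j, Q i j * y j‖ ≤ ∑ j, ‖Q i j * y j‖ := norm_sum_le _ _
      _ ≤ ∑ _j : Fin 7, (10 : ℝ) := Finset.sum_le_sum fun j _ => by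
          rw [norm_mul]
          calc ‖Q i j‖ * ‖y j‖ ≤ 1 * 10 :=
                mul_le_mul ((hQij i j).trans hQ) (hyj j) (norm_nonneg _) zero_le_one
            _ = 10 := one_mul _
      _ = 70 := by norm_num
  have h3 : ∀ i, ‖rr p Q l (fun _ _ => 0) z y i‖ ≤ 50 * ‖z‖ + (7 * ‖Q‖ + 71 * ‖z‖) / 6 := by
    intro i
    unfold rr
    have ha : ‖(1/2 : ℂ) * z * (y i) ^ 2‖ ≤ 50 * ‖z‖ := by
      rw [norm_mul, norm_mul, norm_pow]
      have hb : ‖(1/2 : ℂ)‖ = 1/2 := by norm_num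
      rw [hb]
      have hc : ‖y i‖ ^ 2 ≤ 100 := by
        have := hyj i
        nlinarith [norm_nonneg (y i)]
      nlinarith [mul_le_mul_of_nonneg_left hc hz0]
    have hd : ‖(1/6 : ℂ) * (∑ j, Q i j * p j + z * ∑ j, Q i j * y j + z * l i + z * 0)‖ ≤
        (7 * ‖Q‖ + 71 * ‖z‖) / 6 := by
      rw [norm_mul]
      have hb : ‖(1/6 : ℂ)‖ = 1/6 := by norm_num
      rw [hb, mul_zero, add_zero]
      have he : ‖∑ j, Q i j * p j + z * ∑ j, Q i j * y j + z * l i‖ ≤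
          7 * ‖Q‖ + ‖z‖ * 70 + ‖z‖ * 1 := by
        refine (norm_add₃_le).trans ?_
        rw [norm_mul, norm_mul]
        exact add_le_add (add_le_add (h1 i) (mul_le_mul_of_nonneg_left (h2 i) hz0))
          (mul_le_mul_of_nonneg_left (hlj i) hz0)
      linarith
    exact (norm_add_le _ _).trans (add_le_add ha hd)
  set M := 50 * ‖z‖ + (7 * ‖Q‖ + 71 * ‖z‖) / 6 with hM
  have h4 : ∀ i, ‖TT p Q l (fun _ _ => 0) z y i‖ ≤ 8 * M := by
    intro i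
    unfold TT
    rw [norm_mul, hp1, one_mul]
    have h5 : ‖∑ j, p j * rr p Q l (fun _ _ => 0) z y j‖ ≤ 7 * M := by
      calc ‖∑ j, p j * rr p Q l (fun _ _ => 0) z y j‖
          ≤ ∑ j, ‖p j * rr p Q l (fun _ _ => 0) z y j‖ := norm_sum_le _ _
        _ ≤ ∑ _j : Fin 7, M := Finset.sum_le_sum fun j _ => by
            rw [norm_mul, hp1, one_mul]
            exact h3 j
        _ = 7 * M := by simp
    have h6 := norm_sub_le (∑ j, p j * rr p Q l (fun _ _ => 0) z y j)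
      (rr p Q l (fun _ _ => 0) z y i)
    linarith [h3 i]
  have hb : 0 ≤ 500 * ‖z‖ + 10 * ‖Q‖ := by positivity
  rw [pi_norm_le_iff_of_nonneg hb]
  intro i
  have h7 := h4 i
  rw [hT] at h7
  rw [hM] at h7
  linarith

/-- J8c : estimate of `ww` in the linear case -/
theorem ww_case_B (p : E7) (hp : Node p) (Q : Fin 7 → Fin 7 → ℂ) (hQ : ‖Q‖ ≤ 1) (l : E7) (hl : ‖l‖ ≤ 1)
    (z : ℂ) (hz : ‖z‖ ≤ 1/1000) (y : E7) (hy : ‖y‖ ≤ 10) (hT : TT p Q l (fun _ _ => 0) z y = y) :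
    ‖ww p Q l (fun _ _ => 0) z y - (z/3) * ∑ i, p i * l i‖ ≤
      100 * ‖Q‖ + 7 * ‖z‖ * (500 * ‖z‖ + 10 * ‖Q‖)^2 := by
  have hy' := y_small p hp Q hQ l hl z hz y hy hT
  have hpn : ∀ j, ‖p j‖ = 1 := by
    intro j
    rcases hp.1 j with h | h <;> simp [h]
  have hQe : ∀ j k, ‖Q j k‖ ≤ ‖Q‖ := fun j k => (norm_le_pi_norm (Q j) k).trans (norm_le_pi_norm Q j)
  have hye : ∀ k, ‖y k‖ ≤ ‖y‖ := fun k => norm_le_pi_norm y k
  have hQ0 : 0 ≤ ‖Q‖ := norm_nonneg _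
  have hy0 : 0 ≤ ‖y‖ := norm_nonneg _
  have hz0 : 0 ≤ ‖z‖ := norm_nonneg _
  have key : ww p Q l (fun _ _ => 0) z y - (z/3) * ∑ i, p i * l i =
      ∑ j, p j * (z * (y j)^2 + (1/3) * (∑ k, Q j k * p k + z * ∑ k, Q j k * y k)) := by
    unfold ww rr
    rw [Finset.mul_sum, Finset.mul_sum, ← Finset.sum_sub_distrib]
    refine Finset.sum_congr rfl fun j _ => ?_
    simp only [Pi.zero_apply, mul_zero, add_zero]
    ring
  rw [key]
  have h1 : ∀ j, ‖p j * (z * (y j)^2 + (1/3) * (∑ k, Q j k * p k + z * ∑ k, Q j k * y k))‖ ≤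
      ‖z‖ * ‖y‖^2 + (1/3) * (7 * ‖Q‖ + ‖z‖ * (7 * (‖Q‖ * ‖y‖))) := by
    intro j
    rw [norm_mul, hpn j, one_mul]
    have a1 : ‖z * (y j)^2‖ ≤ ‖z‖ * ‖y‖^2 := by
      rw [norm_mul, norm_pow]
      exact mul_le_mul_of_nonneg_left (pow_le_pow_left₀ (norm_nonneg _) (hye j) 2) hz0
    have a2 : ‖∑ k, Q j k * p k‖ ≤ 7 * ‖Q‖ := by
      refine (norm_sum_le _ _).trans ?_
      have : ∑ k : Fin 7, ‖Q j k * p k‖ ≤ ∑ _k : Fin 7, ‖Q‖ := by
        refine Finset.sum_le_sum fun k _ => ?_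
        rw [norm_mul, hpn k, mul_one]
        exact hQe j k
      refine this.trans ?_
      simp
    have a3 : ‖∑ k, Q j k * y k‖ ≤ 7 * (‖Q‖ * ‖y‖) := by
      refine (norm_sum_le _ _).trans ?_
      have : ∑ k : Fin 7, ‖Q j k * y k‖ ≤ ∑ _k : Fin 7, ‖Q‖ * ‖y‖ := by
        refine Finset.sum_le_sum fun k _ => ?_
        rw [norm_mul]
        exact mul_le_mul (hQe j k) (hye k) (norm_nonneg _) hQ0
      refine this.trans ?_
      simp
    have a4 : ‖z * ∑ k, Q j k * y k‖ ≤ ‖z‖ * (7 * (‖Q‖ * ‖y‖)) := by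
      rw [norm_mul]
      exact mul_le_mul_of_nonneg_left a3 hz0
    have a5 : ‖(1/3 : ℂ) * (∑ k, Q j k * p k + z * ∑ k, Q j k * y k)‖ ≤
        (1/3) * (7 * ‖Q‖ + ‖z‖ * (7 * (‖Q‖ * ‖y‖))) := by
      rw [norm_mul]
      have : ‖(1/3 : ℂ)‖ = 1/3 := by norm_num
      rw [this]
      exact mul_le_mul_of_nonneg_left ((norm_add_le _ _).trans (add_le_add a2 a4)) (by norm_num)
    exact (norm_add_le _ _).trans (add_le_add a1 a5)
  have h2 : ‖∑ j, p j * (z * (y j)^2 + (1/3) * (∑ k, Q j k * p k + z * ∑ k, Q j k * y k))‖ ≤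
      7 * (‖z‖ * ‖y‖^2 + (1/3) * (7 * ‖Q‖ + ‖z‖ * (7 * (‖Q‖ * ‖y‖)))) := by
    refine (norm_sum_le _ _).trans ((Finset.sum_le_sum fun j _ => h1 j).trans ?_)
    rw [Finset.sum_const, Finset.card_univ, Fintype.card_fin, nsmul_eq_mul]
    apply le_of_eq
    norm_cast
  refine h2.trans ?_
  have h3 : ‖z‖ * ‖y‖^2 ≤ ‖z‖ * (500 * ‖z‖ + 10 * ‖Q‖)^2 :=
    mul_le_mul_of_nonneg_left (pow_le_pow_left₀ hy0 hy' 2) hz0
  have h4 : ‖z‖ * (7 * (‖Q‖ * ‖y‖)) ≤ ‖Q‖ := by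
    have : ‖z‖ * ‖y‖ ≤ 1/1000 * 10 := mul_le_mul hz hy hy0 (by norm_num)
    nlinarith
  nlinarith

theorem J7_rr (p : E7) (Q : Fin 7 → Fin 7 → ℂ) (l : E7) (e : ℂ → E7 → E7) (z0 : ℂ) (r : ℝ)
    (y : ℂ → E7) (hy : DiffContOnCl ℂ y (ball z0 r))
    (he : DiffContOnCl ℂ (fun z => e z (y z)) (ball z0 r)) (i : Fin 7) :
    DifferentiableOn ℂ (fun z => rr p Q l e z (y z) i) (ball z0 r) ∧
      ContinuousOn (fun z => rr p Q l e z (y z) i) (closure (ball z0 r)) := by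
  have h1 : ∀ i, DifferentiableOn ℂ (fun z => y z i) (ball z0 r) :=
    differentiableOn_pi.1 hy.differentiableOn
  have h2 : ∀ i, DifferentiableOn ℂ (fun z => e z (y z) i) (ball z0 r) :=
    differentiableOn_pi.1 he.differentiableOn
  have h3 : ∀ i, ContinuousOn (fun z => y z i) (closure (ball z0 r)) :=
    continuousOn_pi.1 hy.continuousOn
  have h4 : ∀ i, ContinuousOn (fun z => e z (y z) i) (closure (ball z0 r)) :=
    continuousOn_pi.1 he.continuousOn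
  have h5 := h1 i
  have h6 := h2 i
  have h7 := h3 i
  have h8 := h4 i
  unfold rr
  constructor
  · have h9 : DifferentiableOn ℂ (fun z => ∑ j, Q i j * y z j) (ball z0 r) :=
      DifferentiableOn.fun_sum fun j _ => (h1 j).const_mul _
    exact ((differentiableOn_id.const_mul (1 / 2)).mul (h5.pow 2)).add
      (((((differentiableOn_const _).add (differentiableOn_id.mul h9)).add
        (differentiableOn_id.mul_const (l i))).add (differentiableOn_id.mul h6)).const_mul (1 / 6))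
  · have h9 : ContinuousOn (fun z => ∑ j, Q i j * y z j) (closure (ball z0 r)) :=
      continuousOn_finsetSum _ fun j _ => (h3 j).const_mul _
    exact ((continuousOn_id.const_mul (1 / 2)).mul (h7.pow 2)).add
      (((((continuousOn_const).add (continuousOn_id.mul h9)).add
        (continuousOn_id.mul_const (l i))).add (continuousOn_id.mul h8)).const_mul (1 / 6))

theorem J7_sum (p : E7) (Q : Fin 7 → Fin 7 → ℂ) (l : E7) (e : ℂ → E7 → E7) (z0 : ℂ) (r : ℝ)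
    (y : ℂ → E7) (hy : DiffContOnCl ℂ y (ball z0 r))
    (he : DiffContOnCl ℂ (fun z => e z (y z)) (ball z0 r)) :
    DifferentiableOn ℂ (fun z => ∑ j, p j * rr p Q l e z (y z) j) (ball z0 r) ∧
      ContinuousOn (fun z => ∑ j, p j * rr p Q l e z (y z) j) (closure (ball z0 r)) := by
  constructor
  · exact DifferentiableOn.fun_sum fun j _ => ((J7_rr p Q l e z0 r y hy he j).1).const_mul _
  · exact continuousOn_finsetSum _ fun j _ => ((J7_rr p Q l e z0 r y hy he j).2).const_mul _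

/-- J7a -/
theorem TT_holo (p : E7) (Q : Fin 7 → Fin 7 → ℂ) (l : E7) (e : ℂ → E7 → E7) (z0 : ℂ) (r : ℝ)
    (y : ℂ → E7) (hy : DiffContOnCl ℂ y (ball z0 r))
    (he : DiffContOnCl ℂ (fun z => e z (y z)) (ball z0 r)) :
    DiffContOnCl ℂ (fun z => TT p Q l e z (y z)) (ball z0 r) := by
  constructor
  · rw [differentiableOn_pi]
    intro i
    unfold TT
    exact (((J7_sum p Q l e z0 r y hy he).1).sub ((J7_rr p Q l e z0 r y hy he i).1)).const_mul _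
  · rw [continuousOn_pi]
    intro i
    unfold TT
    exact (((J7_sum p Q l e z0 r y hy he).2).sub ((J7_rr p Q l e z0 r y hy he i).2)).const_mul _

/-- J7b -/
theorem ww_holo (p : E7) (Q : Fin 7 → Fin 7 → ℂ) (l : E7) (e : ℂ → E7 → E7) (z0 : ℂ) (r : ℝ)
    (y : ℂ → E7) (hy : DiffContOnCl ℂ y (ball z0 r))
    (he : DiffContOnCl ℂ (fun z => e z (y z)) (ball z0 r)) :
    DiffContOnCl ℂ (fun z => z * ww p Q l e z (y z)) (ball z0 r) := by
  unfold ww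
  constructor
  · exact differentiableOn_id.mul (((J7_sum p Q l e z0 r y hy he).1).const_mul _)
  · exact continuousOn_id.mul (((J7_sum p Q l e z0 r y hy he).2).const_mul _)

/-- J9a : a zero of a nonconstant holomorphic function is isolated (with a lower bound on a small circle) -/
theorem isolated_circle (f : ℂ → ℂ) (ρ : ℝ) (hf : DifferentiableOn ℂ f (ball 0 ρ)) (κ : ℂ)
    (h0 : f 0 ≠ κ) (hρ : 0 < ρ) (zs : ℂ) (hzs : zs ∈ ball (0 : ℂ) ρ) (hfz : f zs = κ) (ρ' : ℝ) (hρ' : 0 < ρ') :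
    ∃ r1 : ℝ, 0 < r1 ∧ r1 < ρ' ∧ closedBall zs r1 ⊆ ball 0 ρ ∧ ∃ m : ℝ, 0 < m ∧
      ∀ z ∈ sphere zs r1, m ≤ ‖f z - κ‖ := by
  have hfa : AnalyticOnNhd ℂ f (ball 0 ρ) := hf.analyticOnNhd isOpen_ball
  have hne : ∀ᶠ z in 𝓝[≠] zs, f z ≠ κ := by
    have hA : AnalyticAt ℂ (fun z => f z - κ) zs := (hfa zs hzs).sub analyticAt_const
    rcases hA.eventually_eq_zero_or_eventually_ne_zero with h | h
    · exfalso
      have hEq : f =ᶠ[𝓝 zs] (fun _ => κ) := by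
        filter_upwards [h] with z hz
        exact sub_eq_zero.1 hz
      have hE := hfa.eqOn_of_preconnected_of_eventuallyEq (g := fun _ => κ)
        (fun z _ => analyticAt_const) (convex_ball (0 : ℂ) ρ).isPreconnected hzs hEq
      exact h0 (hE (mem_ball_self hρ))
    · filter_upwards [h] with z hz
      exact sub_ne_zero.1 hz
  rw [eventually_nhdsWithin_iff, Metric.eventually_nhds_iff] at hne
  obtain ⟨ε, hε, hεf⟩ := hne
  obtain ⟨δ, hδ, hδs⟩ := Metric.isOpen_iff.1 isOpen_ball zs hzs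
  obtain ⟨r1, hr1⟩ : ∃ r1 : ℝ, r1 = min (min ε δ) ρ' / 2 := ⟨_, rfl⟩
  have hm : 0 < min (min ε δ) ρ' := lt_min (lt_min hε hδ) hρ'
  have hr0 : 0 < r1 := by rw [hr1]; linarith
  have hle : 2 * r1 = min (min ε δ) ρ' := by rw [hr1]; ring
  have hle1 : 2 * r1 ≤ ε := hle.le.trans ((min_le_left _ _).trans (min_le_left _ _))
  have hle2 : 2 * r1 ≤ δ := hle.le.trans ((min_le_left _ _).trans (min_le_right _ _))
  have hle3 : 2 * r1 ≤ ρ' := hle.le.trans (min_le_right _ _)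
  have hcb : closedBall zs r1 ⊆ ball 0 ρ := by
    intro z hz
    apply hδs
    rw [mem_ball]
    rw [mem_closedBall] at hz
    linarith
  refine ⟨r1, hr0, by linarith, hcb, ?_⟩
  have hcont : ContinuousOn (fun z => ‖f z - κ‖) (sphere zs r1) := by
    refine ContinuousOn.norm (ContinuousOn.sub ?_ continuousOn_const)
    exact hf.continuousOn.mono (sphere_subset_closedBall.trans hcb)
  have hnes : (sphere zs r1).Nonempty := NormedSpace.sphere_nonempty.2 hr0.le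
  obtain ⟨w, hw, hwmin⟩ := (isCompact_sphere zs r1).exists_isMinOn hnes hcont
  refine ⟨‖f w - κ‖, ?_, fun z hz => hwmin hz⟩
  rw [norm_pos_iff, sub_ne_zero]
  rw [mem_sphere] at hw
  apply hεf
  · linarith
  · intro h
    rw [Set.mem_singleton_iff] at h
    rw [h, dist_self] at hw
    linarith

/-- J9b : Cauchy estimate for the derivative -/
theorem fderiv_bound {F F' : Type*} [NormedAddCommGroup F] [NormedSpace ℂ F] [NormedAddCommGroup F']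
    [NormedSpace ℂ F'] [CompleteSpace F'] (f : F → F') (a : F) (ρ M : ℝ) (hρ : 0 < ρ)
    (hf : DifferentiableOn ℂ f (ball a ρ)) (hb : ∀ x ∈ ball a ρ, ‖f x‖ ≤ M) :
    ‖fderiv ℂ f a‖ ≤ M / ρ := by
  have hM : 0 ≤ M := (norm_nonneg _).trans (hb a (mem_ball_self hρ))
  refine ContinuousLinearMap.opNorm_le_bound _ (div_nonneg hM hρ.le) fun v => ?_
  by_cases hv : v = 0
  · subst hv; simp
  have hvn : 0 < ‖v‖ := norm_pos_iff.2 hv
  obtain ⟨r, hr⟩ : ∃ r, r = ρ / ‖v‖ := ⟨_, rfl⟩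
  have hr0 : 0 < r := by rw [hr]; positivity
  have hrv : r * ‖v‖ = ρ := by rw [hr]; field_simp
  have hmem : ∀ τ : ℂ, ‖τ‖ < r → a + τ • v ∈ ball a ρ := by
    intro τ hτ
    rw [mem_ball_iff_norm, add_sub_cancel_left, norm_smul, ← hrv]
    exact mul_lt_mul_of_pos_right hτ hvn
  have hd : ∀ τ : ℂ, ‖τ‖ < r → DifferentiableAt ℂ (fun τ : ℂ => f (a + τ • v)) τ := by
    intro τ hτ
    have h1 : DifferentiableAt ℂ f (a + τ • v) :=
      hf.differentiableAt (isOpen_ball.mem_nhds (hmem τ hτ))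
    have h2 : DifferentiableAt ℂ (fun τ : ℂ => a + τ • v) τ := by fun_prop
    exact h1.comp τ h2
  have hder : deriv (fun τ : ℂ => f (a + τ • v)) 0 = fderiv ℂ f a v := by
    have h1 : HasFDerivAt f (fderiv ℂ f a) (a + (0:ℂ) • v) := by
      rw [zero_smul, add_zero]
      exact (hf.differentiableAt (isOpen_ball.mem_nhds (mem_ball_self hρ))).hasFDerivAt
    have h2 : HasDerivAt (fun τ : ℂ => a + τ • v) v 0 := by
      have := ((hasDerivAt_id (0:ℂ)).smul_const v).const_add a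
      simpa using this
    exact (h1.comp_hasDerivAt (0:ℂ) h2).deriv
  have hs : ∀ s : ℝ, 0 < s → s < r → ‖fderiv ℂ f a v‖ * s ≤ M := by
    intro s hs0 hsr
    have h1 : DiffContOnCl ℂ (fun τ : ℂ => f (a + τ • v)) (ball 0 s) := by
      apply DifferentiableOn.diffContOnCl
      intro τ hτ
      have h2 : ‖τ‖ ≤ s := by
        have := closure_ball_subset_closedBall hτ
        simpa using this
      exact (hd τ (h2.trans_lt hsr)).differentiableWithinAt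
    have h3 := Complex.norm_deriv_le_of_forall_mem_sphere_norm_le (C := M) hs0 h1 (by
      intro z hz
      have h4 : ‖z‖ = s := by simpa using hz
      exact hb _ (hmem z (by rw [h4]; exact hsr)))
    rw [hder, le_div_iff₀ hs0] at h3
    exact h3
  have hfin : ‖fderiv ℂ f a v‖ * r ≤ M := by
    by_contra hcon
    push Not at hcon
    have hpos : 0 < ‖fderiv ℂ f a v‖ := by
      by_contra h0
      have h1 : ‖fderiv ℂ f a v‖ = 0 := le_antisymm (not_lt.1 h0) (norm_nonneg _)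
      rw [h1, zero_mul] at hcon
      linarith
    have h1 : M / ‖fderiv ℂ f a v‖ < r := by
      rw [div_lt_iff₀ hpos]; linarith
    have h2 : 0 ≤ M / ‖fderiv ℂ f a v‖ := div_nonneg hM hpos.le
    have h3 := hs ((M / ‖fderiv ℂ f a v‖ + r) / 2) (by linarith) (by linarith)
    have h4 : ‖fderiv ℂ f a v‖ * (M / ‖fderiv ℂ f a v‖) = M := by field_simp
    nlinarith
  rw [div_mul_eq_mul_div, le_div_iff₀ hρ, ← hrv]
  nlinarith [norm_nonneg (fderiv ℂ f a v)]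

/-- J9c : Lipschitz bound on a smaller ball -/
theorem lip_of_bound {F F' : Type*} [NormedAddCommGroup F] [NormedSpace ℂ F] [NormedAddCommGroup F']
    [NormedSpace ℂ F'] [CompleteSpace F'] (f : F → F') (R η : ℝ)
    (hf : DifferentiableOn ℂ f (ball 0 R)) (hb : ∀ x ∈ ball 0 R, ‖f x‖ ≤ η) :
    ∀ x ∈ ball (0 : F) (R - 1), ∀ x' ∈ ball (0 : F) (R - 1), ‖f x - f x'‖ ≤ η * ‖x - x'‖ := by
  intro x hx x' hx'
  have hsub : ∀ y ∈ ball (0 : F) (R - 1), ball y 1 ⊆ ball (0 : F) R := by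
    intro y hy
    apply ball_subset_ball'
    rw [mem_ball] at hy
    linarith
  have hd : ∀ y ∈ ball (0 : F) (R - 1), DifferentiableAt ℂ f y := by
    intro y hy
    exact hf.differentiableAt (isOpen_ball.mem_nhds (hsub y hy (mem_ball_self one_pos)))
  have hbd : ∀ y ∈ ball (0 : F) (R - 1), ‖fderiv ℂ f y‖ ≤ η := by
    intro y hy
    have := fderiv_bound f y 1 η one_pos (hf.mono (hsub y hy)) (fun z hz => hb z (hsub y hy hz))
    rwa [div_one] at this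
  exact Convex.norm_image_sub_le_of_norm_fderiv_le hd hbd (convex_ball _ _) hx' hx

/-- J9d : second order remainder -/
theorem remainder {F F' : Type*} [NormedAddCommGroup F] [NormedSpace ℂ F] [NormedAddCommGroup F']
    [NormedSpace ℂ F'] [CompleteSpace F'] (e : F → F') (r δ : ℝ) (hr : 0 < r)
    (he : AnalyticOnNhd ℂ e (ball 0 r)) (hb : ∀ x ∈ ball 0 r, ‖e x‖ ≤ δ) (b x : F)
    (hb' : ‖b‖ ≤ r / 4) (hx : ‖x‖ ≤ r / 4) :
    ‖e (b + x) - e b - fderiv ℂ e b x‖ ≤ (64 / r ^ 2) * δ * ‖x‖ ^ 2 := by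
  have hδ : 0 ≤ δ := (norm_nonneg _).trans (hb 0 (mem_ball_self hr))
  have h1 : ∀ y : F, ‖y‖ < 3 * r / 4 → ‖fderiv ℂ e y‖ ≤ δ / (r / 4) := by
    intro y hy
    have hsub : ball y (r / 4) ⊆ ball (0 : F) r := by
      apply ball_subset_ball'
      rw [dist_zero_right]
      linarith
    exact fderiv_bound e y (r / 4) δ (by positivity) (he.differentiableOn.mono hsub)
      (fun z hz => hb z (hsub hz))
  have hD : AnalyticOnNhd ℂ (fderiv ℂ e) (ball 0 r) := he.fderiv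
  have h2 : ∀ y : F, ‖y‖ ≤ r / 2 → ‖fderiv ℂ (fderiv ℂ e) y‖ ≤ δ / (r / 4) / (r / 4) := by
    intro y hy
    have hsub : ball y (r / 4) ⊆ ball (0 : F) (3 * r / 4) := by
      apply ball_subset_ball'
      rw [dist_zero_right]
      linarith
    have hsub2 : ball (0 : F) (3 * r / 4) ⊆ ball (0 : F) r := ball_subset_ball (by linarith)
    refine fderiv_bound (fderiv ℂ e) y (r / 4) (δ / (r / 4)) (by positivity)
      (hD.differentiableOn.mono (hsub.trans hsub2)) (fun z hz => h1 z ?_)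
    have := hsub hz
    rwa [mem_ball, dist_zero_right] at this
  have hmem : ∀ y : F, ‖y‖ ≤ r / 2 → y ∈ ball (0 : F) r := by
    intro y hy
    rw [mem_ball, dist_zero_right]
    linarith
  have h3 : ∀ y ∈ closedBall (0 : F) (r / 2), ‖fderiv ℂ e y - fderiv ℂ e b‖ ≤
      δ / (r / 4) / (r / 4) * ‖y - b‖ := by
    intro y hy
    refine Convex.norm_image_sub_le_of_norm_fderiv_le (𝕜 := ℂ) (s := closedBall (0 : F) (r / 2))
      ?_ ?_ (convex_closedBall _ _) ?_ hy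
    · intro z hz
      rw [mem_closedBall, dist_zero_right] at hz
      exact (hD z (hmem z hz)).differentiableAt
    · intro z hz
      rw [mem_closedBall, dist_zero_right] at hz
      exact h2 z hz
    · rw [mem_closedBall, dist_zero_right]
      linarith
  have hseg : ∀ y ∈ segment ℝ b (b + x), ‖y‖ ≤ r / 2 ∧ ‖y - b‖ ≤ ‖x‖ := by
    intro y hy
    rw [segment_eq_image'] at hy
    obtain ⟨θ, hθ, rfl⟩ := hy
    have h4 : b + θ • (b + x - b) = b + θ • x := by rw [add_sub_cancel_left]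
    have h5 : ‖θ • x‖ ≤ ‖x‖ := by
      rw [norm_smul, Real.norm_of_nonneg hθ.1]
      calc θ * ‖x‖ ≤ 1 * ‖x‖ := by
            apply mul_le_mul_of_nonneg_right hθ.2 (norm_nonneg _)
        _ = ‖x‖ := one_mul _
    show ‖b + θ • (b + x - b)‖ ≤ r / 2 ∧ ‖b + θ • (b + x - b) - b‖ ≤ ‖x‖
    rw [h4]
    constructor
    · calc ‖b + θ • x‖ ≤ ‖b‖ + ‖θ • x‖ := norm_add_le _ _
        _ ≤ r / 4 + r / 4 := add_le_add hb' (h5.trans hx)
        _ = r / 2 := by ring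
    · rw [add_sub_cancel_left]
      exact h5
  have hfin := Convex.norm_image_sub_le_of_norm_fderiv_le' (𝕜 := ℂ) (f := e)
    (s := segment ℝ b (b + x)) (φ := fderiv ℂ e b) (C := δ / (r / 4) / (r / 4) * ‖x‖)
    (x := b) (y := b + x)
    (fun y hy => (he y (hmem y (hseg y hy).1)).differentiableAt)
    (fun y hy => by
      have h6 := h3 y (by rw [mem_closedBall, dist_zero_right]; exact (hseg y hy).1)
      refine h6.trans ?_
      apply mul_le_mul_of_nonneg_left (hseg y hy).2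
      positivity)
    (convex_segment _ _) (left_mem_segment ℝ _ _) (right_mem_segment ℝ _ _)
  rw [add_sub_cancel_left] at hfin
  refine hfin.trans ?_
  have h7 : δ / (r / 4) / (r / 4) * ‖x‖ * ‖x‖ = (16 / r ^ 2) * δ * ‖x‖ ^ 2 := by
    field_simp
    ring
  rw [h7]
  have h8 : 0 ≤ δ * ‖x‖ ^ 2 := by positivity
  have h9 : (16 : ℝ) / r ^ 2 ≤ 64 / r ^ 2 := by
    apply div_le_div_of_nonneg_right (by norm_num) (by positivity)
  rw [mul_assoc, mul_assoc]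
  exact mul_le_mul_of_nonneg_right h9 h8

/-- J10 : reduction of a general symmetric matrix to a normalised one by translation and scaling -/
theorem level_two (c : ℝ) (hc : 1 < c)
    (hn : ∀ (Q : Fin 7 → Fin 7 → ℂ) (l : E7), (∀ i j, Q i j = Q j i) → (∀ i, Q i i = 0) →
      ‖Q‖ ≤ 1 → ‖l‖ ≤ 1 → (‖Q‖ = 1 ∨ ‖l‖ = 1) →
      ∃ R : ℝ, 0 < R ∧ ∃ η : ℝ, 0 < η ∧ ∀ E' : E7 → E7, DifferentiableOn ℂ E' (ball 0 R) →
        (∀ x ∈ ball (0 : E7) R, ‖E' x‖ ≤ η) →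
        ∃ x ∈ ball (0 : E7) R, (∀ i, g c x i + ∑ j, Q i j * x j + l i + E' x i = 0) ∧ ¬ SReal x)
    (hiso : ∀ x : E7, g c x = 0 → x = 0)
    (H : Fin 7 → Fin 7 → ℂ) (hs : ∀ i j, H i j = H j i)
    (hreal : ∀ i j, H (sg i) (sg j) = (starRingEnd ℂ) (H i j)) (hne : H ≠ 0) :
    ∃ R : ℝ, 0 < R ∧ ∃ η : ℝ, 0 < η ∧ ∀ E' : E7 → E7, DifferentiableOn ℂ E' (ball 0 R) →
      (∀ x ∈ ball (0 : E7) R, ‖E' x‖ ≤ η) →
      ∃ x ∈ ball (0 : E7) R, (∀ i, g c x i + ∑ j, H i j * x j + E' x i = 0) ∧ ¬ SReal x := by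
  obtain ⟨S, hS⟩ : ∃ S : ℂ, S = (∑ i, H i i) / (6 * (7 * c - 1)) := ⟨_, rfl⟩
  have hc7 : (6 * (7 * (c:ℂ) - 1)) ≠ 0 := by
    have h7 : ((6 * (7 * c - 1) : ℝ) : ℂ) ≠ 0 := by
      rw [Complex.ofReal_ne_zero]
      have : 0 < 7 * c - 1 := by linarith
      positivity
    push_cast at h7
    exact h7
  have htr : ∑ i, H i i = 6 * (7 * c - 1) * S := by
    rw [hS, mul_div_cancel₀ _ hc7]
  obtain ⟨a, ha⟩ : ∃ a : E7, a = fun i => c * S - H i i / 6 := ⟨_, rfl⟩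
  have hA : ∑ i, a i = S := by
    rw [ha]
    simp only
    rw [Finset.sum_sub_distrib, ← Finset.sum_div, htr, Finset.sum_const]
    simp
    ring
  obtain ⟨Q, hQ⟩ : ∃ Q : Fin 7 → Fin 7 → ℂ, Q =
    fun i j => H i j + (if i = j then 6 * a i else 0) - 6 * c * S := ⟨_, rfl⟩
  obtain ⟨l, hl⟩ : ∃ l : E7, l = fun i => g c a i + ∑ j, H i j * a j := ⟨_, rfl⟩
  have key : ∀ (y : E7) i, g c (a + y) i + ∑ j, H i j * (a + y) j =
      g c y i + ∑ j, Q i j * y j + l i := by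
    intro y i
    have e1 : ∑ j, Q i j * y j = ∑ j, H i j * y j + 6 * a i * y i - 6 * c * S * ∑ j, y j := by
      rw [hQ]
      simp only [add_mul, sub_mul, ite_mul, zero_mul]
      rw [Finset.sum_sub_distrib, Finset.sum_add_distrib, Finset.sum_ite_eq]
      simp [Finset.mul_sum]
    have e2 : ∑ j, H i j * (a + y) j = ∑ j, H i j * a j + ∑ j, H i j * y j := by
      simp [mul_add, Finset.sum_add_distrib]
    rw [e1, e2, hl]
    unfold g
    simp only [Pi.add_apply]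
    rw [Finset.sum_add_distrib, hA]
    ring
  have hQs : ∀ i j, Q i j = Q j i := by
    intro i j
    rw [hQ]
    simp only
    by_cases hij : i = j
    · subst hij; rfl
    · rw [if_neg hij, if_neg (Ne.symm hij), hs i j]
  have hQd : ∀ i, Q i i = 0 := by
    intro i
    rw [hQ, ha]
    simp only [if_true]
    ring
  -- not both zero
  have hQl : ¬ (Q = 0 ∧ l = 0) := by
    rintro ⟨h1, h2⟩
    have h3 : g c (-a) = 0 := by
      funext i
      have := key (-a) i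
      rw [h1, h2] at this
      simp only [add_neg_cancel, Pi.zero_apply, mul_zero, zero_mul, Finset.sum_const_zero,
        add_zero] at this
      rw [← this]
      simp [g]
    have h4 : a = 0 := neg_eq_zero.1 (hiso _ h3)
    have h5 : S = 0 := by rw [← hA, h4]; simp
    apply hne
    funext i j
    have := congrFun (congrFun h1 i) j
    rw [hQ, h4, h5] at this
    simpa using this
  obtain ⟨lam, hlam⟩ : ∃ lam : ℝ, lam = max ‖Q‖ (Real.sqrt ‖l‖) := ⟨_, rfl⟩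
  have hlam0 : 0 < lam := by
    rw [hlam, lt_max_iff]
    by_contra hcon
    rw [not_or, not_lt, not_lt] at hcon
    apply hQl
    refine ⟨norm_le_zero_iff.1 hcon.1, ?_⟩
    have := Real.sqrt_eq_zero'.1 (le_antisymm hcon.2 (Real.sqrt_nonneg _))
    exact norm_le_zero_iff.1 this
  have hlQ : ‖Q‖ ≤ lam := by rw [hlam]; exact le_max_left _ _
  have hll : ‖l‖ ≤ lam ^ 2 := by
    have h1 : Real.sqrt ‖l‖ ≤ lam := by rw [hlam]; exact le_max_right _ _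
    calc ‖l‖ = Real.sqrt ‖l‖ ^ 2 := (Real.sq_sqrt (norm_nonneg _)).symm
      _ ≤ lam ^ 2 := by gcongr
  have hor : ‖Q‖ = lam ∨ ‖l‖ = lam ^ 2 := by
    rcases max_choice ‖Q‖ (Real.sqrt ‖l‖) with h | h
    · left; rw [hlam, h]
    · right; rw [hlam, h, Real.sq_sqrt (norm_nonneg _)]
  have hn1 : ‖(((lam⁻¹ : ℝ) : ℂ) • Q : Fin 7 → Fin 7 → ℂ)‖ = lam⁻¹ * ‖Q‖ := by
    rw [norm_smul, Complex.norm_real, Real.norm_of_nonneg (inv_nonneg.2 hlam0.le)]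
  have hn2 : ‖((((lam ^ 2)⁻¹ : ℝ) : ℂ) • l : E7)‖ = (lam ^ 2)⁻¹ * ‖l‖ := by
    rw [norm_smul, Complex.norm_real, Real.norm_of_nonneg (inv_nonneg.2 (by positivity))]
  obtain ⟨R', hR', η', hη', hmain⟩ := hn (((lam⁻¹ : ℝ) : ℂ) • Q) ((((lam ^ 2)⁻¹ : ℝ) : ℂ) • l)
    (fun i j => by simp only [Pi.smul_apply, smul_eq_mul]; rw [hQs i j])
    (fun i => by simp only [Pi.smul_apply, smul_eq_mul]; rw [hQd i, mul_zero])
    (by rw [hn1, inv_mul_le_iff₀ hlam0]; linarith)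
    (by rw [hn2, inv_mul_le_iff₀ (by positivity)]; linarith)
    (by
      rw [hn1, hn2]
      rcases hor with h | h
      · left; rw [h]; exact inv_mul_cancel₀ hlam0.ne'
      · right; rw [h]; exact inv_mul_cancel₀ (by positivity))
  refine ⟨‖a‖ + lam * R' + 1, by positivity, lam ^ 2 * η', by positivity, ?_⟩
  intro E hE1 hE2
  have hlamC : (lam : ℂ) ≠ 0 := by exact_mod_cast hlam0.ne'
  have hmaps : ∀ x' ∈ ball (0 : E7) R', a + (lam : ℂ) • x' ∈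
      ball (0 : E7) (‖a‖ + lam * R' + 1) := by
    intro x' hx'
    rw [mem_ball_zero_iff] at hx' ⊢
    have h1 : ‖a + (lam : ℂ) • x'‖ ≤ ‖a‖ + lam * ‖x'‖ := by
      refine (norm_add_le _ _).trans ?_
      rw [norm_smul, Complex.norm_real, Real.norm_of_nonneg hlam0.le]
    nlinarith
  obtain ⟨x', hx', heq, hnr⟩ := hmain
    (fun x' => (((lam ^ 2)⁻¹ : ℝ) : ℂ) • E (a + (lam : ℂ) • x')) (by
      have hd : DifferentiableOn ℂ (fun x' : E7 => a + (lam : ℂ) • x') (ball 0 R') := by fun_prop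
      exact (hE1.comp hd hmaps).const_smul (((lam ^ 2)⁻¹ : ℝ) : ℂ)) (by
      intro x' hx'
      have h1 := hE2 _ (hmaps x' hx')
      rw [norm_smul, Complex.norm_real, Real.norm_of_nonneg (inv_nonneg.2 (by positivity)),
        inv_mul_le_iff₀ (by positivity)]
      exact h1)
  refine ⟨a + (lam : ℂ) • x', hmaps x' hx', ?_, ?_⟩
  · intro i
    rw [key]
    have h1 := heq i
    have h2 : g c ((lam : ℂ) • x') i = (lam : ℂ) ^ 2 * g c x' i := by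
      unfold g
      simp only [Pi.smul_apply, smul_eq_mul]
      rw [← Finset.mul_sum]
      ring
    have h3 : ∑ j, Q i j * ((lam : ℂ) • x') j =
        (lam : ℂ) ^ 2 * ∑ j, (((lam⁻¹ : ℝ) : ℂ) • Q) i j * x' j := by
      rw [Finset.mul_sum]
      refine Finset.sum_congr rfl fun j _ => ?_
      simp only [Pi.smul_apply, smul_eq_mul]
      push_cast
      field_simp
    have h4 : l i = (lam : ℂ) ^ 2 * ((((lam ^ 2)⁻¹ : ℝ) : ℂ) • l) i := by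
      simp only [Pi.smul_apply, smul_eq_mul]
      push_cast
      field_simp
    have h5 : E (a + (lam : ℂ) • x') i = (lam : ℂ) ^ 2 *
        ((((lam ^ 2)⁻¹ : ℝ) : ℂ) • E (a + (lam : ℂ) • x')) i := by
      simp only [Pi.smul_apply, smul_eq_mul]
      push_cast
      field_simp
    rw [h2, h3, h4, h5, ← mul_add, ← mul_add, ← mul_add, h1, mul_zero]
  · intro hreal'
    apply hnr
    intro i
    have hinv : Function.Involutive sg := by
      intro i; fin_cases i <;> rfl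
    have hSr : (starRingEnd ℂ) S = S := by
      have h1 : (starRingEnd ℂ) (∑ i, H i i) = ∑ i, H i i := by
        rw [map_sum]
        have : ∀ i, (starRingEnd ℂ) (H i i) = H (sg i) (sg i) := fun i => (hreal i i).symm
        rw [Finset.sum_congr rfl fun i _ => this i]
        exact Equiv.sum_comp (Function.Involutive.toPerm sg hinv) (fun i => H i i)
      rw [hS, map_div₀, h1]
      simp [map_ofNat]
    have har : a (sg i) = (starRingEnd ℂ) (a i) := by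
      rw [ha]
      simp only [map_sub, map_mul, map_div₀, hSr, Complex.conj_ofReal]
      rw [hreal i i]
      simp [map_ofNat]
    have h2 := hreal' i
    simp only [Pi.add_apply, Pi.smul_apply, smul_eq_mul, map_add, map_mul,
      Complex.conj_ofReal] at h2
    rw [har] at h2
    have h3 := add_left_cancel h2
    exact mul_left_cancel₀ hlamC h3

/-- J10b : the critical point of the model is isolated -/
theorem model_isolated (c : ℝ) (hc : 1 < c) (x : E7) (h : g c x = 0) : x = 0 := by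
  have h1 : ∀ i, x i ^ 2 = c * (∑ j, x j) ^ 2 := by
    intro i
    have := congrFun h i
    simp only [g, Pi.zero_apply] at this
    linear_combination (1 / 3 : ℂ) * this
  have h2 : ∀ i, ∃ t : ℤ, x i = ((2 * t + 1 : ℤ) : ℂ) * x 0 := by
    intro i
    have e : x i ^ 2 = x 0 ^ 2 := by rw [h1 i, h1 0]
    rcases sq_eq_sq_iff_eq_or_eq_neg.1 e with h | h
    · exact ⟨0, by rw [h]; norm_num⟩
    · exact ⟨-1, by rw [h]; norm_num⟩
  choose t ht using h2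
  obtain ⟨k, hk⟩ : ∃ k : ℤ, k = ∑ i, (2 * t i + 1) := ⟨_, rfl⟩
  have hs : ∑ j, x j = (k : ℂ) * x 0 := by
    rw [hk, Int.cast_sum, Finset.sum_mul]
    exact Finset.sum_congr rfl fun i _ => ht i
  have hk0 : k ≠ 0 := by
    intro h0
    rw [h0, Fin.sum_univ_seven] at hk
    omega
  have hx0 : x 0 = 0 := by
    by_contra hne
    have e := h1 0
    rw [hs] at e
    have e2 : (c : ℂ) * (k : ℂ) ^ 2 = 1 := by
      have hne2 : x 0 ^ 2 ≠ 0 := pow_ne_zero 2 hne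
      apply mul_right_cancel₀ hne2
      linear_combination -e
    have e3 : c * (k : ℝ) ^ 2 = 1 := by
      have : ((c * (k : ℝ) ^ 2 : ℝ) : ℂ) = ((1 : ℝ) : ℂ) := by
        push_cast
        exact e2
      exact_mod_cast this
    have e4 : (1 : ℝ) ≤ (k : ℝ) ^ 2 := by
      have h0 : (0 : ℤ) < k ^ 2 := by positivity
      have : (1 : ℤ) ≤ k ^ 2 := by linarith
      exact_mod_cast this
    nlinarith
  funext i
  rw [ht i, hx0, mul_zero, Pi.zero_apply]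

theorem level_one_img (h : ℂ → ℂ) (ρ m : ℝ) (hρ : 0 < ρ) (hm : 0 < m)
    (hd : DiffContOnCl ℂ h (ball 0 ρ)) (h0 : h 0 = 0) (hs : ∀ z : ℂ, ‖z‖ = ρ → m ≤ ‖h z‖) :
    ball 0 (m / 2) ⊆ h '' closedBall 0 ρ := by
  have h1 : ball (h 0) (m / 2) ⊆ h '' closedBall 0 ρ := by
    refine DiffContOnCl.ball_subset_image_closedBall hd hρ ?_ ?_
    · intro z hz
      rw [h0, sub_zero]
      exact hs z (by simpa using hz)
    · by_contra hcon
      rw [Filter.not_frequently] at hcon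
      have h2 : h =ᶠ[𝓝 0] fun _ => 0 := by
        filter_upwards [hcon] with z hz
        rw [not_not] at hz
        rw [hz, h0]
      have h3 : Set.EqOn h (fun _ => 0) (ball 0 ρ) :=
        (hd.differentiableOn.analyticOnNhd isOpen_ball).eqOn_of_preconnected_of_eventuallyEq
          analyticOnNhd_const (convex_ball (0 : ℂ) ρ).isPreconnected (mem_ball_self hρ) h2
      have h4 : Set.EqOn h (fun _ => 0) (closure (ball 0 ρ)) :=
        h3.of_subset_closure hd.continuousOn continuousOn_const subset_closure subset_rfl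
      have h5 : (ρ : ℂ) ∈ closure (ball (0 : ℂ) ρ) := by
        rw [closure_ball _ hρ.ne']
        simp [abs_of_pos hρ]
      have h6 := hs (ρ : ℂ) (by simp [abs_of_pos hρ])
      rw [h4 h5, norm_zero] at h6
      linarith
  rwa [h0] at h1

/-- L1 -/
theorem level_one
    (hJ2a : ∃ α : ℝ, 0 < α ∧ ∀ (Q : Fin 7 → Fin 7 → ℂ), (∀ i j, Q i j = Q j i) → (∀ i, Q i i = 0) →
      ∃ p : E7, Node p ∧ α * ‖Q‖ ≤ ‖∑ i, ∑ j, p i * Q i j * p j‖)
    (hJ2b : ∃ β : ℝ, 0 < β ∧ ∀ (l : E7), ∃ p : E7, Node p ∧ β * ‖l‖ ≤ ‖∑ i, p i * l i‖)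
    (hfix : ∀ (p : E7), Node p → ∀ (Q : Fin 7 → Fin 7 → ℂ), ‖Q‖ ≤ 1 → ∀ (l : E7), ‖l‖ ≤ 1 →
      ∃ y : ℂ → E7, DiffContOnCl ℂ y (ball 0 (1/1000)) ∧
        ∀ z ∈ closedBall (0 : ℂ) (1/1000), ‖y z‖ ≤ 10 ∧ TT p Q l (fun _ _ => 0) z (y z) = y z)
    (hhol : ∀ (p : E7) (Q : Fin 7 → Fin 7 → ℂ) (l : E7) (y : ℂ → E7),
      DiffContOnCl ℂ y (ball 0 (1/1000)) →
      DiffContOnCl ℂ (fun z => z * ww p Q l (fun _ _ => 0) z (y z)) (ball 0 (1/1000)))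
    (hA : ∀ (p : E7), Node p → ∀ (Q : Fin 7 → Fin 7 → ℂ), ‖Q‖ ≤ 1 → ∀ (l : E7), ‖l‖ ≤ 1 →
      ∀ (z : ℂ), ‖z‖ ≤ 1/1000 → ∀ (y : E7), ‖y‖ ≤ 10 →
      ‖ww p Q l (fun _ _ => 0) z y - (1/3) * ∑ i, ∑ j, p i * Q i j * p j‖ ≤ 1000 * ‖z‖)
    (hB : ∀ (p : E7), Node p → ∀ (Q : Fin 7 → Fin 7 → ℂ), ‖Q‖ ≤ 1 → ∀ (l : E7), ‖l‖ ≤ 1 →
      ∀ (z : ℂ), ‖z‖ ≤ 1/1000 → ∀ (y : E7), ‖y‖ ≤ 10 → TT p Q l (fun _ _ => 0) z y = y →
      ‖ww p Q l (fun _ _ => 0) z y - (z/3) * ∑ i, p i * l i‖ ≤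
        100 * ‖Q‖ + 7 * ‖z‖ * (500 * ‖z‖ + 10 * ‖Q‖)^2) :
    ∃ κ0 : ℝ, 0 < κ0 ∧ ∀ κ : ℂ, κ ≠ 0 → ‖κ‖ < κ0 → ∀ (Q : Fin 7 → Fin 7 → ℂ) (l : E7),
      (∀ i j, Q i j = Q j i) → (∀ i, Q i i = 0) → ‖Q‖ ≤ 1 → ‖l‖ ≤ 1 → (‖Q‖ = 1 ∨ ‖l‖ = 1) →
      ∃ p : E7, Node p ∧ ∃ y : ℂ → E7, DiffContOnCl ℂ y (ball 0 (1/1000)) ∧
        (∀ z ∈ closedBall (0 : ℂ) (1/1000), ‖y z‖ ≤ 10 ∧ TT p Q l (fun _ _ => 0) z (y z) = y z) ∧
        ∃ zs : ℂ, zs ≠ 0 ∧ ‖zs‖ ≤ 1/2000 ∧ zs * ww p Q l (fun _ _ => 0) zs (y zs) = κ := by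
  obtain ⟨α0, hα0, hJa⟩ := hJ2a
  obtain ⟨β0, hβ0, hJb⟩ := hJ2b
  obtain ⟨α, hα, hα1, hαα⟩ : ∃ α : ℝ, 0 < α ∧ α ≤ 1 ∧ α ≤ α0 :=
    ⟨min α0 1, lt_min hα0 one_pos, min_le_right _ _, min_le_left _ _⟩
  obtain ⟨β, hβ, hβ1, hββ⟩ : ∃ β : ℝ, 0 < β ∧ β ≤ 1 ∧ β ≤ β0 :=
    ⟨min β0 1, lt_min hβ0 one_pos, min_le_right _ _, min_le_left _ _⟩
  -- the final step
  have hfin : ∀ (ρ m : ℝ), 0 < ρ → ρ ≤ 1 / 2000 → 0 < m → ∀ κ : ℂ, κ ≠ 0 → ‖κ‖ < m / 2 →
      ∀ (Q : Fin 7 → Fin 7 → ℂ) (l : E7) (p : E7) (y : ℂ → E7),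
      DiffContOnCl ℂ y (ball 0 (1/1000)) →
      (∀ z : ℂ, ‖z‖ = ρ → m ≤ ρ * ‖ww p Q l (fun _ _ => 0) z (y z)‖) →
      ∃ zs : ℂ, zs ≠ 0 ∧ ‖zs‖ ≤ 1/2000 ∧ zs * ww p Q l (fun _ _ => 0) zs (y zs) = κ := by
    intro ρ m hρ hρ2 hm κ hκ hκm Q l p y hy hs
    have h1 := hhol p Q l y hy
    have h2 : DiffContOnCl ℂ (fun z => z * ww p Q l (fun _ _ => 0) z (y z)) (ball 0 ρ) :=
      h1.mono (ball_subset_ball (by linarith))
    have h3 := level_one_img (fun z => z * ww p Q l (fun _ _ => 0) z (y z)) ρ m hρ hm h2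
      (by simp) (by
        intro z hz
        show m ≤ ‖z * ww p Q l (fun _ _ => 0) z (y z)‖
        rw [norm_mul, hz]
        exact hs z hz)
    have h4 : κ ∈ ball (0 : ℂ) (m / 2) := by simpa using hκm
    obtain ⟨zs, hzs1, hzs2⟩ := h3 h4
    have hzs2' : zs * ww p Q l (fun _ _ => 0) zs (y zs) = κ := hzs2
    refine ⟨zs, ?_, ?_, hzs2'⟩
    · rintro rfl
      rw [zero_mul] at hzs2'
      exact hκ hzs2'.symm
    · have : ‖zs‖ ≤ ρ := by simpa using hzs1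
      linarith
  set ρB : ℝ := β / 5000 with hρB
  have hρB0 : 0 < ρB := by positivity
  have hρB1 : ρB ≤ 1 / 5000 := by rw [hρB]; linarith
  set η : ℝ := ρB * β / 1200 with hη
  have hη0 : 0 < η := by positivity
  have hηρ : η ≤ ρB / 1200 := by
    rw [hη]
    have : ρB * β ≤ ρB * 1 := mul_le_mul_of_nonneg_left hβ1 hρB0.le
    linarith
  have hη1 : η < 1 := by linarith
  set ρA : ℝ := α * η / 6000 with hρA
  have hρA0 : 0 < ρA := by positivity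
  have hαη : α * η ≤ 1 := by
    calc α * η ≤ 1 * 1 := mul_le_mul hα1 hη1.le hη0.le zero_le_one
      _ = 1 := one_mul 1
  have hρA1 : ρA ≤ 1 / 6000 := by rw [hρA]; linarith
  set mA : ℝ := ρA * (α * η / 6) with hmA
  have hmA0 : 0 < mA := by positivity
  set mB : ℝ := ρB * (ρB * β / 6) with hmB
  have hmB0 : 0 < mB := by positivity
  refine ⟨min mA mB / 2, by positivity, ?_⟩
  intro κ hκ0 hκ Q l hQs hQ0 hQ1 hl1 hor
  have hκA : ‖κ‖ < mA / 2 := lt_of_lt_of_le hκ (by have := min_le_left mA mB; linarith)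
  have hκB : ‖κ‖ < mB / 2 := lt_of_lt_of_le hκ (by have := min_le_right mA mB; linarith)
  rcases le_or_gt ‖Q‖ η with hQη | hQη
  · -- case B
    have hl : ‖l‖ = 1 := by
      rcases hor with h | h
      · linarith
      · exact h
    obtain ⟨p, hp, hpl⟩ := hJb l
    obtain ⟨y, hy, hyz⟩ := hfix p hp Q hQ1 l hl1
    refine ⟨p, hp, y, hy, hyz, ?_⟩
    refine hfin ρB mB hρB0 (by linarith) hmB0 κ hκ0 hκB Q l p y hy ?_
    intro z hz
    rw [hmB]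
    refine mul_le_mul_of_nonneg_left ?_ hρB0.le
    have hzc : z ∈ closedBall (0 : ℂ) (1 / 1000) := by
      simp only [mem_closedBall, dist_zero_right]
      linarith
    obtain ⟨hy10, hyfix⟩ := hyz z hzc
    have h1 := hB p hp Q hQ1 l hl1 z (by linarith) (y z) hy10 hyfix
    have h2 : ρB * β / 3 ≤ ‖(z / 3) * ∑ i, p i * l i‖ := by
      rw [norm_mul, norm_div, hz]
      have h3 : β ≤ ‖∑ i, p i * l i‖ := by
        rw [hl, mul_one] at hpl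
        exact hββ.trans hpl
      have h4 : ‖(3 : ℂ)‖ = 3 := by norm_num
      rw [h4]
      calc ρB * β / 3 = ρB / 3 * β := by ring
        _ ≤ ρB / 3 * ‖∑ i, p i * l i‖ := mul_le_mul_of_nonneg_left h3 (by positivity)
    have h5 : ‖(z / 3) * ∑ i, p i * l i‖ ≤ ‖ww p Q l (fun _ _ => 0) z (y z)‖ +
        ‖ww p Q l (fun _ _ => 0) z (y z) - (z/3) * ∑ i, p i * l i‖ := by
      have h6 := norm_sub_norm_le ((z / 3) * ∑ i, p i * l i) (ww p Q l (fun _ _ => 0) z (y z))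
      rw [norm_sub_rev] at h6
      linarith
    have h7 : 100 * ‖Q‖ + 7 * ‖z‖ * (500 * ‖z‖ + 10 * ‖Q‖)^2 ≤ ρB * β / 12 + ρB * β / 12 := by
      rw [hz]
      have h8 : 100 * ‖Q‖ ≤ ρB * β / 12 := by
        calc 100 * ‖Q‖ ≤ 100 * η := by linarith
          _ = ρB * β / 12 := by rw [hη]; ring
      have h9 : 500 * ρB + 10 * ‖Q‖ ≤ 501 * ρB := by linarith
      have h10 : (500 * ρB + 10 * ‖Q‖) ^ 2 ≤ (501 * ρB) ^ 2 :=
        pow_le_pow_left₀ (by positivity) h9 2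
      have h11 : 7 * ρB * (500 * ρB + 10 * ‖Q‖)^2 ≤ 7 * ρB * (501 * ρB) ^ 2 :=
        mul_le_mul_of_nonneg_left h10 (by positivity)
      have h12 : 7 * ρB * (501 * ρB) ^ 2 ≤ ρB * β / 12 := by
        have h13 : 84 * (501 * ρB) ^ 2 ≤ β := by
          rw [hρB]
          have h14 : β ^ 2 ≤ β := by nlinarith
          nlinarith
        calc 7 * ρB * (501 * ρB) ^ 2 = ρB * (84 * (501 * ρB) ^ 2) / 12 := by ring
          _ ≤ ρB * β / 12 := by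
            have := mul_le_mul_of_nonneg_left h13 hρB0.le
            linarith
      linarith
    linarith
  · -- case A
    obtain ⟨p, hp, hpQ⟩ := hJa Q hQs hQ0
    obtain ⟨y, hy, hyz⟩ := hfix p hp Q hQ1 l hl1
    refine ⟨p, hp, y, hy, hyz, ?_⟩
    refine hfin ρA mA hρA0 (by linarith) hmA0 κ hκ0 hκA Q l p y hy ?_
    intro z hz
    rw [hmA]
    refine mul_le_mul_of_nonneg_left ?_ hρA0.le
    have hzc : z ∈ closedBall (0 : ℂ) (1 / 1000) := by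
      simp only [mem_closedBall, dist_zero_right]
      linarith
    obtain ⟨hy10, hyfix⟩ := hyz z hzc
    have h1 := hA p hp Q hQ1 l hl1 z (by linarith) (y z) hy10
    have h2 : α * η / 3 ≤ ‖(1 / 3 : ℂ) * ∑ i, ∑ j, p i * Q i j * p j‖ := by
      rw [norm_mul]
      have h3 : α * η ≤ ‖∑ i, ∑ j, p i * Q i j * p j‖ := by
        refine le_trans ?_ hpQ
        exact mul_le_mul hαα hQη.le hη0.le hα0.le
      have h4 : ‖(1 / 3 : ℂ)‖ = 1 / 3 := by norm_num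
      rw [h4]
      linarith
    have h5 : ‖(1 / 3 : ℂ) * ∑ i, ∑ j, p i * Q i j * p j‖ ≤ ‖ww p Q l (fun _ _ => 0) z (y z)‖ +
        ‖ww p Q l (fun _ _ => 0) z (y z) - (1/3) * ∑ i, ∑ j, p i * Q i j * p j‖ := by
      have h6 := norm_sub_norm_le ((1 / 3 : ℂ) * ∑ i, ∑ j, p i * Q i j * p j) (ww p Q l (fun _ _ => 0) z (y z))
      rw [norm_sub_rev] at h6
      linarith
    have h7 : 1000 * ‖z‖ = α * η / 6 := by
      rw [hz, hρA]
      ring
    linarith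

/-- closeness of fixed points -/
theorem fixed_close {F : Type*} [NormedAddCommGroup F] (T T' : F → F) (Y δ : ℝ)
    (hlip : ∀ y ∈ closedBall (0 : F) Y, ∀ y' ∈ closedBall (0 : F) Y,
      ‖T y - T y'‖ ≤ (1/2) * ‖y - y'‖)
    (hclose : ∀ y ∈ closedBall (0 : F) Y, ‖T y - T' y‖ ≤ δ)
    (y y' : F) (hy : y ∈ closedBall (0 : F) Y) (hy' : y' ∈ closedBall (0 : F) Y)
    (h : T y = y) (h' : T' y' = y') : ‖y - y'‖ ≤ 2 * δ := by
  have h1 : ‖y - y'‖ ≤ ‖T y - T y'‖ + ‖T y' - T' y'‖ := by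
    calc ‖y - y'‖ = ‖(T y - T y') + (T y' - T' y')‖ := by rw [h, h']; congr 1; abel
      _ ≤ _ := norm_add_le _ _
  have h2 := hlip y hy y' hy'
  have h3 := hclose y' hy'
  linarith

end RM
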