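import Pool.Agent.Helper787.RMMilnor
set_option autoImplicit false

namespace RealMorsification
open Filter Topology Metric

/-- weighted ℓ¹ norm of a polynomial -/
noncomputable def nm {n : ℕ} (ρ : ℝ) (p : MvPolynomial (Fin n) ℂ) : ℝ :=
  ∑ α ∈ p.support, ‖p.coeff α‖ * ρ ^ α.degree

theorem nm_eq_sum_of_subset {n : ℕ} (ρ : ℝ) (p : MvPolynomial (Fin n) ℂ)
    (s : Finset (Fin n →₀ ℕ)) (hs : p.support ⊆ s) :
    nm ρ p = ∑ α ∈ s, ‖p.coeff α‖ * ρ ^ α.degree := by
  unfold nm
  refine Finset.sum_subset hs fun α _ hα => ?_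
  rw [MvPolynomial.notMem_support_iff.mp hα, norm_zero, zero_mul]

/-- N0a -/
theorem nm_nonneg {n : ℕ} (ρ : ℝ) (hρ : 0 ≤ ρ) (p : MvPolynomial (Fin n) ℂ) : 0 ≤ nm ρ p := by
  unfold nm
  exact Finset.sum_nonneg fun α _ => mul_nonneg (norm_nonneg _) (pow_nonneg hρ _)

/-- N0b -/
theorem nm_add {n : ℕ} (ρ : ℝ) (hρ : 0 ≤ ρ) (p q : MvPolynomial (Fin n) ℂ) :
    nm ρ (p + q) ≤ nm ρ p + nm ρ q := by
  classical
  rw [nm_eq_sum_of_subset ρ (p + q) (p.support ∪ q.support) MvPolynomial.support_add,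
    nm_eq_sum_of_subset ρ p (p.support ∪ q.support) Finset.subset_union_left,
    nm_eq_sum_of_subset ρ q (p.support ∪ q.support) Finset.subset_union_right,
    ← Finset.sum_add_distrib]
  refine Finset.sum_le_sum fun α _ => ?_
  rw [← add_mul, MvPolynomial.coeff_add]
  exact mul_le_mul_of_nonneg_right (norm_add_le _ _) (pow_nonneg hρ _)

/-- N0c -/
theorem nm_sum {n : ℕ} {ι : Type*} (ρ : ℝ) (hρ : 0 ≤ ρ) (s : Finset ι) (p : ι → MvPolynomial (Fin n) ℂ) :
    nm ρ (∑ i ∈ s, p i) ≤ ∑ i ∈ s, nm ρ (p i) := by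
  classical
  induction s using Finset.induction_on with
  | empty => simp [nm]
  | insert a s ha ih =>
    rw [Finset.sum_insert ha, Finset.sum_insert ha]
    exact (nm_add ρ hρ _ _).trans (by linarith)

/-- N0d -/
theorem nm_monomial {n : ℕ} (ρ : ℝ) (α : Fin n →₀ ℕ) (a : ℂ) :
    nm ρ (MvPolynomial.monomial α a) = ‖a‖ * ρ ^ α.degree := by
  classical
  rw [nm_eq_sum_of_subset ρ _ {α} MvPolynomial.support_monomial_subset, Finset.sum_singleton,
    MvPolynomial.coeff_monomial, if_pos rfl]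

/-- N0e -/
theorem nm_mul {n : ℕ} (ρ : ℝ) (hρ : 0 ≤ ρ) (p q : MvPolynomial (Fin n) ℂ) :
    nm ρ (p * q) ≤ nm ρ p * nm ρ q := by
  have hpq : p * q = ∑ α ∈ p.support, ∑ β ∈ q.support,
      MvPolynomial.monomial (α + β) (p.coeff α * q.coeff β) := by
    conv_lhs => rw [MvPolynomial.as_sum p, MvPolynomial.as_sum q]
    rw [Finset.sum_mul_sum]
    refine Finset.sum_congr rfl fun α _ => Finset.sum_congr rfl fun β _ => ?_
    rw [MvPolynomial.monomial_mul]
  rw [hpq]
  refine (nm_sum ρ hρ _ _).trans ?_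
  have h1 : nm ρ p * nm ρ q = ∑ α ∈ p.support, ∑ β ∈ q.support,
      (‖p.coeff α‖ * ρ ^ α.degree) * (‖q.coeff β‖ * ρ ^ β.degree) := by
    unfold nm
    rw [Finset.sum_mul_sum]
  rw [h1]
  refine Finset.sum_le_sum fun α _ => ?_
  refine (nm_sum ρ hρ _ _).trans ?_
  refine Finset.sum_le_sum fun β _ => ?_
  rw [nm_monomial, norm_mul, map_add, pow_add]
  apply le_of_eq
  ring

/-- N0f -/
theorem nm_eval {n : ℕ} (ρ : ℝ) (hρ : 0 ≤ ρ) (p : MvPolynomial (Fin n) ℂ) (z : Fin n → ℂ) (hz : ‖z‖ ≤ ρ) :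
    ‖MvPolynomial.aeval z p‖ ≤ nm ρ p := by
  rw [MvPolynomial.aeval_def, MvPolynomial.eval₂_eq]
  refine (norm_sum_le _ _).trans ?_
  unfold nm
  apply Finset.sum_le_sum
  intro α _
  rw [norm_mul, Algebra.algebraMap_self, RingHom.id_apply]
  apply mul_le_mul_of_nonneg_left _ (norm_nonneg _)
  rw [norm_prod]
  have h1 : ρ ^ α.degree = ∏ i ∈ α.support, ρ ^ α i := by
    rw [Finset.prod_pow_eq_pow_sum]
    rfl
  rw [h1]
  apply Finset.prod_le_prod
  · intro i _
    exact norm_nonneg _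
  · intro i _
    rw [norm_pow]
    exact pow_le_pow_left₀ (norm_nonneg _) ((norm_le_pi_norm z i).trans hz) _

theorem mem_of_conv_mem_aux {n : ℕ} (I : Ideal (MvPolynomial (Fin n) ℂ)) (K : ℕ)
    (hK : ∀ i, (MvPolynomial.X i : MvPolynomial (Fin n) ℂ) ^ K ∈ I)
    (r : MvPolynomial (Fin n) ℂ)
    (hr : ∀ α : Fin n →₀ ℕ, α.degree < n * K + 1 → r.coeff α = 0) : r ∈ I := by
  classical
  rw [← MvPolynomial.support_sum_monomial_coeff r]
  refine Ideal.sum_mem _ (fun v hv => ?_)
  have hdeg : n * K + 1 ≤ v.degree := by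
    by_contra hlt
    push Not at hlt
    exact (MvPolynomial.mem_support_iff.1 hv) (hr v hlt)
  have hex : ∃ i, K ≤ v i := by
    by_contra hcon
    push Not at hcon
    rw [Finsupp.degree_eq_sum] at hdeg
    have h1 : ∑ i, v i ≤ ∑ _i : Fin n, K := Finset.sum_le_sum (fun i _ => (hcon i).le)
    rw [Finset.sum_const, Finset.card_univ, Fintype.card_fin, smul_eq_mul] at h1
    omega
  obtain ⟨i, hi⟩ := hex
  have h1 : MvPolynomial.monomial v (r.coeff v) =
      MvPolynomial.monomial (v - Finsupp.single i K) (r.coeff v) *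
        (MvPolynomial.X i : MvPolynomial (Fin n) ℂ) ^ K := by
    rw [MvPolynomial.X_pow_eq_monomial, MvPolynomial.monomial_mul, mul_one,
      tsub_add_cancel_of_le (Finsupp.single_le_iff.2 hi)]
  rw [h1]
  exact I.mul_mem_left _ (hK i)

/-- N1a : contraction of the ideal of convergent power series -/
theorem mem_of_conv_mem {n : ℕ} (q : Fin n → MvPolynomial (Fin n) ℂ) (K : ℕ)
    (hK : ∀ i, (MvPolynomial.X i : MvPolynomial (Fin n) ℂ) ^ K ∈ Ideal.span (Set.range q))
    (p : MvPolynomial (Fin n) ℂ) (hp : toConv p ∈ Ideal.span (Set.range fun i => toConv (q i))) :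
    p ∈ Ideal.span (Set.range q) := by
  classical
  obtain ⟨a, ha⟩ := Ideal.mem_span_range_iff_exists_fun.1 hp
  have ha2 : ∑ i, (a i : MvPowerSeries (Fin n) ℂ) * (q i : MvPowerSeries (Fin n) ℂ) =
      (p : MvPowerSeries (Fin n) ℂ) := by
    have h1 := congrArg (Conv n).val ha
    rw [map_sum] at h1
    simp only [map_mul] at h1
    exact h1
  set b : Fin n → MvPolynomial (Fin n) ℂ :=
    fun i => MvPowerSeries.truncTotal (n * K + 1) (a i : MvPowerSeries (Fin n) ℂ) with hb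
  have hr : p - ∑ i, b i * q i ∈ Ideal.span (Set.range q) := by
    refine mem_of_conv_mem_aux _ K hK _ (fun α hα => ?_)
    rw [MvPolynomial.coeff_sub, MvPolynomial.coeff_sum, sub_eq_zero, ← MvPolynomial.coeff_coe,
      ← ha2, map_sum]
    refine Finset.sum_congr rfl (fun i _ => ?_)
    rw [MvPolynomial.coeff_mul, MvPowerSeries.coeff_mul]
    refine Finset.sum_congr rfl (fun x hx => ?_)
    have hx2 := Finset.HasAntidiagonal.mem_antidiagonal.1 hx
    have hdeg : x.1.degree < n * K + 1 := by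
      rw [← hx2, map_add] at hα
      omega
    rw [hb, MvPowerSeries.coeff_truncTotal _ hdeg, MvPolynomial.coeff_coe]
  have hs : ∑ i, b i * q i ∈ Ideal.span (Set.range q) :=
    Ideal.sum_mem _ (fun i _ => Ideal.mul_mem_left _ _ (Ideal.subset_span ⟨i, rfl⟩))
  have := Ideal.add_mem _ hr hs
  rwa [sub_add_cancel] at this

theorem N1b_step {n : ℕ} (K : ℕ) (i : Fin n) (φ : Conv n) : ∃ ψ : Conv n, ∀ α,
    MvPowerSeries.coeff α
      ((φ - toConv ((MvPolynomial.X i : MvPolynomial (Fin n) ℂ) ^ K) * ψ : Conv n) :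
        MvPowerSeries (Fin n) ℂ) =
      if α i < K then MvPowerSeries.coeff α (φ : MvPowerSeries (Fin n) ℂ) else 0 := by
  obtain ⟨M, ρ, hM, hρ, h⟩ := φ.2
  obtain ⟨D, hDdef⟩ : ∃ D : MvPowerSeries (Fin n) ℂ, ∀ β, MvPowerSeries.coeff β D =
      MvPowerSeries.coeff (β + Finsupp.single i K) (φ : MvPowerSeries (Fin n) ℂ) :=
    ⟨fun β => MvPowerSeries.coeff (β + Finsupp.single i K) (φ : MvPowerSeries (Fin n) ℂ),
      fun β => rfl⟩
  have hD : ConvCond D := by
    refine ⟨M * ρ ^ K, ρ, by positivity, hρ, fun β => ?_⟩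
    have h1 := h (β + Finsupp.single i K)
    have h2 : (β + Finsupp.single i K).degree = β.degree + K := by
      rw [map_add, Finsupp.degree_single]
    rw [h2, pow_add] at h1
    rw [hDdef]
    calc _ ≤ M * (ρ ^ β.degree * ρ ^ K) := h1
      _ = M * ρ ^ K * ρ ^ β.degree := by ring
  refine ⟨⟨D, hD⟩, fun α => ?_⟩
  have e1 : ((φ - toConv ((MvPolynomial.X i : MvPolynomial (Fin n) ℂ) ^ K) * ⟨D, hD⟩ : Conv n) :
        MvPowerSeries (Fin n) ℂ) = (φ : MvPowerSeries (Fin n) ℂ) -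
        MvPowerSeries.monomial (Finsupp.single i K) 1 * D := by
    show (φ : MvPowerSeries (Fin n) ℂ) - (((MvPolynomial.X i : MvPolynomial (Fin n) ℂ) ^ K :
      MvPolynomial (Fin n) ℂ) : MvPowerSeries (Fin n) ℂ) * _ = _
    rw [MvPolynomial.coe_pow, MvPolynomial.coe_X, MvPowerSeries.X_pow_eq]
  rw [e1, map_sub, MvPowerSeries.coeff_monomial_mul]
  by_cases hα : α i < K
  · rw [if_pos hα, if_neg, sub_zero]
    rw [Finsupp.single_le_iff]
    omega
  · rw [if_neg hα, if_pos, one_mul, hDdef, tsub_add_cancel_of_le, sub_self]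
    · rw [Finsupp.single_le_iff]
      omega
    · rw [Finsupp.single_le_iff]
      omega

theorem N1b_iter {n : ℕ} (J : Ideal (Conv n)) (K : ℕ)
    (hJ : ∀ i, toConv ((MvPolynomial.X i : MvPolynomial (Fin n) ℂ) ^ K) ∈ J) (φ : Conv n)
    (S : Finset (Fin n)) : ∃ χ : Conv n, φ - χ ∈ J ∧ ∀ α,
      MvPowerSeries.coeff α (χ : MvPowerSeries (Fin n) ℂ) =
        if ∀ i ∈ S, α i < K then MvPowerSeries.coeff α (φ : MvPowerSeries (Fin n) ℂ) else 0 := by
  classical
  induction S using Finset.induction_on with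
  | empty =>
    refine ⟨φ, by simp, fun α => ?_⟩
    simp
  | insert i S hi ih =>
    obtain ⟨χ, h1, h2⟩ := ih
    obtain ⟨ψ, h3⟩ := N1b_step K i χ
    refine ⟨χ - toConv ((MvPolynomial.X i : MvPolynomial (Fin n) ℂ) ^ K) * ψ, ?_, fun α => ?_⟩
    · have h4 : φ - (χ - toConv ((MvPolynomial.X i : MvPolynomial (Fin n) ℂ) ^ K) * ψ) =
          (φ - χ) + toConv ((MvPolynomial.X i : MvPolynomial (Fin n) ℂ) ^ K) * ψ := by ring
      rw [h4]
      exact J.add_mem h1 (J.mul_mem_right _ (hJ i))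
    · rw [h3, h2]
      simp only [Finset.mem_insert, forall_eq_or_imp]
      by_cases ha : α i < K
      · simp [ha]
      · simp [ha]

/-- polynomials as convergent power series, ring hom -/
noncomputable def N1b_hom (n : ℕ) : MvPolynomial (Fin n) ℂ →+* Conv n where
  toFun := toConv
  map_one' := Subtype.ext (by show ((1 : MvPolynomial (Fin n) ℂ) : MvPowerSeries (Fin n) ℂ) = 1; exact MvPolynomial.coe_one)
  map_mul' := fun p q => Subtype.ext (by
    show ((p * q : MvPolynomial (Fin n) ℂ) : MvPowerSeries (Fin n) ℂ) = (p : MvPowerSeries (Fin n) ℂ) * q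
    exact MvPolynomial.coe_mul _ _)
  map_zero' := Subtype.ext (by show ((0 : MvPolynomial (Fin n) ℂ) : MvPowerSeries (Fin n) ℂ) = 0; exact MvPolynomial.coe_zero)
  map_add' := fun p q => Subtype.ext (by
    show ((p + q : MvPolynomial (Fin n) ℂ) : MvPowerSeries (Fin n) ℂ) = (p : MvPowerSeries (Fin n) ℂ) + q
    exact MvPolynomial.coe_add _ _)

lemma N1b_hom_apply {n : ℕ} (p : MvPolynomial (Fin n) ℂ) : N1b_hom n p = toConv p := rfl

lemma N1b_C {n : ℕ} (c : ℂ) (p : MvPolynomial (Fin n) ℂ) :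
    toConv (MvPolynomial.C c * p) = c • toConv p := by
  apply Subtype.ext
  show ((MvPolynomial.C c * p : MvPolynomial (Fin n) ℂ) : MvPowerSeries (Fin n) ℂ) = c • (p : MvPowerSeries (Fin n) ℂ)
  rw [MvPolynomial.coe_mul, MvPolynomial.coe_C]
  ext α
  rw [MvPowerSeries.coeff_C_mul, map_smul, smul_eq_mul]

lemma N1b_surj {n : ℕ} (J : Ideal (Conv n)) (K : ℕ)
    (hJ : ∀ i, toConv ((MvPolynomial.X i : MvPolynomial (Fin n) ℂ) ^ K) ∈ J) (x : Conv n ⧸ J) :
    ∃ p : MvPolynomial (Fin n) ℂ, Ideal.Quotient.mk J (toConv p) = x := by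
  classical
  set box : Finset (Fin n →₀ ℕ) :=
    (Finset.Icc 0 (Finsupp.equivFunOnFinite.symm fun _ : Fin n => K)).filter
      (fun α => ∀ i, α i < K) with hbox
  have hmem : ∀ α : Fin n →₀ ℕ, α ∈ box ↔ ∀ i, α i < K := by
    intro α
    rw [hbox, Finset.mem_filter, Finset.mem_Icc]
    constructor
    · exact fun h => h.2
    · intro h
      refine ⟨⟨bot_le, fun i => ?_⟩, h⟩
      simpa using (h i).le
  obtain ⟨φ, rfl⟩ := Ideal.Quotient.mk_surjective x
  obtain ⟨χ, h1, h2⟩ := N1b_iter J K hJ φ Finset.univ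
  refine ⟨∑ α ∈ box, MvPolynomial.monomial α (MvPowerSeries.coeff α (φ : MvPowerSeries (Fin n) ℂ)), ?_⟩
  have h3 : Ideal.Quotient.mk J φ = Ideal.Quotient.mk J χ := (Ideal.Quotient.mk_eq_mk_iff_sub_mem _ _).2 h1
  rw [h3]
  congr 1
  apply Subtype.ext
  ext β
  rw [h2]
  show MvPowerSeries.coeff β ((∑ α ∈ box, MvPolynomial.monomial α (MvPowerSeries.coeff α (φ : MvPowerSeries (Fin n) ℂ)) :
    MvPolynomial (Fin n) ℂ) : MvPowerSeries (Fin n) ℂ) = _
  rw [MvPolynomial.coeff_coe, MvPolynomial.coeff_sum]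
  simp only [MvPolynomial.coeff_monomial]
  rw [Finset.sum_ite_eq']
  simp only [Finset.mem_univ, forall_true_left, hmem]

/-- N1b : polynomials represent a basis of the quotient -/
theorem exists_poly_basis {n : ℕ} (q : Fin n → MvPolynomial (Fin n) ℂ) (K : ℕ)
    (hK : ∀ i, (MvPolynomial.X i : MvPolynomial (Fin n) ℂ) ^ K ∈ Ideal.span (Set.range q)) :
    ∃ S : Fin (Module.finrank ℂ (Conv n ⧸ (Ideal.span (Set.range fun i => toConv (q i))))) →
        MvPolynomial (Fin n) ℂ,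
      ∀ h : MvPolynomial (Fin n) ℂ, ∃ c : Fin (Module.finrank ℂ (Conv n ⧸
          (Ideal.span (Set.range fun i => toConv (q i))))) → ℂ,
        ∃ b : Fin n → MvPolynomial (Fin n) ℂ, h = ∑ s, MvPolynomial.C (c s) * S s + ∑ i, b i * q i := by
  classical
  set J : Ideal (Conv n) := Ideal.span (Set.range fun i => toConv (q i)) with hJdef
  have hJ : ∀ i, toConv ((MvPolynomial.X i : MvPolynomial (Fin n) ℂ) ^ K) ∈ J := by
    intro i
    have h1 := Ideal.mem_map_of_mem (N1b_hom n) (hK i)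
    rw [Ideal.map_span, ← Set.range_comp] at h1
    exact h1
  haveI : Module.Finite ℂ (Conv n ⧸ J) := finite_quotient J K hJ
  let v := Module.finBasis ℂ (Conv n ⧸ J)
  choose S hS using fun s => N1b_surj J K hJ (v s)
  refine ⟨S, ?_⟩
  intro h
  refine ⟨fun s => v.repr (Ideal.Quotient.mk J (toConv h)) s, ?_⟩
  have h1 : toConv (h - ∑ s, MvPolynomial.C (v.repr (Ideal.Quotient.mk J (toConv h)) s) * S s) ∈ J := by
    rw [← Ideal.Quotient.eq_zero_iff_mem, ← N1b_hom_apply, map_sub, map_sub, map_sum, map_sum, sub_eq_zero]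
    have h2 := v.sum_repr (Ideal.Quotient.mk J (toConv h))
    rw [N1b_hom_apply]
    conv_lhs => rw [← h2]
    apply Finset.sum_congr rfl
    intro s _
    rw [N1b_hom_apply, N1b_C]
    have h3 : Ideal.Quotient.mk J ((v.repr (Ideal.Quotient.mk J (toConv h)) s) • toConv (S s)) =
        (v.repr (Ideal.Quotient.mk J (toConv h)) s) • Ideal.Quotient.mk J (toConv (S s)) := rfl
    rw [h3, hS]
  have h4 := mem_of_conv_mem q K hK _ h1
  obtain ⟨b, hb⟩ := (Ideal.mem_span_range_iff_exists_fun).1 h4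
  refine ⟨b, ?_⟩
  rw [hb]
  ring

theorem h24437_mon {n : ℕ} (q : Fin n → MvPolynomial (Fin n) ℂ) (K : ℕ)
    (hK : ∀ i, (MvPolynomial.X i : MvPolynomial (Fin n) ℂ) ^ K ∈ Ideal.span (Set.range q))
    (m : ℕ) (S : Fin m → MvPolynomial (Fin n) ℂ)
    (hS : ∀ h : MvPolynomial (Fin n) ℂ, ∃ c : Fin m → ℂ,
        ∃ b : Fin n → MvPolynomial (Fin n) ℂ, h = ∑ s, MvPolynomial.C (c s) * S s + ∑ i, b i * q i)
    (ρ : ℝ) (hρ : 0 < ρ) :
    ∃ C : ℝ, 0 < C ∧ ∀ α : Fin n →₀ ℕ, ∃ c : Fin m → ℂ, ∃ b : Fin n → MvPolynomial (Fin n) ℂ,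
      MvPolynomial.monomial α (1 : ℂ) = ∑ s, MvPolynomial.C (c s) * S s + ∑ i, b i * q i ∧
        ∀ i, nm ρ (b i) ≤ C * ρ ^ α.degree := by
  classical
  have hB : ∀ i, ∃ B : Fin n → MvPolynomial (Fin n) ℂ, ∑ j, B j * q j = MvPolynomial.X i ^ K := by
    intro i
    exact (Ideal.mem_span_range_iff_exists_fun).mp (hK i)
  choose B hB using hB
  choose c0 b0 h0 using fun α : Fin n →₀ ℕ => hS (MvPolynomial.monomial α (1 : ℂ))
  set box : Finset (Fin n →₀ ℕ) :=
    Finset.Iic (Finsupp.equivFunOnFinite.symm (fun _ : Fin n => K)) with hbox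
  set C1 : ℝ := ∑ α ∈ box, ∑ i, nm ρ (b0 α i) / ρ ^ α.degree with hC1
  set C2 : ℝ := ∑ i, ∑ j, nm ρ (B i j) / ρ ^ K with hC2
  have p1 : ∀ (α : Fin n →₀ ℕ) (i : Fin n), 0 ≤ nm ρ (b0 α i) / ρ ^ α.degree :=
    fun α i => div_nonneg (nm_nonneg ρ hρ.le _) (by positivity)
  have p2 : ∀ i j, 0 ≤ nm ρ (B i j) / ρ ^ K :=
    fun i j => div_nonneg (nm_nonneg ρ hρ.le _) (by positivity)
  have q1 : 0 ≤ C1 := Finset.sum_nonneg (fun α _ => Finset.sum_nonneg (fun i _ => p1 α i))
  have q2 : 0 ≤ C2 := Finset.sum_nonneg (fun α _ => Finset.sum_nonneg (fun i _ => p2 α i))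
  refine ⟨C1 + C2 + 1, by linarith, fun α => ?_⟩
  have hpow : 0 < ρ ^ α.degree := by positivity
  by_cases hα : α ∈ box
  · refine ⟨c0 α, b0 α, h0 α, fun i => ?_⟩
    have h1 : nm ρ (b0 α i) / ρ ^ α.degree ≤ C1 := by
      refine le_trans (Finset.single_le_sum (f := fun i => nm ρ (b0 α i) / ρ ^ α.degree)
        (fun i _ => p1 α i) (Finset.mem_univ i)) ?_
      exact Finset.single_le_sum (f := fun α : Fin n →₀ ℕ => ∑ i, nm ρ (b0 α i) / ρ ^ α.degree)
        (fun α _ => Finset.sum_nonneg (fun i _ => p1 α i)) hα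
    rw [div_le_iff₀ hpow] at h1
    refine h1.trans ?_
    apply mul_le_mul_of_nonneg_right _ hpow.le
    linarith
  · have hex : ∃ i, K < α i := by
      by_contra hcon
      push Not at hcon
      apply hα
      rw [hbox, Finset.mem_Iic]
      intro i
      simpa using hcon i
    obtain ⟨i, hi⟩ := hex
    have e : (α - Finsupp.single i K) + Finsupp.single i K = α :=
      tsub_add_cancel_of_le (Finsupp.single_le_iff.mpr hi.le)
    refine ⟨0, fun j => MvPolynomial.monomial (α - Finsupp.single i K) 1 * B i j, ?_, fun j => ?_⟩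
    · have h2 : MvPolynomial.monomial α (1 : ℂ) =
          MvPolynomial.monomial (α - Finsupp.single i K) 1 * MvPolynomial.X i ^ K := by
        rw [MvPolynomial.X_pow_eq_monomial, MvPolynomial.monomial_mul, one_mul, e]
      rw [h2, ← hB i, Finset.mul_sum]
      simp [mul_assoc]
    · refine (nm_mul ρ hρ.le _ _).trans ?_
      rw [nm_monomial]
      have h3 : (α - Finsupp.single i K).degree + K = α.degree := by
        conv_rhs => rw [← e]
        rw [map_add, Finsupp.degree_single]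
      have h4 : nm ρ (B i j) / ρ ^ K ≤ C2 := by
        refine le_trans (Finset.single_le_sum (f := fun j => nm ρ (B i j) / ρ ^ K)
          (fun j _ => p2 i j) (Finset.mem_univ j)) ?_
        exact Finset.single_le_sum (f := fun i => ∑ j, nm ρ (B i j) / ρ ^ K)
          (fun i _ => Finset.sum_nonneg (fun j _ => p2 i j)) (Finset.mem_univ i)
      rw [div_le_iff₀ (by positivity)] at h4
      rw [← h3, pow_add]
      have h5 : 0 ≤ ρ ^ (α - Finsupp.single i K).degree := by positivity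
      calc ‖(1 : ℂ)‖ * ρ ^ (α - Finsupp.single i K).degree * nm ρ (B i j)
          = ρ ^ (α - Finsupp.single i K).degree * nm ρ (B i j) := by simp
        _ ≤ ρ ^ (α - Finsupp.single i K).degree * (C2 * ρ ^ K) :=
            mul_le_mul_of_nonneg_left h4 h5
        _ = C2 * (ρ ^ (α - Finsupp.single i K).degree * ρ ^ K) := by ring
        _ ≤ (C1 + C2 + 1) * (ρ ^ (α - Finsupp.single i K).degree * ρ ^ K) := by
            apply mul_le_mul_of_nonneg_right _ (by positivity)
            linarith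

/-- N1c : bounded division -/
theorem division {n : ℕ} (q : Fin n → MvPolynomial (Fin n) ℂ) (K : ℕ)
    (hK : ∀ i, (MvPolynomial.X i : MvPolynomial (Fin n) ℂ) ^ K ∈ Ideal.span (Set.range q))
    (m : ℕ) (S : Fin m → MvPolynomial (Fin n) ℂ)
    (hS : ∀ h : MvPolynomial (Fin n) ℂ, ∃ c : Fin m → ℂ,
        ∃ b : Fin n → MvPolynomial (Fin n) ℂ, h = ∑ s, MvPolynomial.C (c s) * S s + ∑ i, b i * q i)
    (ρ : ℝ) (hρ : 0 < ρ) :
    ∃ C : ℝ, 0 < C ∧ ∀ h : MvPolynomial (Fin n) ℂ, ∃ c : Fin m → ℂ,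
        ∃ b : Fin n → MvPolynomial (Fin n) ℂ, h = ∑ s, MvPolynomial.C (c s) * S s + ∑ i, b i * q i ∧
          ∀ i, nm ρ (b i) ≤ C * nm ρ h := by
  obtain ⟨C, hC, hmon⟩ := h24437_mon q K hK m S hS ρ hρ
  choose cc bb hrep hbd using hmon
  refine ⟨C, hC, fun h => ?_⟩
  refine ⟨fun s => ∑ α ∈ h.support, h.coeff α * cc α s,
    fun i => ∑ α ∈ h.support, MvPolynomial.C (h.coeff α) * bb α i, ?_, fun i => ?_⟩
  · have e1 : ∑ α ∈ h.support, MvPolynomial.C (h.coeff α) *
        (∑ s, MvPolynomial.C (cc α s) * S s + ∑ i, bb α i * q i) = h := by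
      conv_rhs => rw [← MvPolynomial.support_sum_monomial_coeff h]
      apply Finset.sum_congr rfl
      intro α _
      rw [← hrep α, MvPolynomial.C_mul_monomial, mul_one]
    conv_lhs => rw [← e1]
    simp only [mul_add, Finset.sum_add_distrib, Finset.mul_sum, Finset.sum_mul, map_sum, map_mul]
    congr 1
    · rw [Finset.sum_comm]
      apply Finset.sum_congr rfl
      intro s _
      apply Finset.sum_congr rfl
      intro α _
      ring
    · rw [Finset.sum_comm]
      apply Finset.sum_congr rfl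
      intro s _
      apply Finset.sum_congr rfl
      intro α _
      ring
  · refine (nm_sum ρ hρ.le _ _).trans ?_
    unfold nm
    rw [Finset.mul_sum]
    apply Finset.sum_le_sum
    intro α _
    have h1 := nm_mul ρ hρ.le (MvPolynomial.C (h.coeff α)) (bb α i)
    have h2 : nm ρ (MvPolynomial.C (h.coeff α) : MvPolynomial (Fin n) ℂ) = ‖h.coeff α‖ := by
      have := nm_monomial ρ (0 : Fin n →₀ ℕ) (h.coeff α)
      rw [map_zero, pow_zero, mul_one] at this
      exact this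
    rw [h2] at h1
    have h3 := mul_le_mul_of_nonneg_left (hbd α i) (norm_nonneg (h.coeff α))
    have h4 := h1.trans h3
    unfold nm at h4
    refine h4.trans (le_of_eq ?_)
    ring

theorem cz_lam {m : ℕ} (a : Fin (m + 1) → Fin m → ℂ) :
    ∃ lam : Fin (m + 1) → ℂ, lam ≠ 0 ∧ ∀ s, ∑ j, lam j * a j s = 0 := by
  let T : (Fin (m + 1) → ℂ) →ₗ[ℂ] (Fin m → ℂ) :=
    { toFun := fun lam s => ∑ j, lam j * a j s
      map_add' := by
        intro x y
        funext s
        simp only [Pi.add_apply, add_mul, Finset.sum_add_distrib]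
      map_smul' := by
        intro c x
        funext s
        simp only [Pi.smul_apply, smul_eq_mul, RingHom.id_apply, Finset.mul_sum, mul_assoc] }
  have hker : LinearMap.ker T ≠ ⊥ := by
    apply LinearMap.ker_ne_bot_of_finrank_lt
    simp
  obtain ⟨lam, h1, h2⟩ := Submodule.exists_mem_ne_zero_of_ne_bot hker
  refine ⟨lam, h2, fun s => ?_⟩
  have h3 : T lam = 0 := h1
  exact congrFun h3 s

/-- N2 : counting the common zeros of a small perturbation -/
theorem count_zeros {n : ℕ} (q : Fin n → MvPolynomial (Fin n) ℂ)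
    (m : ℕ) (S : Fin m → MvPolynomial (Fin n) ℂ) (ρ : ℝ) (hρ : 0 < ρ) (C : ℝ) (hC : 0 < C)
    (hdiv : ∀ h : MvPolynomial (Fin n) ℂ, ∃ c : Fin m → ℂ,
        ∃ b : Fin n → MvPolynomial (Fin n) ℂ, h = ∑ s, MvPolynomial.C (c s) * S s + ∑ i, b i * q i ∧
          ∀ i, nm ρ (b i) ≤ C * nm ρ h)
    (η : ℝ) (hη : 0 ≤ η) (hsmall : n * C * η < 1)
    (z : Fin (m + 1) → (Fin n → ℂ)) (hz : ∀ j, ‖z j‖ ≤ ρ) (hinj : Function.Injective z)
    (e : Fin n → (Fin n → ℂ) → ℂ) (hzero : ∀ i j, MvPolynomial.aeval (z j) (q i) + e i (z j) = 0)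
    (E : Fin n → ℕ → MvPolynomial (Fin n) ℂ) (hE : ∀ i k, nm ρ (E i k) ≤ η)
    (hlim : ∀ i j, Tendsto (fun k => MvPolynomial.aeval (z j) (E i k)) atTop (𝓝 (e i (z j)))) :
    False := by
  classical
  obtain ⟨lam, hlam, hS⟩ := cz_lam (fun j s => MvPolynomial.aeval (z j) (S s))
  obtain ⟨L, hL⟩ : ∃ L : MvPolynomial (Fin n) ℂ → ℂ, ∀ h, L h =
    ∑ j, lam j * MvPolynomial.aeval (z j) h := ⟨_, fun _ => rfl⟩
  have hnm : ∀ p : MvPolynomial (Fin n) ℂ, 0 ≤ nm ρ p := nm_nonneg ρ hρ.le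
  obtain ⟨Λ, hΛ⟩ : ∃ Λ : ℝ, Λ = ∑ j, ‖lam j‖ := ⟨_, rfl⟩
  have hb0 : ∀ h, ‖L h‖ ≤ Λ * nm ρ h := by
    intro h
    rw [hL, hΛ, Finset.sum_mul]
    refine (norm_sum_le _ _).trans (Finset.sum_le_sum fun j _ => ?_)
    rw [norm_mul]
    exact mul_le_mul_of_nonneg_left (nm_eval ρ hρ.le h (z j) (hz j)) (norm_nonneg _)
  have hΛ0 : 0 ≤ Λ := by
    rw [hΛ]
    exact Finset.sum_nonneg fun j _ => norm_nonneg _
  have hstep : ∀ M : ℝ, 0 ≤ M → (∀ h, ‖L h‖ ≤ M * nm ρ h) →
      ∀ h, ‖L h‖ ≤ (n * C * η) * M * nm ρ h := by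
    intro M hM hMb h
    obtain ⟨c, b, hh, hb⟩ := hdiv h
    have e1 : ∀ j, MvPolynomial.aeval (z j) h = ∑ s, c s * MvPolynomial.aeval (z j) (S s) +
        ∑ i, MvPolynomial.aeval (z j) (b i) * MvPolynomial.aeval (z j) (q i) := by
      intro j
      conv_lhs => rw [hh]
      rw [map_add, map_sum, map_sum]
      congr 1
      · refine Finset.sum_congr rfl fun s _ => ?_
        rw [map_mul, MvPolynomial.aeval_C]
        rfl
      · exact Finset.sum_congr rfl fun i _ => map_mul _ _ _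
    have e2 : L h = - ∑ i, ∑ j, lam j * (MvPolynomial.aeval (z j) (b i) * e i (z j)) := by
      rw [hL]
      have e3 : ∀ j, lam j * MvPolynomial.aeval (z j) h =
          ∑ s, c s * (lam j * MvPolynomial.aeval (z j) (S s)) -
          ∑ i, lam j * (MvPolynomial.aeval (z j) (b i) * e i (z j)) := by
        intro j
        rw [e1, mul_add, Finset.mul_sum, Finset.mul_sum, sub_eq_add_neg, ← Finset.sum_neg_distrib]
        congr 1
        · exact Finset.sum_congr rfl fun s _ => by ring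
        · refine Finset.sum_congr rfl fun i _ => ?_
          have := hzero i j
          linear_combination lam j * MvPolynomial.aeval (z j) (b i) * this
      rw [Finset.sum_congr rfl fun j _ => e3 j, Finset.sum_sub_distrib, Finset.sum_comm]
      have e4 : ∑ s, ∑ j, c s * (lam j * MvPolynomial.aeval (z j) (S s)) = 0 := by
        refine Finset.sum_eq_zero fun s _ => ?_
        rw [← Finset.mul_sum, hS s, mul_zero]
      rw [e4, zero_sub, Finset.sum_comm]
    have e5 : ∀ i, ‖∑ j, lam j * (MvPolynomial.aeval (z j) (b i) * e i (z j))‖ ≤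
        M * (C * nm ρ h * η) := by
      intro i
      have t1 : Tendsto (fun k => ∑ j, lam j * (MvPolynomial.aeval (z j) (b i) *
          MvPolynomial.aeval (z j) (E i k))) atTop
          (𝓝 (∑ j, lam j * (MvPolynomial.aeval (z j) (b i) * e i (z j)))) :=
        tendsto_finsetSum _ fun j _ => ((hlim i j).const_mul _).const_mul _
      refine le_of_tendsto t1.norm (Eventually.of_forall fun k => ?_)
      have e6 : ∑ j, lam j * (MvPolynomial.aeval (z j) (b i) * MvPolynomial.aeval (z j) (E i k)) =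
          L (b i * E i k) := by
        rw [hL]
        exact Finset.sum_congr rfl fun j _ => by rw [map_mul]
      change ‖∑ j, lam j * (MvPolynomial.aeval (z j) (b i) *
          MvPolynomial.aeval (z j) (E i k))‖ ≤ _
      rw [e6]
      refine (hMb _).trans (mul_le_mul_of_nonneg_left ?_ hM)
      refine (nm_mul ρ hρ.le _ _).trans ?_
      exact mul_le_mul (hb i) (hE i k) (hnm _) (mul_nonneg hC.le (hnm h))
    rw [e2, norm_neg]
    refine (norm_sum_le _ _).trans ((Finset.sum_le_sum fun i _ => e5 i).trans (le_of_eq ?_))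
    rw [Finset.sum_const, Finset.card_univ, Fintype.card_fin, nsmul_eq_mul]
    ring
  have hθ0 : 0 ≤ n * C * η := mul_nonneg (mul_nonneg (Nat.cast_nonneg n) hC.le) hη
  have hiter : ∀ k : ℕ, ∀ h, ‖L h‖ ≤ (n * C * η) ^ k * Λ * nm ρ h := by
    intro k
    induction k with
    | zero =>
      intro h
      rw [pow_zero, one_mul]
      exact hb0 h
    | succ k ih =>
      intro h
      refine (hstep _ (mul_nonneg (pow_nonneg hθ0 k) hΛ0) ih h).trans (le_of_eq ?_)
      ring
  have hL0 : ∀ h, L h = 0 := by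
    intro h
    have t1 : Tendsto (fun k : ℕ => (n * C * η) ^ k * Λ * nm ρ h) atTop (𝓝 (0 * Λ * nm ρ h)) :=
      ((tendsto_pow_atTop_nhds_zero_of_lt_one hθ0 hsmall).mul_const _).mul_const _
    have h1 : ‖L h‖ ≤ 0 * Λ * nm ρ h := ge_of_tendsto t1 (Eventually.of_forall fun k => hiter k h)
    rw [zero_mul, zero_mul] at h1
    exact norm_le_zero_iff.1 h1
  obtain ⟨j0, hj0⟩ : ∃ j0, lam j0 ≠ 0 := by
    by_contra hcon
    push Not at hcon
    exact hlam (funext hcon)
  have hix : ∀ j, ∃ i, j ≠ j0 → z j i ≠ z j0 i := by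
    intro j
    by_cases h : j = j0
    · by_cases hn : Nonempty (Fin n)
      · exact ⟨hn.some, fun h' => absurd h h'⟩
      · exfalso
        -- with no coordinates there is only one point
        have : IsEmpty (Fin n) := not_nonempty_iff.1 hn
        have hsub : ∀ a b : Fin (m + 1), a = b := fun a b => hinj (Subsingleton.elim _ _)
        have h1 : (n : ℝ) = 0 := by
          have : n = 0 := by
            by_contra hne
            exact hn ⟨⟨0, Nat.pos_of_ne_zero hne⟩⟩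
          rw [this, Nat.cast_zero]
        have h2 := hL0 1
        rw [hL] at h2
        have h3 : ∑ j, lam j * MvPolynomial.aeval (z j) (1 : MvPolynomial (Fin n) ℂ) = lam j0 := by
          rw [Finset.sum_eq_single j0]
          · rw [map_one, mul_one]
          · intro b _ hb
            exact absurd (hsub b j0) hb
          · intro h
            exact absurd (Finset.mem_univ _) h
        rw [h3] at h2
        exact hj0 h2
    · obtain ⟨i, hi⟩ := Function.ne_iff.1 (hinj.ne h)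
      exact ⟨i, fun _ => hi⟩
  choose ix hix using hix
  obtain ⟨p, hp⟩ : ∃ p : MvPolynomial (Fin n) ℂ, p = ∏ j ∈ Finset.univ.erase j0,
    (MvPolynomial.X (ix j) - MvPolynomial.C (z j (ix j))) := ⟨_, rfl⟩
  have hpe : ∀ w : Fin n → ℂ, MvPolynomial.aeval w p =
      ∏ j ∈ Finset.univ.erase j0, (w (ix j) - z j (ix j)) := by
    intro w
    rw [hp, map_prod]
    refine Finset.prod_congr rfl fun j _ => ?_
    rw [map_sub, MvPolynomial.aeval_X, MvPolynomial.aeval_C]
    rfl
  have h2 := hL0 p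
  rw [hL, Finset.sum_eq_single j0] at h2
  · rcases mul_eq_zero.1 h2 with h3 | h3
    · exact hj0 h3
    · rw [hpe, Finset.prod_eq_zero_iff] at h3
      obtain ⟨j, hj, hj2⟩ := h3
      exact hix j (Finset.ne_of_mem_erase hj) (sub_eq_zero.1 hj2).symm
  · intro j _ hj
    rw [hpe, Finset.prod_eq_zero (Finset.mem_erase.2 ⟨hj, Finset.mem_univ _⟩) (sub_self _), mul_zero]
  · intro h
    exact absurd (Finset.mem_univ _) h

/-- N3a : the homogeneous terms of a power series are homogeneous polynomials -/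
theorem homog_poly {n : ℕ} (k : ℕ) (p : ContinuousMultilinearMap ℂ (fun _ : Fin k => (Fin n → ℂ)) ℂ) :
    ∃ P : MvPolynomial (Fin n) ℂ, P.IsHomogeneous k ∧ ∀ z : Fin n → ℂ, MvPolynomial.aeval z P = p fun _ => z := by
  classical
  refine ⟨∑ f : Fin k → Fin n, MvPolynomial.C (p fun i => Pi.single (f i) 1) *
    ∏ i : Fin k, MvPolynomial.X (f i), ?_, ?_⟩
  · apply MvPolynomial.IsHomogeneous.sum
    intro f _
    apply MvPolynomial.IsHomogeneous.C_mul
    have h := MvPolynomial.IsHomogeneous.prod (Finset.univ : Finset (Fin k))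
      (fun i => (MvPolynomial.X (f i) : MvPolynomial (Fin n) ℂ)) (fun _ => 1)
      (fun i _ => MvPolynomial.isHomogeneous_X ℂ (f i))
    simpa using h
  · intro z
    have hz : (fun _ : Fin k => z) = fun _ : Fin k => ∑ j : Fin n, z j • (Pi.single j (1 : ℂ) : Fin n → ℂ) := by
      funext i
      funext j
      simp [Finset.sum_apply, Pi.single_apply]
    rw [hz, ContinuousMultilinearMap.map_sum, map_sum]
    apply Finset.sum_congr rfl
    intro f _
    have h2 := p.map_smul_univ (fun i => z (f i)) (fun i => (Pi.single (f i) (1 : ℂ) : Fin n → ℂ))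
    rw [h2, map_mul, map_prod, smul_eq_mul, MvPolynomial.aeval_C, mul_comm]
    simp only [MvPolynomial.aeval_X]
    rfl

theorem coeff_bound_orth (N : ℕ) (hN : 0 < N) (ζ : ℂ) (hprim : IsPrimitiveRoot ζ N) (a b : ℕ)
    (ha : a < N) (hb : b < N) :
    ∑ k : Fin N, (ζ ^ (k : ℕ)) ^ a * ((ζ ^ (k : ℕ))⁻¹) ^ b = if a = b then (N : ℂ) else 0 := by
  have hζ0 : ζ ≠ 0 := hprim.ne_zero hN.ne'
  have h1 : ∀ k : Fin N, (ζ ^ (k : ℕ)) ^ a * ((ζ ^ (k : ℕ))⁻¹) ^ b =
      (ζ ^ a * (ζ ^ b)⁻¹) ^ (k : ℕ) := by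
    intro k
    rw [mul_pow, inv_pow, inv_pow, ← pow_mul, ← pow_mul, ← pow_mul, ← pow_mul, mul_comm a,
      mul_comm b]
  rw [Finset.sum_congr rfl (fun k _ => h1 k),
    Fin.sum_univ_eq_sum_range (fun k => (ζ ^ a * (ζ ^ b)⁻¹) ^ k) N]
  split_ifs with hab
  · subst hab
    rw [mul_inv_cancel₀ (pow_ne_zero _ hζ0)]
    simp
  · have hx : ζ ^ a * (ζ ^ b)⁻¹ ≠ 1 := by
      intro h
      have h2 : ζ ^ a = ζ ^ b := by
        rw [mul_inv_eq_one₀ (pow_ne_zero _ hζ0)] at h
        exact h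
      exact hab (hprim.pow_inj ha hb h2)
    rw [geom_sum_eq hx, mul_pow, inv_pow, ← pow_mul, ← pow_mul, mul_comm a, mul_comm b, pow_mul,
      pow_mul, hprim.pow_eq_one]
    simp

/-- N3c : coefficient bound by the sup on the unit torus -/
theorem coeff_bound {n : ℕ} (P : MvPolynomial (Fin n) ℂ) (M : ℝ)
    (hM : ∀ z : Fin n → ℂ, (∀ i, ‖z i‖ = 1) → ‖MvPolynomial.aeval z P‖ ≤ M) (α : Fin n →₀ ℕ) :
    ‖P.coeff α‖ ≤ M := by
  classical
  set N : ℕ := P.totalDegree + α.degree + 1 with hN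
  have hN0 : 0 < N := by omega
  have hN0' : (N : ℂ) ≠ 0 := by exact_mod_cast hN0.ne'
  obtain ⟨ζ, hprim⟩ : ∃ ζ : ℂ, IsPrimitiveRoot ζ N := ⟨_, Complex.isPrimitiveRoot_exp N hN0.ne'⟩
  have hζn : ‖ζ‖ = 1 := hprim.norm'_eq_one hN0.ne'
  have hαi : ∀ i, α i < N := by
    intro i
    have := Finsupp.le_degree i α
    omega
  have hβi : ∀ β ∈ P.support, ∀ i, β i < N := by
    intro β hβ i
    have h1 := Finsupp.le_degree i β
    have h2 := MvPolynomial.le_totalDegree hβ
    have h3 : β.degree = β.sum fun _ e => e := rfl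
    omega
  have hkey : ∑ k : Fin n → Fin N, MvPolynomial.aeval (fun i => ζ ^ (k i : ℕ)) P *
      ∏ i, ((ζ ^ (k i : ℕ))⁻¹) ^ (α i) = (N : ℂ) ^ n * P.coeff α := by
    have h1 : ∀ k : Fin n → Fin N, MvPolynomial.aeval (fun i => ζ ^ (k i : ℕ)) P *
        ∏ i, ((ζ ^ (k i : ℕ))⁻¹) ^ (α i) =
        ∑ β ∈ P.support, P.coeff β *
          ∏ i, ((ζ ^ (k i : ℕ)) ^ (β i) * ((ζ ^ (k i : ℕ))⁻¹) ^ (α i)) := by
      intro k
      rw [MvPolynomial.aeval_def, MvPolynomial.eval₂_eq', Finset.sum_mul]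
      apply Finset.sum_congr rfl
      intro β _
      rw [Finset.prod_mul_distrib, mul_assoc]
      rfl
    rw [Finset.sum_congr rfl (fun k _ => h1 k), Finset.sum_comm]
    have h2 : ∀ β ∈ P.support, ∑ k : Fin n → Fin N, P.coeff β *
          ∏ i, ((ζ ^ (k i : ℕ)) ^ (β i) * ((ζ ^ (k i : ℕ))⁻¹) ^ (α i)) =
        if β = α then (N : ℂ) ^ n * P.coeff α else 0 := by
      intro β hβ
      rw [← Finset.mul_sum]
      have h3 := Finset.prod_univ_sum (fun _ : Fin n => (Finset.univ : Finset (Fin N)))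
        (fun i (k : Fin N) => (ζ ^ (k : ℕ)) ^ (β i) * ((ζ ^ (k : ℕ))⁻¹) ^ (α i))
      rw [Fintype.piFinset_univ] at h3
      rw [← h3]
      rw [Finset.prod_congr rfl (fun i _ => coeff_bound_orth N hN0 ζ hprim (β i) (α i)
        (hβi β hβ i) (hαi i))]
      split_ifs with hba
      · subst hba
        simp [mul_comm]
      · have h4 : ∃ i, β i ≠ α i := by
          by_contra hcon
          push Not at hcon
          exact hba (Finsupp.ext hcon)
        obtain ⟨i, hi⟩ := h4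
        rw [Finset.prod_eq_zero (Finset.mem_univ i) (if_neg hi), mul_zero]
    rw [Finset.sum_congr rfl h2, Finset.sum_ite_eq']
    split_ifs with hα
    · rfl
    · rw [MvPolynomial.notMem_support_iff.1 hα, mul_zero]
  have hnorm : ‖(N : ℂ) ^ n * P.coeff α‖ ≤ (N : ℝ) ^ n * M := by
    rw [← hkey]
    refine (norm_sum_le _ _).trans ?_
    have h1 : ∀ k ∈ (Finset.univ : Finset (Fin n → Fin N)),
        ‖MvPolynomial.aeval (fun i => ζ ^ (k i : ℕ)) P *
          ∏ i, ((ζ ^ (k i : ℕ))⁻¹) ^ (α i)‖ ≤ M := by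
      intro k _
      rw [norm_mul, norm_prod]
      have h2 : ∀ i ∈ (Finset.univ : Finset (Fin n)), ‖((ζ ^ (k i : ℕ))⁻¹) ^ (α i)‖ = 1 := by
        intro i _
        rw [norm_pow, norm_inv, norm_pow, hζn, one_pow, inv_one, one_pow]
      rw [Finset.prod_congr rfl h2, Finset.prod_const_one, mul_one]
      apply hM
      intro i
      rw [norm_pow, hζn, one_pow]
    refine (Finset.sum_le_card_nsmul _ _ M h1).trans ?_
    rw [Finset.card_univ, Fintype.card_fun, Fintype.card_fin, Fintype.card_fin, nsmul_eq_mul]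
    push_cast
    exact le_refl _
  rw [norm_mul, norm_pow, Complex.norm_natCast] at hnorm
  exact le_of_mul_le_mul_left hnorm (by positivity)

/-- N3b : expansion in homogeneous terms on the whole ball, with Cauchy bounds -/
theorem homog_expansion {n : ℕ} (F : (Fin n → ℂ) → ℂ) (r s δ : ℝ) (hs : 0 < s) (hsr : s < r)
    (hF : AnalyticOnNhd ℂ F (ball 0 r)) (hb : ∀ z ∈ ball (0 : Fin n → ℂ) r, ‖F z‖ ≤ δ) :
    ∃ p : FormalMultilinearSeries ℂ (Fin n → ℂ) ℂ, (∀ z : Fin n → ℂ, ∀ k, ‖p k fun _ => z‖ ≤ δ * (‖z‖ / s) ^ k) ∧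
      ∀ z : Fin n → ℂ, ‖z‖ < s → HasSum (fun k => p k fun _ => z) (F z) := by
  have hr : 0 < r := lt_trans hs hsr
  have h0 : (0 : Fin n → ℂ) ∈ ball (0 : Fin n → ℂ) r := mem_ball_self hr
  obtain ⟨p, hp⟩ := hF 0 h0
  have hδ : 0 ≤ δ := (norm_nonneg _).trans (hb 0 h0)
  refine ⟨p, ?_⟩
  -- the main computation
  have main : ∀ z : Fin n → ℂ, z ≠ 0 → (∀ k, ‖p k fun _ => z‖ ≤ δ * (‖z‖ / s) ^ k) ∧
      (‖z‖ < s → HasSum (fun k => p k fun _ => z) (F z)) := by
    intro z hz
    have hz0 : 0 < ‖z‖ := norm_pos_iff.2 hz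
    let u : ℂ →L[ℂ] (Fin n → ℂ) := (ContinuousLinearMap.id ℂ ℂ).smulRight z
    have hu : ∀ τ : ℂ, u τ = τ • z := fun τ => by simp [u]
    let R : NNReal := ⟨s / ‖z‖, by positivity⟩
    have hR : (R : ℝ) = s / ‖z‖ := rfl
    have hR0 : 0 < R := by
      rw [← NNReal.coe_pos, hR]
      positivity
    let φ : ℂ → ℂ := F ∘ u
    have hmem : ∀ τ ∈ closedBall (0 : ℂ) R, u τ ∈ ball (0 : Fin n → ℂ) r := by
      intro τ hτ
      rw [mem_closedBall_zero_iff, hR] at hτ
      rw [mem_ball_zero_iff, hu, norm_smul]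
      have : ‖τ‖ * ‖z‖ ≤ (s / ‖z‖) * ‖z‖ := mul_le_mul_of_nonneg_right hτ hz0.le
      rw [div_mul_cancel₀ _ hz0.ne'] at this
      linarith
    have hd : DifferentiableOn ℂ φ (closedBall 0 R) := by
      refine DifferentiableOn.comp (t := ball (0 : Fin n → ℂ) r) hF.differentiableOn
        u.differentiable.differentiableOn hmem
    have hps := hd.hasFPowerSeriesOnBall hR0
    have hq : HasFPowerSeriesAt φ (p.compContinuousLinearMap u) 0 := by
      apply HasFPowerSeriesAt.compContinuousLinearMap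
      rw [map_zero]
      exact hp
    have heq : p.compContinuousLinearMap u = cauchyPowerSeries φ 0 R :=
      hq.eq_formalMultilinearSeries hps.hasFPowerSeriesAt
    have hcoef : ∀ k, (p k fun _ => z) = cauchyPowerSeries φ 0 R k (fun _ => 1) := by
      intro k
      rw [← heq]
      have h1 : (p.compContinuousLinearMap u k) (fun _ => (1 : ℂ)) = p k (u ∘ fun _ => (1 : ℂ)) := rfl
      rw [h1]
      congr 1
      funext i
      simp [hu]
    refine ⟨fun k => ?_, fun hzs => ?_⟩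
    · rw [hcoef]
      have h3 : ‖cauchyPowerSeries φ 0 R k (fun _ => (1 : ℂ))‖ ≤ ‖cauchyPowerSeries φ 0 R k‖ := by
        simp
      refine h3.trans ?_
      refine (norm_cauchyPowerSeries_le φ 0 R k).trans ?_
      have h4 : |(R : ℝ)|⁻¹ ^ k = (‖z‖ / s) ^ k := by
        rw [hR, abs_of_pos (by positivity), inv_div]
      rw [h4]
      apply mul_le_mul_of_nonneg_right _ (by positivity)
      have h5 : ∫ θ : ℝ in (0:ℝ)..(2 * Real.pi), ‖φ (circleMap 0 R θ)‖ ≤
          ∫ θ : ℝ in (0:ℝ)..(2 * Real.pi), δ := by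
        apply intervalIntegral.integral_mono_on (by positivity)
        · apply Continuous.intervalIntegrable
          apply Continuous.norm
          exact hd.continuousOn.comp_continuous (continuous_circleMap 0 R)
            (fun θ => circleMap_mem_closedBall 0 R.2 θ)
        · exact intervalIntegrable_const
        · intro θ _
          exact hb _ (hmem _ (circleMap_mem_closedBall 0 R.2 θ))
      rw [intervalIntegral.integral_const, sub_zero, smul_eq_mul] at h5
      calc (2 * Real.pi)⁻¹ * ∫ θ : ℝ in (0:ℝ)..(2 * Real.pi), ‖φ (circleMap 0 R θ)‖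
          ≤ (2 * Real.pi)⁻¹ * (2 * Real.pi * δ) := by gcongr
        _ = δ := by field_simp
    · have h1 : (1 : ℂ) ∈ Metric.eball (0 : ℂ) R := by
        rw [Metric.mem_eball, edist_zero_right, enorm_one]
        have : (1 : NNReal) < R := by
          rw [← NNReal.coe_lt_coe, hR, NNReal.coe_one, one_lt_div hz0]
          exact hzs
        exact_mod_cast this
      have h2 := hps.hasSum h1
      rw [zero_add] at h2
      have h3 : φ 1 = F z := by
        simp [φ, hu]
      rw [h3] at h2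
      have h4 : (fun k => p k fun _ => z) = fun k => cauchyPowerSeries φ 0 R k (fun _ => 1) :=
        funext hcoef
      rw [h4]
      exact h2
  have hz1 : ∀ k, k ≠ 0 → (p k fun _ => (0 : Fin n → ℂ)) = 0 := by
    intro k hk
    obtain ⟨m, rfl⟩ := Nat.exists_eq_succ_of_ne_zero hk
    exact (p (m + 1)).map_zero
  have hz2 : (p 0 fun _ => (0 : Fin n → ℂ)) = F 0 := hp.coeff_zero _
  refine ⟨fun z k => ?_, fun z hz => ?_⟩
  · by_cases hz : z = 0
    · subst hz
      by_cases hk : k = 0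
      · subst hk
        rw [hz2, pow_zero, mul_one]
        exact hb 0 h0
      · rw [hz1 k hk, norm_zero]
        positivity
    · exact (main z hz).1 k
  · by_cases hz0 : z = 0
    · subst hz0
      rw [← hz2]
      exact hasSum_single 0 (fun k hk => hz1 k hk)
    · exact (main z hz0).2 hz

/-- N3d : polynomial approximation with bounded weighted norms -/
theorem taylor_approx (n : ℕ) (ρ r : ℝ) (hρ : 0 < ρ) (hr : ρ < r) :
    ∃ C : ℝ, 0 < C ∧ ∀ (F : (Fin n → ℂ) → ℂ) (δ : ℝ), AnalyticOnNhd ℂ F (ball 0 r) →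
      (∀ z ∈ ball (0 : Fin n → ℂ) r, ‖F z‖ ≤ δ) →
      ∃ E : ℕ → MvPolynomial (Fin n) ℂ, (∀ k, nm ρ (E k) ≤ C * δ) ∧
        ∀ z : Fin n → ℂ, ‖z‖ ≤ ρ → Tendsto (fun k => MvPolynomial.aeval z (E k)) atTop (𝓝 (F z)) := by
  set s : ℝ := (ρ + r) / 2 with hsdef
  have hρs : ρ < s := by rw [hsdef]; linarith
  have hsr : s < r := by rw [hsdef]; linarith
  have hs : 0 < s := lt_trans hρ hρs
  set x : ℝ := ρ / s with hx
  have hx0 : 0 < x := div_pos hρ hs
  have hx1 : x < 1 := by rw [hx, div_lt_one hs]; exact hρs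
  have hsum : Summable (fun k : ℕ => ((k : ℝ) + 1) ^ n * x ^ k) := by
    have h1 := summable_pow_mul_geometric_of_norm_lt_one (R := ℝ) n (r := x)
      (by rw [Real.norm_of_nonneg hx0.le]; exact hx1)
    have h2 := ((summable_nat_add_iff 1).mpr h1).mul_right x⁻¹
    refine h2.congr (fun k => ?_)
    push_cast
    rw [pow_succ]
    field_simp
  refine ⟨(∑' k : ℕ, ((k : ℝ) + 1) ^ n * x ^ k) + 1, ?_, ?_⟩
  · have : 0 ≤ ∑' k : ℕ, ((k : ℝ) + 1) ^ n * x ^ k := tsum_nonneg (fun k => by positivity)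
    linarith
  intro F δ hF hb
  have hδ : 0 ≤ δ := le_trans (norm_nonneg _) (hb 0 (by simp; linarith))
  obtain ⟨p, hp1, hp2⟩ := homog_expansion F r s δ hs hsr hF hb
  choose P hPh hPe using fun k => homog_poly k (p k)
  have hcoef : ∀ k α, ‖(P k).coeff α‖ ≤ δ * (1 / s) ^ k := by
    intro k α
    apply coeff_bound
    intro z hz
    rw [hPe]
    refine (hp1 z k).trans ?_
    have hz1 : ‖z‖ ≤ 1 := by
      rw [pi_norm_le_iff_of_nonneg zero_le_one]
      intro i
      exact (hz i).le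
    gcongr
  have hcard : ∀ k, ((P k).support.card : ℝ) ≤ ((k : ℝ) + 1) ^ n := by
    intro k
    have h : (P k).support.card ≤ Fintype.card (Fin n → Fin (k + 1)) := by
      rw [← Finset.card_univ]
      refine Finset.card_le_card_of_injOn
        (fun α => fun i => Fin.ofNat (k + 1) (α i)) (fun _ _ => Finset.mem_coe.mpr (Finset.mem_univ _)) ?_
      have hle : ∀ α ∈ (P k).support, ∀ i, α i < k + 1 := by
        intro α hα i
        have hd : α.degree = k := by
          by_contra hne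
          exact (MvPolynomial.mem_support_iff.mp hα) ((hPh k).coeff_eq_zero hne)
        have := Finsupp.le_degree i α
        omega
      intro α hα β hβ hab
      ext i
      have h1 := congrFun hab i
      have h2 := congrArg Fin.val h1
      simp only [Fin.ofNat] at h2
      rw [Nat.mod_eq_of_lt (hle α hα i), Nat.mod_eq_of_lt (hle β hβ i)] at h2
      exact h2
    have h2 : Fintype.card (Fin n → Fin (k + 1)) = (k + 1) ^ n := by simp
    rw [h2] at h
    exact_mod_cast h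
  have hnm : ∀ k, nm ρ (P k) ≤ δ * (((k : ℝ) + 1) ^ n * x ^ k) := by
    intro k
    unfold nm
    have h1 : ∀ α ∈ (P k).support, ‖(P k).coeff α‖ * ρ ^ α.degree ≤ δ * x ^ k := by
      intro α hα
      have hd : α.degree = k := by
        by_contra hne
        exact (MvPolynomial.mem_support_iff.mp hα) ((hPh k).coeff_eq_zero hne)
      rw [hd]
      calc ‖(P k).coeff α‖ * ρ ^ k ≤ (δ * (1 / s) ^ k) * ρ ^ k := by
            gcongr
            exact hcoef k α
        _ = δ * x ^ k := by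
            rw [hx, mul_assoc, ← mul_pow]
            congr 2
            field_simp
    refine (Finset.sum_le_card_nsmul _ _ _ h1).trans ?_
    rw [nsmul_eq_mul]
    calc ((P k).support.card : ℝ) * (δ * x ^ k) ≤ ((k : ℝ) + 1) ^ n * (δ * x ^ k) := by
          gcongr
          exact hcard k
      _ = δ * (((k : ℝ) + 1) ^ n * x ^ k) := by ring
  refine ⟨fun m => ∑ k ∈ Finset.range m, P k, ?_, ?_⟩
  · intro m
    refine (nm_sum ρ hρ.le _ _).trans ?_
    refine (Finset.sum_le_sum (fun k _ => hnm k)).trans ?_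
    rw [← Finset.mul_sum]
    have h3 : ∑ k ∈ Finset.range m, ((k : ℝ) + 1) ^ n * x ^ k ≤ ∑' k : ℕ, ((k : ℝ) + 1) ^ n * x ^ k :=
      hsum.sum_le_tsum _ (fun k _ => by positivity)
    nlinarith
  · intro z hz
    have h4 := (hp2 z (lt_of_le_of_lt hz hρs)).tendsto_sum_nat
    refine h4.congr (fun m => ?_)
    rw [map_sum]
    exact Finset.sum_congr rfl (fun k _ => (hPe k z).symm)

end RealMorsification
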