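import Mathlib
set_option autoImplicit false
open Metric Complex Filter Topology
namespace RM

abbrev E7 := Fin 7 → ℂ

/-- the involution (0 1)(2 3)(4 5) of the coordinates -/
def sg : Fin 7 → Fin 7 := ![1, 0, 3, 2, 5, 4, 6]

/-- real points for the twisted real structure -/
def SReal (x : E7) : Prop := ∀ i, x (sg i) = (starRingEnd ℂ) (x i)

/-- gradient of `∑ x_i^3 - c (∑ x_i)^3` -/
noncomputable def g (c : ℂ) (x : E7) : E7 := fun i => 3 * x i ^ 2 - 3 * c * (∑ j, x j) ^ 2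

/-- sign vectors of sum one which are not real for the twisted real structure -/
def Node (p : E7) : Prop := (∀ i, p i = 1 ∨ p i = -1) ∧ ∑ i, p i = 1 ∧ ∃ i, p (sg i) = - p i

noncomputable def rr (p : E7) (Q : Fin 7 → Fin 7 → ℂ) (l : E7) (e : ℂ → E7 → E7) (z : ℂ) (y : E7) : E7 := fun i =>
  (1/2) * z * (y i) ^ 2 + (1/6) * (∑ j, Q i j * p j + z * ∑ j, Q i j * y j + z * l i + z * e z y i)

noncomputable def TT (p : E7) (Q : Fin 7 → Fin 7 → ℂ) (l : E7) (e : ℂ → E7 → E7) (z : ℂ) (y : E7) : E7 := fun i =>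
  p i * (∑ j, p j * rr p Q l e z y j - rr p Q l e z y i)

noncomputable def ww (p : E7) (Q : Fin 7 → Fin 7 → ℂ) (l : E7) (e : ℂ → E7 → E7) (z : ℂ) (y : E7) : ℂ :=
  2 * ∑ j, p j * rr p Q l e z y j

end RM
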