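import Pool.Agent.Helper787.RMFinal
set_option autoImplicit false
open Metric Complex Filter Topology
namespace RM
open RealMorsification

theorem germ_eq (c : ℝ) : germ c = poly c := rfl

theorem powers_poly (c : ℝ) (hc : 1 < c) : ∃ K : ℕ, ∀ i, (MvPolynomial.X i : MvPolynomial (Fin 7) ℂ) ^ K ∈
    Ideal.span (Set.range fun i => MvPolynomial.pderiv i (MvPolynomial.map (algebraMap ℝ ℂ) (poly c))) := by
  apply powers_mem
  intro z h
  rw [← poly_crit c hc z]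
  have h1 : ∀ v : E7, fderiv ℂ (cx (poly c)) z v = 0 := by
    intro v
    have hv : v = ∑ i, v i • (Pi.single i (1 : ℂ) : E7) := by
      ext j
      simp [Finset.sum_apply, Pi.single_apply]
    rw [hv, map_sum]
    refine Finset.sum_eq_zero fun i _ => ?_
    rw [map_smul, fderiv_cx, h i, smul_zero]
  ext v
  simp [h1]

theorem few_real (c : ℝ) (hc : 1 < c)
    (h2 : ∀ (H : Fin 7 → Fin 7 → ℂ), (∀ i j, H i j = H j i) →
      (∀ i j, H (sg i) (sg j) = (starRingEnd ℂ) (H i j)) → H ≠ 0 →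
      ∃ R : ℝ, 0 < R ∧ ∃ η : ℝ, 0 < η ∧ ∀ E' : E7 → E7, DifferentiableOn ℂ E' (ball 0 R) →
        (∀ x ∈ ball (0 : E7) R, ‖E' x‖ ≤ η) →
        ∃ x ∈ ball (0 : E7) R, (∀ i, g c x i + ∑ j, H i j * x j + E' x i = 0) ∧ ¬ SReal x)
    (D : RealDeformation (poly c)) (ρ : ℝ) (hρ : 0 < ρ) (hρr : ρ < D.r) :
    ∀ᶠ t in 𝓝[>] (0 : ℝ), (realMorse (D.F t) (eball 7 ρ)).encard < milnor (poly c) := by
  have hIco : ∀ᶠ t in 𝓝[>] (0 : ℝ), t ∈ Set.Ico (0 : ℝ) D.ε := by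
    filter_upwards [Ioo_mem_nhdsGT D.ε_pos] with t ht
    exact ⟨ht.1.le, ht.2⟩
  have hana : ∀ᶠ t in 𝓝[>] (0 : ℝ), AnalyticOnNhd ℂ (D.F t) (ball 0 D.r) :=
    hIco.mono fun t ht => D.analytic t ht
  have hreal : ∀ᶠ t in 𝓝[>] (0 : ℝ), ∀ x : Fin 7 → ℝ, toC x ∈ ball (0 : E7) D.r →
      (D.F t (toC x)).im = 0 := hIco.mono fun t ht => D.real t ht
  obtain ⟨K, hK⟩ := powers_poly c hc
  obtain ⟨δ, hδ, hcount⟩ := count_bound (poly c) K hK D.r ρ hρ hρr
  have hcnt : ∀ᶠ t in 𝓝[>] (0 : ℝ), (critSet (D.F t) (closedBall 0 ρ)).encard ≤ milnor (poly c) := by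
    have h1 := (Metric.tendstoUniformlyOn_iff.1 D.cont) δ hδ
    filter_upwards [h1, hana] with t h1 h2
    refine hcount (D.F t) h2 fun z hz => ?_
    have := h1 z hz
    rw [dist_comm, dist_eq_norm] at this
    exact this.le
  by_contra hcon
  rw [Filter.not_eventually] at hcon
  have hne : (𝓝[>] (0 : ℝ) ⊓ 𝓟 {t | ¬ (realMorse (D.F t) (eball 7 ρ)).encard < milnor (poly c)}).NeBot :=
    Filter.frequently_mem_iff_neBot.1 hcon
  set 𝓕 := 𝓝[>] (0 : ℝ) ⊓ 𝓟 {t | ¬ (realMorse (D.F t) (eball 7 ρ)).encard < milnor (poly c)} with h𝓕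
  have hle : 𝓕 ≤ 𝓝[>] (0 : ℝ) := inf_le_left
  have hbig : ∀ᶠ t in 𝓕, ¬ (realMorse (D.F t) (eball 7 ρ)).encard < milnor (poly c) :=
    Filter.mem_inf_of_right (Filter.mem_principal_self _)
  have hbase : ∀ᶠ t in 𝓕, ∃ a ∈ critSet (D.F t) (eball 7 ρ), IsRealPt a ∧ (hess (D.F t) a).det ≠ 0 := by
    filter_upwards [hbig] with t ht
    rw [not_lt] at ht
    have h0 : (realMorse (D.F t) (eball 7 ρ)).encard ≠ 0 := by
      intro h
      rw [h] at ht
      have := (milnor_poly c hc).2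
      have h3 : (milnor (poly c) : ℕ∞) = 0 := le_antisymm ht bot_le
      have h4 : milnor (poly c) = 0 := by exact_mod_cast h3
      omega
    rw [Set.encard_ne_zero] at h0
    obtain ⟨a, ha⟩ := h0
    exact ⟨a, ⟨ha.1, ha.2.1⟩, ha.2.2⟩
  have hu : TendstoUniformlyOn D.F (cx (poly c)) 𝓕 (ball 0 D.r) :=
    fun u hu => hle (D.cont u hu)
  have hfr := core c hc h2 D.F D.r D.r_pos (hle hana) (hle hreal) hu ρ hρ hρr hbase
  obtain ⟨t, ⟨z, hz, hzr⟩, ht1, ht2⟩ := (hfr.and_eventually (hbig.and (hle hcnt))).exists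
  apply ht1
  have hsub : insert z (realMorse (D.F t) (eball 7 ρ)) ⊆ critSet (D.F t) (closedBall 0 ρ) := by
    have hb : eball 7 ρ ⊆ closedBall (0 : E7) ρ := by
      intro w hw
      rw [mem_closedBall_zero_iff, pi_norm_le_iff_of_nonneg hρ.le]
      intro i
      have h1 : ‖w i‖ ^ 2 ≤ ∑ j, ‖w j‖ ^ 2 :=
        Finset.single_le_sum (f := fun j => ‖w j‖ ^ 2) (fun j _ => by positivity) (Finset.mem_univ i)
      have h2 : ‖w i‖ ^ 2 ≤ ρ ^ 2 := le_trans h1 hw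
      exact (pow_le_pow_iff_left₀ (norm_nonneg _) hρ.le two_ne_zero).1 h2
    intro w hw
    rcases Set.mem_insert_iff.1 hw with rfl | hw
    · exact ⟨hb hz.1, hz.2⟩
    · exact ⟨hb hw.1, hw.2.1⟩
  have hzn : z ∉ realMorse (D.F t) (eball 7 ρ) := fun h => hzr h.2.2.1
  have h5 : (realMorse (D.F t) (eball 7 ρ)).encard + 1 ≤ milnor (poly c) := by
    rw [← Set.encard_insert_of_notMem hzn]
    exact (Set.encard_le_encard hsub).trans ht2
  exact lt_of_lt_of_le (ENat.lt_add_one_iff (by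
    intro h
    rw [h] at h5
    simp at h5)|>.2 le_rfl) h5

end RM
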