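import Pool.Agent.Helper787.RMU
import Pool.Agent.Helper787.RMCount
set_option autoImplicit false
open Metric Complex Filter Topology
namespace RM
open RealMorsification

theorem fix_zero (p : E7) (hp : Node p) (Q : Fin 7 → Fin 7 → ℂ) (hQ : ‖Q‖ ≤ 1) (l : E7) (hl : ‖l‖ ≤ 1) :
    ∃ y : ℂ → E7, DiffContOnCl ℂ y (ball 0 (1/1000)) ∧
      ∀ z ∈ closedBall (0 : ℂ) (1/1000), ‖y z‖ ≤ 10 ∧ TT p Q l (fun _ _ => 0) z (y z) = y z := by
  obtain ⟨y, hy, h⟩ := exists_fixed_holo (F := E7) 0 (1/1000) (by norm_num) 10 (by norm_num)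
    (TT p Q l (fun _ _ => 0))
    (by
      intro z hz y hy
      rw [mem_closedBall_zero_iff] at hz hy ⊢
      exact TT_maps p hp Q hQ l hl _ z hz y hy (by simp))
    (by
      intro z hz y hy y' hy'
      rw [mem_closedBall_zero_iff] at hz hy hy'
      exact TT_lip p hp Q hQ l _ z hz y y' hy hy' (by simp))
    (by
      intro y hy _
      exact TT_holo p Q l _ 0 _ y hy diffContOnCl_const)
  refine ⟨y, hy, fun z hz => ?_⟩
  have := h z hz
  rw [mem_closedBall_zero_iff] at this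
  exact this

/-- the key property of the model, for all `c > 1` close to `1` -/
theorem exists_c : ∃ c0 : ℝ, 1 < c0 ∧ ∀ c : ℝ, 1 < c → c < c0 →
    ∀ (H : Fin 7 → Fin 7 → ℂ), (∀ i j, H i j = H j i) →
      (∀ i j, H (sg i) (sg j) = (starRingEnd ℂ) (H i j)) → H ≠ 0 →
      ∃ R : ℝ, 0 < R ∧ ∃ η : ℝ, 0 < η ∧ ∀ E' : E7 → E7, DifferentiableOn ℂ E' (ball 0 R) →
        (∀ x ∈ ball (0 : E7) R, ‖E' x‖ ≤ η) →
        ∃ x ∈ ball (0 : E7) R, (∀ i, g c x i + ∑ j, H i j * x j + E' x i = 0) ∧ ¬ SReal x := by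
  obtain ⟨κ0, hκ0, h1⟩ := level_one (nodes_quadratic_bound nodes_quadratic)
    (nodes_linear_bound nodes_linear) (fun p hp Q hQ l hl => fix_zero p hp Q hQ l hl)
    (fun p Q l y hy => ww_holo p Q l _ 0 _ y hy diffContOnCl_const)
    (fun p hp Q hQ l hl z hz y hy => ww_case_A p hp Q hQ l hl z hz y hy)
    (fun p hp Q hQ l hl z hz y hy hT => ww_case_B p hp Q hQ l hl z hz y hy hT)
  refine ⟨1 + κ0, by linarith, ?_⟩
  intro c hc hc0 H hs hr hne
  have hκne : ((c - 1 : ℝ) : ℂ) ≠ 0 := by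
    exact_mod_cast (by linarith : (0 : ℝ) < c - 1).ne'
  have hκlt : ‖((c - 1 : ℝ) : ℂ)‖ < κ0 := by
    rw [Complex.norm_real, Real.norm_of_nonneg (by linarith)]
    linarith
  refine level_two c hc ?_ (model_isolated _ hc) H hs hr hne
  intro Q l hQs hQd hQ hl hor
  obtain ⟨p, hp, y, hy, hfix, zs, hz0, hz, hzκ⟩ := h1 _ hκne hκlt Q l hQs hQd hQ hl hor
  have h3 := level_two_norm _ hκne Q hQ l hl p hp y hy hfix zs hz0 hz hzκ
  have hcast : ((c : ℝ) : ℂ) = 1 + ((c - 1 : ℝ) : ℂ) := by push_cast; ring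
  rw [hcast]
  exact h3

theorem eball_subset (r ρ : ℝ) (hρ : 0 < ρ) (h : ρ < r) : eball 7 ρ ⊆ ball (0 : E7) r := by
  intro z hz
  rw [mem_ball_zero_iff]
  refine lt_of_le_of_lt ?_ h
  rw [pi_norm_le_iff_of_nonneg hρ.le]
  intro i
  have h1 : ‖z i‖ ^ 2 ≤ ∑ j, ‖z j‖ ^ 2 :=
    Finset.single_le_sum (f := fun j => ‖z j‖ ^ 2) (fun j _ => by positivity) (Finset.mem_univ i)
  have h2 : ‖z i‖ ^ 2 ≤ ρ ^ 2 := le_trans h1 hz
  exact (pow_le_pow_iff_left₀ (norm_nonneg _) hρ.le two_ne_zero).1 h2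

theorem eball_compact (r ρ : ℝ) (hρ : 0 < ρ) (h : ρ < r) : IsCompact (eball 7 ρ) := by
  refine Metric.isCompact_of_isClosed_isBounded ?_ (Metric.isBounded_ball.subset (eball_subset r ρ hρ h))
  exact isClosed_le (by fun_prop) continuous_const

theorem eball_mem_nhds (ρ : ℝ) (hρ : 0 < ρ) : eball 7 ρ ∈ 𝓝 (0 : E7) := by
  have hc : Continuous (fun z : E7 => ∑ i, ‖z i‖ ^ 2) := by fun_prop
  have h0 : (∑ i, ‖(0 : E7) i‖ ^ 2) < ρ ^ 2 := by
    have : 0 < ρ ^ 2 := by positivity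
    simpa using this
  have h1 : ∀ᶠ z in 𝓝 (0 : E7), ∑ i, ‖z i‖ ^ 2 < ρ ^ 2 :=
    (hc.tendsto 0).eventually (gt_mem_nhds h0)
  exact h1.mono fun z hz => le_of_lt hz

theorem cx_analytic {n : ℕ} (f : MvPolynomial (Fin n) ℝ) (s : Set (Fin n → ℂ)) :
    AnalyticOnNhd ℂ (cx f) s := by
  intro z _
  show AnalyticAt ℂ (fun z : Fin n → ℂ => MvPolynomial.aeval z f) z
  induction f using MvPolynomial.induction_on with
  | C a => simpa using analyticAt_const
  | add p q hp hq => simp only [map_add]; exact hp.add hq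
  | mul_X p i hp =>
    have h2 : AnalyticAt ℂ (fun z : Fin n → ℂ => z i) z :=
      (ContinuousLinearMap.proj (R := ℂ) (φ := fun _ : Fin n => ℂ) i).analyticAt z
    simp only [map_mul, MvPolynomial.aeval_X]; exact hp.mul h2

theorem core {ι : Type*} {𝓕 : Filter ι} [𝓕.NeBot] (c : ℝ) (hc : 1 < c)
    (h2 : ∀ (H : Fin 7 → Fin 7 → ℂ), (∀ i j, H i j = H j i) →
      (∀ i j, H (sg i) (sg j) = (starRingEnd ℂ) (H i j)) → H ≠ 0 →
      ∃ R : ℝ, 0 < R ∧ ∃ η : ℝ, 0 < η ∧ ∀ E' : E7 → E7, DifferentiableOn ℂ E' (ball 0 R) →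
        (∀ x ∈ ball (0 : E7) R, ‖E' x‖ ≤ η) →
        ∃ x ∈ ball (0 : E7) R, (∀ i, g c x i + ∑ j, H i j * x j + E' x i = 0) ∧ ¬ SReal x)
    (F : ι → E7 → ℂ) (r : ℝ) (hr : 0 < r)
    (hana : ∀ᶠ t in 𝓕, AnalyticOnNhd ℂ (F t) (ball 0 r))
    (hreal : ∀ᶠ t in 𝓕, ∀ x : Fin 7 → ℝ, toC x ∈ ball (0 : E7) r → (F t (toC x)).im = 0)
    (hu : TendstoUniformlyOn F (cx (poly c)) 𝓕 (ball 0 r))
    (ρ : ℝ) (hρ : 0 < ρ) (hρr : ρ < r)
    (hbase : ∀ᶠ t in 𝓕, ∃ a ∈ critSet (F t) (eball 7 ρ), IsRealPt a ∧ (hess (F t) a).det ≠ 0) :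
    ∃ᶠ t in 𝓕, ∃ z ∈ critSet (F t) (eball 7 ρ), ¬ IsRealPt z := by
  classical
  -- base points
  let a : ι → E7 := fun t => if h : ∃ a ∈ critSet (F t) (eball 7 ρ), IsRealPt a ∧ (hess (F t) a).det ≠ 0
    then h.choose else 0
  have ha : ∀ᶠ t in 𝓕, a t ∈ critSet (F t) (eball 7 ρ) ∧ IsRealPt (a t) ∧
      (hess (F t) (a t)).det ≠ 0 := by
    filter_upwards [hbase] with t ht
    have : a t = ht.choose := by simp only [a]; rw [dif_pos ht]
    rw [this]
    exact ⟨ht.choose_spec.1, ht.choose_spec.2⟩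
  have hiso : ∀ z ∈ eball 7 ρ, fderiv ℂ (cx (poly c)) z = 0 → z = 0 := by
    intro z _ hz
    have h1 : GG (cx (poly c)) (A z) = 0 := by
      rw [GG_zero_iff, Ai_A]; exact hz
    rw [GG_poly] at h1
    have h3 := model_isolated c hc _ h1
    have h4 : Ai (A z) = 0 := by rw [h3]; simp
    rwa [Ai_A] at h4
  have hat : Tendsto a 𝓕 (𝓝 0) :=
    crit_tendsto (cx (poly c)) F r (cx_analytic _ _) hana hu (eball 7 ρ)
      (eball_compact r ρ hρ hρr) (eball_subset r ρ hρ hρr) hiso a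
      (ha.mono fun t ht => ⟨ht.1.1, ht.1.2⟩)
  have hb0 : Tendsto (fun t => A (a t)) 𝓕 (𝓝 0) := by
    have := (A.continuous.tendsto 0).comp hat
    simpa [Function.comp_def] using this
  have hr2 : (0 : ℝ) < r / 2 := by positivity
  have hball : ∀ᶠ t in 𝓕, A (a t) ∈ ball (0 : E7) r :=
    hb0.eventually (Metric.ball_mem_nhds 0 hr)
  have hV : {x : E7 | Ai x ∈ eball 7 ρ} ∈ 𝓝 (0 : E7) := by
    have h1 : Tendsto (fun x => Ai x) (𝓝 (0 : E7)) (𝓝 0) := by
      have := Ai.continuous.tendsto 0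
      simpa using this
    exact h1 (eball_mem_nhds ρ hρ)
  have key := level_three c h2 (r / 2) hr2 (fun t => GG (F t))
    (hana.mono fun t ht => (GG_analytic _ _ ht).mono (ball_subset_ball (by linarith)))
    (GG_unif c F r hr hana hu) (fun t => A (a t)) hb0
    (ha.mono fun t ht => by
      show GG (F t) (A (a t)) = 0
      rw [GG_zero_iff, Ai_A]; exact ht.1.2)
    (ha.mono fun t ht => by
      rw [sreal_iff, Ai_A]; exact ht.2.1)
    (by
      filter_upwards [hana, hball] with t h1 h2 i j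
      exact GG_symm (F t) r h1 _ h2 i j)
    (by
      filter_upwards [hana, hball, ha, hreal] with t h1 h2 h3 h4 i j
      refine GG_twist (F t) r h1 h4 _ h2 ?_ i j
      rw [sreal_iff, Ai_A]; exact h3.2.1)
    (by
      filter_upwards [hana, hball, ha] with t h1 h2 h3
      refine GG_ne (F t) r h1 _ h2 ?_
      rw [Ai_A]; exact h3.2.2)
    _ hV
  refine key.mono ?_
  rintro t ⟨x, hx, hx0, hxn⟩
  refine ⟨Ai x, ⟨hx, (GG_zero_iff _ _).1 hx0⟩, ?_⟩
  rwa [← sreal_iff]

/-- the polynomial has the right critical point -/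
theorem poly_crit (c : ℝ) (hc : 1 < c) (z : E7) : fderiv ℂ (cx (poly c)) z = 0 ↔ z = 0 := by
  have h1 : fderiv ℂ (cx (poly c)) z = 0 ↔ g c (A z) = 0 := by
    rw [← GG_poly, GG_zero_iff, Ai_A]
  rw [h1]
  constructor
  · intro h
    have h3 := model_isolated c hc _ h
    have h4 : Ai (A z) = 0 := by rw [h3]; simp
    rwa [Ai_A] at h4
  · rintro rfl
    ext i
    simp [g]

theorem hasFDerivAt_aeval_cx {n : ℕ} (p : MvPolynomial (Fin n) ℂ) (z : Fin n → ℂ) :
    HasFDerivAt (fun w : Fin n → ℂ => MvPolynomial.aeval w p)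
      (∑ j, (MvPolynomial.aeval z (MvPolynomial.pderiv j p)) •
        (ContinuousLinearMap.proj j : (Fin n → ℂ) →L[ℂ] ℂ)) z := by
  induction p using MvPolynomial.induction_on with
  | C a =>
    have h : HasFDerivAt (fun _ : Fin n → ℂ => a) (0 : (Fin n → ℂ) →L[ℂ] ℂ) z :=
      hasFDerivAt_const a z
    simp only [MvPolynomial.aeval_C]
    refine h.congr_fderiv ?_
    apply ContinuousLinearMap.ext
    intro v
    rw [ContinuousLinearMap.sum_apply]
    symm
    apply Finset.sum_eq_zero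
    intro j _
    rw [MvPolynomial.pderiv_C, map_zero, ContinuousLinearMap.smul_apply]
    exact zero_smul ℂ _
  | add p q hp hq =>
    simp only [map_add]
    refine (hp.add hq).congr_fderiv ?_
    rw [← Finset.sum_add_distrib]
    refine Finset.sum_congr rfl fun j _ => ?_
    rw [← add_smul]
  | mul_X p k hp =>
    have hX : HasFDerivAt (fun w : Fin n → ℂ => w k)
        (ContinuousLinearMap.proj k : (Fin n → ℂ) →L[ℂ] ℂ) z :=
      (ContinuousLinearMap.proj k : (Fin n → ℂ) →L[ℂ] ℂ).hasFDerivAt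
    have h := hp.mul hX
    simp only [map_mul, MvPolynomial.aeval_X]
    refine h.congr_fderiv ?_
    apply ContinuousLinearMap.ext
    intro v
    simp only [ContinuousLinearMap.add_apply, ContinuousLinearMap.smul_apply,
      ContinuousLinearMap.sum_apply, ContinuousLinearMap.proj_apply, smul_eq_mul,
      MvPolynomial.pderiv_mul, MvPolynomial.pderiv_X, map_add, map_mul, MvPolynomial.aeval_X,
      add_mul, Finset.sum_add_distrib, Finset.mul_sum]
    rw [add_comm]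
    congr 1
    · refine Finset.sum_congr rfl fun j _ => ?_
      ring
    · rw [Finset.sum_eq_single k]
      · simp
      · intro j _ hj
        simp [Pi.single_apply, hj]
      · simp

/-- partial derivatives of the complexification of a real polynomial -/
theorem fderiv_cx0 {n : ℕ} (f : MvPolynomial (Fin n) ℝ) (z : Fin n → ℂ) (i : Fin n) :
    fderiv ℂ (fun z : Fin n → ℂ => MvPolynomial.aeval z f) z (Pi.single i 1) =
      MvPolynomial.aeval z (MvPolynomial.pderiv i (MvPolynomial.map (algebraMap ℝ ℂ) f)) := by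
  have h1 : (fun w : Fin n → ℂ => MvPolynomial.aeval w f)
      = fun w : Fin n → ℂ => MvPolynomial.aeval w (MvPolynomial.map (algebraMap ℝ ℂ) f) := by
    funext w
    rw [MvPolynomial.aeval_map_algebraMap]
  rw [h1, (hasFDerivAt_aeval_cx _ z).fderiv, ContinuousLinearMap.sum_apply,
    Finset.sum_eq_single i]
  · simp
  · intro j _ hj
    simp [Pi.single_apply, hj]
  · simp

theorem fderiv_cx {n : ℕ} (f : MvPolynomial (Fin n) ℝ) (z : Fin n → ℂ) (i : Fin n) :
    fderiv ℂ (cx f) z (Pi.single i 1) =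
      MvPolynomial.aeval z (MvPolynomial.pderiv i (MvPolynomial.map (algebraMap ℝ ℂ) f)) :=
  fderiv_cx0 f z i

theorem milnor_poly (c : ℝ) (hc : 1 < c) :
    Module.Finite ℂ (Conv 7 ⧸ jacobianIdeal (poly c)) ∧ 0 < milnor (poly c) := by
  have hz : ∀ z : Fin 7 → ℂ, (∀ i, MvPolynomial.aeval z
      (MvPolynomial.pderiv i (MvPolynomial.map (algebraMap ℝ ℂ) (poly c))) = 0) ↔ z = 0 := by
    intro z
    rw [← poly_crit c hc z]
    constructor
    · intro h
      have h1 : ∀ v : E7, fderiv ℂ (cx (poly c)) z v = 0 := by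
        intro v
        have hv : v = ∑ i, v i • (Pi.single i (1 : ℂ) : E7) := by
          ext j
          simp [Finset.sum_apply, Pi.single_apply]
        rw [hv, map_sum]
        refine Finset.sum_eq_zero fun i _ => ?_
        rw [map_smul, fderiv_cx, h i, smul_zero]
      ext v
      simp [h1]
    · intro h i
      rw [← fderiv_cx, h]; simp
  refine milnor_pos (poly c) ?_ (fun z hzz => (hz z).1 hzz)
  intro i
  have h := (hz 0).2 rfl i
  rw [MvPolynomial.constantCoeff_eq]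
  have h2 : MvPolynomial.aeval (0 : Fin 7 → ℂ) (MvPolynomial.pderiv i (MvPolynomial.map (algebraMap ℝ ℂ) (poly c))) =
      MvPolynomial.constantCoeff (MvPolynomial.pderiv i (MvPolynomial.map (algebraMap ℝ ℂ) (poly c))) := by
    simpa using MvPolynomial.aeval_zero (MvPolynomial.pderiv i (MvPolynomial.map (algebraMap ℝ ℂ) (poly c)))
  rw [h2, MvPolynomial.constantCoeff_eq] at h
  exact h

/-- N4 : number of critical points of a small perturbation is at most the Milnor number -/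
theorem count_bound {n : ℕ} (f : MvPolynomial (Fin n) ℝ) (K : ℕ)
    (hK : ∀ i, (MvPolynomial.X i : MvPolynomial (Fin n) ℂ) ^ K ∈ Ideal.span (Set.range fun i =>
      MvPolynomial.pderiv i (MvPolynomial.map (algebraMap ℝ ℂ) f)))
    (r ρ : ℝ) (hρ : 0 < ρ) (hρr : ρ < r) :
    ∃ δ : ℝ, 0 < δ ∧ ∀ G : (Fin n → ℂ) → ℂ, AnalyticOnNhd ℂ G (ball 0 r) →
      (∀ z ∈ ball (0 : Fin n → ℂ) r, ‖G z - cx f z‖ ≤ δ) →
      (critSet G (closedBall 0 ρ)).encard ≤ milnor f := by
  obtain ⟨S, hS⟩ := exists_poly_basis _ K hK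
  obtain ⟨C2, hC2, hdiv⟩ := division _ K hK _ S hS ρ hρ
  have hr1 : ρ < (ρ + r) / 2 := by linarith
  have hr2 : (ρ + r) / 2 < r := by linarith
  obtain ⟨C1, hC1, htay⟩ := taylor_approx n ρ ((ρ + r) / 2) hρ hr1
  have hη : (0 : ℝ) < 1 / (n * C2 + 1) := by positivity
  have hd : (0 : ℝ) < r - (ρ + r) / 2 := by linarith
  refine ⟨1 / (n * C2 + 1) * (r - (ρ + r) / 2) / C1, by positivity, fun G hG hδ => ?_⟩
  by_contra hcon
  rw [not_le] at hcon
  have h1 : ((milnor f + 1 : ℕ) : ℕ∞) ≤ (critSet G (closedBall 0 ρ)).encard := by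
    push_cast
    exact Order.add_one_le_of_lt hcon
  obtain ⟨t, hts, htc⟩ := Set.exists_subset_encard_eq h1
  have htfin : t.Finite := Set.finite_of_encard_eq_coe htc
  have htn : t.ncard = milnor f + 1 := by
    rw [Set.ncard, htc]; rfl
  have hcard : htfin.toFinset.card = milnor f + 1 := by
    rw [← Set.ncard_eq_toFinset_card t htfin, htn]
  let eqv := (htfin.toFinset.equivFin.trans (finCongr hcard)).symm
  let z : Fin (milnor f + 1) → (Fin n → ℂ) := fun j => (eqv j : (Fin n → ℂ))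
  have hzt : ∀ j, z j ∈ critSet G (closedBall 0 ρ) := fun j => hts (by
    have := (eqv j).2
    rwa [Set.Finite.mem_toFinset] at this)
  have hinj : Function.Injective z := fun i j h => eqv.injective (Subtype.ext h)
  have hsub : AnalyticOnNhd ℂ (fun w => G w - cx f w) (ball 0 r) := hG.sub (cx_analytic f _)
  have hfd : ∀ w ∈ ball (0 : Fin n → ℂ) r, fderiv ℂ (fun w => G w - cx f w) w = fderiv ℂ G w - fderiv ℂ (cx f) w := by
    intro w hw
    exact fderiv_sub (hG w hw).differentiableAt (cx_analytic f _ w (Set.mem_univ w)).differentiableAt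
  let e : Fin n → (Fin n → ℂ) → ℂ := fun i w => fderiv ℂ (fun w => G w - cx f w) w (Pi.single i 1)
  have hean : ∀ i, AnalyticOnNhd ℂ (e i) (ball 0 ((ρ + r) / 2)) := by
    intro i w hw
    have hw' : w ∈ ball (0 : Fin n → ℂ) r := ball_subset_ball hr2.le hw
    have := (hsub w hw').fderiv
    exact (ContinuousLinearMap.apply ℂ ℂ (Pi.single i (1 : ℂ) : Fin n → ℂ)).analyticAt _ |>.comp this
  have hbd : ∀ i, ∀ w ∈ ball (0 : Fin n → ℂ) ((ρ + r) / 2), ‖e i w‖ ≤ 1 / (n * C2 + 1) / C1 := by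
    intro i w hw
    have hw' : ‖w‖ < (ρ + r) / 2 := by simpa using hw
    have hsb : ball w (r - (ρ + r) / 2) ⊆ ball (0 : Fin n → ℂ) r := by
      intro x hx
      rw [mem_ball, dist_eq_norm] at hx
      rw [mem_ball_zero_iff]
      calc ‖x‖ = ‖(x - w) + w‖ := by rw [sub_add_cancel]
        _ ≤ ‖x - w‖ + ‖w‖ := norm_add_le _ _
        _ < r := by linarith
    have h3 := fderiv_bound (fun w => G w - cx f w) w (r - (ρ + r) / 2)
      (1 / (n * C2 + 1) * (r - (ρ + r) / 2) / C1) hd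
      (fun x hx => (hsub x (hsb hx)).differentiableAt.differentiableWithinAt)
      (fun x hx => hδ x (hsb hx))
    have h4 : ‖(Pi.single i (1 : ℂ) : Fin n → ℂ)‖ ≤ 1 := by
      rw [Pi.norm_single]; simp
    calc ‖e i w‖ ≤ ‖fderiv ℂ (fun w => G w - cx f w) w‖ * ‖(Pi.single i (1 : ℂ) : Fin n → ℂ)‖ :=
          ContinuousLinearMap.le_opNorm _ _
      _ ≤ ‖fderiv ℂ (fun w => G w - cx f w) w‖ * 1 := by gcongr
      _ ≤ 1 / (n * C2 + 1) * (r - (ρ + r) / 2) / C1 / (r - (ρ + r) / 2) := by rw [mul_one]; exact h3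
      _ = 1 / (n * C2 + 1) / C1 := by
          rw [div_div, mul_comm C1, ← div_div, mul_div_assoc, div_self hd.ne', mul_one]
  choose E hE1 hE2 using fun i => htay (e i) _ (hean i) (hbd i)
  refine count_zeros (fun i => MvPolynomial.pderiv i (MvPolynomial.map (algebraMap ℝ ℂ) f)) _ S ρ hρ C2 hC2 hdiv
    (1 / (n * C2 + 1)) hη.le ?_ z (fun j => by simpa using (hzt j).1) hinj e ?_ E ?_ ?_
  · rw [mul_one_div, div_lt_one (by positivity)]; linarith
  · intro i j
    have hzr : z j ∈ ball (0 : Fin n → ℂ) r := by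
      have := (hzt j).1
      rw [mem_closedBall_zero_iff] at this
      rw [mem_ball_zero_iff]; linarith
    show _ + fderiv ℂ (fun w => G w - cx f w) (z j) (Pi.single i 1) = 0
    rw [hfd _ hzr, (hzt j).2, ← fderiv_cx]
    simp
  · intro i k
    refine (hE1 i k).trans (le_of_eq ?_)
    field_simp
  · intro i j
    exact hE2 i (z j) (by simpa using (hzt j).1)


end RM
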