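import Pool.Agent.Helper787.RMCore
set_option autoImplicit false
open Metric Complex Filter Topology
namespace RM

theorem l2_node_norm (p : E7) (hp : Node p) (i : Fin 7) : ‖p i‖ = 1 := by
  rcases hp.1 i with h | h <;> rw [h] <;> simp

theorem l2_inner (p : E7) (zs : ℂ) (r1 : ℝ) (hr1 : 0 < r1) (w : ℂ → E7)
    (hw : DiffContOnCl ℂ w (ball zs r1)) (hz : ∀ z ∈ closedBall zs r1, z ≠ 0) (E' : E7 → E7) (R : ℝ)
    (hE' : DifferentiableOn ℂ E' (ball 0 R))
    (hx : ∀ z ∈ closedBall zs r1, (fun i => p i / z + w z i) ∈ ball (0 : E7) R) :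
    DiffContOnCl ℂ (fun z => E' (fun i => p i / z + w z i)) (ball zs r1) := by
  have hcl : closure (ball zs r1) = closedBall zs r1 := closure_ball zs hr1.ne'
  have hsub : ball zs r1 ⊆ closedBall zs r1 := ball_subset_closedBall
  have hin1 : DifferentiableOn ℂ (fun z => (fun i => p i / z + w z i : E7)) (ball zs r1) := by
    rw [differentiableOn_pi]
    intro i
    refine DifferentiableOn.add ?_ ?_
    · exact DifferentiableOn.div (differentiableOn_const _) differentiableOn_id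
        (fun z hz' => hz z (hsub hz'))
    · exact (differentiableOn_pi.1 hw.differentiableOn) i
  have hin2 : ContinuousOn (fun z => (fun i => p i / z + w z i : E7)) (closedBall zs r1) := by
    rw [continuousOn_pi]
    intro i
    refine ContinuousOn.add ?_ ?_
    · exact ContinuousOn.div continuousOn_const continuousOn_id (fun z hz' => hz z hz')
    · have := hw.continuousOn
      rw [hcl] at this
      exact (continuousOn_pi.1 this) i
  refine ⟨?_, ?_⟩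
  · exact hE'.comp hin1 (fun z hz' => hx z (hsub hz'))
  · rw [hcl]
    exact hE'.continuousOn.comp hin2 (fun z hz' => hx z hz')

theorem l2_open (f : ℂ → ℂ) (zs : ℂ) (r1 : ℝ) (hr1 : 0 < r1) (m : ℝ) (hm : 0 < m)
    (hf : DiffContOnCl ℂ f (ball zs r1)) (hs : ∀ z ∈ sphere zs r1, m ≤ ‖f z - f zs‖) (κ : ℂ)
    (hκ : ‖κ - f zs‖ < m / 2) : ∃ z ∈ closedBall zs r1, f z = κ := by
  have hfreq : ∃ᶠ z in 𝓝 zs, f z ≠ f zs := by
    intro hev
    have hev' : f =ᶠ[𝓝 zs] (fun _ => f zs) := by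
      filter_upwards [hev] with z hz
      simpa using hz
    have han : AnalyticOnNhd ℂ f (ball zs r1) :=
      hf.differentiableOn.analyticOnNhd isOpen_ball
    have heq : Set.EqOn f (fun _ => f zs) (ball zs r1) :=
      han.eqOn_of_preconnected_of_eventuallyEq analyticOnNhd_const
        (convex_ball zs r1).isPreconnected (mem_ball_self hr1) hev'
    have heq2 : Set.EqOn f (fun _ => f zs) (closure (ball zs r1)) :=
      heq.of_subset_closure hf.continuousOn continuousOn_const subset_closure (le_refl _)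
    rw [closure_ball zs hr1.ne'] at heq2
    have hmem : zs + (r1 : ℂ) ∈ sphere zs r1 := by
      simp [abs_of_pos hr1]
    have h1 := hs _ hmem
    have h2 := heq2 (sphere_subset_closedBall hmem)
    simp only at h2
    rw [h2] at h1
    simp at h1
    linarith
  have := hf.ball_subset_image_closedBall hr1 hs hfreq
  have h3 : κ ∈ ball (f zs) (m / 2) := by
    rw [mem_ball, dist_eq_norm]
    exact hκ
  obtain ⟨z, hz, hz'⟩ := this h3
  exact ⟨z, hz, hz'⟩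

/-- L2n : persistence of the non-real solution under a small holomorphic perturbation (TARGET: prove this one, using the lemmas above) -/
theorem level_two_norm (κ : ℂ) (hκ : κ ≠ 0) (Q : Fin 7 → Fin 7 → ℂ) (hQ : ‖Q‖ ≤ 1) (l : E7) (hl : ‖l‖ ≤ 1)
    (p : E7) (hp : Node p) (y : ℂ → E7) (hy : DiffContOnCl ℂ y (ball 0 (1/1000)))
    (hfix : ∀ z ∈ closedBall (0 : ℂ) (1/1000), ‖y z‖ ≤ 10 ∧ TT p Q l (fun _ _ => 0) z (y z) = y z)
    (zs : ℂ) (hzs0 : zs ≠ 0) (hzs : ‖zs‖ ≤ 1/2000)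
    (hκz : zs * ww p Q l (fun _ _ => 0) zs (y zs) = κ) :
    ∃ R : ℝ, 0 < R ∧ ∃ η : ℝ, 0 < η ∧ ∀ E' : E7 → E7, DifferentiableOn ℂ E' (ball 0 R) →
      (∀ x ∈ ball (0 : E7) R, ‖E' x‖ ≤ η) →
      ∃ x ∈ ball (0 : E7) R, (∀ i, g (1 + κ) x i + ∑ j, Q i j * x j + l i + E' x i = 0) ∧ ¬ SReal x := by
  have hzs1 : 0 < ‖zs‖ := norm_pos_iff.2 hzs0
  set h : ℂ → ℂ := fun z => z * ww p Q l (fun _ _ => 0) z (y z) with hh
  have hd0 : DiffContOnCl ℂ h (ball 0 (1/1000)) :=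
    ww_holo p Q l (fun _ _ => 0) 0 (1/1000) y hy diffContOnCl_const
  have h0 : h 0 ≠ κ := by
    simp only [hh, zero_mul]
    exact hκ.symm
  obtain ⟨r1, hr1, hr1', hsub, m, hm, hsph⟩ := isolated_circle h (1/1000) hd0.differentiableOn κ h0
    (by norm_num) zs (by rw [mem_ball, dist_zero_right]; linarith) hκz (min (‖zs‖/2) (1/2000))
    (lt_min (by positivity) (by norm_num))
  have hr2 : r1 < ‖zs‖ / 2 := lt_of_lt_of_le hr1' (min_le_left _ _)
  refine ⟨2/‖zs‖ + 12, by positivity, min 1 m, lt_min one_pos hm, ?_⟩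
  intro E' hE' hEb
  set R : ℝ := 2/‖zs‖ + 12 with hR
  set η : ℝ := min 1 m with hη
  have hη0 : 0 < η := lt_min one_pos hm
  have hη1 : η ≤ 1 := min_le_left _ _
  have hηm : η ≤ m := min_le_right _ _
  have hlipE := lip_of_bound E' R η hE' hEb
  have hp1 := l2_node_norm p hp
  have hz1 : ∀ z ∈ closedBall zs r1, ‖zs‖ / 2 ≤ ‖z‖ := by
    intro z hz
    rw [mem_closedBall, dist_eq_norm] at hz
    have h1 : ‖zs‖ ≤ ‖z‖ + ‖z - zs‖ := by
      have := norm_sub_le z (z - zs)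
      simpa using this
    linarith
  have hz0 : ∀ z ∈ closedBall zs r1, z ≠ 0 := by
    intro z hz h0
    have := hz1 z hz
    rw [h0, norm_zero] at this
    linarith
  have hz2 : ∀ z ∈ closedBall zs r1, ‖z‖ ≤ 1/1000 := by
    intro z hz
    have := hsub hz
    rw [mem_ball, dist_zero_right] at this
    exact this.le
  have hx1 : ∀ z ∈ closedBall zs r1, ∀ w ∈ closedBall (0:E7) 10,
      (fun i => p i / z + w i) ∈ ball (0:E7) (R-1) := by
    intro z hz w hw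
    rw [mem_ball, dist_zero_right]
    rw [mem_closedBall, dist_zero_right] at hw
    have hRpos : (0:ℝ) < R - 1 := by
      rw [hR]
      have : (0:ℝ) < 2 / ‖zs‖ := by positivity
      linarith
    rw [pi_norm_lt_iff hRpos]
    intro i
    have h1 : ‖p i / z + w i‖ ≤ ‖p i / z‖ + ‖w i‖ := norm_add_le _ _
    have h2 : ‖p i / z‖ ≤ 2 / ‖zs‖ := by
      rw [norm_div, hp1 i, div_le_div_iff₀ (lt_of_lt_of_le (by positivity) (hz1 z hz)) hzs1]
      have := hz1 z hz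
      linarith
    have h3 : ‖w i‖ ≤ 10 := (norm_le_pi_norm w i).trans hw
    have h4 : ‖p i / z + w i‖ ≤ 2 / ‖zs‖ + 10 := by linarith
    rw [hR]
    linarith
  have hx2 : ∀ z ∈ closedBall zs r1, ∀ w ∈ closedBall (0:E7) 10,
      (fun i => p i / z + w i) ∈ ball (0:E7) R := by
    intro z hz w hw
    exact ball_subset_ball (by linarith) (hx1 z hz w hw)
  obtain ⟨e, he⟩ : ∃ e : ℂ → E7 → E7, e = fun z w => E' (fun i => p i / z + w i) := ⟨_, rfl⟩
  have he1 : ∀ z ∈ closedBall zs r1, ∀ w ∈ closedBall (0:E7) 10, ‖e z w‖ ≤ η := by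
    intro z hz w hw
    rw [he]
    exact hEb _ (hx2 z hz w hw)
  have he2 : ∀ z ∈ closedBall zs r1, ∀ w ∈ closedBall (0:E7) 10, ∀ w' ∈ closedBall (0:E7) 10,
      ‖e z w - e z w'‖ ≤ ‖w - w'‖ := by
    intro z hz w hw w' hw'
    rw [he]
    have h1 := hlipE _ (hx1 z hz w hw) _ (hx1 z hz w' hw')
    have h2 : ((fun i => p i / z + w i) - (fun i => p i / z + w' i) : E7) = w - w' := by
      funext i
      simp
    rw [h2] at h1
    have h3 : η * ‖w - w'‖ ≤ 1 * ‖w - w'‖ := mul_le_mul_of_nonneg_right hη1 (norm_nonneg _)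
    simp only
    linarith
  have hhol : ∀ w : ℂ → E7, DiffContOnCl ℂ w (ball zs r1) →
      (∀ z ∈ closedBall zs r1, w z ∈ closedBall (0:E7) 10) →
      DiffContOnCl ℂ (fun z => e z (w z)) (ball zs r1) := by
    intro w hw hw'
    rw [he]
    exact l2_inner p zs r1 hr1 w hw hz0 E' R hE' (fun z hz => hx2 z hz (w z) (hw' z hz))
  have hlipT : ∀ z ∈ closedBall zs r1, ∀ w ∈ closedBall (0 : E7) 10, ∀ w' ∈ closedBall (0 : E7) 10,
      ‖TT p Q l e z w - TT p Q l e z w'‖ ≤ (1/2) * ‖w - w'‖ := by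
    intro z hz w hw w' hw'
    exact TT_lip p hp Q hQ l e z (hz2 z hz) w w' (by simpa using hw) (by simpa using hw')
      (he2 z hz w hw w' hw')
  obtain ⟨yE, hyE, hyE'⟩ := exists_fixed_holo zs r1 hr1 10 (by norm_num) (fun z w => TT p Q l e z w)
    (by
      intro z hz w hw
      rw [mem_closedBall, dist_zero_right]
      exact TT_maps p hp Q hQ l hl e z (hz2 z hz) w (by simpa using hw) ((he1 z hz w hw).trans hη1))
    hlipT
    (by
      intro w hw hw'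
      exact TT_holo p Q l e zs r1 w hw (hhol w hw hw'))
  have hclose : ∀ z ∈ closedBall zs r1,
      ‖z * ww p Q l e z (yE z) - h z‖ ≤ m / 200 := by
    intro z hz
    have hzm : z ∈ closedBall (0:ℂ) (1/1000) := by
      rw [mem_closedBall, dist_zero_right]
      exact hz2 z hz
    obtain ⟨hy1, hy2⟩ := hfix z hzm
    obtain ⟨hy3, hy4⟩ := hyE' z hz
    have hyc : y z ∈ closedBall (0:E7) 10 := by simpa using hy1
    have h1 : ‖yE z - y z‖ ≤ 2 * η :=
      fixed_close (TT p Q l e z) (TT p Q l (fun _ _ => 0) z) 10 η (hlipT z hz)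
        (by
          intro w hw
          refine TT_close p hp Q l e (fun _ _ => 0) z (hz2 z hz) w η ?_
          simpa using he1 z hz w hw)
        (yE z) (y z) hy3 hyc hy4 hy2
    have h2 : ‖ww p Q l e z (yE z) - ww p Q l (fun _ _ => 0) z (y z)‖ ≤ η + 2 * (2 * η) := by
      refine ww_close p hp Q hQ l e (fun _ _ => 0) z (hz2 z hz) (yE z) (y z) (by simpa using hy3) hy1
        η (2 * η) ?_ h1
      simpa using he1 z hz (yE z) hy3
    have h3 : z * ww p Q l e z (yE z) - h z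
        = z * (ww p Q l e z (yE z) - ww p Q l (fun _ _ => 0) z (y z)) := by
      rw [hh]
      ring
    rw [h3, norm_mul]
    have h4 : ‖z‖ * ‖ww p Q l e z (yE z) - ww p Q l (fun _ _ => 0) z (y z)‖
        ≤ (1/1000) * (η + 2 * (2 * η)) :=
      mul_le_mul (hz2 z hz) h2 (norm_nonneg _) (by norm_num)
    linarith
  have hzsm : zs ∈ closedBall zs r1 := mem_closedBall_self hr1.le
  have hhE : DiffContOnCl ℂ (fun z => z * ww p Q l e z (yE z)) (ball zs r1) :=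
    ww_holo p Q l e zs r1 yE hyE (hhol yE hyE (fun z hz => (hyE' z hz).1))
  have hczs : ‖zs * ww p Q l e zs (yE zs) - κ‖ ≤ m / 200 := by
    have := hclose zs hzsm
    have h5 : h zs = κ := hκz
    rwa [h5] at this
  obtain ⟨z1, hz1m, hz1κ⟩ := l2_open (fun z => z * ww p Q l e z (yE z)) zs r1 hr1 (m / 2)
    (by positivity) hhE
    (by
      intro z hz
      have h1 := hsph z hz
      have h2 := hclose z (sphere_subset_closedBall hz)
      have h3 : h z - κ = ((z * ww p Q l e z (yE z)) - (zs * ww p Q l e zs (yE zs)))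
          - ((z * ww p Q l e z (yE z)) - h z) + ((zs * ww p Q l e zs (yE zs)) - κ) := by ring
      have h4 : ‖h z - κ‖ ≤ ‖(z * ww p Q l e z (yE z)) - (zs * ww p Q l e zs (yE zs))‖
          + ‖(z * ww p Q l e z (yE z)) - h z‖ + ‖(zs * ww p Q l e zs (yE zs)) - κ‖ := by
        rw [h3]
        refine (norm_add_le _ _).trans ?_
        gcongr
        exact norm_sub_le _ _
      linarith) κ
    (by
      rw [norm_sub_rev]
      linarith)
  obtain ⟨hy3, hy4⟩ := hyE' z1 hz1m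
  have hy5 : ‖yE z1‖ ≤ 10 := by simpa using hy3
  refine ⟨fun i => p i / z1 + yE z1 i, hx2 z1 hz1m _ hy3, ?_, ?_⟩
  · intro i
    have := key_identity p hp Q l e z1 κ (yE z1) (hz0 z1 hz1m) hy4 hz1κ i
    rw [he] at this
    exact this
  · exact not_sreal p hp z1 (yE z1) (hz0 z1 hz1m) (hz2 z1 hz1m) hy5

theorem expansion_an (c : ℂ) (x : E7) : AnalyticAt ℂ (g c) x := by
  rw [analyticAt_pi_iff]
  intro i
  have h1 : ∀ j : Fin 7, AnalyticAt ℂ (fun x : E7 => x j) x := fun j =>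
    (ContinuousLinearMap.proj (R := ℂ) (φ := fun _ : Fin 7 => ℂ) j).analyticAt x
  have h2 : AnalyticAt ℂ (fun x : E7 => ∑ j, x j) x :=
    Finset.analyticAt_fun_sum _ (fun j _ => h1 j)
  exact (analyticAt_const.mul ((h1 i).pow 2)).sub (analyticAt_const.mul (h2.pow 2))

theorem expansion_fd (c : ℂ) (b y : E7) (i : Fin 7) :
    fderiv ℂ (g c) b y i = 6 * b i * y i - 6 * c * (∑ j, b j) * (∑ j, y j) := by
  have h1 : ∀ j : Fin 7, HasFDerivAt (fun x : E7 => x j)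
      (ContinuousLinearMap.proj (R := ℂ) (φ := fun _ : Fin 7 => ℂ) j) b := fun j =>
    hasFDerivAt_apply j b
  have h2 : HasFDerivAt (fun x : E7 => ∑ j, x j)
      (∑ j, ContinuousLinearMap.proj (R := ℂ) (φ := fun _ : Fin 7 => ℂ) j) b :=
    HasFDerivAt.fun_sum (fun j _ => h1 j)
  have h3 := ((h1 i).pow 2).const_mul 3
  have h4 := (h2.pow 2).const_mul (3 * c)
  have h5 := h3.sub h4
  have h6 : DifferentiableAt ℂ (g c) b := (expansion_an c b).differentiableAt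
  have h7 : HasFDerivAt (fun x => g c x i)
      ((ContinuousLinearMap.proj (R := ℂ) (φ := fun _ : Fin 7 => ℂ) i).comp (fderiv ℂ (g c) b)) b :=
    hasFDerivAt_pi'.1 h6.hasFDerivAt i
  have h8 := h7.unique h5
  have h9 := congrArg (fun L => L y) h8
  simp at h9
  rw [h9]
  ring

/-- L3a : expansion of a perturbation of `g c` at a zero (TARGET) -/
theorem expansion (c : ℂ) (Gt : E7 → E7) (r δ : ℝ) (hr : 0 < r) (hana : AnalyticOnNhd ℂ Gt (ball 0 r))
    (hδ : ∀ x ∈ ball (0 : E7) r, ‖Gt x - g c x‖ ≤ δ) (b y : E7) (hb : ‖b‖ ≤ r / 4) (hy : ‖y‖ ≤ r / 4)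
    (hz : Gt b = 0) :
    ‖Gt (b + y) - g c y - fderiv ℂ Gt b y‖ ≤ (64 / r ^ 2) * δ * ‖y‖ ^ 2 := by
  have hδ0 : ∀ x ∈ ball (0 : E7) r, ‖(fun x => Gt x - g c x) x‖ ≤ δ := hδ
  have he : AnalyticOnNhd ℂ (fun x => Gt x - g c x) (ball 0 r) := fun x hx =>
    (hana x hx).sub (expansion_an c x)
  have h1 := remainder (fun x => Gt x - g c x) r δ hr he hδ0 b y hb hy
  have hbr : b ∈ ball (0 : E7) r := by
    rw [mem_ball_zero_iff]
    linarith
  have hfd : fderiv ℂ (fun x => Gt x - g c x) b y = fderiv ℂ Gt b y - fderiv ℂ (g c) b y := by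
    have h2 : fderiv ℂ (fun x => Gt x - g c x) b = fderiv ℂ Gt b - fderiv ℂ (g c) b :=
      fderiv_sub (hana b hbr).differentiableAt (expansion_an c b).differentiableAt
    rw [h2]
    rfl
  rw [hfd] at h1
  have h3 : Gt (b + y) - g c (b + y) - (Gt b - g c b) - (fderiv ℂ Gt b y - fderiv ℂ (g c) b y) =
      Gt (b + y) - g c y - fderiv ℂ Gt b y := by
    rw [hz]
    funext i
    simp only [Pi.sub_apply, Pi.zero_apply, expansion_fd]
    unfold g
    simp only [Pi.add_apply, Finset.sum_add_distrib]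
    ring
  rw [h3] at h1
  exact h1

theorem g_bound (c : ℂ) (x : E7) : ‖g c x‖ ≤ (3 + 147 * ‖c‖) * ‖x‖ ^ 2 := by
  rw [pi_norm_le_iff_of_nonneg (by positivity)]
  intro i
  unfold g
  have h1 := norm_le_pi_norm x i
  have h2 : ‖∑ j, x j‖ ≤ 7 * ‖x‖ := by
    calc ‖∑ j, x j‖ ≤ ∑ j, ‖x j‖ := norm_sum_le _ _
      _ ≤ ∑ j : Fin 7, ‖x‖ := Finset.sum_le_sum fun j _ => norm_le_pi_norm x j
      _ = 7 * ‖x‖ := by simp
  calc ‖3 * x i ^ 2 - 3 * c * (∑ j, x j) ^ 2‖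
      ≤ ‖3 * x i ^ 2‖ + ‖3 * c * (∑ j, x j) ^ 2‖ := norm_sub_le _ _
    _ = 3 * ‖x i‖ ^ 2 + 3 * ‖c‖ * ‖∑ j, x j‖ ^ 2 := by simp [norm_mul, norm_pow]
    _ ≤ 3 * ‖x‖ ^ 2 + 3 * ‖c‖ * (7 * ‖x‖) ^ 2 := by gcongr
    _ = _ := by ring

/-- L3b : the Hessians tend to zero (TARGET) -/
theorem hessian_small {ι : Type*} {𝓕 : Filter ι} (c : ℂ) (r : ℝ) (hr : 0 < r) (G : ι → E7 → E7)
    (hana : ∀ᶠ t in 𝓕, AnalyticOnNhd ℂ (G t) (ball 0 r))
    (hunif : TendstoUniformlyOn G (g c) (𝓕) (ball 0 r))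
    (b : ι → E7) (hb0 : Tendsto b (𝓕) (𝓝 0)) :
    Tendsto (fun t => fderiv ℂ (G t) (b t)) (𝓕) (𝓝 0) := by
  rw [NormedAddGroup.tendsto_nhds_zero]
  intro ε hε
  obtain ⟨C, hCdef⟩ : ∃ C : ℝ, C = 3 + 147 * ‖c‖ := ⟨_, rfl⟩
  have hC : 0 < C := by rw [hCdef]; positivity
  obtain ⟨ρ, hρ, hρr, hρε⟩ : ∃ ρ : ℝ, 0 < ρ ∧ 2 * ρ ≤ r ∧ 16 * C * ρ ≤ ε := by
    refine ⟨min (r / 2) (ε / (16 * C)), by positivity, ?_, ?_⟩
    · have := min_le_left (r / 2) (ε / (16 * C))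
      linarith
    · have := min_le_right (r / 2) (ε / (16 * C))
      calc 16 * C * min (r / 2) (ε / (16 * C)) ≤ 16 * C * (ε / (16 * C)) := by gcongr
        _ = ε := by field_simp
  have h2 := Metric.tendstoUniformlyOn_iff.1 hunif (ε * ρ / 2) (by positivity)
  have h3 : ∀ᶠ t in 𝓕, ‖b t‖ < ρ := (NormedAddGroup.tendsto_nhds_zero.1 hb0) ρ hρ
  filter_upwards [hana, h2, h3] with t h1 h2 h3
  have hsub2 : ball (b t) ρ ⊆ ball (0 : E7) (2 * ρ) := by
    intro x hx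
    rw [mem_ball, dist_eq_norm] at hx
    rw [mem_ball_zero_iff]
    calc ‖x‖ = ‖(x - b t) + b t‖ := by simp
      _ ≤ ‖x - b t‖ + ‖b t‖ := norm_add_le _ _
      _ < 2 * ρ := by linarith
  have hsub : ball (b t) ρ ⊆ ball (0 : E7) r := hsub2.trans (ball_subset_ball hρr)
  have hbd := fderiv_bound (G t) (b t) ρ (ε * ρ / 2 + C * (2 * ρ) ^ 2) hρ
    (h1.differentiableOn.mono hsub) (by
      intro x hx
      have e1 := h2 x (hsub hx)
      rw [dist_comm, dist_eq_norm] at e1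
      have e2 := g_bound c x
      rw [← hCdef] at e2
      have e3 : ‖x‖ < 2 * ρ := by simpa using hsub2 hx
      have e4 : ‖x‖ ^ 2 ≤ (2 * ρ) ^ 2 := by gcongr
      calc ‖G t x‖ = ‖(G t x - g c x) + g c x‖ := by simp
        _ ≤ ‖G t x - g c x‖ + ‖g c x‖ := norm_add_le _ _
        _ ≤ ε * ρ / 2 + C * (2 * ρ) ^ 2 := by
          have : C * ‖x‖ ^ 2 ≤ C * (2 * ρ) ^ 2 := by gcongr
          linarith)
  refine hbd.trans_lt ?_
  rw [div_lt_iff₀ hρ]
  nlinarith [mul_pos hε hρ, mul_le_mul_of_nonneg_right hρε hρ.le]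

theorem lv_apply (D : E7 →L[ℂ] E7) (x : E7) (i : Fin 7) :
    D x i = ∑ j, D (Pi.single j 1) i * x j := by
  have hx : x = ∑ j, x j • (Pi.single j (1 : ℂ) : E7) := by
    funext k
    rw [Finset.sum_apply, Finset.sum_eq_single k]
    · simp
    · intro j _ hj
      rw [Pi.smul_apply, Pi.single_eq_of_ne hj.symm, smul_zero]
    · intro h
      exact absurd (Finset.mem_univ k) h
  conv_lhs => rw [hx]
  rw [map_sum, Finset.sum_apply]
  refine Finset.sum_congr rfl (fun j _ => ?_)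
  rw [map_smul, Pi.smul_apply, smul_eq_mul, mul_comm]

theorem lv_norm_le (D : E7 →L[ℂ] E7) :
    ‖(fun i j => D (Pi.single j 1) i : Fin 7 → Fin 7 → ℂ)‖ ≤ ‖D‖ := by
  rw [pi_norm_le_iff_of_nonneg (norm_nonneg _)]
  intro i
  rw [pi_norm_le_iff_of_nonneg (norm_nonneg _)]
  intro j
  have h1 : ‖D (Pi.single j 1) i‖ ≤ ‖D (Pi.single j 1)‖ := norm_le_pi_norm _ i
  have h2 : ‖(Pi.single j (1 : ℂ) : E7)‖ ≤ 1 := by
    rw [pi_norm_le_iff_of_nonneg zero_le_one]
    intro k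
    by_cases h : k = j
    · subst h
      simp
    · rw [Pi.single_eq_of_ne h, norm_zero]
      exact zero_le_one
  calc ‖D (Pi.single j 1) i‖ ≤ ‖D (Pi.single j 1)‖ := h1
    _ ≤ ‖D‖ * ‖(Pi.single j (1 : ℂ) : E7)‖ := D.le_opNorm _
    _ ≤ ‖D‖ * 1 := mul_le_mul_of_nonneg_left h2 (norm_nonneg _)
    _ = ‖D‖ := mul_one _

theorem lv_ne (D : E7 →L[ℂ] E7) (hD : D ≠ 0) :
    (fun i j => D (Pi.single j 1) i : Fin 7 → Fin 7 → ℂ) ≠ 0 := by
  intro h
  apply hD
  ext x i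
  rw [lv_apply]
  show _ = (0 : ℂ)
  refine Finset.sum_eq_zero (fun j _ => ?_)
  have := congrFun (congrFun h i) j
  change D (Pi.single j 1) i = 0 at this
  rw [this, zero_mul]

theorem lv_mat_le (B : Fin 7 → Fin 7 → ℂ) (ν : ℝ) (hB : ‖B‖ ≤ ν) (x : E7) :
    ‖(fun i => ∑ j, B i j * x j : E7)‖ ≤ 7 * ν * ‖x‖ := by
  have hν : 0 ≤ ν := (norm_nonneg _).trans hB
  rw [pi_norm_le_iff_of_nonneg (by positivity)]
  intro i
  calc ‖∑ j, B i j * x j‖ ≤ ∑ j, ‖B i j * x j‖ := norm_sum_le _ _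
    _ ≤ ∑ j : Fin 7, ν * ‖x‖ := by
        refine Finset.sum_le_sum (fun j _ => ?_)
        rw [norm_mul]
        have h1 : ‖B i j‖ ≤ ‖B i‖ := norm_le_pi_norm _ j
        have h2 : ‖B i‖ ≤ ‖B‖ := norm_le_pi_norm _ i
        exact mul_le_mul (h1.trans (h2.trans hB)) (norm_le_pi_norm x j) (norm_nonneg _) hν
    _ = 7 * ν * ‖x‖ := by
        rw [Finset.sum_const, Finset.card_univ, Fintype.card_fin, nsmul_eq_mul]
        push_cast
        ring

theorem lv_g_hom (c s : ℂ) (x : E7) : g c (s • x) = s ^ 2 • g c x := by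
  funext i
  show 3 * (s • x) i ^ 2 - 3 * c * (∑ j, (s • x) j) ^ 2 =
    s ^ 2 • (3 * x i ^ 2 - 3 * c * (∑ j, x j) ^ 2)
  have h : ∑ j, (s • x) j = s * ∑ j, x j := by
    rw [Finset.mul_sum]
    rfl
  rw [h, Pi.smul_apply, smul_eq_mul, smul_eq_mul]
  ring

theorem lv_g_diff (c : ℂ) : Differentiable ℂ (g c) := by
  unfold g
  fun_prop

/-- one time `t` -/
theorem lv_one (c : ℂ) (r R η ν δ N ρ : ℝ) (hr : 0 < r) (hR : 0 < R) (hη : 0 < η)
    (hν : ν = η / (14 * R)) (hδ : δ = η * r ^ 2 / (128 * R ^ 2))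
    (Gt : E7 → E7) (b : E7) (Hh : Fin 7 → Fin 7 → ℂ)
    (hE : ∀ E' : E7 → E7, DifferentiableOn ℂ E' (ball 0 R) →
        (∀ x ∈ ball (0 : E7) R, ‖E' x‖ ≤ η) →
        ∃ x ∈ ball (0 : E7) R, (∀ i, g c x i + ∑ j, Hh i j * x j + E' x i = 0) ∧ ¬ SReal x)
    (hana : AnalyticOnNhd ℂ Gt (ball 0 r))
    (hG : ∀ x ∈ ball (0 : E7) r, ‖Gt x - g c x‖ ≤ δ)
    (hb : ‖b‖ ≤ r / 4) (hN : 0 < N) (hNR : N * R ≤ r / 4) (hbz : Gt b = 0) (hbr : SReal b)
    (hA : ‖(N⁻¹ • (fun i j => fderiv ℂ Gt b (Pi.single j 1) i) : Fin 7 → Fin 7 → ℂ) - Hh‖ ≤ ν)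
    (hρ : ‖b‖ + N * R ≤ ρ) :
    ∃ x ∈ ball (0 : E7) ρ, Gt x = 0 ∧ ¬ SReal x := by
  have hNC : (N : ℂ) ≠ 0 := by exact_mod_cast hN.ne'
  have hnx : ∀ x : E7, ‖(N : ℂ) • x‖ = N * ‖x‖ := by
    intro x
    rw [norm_smul, Complex.norm_real, Real.norm_of_nonneg hN.le]
  have hball : ∀ x ∈ ball (0 : E7) R, b + (N : ℂ) • x ∈ ball (0 : E7) r := by
    intro x hx
    rw [mem_ball_zero_iff] at hx ⊢
    have h1 : N * ‖x‖ ≤ N * R := mul_le_mul_of_nonneg_left hx.le hN.le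
    calc ‖b + (N : ℂ) • x‖ ≤ ‖b‖ + ‖(N : ℂ) • x‖ := norm_add_le _ _
      _ ≤ r / 4 + r / 4 := by rw [hnx]; linarith
      _ < r := by linarith
  obtain ⟨x, hx, hxz, hxr⟩ := hE
    (fun x => ((N : ℂ) ^ 2)⁻¹ • Gt (b + (N : ℂ) • x) - g c x - (fun i => ∑ j, Hh i j * x j))
    (by
      have h0 : DifferentiableOn ℂ (fun x : E7 => ((N : ℂ) ^ 2)⁻¹ • Gt (b + (N : ℂ) • x))
          (ball 0 R) := by
        have h1 : DifferentiableOn ℂ Gt (ball 0 r) := hana.differentiableOn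
        have h3 := h1.comp (g := Gt) (f := fun x : E7 => b + (N : ℂ) • x)
          ((differentiable_const b).add (differentiable_id.const_smul (N : ℂ))).differentiableOn hball
        exact h3.const_smul (((N : ℂ) ^ 2)⁻¹)
      refine DifferentiableOn.sub (DifferentiableOn.sub h0
        (lv_g_diff c).differentiableOn) ?_
      · have h2 : Differentiable ℂ (fun x : E7 => (fun i => ∑ j, Hh i j * x j : E7)) := by
          fun_prop
        exact h2.differentiableOn)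
    (by
      intro x hx
      have hxR : ‖x‖ ≤ R := (mem_ball_zero_iff.1 hx).le
      have h1 : N * ‖x‖ ≤ N * R := mul_le_mul_of_nonneg_left hxR hN.le
      have hexp := expansion c Gt r δ hr hana hG b ((N : ℂ) • x) hb (by rw [hnx]; linarith) hbz
      have h2 : ((N : ℂ) ^ 2)⁻¹ • Gt (b + (N : ℂ) • x) - g c x - (fun i => ∑ j, Hh i j * x j) =
          ((N : ℂ) ^ 2)⁻¹ • (Gt (b + (N : ℂ) • x) - g c ((N : ℂ) • x) -
            fderiv ℂ Gt b ((N : ℂ) • x)) +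
          (fun i => ∑ j, ((N⁻¹ • (fun i j => fderiv ℂ Gt b (Pi.single j 1) i) :
            Fin 7 → Fin 7 → ℂ) - Hh) i j * x j : E7) := by
        rw [lv_g_hom, map_smul]
        funext i
        have h3 : fderiv ℂ Gt b x i = ∑ j, fderiv ℂ Gt b (Pi.single j 1) i * x j :=
          lv_apply _ _ _
        have h4 : ∑ j, ((N⁻¹ • (fun i j => fderiv ℂ Gt b (Pi.single j 1) i) :
            Fin 7 → Fin 7 → ℂ) - Hh) i j * x j =
            (N : ℂ)⁻¹ * fderiv ℂ Gt b x i - ∑ j, Hh i j * x j := by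
          rw [h3, Finset.mul_sum, ← Finset.sum_sub_distrib]
          refine Finset.sum_congr rfl (fun j _ => ?_)
          show (N⁻¹ • fderiv ℂ Gt b (Pi.single j 1) i - Hh i j) * x j = _
          rw [Complex.real_smul]
          push_cast
          ring
        show ((N : ℂ) ^ 2)⁻¹ • (Gt (b + (N : ℂ) • x) i) - g c x i - ∑ j, Hh i j * x j =
          ((N : ℂ) ^ 2)⁻¹ • (Gt (b + (N : ℂ) • x) i - (N : ℂ) ^ 2 • g c x i -
            (N : ℂ) • fderiv ℂ Gt b x i) +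
          ∑ j, ((N⁻¹ • (fun i j => fderiv ℂ Gt b (Pi.single j 1) i) :
            Fin 7 → Fin 7 → ℂ) - Hh) i j * x j
        rw [h4]
        simp only [smul_eq_mul]
        field_simp
        ring
      show ‖((N : ℂ) ^ 2)⁻¹ • Gt (b + (N : ℂ) • x) - g c x - (fun i => ∑ j, Hh i j * x j)‖ ≤ η
      rw [h2]
      refine (norm_add_le _ _).trans ?_
      have h5 := lv_mat_le _ ν hA x
      have h6 : 7 * ν * ‖x‖ ≤ η / 2 := by
        have : 7 * ν * ‖x‖ ≤ 7 * ν * R := mul_le_mul_of_nonneg_left hxR (by rw [hν]; positivity)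
        have h7 : 7 * ν * R = η / 2 := by
          rw [hν]
          field_simp
          norm_num
        linarith
      have h8 : ‖((N : ℂ) ^ 2)⁻¹ • (Gt (b + (N : ℂ) • x) - g c ((N : ℂ) • x) -
            fderiv ℂ Gt b ((N : ℂ) • x))‖ ≤ η / 2 := by
        rw [norm_smul, norm_inv, norm_pow, Complex.norm_real, Real.norm_of_nonneg hN.le]
        have h9 : (N ^ 2)⁻¹ * ‖Gt (b + (N : ℂ) • x) - g c ((N : ℂ) • x) -
            fderiv ℂ Gt b ((N : ℂ) • x)‖ ≤ (N ^ 2)⁻¹ * ((64 / r ^ 2) * δ * ‖(N : ℂ) • x‖ ^ 2) :=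
          mul_le_mul_of_nonneg_left hexp (by positivity)
        refine h9.trans ?_
        rw [hnx, hδ]
        have h10 : (N ^ 2)⁻¹ * (64 / r ^ 2 * (η * r ^ 2 / (128 * R ^ 2)) * (N * ‖x‖) ^ 2) =
            η / 2 * (‖x‖ ^ 2 / R ^ 2) := by
          field_simp
          ring
        rw [h10]
        have h11 : ‖x‖ ^ 2 / R ^ 2 ≤ 1 := by
          rw [div_le_one (by positivity)]
          exact pow_le_pow_left₀ (norm_nonneg _) hxR 2
        calc η / 2 * (‖x‖ ^ 2 / R ^ 2) ≤ η / 2 * 1 :=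
              mul_le_mul_of_nonneg_left h11 (by positivity)
          _ = η / 2 := mul_one _
      linarith)
  refine ⟨b + (N : ℂ) • x, ?_, ?_, ?_⟩
  · rw [mem_ball_zero_iff] at hx ⊢
    have h1 : N * ‖x‖ < N * R := mul_lt_mul_of_pos_left hx hN
    calc ‖b + (N : ℂ) • x‖ ≤ ‖b‖ + ‖(N : ℂ) • x‖ := norm_add_le _ _
      _ < ρ := by rw [hnx]; linarith
  · funext i
    have h1 := hxz i
    have h2 : (((N : ℂ) ^ 2)⁻¹ • Gt (b + (N : ℂ) • x) - g c x - (fun i => ∑ j, Hh i j * x j)) i =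
      ((N : ℂ) ^ 2)⁻¹ * Gt (b + (N : ℂ) • x) i - g c x i - ∑ j, Hh i j * x j := rfl
    rw [h2] at h1
    have h3 : ((N : ℂ) ^ 2)⁻¹ * Gt (b + (N : ℂ) • x) i = 0 := by linear_combination h1
    rcases mul_eq_zero.1 h3 with h4 | h4
    · exact absurd h4 (inv_ne_zero (pow_ne_zero 2 hNC))
    · exact h4
  · intro h
    apply hxr
    intro i
    have h1 := h i
    have h2 := hbr i
    have h3 : (b + (N : ℂ) • x) (sg i) = b (sg i) + N * x (sg i) := rfl
    have h4 : (b + (N : ℂ) • x) i = b i + N * x i := rfl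
    rw [h3, h4, map_add, map_mul, Complex.conj_ofReal, h2] at h1
    have h5 : (N : ℂ) * x (sg i) = N * (starRingEnd ℂ) (x i) := by linear_combination h1
    exact mul_left_cancel₀ hNC h5

/-- L3 (TARGET: only this one) -/
theorem level_three {ι : Type*} {𝓕 : Filter ι} [𝓕.NeBot] (c : ℝ)
    (h2 : ∀ (H : Fin 7 → Fin 7 → ℂ), (∀ i j, H i j = H j i) →
      (∀ i j, H (sg i) (sg j) = (starRingEnd ℂ) (H i j)) → H ≠ 0 →
      ∃ R : ℝ, 0 < R ∧ ∃ η : ℝ, 0 < η ∧ ∀ E' : E7 → E7, DifferentiableOn ℂ E' (ball 0 R) →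
        (∀ x ∈ ball (0 : E7) R, ‖E' x‖ ≤ η) →
        ∃ x ∈ ball (0 : E7) R, (∀ i, g c x i + ∑ j, H i j * x j + E' x i = 0) ∧ ¬ SReal x)
    (r : ℝ) (hr : 0 < r) (G : ι → E7 → E7)
    (hana : ∀ᶠ t in 𝓕, AnalyticOnNhd ℂ (G t) (ball 0 r))
    (hunif : TendstoUniformlyOn G (g c) (𝓕) (ball 0 r))
    (b : ι → E7) (hb0 : Tendsto b (𝓕) (𝓝 0))
    (hbz : ∀ᶠ t in 𝓕, G t (b t) = 0) (hbr : ∀ᶠ t in 𝓕, SReal (b t))
    (hsym : ∀ᶠ t in 𝓕, ∀ i j : Fin 7,
      fderiv ℂ (G t) (b t) (Pi.single j 1) i = fderiv ℂ (G t) (b t) (Pi.single i 1) j)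
    (htw : ∀ᶠ t in 𝓕, ∀ i j : Fin 7,
      fderiv ℂ (G t) (b t) (Pi.single (sg j) 1) (sg i) =
        (starRingEnd ℂ) (fderiv ℂ (G t) (b t) (Pi.single j 1) i))
    (hne : ∀ᶠ t in 𝓕, fderiv ℂ (G t) (b t) ≠ 0)
    (V : Set E7) (hV : V ∈ 𝓝 (0 : E7)) :
    ∃ᶠ t in 𝓕, ∃ x ∈ V, G t x = 0 ∧ ¬ SReal x := by
  set M : ι → Fin 7 → Fin 7 → ℂ := fun t i j => fderiv ℂ (G t) (b t) (Pi.single j 1) i with hM
  have hMpos : ∀ᶠ t in 𝓕, 0 < ‖M t‖ := by
    filter_upwards [hne] with t ht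
    exact norm_pos_iff.2 (lv_ne _ ht)
  have hM0 : Tendsto (fun t => ‖M t‖) (𝓕) (𝓝 0) := by
    have h1 := (hessian_small c r hr G hana hunif b hb0).norm
    rw [norm_zero] at h1
    exact squeeze_zero (fun t => norm_nonneg _) (fun t => lv_norm_le _) h1
  -- compact set
  have hC : IsClosed {H : Fin 7 → Fin 7 → ℂ | (∀ i j, H i j = H j i) ∧
      (∀ i j, H (sg i) (sg j) = (starRingEnd ℂ) (H i j))} := by
    have h1 : IsClosed {H : Fin 7 → Fin 7 → ℂ | ∀ i j, H i j = H j i} := by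
      rw [Set.ofPred_forall]
      refine isClosed_iInter (fun i => ?_)
      rw [Set.ofPred_forall]
      refine isClosed_iInter (fun j => ?_)
      exact isClosed_eq (by fun_prop) (by fun_prop)
    have h3 : IsClosed {H : Fin 7 → Fin 7 → ℂ | ∀ i j, H (sg i) (sg j) =
        (starRingEnd ℂ) (H i j)} := by
      rw [Set.ofPred_forall]
      refine isClosed_iInter (fun i => ?_)
      rw [Set.ofPred_forall]
      refine isClosed_iInter (fun j => ?_)
      refine isClosed_eq (by fun_prop) ?_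
      have h4 : Continuous (fun H : Fin 7 → Fin 7 → ℂ => H i j) := by fun_prop
      exact Complex.continuous_conj.comp h4
    exact h1.inter h3
  have hK := (isCompact_sphere (0 : Fin 7 → Fin 7 → ℂ) 1).inter_right hC
  have hev : ∀ᶠ t in 𝓕, ‖M t‖⁻¹ • M t ∈ sphere (0 : Fin 7 → Fin 7 → ℂ) 1 ∩
      {H : Fin 7 → Fin 7 → ℂ | (∀ i j, H i j = H j i) ∧
      (∀ i j, H (sg i) (sg j) = (starRingEnd ℂ) (H i j))} := by
    filter_upwards [hMpos, hsym, htw] with t h1 h3 h4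
    refine ⟨?_, ?_, ?_⟩
    · rw [mem_sphere_zero_iff_norm, norm_smul, norm_inv, norm_norm, inv_mul_cancel₀ h1.ne']
    · intro i j
      show ‖M t‖⁻¹ • M t i j = ‖M t‖⁻¹ • M t j i
      have h5 : M t i j = M t j i := h3 i j
      rw [h5]
    · intro i j
      show ‖M t‖⁻¹ • M t (sg i) (sg j) = (starRingEnd ℂ) (‖M t‖⁻¹ • M t i j)
      have h5 : M t (sg i) (sg j) = (starRingEnd ℂ) (M t i j) := h4 i j
      rw [h5, Complex.real_smul, Complex.real_smul, map_mul, Complex.conj_ofReal]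
  obtain ⟨Hh, hHK, hcl⟩ : ∃ Hh ∈ sphere (0 : Fin 7 → Fin 7 → ℂ) 1 ∩
      {H : Fin 7 → Fin 7 → ℂ | (∀ i j, H i j = H j i) ∧
      (∀ i j, H (sg i) (sg j) = (starRingEnd ℂ) (H i j))},
      MapClusterPt Hh (𝓕) (fun t => ‖M t‖⁻¹ • M t) :=
    hK.exists_mapClusterPt (tendsto_principal.2 hev)
  have hHne : Hh ≠ 0 := by
    intro h
    have h1 := hHK.1
    rw [h, mem_sphere_zero_iff_norm, norm_zero] at h1
    exact zero_ne_one h1
  obtain ⟨R, hR, η, hη, hE⟩ := h2 Hh hHK.2.1 hHK.2.2 hHne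
  obtain ⟨ρ, hρ, hρV⟩ := Metric.mem_nhds_iff.1 hV
  have hfr : ∃ᶠ t in 𝓕, ‖M t‖⁻¹ • M t ∈ ball Hh (η / (14 * R)) :=
    (mapClusterPt_iff_frequently.1 hcl) _ (ball_mem_nhds _ (by positivity))
  have hδpos : 0 < η * r ^ 2 / (128 * R ^ 2) := by positivity
  have hu := (Metric.tendstoUniformlyOn_iff.1 hunif) _ hδpos
  have hb1 : ∀ᶠ t in 𝓕, ‖b t‖ < min (r / 4) (ρ / 2) := by
    have h1 := hb0.norm
    rw [norm_zero] at h1
    exact h1.eventually (gt_mem_nhds (by positivity))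
  have hN1 : ∀ᶠ t in 𝓕, ‖M t‖ < min (r / 4) (ρ / 2) / R :=
    hM0.eventually (gt_mem_nhds (by positivity))
  refine (hfr.and_eventually (hana.and (hu.and (hb1.and (hN1.and (hbz.and (hbr.and hMpos)))))) ).mono ?_
  rintro t ⟨h1, h3, h4, h5, h6, h7, h8, h9⟩
  rw [lt_div_iff₀ hR] at h6
  obtain ⟨x, hx, hx1, hx2⟩ := lv_one c r R η _ _ ‖M t‖ ρ hr hR hη rfl rfl (G t) (b t) Hh hE h3
    (fun x hx => by
      have := h4 x hx
      rw [dist_comm, dist_eq_norm] at this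
      exact this.le)
    (h5.le.trans (min_le_left _ _)) h9 (h6.le.trans (min_le_left _ _)) h7 h8
    (by
      rw [mem_ball, dist_eq_norm] at h1
      exact h1.le)
    (by
      have h10 := h5.trans_le (min_le_right (r / 4) (ρ / 2))
      have h11 := h6.trans_le (min_le_right (r / 4) (ρ / 2))
      linarith)
  exact ⟨x, hρV hx, hx1, hx2⟩

end RM
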