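import Pool.Agent.Helper787.RMStmt
set_option autoImplicit false

namespace RealMorsification
open Filter Topology Metric

theorem M2_step {n : ℕ} (K : ℕ) (i : Fin n) (φ : Conv n) : ∃ ψ : Conv n, ∀ α,
    MvPowerSeries.coeff α
      ((φ - toConv ((MvPolynomial.X i : MvPolynomial (Fin n) ℂ) ^ K) * ψ : Conv n) :
        MvPowerSeries (Fin n) ℂ) =
      if α i < K then MvPowerSeries.coeff α (φ : MvPowerSeries (Fin n) ℂ) else 0 := by
  obtain ⟨M, ρ, hM, hρ, h⟩ := φ.2
  obtain ⟨D, hDdef⟩ : ∃ D : MvPowerSeries (Fin n) ℂ, ∀ β, MvPowerSeries.coeff β D =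
      MvPowerSeries.coeff (β + Finsupp.single i K) (φ : MvPowerSeries (Fin n) ℂ) :=
    ⟨fun β => MvPowerSeries.coeff (β + Finsupp.single i K) (φ : MvPowerSeries (Fin n) ℂ),
      fun β => rfl⟩
  have hD : ConvCond D := by
    refine ⟨M * ρ ^ K, ρ, by positivity, hρ, fun β => ?_⟩
    have h1 := h (β + Finsupp.single i K)
    have h2 : (β + Finsupp.single i K).degree = β.degree + K := by
      rw [map_add, Finsupp.degree_single]
    rw [h2, pow_add] at h1
    rw [hDdef]
    calc _ ≤ M * (ρ ^ β.degree * ρ ^ K) := h1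
      _ = M * ρ ^ K * ρ ^ β.degree := by ring
  refine ⟨⟨D, hD⟩, fun α => ?_⟩
  have e1 : ((φ - toConv ((MvPolynomial.X i : MvPolynomial (Fin n) ℂ) ^ K) * ⟨D, hD⟩ : Conv n) :
        MvPowerSeries (Fin n) ℂ) = (φ : MvPowerSeries (Fin n) ℂ) -
        MvPowerSeries.monomial (Finsupp.single i K) 1 * D := by
    show (φ : MvPowerSeries (Fin n) ℂ) - (((MvPolynomial.X i : MvPolynomial (Fin n) ℂ) ^ K :
      MvPolynomial (Fin n) ℂ) : MvPowerSeries (Fin n) ℂ) * _ = _
    rw [MvPolynomial.coe_pow, MvPolynomial.coe_X, MvPowerSeries.X_pow_eq]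
  rw [e1, map_sub, MvPowerSeries.coeff_monomial_mul]
  by_cases hα : α i < K
  · rw [if_pos hα, if_neg, sub_zero]
    rw [Finsupp.single_le_iff]
    omega
  · rw [if_neg hα, if_pos, one_mul, hDdef, tsub_add_cancel_of_le, sub_self]
    · rw [Finsupp.single_le_iff]
      omega
    · rw [Finsupp.single_le_iff]
      omega

theorem M2_iter {n : ℕ} (J : Ideal (Conv n)) (K : ℕ)
    (hJ : ∀ i, toConv ((MvPolynomial.X i : MvPolynomial (Fin n) ℂ) ^ K) ∈ J) (φ : Conv n)
    (S : Finset (Fin n)) : ∃ χ : Conv n, φ - χ ∈ J ∧ ∀ α,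
      MvPowerSeries.coeff α (χ : MvPowerSeries (Fin n) ℂ) =
        if ∀ i ∈ S, α i < K then MvPowerSeries.coeff α (φ : MvPowerSeries (Fin n) ℂ) else 0 := by
  classical
  induction S using Finset.induction_on with
  | empty =>
    refine ⟨φ, by simp, fun α => ?_⟩
    simp
  | insert i S hi ih =>
    obtain ⟨χ, h1, h2⟩ := ih
    obtain ⟨ψ, h3⟩ := M2_step K i χ
    refine ⟨χ - toConv ((MvPolynomial.X i : MvPolynomial (Fin n) ℂ) ^ K) * ψ, ?_, fun α => ?_⟩
    · have h4 : φ - (χ - toConv ((MvPolynomial.X i : MvPolynomial (Fin n) ℂ) ^ K) * ψ) =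
          (φ - χ) + toConv ((MvPolynomial.X i : MvPolynomial (Fin n) ℂ) ^ K) * ψ := by ring
      rw [h4]
      exact J.add_mem h1 (J.mul_mem_right _ (hJ i))
    · rw [h3, h2]
      simp only [Finset.mem_insert, forall_eq_or_imp]
      by_cases ha : α i < K
      · simp [ha]
      · simp [ha]

/-- TARGET M2 : the quotient is finite-dimensional if the ideal contains a power of every variable -/
theorem finite_quotient {n : ℕ} (J : Ideal (Conv n)) (K : ℕ)
    (hJ : ∀ i, toConv ((MvPolynomial.X i : MvPolynomial (Fin n) ℂ) ^ K) ∈ J) :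
    Module.Finite ℂ (Conv n ⧸ J) := by
  classical
  set box : Finset (Fin n →₀ ℕ) :=
    (Finset.Icc 0 (Finsupp.equivFunOnFinite.symm fun _ : Fin n => K)).filter
      (fun α => ∀ i, α i < K) with hbox
  have hmem : ∀ α : Fin n →₀ ℕ, α ∈ box ↔ ∀ i, α i < K := by
    intro α
    rw [hbox, Finset.mem_filter, Finset.mem_Icc]
    constructor
    · exact fun h => h.2
    · intro h
      refine ⟨⟨bot_le, fun i => ?_⟩, h⟩
      simpa using (h i).le
  rw [Module.finite_def, Submodule.fg_def]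
  refine ⟨(fun α => Ideal.Quotient.mk J (toConv (MvPolynomial.monomial α (1:ℂ)))) '' (box : Set _),
    box.finite_toSet.image _, ?_⟩
  rw [eq_top_iff]
  rintro x -
  obtain ⟨φ, rfl⟩ := Ideal.Quotient.mk_surjective x
  obtain ⟨χ, h1, h2⟩ := M2_iter J K hJ φ Finset.univ
  have h3 : Ideal.Quotient.mk J φ = Ideal.Quotient.mk J χ := (Ideal.Quotient.mk_eq_mk_iff_sub_mem _ _).2 h1
  have h4 : χ = ∑ α ∈ box, (MvPowerSeries.coeff α (φ : MvPowerSeries (Fin n) ℂ)) •
      toConv (MvPolynomial.monomial α (1:ℂ)) := by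
    apply Subtype.ext
    ext β
    rw [h2]
    have h5 : ((∑ α ∈ box, (MvPowerSeries.coeff α (φ : MvPowerSeries (Fin n) ℂ)) •
      toConv (MvPolynomial.monomial α (1:ℂ)) : Conv n) : MvPowerSeries (Fin n) ℂ) =
      ∑ α ∈ box, (MvPowerSeries.coeff α (φ : MvPowerSeries (Fin n) ℂ)) •
        MvPowerSeries.monomial α (1:ℂ) := by
      rw [AddSubmonoidClass.coe_finsetSum]
      apply Finset.sum_congr rfl
      intro α _
      show _ • ((MvPolynomial.monomial α (1:ℂ) : MvPolynomial (Fin n) ℂ) :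
        MvPowerSeries (Fin n) ℂ) = _
      rw [MvPolynomial.coe_monomial]
    rw [h5, map_sum]
    have h6 : ∀ α ∈ box, MvPowerSeries.coeff β
        ((MvPowerSeries.coeff α (φ : MvPowerSeries (Fin n) ℂ)) •
          MvPowerSeries.monomial α (1:ℂ)) = if β = α then
            MvPowerSeries.coeff β (φ : MvPowerSeries (Fin n) ℂ) else 0 := by
      intro α _
      rw [map_smul, MvPowerSeries.coeff_monomial]
      split_ifs with h
      · subst h
        simp
      · simp
    rw [Finset.sum_congr rfl h6, Finset.sum_ite_eq]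
    simp only [Finset.mem_univ, forall_true_left, hmem]
  rw [h3, h4, map_sum]
  apply Submodule.sum_mem
  intro α hα
  have h7 : Ideal.Quotient.mk J ((MvPowerSeries.coeff α (φ : MvPowerSeries (Fin n) ℂ)) •
      toConv (MvPolynomial.monomial α (1:ℂ))) =
      (MvPowerSeries.coeff α (φ : MvPowerSeries (Fin n) ℂ)) •
        Ideal.Quotient.mk J (toConv (MvPolynomial.monomial α (1:ℂ))) := rfl
  rw [h7]
  exact Submodule.smul_mem _ _ (Submodule.subset_span ⟨α, hα, rfl⟩)

/-- TARGET M3 : the jacobian ideal is proper if `0` is a critical point -/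
theorem jacobian_ne_top {n : ℕ} (f : MvPolynomial (Fin n) ℝ)
    (h : ∀ i, MvPolynomial.constantCoeff (MvPolynomial.pderiv i (MvPolynomial.map (algebraMap ℝ ℂ) f)) = 0) :
    jacobianIdeal f ≠ ⊤ := by
  intro htop
  let c : Conv n →+* ℂ := (MvPowerSeries.constantCoeff (σ := Fin n) (R := ℂ)).comp
    (Conv n).val.toRingHom
  have hle : jacobianIdeal f ≤ RingHom.ker c := by
    unfold jacobianIdeal
    rw [Ideal.span_le]
    rintro _ ⟨i, rfl⟩
    show c (toConv _) = 0
    have h1 := h i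
    rw [MvPolynomial.constantCoeff_eq] at h1
    have h2 : c (toConv (MvPolynomial.pderiv i (MvPolynomial.map (algebraMap ℝ ℂ) f))) =
        MvPowerSeries.coeff 0 ((MvPolynomial.pderiv i (MvPolynomial.map (algebraMap ℝ ℂ) f) :
          MvPolynomial (Fin n) ℂ) : MvPowerSeries (Fin n) ℂ) := by
      rw [MvPowerSeries.coeff_zero_eq_constantCoeff]
      rfl
    rw [h2, MvPolynomial.coeff_coe]
    exact h1
  have h1 : (1 : Conv n) ∈ RingHom.ker c := by
    apply hle
    rw [htop]
    exact Submodule.mem_top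
  rw [RingHom.mem_ker, map_one] at h1
  exact one_ne_zero h1

/-- TARGET M4 : powers of the variables are in a polynomial ideal with only zero `0` (Nullstellensatz) -/
theorem powers_mem {n : ℕ} (q : Fin n → MvPolynomial (Fin n) ℂ)
    (h : ∀ z : Fin n → ℂ, (∀ i, MvPolynomial.aeval z (q i) = 0) → z = 0) :
    ∃ K : ℕ, ∀ i, (MvPolynomial.X i : MvPolynomial (Fin n) ℂ) ^ K ∈ Ideal.span (Set.range q) := by
  have h1 : ∀ i, (MvPolynomial.X i : MvPolynomial (Fin n) ℂ) ∈
      (Ideal.span (Set.range q)).radical := by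
    intro i
    rw [← MvPolynomial.vanishingIdeal_zeroLocus_eq_radical (K := ℂ) (Ideal.span (Set.range q)),
      MvPolynomial.mem_vanishingIdeal_iff]
    intro x hx
    have hx0 : x = 0 := h x fun j => hx (q j) (Ideal.subset_span ⟨j, rfl⟩)
    rw [hx0, MvPolynomial.aeval_X]
    rfl
  choose k hk using h1
  refine ⟨∑ i, k i, fun i => ?_⟩
  have h2 : k i ≤ ∑ i, k i := Finset.single_le_sum (fun _ _ => Nat.zero_le _) (Finset.mem_univ i)
  rw [← Nat.add_sub_cancel' h2, pow_add]
  exact Ideal.mul_mem_right _ _ (hk i)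

/-- the ring hom of `toConv` -/
noncomputable def milnor_pos_hom (n : ℕ) : MvPolynomial (Fin n) ℂ →+* Conv n where
  toFun := toConv
  map_one' := Subtype.ext (by
    show ((1 : MvPolynomial (Fin n) ℂ) : MvPowerSeries (Fin n) ℂ) = 1
    exact MvPolynomial.coe_one)
  map_zero' := Subtype.ext (by
    show ((0 : MvPolynomial (Fin n) ℂ) : MvPowerSeries (Fin n) ℂ) = 0
    exact MvPolynomial.coe_zero)
  map_add' := fun p q => Subtype.ext (by
    show ((p + q : MvPolynomial (Fin n) ℂ) : MvPowerSeries (Fin n) ℂ) = p + q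
    exact MvPolynomial.coe_add p q)
  map_mul' := fun p q => Subtype.ext (by
    show ((p * q : MvPolynomial (Fin n) ℂ) : MvPowerSeries (Fin n) ℂ) = p * q
    exact MvPolynomial.coe_mul p q)

/-- TARGET M5 -/
theorem milnor_pos {n : ℕ} (f : MvPolynomial (Fin n) ℝ)
    (h0 : ∀ i, MvPolynomial.constantCoeff (MvPolynomial.pderiv i (MvPolynomial.map (algebraMap ℝ ℂ) f)) = 0)
    (h : ∀ z : Fin n → ℂ, (∀ i, MvPolynomial.aeval z
      (MvPolynomial.pderiv i (MvPolynomial.map (algebraMap ℝ ℂ) f)) = 0) → z = 0) :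
    Module.Finite ℂ (Conv n ⧸ jacobianIdeal f) ∧ 0 < milnor f := by
  obtain ⟨K, hK⟩ := powers_mem
    (fun i => MvPolynomial.pderiv i (MvPolynomial.map (algebraMap ℝ ℂ) f)) h
  have hmem : ∀ i, toConv ((MvPolynomial.X i : MvPolynomial (Fin n) ℂ) ^ K) ∈ jacobianIdeal f := by
    intro i
    have h1 := Ideal.mem_map_of_mem (milnor_pos_hom n) (hK i)
    rw [Ideal.map_span] at h1
    have h2 : (milnor_pos_hom n) '' (Set.range
        (fun i => MvPolynomial.pderiv i (MvPolynomial.map (algebraMap ℝ ℂ) f)))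
        = Set.range fun i =>
          toConv (MvPolynomial.pderiv i (MvPolynomial.map (algebraMap ℝ ℂ) f)) := by
      rw [← Set.range_comp]
      rfl
    rw [h2] at h1
    exact h1
  have hfin := finite_quotient (jacobianIdeal f) K hmem
  refine ⟨hfin, ?_⟩
  have hnt : Nontrivial (Conv n ⧸ jacobianIdeal f) :=
    Ideal.Quotient.nontrivial_iff.mpr (jacobian_ne_top f h0)
  exact Module.finrank_pos

end RealMorsification
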