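import Mathlib
set_option autoImplicit false

namespace RealMorsification
open Filter Topology Metric

/-- The real point `x ∈ ℝⁿ` as a point of `ℂⁿ`. -/
def toC {n : ℕ} (x : Fin n → ℝ) : Fin n → ℂ := fun i => (x i : ℂ)

/-- `z ∈ ℂⁿ` is a real point. -/
def IsRealPt {n : ℕ} (z : Fin n → ℂ) : Prop := ∀ i, (z i).im = 0

/-- The closed Euclidean ball of radius `ρ` about `0` in `ℂⁿ`. -/
def eball (n : ℕ) (ρ : ℝ) : Set (Fin n → ℂ) := {z | ∑ i, ‖z i‖ ^ 2 ≤ ρ ^ 2}

/-- Hessian matrix of a holomorphic function. -/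
noncomputable def hess {n : ℕ} (F : (Fin n → ℂ) → ℂ) (z : Fin n → ℂ) : Matrix (Fin n) (Fin n) ℂ :=
  Matrix.of fun i j => fderiv ℂ (fun w => fderiv ℂ F w (Pi.single i 1)) z (Pi.single j 1)

/-- The complexification of a real polynomial function. -/
noncomputable def cx {n : ℕ} (f : MvPolynomial (Fin n) ℝ) : (Fin n → ℂ) → ℂ :=
  fun z => MvPolynomial.aeval z f

/-- A real deformation `f_t`, `0 ≤ t < ε`, of the germ of `f` at `0`.  The real analytic functions
`f_t` are given through their complexifications `F t`, which are analytic on a fixed (polydisc)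
neighbourhood `ball 0 r` of `0` in `ℂⁿ` and real at the real points; `F 0 = f`, and `F t` tends to
`F 0` uniformly on this neighbourhood as `t → 0+` (of the continuous dependence on `t` in the
analytic topology only this consequence at `t = 0` is required). -/
structure RealDeformation {n : ℕ} (f : MvPolynomial (Fin n) ℝ) where
  /-- the parameter interval is `[0, ε)` -/
  ε : ℝ
  ε_pos : 0 < ε
  /-- radius of the fixed neighbourhood -/
  r : ℝ
  r_pos : 0 < r
  /-- the family of complexifications -/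
  F : ℝ → (Fin n → ℂ) → ℂ
  analytic : ∀ t ∈ Set.Ico (0 : ℝ) ε, AnalyticOnNhd ℂ (F t) (ball 0 r)
  real : ∀ t ∈ Set.Ico (0 : ℝ) ε, ∀ x : Fin n → ℝ, toC x ∈ ball (0 : Fin n → ℂ) r →
    (F t (toC x)).im = 0
  start : ∀ z ∈ ball (0 : Fin n → ℂ) r, F 0 z = cx f z
  cont : TendstoUniformlyOn F (cx f) (𝓝[>] (0 : ℝ)) (ball 0 r)

/-- the set of (complex) critical points of `F` in `B` -/
def critSet {n : ℕ} (F : (Fin n → ℂ) → ℂ) (B : Set (Fin n → ℂ)) : Set (Fin n → ℂ) :=
  {z | z ∈ B ∧ fderiv ℂ F z = 0}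

/-- The real Morse critical points of `F` in `B`: real points of `B` at which the derivative
vanishes and the Hessian is invertible. -/
def realMorse {n : ℕ} (F : (Fin n → ℂ) → ℂ) (B : Set (Fin n → ℂ)) : Set (Fin n → ℂ) :=
  {z | z ∈ B ∧ fderiv ℂ F z = 0 ∧ IsRealPt z ∧ (hess F z).det ≠ 0}

/-- `F` has exactly `m` (complex) critical points in `B`, all of them real and nondegenerate. -/
def GoodAt {n : ℕ} (F : (Fin n → ℂ) → ℂ) (B : Set (Fin n → ℂ)) (m : ℕ) : Prop :=
  (critSet F B).ncard = m ∧ ∀ z ∈ critSet F B, IsRealPt z ∧ (hess F z).det ≠ 0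

/-- geometric growth of the coefficients of a power series, i.e. convergence near `0` -/
def ConvCond {n : ℕ} (φ : MvPowerSeries (Fin n) ℂ) : Prop :=
  ∃ M ρ : ℝ, 0 ≤ M ∧ 0 ≤ ρ ∧ ∀ α : Fin n →₀ ℕ, ‖MvPowerSeries.coeff α φ‖ ≤ M * ρ ^ α.degree

/-- sums of convergent power series are convergent -/
theorem ConvCond.add {n : ℕ} {φ ψ : MvPowerSeries (Fin n) ℂ} (h : ConvCond φ) (h' : ConvCond ψ) :
    ConvCond (φ + ψ) := by
  obtain ⟨M, ρ, hM, hρ, h⟩ := h
  obtain ⟨M', ρ', hM', hρ', h'⟩ := h'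
  refine ⟨M + M', max ρ ρ', add_nonneg hM hM', le_max_of_le_left hρ, fun α => ?_⟩
  rw [map_add]
  calc ‖MvPowerSeries.coeff α φ + MvPowerSeries.coeff α ψ‖
      ≤ ‖MvPowerSeries.coeff α φ‖ + ‖MvPowerSeries.coeff α ψ‖ := norm_add_le _ _
    _ ≤ M * ρ ^ α.degree + M' * ρ' ^ α.degree := add_le_add (h α) (h' α)
    _ ≤ M * (max ρ ρ') ^ α.degree + M' * (max ρ ρ') ^ α.degree :=
        add_le_add (mul_le_mul_of_nonneg_left (pow_le_pow_left₀ hρ (le_max_left _ _) _) hM)
          (mul_le_mul_of_nonneg_left (pow_le_pow_left₀ hρ' (le_max_right _ _) _) hM')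
    _ = (M + M') * (max ρ ρ') ^ α.degree := by ring

theorem card_antidiagonal_le {n : ℕ} (α : Fin n →₀ ℕ) :
    (Finset.HasAntidiagonal.antidiagonal α).card ≤ 2 ^ α.degree := by
  classical
  have h1 : (Finset.HasAntidiagonal.antidiagonal α).card ≤ (Finset.Iic α).card := by
    apply Finset.card_le_card_of_injOn (fun p => p.1)
    · intro p hp
      have hp' := Finset.HasAntidiagonal.mem_antidiagonal.1 hp
      change p.1 ∈ ((Finset.Iic α : Finset (Fin n →₀ ℕ)) : Set (Fin n →₀ ℕ))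
      rw [Finset.mem_coe, Finset.mem_Iic, ← hp']
      exact le_self_add
    · intro p hp q hq hpq
      have hp' := Finset.HasAntidiagonal.mem_antidiagonal.1 hp
      have hq' := Finset.HasAntidiagonal.mem_antidiagonal.1 hq
      simp only at hpq
      refine Prod.ext hpq ?_
      rw [← hq', hpq] at hp'
      exact add_left_cancel hp'
  refine h1.trans ?_
  rw [Finsupp.card_Iic]
  calc ∏ i ∈ α.support, (Finset.Iic (α i)).card ≤ ∏ i ∈ α.support, 2 ^ (α i) := by
        apply Finset.prod_le_prod'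
        intro i _
        rw [Nat.card_Iic]
        exact Nat.lt_two_pow_self
    _ = 2 ^ α.degree := by
        rw [Finset.prod_pow_eq_pow_sum]
        rfl

/-- products of convergent power series are convergent -/
theorem ConvCond.mul {n : ℕ} {φ ψ : MvPowerSeries (Fin n) ℂ} (h : ConvCond φ) (h' : ConvCond ψ) :
    ConvCond (φ * ψ) := by
  classical
  obtain ⟨M, ρ, hM, hρ, H⟩ := h
  obtain ⟨M', ρ', hM', hρ', H'⟩ := h'
  refine ⟨M * M', 2 * max ρ ρ', mul_nonneg hM hM', by positivity, ?_⟩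
  intro α
  rw [MvPowerSeries.coeff_mul]
  obtain ⟨R, hR⟩ : ∃ R, R = max ρ ρ' := ⟨_, rfl⟩
  have hR0 : 0 ≤ R := by rw [hR]; exact le_max_of_le_left hρ
  rw [← hR]
  have hterm : ∀ p ∈ Finset.HasAntidiagonal.antidiagonal α,
      ‖MvPowerSeries.coeff p.1 φ * MvPowerSeries.coeff p.2 ψ‖ ≤ M * M' * R ^ α.degree := by
    intro p hp
    have hp' := Finset.HasAntidiagonal.mem_antidiagonal.1 hp
    rw [norm_mul]
    have h1 : ‖MvPowerSeries.coeff p.1 φ‖ ≤ M * R ^ p.1.degree := (H p.1).trans (by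
      have : ρ ^ p.1.degree ≤ R ^ p.1.degree :=
        pow_le_pow_left₀ hρ (by rw [hR]; exact le_max_left _ _) _
      exact mul_le_mul_of_nonneg_left this hM)
    have h2 : ‖MvPowerSeries.coeff p.2 ψ‖ ≤ M' * R ^ p.2.degree := (H' p.2).trans (by
      have : ρ' ^ p.2.degree ≤ R ^ p.2.degree :=
        pow_le_pow_left₀ hρ' (by rw [hR]; exact le_max_right _ _) _
      exact mul_le_mul_of_nonneg_left this hM')
    have h3 : α.degree = p.1.degree + p.2.degree := by
      rw [← hp', map_add]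
    calc ‖MvPowerSeries.coeff p.1 φ‖ * ‖MvPowerSeries.coeff p.2 ψ‖ ≤
          (M * R ^ p.1.degree) * (M' * R ^ p.2.degree) :=
          mul_le_mul h1 h2 (norm_nonneg _) (by positivity)
      _ = M * M' * R ^ α.degree := by rw [h3, pow_add]; ring
  calc ‖∑ p ∈ Finset.HasAntidiagonal.antidiagonal α, MvPowerSeries.coeff p.1 φ * MvPowerSeries.coeff p.2 ψ‖ ≤
        ∑ p ∈ Finset.HasAntidiagonal.antidiagonal α, ‖MvPowerSeries.coeff p.1 φ * MvPowerSeries.coeff p.2 ψ‖ :=
        norm_sum_le _ _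
    _ ≤ ∑ _p ∈ Finset.HasAntidiagonal.antidiagonal α, M * M' * R ^ α.degree := Finset.sum_le_sum hterm
    _ = ((Finset.HasAntidiagonal.antidiagonal α).card : ℝ) * (M * M' * R ^ α.degree) := by
        rw [Finset.sum_const, nsmul_eq_mul]
    _ ≤ (2 ^ α.degree : ℝ) * (M * M' * R ^ α.degree) := by
        have h4 : ((Finset.HasAntidiagonal.antidiagonal α).card : ℝ) ≤ 2 ^ α.degree := by
          exact_mod_cast card_antidiagonal_le α
        exact mul_le_mul_of_nonneg_right h4 (by positivity)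
    _ = M * M' * (2 * R) ^ α.degree := by rw [mul_pow]; ring

/-- polynomials are convergent power series -/
theorem ConvCond.poly {n : ℕ} (p : MvPolynomial (Fin n) ℂ) : ConvCond (p : MvPowerSeries (Fin n) ℂ) := by
  classical
  refine ⟨∑ β ∈ p.support, ‖MvPolynomial.coeff β p‖, 1,
    Finset.sum_nonneg (fun _ _ => norm_nonneg _), zero_le_one, fun α => ?_⟩
  rw [one_pow, mul_one, MvPolynomial.coeff_coe]
  by_cases h : α ∈ p.support
  · exact Finset.single_le_sum (f := fun β => ‖MvPolynomial.coeff β p‖)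
      (fun _ _ => norm_nonneg _) h
  · rw [MvPolynomial.notMem_support_iff.1 h, norm_zero]
    exact Finset.sum_nonneg (fun _ _ => norm_nonneg _)

/-- The ring `ℂ{x₁,…,xₙ}` of convergent power series, as a subalgebra of the formal power series. -/
def Conv (n : ℕ) : Subalgebra ℂ (MvPowerSeries (Fin n) ℂ) where
  carrier := {φ | ConvCond φ}
  mul_mem' := fun h h' => ConvCond.mul h h'
  add_mem' := fun h h' => ConvCond.add h h'
  algebraMap_mem' := fun a => by
    have h := ConvCond.poly (n := n) (MvPolynomial.C a)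
    rw [MvPolynomial.coe_C] at h
    exact h

/-- a polynomial as a convergent power series -/
noncomputable def toConv {n : ℕ} (p : MvPolynomial (Fin n) ℂ) : Conv n :=
  ⟨(p : MvPowerSeries (Fin n) ℂ), ConvCond.poly p⟩

/-- The ideal `(∂f/∂x₁, …, ∂f/∂xₙ)` of `ℂ{x₁,…,xₙ}`. -/
noncomputable def jacobianIdeal {n : ℕ} (f : MvPolynomial (Fin n) ℝ) : Ideal (Conv n) :=
  Ideal.span (Set.range fun i =>
    toConv (MvPolynomial.pderiv i (MvPolynomial.map (algebraMap ℝ ℂ) f)))

/-- The Milnor number `dim_ℂ ℂ{x₁,…,xₙ}/(∂f/∂x₁,…,∂f/∂xₙ)`. -/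
noncomputable def milnor {n : ℕ} (f : MvPolynomial (Fin n) ℝ) : ℕ :=
  Module.finrank ℂ (Conv n ⧸ jacobianIdeal f)

/-- `f(0) = 0`, `df(0) = 0`, and `0` is an isolated critical point of the complexification. -/
def IsIsolatedCritical {n : ℕ} (f : MvPolynomial (Fin n) ℝ) : Prop :=
  cx f 0 = 0 ∧ fderiv ℂ (cx f) 0 = 0 ∧ ∀ᶠ z in 𝓝 (0 : Fin n → ℂ), fderiv ℂ (cx f) z = 0 → z = 0

/-- The property asked for in Q1: some real deformation `f_t` of `f` has, for all sufficiently small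
`t > 0`, exactly `μ` critical points in a fixed closed ball around `0`, all of them real and
nondegenerate. -/
def HasRealMorsification {n : ℕ} (f : MvPolynomial (Fin n) ℝ) : Prop :=
  ∃ D : RealDeformation f, ∃ ρ : ℝ, 0 < ρ ∧ ρ < D.r ∧
    ∀ᶠ t in 𝓝[>] (0 : ℝ), GoodAt (D.F t) (eball n ρ) (milnor f)

/-- The counterexample (`c > 1` close to `1`), a cubic form in seven variables.  With
`z₁ = x₀ + i x₁`, `z₂ = x₂ + i x₃`, `z₃ = x₄ + i x₅` it is
`2 Re(z₁³ + z₂³ + z₃³) + x₆³ - c (2 Re(z₁ + z₂ + z₃) + x₆)³`. -/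
noncomputable def germ (c : ℝ) : MvPolynomial (Fin 7) ℝ :=
  2 * (MvPolynomial.X 0 ^ 3 - 3 * MvPolynomial.X 0 * MvPolynomial.X 1 ^ 2) +
  2 * (MvPolynomial.X 2 ^ 3 - 3 * MvPolynomial.X 2 * MvPolynomial.X 3 ^ 2) +
  2 * (MvPolynomial.X 4 ^ 3 - 3 * MvPolynomial.X 4 * MvPolynomial.X 5 ^ 2) +
  MvPolynomial.X 6 ^ 3 - MvPolynomial.C c *
    (2 * MvPolynomial.X 0 + 2 * MvPolynomial.X 2 + 2 * MvPolynomial.X 4 + MvPolynomial.X 6) ^ 3

end RealMorsification
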