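import Pool.Agent.Helper787.RMLevel
import Pool.Agent.Helper787.RMMilnor
set_option autoImplicit false
open Metric Complex Filter Topology
namespace RM
open RealMorsification

/-- the counterexample -/
noncomputable def poly (c : ℝ) : MvPolynomial (Fin 7) ℝ :=
  2 * (MvPolynomial.X 0 ^ 3 - 3 * MvPolynomial.X 0 * MvPolynomial.X 1 ^ 2) +
  2 * (MvPolynomial.X 2 ^ 3 - 3 * MvPolynomial.X 2 * MvPolynomial.X 3 ^ 2) +
  2 * (MvPolynomial.X 4 ^ 3 - 3 * MvPolynomial.X 4 * MvPolynomial.X 5 ^ 2) +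
  MvPolynomial.X 6 ^ 3 - MvPolynomial.C c *
    (2 * MvPolynomial.X 0 + 2 * MvPolynomial.X 2 + 2 * MvPolynomial.X 4 + MvPolynomial.X 6) ^ 3

/-- coordinates `x = A u` -/
noncomputable def A : E7 →L[ℂ] E7 := LinearMap.toContinuousLinearMap
  { toFun := fun u => ![u 0 + I * u 1, u 0 - I * u 1, u 2 + I * u 3, u 2 - I * u 3,
      u 4 + I * u 5, u 4 - I * u 5, u 6]
    map_add' := by
      intro u v; ext i; fin_cases i <;> simp <;> ring
    map_smul' := by
      intro a u; ext i; fin_cases i <;> simp <;> ring }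

/-- inverse coordinates -/
noncomputable def Ai : E7 →L[ℂ] E7 := LinearMap.toContinuousLinearMap
  { toFun := fun x => ![(x 0 + x 1) / 2, -I * (x 0 - x 1) / 2, (x 2 + x 3) / 2, -I * (x 2 - x 3) / 2,
      (x 4 + x 5) / 2, -I * (x 4 - x 5) / 2, x 6]
    map_add' := by
      intro u v; ext i; fin_cases i <;> simp <;> ring
    map_smul' := by
      intro a u; ext i; fin_cases i <;> simp <;> ring }

/-- gradient in the `x` coordinates -/
noncomputable def GG (F : E7 → ℂ) (x : E7) : E7 := fun i => fderiv ℂ F (Ai x) (Ai (Pi.single i 1))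

/-- U0a -/
theorem Ai_A (u : E7) : Ai (A u) = u := by
  have hA : A u = ![u 0 + I * u 1, u 0 - I * u 1, u 2 + I * u 3, u 2 - I * u 3,
      u 4 + I * u 5, u 4 - I * u 5, u 6] := rfl
  have hAi : ∀ x : E7, Ai x = ![(x 0 + x 1) / 2, -I * (x 0 - x 1) / 2, (x 2 + x 3) / 2,
      -I * (x 2 - x 3) / 2, (x 4 + x 5) / 2, -I * (x 4 - x 5) / 2, x 6] := fun x => rfl
  have hI : I * I = -1 := Complex.I_mul_I
  rw [hAi, hA]
  ext i
  fin_cases i
  · show ((u 0 + I * u 1) + (u 0 - I * u 1)) / 2 = u 0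
    ring
  · show -I * ((u 0 + I * u 1) - (u 0 - I * u 1)) / 2 = u 1
    linear_combination (-u 1) * hI
  · show ((u 2 + I * u 3) + (u 2 - I * u 3)) / 2 = u 2
    ring
  · show -I * ((u 2 + I * u 3) - (u 2 - I * u 3)) / 2 = u 3
    linear_combination (-u 3) * hI
  · show ((u 4 + I * u 5) + (u 4 - I * u 5)) / 2 = u 4
    ring
  · show -I * ((u 4 + I * u 5) - (u 4 - I * u 5)) / 2 = u 5
    linear_combination (-u 5) * hI
  · rfl

/-- U0b -/
theorem A_Ai (x : E7) : A (Ai x) = x := by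
  have hA : ∀ u : E7, A u = ![u 0 + I * u 1, u 0 - I * u 1, u 2 + I * u 3, u 2 - I * u 3,
      u 4 + I * u 5, u 4 - I * u 5, u 6] := fun u => rfl
  have hAi : Ai x = ![(x 0 + x 1) / 2, -I * (x 0 - x 1) / 2, (x 2 + x 3) / 2,
      -I * (x 2 - x 3) / 2, (x 4 + x 5) / 2, -I * (x 4 - x 5) / 2, x 6] := rfl
  have hI : I * I = -1 := Complex.I_mul_I
  rw [hA, hAi]
  ext i
  fin_cases i
  · show (x 0 + x 1) / 2 + I * (-I * (x 0 - x 1) / 2) = x 0
    linear_combination (-(x 0 - x 1) / 2) * hI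
  · show (x 0 + x 1) / 2 - I * (-I * (x 0 - x 1) / 2) = x 1
    linear_combination ((x 0 - x 1) / 2) * hI
  · show (x 2 + x 3) / 2 + I * (-I * (x 2 - x 3) / 2) = x 2
    linear_combination (-(x 2 - x 3) / 2) * hI
  · show (x 2 + x 3) / 2 - I * (-I * (x 2 - x 3) / 2) = x 3
    linear_combination ((x 2 - x 3) / 2) * hI
  · show (x 4 + x 5) / 2 + I * (-I * (x 4 - x 5) / 2) = x 4
    linear_combination (-(x 4 - x 5) / 2) * hI
  · show (x 4 + x 5) / 2 - I * (-I * (x 4 - x 5) / 2) = x 5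
    linear_combination ((x 4 - x 5) / 2) * hI
  · rfl

/-- U0c -/
theorem Ai_norm (x : E7) : ‖Ai x‖ ≤ ‖x‖ := by
  have hAi : Ai x = ![(x 0 + x 1) / 2, -I * (x 0 - x 1) / 2, (x 2 + x 3) / 2,
      -I * (x 2 - x 3) / 2, (x 4 + x 5) / 2, -I * (x 4 - x 5) / 2, x 6] := rfl
  have h1 : ∀ i j : Fin 7, ‖(x i + x j) / 2‖ ≤ ‖x‖ := by
    intro i j
    have h2 := norm_le_pi_norm x i
    have h3 := norm_le_pi_norm x j
    have h4 := norm_add_le (x i) (x j)
    rw [norm_div, Complex.norm_ofNat]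
    linarith
  have h1' : ∀ i j : Fin 7, ‖-I * (x i - x j) / 2‖ ≤ ‖x‖ := by
    intro i j
    have h2 := norm_le_pi_norm x i
    have h3 := norm_le_pi_norm x j
    have h4 := norm_sub_le (x i) (x j)
    rw [norm_div, norm_mul, norm_neg, Complex.norm_I, one_mul, Complex.norm_ofNat]
    linarith
  rw [hAi, pi_norm_le_iff_of_nonneg (norm_nonneg x)]
  intro i
  fin_cases i
  · exact h1 0 1
  · exact h1' 0 1
  · exact h1 2 3
  · exact h1' 2 3
  · exact h1 4 5
  · exact h1' 4 5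
  · exact norm_le_pi_norm x 6

/-- U1 -/
theorem GG_analytic (F : E7 → ℂ) (r : ℝ) (hF : AnalyticOnNhd ℂ F (ball 0 r)) :
    AnalyticOnNhd ℂ (GG F) (ball 0 r) := by
  have h1 : AnalyticOnNhd ℂ (fderiv ℂ F) (ball 0 r) := hF.fderiv
  intro x hx
  have h2 : Ai x ∈ ball (0 : E7) r := by
    rw [mem_ball_zero_iff] at hx ⊢
    exact (Ai_norm x).trans_lt hx
  have h3 : AnalyticAt ℂ (fun x => fderiv ℂ F (Ai x)) x := (h1 (Ai x) h2).comp (Ai.analyticAt x)
  refine AnalyticAt.pi fun i => ?_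
  exact ((ContinuousLinearMap.apply ℂ ℂ (Ai (Pi.single i 1))).analyticAt _).comp h3

theorem GG_poly_cx (c : ℝ) (u : E7) :
    cx (poly c) u = ∑ i, (A u i) ^ 3 - (c : ℂ) * (∑ i, A u i) ^ 3 := by
  have hI : I ^ 2 = -1 := I_sq
  have hA0 : A u 0 = u 0 + I * u 1 := rfl
  have hA1 : A u 1 = u 0 - I * u 1 := rfl
  have hA2 : A u 2 = u 2 + I * u 3 := rfl
  have hA3 : A u 3 = u 2 - I * u 3 := rfl
  have hA4 : A u 4 = u 4 + I * u 5 := rfl
  have hA5 : A u 5 = u 4 - I * u 5 := rfl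
  have hA6 : A u 6 = u 6 := rfl
  simp only [Fin.sum_univ_seven, hA0, hA1, hA2, hA3, hA4, hA5, hA6, cx, poly, map_add, map_sub,
    map_mul, map_pow, map_ofNat, MvPolynomial.aeval_X, MvPolynomial.aeval_C,
    Complex.coe_algebraMap]
  linear_combination (-6 * u 0 * u 1 ^ 2 - 6 * u 2 * u 3 ^ 2 - 6 * u 4 * u 5 ^ 2) * hI

theorem GG_poly_der (c : ℂ) (x : E7) (i : Fin 7) :
    ∃ L : E7 →L[ℂ] ℂ, HasFDerivAt (fun y : E7 => ∑ i, (y i) ^ 3 - c * (∑ i, y i) ^ 3) L x ∧
      L (Pi.single i 1) = 3 * x i ^ 2 - 3 * c * (∑ j, x j) ^ 2 := by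
  have h1 : ∀ j ∈ (Finset.univ : Finset (Fin 7)),
      HasFDerivAt (fun y : E7 => y j ^ 3) ((3 * x j ^ 2) • (ContinuousLinearMap.proj j : E7 →L[ℂ] ℂ)) x := by
    intro j _
    have := (hasFDerivAt_apply (𝕜 := ℂ) j x).pow 3
    refine this.congr_fderiv ?_
    ext v
    simp
  have h2 := HasFDerivAt.fun_sum h1
  have h3 : ∀ j ∈ (Finset.univ : Finset (Fin 7)),
      HasFDerivAt (fun y : E7 => y j) (ContinuousLinearMap.proj j : E7 →L[ℂ] ℂ) x :=
    fun j _ => hasFDerivAt_apply j x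
  have h4 := (HasFDerivAt.fun_sum h3).pow 3
  refine ⟨_, h2.sub (h4.const_mul c), ?_⟩
  simp only [_root_.sub_apply, _root_.sum_apply, _root_.smul_apply, ContinuousLinearMap.proj_apply,
    smul_eq_mul, Pi.single_apply]
  simp
  ring

/-- U2a -/
theorem GG_poly (c : ℝ) (x : E7) : GG (cx (poly c)) x = g c x := by
  funext i
  obtain ⟨L, hL, hLi⟩ := GG_poly_der (c : ℂ) x i
  have h1 : cx (poly c) = (fun y : E7 => ∑ i, (y i) ^ 3 - (c : ℂ) * (∑ i, y i) ^ 3) ∘ A := by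
    funext u
    exact GG_poly_cx c u
  have h2 : HasFDerivAt (cx (poly c)) (L.comp A) (Ai x) := by
    rw [h1]
    have hL' : HasFDerivAt (fun y : E7 => ∑ i, (y i) ^ 3 - (c : ℂ) * (∑ i, y i) ^ 3) L
        (A (Ai x)) := by rw [A_Ai]; exact hL
    exact hL'.comp (Ai x) A.hasFDerivAt
  unfold GG g
  rw [h2.fderiv, ContinuousLinearMap.comp_apply, A_Ai, hLi]

theorem GG_unif_aux_diff (c : ℝ) : Differentiable ℂ (cx (poly c)) := by
  have h : cx (poly c) = fun z : E7 => 2 * (z 0 ^ 3 - 3 * z 0 * z 1 ^ 2) +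
      2 * (z 2 ^ 3 - 3 * z 2 * z 3 ^ 2) + 2 * (z 4 ^ 3 - 3 * z 4 * z 5 ^ 2) + z 6 ^ 3 -
      (c : ℂ) * (2 * z 0 + 2 * z 2 + 2 * z 4 + z 6) ^ 3 := by
    funext z
    unfold cx poly
    simp only [map_add, map_sub, map_mul, map_pow, MvPolynomial.aeval_X, map_ofNat,
      MvPolynomial.aeval_C, Complex.coe_algebraMap]
  rw [h]
  fun_prop

/-- U2b -/
theorem GG_unif {ι : Type*} {𝓕 : Filter ι} (c : ℝ) (F : ι → E7 → ℂ) (r : ℝ) (hr : 0 < r)
    (hF : ∀ᶠ t in 𝓕, AnalyticOnNhd ℂ (F t) (ball 0 r))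
    (hu : TendstoUniformlyOn F (cx (poly c)) (𝓕) (ball 0 r)) :
    TendstoUniformlyOn (fun t => GG (F t)) (g c) (𝓕) (ball 0 (r / 2)) := by
  rw [Metric.tendstoUniformlyOn_iff] at hu ⊢
  intro ε hε
  have hM : 0 < ε * r / 8 := by positivity
  filter_upwards [hF, hu _ hM] with t hta htu x hx
  have hx' : ‖x‖ < r / 2 := by simpa using hx
  have hAx : ‖Ai x‖ < r / 2 := (Ai_norm x).trans_lt hx'
  have hsub : ball (Ai x) (r / 2) ⊆ ball (0 : E7) r := by
    intro y hy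
    rw [mem_ball_zero_iff]
    rw [mem_ball_iff_norm] at hy
    calc ‖y‖ = ‖(y - Ai x) + Ai x‖ := by rw [sub_add_cancel]
      _ ≤ ‖y - Ai x‖ + ‖Ai x‖ := norm_add_le _ _
      _ < r / 2 + r / 2 := add_lt_add hy hAx
      _ = r := by ring
  have hmem : Ai x ∈ ball (0 : E7) r := by
    rw [mem_ball_zero_iff]
    linarith
  have hd1 : DifferentiableAt ℂ (F t) (Ai x) := (hta _ hmem).differentiableAt
  have hd2 : DifferentiableAt ℂ (cx (poly c)) (Ai x) := GG_unif_aux_diff c _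
  have hb := fderiv_bound (fun z => F t z - cx (poly c) z) (Ai x) (r / 2) (ε * r / 8)
    (by positivity) (by
      intro y hy
      exact ((hta y (hsub hy)).differentiableAt.sub (GG_unif_aux_diff c y)).differentiableWithinAt)
    (by
      intro y hy
      have := htu y (hsub hy)
      rw [dist_comm, dist_eq_norm] at this
      exact this.le)
  have he : fderiv ℂ (fun z => F t z - cx (poly c) z) (Ai x) =
      fderiv ℂ (F t) (Ai x) - fderiv ℂ (cx (poly c)) (Ai x) := fderiv_fun_sub hd1 hd2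
  rw [← GG_poly, dist_comm]
  rw [dist_pi_lt_iff hε]
  intro i
  rw [dist_eq_norm]
  have h1 : GG (F t) x i - GG (cx (poly c)) x i =
      (fderiv ℂ (fun z => F t z - cx (poly c) z) (Ai x)) (Ai (Pi.single i 1)) := by
    rw [he]
    rfl
  rw [h1]
  have h2 : ‖Ai (Pi.single i 1)‖ ≤ 1 := by
    refine (Ai_norm _).trans ?_
    rw [pi_norm_le_iff_of_nonneg zero_le_one]
    intro j
    by_cases h : j = i
    · subst h; simp
    · simp [Pi.single_eq_of_ne h]
  calc ‖(fderiv ℂ (fun z => F t z - cx (poly c) z) (Ai x)) (Ai (Pi.single i 1))‖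
      ≤ ‖fderiv ℂ (fun z => F t z - cx (poly c) z) (Ai x)‖ * ‖Ai (Pi.single i 1)‖ :=
        ContinuousLinearMap.le_opNorm _ _
    _ ≤ (ε * r / 8) / (r / 2) * 1 := mul_le_mul hb h2 (norm_nonneg _) (by positivity)
    _ = ε / 4 := by field_simp; ring
    _ < ε := by linarith

/-- U3 -/
theorem GG_zero_iff (F : E7 → ℂ) (x : E7) : GG F x = 0 ↔ fderiv ℂ F (Ai x) = 0 := by
  constructor
  · intro h
    have hL : ((fderiv ℂ F (Ai x)).comp Ai : E7 →L[ℂ] ℂ).toLinearMap = 0 := by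
      apply LinearMap.pi_ext
      intro i c
      have h1 : fderiv ℂ F (Ai x) (Ai (Pi.single i 1)) = 0 := congrFun h i
      have h2 : (Pi.single i c : E7) = c • Pi.single i 1 := by
        rw [← Pi.single_smul, smul_eq_mul, mul_one]
      change fderiv ℂ F (Ai x) (Ai (Pi.single i c)) = 0
      rw [h2, map_smul, map_smul, h1, smul_zero]
    refine ContinuousLinearMap.ext fun v => ?_
    have h3 := LinearMap.congr_fun hL (A v)
    have h4 : fderiv ℂ F (Ai x) (Ai (A v)) = 0 := h3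
    rw [Ai_A] at h4
    exact h4
  · intro h
    funext i
    change fderiv ℂ F (Ai x) (Ai (Pi.single i 1)) = 0
    rw [h]
    rfl

theorem im_add_half (a b : ℂ) : ((a + b) / 2).im = (a.im + b.im) / 2 := by
  have h : ((a + b) / 2 : ℂ) = (((1 / 2 : ℝ) : ℂ)) * (a + b) := by
    push_cast; ring
  rw [h, Complex.im_ofReal_mul, Complex.add_im]
  ring

theorem im_I_sub_half (a b : ℂ) : (-I * (a - b) / 2).im = (b.re - a.re) / 2 := by
  have h : (-I * (a - b) / 2 : ℂ) = (((1 / 2 : ℝ) : ℂ)) * (-I * (a - b)) := by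
    push_cast; ring
  rw [h, Complex.im_ofReal_mul, Complex.mul_im]
  simp
  ring

/-- U4 -/
theorem sreal_iff (x : E7) : SReal x ↔ IsRealPt (Ai x) := by
  have a0 : Ai x 0 = (x 0 + x 1) / 2 := rfl
  have a1 : Ai x 1 = -I * (x 0 - x 1) / 2 := rfl
  have a2 : Ai x 2 = (x 2 + x 3) / 2 := rfl
  have a3 : Ai x 3 = -I * (x 2 - x 3) / 2 := rfl
  have a4 : Ai x 4 = (x 4 + x 5) / 2 := rfl
  have a5 : Ai x 5 = -I * (x 4 - x 5) / 2 := rfl
  have a6 : Ai x 6 = x 6 := rfl
  constructor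
  · intro h
    have h0 : x 1 = (starRingEnd ℂ) (x 0) := h 0
    have h2 : x 3 = (starRingEnd ℂ) (x 2) := h 2
    have h4 : x 5 = (starRingEnd ℂ) (x 4) := h 4
    have h6 : x 6 = (starRingEnd ℂ) (x 6) := h 6
    intro i
    fin_cases i
    · show (Ai x 0).im = 0
      rw [a0, im_add_half, h0, Complex.conj_im]; ring
    · show (Ai x 1).im = 0
      rw [a1, im_I_sub_half, h0, Complex.conj_re]; ring
    · show (Ai x 2).im = 0
      rw [a2, im_add_half, h2, Complex.conj_im]; ring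
    · show (Ai x 3).im = 0
      rw [a3, im_I_sub_half, h2, Complex.conj_re]; ring
    · show (Ai x 4).im = 0
      rw [a4, im_add_half, h4, Complex.conj_im]; ring
    · show (Ai x 5).im = 0
      rw [a5, im_I_sub_half, h4, Complex.conj_re]; ring
    · show (Ai x 6).im = 0
      rw [a6]
      exact Complex.conj_eq_iff_im.1 h6.symm
  · intro h
    have h0 : (x 0).im + (x 1).im = 0 := by
      have := h 0; rw [a0, im_add_half] at this; linarith
    have h1 : (x 1).re - (x 0).re = 0 := by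
      have := h 1; rw [a1, im_I_sub_half] at this; linarith
    have h2 : (x 2).im + (x 3).im = 0 := by
      have := h 2; rw [a2, im_add_half] at this; linarith
    have h3 : (x 3).re - (x 2).re = 0 := by
      have := h 3; rw [a3, im_I_sub_half] at this; linarith
    have h4 : (x 4).im + (x 5).im = 0 := by
      have := h 4; rw [a4, im_add_half] at this; linarith
    have h5 : (x 5).re - (x 4).re = 0 := by
      have := h 5; rw [a5, im_I_sub_half] at this; linarith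
    have h6 : (x 6).im = 0 := by
      have := h 6; rwa [a6] at this
    have key : ∀ a b : ℂ, a.im + b.im = 0 → b.re - a.re = 0 → b = (starRingEnd ℂ) a := by
      intro a b h1 h2
      apply Complex.ext
      · rw [Complex.conj_re]; linarith
      · rw [Complex.conj_im]; linarith
    intro i
    fin_cases i
    · exact key (x 0) (x 1) h0 h1
    · exact key (x 1) (x 0) (by linarith) (by linarith)
    · exact key (x 2) (x 3) h2 h3
    · exact key (x 3) (x 2) (by linarith) (by linarith)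
    · exact key (x 4) (x 5) h4 h5
    · exact key (x 5) (x 4) (by linarith) (by linarith)
    · exact (Complex.conj_eq_iff_im.2 h6).symm

theorem GG_fderiv_apply (F : E7 → ℂ) (r : ℝ) (hF : AnalyticOnNhd ℂ F (ball 0 r)) (x : E7)
    (hx : x ∈ ball (0 : E7) r) (v : E7) (i : Fin 7) :
    fderiv ℂ (GG F) x v i = fderiv ℂ (fderiv ℂ F) (Ai x) (Ai v) (Ai (Pi.single i 1)) := by
  have hy : Ai x ∈ ball (0 : E7) r := by
    rw [mem_ball_zero_iff] at hx ⊢
    exact lt_of_le_of_lt (Ai_norm x) hx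
  have hd : DifferentiableAt ℂ (fderiv ℂ F) (Ai x) := (hF (Ai x) hy).fderiv.differentiableAt
  have h1 : HasFDerivAt (fun x => fderiv ℂ F (Ai x)) ((fderiv ℂ (fderiv ℂ F) (Ai x)).comp Ai) x :=
    hd.hasFDerivAt.comp x Ai.hasFDerivAt
  have h2 : ∀ j, HasFDerivAt (fun x => GG F x j)
      (((fderiv ℂ (fderiv ℂ F) (Ai x)).comp Ai).flip (Ai (Pi.single j 1))) x := by
    intro j
    have h3 := h1.clm_apply (hasFDerivAt_const (Ai (Pi.single j 1)) x)
    refine h3.congr_fderiv ?_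
    ext u
    simp
  have h3 : HasFDerivAt (GG F) (ContinuousLinearMap.pi fun j =>
      ((fderiv ℂ (fderiv ℂ F) (Ai x)).comp Ai).flip (Ai (Pi.single j 1))) x :=
    hasFDerivAt_pi.2 h2
  rw [h3.fderiv]
  rfl

/-- U5 -/
theorem GG_symm (F : E7 → ℂ) (r : ℝ) (hF : AnalyticOnNhd ℂ F (ball 0 r)) (x : E7) (hx : x ∈ ball (0 : E7) r)
    (i j : Fin 7) :
    fderiv ℂ (GG F) x (Pi.single j 1) i = fderiv ℂ (GG F) x (Pi.single i 1) j := by
  rw [GG_fderiv_apply F r hF x hx, GG_fderiv_apply F r hF x hx]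
  have hy : Ai x ∈ ball (0 : E7) r := by
    rw [mem_ball_zero_iff] at hx ⊢
    exact lt_of_le_of_lt (Ai_norm x) hx
  have hs : IsSymmSndFDerivAt ℂ F (Ai x) :=
    ContDiffAt.isSymmSndFDerivAt (n := ⊤) (hF (Ai x) hy).contDiffAt le_top
  exact hs _ _

theorem U6_im (F : E7 → ℂ) (r : ℝ) (hF : AnalyticOnNhd ℂ F (ball 0 r))
    (hreal : ∀ x : Fin 7 → ℝ, toC x ∈ ball (0 : E7) r → (F (toC x)).im = 0)
    (x0 : Fin 7 → ℝ) (hx : toC x0 ∈ ball (0 : E7) r) (b : Fin 7 → ℝ) :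
    (fderiv ℂ F (toC x0) (toC b)).im = 0 := by
  have h1 : HasFDerivAt F (fderiv ℂ F (toC x0)) (toC x0) :=
    (hF _ hx).differentiableAt.hasFDerivAt
  have h2 : HasDerivAt (fun s : ℝ => (toC (fun i => x0 i + s * b i) : E7)) (toC b) 0 := by
    rw [hasDerivAt_pi]
    intro i
    have h3 : HasDerivAt (fun s : ℝ => x0 i + s * b i) (b i) 0 := by
      simpa using ((hasDerivAt_id (0 : ℝ)).mul_const (b i)).const_add (x0 i)
    exact h3.ofReal_comp
  have h0 : (toC (fun i => x0 i + (0 : ℝ) * b i) : E7) = toC x0 := by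
    congr 1; funext i; simp
  have h3 : HasDerivAt (fun s : ℝ => F (toC (fun i => x0 i + s * b i)))
      (fderiv ℂ F (toC x0) (toC b)) 0 := by
    have h4 : HasFDerivAt F ((fderiv ℂ F (toC x0)).restrictScalars ℝ)
        (toC (fun i => x0 i + (0 : ℝ) * b i)) := by
      rw [h0]; exact h1.restrictScalars ℝ
    exact HasFDerivAt.comp_hasDerivAt (0 : ℝ) h4 h2
  have h5 : HasDerivAt (fun s : ℝ => (F (toC (fun i => x0 i + s * b i))).im)
      (fderiv ℂ F (toC x0) (toC b)).im 0 := by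
    exact Complex.imCLM.hasFDerivAt.comp_hasDerivAt (0 : ℝ) h3
  have h6 : (fun _ : ℝ => (0 : ℝ)) =ᶠ[𝓝 0] (fun s : ℝ => (F (toC (fun i => x0 i + s * b i))).im) := by
    have h7 : (fun s : ℝ => (toC (fun i => x0 i + s * b i) : E7)) ⁻¹' (ball (0 : E7) r) ∈ 𝓝 (0 : ℝ) := by
      apply h2.continuousAt.preimage_mem_nhds
      rw [h0]
      exact isOpen_ball.mem_nhds hx
    filter_upwards [h7] with s hs
    exact (hreal _ hs).symm
  exact (h5.congr_of_eventuallyEq h6).unique (hasDerivAt_const _ _)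

theorem U6_im2 (F : E7 → ℂ) (r : ℝ) (hF : AnalyticOnNhd ℂ F (ball 0 r))
    (hreal : ∀ x : Fin 7 → ℝ, toC x ∈ ball (0 : E7) r → (F (toC x)).im = 0)
    (x0 : Fin 7 → ℝ) (hx : toC x0 ∈ ball (0 : E7) r) (a b : Fin 7 → ℝ) :
    (fderiv ℂ (fderiv ℂ F) (toC x0) (toC a) (toC b)).im = 0 := by
  have hF' : AnalyticOnNhd ℂ (fderiv ℂ F) (ball 0 r) := hF.fderiv
  have hG : AnalyticOnNhd ℂ (fun z => fderiv ℂ F z (toC b)) (ball 0 r) := by
    intro z hz
    exact (ContinuousLinearMap.apply ℂ ℂ (toC b : E7)).analyticAt _ |>.comp (hF' z hz)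
  have h1 := U6_im (fun z => fderiv ℂ F z (toC b)) r hG
    (fun y hy => U6_im F r hF hreal y hy b) x0 hx a
  have h2 : HasFDerivAt (fderiv ℂ F) (fderiv ℂ (fderiv ℂ F) (toC x0)) (toC x0) :=
    (hF' _ hx).differentiableAt.hasFDerivAt
  have h3 : HasFDerivAt (fun z => fderiv ℂ F z (toC b))
      ((ContinuousLinearMap.apply ℂ ℂ (toC b : E7)).comp (fderiv ℂ (fderiv ℂ F) (toC x0)))
      (toC x0) :=
    (ContinuousLinearMap.apply ℂ ℂ (toC b : E7)).hasFDerivAt.comp _ h2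
  rw [h3.fderiv] at h1
  exact h1

/-- componentwise conjugation -/
noncomputable def U6_cj (v : E7) : E7 := fun i => (starRingEnd ℂ) (v i)

theorem U6_conj (D : E7 →L[ℂ] (E7 →L[ℂ] ℂ))
    (h : ∀ a b : Fin 7 → ℝ, (D (toC a) (toC b)).im = 0) (v w : E7) :
    D (U6_cj v) (U6_cj w) = (starRingEnd ℂ) (D v w) := by
  have hv : v = toC (fun i => (v i).re) + I • toC (fun i => (v i).im) := by
    funext i
    simp only [Pi.add_apply, Pi.smul_apply, toC, smul_eq_mul]
    rw [mul_comm]; exact (Complex.re_add_im _).symm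
  have hw : w = toC (fun i => (w i).re) + I • toC (fun i => (w i).im) := by
    funext i
    simp only [Pi.add_apply, Pi.smul_apply, toC, smul_eq_mul]
    rw [mul_comm]; exact (Complex.re_add_im _).symm
  have hcv : U6_cj v = toC (fun i => (v i).re) - I • toC (fun i => (v i).im) := by
    funext i
    simp only [Pi.sub_apply, Pi.smul_apply, toC, smul_eq_mul, U6_cj]
    apply Complex.ext <;> simp
  have hcw : U6_cj w = toC (fun i => (w i).re) - I • toC (fun i => (w i).im) := by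
    funext i
    simp only [Pi.sub_apply, Pi.smul_apply, toC, smul_eq_mul, U6_cj]
    apply Complex.ext <;> simp
  rw [hcv, hcw]
  conv_rhs => rw [hv, hw]
  set a := fun i => (v i).re
  set a' := fun i => (v i).im
  set b := fun i => (w i).re
  set b' := fun i => (w i).im
  have e1 := h a b
  have e2 := h a b'
  have e3 := h a' b
  have e4 := h a' b'
  simp only [map_add, map_sub, map_smul, smul_eq_mul, _root_.add_apply, _root_.sub_apply,
    _root_.smul_apply]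
  apply Complex.ext <;> simp [e1, e2, e3, e4] <;> ring1

theorem U6_Ai_single (j : Fin 7) : Ai (Pi.single (sg j) 1) = U6_cj (Ai (Pi.single j 1)) := by
  funext i
  have h2 : (starRingEnd ℂ) 2 = 2 := Complex.conj_ofNat 2
  fin_cases j <;> fin_cases i <;> simp [Ai, sg, U6_cj, h2]

theorem U6_e1 (a b : ℂ) (h : b = (starRingEnd ℂ) a) : ((a + b) / 2 : ℂ).im = 0 := by
  rw [h, Complex.add_conj]
  have : ((2 * a.re : ℝ) : ℂ) / 2 = ((a.re : ℝ) : ℂ) := by push_cast; ring1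
  rw [this, Complex.ofReal_im]

theorem U6_e2 (a b : ℂ) (h : b = (starRingEnd ℂ) a) : (-I * (a - b) / 2 : ℂ).im = 0 := by
  rw [h, Complex.sub_conj]
  have : -I * (((2 * a.im : ℝ) : ℂ) * I) / 2 = ((a.im : ℝ) : ℂ) := by
    have hI : I * I = -1 := Complex.I_mul_I
    push_cast
    linear_combination (-(a.im : ℂ)) * hI
  rw [this, Complex.ofReal_im]

theorem U6_Ai_real (x : E7) (hs : SReal x) : ∃ y : Fin 7 → ℝ, Ai x = toC y := by
  have h0 : x 1 = (starRingEnd ℂ) (x 0) := hs 0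
  have h2 : x 3 = (starRingEnd ℂ) (x 2) := hs 2
  have h4 : x 5 = (starRingEnd ℂ) (x 4) := hs 4
  have h6 : x 6 = (starRingEnd ℂ) (x 6) := hs 6
  have h : ∀ i, (Ai x i).im = 0 := by
    intro i
    fin_cases i
    · exact U6_e1 _ _ h0
    · exact U6_e2 _ _ h0
    · exact U6_e1 _ _ h2
    · exact U6_e2 _ _ h2
    · exact U6_e1 _ _ h4
    · exact U6_e2 _ _ h4
    · exact Complex.conj_eq_iff_im.1 h6.symm
  exact ⟨fun i => (Ai x i).re, by funext i; apply Complex.ext <;> simp [toC, h i]⟩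

theorem U6_fderiv (F : E7 → ℂ) (r : ℝ) (hF : AnalyticOnNhd ℂ F (ball 0 r))
    (x : E7) (hx : Ai x ∈ ball (0 : E7) r) (i j : Fin 7) :
    fderiv ℂ (GG F) x (Pi.single j 1) i =
      fderiv ℂ (fderiv ℂ F) (Ai x) (Ai (Pi.single j 1)) (Ai (Pi.single i 1)) := by
  have hF' : AnalyticOnNhd ℂ (fderiv ℂ F) (ball 0 r) := hF.fderiv
  have h1 : HasFDerivAt (fderiv ℂ F) (fderiv ℂ (fderiv ℂ F) (Ai x)) (Ai x) :=
    (hF' _ hx).differentiableAt.hasFDerivAt
  have h2 : HasFDerivAt (fun y => fderiv ℂ F (Ai y)) ((fderiv ℂ (fderiv ℂ F) (Ai x)).comp Ai) x :=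
    h1.comp x Ai.hasFDerivAt
  have h3 : ∀ k : Fin 7, HasFDerivAt (fun y => fderiv ℂ F (Ai y) (Ai (Pi.single k 1)))
      ((ContinuousLinearMap.apply ℂ ℂ (Ai (Pi.single k 1))).comp
        ((fderiv ℂ (fderiv ℂ F) (Ai x)).comp Ai)) x := fun k =>
    (ContinuousLinearMap.apply ℂ ℂ (Ai (Pi.single k 1))).hasFDerivAt.comp x h2
  have h4 : HasFDerivAt (GG F) (ContinuousLinearMap.pi fun k =>
      ((ContinuousLinearMap.apply ℂ ℂ (Ai (Pi.single k 1))).comp
        ((fderiv ℂ (fderiv ℂ F) (Ai x)).comp Ai))) x := hasFDerivAt_pi.2 h3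
  rw [h4.fderiv]
  rfl

/-- U6 -/
theorem GG_twist (F : E7 → ℂ) (r : ℝ) (hF : AnalyticOnNhd ℂ F (ball 0 r))
    (hreal : ∀ x : Fin 7 → ℝ, toC x ∈ ball (0 : E7) r → (F (toC x)).im = 0)
    (x : E7) (hx : x ∈ ball (0 : E7) r) (hs : SReal x) (i j : Fin 7) :
    fderiv ℂ (GG F) x (Pi.single (sg j) 1) (sg i) =
      (starRingEnd ℂ) (fderiv ℂ (GG F) x (Pi.single j 1) i) := by
  have hx' : Ai x ∈ ball (0 : E7) r := by
    rw [mem_ball_zero_iff] at hx ⊢
    exact lt_of_le_of_lt (Ai_norm x) hx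
  rw [U6_fderiv F r hF x hx', U6_fderiv F r hF x hx', U6_Ai_single, U6_Ai_single]
  apply U6_conj
  intro a b
  obtain ⟨y, hy⟩ := U6_Ai_real x hs
  rw [hy] at hx' ⊢
  exact U6_im2 F r hF hreal y hx' a b

/-- U7 -/
theorem GG_ne (F : E7 → ℂ) (r : ℝ) (hF : AnalyticOnNhd ℂ F (ball 0 r)) (x : E7) (hx : x ∈ ball (0 : E7) r)
    (hd : (hess F (Ai x)).det ≠ 0) : fderiv ℂ (GG F) x ≠ 0 := by
  intro h0
  apply hd
  have hz : Ai x ∈ ball (0 : E7) r := by
    rw [mem_ball_zero_iff] at hx ⊢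
    exact lt_of_le_of_lt (Ai_norm x) hx
  have hdiff : DifferentiableAt ℂ (fderiv ℂ F) (Ai x) := (hF (Ai x) hz).fderiv.differentiableAt
  have hGd : DifferentiableAt ℂ (GG F) x := (GG_analytic F r hF x hx).differentiableAt
  have hcomp : ∀ (w : E7), HasFDerivAt (fun y : E7 => fderiv ℂ F (Ai y) w)
      ((ContinuousLinearMap.apply ℂ ℂ w).comp ((fderiv ℂ (fderiv ℂ F) (Ai x)).comp Ai)) x := by
    intro w
    have h1 : HasFDerivAt (fun y : E7 => fderiv ℂ F (Ai y)) ((fderiv ℂ (fderiv ℂ F) (Ai x)).comp Ai) x :=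
      HasFDerivAt.comp x hdiff.hasFDerivAt Ai.hasFDerivAt
    exact (ContinuousLinearMap.apply ℂ ℂ w).hasFDerivAt.comp x h1
  have h2 : ∀ (i : Fin 7) (v : E7), fderiv ℂ (fderiv ℂ F) (Ai x) (Ai v) (Ai (Pi.single i 1)) = 0 := by
    intro i v
    have h3 : HasFDerivAt (GG F) (0 : E7 →L[ℂ] E7) x := by
      have := hGd.hasFDerivAt
      rwa [h0] at this
    have h4 := (hasFDerivAt_pi'.1 h3) i
    have h5 := h4.unique (hcomp (Ai (Pi.single i 1)))
    have h6 := congrArg (fun L : E7 →L[ℂ] ℂ => L v) h5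
    simpa using h6.symm
  have h7 : ∀ (u w : E7), fderiv ℂ (fderiv ℂ F) (Ai x) u w = 0 := by
    intro u w
    have hw : w = Ai (∑ i, (A w i) • (Pi.single i 1 : E7)) := by
      have : (∑ i, (A w i) • (Pi.single i 1 : E7)) = A w := by
        ext k
        simp [Finset.sum_apply, Pi.single_apply]
      rw [this, Ai_A]
    rw [hw, map_sum, map_sum]
    apply Finset.sum_eq_zero
    intro i _
    rw [map_smul, map_smul]
    have := h2 i (A u)
    rw [Ai_A] at this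
    rw [this, smul_zero]
  have h8 : hess F (Ai x) = 0 := by
    ext i j
    unfold hess
    simp only [Matrix.of_apply, Matrix.zero_apply]
    have h9 : HasFDerivAt (fun w : E7 => fderiv ℂ F w (Pi.single i 1))
        ((ContinuousLinearMap.apply ℂ ℂ (Pi.single i 1 : E7)).comp (fderiv ℂ (fderiv ℂ F) (Ai x))) (Ai x) :=
      (ContinuousLinearMap.apply ℂ ℂ (Pi.single i 1 : E7)).hasFDerivAt.comp (Ai x) hdiff.hasFDerivAt
    rw [h9.fderiv]
    simpa using h7 (Pi.single j 1) (Pi.single i 1)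
  rw [h8]
  exact Matrix.det_zero

/-- U8 : critical points of the deformation in a compact set tend to `0` -/
theorem crit_tendsto {ι : Type*} {𝓕 : Filter ι} {n : ℕ} (f : (Fin n → ℂ) → ℂ) (F : ι → (Fin n → ℂ) → ℂ) (r : ℝ)
    (hf : AnalyticOnNhd ℂ f (ball 0 r))
    (hF : ∀ᶠ t in 𝓕, AnalyticOnNhd ℂ (F t) (ball 0 r))
    (hu : TendstoUniformlyOn F f (𝓕) (ball 0 r)) (K : Set (Fin n → ℂ)) (hK : IsCompact K)
    (hKr : K ⊆ ball 0 r) (hiso : ∀ z ∈ K, fderiv ℂ f z = 0 → z = 0) (a : ι → (Fin n → ℂ))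
    (ha : ∀ᶠ t in 𝓕, a t ∈ K ∧ fderiv ℂ (F t) (a t) = 0) :
    Tendsto a (𝓕) (𝓝 0) := by
  rw [_root_.tendsto_nhds]
  intro W hWo hW0
  have hKW : IsCompact (K \ W) := hK.diff hWo
  have hfc : ContinuousOn (fun z => ‖fderiv ℂ f z‖) (K \ W) := by
    have h1 : ContinuousOn (fderiv ℂ f) (ball 0 r) := hf.fderiv.continuousOn
    exact (h1.mono (Set.diff_subset.trans hKr)).norm
  rcases (K \ W).eq_empty_or_nonempty with hemp | hne
  · filter_upwards [ha] with t ht
    have hsub : K ⊆ W := Set.diff_eq_empty.mp hemp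
    exact hsub ht.1
  · obtain ⟨z0, hz0, hmin⟩ := hKW.exists_isMinOn hne hfc
    have hm : 0 < ‖fderiv ℂ f z0‖ := by
      rw [norm_pos_iff]
      intro h0
      have := hiso z0 hz0.1 h0
      exact hz0.2 (this ▸ hW0)
    obtain ⟨ρ, hρ, hρK⟩ := hK.exists_thickening_subset_open isOpen_ball hKr
    have hev := Metric.tendstoUniformlyOn_iff.mp hu (‖fderiv ℂ f z0‖ * ρ / 2) (by positivity)
    filter_upwards [ha, hF, hev] with t ht hFt hclose
    show a t ∈ W
    by_contra hW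
    have hball : ball (a t) ρ ⊆ ball 0 r := fun w hw =>
      hρK (Metric.mem_thickening_iff.mpr ⟨a t, ht.1, hw⟩)
    have hat : a t ∈ ball (0 : Fin n → ℂ) r := hKr ht.1
    have hd : DifferentiableOn ℂ (fun w => F t w - f w) (ball (a t) ρ) :=
      (hFt.differentiableOn.sub hf.differentiableOn).mono hball
    have hb := fderiv_bound (fun w => F t w - f w) (a t) ρ (‖fderiv ℂ f z0‖ * ρ / 2) hρ hd (by
      intro w hw
      have := hclose w (hball hw)
      rw [dist_comm, dist_eq_norm] at this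
      exact this.le)
    have h2 : fderiv ℂ (fun w => F t w - f w) (a t) = - fderiv ℂ f (a t) := by
      have h3 := ((hFt (a t) hat).differentiableAt.hasFDerivAt.sub
        (hf (a t) hat).differentiableAt.hasFDerivAt).fderiv
      rw [ht.2, zero_sub] at h3
      exact h3
    rw [h2, norm_neg] at hb
    have h4 : ‖fderiv ℂ f z0‖ ≤ ‖fderiv ℂ f (a t)‖ := hmin ⟨ht.1, hW⟩
    have h5 : ‖fderiv ℂ f z0‖ * ρ / 2 / ρ = ‖fderiv ℂ f z0‖ / 2 := by
      field_simp
    rw [h5] at hb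
    linarith

end RM
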