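import Mathlib

/-!
# Radon-Nikodym Valdivia compacta contain no copy of the ordinal interval up to omega_2

Let `K` be compact, embedded by `h` into a power of the real line such that the points with
countable support are dense, and let `d` be a lower semicontinuous metric on `K` that fragments
`K`.  We show (`card_supp_le`) that every point of `K` has support of size at most `ℵ₁`, and
(`no_copy`) that then `K` has no subspace homeomorphic to `[0, ω₂]`.

Outline.  Let `q` have support of size at least `ℵ₂` and choose distinct `g t` in it (`t < ω₂`).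

* If `C` is closed under (finite list, precision) to support of an approximating point of
  countable support, then the restriction of `q` to `C` is a point of `K` (`restrict_mem`).
* Take closed sets `M t` of size at most `ℵ₁`, increasing in `t`, with `g t` in `M t`; enumerate
  them by `ω₁` and let `N ν t` be the set of the first `ν` elements.  For fixed `ν` say
  `R ν t s` if `t ≤ s`, both `N ν t` and `N ν s` are closed and `N ν s ∩ M t = N ν t`.
  Let `Z ν t` be the closure of the restrictions of `q` to the sets `N ν s` with `R ν t s`.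
* Fragmentability gives an ordinal rank on `K` (`exists_rank`); let `xi ν t` be the maximal rank
  of a point of `Z ν t`.  For each `t` all but at most `ℵ₁` many `s > t` satisfy: for every `ν`
  with `R ν t s` one has `xi ν s < xi ν t`.
* So there is a sequence `T n` with these relations between consecutive terms, and a closing-off
  argument (`exists_nu`) gives one `ν` with `R ν (T n) (T (n+1))` for all `n`; then the ordinals
  `xi ν (T n)` are strictly decreasing, a contradiction.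
-/

open Cardinal Topology Set
open scoped Ordinal

namespace Pool.Agent.Helper787.RNValdivia

universe u v

/-! ### Cardinality helpers -/

theorem card_iUnion_le {α ι : Type u} {κ : Cardinal.{u}} (hκ : ℵ₀ ≤ κ) (hι : #ι ≤ κ)
    (f : ι → Set α) (hf : ∀ i, #(f i) ≤ κ) : #(⋃ i, f i) ≤ κ := by
  refine (mk_iUnion_le f).trans ?_
  have h1 : (⨆ i, #(f i)) ≤ κ := ciSup_le' hf
  calc #ι * ⨆ i, #(f i) ≤ κ * κ := mul_le_mul' hι h1
    _ = κ := mul_eq_self hκ

theorem card_iUnion_nat_le {α : Type u} {κ : Cardinal.{u}} (hκ : ℵ₀ ≤ κ)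
    (f : ℕ → Set α) (hf : ∀ i, #(f i) ≤ κ) : #(⋃ i, f i) ≤ κ := by
  have h : (⋃ i, f i) = ⋃ i : ULift.{u} ℕ, f i.down := by
    ext x
    simp only [mem_iUnion]
    constructor
    · rintro ⟨i, hi⟩; exact ⟨⟨i⟩, hi⟩
    · rintro ⟨i, hi⟩; exact ⟨i.down, hi⟩
  rw [h]
  refine card_iUnion_le hκ ?_ _ (fun i => hf i.down)
  simpa using hκ

theorem card_union_le {α : Type u} {κ : Cardinal.{u}} (hκ : ℵ₀ ≤ κ) {s t : Set α}
    (hs : #s ≤ κ) (ht : #t ≤ κ) : #(s ∪ t : Set α) ≤ κ := by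
  refine (mk_union_le s t).trans ?_
  calc #s + #t ≤ κ + κ := add_le_add hs ht
    _ = κ := add_eq_self hκ

/-! ### Closure under a list-valued operation -/

/-- `C` is closed under `Φ` -/
def IsCl {Γ : Type u} (Φ : List Γ → Set Γ) (C : Set Γ) : Prop :=
  ∀ l : List Γ, (∀ x ∈ l, x ∈ C) → Φ l ⊆ C

def step {Γ : Type u} (Φ : List Γ → Set Γ) (C : Set Γ) : Set Γ :=
  C ∪ ⋃ l : List C, Φ (l.map Subtype.val)

def clo {Γ : Type u} (Φ : List Γ → Set Γ) (C : Set Γ) : Set Γ := ⋃ n : ℕ, (step Φ)^[n] C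

theorem sub_step {Γ : Type u} (Φ : List Γ → Set Γ) (C : Set Γ) : C ⊆ step Φ C :=
  subset_union_left

theorem sub_clo {Γ : Type u} (Φ : List Γ → Set Γ) (C : Set Γ) : C ⊆ clo Φ C :=
  fun _ hx => mem_iUnion.mpr ⟨0, hx⟩

theorem iter_mono {Γ : Type u} (Φ : List Γ → Set Γ) (C : Set Γ) {m n : ℕ} (h : m ≤ n) :
    (step Φ)^[m] C ⊆ (step Φ)^[n] C := by
  induction n, h using Nat.le_induction with
  | base => exact subset_rfl
  | succ n _ ih =>
    rw [Function.iterate_succ_apply']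
    exact ih.trans (sub_step _ _)

theorem clo_isCl {Γ : Type u} (Φ : List Γ → Set Γ) (C : Set Γ) : IsCl Φ (clo Φ C) := by
  intro l hl
  have h1 : ∃ n, ∀ x ∈ l, x ∈ (step Φ)^[n] C := by
    induction l with
    | nil => exact ⟨0, by simp⟩
    | cons a l ih =>
      obtain ⟨n, hn⟩ := ih (fun x hx => hl x (by simp [hx]))
      obtain ⟨m, hm⟩ := mem_iUnion.mp (hl a (by simp))
      refine ⟨max m n, ?_⟩
      intro x hx
      rcases List.mem_cons.mp hx with rfl | hx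
      · exact iter_mono Φ C (le_max_left _ _) hm
      · exact iter_mono Φ C (le_max_right _ _) (hn x hx)
  obtain ⟨n, hn⟩ := h1
  intro y hy
  refine mem_iUnion.mpr ⟨n + 1, ?_⟩
  rw [Function.iterate_succ_apply']
  right
  refine mem_iUnion.mpr ⟨l.attach.map (fun x => ⟨x.1, hn x.1 x.2⟩), ?_⟩
  simpa [List.map_map, Function.comp_def] using hy

theorem clo_min {Γ : Type u} {Φ : List Γ → Set Γ} {C D : Set Γ} (hCD : C ⊆ D)
    (hD : IsCl Φ D) : clo Φ C ⊆ D := by
  have : ∀ n, (step Φ)^[n] C ⊆ D := by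
    intro n
    induction n with
    | zero => exact hCD
    | succ n ih =>
      rw [Function.iterate_succ_apply']
      refine union_subset ih (iUnion_subset fun l => ?_)
      refine hD _ ?_
      intro x hx
      simp only [List.mem_map] at hx
      obtain ⟨y, _, rfl⟩ := hx
      exact ih y.2
  exact iUnion_subset this

theorem clo_card {Γ : Type u} {Φ : List Γ → Set Γ} {κ : Cardinal.{u}} (hκ : ℵ₀ ≤ κ)
    (hΦ : ∀ l, #(Φ l) ≤ κ) {C : Set Γ} (hC : #C ≤ κ) : #(clo Φ C) ≤ κ := by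
  refine card_iUnion_nat_le hκ _ ?_
  intro n
  induction n with
  | zero => exact hC
  | succ n ih =>
    rw [Function.iterate_succ_apply']
    refine card_union_le hκ ih ?_
    refine card_iUnion_le hκ ?_ _ (fun l => hΦ _)
    exact (mk_list_le_max _).trans (max_le hκ ih)

/-! ### Restrictions of a point -/

section Restrict

variable {K Γ : Type u} [TopologicalSpace K] [CompactSpace K]

omit [CompactSpace K] in
theorem exists_approx {h : K → Γ → ℝ} (hemb : IsEmbedding h) {q : K} {B : Set K}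
    (hq : q ∈ closure B) (l : List Γ) (k : ℕ) :
    ∃ b ∈ B, ∀ γ ∈ l, |h b γ - h q γ| < 1 / ((k : ℝ) + 1) := by
  have hopen : IsOpen {x : K | ∀ γ ∈ l, |h x γ - h q γ| < 1 / ((k : ℝ) + 1)} := by
    have : {x : K | ∀ γ ∈ l, |h x γ - h q γ| < 1 / ((k : ℝ) + 1)} =
        ⋂ γ ∈ {γ | γ ∈ l}, {x : K | |h x γ - h q γ| < 1 / ((k : ℝ) + 1)} := by
      ext x; simp
    rw [this]
    refine (List.finite_toSet l).isOpen_biInter ?_
    intro γ _
    refine isOpen_lt ?_ continuous_const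
    exact (((continuous_apply γ).comp hemb.continuous).sub continuous_const).abs
  have hmem : q ∈ {x : K | ∀ γ ∈ l, |h x γ - h q γ| < 1 / ((k : ℝ) + 1)} := by
    intro γ _
    have h0 : |h q γ - h q γ| = 0 := by rw [sub_self, abs_zero]
    rw [h0]
    positivity
  obtain ⟨b, hb1, hb2⟩ := mem_closure_iff.mp hq _ hopen hmem
  exact ⟨b, hb2, hb1⟩

open Classical in
theorem restrict_mem {h : K → Γ → ℝ} (hemb : IsEmbedding h) {q : K}
    (b : List Γ → ℕ → K) (hb : ∀ l k, ∀ γ ∈ l, |h (b l k) γ - h q γ| < 1 / ((k : ℝ) + 1))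
    {C : Set Γ} (hC : IsCl (fun l => ⋃ k, {γ | h (b l k) γ ≠ 0}) C) :
    ∃ x ∈ closure {y | ∃ l k, (∀ γ ∈ l, γ ∈ C) ∧ y = b l k}, h x = C.indicator (h q) := by
  have h1 : C.indicator (h q) ∈ closure (h '' {y | ∃ l k, (∀ γ ∈ l, γ ∈ C) ∧ y = b l k}) := by
    rw [mem_closure_iff_nhds]
    intro t ht
    rw [nhds_pi, Filter.mem_pi] at ht
    obtain ⟨I, hI, s, hs, hsub⟩ := ht
    have h2 : ∀ i ∈ I, ∀ᶠ k : ℕ in Filter.atTop,
        Metric.ball (C.indicator (h q) i) (1 / ((k : ℝ) + 1)) ⊆ s i := by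
      intro i _
      obtain ⟨ε, hε, hball⟩ := Metric.mem_nhds_iff.mp (hs i)
      have h3 := (tendsto_one_div_add_atTop_nhds_zero_nat (𝕜 := ℝ)).eventually (gt_mem_nhds hε)
      filter_upwards [h3] with k hk
      exact (Metric.ball_subset_ball hk.le).trans hball
    obtain ⟨k, hk⟩ := ((Filter.eventually_all_finite hI).mpr h2).exists
    set l : List Γ := (hI.toFinset.filter (· ∈ C)).toList with hl
    have hlC : ∀ γ ∈ l, γ ∈ C := by
      intro γ hγ
      simp only [hl, Finset.mem_toList, Finset.mem_filter] at hγ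
      exact hγ.2
    refine ⟨h (b l k), hsub ?_, ⟨b l k, ⟨l, k, hlC, rfl⟩, rfl⟩⟩
    intro i hi
    refine hk i hi ?_
    rw [Metric.mem_ball, Real.dist_eq]
    by_cases hiC : i ∈ C
    · rw [indicator_of_mem hiC]
      refine hb l k i ?_
      simp [hl, hi, hiC]
    · rw [indicator_of_notMem hiC]
      have h4 : h (b l k) i = 0 := by
        by_contra hne
        exact hiC (hC l hlC (mem_iUnion.mpr ⟨k, hne⟩))
      have h0 : |h (b l k) i - 0| = 0 := by rw [h4, sub_zero, abs_zero]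
      rw [h0]
      positivity
  have h5 : closure (h '' {y | ∃ l k, (∀ γ ∈ l, γ ∈ C) ∧ y = b l k}) ⊆
      h '' closure {y | ∃ l k, (∀ γ ∈ l, γ ∈ C) ∧ y = b l k} := by
    refine closure_minimal (image_mono subset_closure) ?_
    exact (isClosed_closure.isCompact.image hemb.continuous).isClosed
  obtain ⟨x, hx, hx2⟩ := h5 h1
  exact ⟨x, hx, hx2⟩

end Restrict

/-! ### Rank from fragmentability -/

section Rank

variable {K : Type u} [TopologicalSpace K]

/-- union of the open sets with small trace on `C` -/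
def small (d : K → K → ℝ) (ε : ℝ) (C : Set K) : Set K :=
  ⋃₀ {U | IsOpen U ∧ ∀ x ∈ U ∩ C, ∀ y ∈ U ∩ C, d x y < ε}

theorem small_open (d : K → K → ℝ) (ε : ℝ) (C : Set K) : IsOpen (small d ε C) :=
  isOpen_sUnion fun _ h => h.1

/-- transfinite exhaustion -/
def Oo (d : K → K → ℝ) (ε : ℝ) (ξ : Ordinal.{u}) : Set K :=
  ⋃ η : Set.Iio ξ, small d ε (Oo d ε η.1)ᶜ
termination_by ξ
decreasing_by exact η.2

theorem exists_rank {d : K → K → ℝ} {ε : ℝ}
    (hfrag : ∀ L : Set K, L.Nonempty → ∃ U, IsOpen U ∧ (U ∩ L).Nonempty ∧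
      ∀ x ∈ U ∩ L, ∀ y ∈ U ∩ L, d x y < ε) :
    ∃ rk : K → Ordinal.{u}, ∀ x, ∃ V, IsOpen V ∧ x ∈ V ∧ (∀ y ∈ V, rk y ≤ rk x) ∧
      ∀ y ∈ V, ∀ y' ∈ V, rk y = rk x → rk y' = rk x → d y y' < ε := by
  have hmono : ∀ {η ξ : Ordinal.{u}}, η < ξ → small d ε (Oo d ε η)ᶜ ⊆ Oo d ε ξ := by
    intro η ξ h x hx
    rw [Oo]
    exact mem_iUnion.mpr ⟨⟨η, h⟩, hx⟩
  have hmem : ∀ {ξ : Ordinal.{u}} {x : K}, x ∈ Oo d ε ξ →
      ∃ η < ξ, x ∈ small d ε (Oo d ε η)ᶜ := by
    intro ξ x hx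
    rw [Oo] at hx
    obtain ⟨⟨η, h⟩, hx⟩ := mem_iUnion.mp hx
    exact ⟨η, h, hx⟩
  have hex : ∃ ξ : Ordinal.{u}, Oo d ε ξ = Set.univ := by
    by_contra hcon
    push Not at hcon
    have hlt : ∀ {η ξ : Ordinal.{u}}, η < ξ → Oo d ε η ≠ Oo d ε ξ := by
      intro η ξ h heq
      have hne : (Oo d ε η)ᶜ.Nonempty := by
        rw [nonempty_compl]; exact hcon η
      obtain ⟨U, hU, ⟨x, hxU, hx⟩, hs⟩ := hfrag _ hne
      have : x ∈ small d ε (Oo d ε η)ᶜ := ⟨U, ⟨hU, hs⟩, hxU⟩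
      have h2 := hmono h this
      rw [← heq] at h2
      exact hx h2
    refine not_injective_of_ordinal (fun ξ : Ordinal.{u} => Oo d ε ξ) ?_
    intro a b hab
    rcases lt_trichotomy a b with h | h | h
    · exact absurd hab (hlt h)
    · exact h
    · exact absurd hab.symm (hlt h)
  obtain ⟨ξ₀, hξ₀⟩ := hex
  have hne : ∀ x, {ξ : Ordinal.{u} | x ∈ small d ε (Oo d ε ξ)ᶜ}.Nonempty := by
    intro x
    obtain ⟨η, _, hη⟩ := hmem (ξ := ξ₀) (x := x) (by rw [hξ₀]; trivial)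
    exact ⟨η, hη⟩
  refine ⟨fun x => sInf {ξ : Ordinal.{u} | x ∈ small d ε (Oo d ε ξ)ᶜ}, ?_⟩
  intro x
  have hx : x ∈ small d ε (Oo d ε (sInf {ξ : Ordinal.{u} | x ∈ small d ε (Oo d ε ξ)ᶜ}))ᶜ :=
    csInf_mem (hne x)
  have hle : ∀ y ξ, y ∈ small d ε (Oo d ε ξ)ᶜ →
      sInf {ξ : Ordinal.{u} | y ∈ small d ε (Oo d ε ξ)ᶜ} ≤ ξ := fun y ξ h => csInf_le' h
  have hnot : ∀ y, y ∉ Oo d ε (sInf {ξ : Ordinal.{u} | y ∈ small d ε (Oo d ε ξ)ᶜ}) := by
    intro y hy
    obtain ⟨η, h1, h2⟩ := hmem hy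
    exact absurd (hle y η h2) (not_le.mpr h1)
  obtain ⟨U, ⟨hU, hs⟩, hxU⟩ := hx
  refine ⟨U ∩ small d ε (Oo d ε (sInf {ξ : Ordinal.{u} | x ∈ small d ε (Oo d ε ξ)ᶜ}))ᶜ,
    hU.inter (small_open _ _ _), ⟨hxU, csInf_mem (hne x)⟩, ?_, ?_⟩
  · intro y hy
    exact hle y _ hy.2
  · intro y hy y' hy' e e'
    refine hs y ⟨hy.1, ?_⟩ y' ⟨hy'.1, ?_⟩
    · have := hnot y
      simp only at e
      rw [e] at this
      exact this
    · have := hnot y'
      simp only at e'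
      rw [e'] at this
      exact this

end Rank

/-! ### Order-type lemmas -/

theorem exists_nu {J : Type u} [LinearOrder J] [WellFoundedLT J]
    (hJ1 : ∀ j : J, (Iio j).Countable) (hJ2 : ¬ (Set.univ : Set J).Countable)
    (Ψ : List J → Set J) (hΨ : ∀ l, (Ψ l).Countable) :
    ∃ ν : J, ∀ l : List J, (∀ x ∈ l, x < ν) → ∀ y ∈ Ψ l, y < ν := by
  have hc : ∀ l : List J, (Ψ l ∪ ⋃ x ∈ {x | x ∈ l}, Iio x).Countable := by
    intro l
    refine (hΨ l).union ?_
    exact (List.finite_toSet l).countable.biUnion (fun x _ => hJ1 x)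
  have hD := clo_isCl (fun l => Ψ l ∪ ⋃ x ∈ {x | x ∈ l}, Iio x) (∅ : Set J)
  have hDc : (clo (fun l => Ψ l ∪ ⋃ x ∈ {x | x ∈ l}, Iio x) (∅ : Set J)).Countable := by
    rw [← le_aleph0_iff_set_countable]
    refine clo_card le_rfl (fun l => ?_) (by simp)
    rw [le_aleph0_iff_set_countable]
    exact hc l
  generalize clo (fun l => Ψ l ∪ ⋃ x ∈ {x | x ∈ l}, Iio x) (∅ : Set J) = D at hD hDc
  have hne : (Dᶜ).Nonempty := by
    rw [nonempty_compl]
    intro h
    rw [h] at hDc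
    exact hJ2 hDc
  obtain ⟨ν, hν, hmin⟩ := WellFounded.has_min (wellFounded_lt (α := J)) Dᶜ hne
  have h1 : ∀ y, y < ν → y ∈ D := by
    intro y hy
    by_contra hyD
    exact hmin y hyD hy
  have h2 : ∀ y ∈ D, y < ν := by
    intro y hy
    by_contra hyν
    rcases eq_or_lt_of_le (not_lt.mp hyν) with h | h
    · exact hν (h ▸ hy)
    · apply hν
      refine hD [y] (by simpa using hy) (Or.inr ?_)
      simpa using h
  refine ⟨ν, fun l hl y hy => h2 y (hD l (fun x hx => h1 x (hl x hx)) (Or.inl hy))⟩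

theorem exists_pair {I Γ : Type u} [LinearOrder I] (hI : ∀ i : I, #(Iic i) ≤ ℵ₁)
    {S : Set I} (hS : ¬ #S ≤ ℵ₁) (g : I → Γ) (hg : Function.Injective g) (N : I → Set Γ)
    (hN : ∀ s ∈ S, (N s).Countable) : ∃ s ∈ S, ∃ s' ∈ S, s < s' ∧ g s ∉ N s' := by
  obtain ⟨S', hS'S, hS'⟩ := le_mk_iff_exists_subset.mp (not_le.mp hS).le
  have hT : #(⋃ x : S', Iic x.1 : Set I) ≤ ℵ₁ :=
    card_iUnion_le (aleph0_le_aleph 1) hS'.le _ (fun x => hI x.1)
  have hex : ∃ s' ∈ S, s' ∉ (⋃ x : S', Iic x.1 : Set I) := by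
    by_contra hcon
    push Not at hcon
    exact hS ((mk_le_mk_of_subset hcon).trans hT)
  obtain ⟨s', hs', hs'T⟩ := hex
  have hlt : ∀ x ∈ S', x < s' := by
    intro x hx
    by_contra hle
    exact hs'T (mem_iUnion.mpr ⟨⟨x, hx⟩, not_lt.mp hle⟩)
  by_contra hcon
  push Not at hcon
  have h1 : S' ⊆ g ⁻¹' (N s') := fun s hs => hcon s (hS'S hs) s' hs' (hlt s hs)
  have h2 : (g ⁻¹' (N s')).Countable := (hN s' hs').preimage_of_injOn hg.injOn
  have h3 : #S' ≤ ℵ₀ := by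
    rw [le_aleph0_iff_set_countable]; exact h2.mono h1
  rw [hS'] at h3
  exact absurd h3 (not_le.mpr aleph0_lt_aleph_one)

/-! ### The core argument -/

section Core

variable {K Γ I J : Type u} [TopologicalSpace K] [CompactSpace K] [LinearOrder I]
  [LinearOrder J] [WellFoundedLT J]

open Classical in
theorem core (hI : ∀ i : I, #(Iic i) ≤ ℵ₁) (hI2 : ¬ #I ≤ ℵ₁)
    (hJ1 : ∀ j : J, (Iio j).Countable) (hJ3 : #J = ℵ₁)
    {h : K → Γ → ℝ} (hemb : IsEmbedding h)
    (hdense : Dense {x : K | {γ | h x γ ≠ 0}.Countable})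
    {d : K → K → ℝ} {ε : ℝ}
    (hfrag : ∀ L : Set K, L.Nonempty → ∃ U, IsOpen U ∧ (U ∩ L).Nonempty ∧
      ∀ x ∈ U ∩ L, ∀ y ∈ U ∩ L, d x y < ε)
    {δ : ℝ} (q : K) {g : I → Γ} (hginj : Function.Injective g)
    (hδ : ∀ t, δ ≤ |h q (g t)|)
    (hsep : ∀ t x y, δ ≤ |h x (g t) - h y (g t)| → ε ≤ d x y) : False := by
  -- approximating points
  have hq : q ∈ closure {x : K | {γ | h x γ ≠ 0}.Countable} := hdense q
  choose b hbmem hb using fun l k => exists_approx hemb hq l k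
  obtain ⟨Φ, hΦdef⟩ : ∃ Φ : List Γ → Set Γ, Φ = fun l => ⋃ k, {γ | h (b l k) γ ≠ 0} := ⟨_, rfl⟩
  have hΦc : ∀ l, (Φ l).Countable := by
    intro l
    rw [hΦdef]
    exact countable_iUnion (fun k => hbmem l k)
  have hres : ∀ C, IsCl Φ C → ∃ x : K, h x = C.indicator (h q) := by
    intro C hC
    rw [hΦdef] at hC
    obtain ⟨x, _, hx⟩ := restrict_mem hemb b hb hC
    exact ⟨x, hx⟩
  -- the sets `M t`
  obtain ⟨M, hMdef⟩ : ∃ M : I → Set Γ, ∀ t, M t = clo Φ (g '' Iic t) := ⟨_, fun _ => rfl⟩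
  have hMcl : ∀ t, IsCl Φ (M t) := fun t => by rw [hMdef]; exact clo_isCl _ _
  have hMmem : ∀ {s t}, s ≤ t → g s ∈ M t := by
    intro s t hst
    rw [hMdef]
    exact sub_clo _ _ ⟨s, hst, rfl⟩
  have hMmono : ∀ {s t}, s ≤ t → M s ⊆ M t := by
    intro s t hst
    rw [hMdef s]
    refine clo_min ?_ (hMcl t)
    rintro _ ⟨r, hr, rfl⟩
    exact hMmem (le_trans hr hst)
  have hMcard : ∀ t, #(M t) ≤ ℵ₁ := by
    intro t
    rw [hMdef]
    refine clo_card (aleph0_le_aleph 1) (fun l => ?_) (mk_image_le.trans (hI t))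
    exact (le_aleph0_iff_set_countable.mpr (hΦc l)).trans (aleph0_le_aleph 1)
  -- enumerations
  have henum : ∀ t, ∃ e : J → Γ, range e = M t := by
    intro t
    have h1 : #(M t) ≤ #J := by rw [hJ3]; exact hMcard t
    obtain ⟨φ⟩ := Cardinal.le_def _ _ |>.mp h1
    have : Nonempty (M t) := ⟨⟨g t, hMmem le_rfl⟩⟩
    refine ⟨fun j => (Function.invFun φ j).1, ?_⟩
    ext γ
    constructor
    · rintro ⟨j, rfl⟩; exact (Function.invFun φ j).2
    · intro hγ
      refine ⟨φ ⟨γ, hγ⟩, ?_⟩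
      simp only [Function.leftInverse_invFun φ.injective _]
  choose e he using henum
  obtain ⟨N, hNdef⟩ : ∃ N : J → I → Set Γ, ∀ ν t, N ν t = e t '' Iio ν := ⟨_, fun _ _ => rfl⟩
  have hNc : ∀ ν t, (N ν t).Countable := fun ν t => by rw [hNdef]; exact (hJ1 ν).image _
  have hNM : ∀ ν t, N ν t ⊆ M t := by
    intro ν t
    rw [hNdef, ← he t]
    exact image_subset_range _ _
  obtain ⟨Good, hGood⟩ : ∃ Good : J → I → Prop, ∀ ν t, Good ν t ↔
      (IsCl Φ (N ν t) ∧ g t ∈ N ν t) := ⟨_, fun _ _ => Iff.rfl⟩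
  have hpt : ∀ ν t, ∃ x : K, Good ν t → h x = (N ν t).indicator (h q) := by
    intro ν t
    by_cases hG : Good ν t
    · obtain ⟨x, hx⟩ := hres _ ((hGood ν t).mp hG).1
      exact ⟨x, fun _ => hx⟩
    · exact ⟨q, fun h => absurd h hG⟩
  choose pt hpt using hpt
  obtain ⟨R, hR⟩ : ∃ R : J → I → I → Prop, ∀ ν t s, R ν t s ↔
      (t ≤ s ∧ Good ν t ∧ Good ν s ∧ N ν s ∩ M t = N ν t) := ⟨_, fun _ _ _ => Iff.rfl⟩
  have hRrefl : ∀ {ν t}, Good ν t → R ν t t := by
    intro ν t hG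
    rw [hR]
    exact ⟨le_rfl, hG, hG, inter_eq_left.mpr (hNM ν t)⟩
  have hRtrans : ∀ {ν t s u}, R ν t s → R ν s u → R ν t u := by
    intro ν t s u h1 h2
    rw [hR] at h1 h2 ⊢
    refine ⟨h1.1.trans h2.1, h1.2.1, h2.2.2.1, ?_⟩
    rw [← h1.2.2.2, ← h2.2.2.2, inter_assoc, inter_eq_right.mpr (hMmono h1.1)]
  obtain ⟨Z, hZdef⟩ : ∃ Z : J → I → Set K, ∀ ν t, Z ν t = closure {x | ∃ s, R ν t s ∧ x = pt ν s} :=
    ⟨_, fun _ _ => rfl⟩
  have hZclosed : ∀ ν t, IsClosed (Z ν t) := fun ν t => by rw [hZdef]; exact isClosed_closure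
  have hZne : ∀ {ν t}, Good ν t → (Z ν t).Nonempty := by
    intro ν t hG
    rw [hZdef]
    exact ⟨pt ν t, subset_closure ⟨t, hRrefl hG, rfl⟩⟩
  have hZmono : ∀ {ν t s}, R ν t s → Z ν s ⊆ Z ν t := by
    intro ν t s hts
    rw [hZdef, hZdef]
    refine closure_mono ?_
    rintro x ⟨u, hu, rfl⟩
    exact ⟨u, hRtrans hts hu, rfl⟩
  have hZval : ∀ {ν t z γ}, z ∈ Z ν t → γ ∈ M t → h z γ = (N ν t).indicator (h q) γ := by
    intro ν t z γ hz hγ
    rw [hZdef] at hz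
    have hcl : IsClosed {x : K | h x γ = (N ν t).indicator (h q) γ} :=
      isClosed_eq ((continuous_apply γ).comp hemb.continuous) continuous_const
    refine closure_minimal ?_ hcl hz
    rintro x ⟨s, hs, rfl⟩
    rw [hR] at hs
    obtain ⟨h1, h2, h3, h4⟩ := hs
    show h (pt ν s) γ = (N ν t).indicator (h q) γ
    rw [hpt ν s h3, ← h4]
    by_cases hγs : γ ∈ N ν s
    · rw [indicator_of_mem hγs, indicator_of_mem (show γ ∈ N ν s ∩ M t from ⟨hγs, hγ⟩)]
    · rw [indicator_of_notMem hγs, indicator_of_notMem (fun h => hγs h.1)]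
  -- rank
  obtain ⟨rk, hrk⟩ := exists_rank hfrag
  have husc : UpperSemicontinuous rk := by
    intro x y hxy
    obtain ⟨V, hV, hxV, h1, _⟩ := hrk x
    filter_upwards [hV.mem_nhds hxV] with z hz
    exact (h1 z hz).trans_lt hxy
  have hxi : ∀ ν t, ∃ ξ : Ordinal.{u}, Good ν t → (∃ z ∈ Z ν t, rk z = ξ) ∧
      ∀ z ∈ Z ν t, rk z ≤ ξ := by
    intro ν t
    by_cases hG : Good ν t
    · obtain ⟨z, hz, hmax⟩ := UpperSemicontinuousOn.exists_isMaxOn (hZne hG)
        (hZclosed ν t).isCompact (husc.upperSemicontinuousOn _)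
      exact ⟨rk z, fun _ => ⟨⟨z, hz, rfl⟩, fun y hy => hmax hy⟩⟩
    · exact ⟨0, fun h => absurd h hG⟩
  choose xi hxi using hxi
  have hximono : ∀ {ν t s}, R ν t s → xi ν s ≤ xi ν t := by
    intro ν t s hts
    have h1 := (hR _ _ _).mp hts
    obtain ⟨z, hz, hz2⟩ := (hxi ν s h1.2.2.1).1
    rw [← hz2]
    exact (hxi ν t h1.2.1).2 z (hZmono hts hz)
  -- few bad successors
  have hbad : ∀ ν t, #{s | t < s ∧ R ν t s ∧ xi ν s = xi ν t} ≤ ℵ₁ := by
    intro ν t
    by_contra hcon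
    obtain ⟨B, hBdef⟩ : ∃ B : Set I, B = {s | t < s ∧ R ν t s ∧ xi ν s = xi ν t} := ⟨_, rfl⟩
    rw [← hBdef] at hcon
    have hBne : B.Nonempty := by
      by_contra hne
      rw [not_nonempty_iff_eq_empty] at hne
      rw [hne] at hcon
      exact hcon (by simp)
    have hG : Good ν t := by
      obtain ⟨s, hs⟩ := hBne
      rw [hBdef] at hs
      exact ((hR _ _ _).mp hs.2.1).2.1
    have hz : ∀ s, ∃ z : K, s ∈ B → z ∈ Z ν s ∧ rk z = xi ν t := by
      intro s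
      by_cases hs : s ∈ B
      · have hs' := hs
        rw [hBdef] at hs'
        obtain ⟨z, hz, hz2⟩ := (hxi ν s ((hR _ _ _).mp hs'.2.1).2.2.1).1
        exact ⟨z, fun _ => ⟨hz, hz2.trans hs'.2.2⟩⟩
      · exact ⟨q, fun h => absurd h hs⟩
    choose z hz using hz
    have hTcl : IsClosed {x : K | xi ν t ≤ rk x} := by
      have : {x : K | xi ν t ≤ rk x} = {x | rk x < xi ν t}ᶜ := by
        ext x; simp
      rw [this, isClosed_compl_iff]
      exact husc.isOpen_preimage _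
    have hTcomp : IsCompact (Z ν t ∩ {x : K | xi ν t ≤ rk x}) :=
      ((hZclosed ν t).inter hTcl).isCompact
    choose V hVo hVm hV1 hV2 using hrk
    obtain ⟨F, hFs, hF⟩ := hTcomp.elim_nhds_subcover V
      (fun x _ => (hVo x).mem_nhds (hVm x))
    have hsub : ∀ s ∈ B, z s ∈ Z ν t := by
      intro s hs
      have hs' := hs
      rw [hBdef] at hs'
      exact hZmono hs'.2.1 (hz s hs).1
    have hcover : B ⊆ ⋃ c : F, {s | s ∈ B ∧ z s ∈ V c.1} := by
      intro s hs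
      have h1 : z s ∈ Z ν t ∩ {x : K | xi ν t ≤ rk x} := ⟨hsub s hs, (hz s hs).2.ge⟩
      have h2 := hF h1
      simp only [mem_iUnion] at h2
      obtain ⟨c, hc, hc2⟩ := h2
      exact mem_iUnion.mpr ⟨⟨c, hc⟩, hs, hc2⟩
    have hbig : ∃ c : F, ¬ #{s | s ∈ B ∧ z s ∈ V c.1} ≤ ℵ₁ := by
      by_contra hall
      push Not at hall
      apply hcon
      refine (mk_le_mk_of_subset hcover).trans (card_iUnion_le (aleph0_le_aleph 1) ?_ _ hall)
      exact (Cardinal.mk_le_aleph0 (α := F)).trans (aleph0_le_aleph 1)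
    obtain ⟨⟨c, hcF⟩, hc⟩ := hbig
    obtain ⟨s, hs, s', hs', hlt, hgs⟩ := exists_pair hI hc g hginj (N ν) (fun s _ => hNc ν s)
    have hcrk : rk c = xi ν t :=
      le_antisymm ((hxi ν t hG).2 c (hFs c hcF).1) (hFs c hcF).2
    have hd : d (z s) (z s') < ε := by
      refine hV2 c _ hs.2 _ hs'.2 ?_ ?_
      · rw [(hz s hs.1).2, hcrk]
      · rw [(hz s' hs'.1).2, hcrk]
    have hsB := hs.1
    rw [hBdef] at hsB
    have hgN : g s ∈ N ν s := ((hGood ν s).mp ((hR _ _ _).mp hsB.2.1).2.2.1).2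
    have e1 : h (z s) (g s) = h q (g s) := by
      rw [hZval (hz s hs.1).1 (hMmem le_rfl), indicator_of_mem hgN]
    have e2 : h (z s') (g s) = 0 := by
      rw [hZval (hz s' hs'.1).1 (hMmem hlt.le), indicator_of_notMem hgs]
    have := hsep s (z s) (z s') (by rw [e1, e2, sub_zero]; exact hδ s)
    linarith
  have hnx : ∀ t, ∃ s, t < s ∧ ∀ ν, R ν t s → xi ν s < xi ν t := by
    intro t
    have h1 : #(⋃ ν : J, {s | t < s ∧ R ν t s ∧ xi ν s = xi ν t} : Set I) ≤ ℵ₁ :=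
      card_iUnion_le (aleph0_le_aleph 1) hJ3.le _ (fun ν => hbad ν t)
    have h2 := card_union_le (aleph0_le_aleph 1) (hI t) h1
    have h3 : ∃ s, s ∉ Iic t ∪ (⋃ ν : J, {s | t < s ∧ R ν t s ∧ xi ν s = xi ν t} : Set I) := by
      by_contra hcon
      push Not at hcon
      apply hI2
      have h4 : (Set.univ : Set I) ⊆
          Iic t ∪ (⋃ ν : J, {s | t < s ∧ R ν t s ∧ xi ν s = xi ν t} : Set I) :=
        fun s _ => hcon s
      rw [← mk_univ]
      exact (mk_le_mk_of_subset h4).trans h2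
    obtain ⟨s, hs⟩ := h3
    rw [mem_union, not_or] at hs
    have hts : t < s := not_le.mp hs.1
    refine ⟨s, hts, fun ν hν => lt_of_le_of_ne (hximono hν) ?_⟩
    intro heq
    exact hs.2 (mem_iUnion.mpr ⟨ν, hts, hν, heq⟩)
  choose nx hnx1 hnx2 using hnx
  have hIne : Nonempty I := by
    by_contra hne
    rw [not_nonempty_iff] at hne
    exact hI2 (by simp)
  obtain ⟨t0⟩ := hIne
  obtain ⟨T, hT⟩ : ∃ T : ℕ → I, ∀ n, T (n + 1) = nx (T n) :=
    ⟨fun n => nx^[n] t0, fun n => Function.iterate_succ_apply' _ _ _⟩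
  have hJne : Nonempty J := by
    by_contra hne
    rw [not_nonempty_iff] at hne
    have : #J = 0 := mk_eq_zero J
    rw [hJ3] at this
    exact (aleph_pos 1).ne' this
  have hidx : ∀ t γ, ∃ j, γ ∈ M t → e t j = γ := by
    intro t γ
    by_cases hγ : γ ∈ M t
    · rw [← he t] at hγ
      obtain ⟨j, hj⟩ := hγ
      exact ⟨j, fun _ => hj⟩
    · exact ⟨Classical.arbitrary J, fun h => absurd h hγ⟩
  choose idx hidx using hidx
  have hJ2 : ¬ (Set.univ : Set J).Countable := by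
    rw [← le_aleph0_iff_set_countable, mk_univ, hJ3]
    exact not_le.mpr aleph0_lt_aleph_one
  obtain ⟨ν, hν⟩ := exists_nu hJ1 hJ2 (fun l =>
      (range (fun n => idx (T n) (g (T n)))) ∪
      (⋃ n, idx (T n) '' Φ (l.map (e (T n)))) ∪
      (⋃ n, ⋃ m, ⋃ i ∈ {i | i ∈ l}, {idx (T m) (e (T n) i)})) (by
    intro l
    refine ((countable_range _).union ?_).union ?_
    · exact countable_iUnion (fun n => (hΦc _).image _)
    · refine countable_iUnion (fun n => countable_iUnion (fun m => ?_))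
      exact (List.finite_toSet l).countable.biUnion (fun i _ => countable_singleton _))
  have hν1 : ∀ n, idx (T n) (g (T n)) < ν := by
    intro n
    refine hν [] (by simp) _ (Or.inl (Or.inl ⟨n, rfl⟩))
  have hν2 : ∀ n (l : List J), (∀ x ∈ l, x < ν) → ∀ γ ∈ Φ (l.map (e (T n))),
      idx (T n) γ < ν := by
    intro n l hl γ hγ
    exact hν l hl _ (Or.inl (Or.inr (mem_iUnion.mpr ⟨n, γ, hγ, rfl⟩)))
  have hν3 : ∀ n m i, i < ν → idx (T m) (e (T n) i) < ν := by
    intro n m i hi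
    refine hν [i] (by simpa using hi) _ (Or.inr ?_)
    simp only [mem_iUnion]
    exact ⟨n, m, i, by simp, rfl⟩
  have hgood : ∀ n, Good ν (T n) := by
    intro n
    rw [hGood]
    constructor
    · intro l hl
      have h1 : ∃ l' : List J, (∀ x ∈ l', x < ν) ∧ l'.map (e (T n)) = l := by
        clear hν hν1 hν2 hν3
        induction l with
        | nil => exact ⟨[], by simp, rfl⟩
        | cons a l ih =>
          obtain ⟨l', h1, h2⟩ := ih (fun x hx => hl x (by simp [hx]))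
          have h3 := hl a (by simp)
          rw [hNdef] at h3
          obtain ⟨j, hj, hj2⟩ := h3
          refine ⟨j :: l', ?_, ?_⟩
          · intro x hx
            rcases List.mem_cons.mp hx with rfl | hx
            · exact hj
            · exact h1 x hx
          · rw [List.map_cons, hj2, h2]
      obtain ⟨l', h1, h2⟩ := h1
      intro γ hγ
      have h3 : γ ∈ M (T n) := hMcl (T n) l (fun x hx => hNM _ _ (hl x hx)) hγ
      rw [hNdef]
      refine ⟨idx (T n) γ, ?_, hidx _ _ h3⟩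
      refine hν2 n l' h1 γ ?_
      rw [h2]; exact hγ
    · rw [hNdef]
      exact ⟨idx (T n) (g (T n)), hν1 n, hidx _ _ (hMmem le_rfl)⟩
  have hRT : ∀ n, R ν (T n) (T (n + 1)) := by
    intro n
    have hlt : T n < T (n + 1) := by rw [hT]; exact hnx1 _
    rw [hR]
    refine ⟨hlt.le, hgood n, hgood (n + 1), ?_⟩
    apply Subset.antisymm
    · rintro γ ⟨h1, h2⟩
      rw [hNdef] at h1 ⊢
      obtain ⟨i, hi, rfl⟩ := h1
      exact ⟨idx (T n) (e (T (n + 1)) i), hν3 _ _ i hi, hidx _ _ h2⟩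
    · intro γ hγ
      refine ⟨?_, hNM _ _ hγ⟩
      have h2 : γ ∈ M (T (n + 1)) := hMmono hlt.le (hNM _ _ hγ)
      rw [hNdef] at hγ ⊢
      obtain ⟨i, hi, rfl⟩ := hγ
      exact ⟨idx (T (n + 1)) (e (T n) i), hν3 _ _ i hi, hidx _ _ h2⟩
  have hdec : ∀ n, xi ν (T (n + 1)) < xi ν (T n) := by
    intro n
    have := hRT n
    rw [hT] at this ⊢
    exact hnx2 _ _ this
  obtain ⟨_, ⟨n, rfl⟩, hmin⟩ := WellFounded.has_min (wellFounded_lt (α := Ordinal.{u}))
    (range (fun n => xi ν (T n))) ⟨_, ⟨0, rfl⟩⟩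
  exact hmin _ ⟨n + 1, rfl⟩ (hdec n)

end Core

/-! ### Assembly -/

theorem lt_aleph_two_iff {c : Cardinal.{u}} : c < ℵ_ 2 ↔ c ≤ ℵ₁ := by
  have h : (ℵ_ 2 : Cardinal.{u}) = Order.succ (ℵ_ 1) := by
    rw [succ_aleph, one_add_one_eq_two]
  rw [h, Order.lt_succ_iff]

section Main

variable {K Γ : Type u} [TopologicalSpace K] [CompactSpace K]

/-- In a Radon-Nikodym compact space embedded with dense `Σ`-points, all supports have size
at most `ℵ₁`. -/
theorem card_supp_le {h : K → Γ → ℝ} (hemb : IsEmbedding h)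
    (hdense : Dense {x : K | {γ | h x γ ≠ 0}.Countable})
    {d : K → K → ℝ} (hpos : ∀ x y, x ≠ y → 0 < d x y)
    (hlsc : LowerSemicontinuous (fun p : K × K => d p.1 p.2))
    (hfrag : ∀ L : Set K, L.Nonempty → ∀ ε > 0, ∃ U, IsOpen U ∧ (U ∩ L).Nonempty ∧
      ∀ x ∈ U ∩ L, ∀ y ∈ U ∩ L, d x y < ε) (q : K) : #{γ | h q γ ≠ 0} ≤ ℵ₁ := by
  by_contra hcon
  obtain ⟨S, hS⟩ : ∃ S : ℕ → ℕ → Set Γ, ∀ k m, S k m = {γ | 1 / ((k : ℝ) + 1) ≤ |h q γ| ∧
      ∀ x y, 1 / ((k : ℝ) + 1) ≤ |h x γ - h y γ| → 1 / ((m : ℝ) + 1) ≤ d x y} :=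
    ⟨_, fun _ _ => rfl⟩
  have hcover : {γ | h q γ ≠ 0} ⊆ ⋃ k, ⋃ m, S k m := by
    intro γ hγ
    obtain ⟨k, hk⟩ := exists_nat_one_div_lt (abs_pos.mpr hγ)
    have hk0 : 0 < 1 / ((k : ℝ) + 1) := Nat.one_div_pos_of_nat
    have hm : ∃ m : ℕ, ∀ x y, 1 / ((k : ℝ) + 1) ≤ |h x γ - h y γ| →
        1 / ((m : ℝ) + 1) ≤ d x y := by
      have hcont : Continuous (fun p : K × K => |h p.1 γ - h p.2 γ|) :=
        (((continuous_apply γ).comp (hemb.continuous.comp continuous_fst)).sub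
          ((continuous_apply γ).comp (hemb.continuous.comp continuous_snd))).abs
      have hE : IsClosed {p : K × K | 1 / ((k : ℝ) + 1) ≤ |h p.1 γ - h p.2 γ|} :=
        isClosed_le continuous_const hcont
      rcases Set.eq_empty_or_nonempty
        {p : K × K | 1 / ((k : ℝ) + 1) ≤ |h p.1 γ - h p.2 γ|} with he | hne
      · refine ⟨0, fun x y hxy => ?_⟩
        have : (x, y) ∈ {p : K × K | 1 / ((k : ℝ) + 1) ≤ |h p.1 γ - h p.2 γ|} := hxy
        rw [he] at this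
        exact absurd this (notMem_empty _)
      · obtain ⟨⟨x0, y0⟩, hmem, hmin⟩ := LowerSemicontinuousOn.exists_isMinOn hne hE.isCompact
          (hlsc.lowerSemicontinuousOn _)
        have hne0 : x0 ≠ y0 := by
          rintro rfl
          have : 1 / ((k : ℝ) + 1) ≤ |h x0 γ - h x0 γ| := hmem
          rw [sub_self, abs_zero] at this
          linarith
        obtain ⟨m, hm⟩ := exists_nat_one_div_lt (hpos x0 y0 hne0)
        refine ⟨m, fun x y hxy => hm.le.trans ?_⟩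
        exact hmin (show (x, y) ∈ _ from hxy)
    obtain ⟨m, hm⟩ := hm
    refine mem_iUnion.mpr ⟨k, mem_iUnion.mpr ⟨m, ?_⟩⟩
    rw [hS]
    exact ⟨hk.le, hm⟩
  have hbig : ∃ k m, ¬ #(S k m) ≤ ℵ₁ := by
    by_contra hall
    push Not at hall
    exact hcon ((mk_le_mk_of_subset hcover).trans (card_iUnion_nat_le (aleph0_le_aleph 1) _
      (fun k => card_iUnion_nat_le (aleph0_le_aleph 1) _ (fun m => hall k m))))
  obtain ⟨k, m, hkm⟩ := hbig
  have h2 : #((ℵ_ 2 : Cardinal.{u}).ord.ToType) ≤ #(S k m) := by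
    rw [mk_ord_toType]
    by_contra hlt
    exact hkm (lt_aleph_two_iff.mp (not_le.mp hlt))
  obtain ⟨φ⟩ := (Cardinal.le_def _ _).mp h2
  have hI : ∀ i : (ℵ_ 2 : Cardinal.{u}).ord.ToType, #(Iic i) ≤ ℵ₁ := by
    intro i
    have h3 : #(Iio i) ≤ ℵ₁ := by
      rw [← lt_aleph_two_iff]
      simpa using mk_Iio_lt i
    have h4 : Iic i ⊆ Iio i ∪ {i} := by
      intro x hx
      rcases lt_or_eq_of_le (show x ≤ i from hx) with h | h
      · left; exact h
      · right; exact h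
    refine (mk_le_mk_of_subset h4).trans (card_union_le (aleph0_le_aleph 1) h3 ?_)
    rw [mk_singleton]
    exact one_le_aleph0.trans (aleph0_le_aleph 1)
  have hI2 : ¬ #((ℵ_ 2 : Cardinal.{u}).ord.ToType) ≤ ℵ₁ := by
    rw [← lt_aleph_two_iff, mk_ord_toType]
    exact lt_irrefl _
  have hJ1 : ∀ j : (ℵ_ 1 : Cardinal.{u}).ord.ToType, (Iio j).Countable := by
    intro j
    rw [← le_aleph0_iff_set_countable, ← lt_aleph_one_iff]
    simpa using mk_Iio_lt j
  have hkey : ∀ γ ∈ S k m, 1 / ((k : ℝ) + 1) ≤ |h q γ| ∧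
      ∀ x y, 1 / ((k : ℝ) + 1) ≤ |h x γ - h y γ| → 1 / ((m : ℝ) + 1) ≤ d x y := by
    intro γ hγ
    rw [hS] at hγ
    exact hγ
  refine core (I := (ℵ_ 2 : Cardinal.{u}).ord.ToType) (J := (ℵ_ 1 : Cardinal.{u}).ord.ToType)
    hI hI2 hJ1 (mk_ord_toType _) hemb hdense (d := d) (ε := 1 / ((m : ℝ) + 1))
    (fun L hL => hfrag L hL _ Nat.one_div_pos_of_nat) (δ := 1 / ((k : ℝ) + 1)) q
    (g := fun i => (φ i).1) ?_ ?_ ?_
  · intro a b hab
    exact φ.injective (Subtype.ext hab)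
  · exact fun t => (hkey _ (φ t).2).1
  · exact fun t => (hkey _ (φ t).2).2

/-- If all supports have size at most `ℵ₁` there is no copy of `[0, ω₂]`. -/
theorem no_copy {h : K → Γ → ℝ} (hemb : IsEmbedding h)
    (hsupp : ∀ q : K, #{γ | h q γ ≠ 0} ≤ ℵ₁) :
    ¬ ∃ f : Set.Iic (ℵ_ 2 : Cardinal.{u}).ord → K, IsEmbedding f := by
  rintro ⟨f, hf⟩
  obtain ⟨top, htop⟩ : ∃ top : Set.Iic (ℵ_ 2 : Cardinal.{u}).ord,
      top.1 = (ℵ_ 2 : Cardinal.{u}).ord := ⟨⟨(ℵ_ 2 : Cardinal.{u}).ord, mem_Iic.mpr le_rfl⟩, rfl⟩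
  have hlim : Order.IsSuccLimit (ℵ_ 2 : Cardinal.{u}).ord := isSuccLimit_ord (aleph0_le_aleph 2)
  have h1 : top ∈ closure {u : Set.Iic (ℵ_ 2 : Cardinal.{u}).ord |
      u.1 < (ℵ_ 2 : Cardinal.{u}).ord} := by
    rw [closure_subtype, htop]
    have h2 : (Subtype.val '' {u : Set.Iic (ℵ_ 2 : Cardinal.{u}).ord |
        u.1 < (ℵ_ 2 : Cardinal.{u}).ord}) = Iio (ℵ_ 2 : Cardinal.{u}).ord := by
      ext x
      constructor
      · rintro ⟨u, hu, rfl⟩; exact hu
      · intro hx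
        exact ⟨⟨x, mem_Iic.mpr (le_of_lt (mem_Iio.mp hx))⟩, hx, rfl⟩
    rw [h2]
    refine IsLUB.mem_closure (hlim.isLUB_Iio) ?_
    exact ⟨0, hlim.bot_lt⟩
  have hq : f top ∈ closure (f '' {u : Set.Iic (ℵ_ 2 : Cardinal.{u}).ord |
      u.1 < (ℵ_ 2 : Cardinal.{u}).ord}) := image_closure_subset_closure_image hf.continuous
      ⟨top, h1, rfl⟩
  choose b hbmem hb using fun l k => exists_approx hemb hq l k
  choose u hu hfu using hbmem
  obtain ⟨C, hC⟩ : ∃ C : Set Γ, C = clo (fun l => ⋃ k, {γ | h (b l k) γ ≠ 0})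
      {γ | h (f top) γ ≠ 0} := ⟨_, rfl⟩
  have hCcard : #C ≤ ℵ₁ := by
    rw [hC]
    refine clo_card (aleph0_le_aleph 1) (fun l => ?_) (hsupp _)
    exact card_iUnion_nat_le (aleph0_le_aleph 1) _ (fun k => hsupp _)
  obtain ⟨x, hx, hx2⟩ := restrict_mem hemb b hb (hC ▸ clo_isCl _ _)
  have hx3 : h x = h (f top) := by
    rw [hx2]
    ext γ
    by_cases hγ : γ ∈ C
    · rw [indicator_of_mem hγ]
    · rw [indicator_of_notMem hγ]
      by_contra hne
      apply hγ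
      rw [hC]
      exact sub_clo _ _ (fun h0 => hne h0.symm)
  rw [hemb.injective hx3] at hx
  obtain ⟨v, hv⟩ : ∃ v : Ordinal.{u}, v = ⨆ i : List C × ULift.{u} ℕ,
      (u (i.1.map Subtype.val) i.2.down).1 := ⟨_, rfl⟩
  have hcard : #(List C × ULift.{u} ℕ) ≤ ℵ₁ := by
    rw [mk_prod, lift_id, lift_id]
    calc #(List C) * #(ULift.{u} ℕ) ≤ ℵ₁ * ℵ₁ := by
          refine mul_le_mul' ?_ ?_
          · exact (mk_list_le_max _).trans (max_le (aleph0_le_aleph 1) hCcard)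
          · have : #(ULift.{u} ℕ) = ℵ₀ := by simp
            rw [this]
            exact aleph0_le_aleph 1
      _ = ℵ₁ := mul_eq_self (aleph0_le_aleph 1)
  have hreg : Cardinal.IsRegular (ℵ_ 2 : Cardinal.{u}) := by
    have : (ℵ_ 2 : Cardinal.{u}) = ℵ_ (1 + 1) := by rw [one_add_one_eq_two]
    rw [this]
    exact isRegular_aleph_add_one 1
  have hvlt : v < (ℵ_ 2 : Cardinal.{u}).ord := by
    rw [hv]
    refine Ordinal.iSup_lt_of_lt_cof ?_ (fun i => hu _ _)
    rw [hreg.cof_ord]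
    exact lt_aleph_two_iff.mpr hcard
  have hsub : {y | ∃ l k, (∀ γ ∈ l, γ ∈ C) ∧ y = b l k} ⊆
      f '' {w : Set.Iic (ℵ_ 2 : Cardinal.{u}).ord | w.1 ≤ v} := by
    rintro y ⟨l, k, hl, rfl⟩
    refine ⟨u l k, ?_, hfu l k⟩
    have h3 : l = (l.attach.map (fun x => (⟨x.1, hl x.1 x.2⟩ : C))).map Subtype.val := by
      simp [List.map_map, Function.comp_def]
    have h4 := Ordinal.le_iSup (fun i : List C × ULift.{u} ℕ =>
      (u (i.1.map Subtype.val) i.2.down).1) (l.attach.map (fun x => ⟨x.1, hl x.1 x.2⟩), ⟨k⟩)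
    rw [← hv] at h4
    simp only [← h3] at h4
    exact h4
  have h5 : f top ∈ closure (f '' {w : Set.Iic (ℵ_ 2 : Cardinal.{u}).ord | w.1 ≤ v}) :=
    closure_mono hsub hx
  have h6 : top ∈ closure {w : Set.Iic (ℵ_ 2 : Cardinal.{u}).ord | w.1 ≤ v} := by
    rw [hf.closure_eq_preimage_closure_image]
    exact h5
  have h7 : IsClosed {w : Set.Iic (ℵ_ 2 : Cardinal.{u}).ord | w.1 ≤ v} :=
    isClosed_Iic.preimage continuous_subtype_val
  rw [h7.closure_eq] at h6
  have h8 : top.1 ≤ v := h6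
  rw [htop] at h8
  exact absurd hvlt (not_lt.mpr h8)

end Main

end Pool.Agent.Helper787.RNValdivia
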